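import Pool.Agent.H132.SQ.Ka

/-!
# The symbol of the operator, the approximate solution
-/

set_option autoImplicit false

namespace KN.SQ

open Finset Filter Topology
open scoped Classical ENNReal ComplexConjugate

noncomputable section

theorem pow_sub_pow_bd {x y : ℂ} (hx : ‖x‖ ≤ 2) (hy : ‖y‖ ≤ 2) (n : ℕ) :
    ‖x ^ n - y ^ n‖ ≤ 4 ^ n * ‖x - y‖ := by
  induction n with
  | zero => simp
  | succ n ih =>
    have e1 : x ^ (n + 1) - y ^ (n + 1) = x * (x ^ n - y ^ n) + (x - y) * y ^ n := by ring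
    rw [e1]
    refine (norm_add_le _ _).trans ?_
    rw [norm_mul, norm_mul, norm_pow]
    have h1 : ‖y‖ ^ n ≤ 4 ^ n := pow_le_pow_left₀ (norm_nonneg _) (by linarith) n
    have h2 := norm_nonneg (x - y)
    have h3 : ‖x‖ * ‖x ^ n - y ^ n‖ ≤ 2 * (4 ^ n * ‖x - y‖) :=
      mul_le_mul hx ih (norm_nonneg _) (by norm_num)
    have h4 : ‖x - y‖ * ‖y‖ ^ n ≤ ‖x - y‖ * 4 ^ n := mul_le_mul_of_nonneg_left h1 h2
    have h5 : 0 ≤ 4 ^ n * ‖x - y‖ := by positivity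
    rw [pow_succ]
    linarith

theorem pow_taylor_bd {x y : ℂ} (hx : ‖x‖ ≤ 2) (hy : ‖y‖ ≤ 1) (n : ℕ) :
    ‖x ^ (n + 1) - y ^ (n + 1) - ((n + 1 : ℕ) : ℂ) * y ^ n * (x - y)‖ ≤
      4 ^ n * ‖x - y‖ ^ 2 := by
  induction n with
  | zero => simp
  | succ n ih =>
    have e1 : x ^ (n + 1 + 1) - y ^ (n + 1 + 1) - ((n + 1 + 1 : ℕ) : ℂ) * y ^ (n + 1) * (x - y) =
        x * (x ^ (n + 1) - y ^ (n + 1) - ((n + 1 : ℕ) : ℂ) * y ^ n * (x - y)) +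
        ((n + 1 : ℕ) : ℂ) * y ^ n * (x - y) ^ 2 := by
      push_cast; ring
    rw [e1]
    refine (norm_add_le _ _).trans ?_
    rw [norm_mul, norm_mul, norm_mul, norm_pow, norm_pow, Complex.norm_natCast]
    have h1 : ‖y‖ ^ n ≤ 1 := pow_le_one₀ (norm_nonneg _) hy
    have h2 : ((n + 1 : ℕ) : ℝ) ≤ 4 ^ n := by
      have : n + 1 ≤ 4 ^ n := Nat.lt_pow_self (by norm_num)
      exact_mod_cast this
    have h3 : ‖x‖ * ‖x ^ (n + 1) - y ^ (n + 1) - ((n + 1 : ℕ) : ℂ) * y ^ n * (x - y)‖ ≤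
        2 * (4 ^ n * ‖x - y‖ ^ 2) := mul_le_mul hx ih (norm_nonneg _) (by norm_num)
    have h5 : 0 ≤ ‖x - y‖ ^ 2 := by positivity
    have h4 : ((n + 1 : ℕ) : ℝ) * ‖y‖ ^ n * ‖x - y‖ ^ 2 ≤ 4 ^ n * ‖x - y‖ ^ 2 := by
      refine mul_le_mul_of_nonneg_right ?_ h5
      calc ((n + 1 : ℕ) : ℝ) * ‖y‖ ^ n ≤ 4 ^ n * 1 :=
            mul_le_mul h2 h1 (by positivity) (by positivity)
        _ = _ := by ring
    have h6 : 0 ≤ 4 ^ n * ‖x - y‖ ^ 2 := by positivity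
    rw [pow_succ 4 n]
    linarith

theorem nat_cube (n : ℕ) : n ^ 3 ≤ 4 ^ n := by
  rcases Nat.lt_or_ge n 2 with h | h
  · interval_cases n <;> norm_num
  · induction n, h using Nat.le_induction with
    | base => norm_num
    | succ n hn ih =>
      calc (n + 1) ^ 3 ≤ n ^ 3 * 4 := by
            obtain ⟨k, rfl⟩ : ∃ k, n = k + 2 := ⟨n - 2, by omega⟩
            ring_nf
            nlinarith [Nat.zero_le k, Nat.zero_le (k ^ 2), Nat.zero_le (k ^ 3)]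
        _ ≤ 4 ^ n * 4 := Nat.mul_le_mul_right _ ih
        _ = _ := by ring

theorem nat_sq4 (n : ℕ) : n ^ 2 ≤ 4 ^ n := by
  have h : n < 2 ^ n := Nat.lt_two_pow_self
  calc n ^ 2 ≤ (2 ^ n) ^ 2 := Nat.pow_le_pow_left h.le 2
    _ = (2 ^ 2) ^ n := by rw [← pow_mul, mul_comm, pow_mul]
    _ = _ := by norm_num

namespace Mdl

variable {M : Mdl} {C : Cap}

theorem qc_norm1 : ‖(M.qc : ℂ)‖ ≤ 1 := by
  rw [Complex.norm_real, Real.norm_eq_abs, abs_of_pos M.qc_pos]; exact M.qc_lt.le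

theorem w_sub_W {q : ℂ} (hq : ‖q‖ ≤ 2) (b : M.ι) :
    ‖M.w q b - M.W b‖ ≤ 16 * 4 ^ M.L b * M.c b * ‖q - M.qc‖ := by
  have e : M.w q b - M.W b = (M.c b : ℂ) * (q ^ (M.L b + 2) - (M.qc : ℂ) ^ (M.L b + 2)) := by
    unfold w W; push_cast; ring
  rw [e, norm_mul, Complex.norm_real, Real.norm_eq_abs, abs_of_nonneg (M.c0 b)]
  have h := pow_sub_pow_bd hq M.qc_norm (M.L b + 2)
  have := mul_le_mul_of_nonneg_left h (M.c0 b)
  refine this.trans (le_of_eq ?_)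
  rw [pow_add]; ring

theorem w_taylor {q : ℂ} (hq : ‖q‖ ≤ 2) (b : M.ι) :
    ‖M.w q b - M.W b - M.w' (M.qc : ℂ) b * (q - M.qc)‖ ≤
      4 * 4 ^ M.L b * M.c b * ‖q - M.qc‖ ^ 2 := by
  have e : M.w q b - M.W b - M.w' (M.qc : ℂ) b * (q - M.qc) = (M.c b : ℂ) *
      (q ^ (M.L b + 1 + 1) - (M.qc : ℂ) ^ (M.L b + 1 + 1) -
        ((M.L b + 1 + 1 : ℕ) : ℂ) * (M.qc : ℂ) ^ (M.L b + 1) * (q - M.qc)) := by
    unfold w W w'; push_cast; ring
  rw [e, norm_mul, Complex.norm_real, Real.norm_eq_abs, abs_of_nonneg (M.c0 b)]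
  have h := pow_taylor_bd hq (qc_norm1 (M := M)) (M.L b + 1)
  have := mul_le_mul_of_nonneg_left h (M.c0 b)
  refine this.trans (le_of_eq ?_)
  rw [pow_add]; ring

theorem w_norm' {q : ℂ} (hq : ‖q‖ ≤ 2) (b : M.ι) : ‖M.w q b‖ ≤ 4 * 2 ^ M.L b * M.c b := by
  unfold w
  rw [norm_mul, norm_pow, Complex.norm_real, Real.norm_eq_abs, abs_of_nonneg (M.c0 b)]
  have := mul_le_mul_of_nonneg_left (pow_le_pow_left₀ (norm_nonneg _) hq (M.L b + 2)) (M.c0 b)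
  refine this.trans (le_of_eq ?_)
  rw [pow_add]; ring

theorem vn_le (b : M.ι) : (M.v b).natAbs ≤ M.L b := by
  have := M.vL b
  rw [Int.abs_eq_natAbs] at this; exact_mod_cast this

theorem exp_kv {κ : ℂ} (h : ‖κ‖ ≤ 1 / 100) (b : M.ι) :
    ‖κ * (M.v b : ℂ)‖ ≤ ‖κ‖ * M.L b ∧ Real.exp ‖κ * (M.v b : ℂ)‖ ≤ 2 ^ M.L b := by
  have h1 : ‖κ * (M.v b : ℂ)‖ ≤ ‖κ‖ * M.L b := by
    rw [norm_mul]
    refine mul_le_mul_of_nonneg_left ?_ (norm_nonneg _)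
    have : ((M.v b : ℤ) : ℂ) = ((M.v b : ℝ) : ℂ) := by push_cast; rfl
    rw [this, Complex.norm_real]
    exact M.v_abs_le b
  exact ⟨h1, (Real.exp_le_exp.2 h1).trans (exp_small h _)⟩

/-- the symbol -/
def Ph (M : Mdl) (q κ : ℂ) : ℂ :=
  (q ^ 2 - (M.qc : ℂ) ^ 2) + ∑' b, (M.w q b * Complex.exp (κ * (M.v b : ℂ)) - M.W b)

theorem Ph_summable {q κ : ℂ} (hq : ‖q‖ ≤ 2) (hκ : ‖κ‖ ≤ 1 / 100) :
    Summable fun b => (M.w q b * Complex.exp (κ * (M.v b : ℂ)) - M.W b) := by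
  refine Summable.of_norm_bounded (M.sm.mul_left 2) fun b => ?_
  refine (norm_sub_le _ _).trans ?_
  rw [norm_mul, Complex.norm_real, Real.norm_eq_abs, abs_of_nonneg (M.W_nonneg b)]
  have h1 : ‖Complex.exp (κ * (M.v b : ℂ))‖ ≤ 2 ^ M.L b := by
    refine (Complex.norm_exp_le_exp_norm _).trans (exp_kv hκ b).2
  have h2 := w_norm' (M := M) hq b
  have h3 := M.c0 b
  have h4 : ‖M.w q b‖ * ‖Complex.exp (κ * (M.v b : ℂ))‖ ≤ M.c b * 16 ^ M.L b := by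
    calc _ ≤ (4 * 2 ^ M.L b * M.c b) * 2 ^ M.L b :=
          mul_le_mul h2 h1 (norm_nonneg _) (by positivity)
      _ = M.c b * (4 * 4 ^ M.L b) := by
          rw [show (4 : ℝ) ^ M.L b = 2 ^ M.L b * 2 ^ M.L b by rw [← mul_pow]; norm_num]
          ring
      _ ≤ M.c b * 16 ^ M.L b := by
          refine mul_le_mul_of_nonneg_left ?_ h3
          rw [show (16 : ℝ) ^ M.L b = 4 ^ M.L b * 4 ^ M.L b by rw [← mul_pow]; norm_num]
          refine mul_le_mul_of_nonneg_right ?_ (by positivity)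
          calc (4 : ℝ) = 4 ^ 1 := by norm_num
            _ ≤ 4 ^ M.L b := pow_le_pow_right₀ (by norm_num) (M.L1 b)
  have h5 : M.W b ≤ M.c b * 16 ^ M.L b := by
    refine (M.W_le b).trans (le_mul_of_one_le_right h3 (one_le_pow₀ (by norm_num)))
  linarith

theorem Ph_neg {q κ : ℂ} : Ph M q (-κ) = Ph M q κ := by
  unfold Ph
  congr 1
  rw [← M.σe.tsum_eq (fun b => M.w q b * Complex.exp (κ * (M.v b : ℂ)) - M.W b)]
  refine tsum_congr fun b => ?_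
  simp only [σe, Equiv.coe_fn_mk]
  rw [M.w_σ, W_σ, M.vσ]
  push_cast
  congr 3
  ring

theorem wv_zero {q : ℂ} (hq : ‖q‖ ≤ 2) : HasSum (fun b => M.w q b * (M.v b : ℂ)) 0 := by
  have hs : Summable (fun b => M.w q b * (M.v b : ℂ)) := by
    refine Summable.of_norm_bounded (M.sm.mul_left 4) fun b => ?_
    rw [norm_mul]
    have : ((M.v b : ℤ) : ℂ) = ((M.v b : ℝ) : ℂ) := by push_cast; rfl
    rw [this, Complex.norm_real]
    have h1 := M.v_abs_le b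
    have h2 := w_norm' (M := M) hq b
    have h3 := M.c0 b
    have h4 : ((M.L b : ℝ)) ≤ 2 ^ M.L b := by exact_mod_cast (Nat.lt_two_pow_self).le
    calc _ ≤ (4 * 2 ^ M.L b * M.c b) * 2 ^ M.L b :=
          mul_le_mul h2 (h1.trans h4) (abs_nonneg _) (by positivity)
      _ = 4 * (M.c b * 4 ^ M.L b) := by
          rw [show (4 : ℝ) ^ M.L b = 2 ^ M.L b * 2 ^ M.L b by rw [← mul_pow]; norm_num]
          ring
      _ ≤ _ := by
          refine mul_le_mul_of_nonneg_left (mul_le_mul_of_nonneg_left ?_ h3) (by norm_num)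
          exact pow_le_pow_left₀ (by norm_num) (by norm_num) _
  have h1 : ∑' b, M.w q b * (M.v b : ℂ) = - ∑' b, M.w q b * (M.v b : ℂ) := by
    rw [← tsum_neg]
    rw [← M.σe.tsum_eq (fun b => - (M.w q b * (M.v b : ℂ)))]
    refine tsum_congr fun b => ?_
    simp only [σe, Equiv.coe_fn_mk]
    rw [M.w_σ, M.vσ]
    push_cast; ring
  have h2 : ∑' b, M.w q b * (M.v b : ℂ) = 0 := by
    have : (2 : ℂ) * ∑' b, M.w q b * (M.v b : ℂ) = 0 := by linear_combination h1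
    simpa using this
  rw [← h2]
  exact hs.hasSum

theorem Ph_term {q : ℂ} (hq : q ∈ Loc M) (b : M.ι) :
    ‖(M.w q b * Complex.exp (M.kap q * (M.v b : ℂ)) - M.W b) - M.w' (M.qc : ℂ) b * (q - M.qc) -
      M.w q b * (M.v b : ℂ) * M.kap q - (M.W b * (M.v b : ℝ) ^ 2 : ℝ) * (M.kap q ^ 2 / 2)‖ ≤
      (M.c b * 16 ^ M.L b) * (40 * ‖M.kap q‖ ^ 3) := by
  obtain ⟨hqU, ht⟩ := hq
  have hq2 : ‖q‖ ≤ 2 := hqU.1.le
  set t := ‖M.kap q‖ with htdef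
  have ht0 : 0 ≤ t := norm_nonneg _
  set ρ : ℂ := Complex.exp (M.kap q * (M.v b : ℂ)) - (1 + M.kap q * (M.v b : ℂ) +
    (M.kap q * (M.v b : ℂ)) ^ 2 / 2) with hρ
  have hρb : ‖ρ‖ ≤ t ^ 3 * (M.L b : ℝ) ^ 3 * 2 ^ M.L b := by
    have h1 := Complex.norm_exp_sub_sum_le_norm_mul_exp (M.kap q * (M.v b : ℂ)) 3
    have e : ∑ m ∈ range 3, (M.kap q * (M.v b : ℂ)) ^ m / (m.factorial : ℂ) =
        1 + M.kap q * (M.v b : ℂ) + (M.kap q * (M.v b : ℂ)) ^ 2 / 2 := by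
      simp [Finset.sum_range_succ, Nat.factorial]
    rw [e] at h1
    refine h1.trans ?_
    have h2 := exp_kv (M := M) ht b
    have h3 : ‖M.kap q * (M.v b : ℂ)‖ ^ 3 ≤ (t * M.L b) ^ 3 :=
      pow_le_pow_left₀ (norm_nonneg _) h2.1 3
    calc _ ≤ (t * M.L b) ^ 3 * 2 ^ M.L b :=
          mul_le_mul h3 h2.2 (Real.exp_pos _).le (by positivity)
      _ = _ := by ring
  have hδ : ‖q - M.qc‖ ≤ t ^ 2 := sub_le_kap hqU
  have e1 : (M.w q b * Complex.exp (M.kap q * (M.v b : ℂ)) - M.W b) -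
      M.w' (M.qc : ℂ) b * (q - M.qc) -
      M.w q b * (M.v b : ℂ) * M.kap q - (M.W b * (M.v b : ℝ) ^ 2 : ℝ) * (M.kap q ^ 2 / 2) =
      (M.w q b - M.W b - M.w' (M.qc : ℂ) b * (q - M.qc)) +
      (M.w q b - M.W b) * ((M.kap q * (M.v b : ℂ)) ^ 2 / 2) + M.w q b * ρ := by
    simp only [hρ]; push_cast; ring
  rw [e1]
  have hc := M.c0 b
  have h1 := w_taylor (M := M) hq2 b
  have h2 := w_sub_W (M := M) hq2 b
  have h3 := w_norm' (M := M) hq2 b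
  have h4 : ‖(M.kap q * (M.v b : ℂ)) ^ 2 / 2‖ ≤ t ^ 2 * (M.L b : ℝ) ^ 2 := by
    rw [norm_div, norm_pow]
    have h5 := pow_le_pow_left₀ (norm_nonneg _) (exp_kv (M := M) ht b).1 2
    have : ‖(2 : ℂ)‖ = 2 := by simp
    rw [this]
    have h6 : (t * (M.L b : ℝ)) ^ 2 = t ^ 2 * (M.L b : ℝ) ^ 2 := by ring
    rw [← htdef] at h5
    have : 0 ≤ t ^ 2 * (M.L b : ℝ) ^ 2 := by positivity
    linarith
  have hL2 : (M.L b : ℝ) ^ 2 ≤ 4 ^ M.L b := by exact_mod_cast nat_sq4 (M.L b)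
  have hL3 : (M.L b : ℝ) ^ 3 ≤ 4 ^ M.L b := by exact_mod_cast nat_cube (M.L b)
  have p16 : (16 : ℝ) ^ M.L b = 4 ^ M.L b * 4 ^ M.L b := by rw [← mul_pow]; norm_num
  have p4 : (4 : ℝ) ^ M.L b = 2 ^ M.L b * 2 ^ M.L b := by rw [← mul_pow]; norm_num
  have p416 : (4 : ℝ) ^ M.L b ≤ 16 ^ M.L b := pow_le_pow_left₀ (by norm_num) (by norm_num) _
  have ht1 : t ≤ 1 := by linarith
  have t4 : t ^ 4 ≤ t ^ 3 := pow_le_pow_of_le_one ht0 ht1 (by norm_num)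
  have hδ2 : ‖q - M.qc‖ ^ 2 ≤ t ^ 3 := by
    calc _ ≤ (t ^ 2) ^ 2 := pow_le_pow_left₀ (norm_nonneg _) hδ 2
      _ = t ^ 4 := by ring
      _ ≤ _ := t4
  have b1 : ‖M.w q b - M.W b - M.w' (M.qc : ℂ) b * (q - M.qc)‖ ≤
      (M.c b * 16 ^ M.L b) * (4 * t ^ 3) := by
    calc _ ≤ 4 * 4 ^ M.L b * M.c b * ‖q - M.qc‖ ^ 2 := h1
      _ ≤ 4 * 16 ^ M.L b * M.c b * t ^ 3 := by
          refine mul_le_mul ?_ hδ2 (by positivity) (by positivity)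
          refine mul_le_mul_of_nonneg_right ?_ hc
          linarith
      _ = _ := by ring
  have b2 : ‖(M.w q b - M.W b) * ((M.kap q * (M.v b : ℂ)) ^ 2 / 2)‖ ≤
      (M.c b * 16 ^ M.L b) * (16 * t ^ 3) := by
    rw [norm_mul]
    calc _ ≤ (16 * 4 ^ M.L b * M.c b * t ^ 2) * (t ^ 2 * 4 ^ M.L b) := by
          refine mul_le_mul (h2.trans ?_) (h4.trans ?_) (norm_nonneg _) (by positivity)
          · exact mul_le_mul_of_nonneg_left hδ (by positivity)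
          · exact mul_le_mul_of_nonneg_left hL2 (by positivity)
      _ = (M.c b * 16 ^ M.L b) * (16 * t ^ 4) := by rw [p16]; ring
      _ ≤ _ := by
          refine mul_le_mul_of_nonneg_left ?_ (by positivity)
          linarith
  have b3 : ‖M.w q b * ρ‖ ≤ (M.c b * 16 ^ M.L b) * (4 * t ^ 3) := by
    rw [norm_mul]
    calc _ ≤ (4 * 2 ^ M.L b * M.c b) * (t ^ 3 * 4 ^ M.L b * 2 ^ M.L b) := by
          refine mul_le_mul h3 (hρb.trans ?_) (norm_nonneg _) (by positivity)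
          refine mul_le_mul_of_nonneg_right ?_ (by positivity)
          exact mul_le_mul_of_nonneg_left hL3 (by positivity)
      _ = M.c b * ((2 ^ M.L b * 2 ^ M.L b) * 4 ^ M.L b) * (4 * t ^ 3) := by ring
      _ = _ := by rw [← p4, ← p16]
  refine (norm_add_le _ _).trans ?_
  have h7 := (norm_add_le (M.w q b - M.W b - M.w' (M.qc : ℂ) b * (q - M.qc))
    ((M.w q b - M.W b) * ((M.kap q * (M.v b : ℂ)) ^ 2 / 2)))
  have h8 : 0 ≤ (M.c b * 16 ^ M.L b) * t ^ 3 := by positivity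
  linarith

theorem w'_hasSum : HasSum (fun b => M.w' (M.qc : ℂ) b) ((M.mp - 2 * M.qc : ℝ) : ℂ) := by
  have h1 := Complex.hasSum_ofReal.2 M.mp_summable.hasSum
  have e : ∑' b, M.c b * (((M.L b + 2 : ℕ) : ℝ) * M.qc ^ (M.L b + 1)) = M.mp - 2 * M.qc := by
    unfold mp; ring
  rw [e] at h1
  refine h1.congr_fun' fun b => ?_
  unfold w'; push_cast; ring

theorem Ph_bd {q : ℂ} (hq : q ∈ Loc M) : ‖Ph M q (M.kap q)‖ ≤ 10 * ‖M.kap q‖ ^ 3 := by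
  have hqU := hq.1
  have ht := hq.2
  have hq2 : ‖q‖ ≤ 2 := hqU.1.le
  have h1 := (Ph_summable (M := M) hq2 ht).hasSum
  have h2 := (w'_hasSum (M := M)).mul_right (q - M.qc)
  have h3 := (wv_zero (M := M) hq2).mul_right (M.kap q)
  have h4 := (Complex.hasSum_ofReal.2 M.sg_summable.hasSum).mul_right (M.kap q ^ 2 / 2)
  have h5 := ((h1.sub h2).sub h3).sub h4
  have h6 : ‖∑' b, (M.w q b * Complex.exp (M.kap q * (M.v b : ℂ)) - M.W b) -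
      ((M.mp - 2 * M.qc : ℝ) : ℂ) * (q - M.qc) - 0 * M.kap q -
      ((∑' b, M.W b * (M.v b : ℝ) ^ 2 : ℝ) : ℂ) * (M.kap q ^ 2 / 2)‖ ≤
      (∑' b, M.c b * 16 ^ M.L b) * (40 * ‖M.kap q‖ ^ 3) := by
    rw [← h5.tsum_eq]
    exact tsum_of_norm_bounded (M.sm.hasSum.mul_right _) (Ph_term hq)
  set t := ‖M.kap q‖ with htdef
  have ht0 : 0 ≤ t := norm_nonneg _
  have hqc : (M.qc : ℂ) ≠ 0 := by exact_mod_cast M.qc_pos.ne'
  have hsg : (M.sg : ℂ) ≠ 0 := by exact_mod_cast M.sg_pos.ne'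
  have e1 : ((M.sg : ℝ) : ℂ) * (M.kap q ^ 2 / 2) = -(M.mp : ℂ) * (q - M.qc) -
      (M.mp : ℂ) * (q - M.qc) ^ 2 / (2 * M.qc) := by
    rw [M.kap_sq]
    unfold gam
    push_cast
    field_simp
    ring
  have e2 : Ph M q (M.kap q) = (∑' b, (M.w q b * Complex.exp (M.kap q * (M.v b : ℂ)) - M.W b) -
      ((M.mp - 2 * M.qc : ℝ) : ℂ) * (q - M.qc) - 0 * M.kap q -
      ((∑' b, M.W b * (M.v b : ℝ) ^ 2 : ℝ) : ℂ) * (M.kap q ^ 2 / 2)) +
      (q - M.qc) ^ 2 * (1 - M.mp / (2 * M.qc)) := by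
    have e3 : ((∑' b, M.W b * (M.v b : ℝ) ^ 2 : ℝ) : ℂ) = ((M.sg : ℝ) : ℂ) := rfl
    rw [e3, e1]
    unfold Ph
    push_cast
    field_simp
    ring
  rw [e2]
  refine (norm_add_le _ _).trans ?_
  have h7 : ‖(q - M.qc) ^ 2 * (1 - M.mp / (2 * M.qc) : ℂ)‖ ≤ t ^ 3 := by
    rw [norm_mul, norm_pow]
    have hδ : ‖q - M.qc‖ ≤ t ^ 2 := sub_le_kap hqU
    have ht1 : t ≤ 1 := by linarith
    have t4 : t ^ 4 ≤ t ^ 3 := pow_le_pow_of_le_one ht0 ht1 (by norm_num)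
    have hδ2 : ‖q - M.qc‖ ^ 2 ≤ t ^ 3 := by
      calc _ ≤ (t ^ 2) ^ 2 := pow_le_pow_left₀ (norm_nonneg _) hδ 2
        _ = t ^ 4 := by ring
        _ ≤ _ := t4
    have h8 : ‖(1 - M.mp / (2 * M.qc) : ℂ)‖ ≤ 1 := by
      have e4 : (1 - M.mp / (2 * M.qc) : ℂ) = ((1 - M.mp / (2 * M.qc) : ℝ) : ℂ) := by push_cast; rfl
      rw [e4, Complex.norm_real, Real.norm_eq_abs, abs_le]
      have h9 := M.mp_ge
      have h10 := M.mp_le
      have h11 := M.qc_ge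
      have h12 : 1 ≤ M.mp / (2 * M.qc) := by
        rw [le_div_iff₀ (by linarith)]; linarith
      have h13 : M.mp / (2 * M.qc) ≤ 2 := by
        rw [div_le_iff₀ (by linarith)]; linarith
      constructor <;> linarith
    calc _ ≤ t ^ 3 * 1 := mul_le_mul hδ2 h8 (norm_nonneg _) (by positivity)
      _ = _ := by ring
  have h8 := M.s1
  have h9 : 0 ≤ t ^ 3 := by positivity
  have h10 : (∑' b, M.c b * 16 ^ M.L b) * (40 * t ^ 3) ≤ 1 / 10 ^ 6 * (40 * t ^ 3) :=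
    mul_le_mul_of_nonneg_right h8 (by positivity)
  norm_num at h10
  linarith

end Mdl

end

end KN.SQ
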