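import Pool.Agent.H132.SQ.Ap1

/-!
# The error of the approximate solution
-/

set_option autoImplicit false

namespace KN.SQ

open Finset Filter Topology
open scoped Classical ENNReal ComplexConjugate

noncomputable section

/-- a function as an element of the space -/
def toH (f : ℤ → ℂ) : H := if h : Memℓp f 2 then ⟨f, h⟩ else 0

theorem toH_apply {f : ℤ → ℂ} (h : Summable fun d => ‖f d‖ ^ 2) (d : ℤ) : toH f d = f d := by
  unfold toH
  rw [dif_pos (mem2.2 h)]

theorem summable_of_bd {f : ℤ → ℂ} {X r : ℝ} (h0 : 0 ≤ r) (h1 : r < 1)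
    (h : ∀ d : ℤ, ‖f d‖ ≤ X * r ^ d.natAbs) : Summable fun d => ‖f d‖ ^ 2 := by
  refine Summable.of_nonneg_of_le (fun d => by positivity) (fun d => ?_)
    ((int_geom0 h0 h1).mul_left (X ^ 2))
  calc ‖f d‖ ^ 2 ≤ (X * r ^ d.natAbs) ^ 2 := pow_le_pow_left₀ (norm_nonneg _) (h d) 2
    _ = X ^ 2 * (r ^ d.natAbs * r ^ d.natAbs) := by ring
    _ ≤ X ^ 2 * (r ^ d.natAbs * 1) := by
        refine mul_le_mul_of_nonneg_left (mul_le_mul_of_nonneg_left ?_ (by positivity))
          (sq_nonneg _)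
        exact pow_le_one₀ h0 h1.le
    _ = _ := by ring

theorem norm_sq_le {f : H} {X r : ℝ} (h0 : 0 ≤ r) (h1 : r < 1)
    (h : ∀ d : ℤ, ‖f d‖ ≤ X * r ^ d.natAbs) : ‖f‖ ^ 2 ≤ X ^ 2 * ∑' d : ℤ, r ^ d.natAbs := by
  rw [H.norm_sq, ← tsum_mul_left]
  refine (summable_of_bd h0 h1 h).tsum_le_tsum (fun d => ?_) ((int_geom0 h0 h1).mul_left (X ^ 2))
  calc ‖f d‖ ^ 2 ≤ (X * r ^ d.natAbs) ^ 2 := pow_le_pow_left₀ (norm_nonneg _) (h d) 2
    _ = X ^ 2 * (r ^ d.natAbs * r ^ d.natAbs) := by ring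
    _ ≤ X ^ 2 * (r ^ d.natAbs * 1) := by
        refine mul_le_mul_of_nonneg_left (mul_le_mul_of_nonneg_left ?_ (by positivity))
          (sq_nonneg _)
        exact pow_le_one₀ h0 h1.le
    _ = _ := by ring

theorem geom_int_hasSum {r : ℝ} (h0 : 0 ≤ r) (h1 : r < 1) :
    HasSum (fun d : ℤ => r ^ d.natAbs) ((1 - r)⁻¹ + r * (1 - r)⁻¹) := by
  have h2 := hasSum_geometric_of_lt_one h0 h1
  refine HasSum.of_nat_of_neg_add_one ?_ ?_
  · simpa using h2
  · have e : (fun n : ℕ => r ^ (-((n : ℤ) + 1)).natAbs) = fun n => r * r ^ n := by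
      funext n
      have : (-((n : ℤ) + 1)).natAbs = n + 1 := by omega
      rw [this, pow_succ]; ring
    rw [e]
    exact h2.mul_left r

theorem geom_exp {t : ℝ} (h0 : 0 < t) (h1 : t ≤ 1 / 100) :
    ∑' d : ℤ, Real.exp (-(t / 2)) ^ d.natAbs ≤ 8 / t := by
  have hr0 : 0 ≤ Real.exp (-(t / 2)) := (Real.exp_pos _).le
  have hr1 : Real.exp (-(t / 2)) < 1 := Real.exp_lt_one_iff.2 (by linarith)
  rw [(geom_int_hasSum hr0 hr1).tsum_eq]
  have h2 : t / 4 ≤ 1 - Real.exp (-(t / 2)) := by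
    have h3 := Real.exp_bound' (x := t / 2) (by linarith) (by linarith) (n := 2) (by norm_num)
    norm_num [Finset.sum_range_succ] at h3
    have h4 : Real.exp (t / 2) ≤ 1 + t / 2 + t ^ 2 := by nlinarith
    have h5 : Real.exp (-(t / 2)) * Real.exp (t / 2) = 1 := by rw [← Real.exp_add]; simp
    have h6 := Real.exp_pos (t / 2)
    have h7 := Real.add_one_le_exp (t / 2)
    by_contra hcon
    push Not at hcon
    have h8 : 1 - t / 4 < Real.exp (-(t / 2)) := by linarith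
    have h9 : (1 - t / 4) * (1 + t / 2) < 1 := by
      calc (1 - t / 4) * (1 + t / 2) < Real.exp (-(t / 2)) * (1 + t / 2) :=
            mul_lt_mul_of_pos_right h8 (by linarith)
        _ ≤ Real.exp (-(t / 2)) * Real.exp (t / 2) :=
            mul_le_mul_of_nonneg_left (by linarith) hr0
        _ = 1 := h5
    nlinarith
  have h3 : (1 - Real.exp (-(t / 2)))⁻¹ ≤ 4 / t := by
    rw [inv_le_comm₀ (by linarith) (by positivity)]
    rw [inv_div]
    exact h2
  have h4 : 0 ≤ (1 - Real.exp (-(t / 2)))⁻¹ := inv_nonneg.2 (by linarith)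
  have h5 : 8 / t = 2 * (4 / t) := by ring
  rw [h5]
  nlinarith

theorem one_sub_E {κ : ℂ} (h : 0 ≤ κ.re) (h1 : ‖κ‖ ≤ 1 / 100) (d : ℤ) :
    ‖1 - E κ d‖ ≤ 2 * ‖κ‖ * d.natAbs := by
  have key : ∀ n : ℕ, ‖1 - Complex.exp (-κ * n)‖ ≤ 2 * ‖κ‖ * n := by
    intro n
    induction n with
    | zero => simp
    | succ n ih =>
      have e1 : 1 - Complex.exp (-κ * ((n + 1 : ℕ) : ℂ)) = (1 - Complex.exp (-κ * n)) -
          Complex.exp (-κ * n) * (Complex.exp (-κ) - 1) := by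
        rw [mul_sub, ← Complex.exp_add]
        push_cast
        ring_nf
      rw [e1]
      refine (norm_sub_le _ _).trans ?_
      rw [norm_mul]
      have h2 : ‖Complex.exp (-κ * n)‖ ≤ 1 := by
        rw [Complex.norm_exp]
        refine Real.exp_le_one_iff.2 ?_
        have : (0 : ℝ) ≤ n := Nat.cast_nonneg _
        have e : (-κ * (n : ℂ)).re = -κ.re * n := by simp
        rw [e]; nlinarith
      have h3 : ‖Complex.exp (-κ) - 1‖ ≤ 2 * ‖κ‖ := by
        have h4 := exp_sub_one (-κ)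
        rw [norm_neg] at h4
        have h5 := exp_small h1 1
        simp at h5
        have := norm_nonneg κ
        nlinarith
      have h4 : ‖Complex.exp (-κ * n)‖ * ‖Complex.exp (-κ) - 1‖ ≤ 1 * (2 * ‖κ‖) :=
        mul_le_mul h2 h3 (norm_nonneg _) zero_le_one
      push_cast
      linarith
  exact key _

theorem half_pow (n : ℕ) : (n : ℝ) * (1 / 4) ^ n ≤ (1 / 2) ^ n := by
  have h : (n : ℝ) ≤ 2 ^ n := by exact_mod_cast (Nat.lt_two_pow_self).le
  have e : (1 / 2 : ℝ) ^ n = 2 ^ n * (1 / 4) ^ n := by rw [← mul_pow]; norm_num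
  rw [e]
  exact mul_le_mul_of_nonneg_right h (by positivity)

/-- the sum of the geometric weights -/
def g2 : ℝ := ∑' d : ℤ, ((d.natAbs : ℝ) + 1) * (1 / 2) ^ d.natAbs

theorem g2_nonneg : 0 ≤ g2 := tsum_nonneg fun d => by positivity

namespace Mdl

variable {M : Mdl} {C : Cap}

theorem inner_le_of_bd2 {f h : H} (h0 : f 0 = 0) {X : ℝ}
    (hX : ∀ d : ℤ, ‖h d‖ ≤ X * (1 / 2) ^ d.natAbs) :
    ‖inner ℂ f h‖ ≤ X * g2 * √(D f) := by
  rw [lp.inner_eq_tsum]
  have hs := (int_geom1 (r := 1 / 2) (by norm_num) (by norm_num)).mul_left (X * √(D f))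
  have e : X * g2 * √(D f) = ∑' d : ℤ, X * √(D f) * (((d.natAbs : ℝ) + 1) * (1 / 2) ^ d.natAbs) := by
    rw [tsum_mul_left]; unfold g2; ring
  rw [e]
  refine tsum_of_norm_bounded hs.hasSum fun d => ?_
  refine (norm_inner_le_norm _ _).trans ?_
  have h1 := norm_le_sqrt h0 d
  calc ‖f d‖ * ‖h d‖ ≤ (((d.natAbs : ℝ) + 1) * √(D f)) * (X * (1 / 2) ^ d.natAbs) :=
        mul_le_mul h1 (hX d) (norm_nonneg _) (by positivity)
    _ = _ := by ring

/-- a bound of the solution -/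
def CU (M : Mdl) (C : Cap) : ℝ := up M C + um M C + 4 * CG M C

theorem CG_le : 4 * CG M C ≤ CU M C := by
  unfold CU
  have := up_nonneg (M := M) (C := C)
  have := um_nonneg (M := M) (C := C)
  linarith

theorem CU_nonneg : 0 ≤ CU M C := by
  have := CG_le (M := M) (C := C)
  have := CG_nonneg (M := M) (C := C)
  linarith

theorem ui_nonneg (d : ℤ) : 0 ≤ ui M C d := by
  unfold ui
  split_ifs
  · exact up_nonneg
  · exact um_nonneg
  · exact le_rfl

theorem ui_le (d : ℤ) : ui M C d ≤ CU M C := by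
  unfold ui CU
  have := up_nonneg (M := M) (C := C)
  have := um_nonneg (M := M) (C := C)
  have := CG_nonneg (M := M) (C := C)
  split_ifs <;> linarith

theorem u_le_CU (d : ℤ) : u M C d ≤ CU M C := by
  have h1 := (abs_le.1 (ui_spec (M := M) (C := C) d)).2
  have h2 : (1 / 2 : ℝ) ^ d.natAbs ≤ 1 := pow_le_one₀ (by norm_num) (by norm_num)
  have h3 := CG_nonneg (M := M) (C := C)
  have h4 : 4 * CG M C * (1 / 2) ^ d.natAbs ≤ 4 * CG M C := mul_le_of_le_one_right (by linarith) h2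
  have h5 : ui M C d ≤ up M C + um M C := by
    unfold ui
    have := up_nonneg (M := M) (C := C)
    have := um_nonneg (M := M) (C := C)
    split_ifs <;> linarith
  unfold CU
  linarith

/-- the approximate solution -/
def vq (M : Mdl) (C : Cap) (q : ℂ) : H := toH fun d => (u M C d : ℂ) * E (M.kap q) d

theorem rt {q : ℂ} (hq : q ∈ Loc M) : 0 < ‖M.kap q‖ ∧ 0 ≤ Real.exp (-(‖M.kap q‖ / 2)) ∧
    Real.exp (-(‖M.kap q‖ / 2)) < 1 := by
  have := kap_pos hq.1
  exact ⟨this, (Real.exp_pos _).le, Real.exp_lt_one_iff.2 (by linarith)⟩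

theorem vq_bd0 {q : ℂ} (hq : q ∈ Loc M) (d : ℤ) : ‖(u M C d : ℂ) * E (M.kap q) d‖ ≤
    CU M C * Real.exp (-(‖M.kap q‖ / 2)) ^ d.natAbs := by
  rw [norm_mul, Complex.norm_real, Real.norm_eq_abs, abs_of_nonneg (u_nonneg _)]
  exact mul_le_mul (u_le_CU d) (E_norm_le (kap_re hq.1) d) (norm_nonneg _) CU_nonneg

theorem vq_apply {q : ℂ} (hq : q ∈ Loc M) (d : ℤ) :
    vq M C q d = (u M C d : ℂ) * E (M.kap q) d :=
  toH_apply (summable_of_bd (rt hq).2.1 (rt hq).2.2 (vq_bd0 hq)) d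

theorem vq_bd {q : ℂ} (hq : q ∈ Loc M) (d : ℤ) : ‖vq M C q d‖ ≤
    CU M C * Real.exp (-(‖M.kap q‖ / 2)) ^ d.natAbs := by
  rw [vq_apply hq]; exact vq_bd0 hq d

theorem vq_norm {q : ℂ} (hq : q ∈ Loc M) : ‖vq M C q‖ ^ 2 ≤ CU M C ^ 2 * (8 / ‖M.kap q‖) := by
  refine (norm_sq_le (rt hq).2.1 (rt hq).2.2 (vq_bd hq)).trans ?_
  exact mul_le_mul_of_nonneg_left (geom_exp (rt hq).1 hq.2) (sq_nonneg _)

/-- the bulk part of the error -/
def er2 (M : Mdl) (C : Cap) (q : ℂ) : H :=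
  toH fun d => (ui M C d : ℂ) * E (M.kap q) d * Ph M q (M.kap q)

theorem er2_bd0 {q : ℂ} (hq : q ∈ Loc M) (d : ℤ) :
    ‖(ui M C d : ℂ) * E (M.kap q) d * Ph M q (M.kap q)‖ ≤
    (CU M C * (10 * ‖M.kap q‖ ^ 3)) * Real.exp (-(‖M.kap q‖ / 2)) ^ d.natAbs := by
  rw [norm_mul, norm_mul, Complex.norm_real, Real.norm_eq_abs, abs_of_nonneg (ui_nonneg _)]
  have h1 := mul_le_mul (ui_le (M := M) (C := C) d) (E_norm_le (kap_re hq.1) d) (norm_nonneg _)
    CU_nonneg
  have h2 := mul_le_mul h1 (Ph_bd hq) (norm_nonneg _)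
    (mul_nonneg CU_nonneg (pow_nonneg (rt hq).2.1 _))
  refine h2.trans (le_of_eq ?_)
  ring

theorem er2_apply {q : ℂ} (hq : q ∈ Loc M) (d : ℤ) :
    er2 M C q d = (ui M C d : ℂ) * E (M.kap q) d * Ph M q (M.kap q) :=
  toH_apply (summable_of_bd (rt hq).2.1 (rt hq).2.2 (er2_bd0 hq)) d

theorem er2_norm {q : ℂ} (hq : q ∈ Loc M) : ‖er2 M C q‖ ≤ 30 * CU M C * ‖M.kap q‖ ^ 2 := by
  have h1 := norm_sq_le (f := er2 M C q) (rt hq).2.1 (rt hq).2.2
    (fun d => by rw [er2_apply hq]; exact er2_bd0 hq d)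
  have h2 := geom_exp (rt hq).1 hq.2
  set t := ‖M.kap q‖ with ht
  have ht0 : 0 < t := (rt hq).1
  have ht1 : t ≤ 1 / 100 := hq.2
  have hC := CU_nonneg (M := M) (C := C)
  refine le_of_sq_le_sq ?_ (by positivity)
  calc ‖er2 M C q‖ ^ 2 ≤ (CU M C * (10 * t ^ 3)) ^ 2 * (8 / t) :=
        h1.trans (mul_le_mul_of_nonneg_left h2 (sq_nonneg _))
    _ = 800 * CU M C ^ 2 * t ^ 4 * t := by field_simp; ring
    _ ≤ 800 * CU M C ^ 2 * t ^ 4 * 1 := by
        refine mul_le_mul_of_nonneg_left (by linarith) (by positivity)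
    _ ≤ (30 * CU M C * t ^ 2) ^ 2 := by
        have : 0 ≤ CU M C ^ 2 * t ^ 4 := by positivity
        nlinarith

theorem pu_ui (b : M.ι) (d : ℤ) :
    |(if M.P b d then u M C (d - M.v b) else 0) - ui M C d| ≤
      CU M C * (2 ^ M.L b * (1 / 2) ^ d.natAbs) := by
  have hC := CU_nonneg (M := M) (C := C)
  have key : d.natAbs ≤ M.L b → (1 : ℝ) ≤ 2 ^ M.L b * (1 / 2) ^ d.natAbs := by
    intro h
    have h1 : (1 / 2 : ℝ) ^ M.L b ≤ (1 / 2) ^ d.natAbs :=
      pow_le_pow_of_le_one (by norm_num) (by norm_num) h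
    have h2 : (2 : ℝ) ^ M.L b * (1 / 2) ^ M.L b = 1 := by rw [← mul_pow]; norm_num
    calc (1 : ℝ) = 2 ^ M.L b * (1 / 2) ^ M.L b := h2.symm
      _ ≤ _ := mul_le_mul_of_nonneg_left h1 (by positivity)
  have hv := vn_le (M := M) b
  split_ifs with hP
  · by_cases hs : ui M C (d - M.v b) = ui M C d
    · have h1 := ui_spec (M := M) (C := C) (d - M.v b)
      rw [hs] at h1
      refine h1.trans ?_
      have h2 : (1 / 2 : ℝ) ^ (d - M.v b).natAbs ≤ 2 ^ M.L b * (1 / 2) ^ d.natAbs := by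
        have h3 : d.natAbs ≤ (d - M.v b).natAbs + M.L b := by omega
        have h4 : (1 / 2 : ℝ) ^ ((d - M.v b).natAbs + M.L b) ≤ (1 / 2) ^ d.natAbs :=
          pow_le_pow_of_le_one (by norm_num) (by norm_num) h3
        have h5 : (2 : ℝ) ^ M.L b * (1 / 2) ^ ((d - M.v b).natAbs + M.L b) =
            (1 / 2) ^ (d - M.v b).natAbs := by
          rw [pow_add]
          have : (2 : ℝ) ^ M.L b * (1 / 2) ^ M.L b = 1 := by rw [← mul_pow]; norm_num
          linear_combination ((1 / 2 : ℝ) ^ (d - M.v b).natAbs) * this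
        rw [← h5]
        exact mul_le_mul_of_nonneg_left h4 (by positivity)
      exact mul_le_mul CG_le h2 (by positivity) hC
    · have hd : d.natAbs ≤ M.L b := by
        by_contra hcon
        refine hs ?_
        unfold ui
        have h1 : (0 < d - M.v b ↔ 0 < d) := by omega
        have h2 : (d - M.v b < 0 ↔ d < 0) := by omega
        simp only [h1, h2]
      have h1 := u_nonneg (M := M) (C := C) (d - M.v b)
      have h2 := u_le_CU (M := M) (C := C) (d - M.v b)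
      have h3 := ui_nonneg (M := M) (C := C) d
      have h4 := ui_le (M := M) (C := C) d
      have h5 : |u M C (d - M.v b) - ui M C d| ≤ CU M C := by rw [abs_le]; constructor <;> linarith
      exact h5.trans (le_mul_of_one_le_right hC (key hd))
  · have hL : |d| ≤ (M.L b : ℤ) := not_lt.1 fun h => hP (M.far b d h)
    have hL' : d.natAbs ≤ M.L b := by
      rw [Int.abs_eq_natAbs] at hL; exact_mod_cast hL
    have h3 := ui_nonneg (M := M) (C := C) d
    have h4 := ui_le (M := M) (C := C) d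
    rw [zero_sub, abs_neg, abs_of_nonneg h3]
    exact h4.trans (le_mul_of_one_le_right hC (key hL'))

/-- the sign -/
def sgn (d : ℤ) : ℂ := if 0 < d then 1 else -1

theorem E_bulk {κ : ℂ} {d v : ℤ} (h : d ≠ 0) (hs : v.natAbs ≤ d.natAbs) :
    E κ (d - v) = E κ d * Complex.exp (sgn d * κ * (v : ℂ)) := by
  unfold E sgn
  rw [← Complex.exp_add]
  congr 1
  split_ifs with hd
  · have e1 : ((d - v).natAbs : ℤ) = (d.natAbs : ℤ) - v := by omega
    have e2 : ((((d - v).natAbs : ℤ)) : ℂ) = (((d.natAbs : ℤ) - v : ℤ) : ℂ) := by rw [e1]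
    rw [Int.cast_sub, Int.cast_natCast, Int.cast_natCast] at e2
    rw [e2]; ring
  · have e1 : ((d - v).natAbs : ℤ) = (d.natAbs : ℤ) + v := by omega
    have e2 : ((((d - v).natAbs : ℤ)) : ℂ) = (((d.natAbs : ℤ) + v : ℤ) : ℂ) := by rw [e1]
    rw [Int.cast_add, Int.cast_natCast, Int.cast_natCast] at e2
    rw [e2]; ring

theorem err_b {q : ℂ} (hq : q ∈ Loc M) (b : M.ι) (d : ℤ) :
    ‖M.w q b * (if M.P b d then vq M C q (d - M.v b) else 0) -
      ((M.W b * (if M.P b d then u M C (d - M.v b) else 0) : ℝ) : ℂ) * E (M.kap q) d -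
      (ui M C d : ℂ) * E (M.kap q) d *
        (M.w q b * Complex.exp (sgn d * M.kap q * (M.v b : ℂ)) - M.W b)‖ ≤
      (M.c b * 16 ^ M.L b) * (30 * CU M C * ‖M.kap q‖ * (1 / 2) ^ d.natAbs) := by
  have hqU := hq.1
  have hq2 : ‖q‖ ≤ 2 := hqU.1.le
  have hre := kap_re hqU
  have hc := M.c0 b
  have hC := CU_nonneg (M := M) (C := C)
  have ht0 : 0 ≤ ‖M.kap q‖ := norm_nonneg _
  have hκ := exp_small hq.2 (M.L b)
  by_cases hd0 : d = 0
  · subst hd0
    have e1 : ui M C 0 = 0 := by unfold ui; simp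
    rw [if_neg (M.P0 b), if_neg (M.P0 b), e1]
    simp only [mul_zero, Complex.ofReal_zero, zero_mul, sub_zero, norm_zero]
    positivity
  set pu : ℝ := (if M.P b d then u M C (d - M.v b) else 0) with hpu
  have e0 : (if M.P b d then vq M C q (d - M.v b) else 0) = (pu : ℂ) * E (M.kap q) (d - M.v b) := by
    rw [hpu]
    split_ifs
    · rw [vq_apply hq]
    · simp
  rw [e0]
  have e1 : M.w q b * ((pu : ℂ) * E (M.kap q) (d - M.v b)) -
      ((M.W b * pu : ℝ) : ℂ) * E (M.kap q) d -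
      (ui M C d : ℂ) * E (M.kap q) d *
        (M.w q b * Complex.exp (sgn d * M.kap q * (M.v b : ℂ)) - M.W b) =
      ((pu - ui M C d : ℝ) : ℂ) * ((M.w q b - M.W b) * E (M.kap q) (d - M.v b) +
        M.W b * (E (M.kap q) (d - M.v b) - E (M.kap q) d)) +
      (ui M C d : ℂ) * (M.w q b * (E (M.kap q) (d - M.v b) -
        E (M.kap q) d * Complex.exp (sgn d * M.kap q * (M.v b : ℂ)))) := by
    push_cast; ring
  rw [e1]
  set t := ‖M.kap q‖ with ht
  have ht1 : t ≤ 1 / 100 := hq.2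
  have hLn : (0 : ℝ) ≤ M.L b := Nat.cast_nonneg _
  have hL2 : (M.L b : ℝ) ≤ 2 ^ M.L b := by exact_mod_cast (Nat.lt_two_pow_self).le
  have p4 : (4 : ℝ) ^ M.L b = 2 ^ M.L b * 2 ^ M.L b := by rw [← mul_pow]; norm_num
  have p16 : (16 : ℝ) ^ M.L b = 4 ^ M.L b * 4 ^ M.L b := by rw [← mul_pow]; norm_num
  have p24 : (2 : ℝ) ^ M.L b ≤ 4 ^ M.L b := pow_le_pow_left₀ (by norm_num) (by norm_num) _
  have hE1 : ‖E (M.kap q) (d - M.v b)‖ ≤ 1 := E_norm_le_one (by linarith) _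
  have hE2 : ‖E (M.kap q) d‖ ≤ 1 := E_norm_le_one (by linarith) _
  have hE3 : ‖E (M.kap q) (d - M.v b) - E (M.kap q) d‖ ≤ t * 4 ^ M.L b := by
    have h1 : |(((d - M.v b).natAbs : ℝ) - d.natAbs)| ≤ (M.L b : ℕ) :=
      (natAbs_diff d (M.v b)).trans (by exact_mod_cast vn_le b)
    refine (E_sub (κ := M.kap q) h1).trans ?_
    calc ‖E (M.kap q) d‖ * (‖M.kap q‖ * (M.L b : ℝ) * Real.exp (‖M.kap q‖ * (M.L b : ℝ))) ≤
          1 * (t * 2 ^ M.L b * 2 ^ M.L b) := by
            refine mul_le_mul hE2 ?_ (by positivity) zero_le_one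
            exact mul_le_mul (mul_le_mul_of_nonneg_left hL2 ht0) hκ (Real.exp_pos _).le
              (by positivity)
      _ = _ := by rw [p4]; ring
  have hδ : ‖q - M.qc‖ ≤ t := by
    have h1 : ‖q - M.qc‖ ≤ t ^ 2 := sub_le_kap hqU
    nlinarith
  have hX : ‖(M.w q b - M.W b) * E (M.kap q) (d - M.v b) +
        M.W b * (E (M.kap q) (d - M.v b) - E (M.kap q) d)‖ ≤ 17 * 4 ^ M.L b * M.c b * t := by
    refine (norm_add_le _ _).trans ?_
    rw [norm_mul, norm_mul, Complex.norm_real, Real.norm_eq_abs, abs_of_nonneg (M.W_nonneg b)]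
    have h1 : ‖M.w q b - M.W b‖ * ‖E (M.kap q) (d - M.v b)‖ ≤ (16 * 4 ^ M.L b * M.c b * t) * 1 :=
      mul_le_mul ((w_sub_W hq2 b).trans (mul_le_mul_of_nonneg_left hδ (by positivity))) hE1
        (norm_nonneg _) (by positivity)
    have h2 : M.W b * ‖E (M.kap q) (d - M.v b) - E (M.kap q) d‖ ≤ M.c b * (t * 4 ^ M.L b) :=
      mul_le_mul (M.W_le b) hE3 (norm_nonneg _) hc
    linarith
  have hpud := pu_ui (M := M) (C := C) b d
  rw [← hpu] at hpud
  have hh : (0 : ℝ) ≤ (1 / 2) ^ d.natAbs := by positivity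
  have b1 : ‖((pu - ui M C d : ℝ) : ℂ) * ((M.w q b - M.W b) * E (M.kap q) (d - M.v b) +
        M.W b * (E (M.kap q) (d - M.v b) - E (M.kap q) d))‖ ≤
      (M.c b * 16 ^ M.L b) * (17 * CU M C * t * (1 / 2) ^ d.natAbs) := by
    rw [norm_mul, Complex.norm_real, Real.norm_eq_abs]
    calc _ ≤ (CU M C * (2 ^ M.L b * (1 / 2) ^ d.natAbs)) * (17 * 4 ^ M.L b * M.c b * t) :=
          mul_le_mul hpud hX (norm_nonneg _) (by positivity)
      _ ≤ (CU M C * (4 ^ M.L b * (1 / 2) ^ d.natAbs)) * (17 * 4 ^ M.L b * M.c b * t) := by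
          refine mul_le_mul_of_nonneg_right ?_ (by positivity)
          refine mul_le_mul_of_nonneg_left ?_ hC
          exact mul_le_mul_of_nonneg_right p24 hh
      _ = _ := by rw [p16]; ring
  have b2 : ‖(ui M C d : ℂ) * (M.w q b * (E (M.kap q) (d - M.v b) -
        E (M.kap q) d * Complex.exp (sgn d * M.kap q * (M.v b : ℂ))))‖ ≤
      (M.c b * 16 ^ M.L b) * (8 * CU M C * t * (1 / 2) ^ d.natAbs) := by
    by_cases hs : (M.v b).natAbs ≤ d.natAbs
    · rw [E_bulk hd0 hs, sub_self, mul_zero, mul_zero, norm_zero]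
      positivity
    · rw [norm_mul, norm_mul, Complex.norm_real, Real.norm_eq_abs, abs_of_nonneg (ui_nonneg _)]
      have hdL : d.natAbs ≤ M.L b := by have := vn_le (M := M) b; omega
      have e2 : E (M.kap q) (d - M.v b) -
          E (M.kap q) d * Complex.exp (sgn d * M.kap q * (M.v b : ℂ)) =
          (E (M.kap q) (d - M.v b) - E (M.kap q) d) -
          E (M.kap q) d * (Complex.exp (sgn d * M.kap q * (M.v b : ℂ)) - 1) := by ring
      have h1 : ‖E (M.kap q) (d - M.v b) -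
          E (M.kap q) d * Complex.exp (sgn d * M.kap q * (M.v b : ℂ))‖ ≤ 2 * (t * 4 ^ M.L b) := by
        rw [e2]
        refine (norm_sub_le _ _).trans ?_
        rw [norm_mul]
        have hsn : ‖sgn d‖ = 1 := by unfold sgn; split_ifs <;> simp
        have h3 : ‖Complex.exp (sgn d * M.kap q * (M.v b : ℂ)) - 1‖ ≤ t * 4 ^ M.L b := by
          refine (exp_sub_one _).trans ?_
          have h4 := exp_kv (M := M) hq.2 b
          have e3 : ‖sgn d * M.kap q * (M.v b : ℂ)‖ = ‖M.kap q * (M.v b : ℂ)‖ := by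
            rw [mul_assoc, norm_mul, hsn, one_mul]
          rw [e3]
          calc _ ≤ (t * 2 ^ M.L b) * 2 ^ M.L b :=
                mul_le_mul (h4.1.trans (mul_le_mul_of_nonneg_left hL2 ht0)) h4.2
                  (Real.exp_pos _).le (by positivity)
            _ = _ := by rw [p4]; ring
        have h5 : ‖E (M.kap q) d‖ * ‖Complex.exp (sgn d * M.kap q * (M.v b : ℂ)) - 1‖ ≤
            1 * (t * 4 ^ M.L b) := mul_le_mul hE2 h3 (norm_nonneg _) zero_le_one
        linarith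
      have h6 : (2 : ℝ) ^ M.L b * 4 ^ M.L b ≤ 16 ^ M.L b * (1 / 2) ^ d.natAbs := by
        have h7 : (2 : ℝ) ^ M.L b * 4 ^ M.L b = 16 ^ M.L b * (1 / 2) ^ M.L b := by
          rw [← mul_pow, ← mul_pow]; norm_num
        rw [h7]
        exact mul_le_mul_of_nonneg_left
          (pow_le_pow_of_le_one (by norm_num) (by norm_num) hdL) (by positivity)
      calc _ ≤ CU M C * ((4 * 2 ^ M.L b * M.c b) * (2 * (t * 4 ^ M.L b))) := by
            refine mul_le_mul (ui_le d) ?_ (by positivity) hC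
            exact mul_le_mul (w_norm' hq2 b) h1 (norm_nonneg _) (by positivity)
        _ = (M.c b * (2 ^ M.L b * 4 ^ M.L b)) * (8 * CU M C * t) := by ring
        _ ≤ (M.c b * (16 ^ M.L b * (1 / 2) ^ d.natAbs)) * (8 * CU M C * t) := by
            refine mul_le_mul_of_nonneg_right ?_ (by positivity)
            exact mul_le_mul_of_nonneg_left h6 hc
        _ = _ := by ring
  refine (norm_add_le _ _).trans ((add_le_add b1 b2).trans ?_)
  have : 0 ≤ (M.c b * 16 ^ M.L b) * (CU M C * t * (1 / 2) ^ d.natAbs) := by positivity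
  nlinarith

end Mdl

end

end KN.SQ
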