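import Pool.Agent.H132.SQ.Ap2

/-!
# The difference of the solution and the approximate solution
-/

set_option autoImplicit false

namespace KN.SQ

open Finset Filter Topology
open scoped Classical ENNReal ComplexConjugate

noncomputable section

namespace Mdl

variable {M : Mdl} {C : Cap}

theorem cv_lip {q : ℂ} (hq : ‖q‖ < 2) (d : ℤ) :
    ‖C.cv q d - C.cv (M.qc : ℂ) d‖ ≤ C.T * (1 / 4) ^ d.natAbs * ‖q - M.qc‖ := by
  refine Convex.norm_image_sub_le_of_norm_hasDerivWithin_le (f := fun q => C.cv q d)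
    (f' := fun q => C.cv' q d)
    (s := Metric.ball (0 : ℂ) 2) (x := (M.qc : ℂ)) (y := q)
    (fun x hx => ?_)
    (fun x hx => C.cv'_bd (mem_ball_zero_iff.1 hx).le d) (convex_ball _ _)
    (mem_ball_zero_iff.2 M.qc_lt2) (mem_ball_zero_iff.2 hq)
  have h1 := (ev d).hasFDerivAt.comp_hasDerivAt x (C.cv_deriv (mem_ball_zero_iff.1 hx))
  exact h1.hasDerivWithinAt

/-- the error -/
def er (M : Mdl) (C : Cap) (q : ℂ) : H := C.cv q - (vq M C q - M.K q (vq M C q))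

/-- the constant of the error -/
def CE (M : Mdl) (C : Cap) : ℝ := 3 * C.T + 2 * CU M C

theorem CE_nonneg : 0 ≤ CE M C := by
  unfold CE
  have := C.T_nonneg
  have := CU_nonneg (M := M) (C := C)
  positivity

theorem er1_bd {q : ℂ} (hq : q ∈ Loc M) (d : ℤ) :
    ‖(er M C q - er2 M C q) d‖ ≤ (CE M C * ‖M.kap q‖) * (1 / 2) ^ d.natAbs := by
  have hqU := hq.1
  have hq2 : ‖q‖ ≤ 2 := hqU.1.le
  have hκ := hq.2
  -- the three families
  have H1 := M.N_hasSum hq2 (vq M C q) d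
  have H2 := (Complex.hasSum_ofReal.2 (uP_summable (M := M) (C := C) d).hasSum).mul_right
    (E (M.kap q) d)
  have hPh : HasSum (fun b => M.w q b * Complex.exp (sgn d * M.kap q * (M.v b : ℂ)) - M.W b)
      (Ph M q (M.kap q) - (q ^ 2 - (M.qc : ℂ) ^ 2)) := by
    have hs : ‖sgn d * M.kap q‖ ≤ 1 / 100 := by
      have hsn : ‖sgn d‖ = 1 := by unfold sgn; split_ifs <;> simp
      rw [norm_mul, hsn, one_mul]; exact hκ
    have h1 := (Ph_summable (M := M) hq2 hs).hasSum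
    have h2 : Ph M q (M.kap q) = Ph M q (sgn d * M.kap q) := by
      unfold sgn
      split_ifs
      · rw [one_mul]
      · rw [neg_one_mul, Ph_neg]
    have h3 : Ph M q (M.kap q) - (q ^ 2 - (M.qc : ℂ) ^ 2) =
        ∑' b, (M.w q b * Complex.exp (sgn d * M.kap q * (M.v b : ℂ)) - M.W b) := by
      rw [h2]; unfold Ph; ring
    rw [h3]
    exact h1
  have H3 := hPh.mul_left ((ui M C d : ℂ) * E (M.kap q) d)
  have H4 := (H1.sub H2).sub H3
  have H5 := tsum_of_norm_bounded (M.sm.hasSum.mul_right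
    (30 * CU M C * ‖M.kap q‖ * (1 / 2) ^ d.natAbs)) (fun b => err_b (C := C) hq b d)
  rw [H4.tsum_eq] at H5
  have heq := u_eq (M := M) (C := C) d
  set SS : ℝ := ∑' b, M.W b * (if M.P b d then u M C (d - M.v b) else 0) with hSS
  set t := ‖M.kap q‖ with ht
  have ht0 : 0 < t := (rt hq).1
  have hC := CU_nonneg (M := M) (C := C)
  have hT := C.T_nonneg
  have hh : (0 : ℝ) ≤ (1 / 2) ^ d.natAbs := by positivity
  have e1 : (er M C q - er2 M C q) d = (M.N q (vq M C q) d - (SS : ℂ) * E (M.kap q) d -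
      (ui M C d : ℂ) * E (M.kap q) d * (Ph M q (M.kap q) - (q ^ 2 - (M.qc : ℂ) ^ 2))) +
      ((C.cv q d - C.cv (M.qc : ℂ) d) + C.cv (M.qc : ℂ) d * (1 - E (M.kap q) d)) +
      (q ^ 2 - (M.qc : ℂ) ^ 2) * ((u M C d - ui M C d : ℝ) : ℂ) * E (M.kap q) d := by
    have e2 : (er M C q - er2 M C q) d = C.cv q d - (vq M C q d - (q ^ 2 * vq M C q d +
        M.N q (vq M C q) d)) - er2 M C q d := rfl
    rw [e2, er2_apply hq, vq_apply hq, ← cr_coe (M := M) (C := C) d]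
    have e3 : (SS : ℂ) = (u M C d : ℂ) - (cr M C d : ℂ) - (M.qc : ℂ) ^ 2 * (u M C d : ℂ) := by
      have : SS = u M C d - cr M C d - M.qc ^ 2 * u M C d := by linarith
      rw [this]; push_cast; ring
    rw [e3]
    push_cast
    ring
  have b1 : ‖M.N q (vq M C q) d - (SS : ℂ) * E (M.kap q) d -
      (ui M C d : ℂ) * E (M.kap q) d * (Ph M q (M.kap q) - (q ^ 2 - (M.qc : ℂ) ^ 2))‖ ≤
      CU M C * t * (1 / 2) ^ d.natAbs := by
    refine H5.trans ?_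
    have h6 := M.s1
    have h7 : 0 ≤ CU M C * t * (1 / 2) ^ d.natAbs := by positivity
    calc (∑' b, M.c b * 16 ^ M.L b) * (30 * CU M C * t * (1 / 2) ^ d.natAbs) ≤
          1 / 10 ^ 6 * (30 * CU M C * t * (1 / 2) ^ d.natAbs) :=
          mul_le_mul_of_nonneg_right h6 (by positivity)
      _ ≤ _ := by norm_num; linarith
  have hδ : ‖q - M.qc‖ ≤ t := by
    have h1 : ‖q - M.qc‖ ≤ t ^ 2 := sub_le_kap hqU
    have h2 : t ≤ 1 / 100 := hκ
    nlinarith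
  have hE2 : ‖E (M.kap q) d‖ ≤ 1 := E_norm_le_one (M.kap_re_nonneg q) _
  have p42 : (1 / 4 : ℝ) ^ d.natAbs ≤ (1 / 2) ^ d.natAbs :=
    pow_le_pow_left₀ (by norm_num) (by norm_num) _
  have b2 : ‖C.cv q d - C.cv (M.qc : ℂ) d‖ ≤ C.T * t * (1 / 2) ^ d.natAbs := by
    refine (cv_lip hqU.1 d).trans ?_
    calc _ ≤ C.T * (1 / 2) ^ d.natAbs * t := by
          refine mul_le_mul ?_ hδ (norm_nonneg _) (by positivity)
          exact mul_le_mul_of_nonneg_left p42 hT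
      _ = _ := by ring
  have b3 : ‖C.cv (M.qc : ℂ) d * (1 - E (M.kap q) d)‖ ≤ 2 * C.T * t * (1 / 2) ^ d.natAbs := by
    rw [norm_mul]
    have h1 := C.cv_bd M.qc_norm d
    have h2 := one_sub_E (M.kap_re_nonneg q) hκ d
    have h3 := half_pow d.natAbs
    calc _ ≤ (C.T * (1 / 4) ^ d.natAbs) * (2 * t * d.natAbs) :=
          mul_le_mul h1 h2 (norm_nonneg _) (by positivity)
      _ = 2 * C.T * t * ((d.natAbs : ℝ) * (1 / 4) ^ d.natAbs) := by ring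
      _ ≤ _ := mul_le_mul_of_nonneg_left h3 (by positivity)
  have b4 : ‖(q ^ 2 - (M.qc : ℂ) ^ 2) * ((u M C d - ui M C d : ℝ) : ℂ) * E (M.kap q) d‖ ≤
      CU M C * t * (1 / 2) ^ d.natAbs := by
    rw [norm_mul, norm_mul, Complex.norm_real, Real.norm_eq_abs]
    have h1 := ui_spec (M := M) (C := C) d
    have h2 : ‖q ^ 2 - (M.qc : ℂ) ^ 2‖ ≤ t := by
      have h3 := kap_norm_sq (M := M) q
      rw [norm_sub_rev]
      have h4 := M.gam_ge
      have h5 : t ≤ 1 / 100 := hκ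
      have h6 := norm_nonneg ((M.qc : ℂ) ^ 2 - q ^ 2)
      have h7 : t ^ 2 ≤ t := by nlinarith
      nlinarith
    have h3 := CG_le (M := M) (C := C)
    calc _ ≤ (t * (4 * CG M C * (1 / 2) ^ d.natAbs)) * 1 := by
          refine mul_le_mul (mul_le_mul h2 h1 (abs_nonneg _) ht0.le) hE2 (norm_nonneg _) ?_
          have := CG_nonneg (M := M) (C := C)
          positivity
      _ = (t * (1 / 2) ^ d.natAbs) * (4 * CG M C) := by ring
      _ ≤ (t * (1 / 2) ^ d.natAbs) * CU M C := mul_le_mul_of_nonneg_left h3 (by positivity)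
      _ = _ := by ring
  rw [e1]
  refine (norm_add_le _ _).trans ?_
  have h8 := norm_add_le (M.N q (vq M C q) d - (SS : ℂ) * E (M.kap q) d -
      (ui M C d : ℂ) * E (M.kap q) d * (Ph M q (M.kap q) - (q ^ 2 - (M.qc : ℂ) ^ 2)))
      ((C.cv q d - C.cv (M.qc : ℂ) d) + C.cv (M.qc : ℂ) d * (1 - E (M.kap q) d))
  have h9 := norm_add_le (C.cv q d - C.cv (M.qc : ℂ) d)
    (C.cv (M.qc : ℂ) d * (1 - E (M.kap q) d))
  unfold CE
  have e5 : (3 * C.T + 2 * CU M C) * t * (1 / 2) ^ d.natAbs =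
    3 * (C.T * t * (1 / 2) ^ d.natAbs) + 2 * (CU M C * t * (1 / 2) ^ d.natAbs) := by ring
  rw [e5]
  linarith

/-- the difference -/
def gq (M : Mdl) (C : Cap) (q : ℂ) : H := M.sol C q - vq M C q

theorem gq_eq {q : ℂ} (hq : q ∈ Loc M) : gq M C q - M.K q (gq M C q) = er M C q := by
  have h1 := G_right (M.isUnit_of_U hq.1) (C.cv q)
  unfold gq er sol
  rw [map_sub]
  have h2 : M.G q (C.cv q) = C.cv q + M.K q (M.G q (C.cv q)) := by
    rw [sub_eq_iff_eq_add] at h1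
    exact h1
  calc _ = (M.G q (C.cv q) - M.K q (M.G q (C.cv q))) - (vq M C q - M.K q (vq M C q)) := by abel
    _ = _ := by rw [h1]

theorem q_ne {q : ℂ} (hq : q ∈ M.U) : 1 - q ^ 2 ≠ 0 := by
  intro h
  have h1 : q ^ 2 = 1 := by linear_combination -h
  have h2 := hq.2.2
  rw [h1] at h2
  have e1 : (M.qc : ℂ) ^ 2 - 1 = ((M.qc ^ 2 - 1 : ℝ) : ℂ) := by push_cast; ring
  rw [e1, Complex.norm_real, Complex.ofReal_re, Real.norm_eq_abs] at h2
  have h3 : M.qc ^ 2 - 1 < 0 := by nlinarith [M.qc_lt, M.qc_pos]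
  rw [abs_of_neg h3] at h2
  linarith

theorem gq_zero {q : ℂ} (hq : q ∈ Loc M) : gq M C q 0 = 0 := by
  have hq2 : ‖q‖ ≤ 2 := hq.1.1.le
  have h1 := congrArg (fun f : H => f 0) (gq_eq (C := C) hq)
  have e1 : (gq M C q - M.K q (gq M C q)) 0 = gq M C q 0 - (q ^ 2 * gq M C q 0 +
      M.N q (gq M C q) 0) := rfl
  have e2 : er M C q 0 = C.cv q 0 - (vq M C q 0 - (q ^ 2 * vq M C q 0 +
      M.N q (vq M C q) 0)) := rfl
  have e3 : vq M C q 0 = 0 := by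
    rw [vq_apply hq, u_zero]; simp
  simp only at h1
  rw [e1, e2, C.cv_zero hq2, e3, N_zero hq2, N_zero hq2] at h1
  have h2 : (1 - q ^ 2) * gq M C q 0 = 0 := by linear_combination h1
  rcases mul_eq_zero.1 h2 with h3 | h3
  · exact absurd h3 (q_ne hq.1)
  · exact h3

theorem amgm {X Y c1 c2 : ℝ} (h1 : 0 < c1) (h2 : 0 < c2) (hX : 0 ≤ X) (hY : 0 ≤ Y) :
    ∃ Z, 0 ≤ Z ∧ ∀ D' N t : ℝ, 0 < t →
      c1 * D' ^ 2 + c2 * (t ^ 2 * N ^ 2) ≤ X * t * D' + Y * t ^ 2 * N → D' ≤ Z * t ∧ N ≤ Z := by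
  set R := X ^ 2 / (4 * c1) + Y ^ 2 / (4 * c2) with hR
  have hR0 : 0 ≤ R := by positivity
  refine ⟨X / (2 * c1) + Y / (2 * c2) + √(R / c1) + √(R / c2), by positivity, ?_⟩
  intro D' N t ht h
  obtain ⟨P, rfl⟩ : ∃ P, D' = P * t := ⟨D' / t, by field_simp⟩
  have h3 : c1 * P ^ 2 + c2 * N ^ 2 ≤ X * P + Y * N := by
    have h4 : t ^ 2 * (c1 * P ^ 2 + c2 * N ^ 2) ≤ t ^ 2 * (X * P + Y * N) := by nlinarith
    exact le_of_mul_le_mul_left h4 (by positivity)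
  have h4 : c1 * (P - X / (2 * c1)) ^ 2 + c2 * (N - Y / (2 * c2)) ^ 2 ≤ R := by
    have e : c1 * (P - X / (2 * c1)) ^ 2 + c2 * (N - Y / (2 * c2)) ^ 2 =
        (c1 * P ^ 2 + c2 * N ^ 2) - (X * P + Y * N) + R := by
      rw [hR]; field_simp; ring
    rw [e]; linarith
  have s1 : 0 ≤ √(R / c1) := Real.sqrt_nonneg _
  have s2 : 0 ≤ √(R / c2) := Real.sqrt_nonneg _
  have s3 : 0 ≤ X / (2 * c1) := by positivity
  have s4 : 0 ≤ Y / (2 * c2) := by positivity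
  have h5 : P - X / (2 * c1) ≤ √(R / c1) := by
    refine Real.le_sqrt_of_sq_le ?_
    rw [le_div_iff₀ h1]
    have := mul_nonneg h2.le (sq_nonneg (N - Y / (2 * c2)))
    linarith
  have h6 : N - Y / (2 * c2) ≤ √(R / c2) := by
    refine Real.le_sqrt_of_sq_le ?_
    rw [le_div_iff₀ h2]
    have := mul_nonneg h1.le (sq_nonneg (P - X / (2 * c1)))
    linarith
  refine ⟨mul_le_mul_of_nonneg_right ?_ ht.le, ?_⟩ <;> linarith

theorem gq_bd (M : Mdl) (C : Cap) : ∃ Z, 0 ≤ Z ∧ ∀ q ∈ Loc M,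
    √(D (gq M C q)) ≤ Z * ‖M.kap q‖ ∧ ‖gq M C q‖ ≤ Z := by
  have ha := M.a0
  have hqc := M.qc_pos
  have hg := M.gam_pos
  have hCE := CE_nonneg (M := M) (C := C)
  have hCU := CU_nonneg (M := M) (C := C)
  have hg2 := g2_nonneg
  obtain ⟨Z, hZ0, hZ⟩ := amgm (X := CE M C * g2) (Y := 30 * CU M C)
    (c1 := M.a * M.qc ^ 3 / 16) (c2 := 1 / (24 * M.gam)) (by positivity) (by positivity)
    (by positivity) (by positivity)
  refine ⟨Z, hZ0, fun q hq => ?_⟩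
  set t := ‖M.kap q‖ with ht
  have ht0 : 0 < t := (rt hq).1
  refine hZ _ _ t ht0 ?_
  set g := gq M C q with hgdef
  have h1 := M.num_range hq.1 g
  rw [gq_eq hq] at h1
  have e1 : er M C q = (er M C q - er2 M C q) + er2 M C q := by abel
  rw [e1, inner_add_right] at h1
  have h2 : ‖inner ℂ g (er M C q - er2 M C q)‖ ≤ CE M C * t * g2 * √(D g) :=
    inner_le_of_bd2 (gq_zero hq) (er1_bd hq)
  have h3 : ‖inner ℂ g (er2 M C q)‖ ≤ ‖g‖ * (30 * CU M C * t ^ 2) :=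
    (norm_inner_le_norm _ _).trans (mul_le_mul_of_nonneg_left (er2_norm hq) (norm_nonneg _))
  have h4 := norm_add_le (inner ℂ g (er M C q - er2 M C q)) (inner ℂ g (er2 M C q))
  have h5 := M.A_ge g
  have h6 : t ^ 2 ≤ 3 * M.gam * ‖q - M.qc‖ := kap_le_sub hq.1
  rw [norm_sub_rev] at h6
  have h7 : √(D g) ^ 2 = D g := Real.sq_sqrt (D_nonneg _)
  rw [h7]
  have h8 : 1 / (24 * M.gam) * (t ^ 2 * ‖g‖ ^ 2) ≤ 1 / 8 * (‖(M.qc : ℂ) - q‖ * ‖g‖ ^ 2) := by
    have h9 : t ^ 2 * ‖g‖ ^ 2 ≤ 3 * M.gam * ‖(M.qc : ℂ) - q‖ * ‖g‖ ^ 2 :=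
      mul_le_mul_of_nonneg_right h6 (sq_nonneg _)
    rw [div_mul_eq_mul_div, div_le_iff₀ (by positivity)]
    nlinarith
  nlinarith

theorem gq_pt {q : ℂ} (hq : q ∈ Loc M) {Z : ℝ} (hZ : √(D (gq M C q)) ≤ Z * ‖M.kap q‖) (d : ℤ) :
    ‖gq M C q d‖ ≤ ((d.natAbs : ℝ) + 1) * (Z * ‖M.kap q‖) :=
  (norm_le_sqrt (gq_zero hq) d).trans (mul_le_mul_of_nonneg_left hZ (by positivity))

end Mdl

end

end KN.SQ
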