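import Pool.Agent.H132.SQ.Ap3

/-!
# The derivative of the generating function near the singularity
-/

set_option autoImplicit false

namespace KN.SQ

open Finset Filter Topology
open scoped Classical ENNReal ComplexConjugate

noncomputable section

theorem B_bd {f h : H} {X Y : ℝ} {r : ℝ} (h0 : 0 ≤ r) (h1 : r < 1)
    (hf : ∀ d : ℤ, ‖f d‖ ≤ X * ((d.natAbs : ℝ) + 1)) (hh : ∀ d : ℤ, ‖h d‖ ≤ Y * r ^ d.natAbs)
    (hX : 0 ≤ X) :
    ‖B f h‖ ≤ X * Y * ∑' d : ℤ, ((d.natAbs : ℝ) + 1) * r ^ d.natAbs := by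
  unfold B
  rw [← tsum_mul_left]
  refine tsum_of_norm_bounded ((int_geom1 h0 h1).mul_left _).hasSum fun d => ?_
  rw [norm_mul]
  calc _ ≤ (X * ((d.natAbs : ℝ) + 1)) * (Y * r ^ d.natAbs) :=
        mul_le_mul (hf d) (hh d) (norm_nonneg _) (by positivity)
    _ = _ := by ring

/-- the sum of the geometric weights -/
def g3 : ℝ := ∑' d : ℤ, (1 / 2 : ℝ) ^ d.natAbs

theorem g3_nonneg : 0 ≤ g3 := tsum_nonneg fun d => by positivity

namespace Mdl

variable {M : Mdl} {C Cl Cr : Cap}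

theorem w'_norm2 {q : ℂ} (hq : ‖q‖ ≤ 2) (b : M.ι) :
    ‖M.w' q b‖ ≤ M.c b * (((M.L b + 2 : ℕ) : ℝ) * 2 ^ (M.L b + 1)) := by
  unfold w'
  rw [norm_mul, norm_mul, norm_pow, Complex.norm_real, Real.norm_eq_abs, abs_of_nonneg (M.c0 b),
    Complex.norm_natCast]
  refine mul_le_mul_of_nonneg_left ?_ (M.c0 b)
  exact mul_le_mul_of_nonneg_left (pow_le_pow_left₀ (norm_nonneg _) hq _) (Nat.cast_nonneg _)

theorem w'_sub {q : ℂ} (hq : ‖q‖ ≤ 2) (b : M.ι) :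
    ‖M.w' q b - M.w' (M.qc : ℂ) b‖ ≤
      M.c b * (((M.L b + 2 : ℕ) : ℝ) * (4 ^ (M.L b + 1) * ‖q - M.qc‖)) := by
  have e : M.w' q b - M.w' (M.qc : ℂ) b = (M.c b : ℂ) * (((M.L b + 2 : ℕ) : ℂ) *
      (q ^ (M.L b + 1) - (M.qc : ℂ) ^ (M.L b + 1))) := by
    unfold w'; ring
  rw [e, norm_mul, norm_mul, Complex.norm_real, Real.norm_eq_abs, abs_of_nonneg (M.c0 b),
    Complex.norm_natCast]
  refine mul_le_mul_of_nonneg_left (mul_le_mul_of_nonneg_left ?_ (Nat.cast_nonneg _)) (M.c0 b)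
  exact pow_sub_pow_bd hq M.qc_norm _

theorem L2_le {L : ℕ} (h : 1 ≤ L) : ((L + 2 : ℕ) : ℝ) ≤ 4 ^ L := by
  have : L + 2 ≤ 4 ^ L := by
    induction L, h using Nat.le_induction with
    | base => norm_num
    | succ n hn ih => rw [pow_succ]; omega
  exact_mod_cast this

theorem L3_le {L : ℕ} (h : 1 ≤ L) : ((L + 2 : ℕ) : ℝ) * L ≤ 3 * 4 ^ L := by
  have h1 : L ^ 2 ≤ 4 ^ L := nat_sq4 L
  have h2 : L ≤ L ^ 2 := by nlinarith
  have : (L + 2) * L ≤ 3 * 4 ^ L := by nlinarith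
  exact_mod_cast this

theorem K'_err_b {q : ℂ} (hq : q ∈ Loc M) (b : M.ι) (d : ℤ) :
    ‖M.w' q b * (if M.P b d then vq M C q (d - M.v b) else 0) -
      M.w' (M.qc : ℂ) b * ((u M C d : ℂ) * E (M.kap q) d)‖ ≤
      (M.c b * 16 ^ M.L b) * (CU M C * (3 * (1 / 2) ^ d.natAbs +
        10 * ‖M.kap q‖ * ‖E (M.kap q) d‖)) := by
  have hqU := hq.1
  have hq2 : ‖q‖ ≤ 2 := hqU.1.le
  have hc := M.c0 b
  have hC := CU_nonneg (M := M) (C := C)
  have hL1 := M.L1 b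
  set pu : ℝ := (if M.P b d then u M C (d - M.v b) else 0) with hpu
  have e0 : (if M.P b d then vq M C q (d - M.v b) else 0) = (pu : ℂ) * E (M.kap q) (d - M.v b) := by
    rw [hpu]
    split_ifs
    · rw [vq_apply hq]
    · simp
  rw [e0]
  have e1 : M.w' q b * ((pu : ℂ) * E (M.kap q) (d - M.v b)) -
      M.w' (M.qc : ℂ) b * ((u M C d : ℂ) * E (M.kap q) d) =
      M.w' q b * ((pu - ui M C d : ℝ) : ℂ) * E (M.kap q) (d - M.v b) +
      M.w' q b * (ui M C d : ℂ) * (E (M.kap q) (d - M.v b) - E (M.kap q) d) +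
      (M.w' q b - M.w' (M.qc : ℂ) b) * (ui M C d : ℂ) * E (M.kap q) d +
      M.w' (M.qc : ℂ) b * (((-(u M C d - ui M C d) : ℝ) : ℂ)) * E (M.kap q) d := by
    push_cast; ring
  rw [e1]
  set t := ‖M.kap q‖ with ht
  have ht0 : 0 ≤ t := norm_nonneg _
  have hκ := exp_small hq.2 (M.L b)
  rw [← ht] at hκ
  have hE1 : ‖E (M.kap q) (d - M.v b)‖ ≤ 1 := E_norm_le_one (M.kap_re_nonneg q) _
  have hE2 : ‖E (M.kap q) d‖ ≤ 1 := E_norm_le_one (M.kap_re_nonneg q) _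
  have hE0 := norm_nonneg (E (M.kap q) d)
  have hE3 : ‖E (M.kap q) (d - M.v b) - E (M.kap q) d‖ ≤
      ‖E (M.kap q) d‖ * (t * M.L b * 2 ^ M.L b) := by
    have h1 : |(((d - M.v b).natAbs : ℝ) - d.natAbs)| ≤ (M.L b : ℕ) :=
      (natAbs_diff d (M.v b)).trans (by exact_mod_cast vn_le b)
    refine (E_sub (κ := M.kap q) h1).trans ?_
    refine mul_le_mul_of_nonneg_left ?_ hE0
    exact mul_le_mul_of_nonneg_left hκ (by positivity)
  have hδ : ‖q - M.qc‖ ≤ t := by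
    have h1 : ‖q - M.qc‖ ≤ t ^ 2 := sub_le_kap hqU
    have h2 : t ≤ 1 / 100 := hq.2
    nlinarith
  have p4 : (4 : ℝ) ^ M.L b = 2 ^ M.L b * 2 ^ M.L b := by rw [← mul_pow]; norm_num
  have p16 : (16 : ℝ) ^ M.L b = 4 ^ M.L b * 4 ^ M.L b := by rw [← mul_pow]; norm_num
  have l2 := L2_le hL1
  have l3 := L3_le hL1
  have hpud := pu_ui (M := M) (C := C) b d
  rw [← hpu] at hpud
  have hh : (0 : ℝ) ≤ (1 / 2) ^ d.natAbs := by positivity
  have hwn := w'_norm2 (M := M) hq2 b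
  have b1 : ‖M.w' q b * ((pu - ui M C d : ℝ) : ℂ) * E (M.kap q) (d - M.v b)‖ ≤
      (M.c b * 16 ^ M.L b) * (CU M C * (2 * (1 / 2) ^ d.natAbs)) := by
    rw [norm_mul, norm_mul, Complex.norm_real, Real.norm_eq_abs]
    calc _ ≤ (M.c b * (((M.L b + 2 : ℕ) : ℝ) * 2 ^ (M.L b + 1))) *
          (CU M C * (2 ^ M.L b * (1 / 2) ^ d.natAbs)) * 1 :=
          mul_le_mul (mul_le_mul hwn hpud (abs_nonneg _) (by positivity)) hE1 (norm_nonneg _)
            (by positivity)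
      _ = (M.c b * (((M.L b + 2 : ℕ) : ℝ) * 4 ^ M.L b)) * (CU M C * (2 * (1 / 2) ^ d.natAbs)) := by
          rw [p4, pow_succ]; ring
      _ ≤ (M.c b * (4 ^ M.L b * 4 ^ M.L b)) * (CU M C * (2 * (1 / 2) ^ d.natAbs)) := by
          refine mul_le_mul_of_nonneg_right ?_ (by positivity)
          refine mul_le_mul_of_nonneg_left ?_ hc
          exact mul_le_mul_of_nonneg_right l2 (by positivity)
      _ = _ := by rw [p16]
  have b2 : ‖M.w' q b * (ui M C d : ℂ) * (E (M.kap q) (d - M.v b) - E (M.kap q) d)‖ ≤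
      (M.c b * 16 ^ M.L b) * (CU M C * (6 * t * ‖E (M.kap q) d‖)) := by
    rw [norm_mul, norm_mul, Complex.norm_real, Real.norm_eq_abs, abs_of_nonneg (ui_nonneg _)]
    calc _ ≤ (M.c b * (((M.L b + 2 : ℕ) : ℝ) * 2 ^ (M.L b + 1))) * CU M C *
          (‖E (M.kap q) d‖ * (t * M.L b * 2 ^ M.L b)) :=
          mul_le_mul (mul_le_mul hwn (ui_le d) (ui_nonneg _) (by positivity)) hE3 (norm_nonneg _)
            (by positivity)
      _ = (M.c b * ((((M.L b + 2 : ℕ) : ℝ) * M.L b) * 4 ^ M.L b)) *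
          (CU M C * (2 * t * ‖E (M.kap q) d‖)) := by
          rw [p4, pow_succ]; ring
      _ ≤ (M.c b * ((3 * 4 ^ M.L b) * 4 ^ M.L b)) * (CU M C * (2 * t * ‖E (M.kap q) d‖)) := by
          refine mul_le_mul_of_nonneg_right ?_ (by positivity)
          refine mul_le_mul_of_nonneg_left ?_ hc
          exact mul_le_mul_of_nonneg_right l3 (by positivity)
      _ = _ := by rw [p16]; ring
  have b3 : ‖(M.w' q b - M.w' (M.qc : ℂ) b) * (ui M C d : ℂ) * E (M.kap q) d‖ ≤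
      (M.c b * 16 ^ M.L b) * (CU M C * (4 * t * ‖E (M.kap q) d‖)) := by
    rw [norm_mul, norm_mul, Complex.norm_real, Real.norm_eq_abs, abs_of_nonneg (ui_nonneg _)]
    have h1 := w'_sub (M := M) hq2 b
    calc _ ≤ (M.c b * (((M.L b + 2 : ℕ) : ℝ) * (4 ^ (M.L b + 1) * t))) * CU M C *
          ‖E (M.kap q) d‖ := by
            refine mul_le_mul_of_nonneg_right ?_ hE0
            refine mul_le_mul (h1.trans ?_) (ui_le d) (ui_nonneg _) (by positivity)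
            refine mul_le_mul_of_nonneg_left (mul_le_mul_of_nonneg_left ?_ (Nat.cast_nonneg _)) hc
            exact mul_le_mul_of_nonneg_left hδ (by positivity)
      _ = (M.c b * (((M.L b + 2 : ℕ) : ℝ) * 4 ^ M.L b)) *
          (CU M C * (4 * t * ‖E (M.kap q) d‖)) := by
          rw [pow_succ]; ring
      _ ≤ (M.c b * (4 ^ M.L b * 4 ^ M.L b)) * (CU M C * (4 * t * ‖E (M.kap q) d‖)) := by
          refine mul_le_mul_of_nonneg_right ?_ (by positivity)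
          refine mul_le_mul_of_nonneg_left ?_ hc
          exact mul_le_mul_of_nonneg_right l2 (by positivity)
      _ = _ := by rw [p16]
  have b4 : ‖M.w' (M.qc : ℂ) b * (((-(u M C d - ui M C d) : ℝ) : ℂ)) * E (M.kap q) d‖ ≤
      (M.c b * 16 ^ M.L b) * (CU M C * (1 / 2) ^ d.natAbs) := by
    rw [norm_mul, norm_mul, Complex.norm_real, Real.norm_eq_abs, abs_neg]
    have h1 := M.w'_norm M.qc_norm b
    have h2 := ui_spec (M := M) (C := C) d
    have h3 : |u M C d - ui M C d| ≤ CU M C * (1 / 2) ^ d.natAbs :=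
      h2.trans (mul_le_mul_of_nonneg_right CG_le hh)
    calc _ ≤ (M.c b * 16 ^ M.L b) * (CU M C * (1 / 2) ^ d.natAbs) * 1 :=
          mul_le_mul (mul_le_mul h1 h3 (abs_nonneg _) (by positivity)) hE2 hE0 (by positivity)
      _ = _ := by ring
  refine (norm_add_le _ _).trans ?_
  have n1 := norm_add_le (M.w' q b * ((pu - ui M C d : ℝ) : ℂ) * E (M.kap q) (d - M.v b) +
      M.w' q b * (ui M C d : ℂ) * (E (M.kap q) (d - M.v b) - E (M.kap q) d))
      ((M.w' q b - M.w' (M.qc : ℂ) b) * (ui M C d : ℂ) * E (M.kap q) d)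
  have n2 := norm_add_le (M.w' q b * ((pu - ui M C d : ℝ) : ℂ) * E (M.kap q) (d - M.v b))
      (M.w' q b * (ui M C d : ℂ) * (E (M.kap q) (d - M.v b) - E (M.kap q) d))
  have e5 : (M.c b * 16 ^ M.L b) * (CU M C * (3 * (1 / 2) ^ d.natAbs +
        10 * t * ‖E (M.kap q) d‖)) = (M.c b * 16 ^ M.L b) * (CU M C * (2 * (1 / 2) ^ d.natAbs)) +
      (M.c b * 16 ^ M.L b) * (CU M C * (6 * t * ‖E (M.kap q) d‖)) +
      (M.c b * 16 ^ M.L b) * (CU M C * (4 * t * ‖E (M.kap q) d‖)) +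
      (M.c b * 16 ^ M.L b) * (CU M C * (1 / 2) ^ d.natAbs) := by ring
  rw [e5]
  linarith

theorem K'_err {q : ℂ} (hq : q ∈ Loc M) (d : ℤ) :
    ‖M.K' q (vq M C q) d - M.mp * vq M C q d‖ ≤
      CU M C * ((1 / 2) ^ d.natAbs + 3 * ‖M.kap q‖ * ‖E (M.kap q) d‖) := by
  have hqU := hq.1
  have hq2 : ‖q‖ ≤ 2 := hqU.1.le
  have hC := CU_nonneg (M := M) (C := C)
  have H1 := M.N'_hasSum hq2 (vq M C q) d
  have H2 := (w'_hasSum (M := M)).mul_right ((u M C d : ℂ) * E (M.kap q) d)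
  have H3 := H1.sub H2
  have H4 := tsum_of_norm_bounded (M.sm.hasSum.mul_right
    (CU M C * (3 * (1 / 2) ^ d.natAbs + 10 * ‖M.kap q‖ * ‖E (M.kap q) d‖)))
    (fun b => K'_err_b (C := C) hq b d)
  rw [H3.tsum_eq] at H4
  set t := ‖M.kap q‖ with ht
  have ht0 : 0 ≤ t := norm_nonneg _
  have hE0 := norm_nonneg (E (M.kap q) d)
  have e1 : M.K' q (vq M C q) d - M.mp * vq M C q d = (M.N' q (vq M C q) d -
      ((M.mp - 2 * M.qc : ℝ) : ℂ) * ((u M C d : ℂ) * E (M.kap q) d)) +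
      2 * (q - M.qc) * (u M C d : ℂ) * E (M.kap q) d := by
    rw [K'_apply, vq_apply hq]; push_cast; ring
  rw [e1]
  refine (norm_add_le _ _).trans ?_
  have hδ : ‖q - M.qc‖ ≤ t := by
    have h1 : ‖q - M.qc‖ ≤ t ^ 2 := sub_le_kap hqU
    have h2 : t ≤ 1 / 100 := hq.2
    nlinarith
  have b1 : ‖2 * (q - M.qc) * (u M C d : ℂ) * E (M.kap q) d‖ ≤ 2 * t * CU M C * ‖E (M.kap q) d‖ := by
    rw [norm_mul, norm_mul, norm_mul, Complex.norm_real, Real.norm_eq_abs,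
      abs_of_nonneg (u_nonneg _)]
    refine mul_le_mul_of_nonneg_right ?_ hE0
    refine mul_le_mul ?_ (u_le_CU d) (u_nonneg _) (by positivity)
    have : ‖(2 : ℂ)‖ = 2 := by simp
    rw [this]; linarith
  have h5 := M.s1
  have h6 : (∑' b, M.c b * 16 ^ M.L b) * (CU M C * (3 * (1 / 2) ^ d.natAbs +
      10 * t * ‖E (M.kap q) d‖)) ≤ 1 / 10 ^ 6 * (CU M C * (3 * (1 / 2) ^ d.natAbs +
      10 * t * ‖E (M.kap q) d‖)) := mul_le_mul_of_nonneg_right h5 (by positivity)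
  have h7 : 0 ≤ CU M C * (1 / 2) ^ d.natAbs := by positivity
  have h8 : 0 ≤ t * CU M C * ‖E (M.kap q) d‖ := by positivity
  norm_num at h6
  nlinarith

theorem B_vv {q : ℂ} (hq : q ∈ Loc M) :
    ‖B (vq M Cl q) (M.K' q (vq M Cr q)) - M.mp * B (vq M Cl q) (vq M Cr q)‖ ≤
      CU M Cl * CU M Cr * (g3 + 24) := by
  have hC1 := CU_nonneg (M := M) (C := Cl)
  have hC2 := CU_nonneg (M := M) (C := Cr)
  set t := ‖M.kap q‖ with ht
  have ht0 : 0 < t := (rt hq).1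
  have e1 : B (vq M Cl q) (M.K' q (vq M Cr q)) - M.mp * B (vq M Cl q) (vq M Cr q) =
      B (vq M Cl q) (M.K' q (vq M Cr q) - (M.mp : ℂ) • vq M Cr q) := by
    rw [B_sub_right, B_smul_right]
  rw [e1]
  unfold B
  have hs1 := int_geom0 (r := 1 / 2) (by norm_num) (by norm_num)
  have hs2 := int_geom0 (rt hq).2.1 (rt hq).2.2
  have hs := ((hs1.add (hs2.mul_left (3 * t))).mul_left (CU M Cl * CU M Cr)).hasSum
  refine (tsum_of_norm_bounded hs fun d => ?_).trans ?_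
  · rw [norm_mul]
    have h1 : ‖vq M Cl q d‖ ≤ CU M Cl := by
      refine (vq_bd hq d).trans (mul_le_of_le_one_right hC1 ?_)
      exact pow_le_one₀ (rt hq).2.1 (rt hq).2.2.le
    have h2 := K'_err (C := Cr) hq d
    have h3 := E_norm_le (kap_re hq.1) d
    have h4 : ‖(M.K' q (vq M Cr q) - (M.mp : ℂ) • vq M Cr q) d‖ ≤
        CU M Cr * ((1 / 2) ^ d.natAbs + 3 * t * Real.exp (-(t / 2)) ^ d.natAbs) := by
      refine h2.trans (mul_le_mul_of_nonneg_left ?_ hC2)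
      have := mul_le_mul_of_nonneg_left h3 (show 0 ≤ 3 * t by positivity)
      linarith
    calc _ ≤ CU M Cl * (CU M Cr * ((1 / 2) ^ d.natAbs + 3 * t * Real.exp (-(t / 2)) ^ d.natAbs)) :=
          mul_le_mul h1 h4 (norm_nonneg _) hC1
      _ = _ := by ring
  · rw [tsum_mul_left, hs1.tsum_add (hs2.mul_left _), tsum_mul_left]
    refine mul_le_mul_of_nonneg_left ?_ (by positivity)
    have h5 := geom_exp ht0 hq.2
    have h6 := mul_le_mul_of_nonneg_left h5 (show 0 ≤ 3 * t by positivity)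
    have h7 : 3 * t * (8 / t) = 24 := by field_simp; norm_num
    rw [h7] at h6
    unfold g3
    linarith

/-- the amplitude -/
def PP (M : Mdl) (Cl Cr : Cap) : ℝ := up M Cl * up M Cr + um M Cl * um M Cr

theorem E_sq (κ : ℂ) (d : ℤ) : E κ d * E κ d = Complex.exp (-(2 * κ)) ^ d.natAbs := by
  unfold E
  rw [← Complex.exp_add, ← Complex.exp_nat_mul]
  congr 1; ring

theorem x_lt {κ : ℂ} (h : 0 < κ.re) : ‖Complex.exp (-(2 * κ))‖ < 1 := by
  rw [Complex.norm_exp, Real.exp_lt_one_iff]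
  simp; exact h

theorem bulk_hasSum {x : ℂ} (hx : ‖x‖ < 1) :
    HasSum (fun d : ℤ => ((ui M Cl d * ui M Cr d : ℝ) : ℂ) * x ^ d.natAbs)
      ((PP M Cl Cr : ℂ) * (x * (1 - x)⁻¹)) := by
  have h2 := hasSum_geometric_of_norm_lt_one hx
  have e0 : ((PP M Cl Cr : ℂ) * (x * (1 - x)⁻¹)) =
      ((up M Cl * up M Cr : ℝ) : ℂ) * (x * (1 - x)⁻¹) +
      ((um M Cl * um M Cr : ℝ) : ℂ) * (x * (1 - x)⁻¹) := by
    unfold PP; push_cast; ring
  rw [e0]
  refine HasSum.of_nat_of_neg_add_one ?_ ?_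
  · rw [← hasSum_nat_add_iff' 1]
    have e1 : (fun n : ℕ => ((ui M Cl ((n + 1 : ℕ) : ℤ) * ui M Cr ((n + 1 : ℕ) : ℤ) : ℝ) : ℂ) *
        x ^ (((n + 1 : ℕ) : ℤ)).natAbs) =
        fun n => ((up M Cl * up M Cr : ℝ) : ℂ) * (x * x ^ n) := by
      funext n
      have h3 : (0 : ℤ) < ((n + 1 : ℕ) : ℤ) := by omega
      unfold ui
      rw [if_pos h3, if_pos h3, Int.natAbs_natCast, pow_succ]
      ring
    rw [e1]
    have e2 : ((up M Cl * up M Cr : ℝ) : ℂ) * (x * (1 - x)⁻¹) -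
        ∑ i ∈ range 1, ((ui M Cl ((i : ℕ) : ℤ) * ui M Cr ((i : ℕ) : ℤ) : ℝ) : ℂ) *
        x ^ (((i : ℕ) : ℤ)).natAbs = ((up M Cl * up M Cr : ℝ) : ℂ) * (x * (1 - x)⁻¹) := by
      simp [ui]
    rw [e2]
    exact (h2.mul_left x).mul_left _
  · have e1 : (fun n : ℕ => ((ui M Cl (-((n : ℤ) + 1)) * ui M Cr (-((n : ℤ) + 1)) : ℝ) : ℂ) *
        x ^ (-((n : ℤ) + 1)).natAbs) =
        fun n => ((um M Cl * um M Cr : ℝ) : ℂ) * (x * x ^ n) := by
      funext n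
      have h3 : ¬ (0 : ℤ) < -((n : ℤ) + 1) := by omega
      have h4 : -((n : ℤ) + 1) < 0 := by omega
      have h5 : (-((n : ℤ) + 1)).natAbs = n + 1 := by omega
      unfold ui
      rw [if_neg h3, if_pos h4, if_neg h3, if_pos h4, h5, pow_succ]
      ring
    rw [e1]
    exact (h2.mul_left x).mul_left _

theorem inv_exp_bd {z : ℂ} (h0 : z ≠ 0) (h1 : ‖z‖ ≤ 1 / 50) :
    ‖Complex.exp (-z) * (1 - Complex.exp (-z))⁻¹ - z⁻¹‖ ≤ 2 := by
  have h2 : ‖Complex.exp z - 1 - z‖ ≤ ‖z‖ ^ 2 :=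
    Complex.norm_exp_sub_one_sub_id_le (by linarith)
  have hz : 0 < ‖z‖ := norm_pos_iff.2 h0
  have h3 : ‖z‖ / 2 ≤ ‖Complex.exp z - 1‖ := by
    have h4 : ‖z‖ ≤ ‖Complex.exp z - 1‖ + ‖Complex.exp z - 1 - z‖ := by
      have := norm_sub_le (Complex.exp z - 1) (Complex.exp z - 1 - z)
      rwa [sub_sub_cancel] at this
    nlinarith
  have h5 : Complex.exp z - 1 ≠ 0 := by
    intro h; rw [h, norm_zero] at h3; linarith
  have e1 : Complex.exp (-z) * (1 - Complex.exp (-z))⁻¹ = (Complex.exp z - 1)⁻¹ := by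
    rw [Complex.exp_neg]
    have h6 := Complex.exp_ne_zero z
    have h7 : 1 - (Complex.exp z)⁻¹ = (Complex.exp z - 1) / Complex.exp z := by field_simp
    rw [h7]
    field_simp
  rw [e1]
  have e2 : (Complex.exp z - 1)⁻¹ - z⁻¹ = -(Complex.exp z - 1 - z) / ((Complex.exp z - 1) * z) := by
    field_simp
    ring
  rw [e2, norm_div, norm_neg, norm_mul, div_le_iff₀ (by
    have : 0 < ‖Complex.exp z - 1‖ := norm_pos_iff.2 h5
    positivity)]
  nlinarith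

theorem B_main {q : ℂ} (hq : q ∈ Loc M) :
    ‖B (vq M Cl q) (vq M Cr q) - PP M Cl Cr * (2 * M.kap q)⁻¹‖ ≤
      2 * CU M Cl * CU M Cr * g3 + 2 * PP M Cl Cr := by
  have hC1 := CU_nonneg (M := M) (C := Cl)
  have hC2 := CU_nonneg (M := M) (C := Cr)
  have hre : 0 < (M.kap q).re := by
    have := kap_re hq.1
    have := (rt hq).1
    linarith
  set x := Complex.exp (-(2 * M.kap q)) with hx
  have hx1 : ‖x‖ < 1 := x_lt hre
  have H1 := bulk_hasSum (M := M) (Cl := Cl) (Cr := Cr) hx1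
  have H2 : HasSum (fun d : ℤ => ((u M Cl d * u M Cr d : ℝ) : ℂ) * x ^ d.natAbs)
      (B (vq M Cl q) (vq M Cr q)) := by
    have h1 := (B_summable (vq M Cl q) (vq M Cr q)).hasSum
    refine h1.congr_fun' fun d => ?_
    rw [vq_apply hq, vq_apply hq, hx, ← E_sq]
    push_cast; ring
  have H3 := H2.sub H1
  have hb : ∀ d : ℤ, ‖((u M Cl d * u M Cr d : ℝ) : ℂ) * x ^ d.natAbs -
      ((ui M Cl d * ui M Cr d : ℝ) : ℂ) * x ^ d.natAbs‖ ≤
      2 * CU M Cl * CU M Cr * (1 / 2) ^ d.natAbs := by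
    intro d
    rw [← sub_mul, norm_mul, norm_pow, ← Complex.ofReal_sub, Complex.norm_real, Real.norm_eq_abs]
    have h1 : ‖x‖ ^ d.natAbs ≤ 1 := pow_le_one₀ (norm_nonneg _) hx1.le
    have hh : (0 : ℝ) ≤ (1 / 2) ^ d.natAbs := by positivity
    have h2 : |u M Cl d - ui M Cl d| ≤ CU M Cl * (1 / 2) ^ d.natAbs :=
      (ui_spec d).trans (mul_le_mul_of_nonneg_right CG_le hh)
    have h3 : |u M Cr d - ui M Cr d| ≤ CU M Cr * (1 / 2) ^ d.natAbs :=
      (ui_spec d).trans (mul_le_mul_of_nonneg_right CG_le hh)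
    have h4 : |u M Cl d * u M Cr d - ui M Cl d * ui M Cr d| ≤
        2 * CU M Cl * CU M Cr * (1 / 2) ^ d.natAbs := by
      have e : u M Cl d * u M Cr d - ui M Cl d * ui M Cr d =
          (u M Cl d - ui M Cl d) * u M Cr d + ui M Cl d * (u M Cr d - ui M Cr d) := by ring
      rw [e]
      refine (abs_add_le _ _).trans ?_
      rw [abs_mul, abs_mul, abs_of_nonneg (u_nonneg _), abs_of_nonneg (ui_nonneg _)]
      have h5 : |u M Cl d - ui M Cl d| * u M Cr d ≤ (CU M Cl * (1 / 2) ^ d.natAbs) * CU M Cr :=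
        mul_le_mul h2 (u_le_CU d) (u_nonneg _) (by positivity)
      have h6 : ui M Cl d * |u M Cr d - ui M Cr d| ≤ CU M Cl * (CU M Cr * (1 / 2) ^ d.natAbs) :=
        mul_le_mul (ui_le d) h3 (abs_nonneg _) hC1
      linarith
    calc _ ≤ (2 * CU M Cl * CU M Cr * (1 / 2) ^ d.natAbs) * 1 :=
          mul_le_mul h4 h1 (by positivity) (by positivity)
      _ = _ := by ring
  have hs := ((int_geom0 (r := 1 / 2) (by norm_num) (by norm_num)).mul_left
    (2 * CU M Cl * CU M Cr)).hasSum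
  have h4 := tsum_of_norm_bounded hs hb
  rw [H3.tsum_eq, tsum_mul_left] at h4
  have hPP : 0 ≤ PP M Cl Cr := by
    unfold PP
    have := up_nonneg (M := M) (C := Cl)
    have := up_nonneg (M := M) (C := Cr)
    have := um_nonneg (M := M) (C := Cl)
    have := um_nonneg (M := M) (C := Cr)
    positivity
  have hk0 : M.kap q ≠ 0 := norm_pos_iff.1 (rt hq).1
  have h5 := inv_exp_bd (z := 2 * M.kap q) (mul_ne_zero two_ne_zero hk0) (by
    rw [norm_mul]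
    have : ‖(2 : ℂ)‖ = 2 := by simp
    rw [this]
    linarith [hq.2])
  rw [← hx] at h5
  have e1 : B (vq M Cl q) (vq M Cr q) - PP M Cl Cr * (2 * M.kap q)⁻¹ =
      (B (vq M Cl q) (vq M Cr q) - (PP M Cl Cr : ℂ) * (x * (1 - x)⁻¹)) +
      PP M Cl Cr * (x * (1 - x)⁻¹ - (2 * M.kap q)⁻¹) := by ring
  rw [e1]
  refine (norm_add_le _ _).trans ?_
  rw [norm_mul, Complex.norm_real, Real.norm_eq_abs, abs_of_nonneg hPP]
  have h6 := mul_le_mul_of_nonneg_left h5 hPP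
  unfold g3
  linarith

end Mdl

end

end KN.SQ
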