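import Pool.Agent.H132.SQ.Ap4

/-!
# The derivative of the generating function: the singular part
-/

set_option autoImplicit false

namespace KN.SQ

open Finset Filter Topology
open scoped Classical ENNReal ComplexConjugate

noncomputable section

namespace Mdl

variable {M : Mdl} {C Cl Cr : Cap}

theorem PP_nonneg : 0 ≤ PP M Cl Cr := by
  unfold PP
  have := up_nonneg (M := M) (C := Cl)
  have := up_nonneg (M := M) (C := Cr)
  have := um_nonneg (M := M) (C := Cl)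
  have := um_nonneg (M := M) (C := Cr)
  positivity

theorem sol_eq {q : ℂ} (h : IsUnit (1 - M.K q)) (C : Cap) :
    M.sol C q - M.K q (M.sol C q) = C.cv q := G_right h (C.cv q)

theorem sol_norm {q : ℂ} (hq : q ∈ M.U) : ‖M.sol C q‖ ≤ 8 * C.T / ‖(M.qc : ℂ) - q‖ := by
  have h1 := M.num_range hq (M.sol C q)
  rw [sol_eq (M.isUnit_of_U hq)] at h1
  have h2 := (norm_inner_le_norm (𝕜 := ℂ) (M.sol C q) (C.cv q)).trans
    (mul_le_mul_of_nonneg_left (C.cv_norm hq.1.le) (norm_nonneg _))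
  have h3 := M.A_nonneg (M.sol C q)
  have h4 := M.qc_ne hq
  rw [le_div_iff₀ h4]
  rcases (norm_nonneg (M.sol C q)).eq_or_lt with h5 | h5
  · rw [← h5, zero_mul]
    have := C.T_nonneg
    positivity
  · have h6 : ‖M.sol C q‖ * (‖(M.qc : ℂ) - q‖ * ‖M.sol C q‖) ≤ ‖M.sol C q‖ * (8 * C.T) := by
      nlinarith
    have := le_of_mul_le_mul_left h6 h5
    linarith

theorem sol_pt {q : ℂ} (hq : q ∈ Loc M) {Z : ℝ} (hZ0 : 0 ≤ Z)
    (hZ : √(D (gq M C q)) ≤ Z * ‖M.kap q‖) (d : ℤ) :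
    ‖M.sol C q d‖ ≤ (CU M C + Z) * ((d.natAbs : ℝ) + 1) := by
  have e : M.sol C q = vq M C q + gq M C q := by unfold gq; abel
  have e2 : M.sol C q d = vq M C q d + gq M C q d := by rw [e]; rfl
  rw [e2]
  refine (norm_add_le _ _).trans ?_
  have hC := CU_nonneg (M := M) (C := C)
  have h1 : ‖vq M C q d‖ ≤ CU M C := by
    refine (vq_bd hq d).trans (mul_le_of_le_one_right hC ?_)
    exact pow_le_one₀ (rt hq).2.1 (rt hq).2.2.le
  have h2 := gq_pt hq hZ d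
  have h3 : ‖M.kap q‖ ≤ 1 := by linarith [hq.2]
  have h4 : (0 : ℝ) ≤ (d.natAbs : ℝ) := Nat.cast_nonneg _
  have h5 : Z * ‖M.kap q‖ ≤ Z := mul_le_of_le_one_right hZ0 h3
  have h6 : ((d.natAbs : ℝ) + 1) * (Z * ‖M.kap q‖) ≤ ((d.natAbs : ℝ) + 1) * Z :=
    mul_le_mul_of_nonneg_left h5 (by positivity)
  nlinarith

theorem vq_norm' {q : ℂ} (hq : q ∈ Loc M) : ‖vq M C q‖ ≤ 3 * CU M C * (1 / √‖M.kap q‖) := by
  have h1 := vq_norm (C := C) hq
  have hC := CU_nonneg (M := M) (C := C)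
  have ht := (rt hq).1
  refine le_of_sq_le_sq ?_ (by positivity)
  rw [mul_pow, div_pow, one_pow, Real.sq_sqrt ht.le]
  refine h1.trans (le_of_eq_of_le ?_ (mul_le_mul_of_nonneg_right
    (show 8 * CU M C ^ 2 ≤ (3 * CU M C) ^ 2 by nlinarith [sq_nonneg (CU M C)]) (by positivity)))
  ring

/-- the bound near the singularity -/
theorem F'_loc (M : Mdl) (Cl Cr : Cap) : ∃ X, 0 ≤ X ∧ ∀ q ∈ Loc M,
    ‖M.F' Cl Cr q - M.mp * PP M Cl Cr * (2 * M.kap q)⁻¹‖ ≤ X * (1 / √‖M.kap q‖) := by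
  obtain ⟨Z1, hZ1, h1⟩ := gq_bd M Cl
  obtain ⟨Z2, hZ2, h2⟩ := gq_bd M Cr
  have hC1 := CU_nonneg (M := M) (C := Cl)
  have hC2 := CU_nonneg (M := M) (C := Cr)
  have hT1 := Cl.T_nonneg
  have hT2 := Cr.T_nonneg
  have hg1 := g1_nonneg
  have hg3 := g3_nonneg
  have hP := PP_nonneg (M := M) (Cl := Cl) (Cr := Cr)
  refine ⟨(CU M Cr + Z2) * Cl.T * g1 + (CU M Cl + Z1) * Cr.T * g1 +
    5 * (Z1 * (3 * CU M Cr) + (3 * CU M Cl) * Z2 + Z1 * Z2) +
    CU M Cl * CU M Cr * (g3 + 24) + 3 * (2 * CU M Cl * CU M Cr * g3 + 2 * PP M Cl Cr),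
    by positivity, fun q hq => ?_⟩
  have hq2 : ‖q‖ ≤ 2 := hq.1.1.le
  set t := ‖M.kap q‖ with ht
  have ht0 : 0 < t := (rt hq).1
  have ht1 : t ≤ 1 := by linarith [hq.2]
  set r := 1 / √t with hr
  have hr1 : 1 ≤ r := by
    rw [hr, le_div_iff₀ (Real.sqrt_pos.2 ht0), one_mul]
    exact Real.sqrt_le_one.2 ht1 |> fun h => h
  have hr0 : 0 ≤ r := by linarith
  -- the first two terms
  have b1 : ‖B (Cl.cv' q) (M.sol Cr q)‖ ≤ (CU M Cr + Z2) * Cl.T * g1 := by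
    rw [B_symm]
    exact B_bd (by norm_num) (by norm_num) (sol_pt hq hZ2 (h2 q hq).1) (Cl.cv'_bd hq2)
      (by positivity)
  have b2 : ‖B (M.sol Cl q) (Cr.cv' q)‖ ≤ (CU M Cl + Z1) * Cr.T * g1 :=
    B_bd (by norm_num) (by norm_num) (sol_pt hq hZ1 (h1 q hq).1) (Cr.cv'_bd hq2)
      (by positivity)
  -- the third term
  have hv1 := vq_norm' (C := Cl) hq
  have hv2 := vq_norm' (C := Cr) hq
  rw [← ht, ← hr] at hv1 hv2
  have hK : ∀ f g : H, ‖B f (M.K' q g)‖ ≤ 5 * (‖f‖ * ‖g‖) := by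
    intro f g
    refine (B_norm _ _).trans ?_
    have := (ContinuousLinearMap.le_opNorm (M.K' q) g).trans
      (mul_le_mul_of_nonneg_right (M.K'_norm hq2) (norm_nonneg _))
    nlinarith [mul_le_mul_of_nonneg_left this (norm_nonneg f)]
  have e1 : B (M.sol Cl q) (M.K' q (M.sol Cr q)) = B (vq M Cl q) (M.K' q (vq M Cr q)) +
      (B (gq M Cl q) (M.K' q (vq M Cr q)) + B (vq M Cl q) (M.K' q (gq M Cr q)) +
      B (gq M Cl q) (M.K' q (gq M Cr q))) := by
    have e : M.sol Cl q = vq M Cl q + gq M Cl q := by unfold gq; abel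
    have e' : M.sol Cr q = vq M Cr q + gq M Cr q := by unfold gq; abel
    rw [e, e', map_add, B_add_left, B_add_right, B_add_right]
    ring
  have b3 : ‖B (gq M Cl q) (M.K' q (vq M Cr q))‖ ≤ 5 * (Z1 * (3 * CU M Cr)) * r := by
    refine (hK _ _).trans ?_
    have := mul_le_mul (h1 q hq).2 hv2 (norm_nonneg _) hZ1
    nlinarith
  have b4 : ‖B (vq M Cl q) (M.K' q (gq M Cr q))‖ ≤ 5 * ((3 * CU M Cl) * Z2) * r := by
    refine (hK _ _).trans ?_
    have := mul_le_mul hv1 (h2 q hq).2 (norm_nonneg _) (by positivity)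
    nlinarith
  have b5 : ‖B (gq M Cl q) (M.K' q (gq M Cr q))‖ ≤ 5 * (Z1 * Z2) * r := by
    refine (hK _ _).trans ?_
    have := mul_le_mul (h1 q hq).2 (h2 q hq).2 (norm_nonneg _) hZ1
    have h3 : 0 ≤ Z1 * Z2 := by positivity
    nlinarith
  have b6 := B_vv (Cl := Cl) (Cr := Cr) hq
  have b7 := B_main (Cl := Cl) (Cr := Cr) hq
  have e2 : M.F' Cl Cr q - M.mp * PP M Cl Cr * (2 * M.kap q)⁻¹ =
      B (Cl.cv' q) (M.sol Cr q) + B (M.sol Cl q) (Cr.cv' q) +
      (B (gq M Cl q) (M.K' q (vq M Cr q)) + B (vq M Cl q) (M.K' q (gq M Cr q)) +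
      B (gq M Cl q) (M.K' q (gq M Cr q))) +
      (B (vq M Cl q) (M.K' q (vq M Cr q)) - M.mp * B (vq M Cl q) (vq M Cr q)) +
      M.mp * (B (vq M Cl q) (vq M Cr q) - PP M Cl Cr * (2 * M.kap q)⁻¹) := by
    unfold F'
    rw [e1]; ring
  rw [e2]
  have b8 : ‖(M.mp : ℂ) * (B (vq M Cl q) (vq M Cr q) - PP M Cl Cr * (2 * M.kap q)⁻¹)‖ ≤
      3 * (2 * CU M Cl * CU M Cr * g3 + 2 * PP M Cl Cr) := by
    rw [norm_mul, Complex.norm_real, Real.norm_eq_abs, abs_of_pos M.mp_pos]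
    exact mul_le_mul M.mp_le b7 (norm_nonneg _) (by norm_num)
  refine (norm_add_le _ _).trans ?_
  refine (add_le_add (norm_add_le _ _) le_rfl).trans ?_
  refine (add_le_add (add_le_add (norm_add_le _ _) le_rfl) le_rfl).trans ?_
  refine (add_le_add (add_le_add (add_le_add (norm_add_le _ _) (norm_add_le _ _)) le_rfl)
    le_rfl).trans ?_
  have n5 := norm_add_le (B (gq M Cl q) (M.K' q (vq M Cr q)))
    (B (vq M Cl q) (M.K' q (gq M Cr q)))
  have k1 : (CU M Cr + Z2) * Cl.T * g1 ≤ (CU M Cr + Z2) * Cl.T * g1 * r :=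
    le_mul_of_one_le_right (by positivity) hr1
  have k2 : (CU M Cl + Z1) * Cr.T * g1 ≤ (CU M Cl + Z1) * Cr.T * g1 * r :=
    le_mul_of_one_le_right (by positivity) hr1
  have k3 : CU M Cl * CU M Cr * (g3 + 24) ≤ CU M Cl * CU M Cr * (g3 + 24) * r :=
    le_mul_of_one_le_right (by positivity) hr1
  have k4 : 3 * (2 * CU M Cl * CU M Cr * g3 + 2 * PP M Cl Cr) ≤
      3 * (2 * CU M Cl * CU M Cr * g3 + 2 * PP M Cl Cr) * r :=
    le_mul_of_one_le_right (by positivity) hr1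
  linarith

/-- the constant of the singular part -/
def C1 (M : Mdl) (Cl Cr : Cap) : ℝ := M.mp * PP M Cl Cr / (2 * (√M.gam * M.qc))

/-- the square root -/
def sr (M : Mdl) (q : ℂ) : ℂ := (1 - (q / M.qc) ^ 2) ^ (2 : ℂ)⁻¹

theorem kap_eq (q : ℂ) : M.kap q = ((√M.gam * M.qc : ℝ) : ℂ) * sr M q := rfl

theorem C1_nonneg : 0 ≤ C1 M Cl Cr := by
  unfold C1
  have := M.mp_pos
  have := PP_nonneg (M := M) (Cl := Cl) (Cr := Cr)
  have := M.qc_pos
  positivity

/-- the regular part -/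
def hh (M : Mdl) (Cl Cr : Cap) (q : ℂ) : ℂ :=
  M.F' Cl Cr q - C1 M Cl Cr * (q / M.qc) * (sr M q)⁻¹

theorem main_eq {q : ℂ} (hq : q ∈ M.U) : (M.mp : ℂ) * PP M Cl Cr * (2 * M.kap q)⁻¹ =
    C1 M Cl Cr * (sr M q)⁻¹ := by
  have h1 : sr M q ≠ 0 := by
    intro h
    have h2 := kap_pos hq
    rw [kap_eq, h, mul_zero, norm_zero] at h2
    exact lt_irrefl _ h2
  have h2 : (M.qc : ℂ) ≠ 0 := by exact_mod_cast M.qc_pos.ne'
  have h3 : ((√M.gam : ℝ) : ℂ) ≠ 0 := by exact_mod_cast (Real.sqrt_pos.2 M.gam_pos).ne'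
  rw [kap_eq]
  unfold C1
  push_cast
  field_simp

theorem hh_bd (M : Mdl) (Cl Cr : Cap) : ∃ X, 0 ≤ X ∧ ∀ q ∈ M.U,
    ‖hh M Cl Cr q‖ ≤ X * (1 / √√‖q - M.qc‖) := by
  obtain ⟨X, hX0, hX⟩ := F'_loc M Cl Cr
  have hg := M.gam_pos
  have hT1 := Cl.T_nonneg
  have hT2 := Cr.T_nonneg
  have hP := PP_nonneg (M := M) (Cl := Cl) (Cr := Cr)
  have hC1 := C1_nonneg (M := M) (Cl := Cl) (Cr := Cr)
  set δ := (1 / 100) ^ 2 / (3 * M.gam) with hδ
  have hδ0 : 0 < δ := by positivity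
  set Y := Cl.T * (8 * Cr.T / δ) + (8 * Cl.T / δ) * Cr.T + 5 * ((8 * Cl.T / δ) * (8 * Cr.T / δ)) +
    3 * PP M Cl Cr * 50 with hY
  have hY0 : 0 ≤ Y := by positivity
  refine ⟨X + 2 * Y + 4 * (C1 M Cl Cr * √M.gam), by positivity, fun q hq => ?_⟩
  have hq2 : ‖q‖ ≤ 2 := hq.1.le
  have hne := M.qc_ne hq
  set z := ‖q - M.qc‖ with hz
  have hzc : ‖(M.qc : ℂ) - q‖ = z := norm_sub_rev _ _
  rw [hzc] at hne
  set t := ‖M.kap q‖ with ht
  have ht0 : 0 < t := kap_pos hq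
  have h1 : z ≤ t ^ 2 := sub_le_kap hq
  have h2 : t ^ 2 ≤ 3 * M.gam * z := kap_le_sub hq
  have hz3 : z ≤ 3 := by
    refine (norm_sub_le _ _).trans ?_
    linarith [qc_norm1 (M := M)]
  have hsz : √z ≤ t := Real.sqrt_le_left ht0.le |>.2 h1 |> fun h => h
  have hsz0 : 0 < √z := Real.sqrt_pos.2 hne
  have hssz0 : 0 < √√z := Real.sqrt_pos.2 hsz0
  have hsst : √√z ≤ √t := Real.sqrt_le_sqrt hsz
  have hsz2 : √z ≤ 2 := by
    rw [Real.sqrt_le_left (by norm_num)]; linarith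
  have hssz2 : √√z ≤ 2 := by
    rw [Real.sqrt_le_left (by norm_num)]; linarith
  set r := 1 / √√z with hr
  have hr0 : 0 < r := by positivity
  have hr2 : 1 ≤ 2 * r := by
    rw [hr, ← mul_div_assoc, mul_one, le_div_iff₀ hssz0]; linarith
  -- the main difference
  have key : ‖M.F' Cl Cr q - M.mp * PP M Cl Cr * (2 * M.kap q)⁻¹‖ ≤ X * r + 2 * Y * r := by
    by_cases hL : t ≤ 1 / 100
    · have h3 := hX q ⟨hq, hL⟩
      refine h3.trans ?_
      have h4 : 1 / √t ≤ r := one_div_le_one_div_of_le hssz0 hsst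
      have := mul_le_mul_of_nonneg_left h4 hX0
      have h5 : 0 ≤ 2 * Y * r := by positivity
      rw [← ht]
      linarith
    · push Not at hL
      have hzδ : δ ≤ z := by
        rw [hδ, div_le_iff₀ (by positivity)]
        nlinarith
      have s1 : ‖M.sol Cl q‖ ≤ 8 * Cl.T / δ := by
        refine (sol_norm hq).trans ?_
        rw [hzc]
        exact div_le_div_of_nonneg_left (by positivity) hδ0 hzδ
      have s2 : ‖M.sol Cr q‖ ≤ 8 * Cr.T / δ := by
        refine (sol_norm hq).trans ?_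
        rw [hzc]
        exact div_le_div_of_nonneg_left (by positivity) hδ0 hzδ
      have c1 : ‖B (Cl.cv' q) (M.sol Cr q)‖ ≤ Cl.T * (8 * Cr.T / δ) :=
        (B_norm _ _).trans (mul_le_mul (Cl.cv'_norm hq2) s2 (norm_nonneg _) hT1)
      have c2 : ‖B (M.sol Cl q) (Cr.cv' q)‖ ≤ (8 * Cl.T / δ) * Cr.T :=
        (B_norm _ _).trans (mul_le_mul s1 (Cr.cv'_norm hq2) (norm_nonneg _) (by positivity))
      have c3 : ‖B (M.sol Cl q) (M.K' q (M.sol Cr q))‖ ≤
          5 * ((8 * Cl.T / δ) * (8 * Cr.T / δ)) := by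
        refine (B_norm _ _).trans ?_
        have h5 := (ContinuousLinearMap.le_opNorm (M.K' q) (M.sol Cr q)).trans
          (mul_le_mul (M.K'_norm hq2) s2 (norm_nonneg _) (by norm_num))
        have h6 := mul_le_mul s1 h5 (norm_nonneg _) (by positivity)
        linarith
      have c4 : ‖(M.mp : ℂ) * PP M Cl Cr * (2 * M.kap q)⁻¹‖ ≤ 3 * PP M Cl Cr * 50 := by
        rw [norm_mul, norm_mul, Complex.norm_real, Complex.norm_real, Real.norm_eq_abs,
          Real.norm_eq_abs, abs_of_pos M.mp_pos, abs_of_nonneg hP, norm_inv, norm_mul]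
        have h2n : ‖(2 : ℂ)‖ = 2 := by simp
        rw [h2n, ← ht]
        refine mul_le_mul (mul_le_mul_of_nonneg_right M.mp_le hP) ?_ (by positivity) (by positivity)
        rw [inv_le_comm₀ (by positivity) (by norm_num)]
        linarith
      have c5 : ‖M.F' Cl Cr q - M.mp * PP M Cl Cr * (2 * M.kap q)⁻¹‖ ≤ Y := by
        refine (norm_sub_le _ _).trans ?_
        unfold F'
        have n1 := norm_add_le (B (Cl.cv' q) (M.sol Cr q) + B (M.sol Cl q) (Cr.cv' q))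
          (B (M.sol Cl q) (M.K' q (M.sol Cr q)))
        have n2 := norm_add_le (B (Cl.cv' q) (M.sol Cr q)) (B (M.sol Cl q) (Cr.cv' q))
        linarith
      have h5 : Y ≤ 2 * Y * r := by nlinarith
      have h6 : 0 ≤ X * r := by positivity
      linarith
  -- the shift of the singular part
  have hsr : ‖sr M q‖ = t / (√M.gam * M.qc) := by
    rw [ht, kap_eq, norm_mul, Complex.norm_real, Real.norm_eq_abs, abs_of_pos (by
      have := M.qc_pos
      have := Real.sqrt_pos.2 hg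
      positivity)]
    have := M.qc_pos.ne'
    have := (Real.sqrt_pos.2 hg).ne'
    field_simp
  have e1 : hh M Cl Cr q = (M.F' Cl Cr q - M.mp * PP M Cl Cr * (2 * M.kap q)⁻¹) +
      C1 M Cl Cr * ((M.qc - q) / M.qc) * (sr M q)⁻¹ := by
    rw [main_eq hq]
    unfold hh
    have h2 : (M.qc : ℂ) ≠ 0 := by exact_mod_cast M.qc_pos.ne'
    field_simp
    ring
  have c6 : ‖(C1 M Cl Cr : ℂ) * ((M.qc - q) / M.qc) * (sr M q)⁻¹‖ ≤
      4 * (C1 M Cl Cr * √M.gam) * r := by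
    rw [norm_mul, norm_mul, norm_div, norm_inv, hsr, hzc, Complex.norm_real, Complex.norm_real,
      Real.norm_eq_abs, Real.norm_eq_abs, abs_of_nonneg hC1, abs_of_pos M.qc_pos]
    have h7 : z / t ≤ 2 := by
      rw [div_le_iff₀ ht0]
      have h8 : z = √z * √z := (Real.mul_self_sqrt hne.le).symm
      nlinarith
    have e2 : C1 M Cl Cr * (z / M.qc) * (t / (√M.gam * M.qc))⁻¹ =
        (C1 M Cl Cr * √M.gam) * (z / t) := by
      have := M.qc_pos.ne'
      have := (Real.sqrt_pos.2 hg).ne'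
      field_simp
    rw [e2]
    have h9 : 0 ≤ C1 M Cl Cr * √M.gam := by positivity
    calc _ ≤ (C1 M Cl Cr * √M.gam) * 2 := mul_le_mul_of_nonneg_left h7 h9
      _ ≤ _ := by nlinarith
  rw [e1]
  refine (norm_add_le _ _).trans ?_
  linarith

theorem slit {q : ℂ} (hq : q ∈ M.U) : (1 - (q / M.qc) ^ 2) ∈ Complex.slitPlane := by
  have h1 := hq.2.2
  have hne := M.qc_ne hq
  have h2 : (M.qc : ℂ) ≠ 0 := by exact_mod_cast M.qc_pos.ne'
  have hz : (M.qc : ℂ) ^ 2 - q ^ 2 ≠ 0 := by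
    rw [sq_sub_sq]
    refine mul_ne_zero ?_ (norm_pos_iff.1 hne)
    intro h
    have := hq.2.1
    rw [h, norm_zero] at this
    linarith
  have h3 : (M.qc : ℂ) ^ 2 - q ^ 2 ∈ Complex.slitPlane := by
    rw [Complex.mem_slitPlane_iff]
    by_cases him : ((M.qc : ℂ) ^ 2 - q ^ 2).im = 0
    · left
      have h4 : ‖(M.qc : ℂ) ^ 2 - q ^ 2‖ = |((M.qc : ℂ) ^ 2 - q ^ 2).re| := by
        have : ((M.qc : ℂ) ^ 2 - q ^ 2) = ((((M.qc : ℂ) ^ 2 - q ^ 2).re : ℝ) : ℂ) := by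
          apply Complex.ext
          · simp
          · rw [him]; simp
        conv_lhs => rw [this]
        rw [Complex.norm_real, Real.norm_eq_abs]
      rw [h4] at h1
      rcases lt_trichotomy ((M.qc : ℂ) ^ 2 - q ^ 2).re 0 with h5 | h5 | h5
      · rw [abs_of_neg h5] at h1; linarith
      · exact absurd (Complex.ext (by simpa using h5) (by simpa using him)) hz
      · exact h5
    · right; exact him
  have e1 : (1 - (q / M.qc) ^ 2) = (((M.qc ^ 2)⁻¹ : ℝ) : ℂ) * ((M.qc : ℂ) ^ 2 - q ^ 2) := by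
    push_cast
    field_simp
  rw [e1]
  have hp : 0 < (M.qc ^ 2)⁻¹ := by
    have := M.qc_pos
    positivity
  rw [Complex.mem_slitPlane_iff] at h3 ⊢
  rw [Complex.re_ofReal_mul, Complex.im_ofReal_mul]
  rcases h3 with h3 | h3
  · left; exact mul_pos hp h3
  · right; exact mul_ne_zero hp.ne' h3

theorem hh_diff : DifferentiableOn ℂ (hh M Cl Cr) M.U := by
  have h1 : DifferentiableOn ℂ (M.F Cl Cr) M.U := fun q hq =>
    (F_deriv hq.1 (M.isUnit_of_U hq)).differentiableAt.differentiableWithinAt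
  have h2 : DifferentiableOn ℂ (deriv (M.F Cl Cr)) M.U := h1.deriv M.U_open
  have h3 : DifferentiableOn ℂ (M.F' Cl Cr) M.U := by
    refine h2.congr fun q hq => ?_
    exact (F_deriv hq.1 (M.isUnit_of_U hq)).deriv.symm
  unfold hh
  refine h3.sub ?_
  have h4 : (M.qc : ℂ) ≠ 0 := by exact_mod_cast M.qc_pos.ne'
  refine DifferentiableOn.mul ?_ ?_
  · fun_prop
  · refine DifferentiableOn.inv ?_ ?_
    · unfold sr
      intro q hq
      refine DifferentiableAt.differentiableWithinAt ?_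
      refine DifferentiableAt.cpow_const ?_ (slit hq)
      fun_prop
    · intro q hq h
      have h2 := kap_pos hq
      rw [kap_eq, h, mul_zero, norm_zero] at h2
      exact lt_irrefl _ h2

end Mdl

end

end KN.SQ
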