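import Pool.Agent.H132.SQ.Fin

/-!
# The area of a polygon: crossings above a height
-/

set_option autoImplicit false

namespace KN.SQ

open KN KN.ST Finset Filter Topology
open scoped Classical ENNReal

noncomputable section

/-- the number of crossings of the gap between `c` and `c + 1` above the height `j` -/
def nv : List Dir → ℤ → ℤ → ℕ
  | [], _, _ => 0
  | a :: w, c, j => nv w c j + if j < (pos w).2.1 then cx a (pos w).1 c else 0

theorem cx_shift (a : Dir) (x y c : ℤ) : cx a (x + y) c = cx a x (c - y) := by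
  unfold cx
  congr 1
  apply propext
  constructor
  · rintro (⟨h1, h2⟩ | ⟨h1, h2⟩)
    · left; exact ⟨h1, by omega⟩
    · right; exact ⟨h1, by omega⟩
  · rintro (⟨h1, h2⟩ | ⟨h1, h2⟩)
    · left; exact ⟨h1, by omega⟩
    · right; exact ⟨h1, by omega⟩

theorem nv_append (u w : List Dir) (c j : ℤ) :
    nv (u ++ w) c j = nv u (c - (pos w).1) (j - (pos w).2.1) + nv w c j := by
  induction u with
  | nil => simp [nv]
  | cons a u ih =>
    simp only [List.cons_append, nv, ih, pos_append, Prod.fst_add, Prod.snd_add, cx_shift]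
    have e : (j < (pos u).2.1 + (pos w).2.1) ↔ (j - (pos w).2.1 < (pos u).2.1) := by omega
    simp only [e]
    ring

theorem nv_le (w : List Dir) (c j : ℤ) : nv w c j ≤ X w c := by
  induction w with
  | nil => simp [nv]
  | cons a w ih =>
    simp only [nv, X]
    split_ifs <;> omega

theorem nv_zero {w : List Dir} {c : ℤ} (h : X w c = 0) (j : ℤ) : nv w c j = 0 := by
  have := nv_le w c j
  omega

theorem pos_y_le (w : List Dir) : |(pos w).2.1| ≤ (w.length : ℤ) := by
  have h := nl_xc w
  unfold nl at h
  rw [Int.abs_eq_natAbs]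
  exact_mod_cast (by omega : (pos w).2.1.natAbs ≤ w.length)

theorem nv_high {w : List Dir} {c j : ℤ} (h : (w.length : ℤ) ≤ j) : nv w c j = 0 := by
  induction w with
  | nil => rfl
  | cons a w ih =>
    simp only [List.length_cons, Nat.cast_add, Nat.cast_one] at h
    have h1 := (abs_le.1 (pos_y_le w)).2
    simp only [nv]
    rw [ih (by omega), if_neg (by omega)]

theorem nv_low {w : List Dir} {c j : ℤ} (h : j < -(w.length : ℤ)) : nv w c j = X w c := by
  induction w with
  | nil => rfl
  | cons a w ih =>
    simp only [List.length_cons, Nat.cast_add, Nat.cast_one] at h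
    have h1 := (abs_le.1 (pos_y_le w)).1
    simp only [nv, X]
    rw [ih (by omega), if_pos (by omega)]

/-- the indicator of the odd numbers -/
def od (n : ℕ) : ℝ≥0∞ := if Odd n then 1 else 0

theorem od_zero : od 0 = 0 := by unfold od; simp

theorem od_le (n : ℕ) : od n ≤ 1 := by unfold od; split_ifs <;> simp

/-- the area enclosed by a word: the number of the cells with an odd number of crossings above -/
def AE (w : List Dir) : ℝ≥0∞ := ∑' p : ℤ × ℤ, od (nv w p.1 p.2)

theorem tsum_trans (f : ℤ × ℤ → ℝ≥0∞) (a b : ℤ) :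
    ∑' p : ℤ × ℤ, f (p.1 - a, p.2 - b) = ∑' p, f p := by
  have := (Equiv.prodCongr (Equiv.subRight a) (Equiv.subRight b)).tsum_eq f
  exact this

/-- the area between two heights -/
theorem tsum_two (x y : ℤ) :
    ∑' j : ℤ, od ((if j < x then 1 else 0) + if j < y then 1 else 0) = ((x - y).natAbs : ℝ≥0∞) := by
  wlog h : x ≤ y generalizing x y
  · have h1 := this y x (by omega)
    have e : (x - y).natAbs = (y - x).natAbs := by omega
    rw [e, ← h1]
    refine tsum_congr fun j => ?_
    rw [add_comm]
  have e : ∀ j : ℤ, od ((if j < x then 1 else 0) + if j < y then 1 else 0) =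
      if j ∈ Finset.Ico x y then 1 else 0 := by
    intro j
    unfold od
    by_cases h1 : j < x
    · rw [if_pos h1, if_pos (by omega : j < y), if_neg (by decide),
        if_neg (fun h2 => by have := Finset.mem_Ico.1 h2; omega)]
    · by_cases h2 : j < y
      · rw [if_neg h1, if_pos h2, if_pos (by decide),
          if_pos (Finset.mem_Ico.2 ⟨by omega, h2⟩)]
      · rw [if_neg h1, if_neg h2, if_neg (by decide),
          if_neg (fun h3 => by have := Finset.mem_Ico.1 h3; omega)]
  rw [tsum_congr e, tsum_eq_sum (s := Finset.Ico x y) (fun j hj => if_neg hj),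
    Finset.sum_congr rfl (fun j hj => if_pos hj), sum_const, Int.card_Ico, nsmul_eq_mul, mul_one]
  congr 1
  omega

theorem tsum_cut1 (x y c0 : ℤ) :
    ∑' p : ℤ × ℤ, (if p.1 = c0 then od ((if p.2 < x then 1 else 0) +
      if p.2 < y then 1 else 0) else 0) = ((x - y).natAbs : ℝ≥0∞) := by
  rw [ENNReal.tsum_prod', tsum_eq_single c0]
  · simp only [if_true]
    exact tsum_two x y
  · intro c hc
    simp only [if_neg hc]
    exact tsum_zero

/-- the area of a polygon decomposed at a gap -/
theorem AE_poly {D : Z3} {l r : List Dir} (hl : LA D l) (hr : RA D r) :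
    AE (ST.Poly l r) = AE l + (D.2.1.natAbs : ℝ≥0∞) + AE r := by
  have hD := hl.h0
  have e1 : pos (l ++ .xm :: r) = (-1, 0, 0) := by
    rw [pos_append]
    simp only [pos, hr.en, hl.en]
    ext <;> simp [vec]
  have hval : ∀ c j : ℤ, nv (ST.Poly l r) c j = nv l (c + 1) (j - D.2.1) + nv r c j +
      (if c = -1 then (if j < D.2.1 then 1 else 0) + (if j < 0 then 1 else 0) else 0) := by
    intro c j
    unfold ST.Poly
    simp only [nv, e1]
    rw [nv_append]
    simp only [nv, pos, hr.en, Prod.fst_add, Prod.snd_add, hD, vec]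
    have e2 : c - (0 + -1) = c + 1 := by ring
    rw [e2]
    have e3 : cx .xm 0 c = if c = -1 then 1 else 0 := by
      unfold cx
      congr 1
      apply propext
      constructor
      · rintro (⟨h, -⟩ | ⟨-, h⟩)
        · simp at h
        · omega
      · intro h
        exact Or.inr ⟨rfl, by omega⟩
    have e4 : cx .xp (-1) c = if c = -1 then 1 else 0 := by
      unfold cx
      congr 1
      apply propext
      constructor
      · rintro (⟨-, h⟩ | ⟨h, -⟩)
        · omega
        · simp at h
      · intro h
        exact Or.inl ⟨rfl, by omega⟩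
    rw [e3, e4]
    have e5 : j - (D.2.1 + 0) = j - D.2.1 := by ring
    rw [e5]
    split_ifs <;> ring
  have hod : ∀ p : ℤ × ℤ, od (nv (ST.Poly l r) p.1 p.2) =
      od (nv l (p.1 - (-1)) (p.2 - D.2.1)) +
      (if p.1 = -1 then od ((if p.2 < D.2.1 then 1 else 0) + if p.2 < 0 then 1 else 0) else 0) +
      od (nv r p.1 p.2) := by
    rintro ⟨c, j⟩
    simp only [hval, sub_neg_eq_add]
    rcases lt_trichotomy c (-1) with h | h | h
    · have h1 : nv r c j = 0 := nv_zero (hr.X0 (by omega)) j
      rw [if_neg (by omega), if_neg (by omega), h1, od_zero]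
      simp
    · have h1 : nv r c j = 0 := nv_zero (hr.X0 (by omega)) j
      have h2 : nv l (c + 1) (j - D.2.1) = 0 := nv_zero (hl.X0 (by omega)) _
      rw [if_pos h, if_pos h, h1, h2, od_zero]
      simp
    · have h2 : nv l (c + 1) (j - D.2.1) = 0 := nv_zero (hl.X0 (by omega)) _
      rw [if_neg (by omega), if_neg (by omega), h2, od_zero]
      simp
  unfold AE
  rw [tsum_congr hod, ENNReal.tsum_add, ENNReal.tsum_add,
    tsum_trans (fun p => od (nv l p.1 p.2)) (-1) D.2.1, tsum_cut1, sub_zero]

/-- the area of the inner columns of a block, the difference of the heights at the right end is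
`d` -/
def AB (b : Blk) (d : ℤ) : ℝ≥0∞ :=
  ∑' p : ℤ × ℤ, od (nv b.1 p.1 p.2 + nv b.2 (p.1 - (pos b.1).1) (p.2 - ((pos b.1).2.1 + d)))

/-- the area of an arc that starts with a block -/
theorem AE_Rw1 {D D' : Z3} {b : Blk} {r : List Dir} (h : Pc D D' b) (hr : RA D' r) :
    AE (Rw1 b r) = AB b D'.2.1 + (D'.2.1.natAbs : ℝ≥0∞) + AE r := by
  have hD := h.h0
  set W := (pos b.1).1 with hW
  set y0 := (pos b.1).2.1 with hy0
  have hb1 : ∀ p ∈ path b.1, 0 ≤ p.1 ∧ p.1 ≤ W := fun p hp =>
    h.rg p (List.mem_append_right _ hp)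
  have hb2 : ∀ p ∈ path b.2, -W ≤ p.1 ∧ p.1 ≤ 0 := by
    intro p hp
    have := h.rg (p + (pos b.1 + D')) (List.mem_append_left _ (mem_sh.2 (by simpa using hp)))
    simp only [Prod.fst_add] at this
    omega
  have hval : ∀ c j : ℤ, nv (Rw1 b r) c j = (nv b.1 c j + nv b.2 (c - W) (j - (y0 + D'.2.1))) +
      nv r (c - (W + 1)) (j - y0) +
      (if c = W then (if j < y0 then 1 else 0) + (if j < y0 + D'.2.1 then 1 else 0) else 0) := by
    intro c j
    unfold Rw1
    rw [nv_append]
    have e1 : pos (.xm :: (r ++ .xp :: b.1)) = (W, y0 + D'.2.1, (pos b.1).2.2 + D'.2.2) := by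
      simp only [pos, pos_append, hr.en]
      ext <;> simp [vec, hD, hW, hy0, add_comm]
    have e2 : pos (r ++ .xp :: b.1) = (W + 1, y0 + D'.2.1, (pos b.1).2.2 + D'.2.2) := by
      simp only [pos, pos_append, hr.en]
      ext <;> simp [vec, hD, hW, hy0, add_comm]
    rw [e1]
    simp only [nv, e2]
    rw [nv_append]
    simp only [nv, pos, Prod.fst_add, Prod.snd_add, vec, ← hW, ← hy0, add_zero]
    have e3 : cx .xm (W + 1) c = if c = W then 1 else 0 := by
      unfold cx
      congr 1
      apply propext
      constructor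
      · rintro (⟨h, -⟩ | ⟨-, h⟩)
        · simp at h
        · omega
      · intro h
        exact Or.inr ⟨rfl, by omega⟩
    have e4 : cx .xp W c = if c = W then 1 else 0 := by
      unfold cx
      congr 1
      apply propext
      constructor
      · rintro (⟨-, h⟩ | ⟨h, -⟩)
        · omega
        · simp at h
      · intro h
        exact Or.inl ⟨rfl, by omega⟩
    rw [e3, e4]
    split_ifs <;> ring
  have hod : ∀ p : ℤ × ℤ, od (nv (Rw1 b r) p.1 p.2) =
      od (nv b.1 p.1 p.2 + nv b.2 (p.1 - W) (p.2 - (y0 + D'.2.1))) +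
      (if p.1 = W then od ((if p.2 < y0 then 1 else 0) + if p.2 < y0 + D'.2.1 then 1 else 0)
        else 0) + od (nv r (p.1 - (W + 1)) (p.2 - y0)) := by
    rintro ⟨c, j⟩
    simp only [hval]
    rcases lt_trichotomy c W with h1 | h1 | h1
    · have h2 : nv r (c - (W + 1)) (j - y0) = 0 := nv_zero (hr.X0 (by omega)) _
      rw [if_neg (by omega), if_neg (by omega), h2, od_zero]
      simp
    · have h2 : nv r (c - (W + 1)) (j - y0) = 0 := nv_zero (hr.X0 (by omega)) _
      have h3 : nv b.1 c j = 0 := nv_zero (X_low fun p hp => by have := (hb1 p hp).2; omega) _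
      have h4 : nv b.2 (c - W) (j - (y0 + D'.2.1)) = 0 :=
        nv_zero (X_low fun p hp => by have := (hb2 p hp).2; omega) _
      rw [if_pos h1, if_pos h1, h2, h3, h4, od_zero]
      simp
    · have h3 : nv b.1 c j = 0 := nv_zero (X_low fun p hp => by have := (hb1 p hp).2; omega) _
      have h4 : nv b.2 (c - W) (j - (y0 + D'.2.1)) = 0 :=
        nv_zero (X_low fun p hp => by have := (hb2 p hp).2; omega) _
      rw [if_neg (by omega), if_neg (by omega), h3, h4, od_zero]
      simp
  unfold AE AB
  rw [tsum_congr hod, ENNReal.tsum_add, ENNReal.tsum_add,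
    tsum_trans (fun p => od (nv r p.1 p.2)) (W + 1) y0, tsum_cut1]
  have e : (y0 - (y0 + D'.2.1)).natAbs = D'.2.1.natAbs := by omega
  rw [e]

/-- the area does not change under a rotation of a closed word -/
theorem AE_rotate {w : List Dir} (h0 : pos w = 0) {k : ℕ} (hk : k ≤ w.length) :
    AE (w.rotate k) = AE w := by
  rw [List.rotate_eq_drop_append_take hk]
  have e := List.take_append_drop k w
  set u := w.take k with hu
  set v := w.drop k with hv
  have hw : w = u ++ v := e.symm
  have hp : pos u + pos v = 0 := by rw [← pos_append, e, h0]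
  have h1 : (pos u).1 = -(pos v).1 := by
    have := congrArg Prod.fst hp
    simp only [Prod.fst_add, Prod.fst_zero] at this
    omega
  have h2 : (pos u).2.1 = -(pos v).2.1 := by
    have := congrArg (fun p : Z3 => p.2.1) hp
    simp only [Prod.snd_add, Prod.fst_add, Prod.snd_zero, Prod.fst_zero] at this
    omega
  rw [hw]
  unfold AE
  rw [← tsum_trans (fun p => od (nv (u ++ v) p.1 p.2)) (pos u).1 (pos u).2.1]
  refine tsum_congr fun p => ?_
  simp only [nv_append]
  congr 1
  rw [add_comm]
  congr 2
  · rw [h1]; ring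
  · rw [h2]; ring

/-- the area is finite and quadratic for words with even crossings -/
theorem AE_le {w : List Dir} (h0 : (pos w).1 = 0) :
    AE w ≤ ((2 * w.length + 1) * (2 * w.length) : ℕ) := by
  have hx : ∀ c : ℤ, (w.length : ℤ) < |c| → X w c = 0 := by
    intro c hc
    have h1 : ∀ (w : List Dir), ∀ p ∈ path w, |p.1| ≤ (w.length : ℤ) := by
      intro w
      induction w with
      | nil => intro p hp; simp [path] at hp; subst hp; simp
      | cons a w ih =>
        intro p hp
        simp only [List.length_cons, Nat.cast_add, Nat.cast_one]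
        rcases List.mem_cons.1 hp with rfl | hp
        · have h2 := ih _ (pos_mem_path w)
          have h3 : |(vec a).1| ≤ 1 := by cases a <;> simp [vec]
          simp only [Prod.fst_add]
          exact (abs_add_le _ _).trans (by omega)
        · have := ih p hp; omega
    rcases le_total 0 c with h2 | h2
    · rw [abs_of_nonneg h2] at hc
      exact X_low fun p hp => by have := (abs_le.1 (h1 w p hp)).2; omega
    · rw [abs_of_nonpos h2] at hc
      exact X_high fun p hp => by have := (abs_le.1 (h1 w p hp)).1; omega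
  have hz : ∀ p : ℤ × ℤ, p ∉ (Finset.Icc (-(w.length : ℤ)) w.length ×ˢ
      Finset.Ico (-(w.length : ℤ)) w.length) → od (nv w p.1 p.2) = 0 := by
    rintro ⟨c, j⟩ hp
    rw [Finset.mem_product, Finset.mem_Icc, Finset.mem_Ico] at hp
    simp only at hp
    by_cases hc : (w.length : ℤ) < |c|
    · rw [nv_zero (hx c hc), od_zero]
    · have hc' := abs_le.1 (not_lt.1 hc)
      rcases lt_or_ge j (-(w.length : ℤ)) with h1 | h1
      · rw [nv_low h1]
        have h2 : X w c % 2 = 0 := by
          have h3 := X_par w c
          rw [h0] at h3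
          rw [h3, if_neg]
          rintro (⟨h4, h5⟩ | ⟨h4, h5⟩)
          · exact absurd h5 (not_lt.2 h4)
          · exact absurd h5 (not_lt.2 h4)
        unfold od
        rw [if_neg]
        rintro ⟨k, hk⟩
        have hk' : X w c = 2 * k + 1 := hk
        rw [hk'] at h2
        omega
      · have h3 : (w.length : ℤ) ≤ j := by
          by_contra h4
          exact hp ⟨hc', h1, by omega⟩
        rw [nv_high h3, od_zero]
  unfold AE
  rw [tsum_eq_sum (s := Finset.Icc (-(w.length : ℤ)) w.length ×ˢ
      Finset.Ico (-(w.length : ℤ)) w.length) hz]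
  refine (Finset.sum_le_sum fun p _ => od_le _).trans ?_
  rw [sum_const, card_product, Int.card_Icc, Int.card_Ico, nsmul_eq_mul, mul_one]
  have e1 : ((w.length : ℤ) + 1 - -(w.length : ℤ)).toNat = 2 * w.length + 1 := by omega
  have e2 : ((w.length : ℤ) - -(w.length : ℤ)).toNat = 2 * w.length := by omega
  rw [e1, e2]

end

end KN.SQ
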