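import Pool.Agent.H132.SQ.W6

/-!
# The coefficients of the area generating function
-/

set_option autoImplicit false

namespace KN.SQ

open Finset Filter Topology Metric Complex
open scoped Classical ENNReal Real

noncomputable section

namespace Mdl

variable {M : Mdl}

theorem F_bd (M : Mdl) (Cl Cr : Cap) : ∃ X, 0 ≤ X ∧ ∀ q ∈ M.U, ‖M.F Cl Cr q‖ ≤ X := by
  obtain ⟨Z, hZ0, hZ⟩ := gq_bd M Cr
  have hCU := CU_nonneg (M := M) (C := Cr)
  have hT1 := Cl.T_nonneg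
  have hT2 := Cr.T_nonneg
  have hg := M.gam_pos
  have hg1 := g1_nonneg
  set ρ : ℝ := (1 / 100) ^ 2 / (3 * M.gam) with hρ
  have hρ0 : 0 < ρ := by positivity
  refine ⟨(CU M Cr + Z) * Cl.T * g1 + Cl.T * (8 * Cr.T / ρ), by positivity, fun q hq => ?_⟩
  have hq2 : ‖q‖ ≤ 2 := hq.1.le
  by_cases hc : ‖M.kap q‖ ≤ 1 / 100
  · have hL : q ∈ Loc M := ⟨hq, hc⟩
    have h1 := B_bd (f := M.sol Cr q) (h := Cl.cv q) (X := CU M Cr + Z) (Y := Cl.T) (r := 1 / 4)
      (by norm_num) (by norm_num) (fun d => sol_pt hL hZ0 (hZ q hL).1 d) (fun d => Cl.cv_bd hq2 d)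
      (by positivity)
    have e : M.F Cl Cr q = B (M.sol Cr q) (Cl.cv q) := by
      unfold F sol; exact B_symm _ _
    rw [e]
    have h2 : 0 ≤ Cl.T * (8 * Cr.T / ρ) := by positivity
    unfold g1
    linarith
  · push Not at hc
    have h2 : ρ ≤ ‖(M.qc : ℂ) - q‖ := by
      have h3 := kap_le_sub hq
      rw [norm_sub_rev] at h3
      rw [hρ, div_le_iff₀ (by positivity)]
      have h4 : (1 / 100 : ℝ) ^ 2 ≤ ‖M.kap q‖ ^ 2 := pow_le_pow_left₀ (by norm_num) hc.le 2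
      linarith
    have h3 : ‖M.F Cl Cr q‖ ≤ Cl.T * (8 * Cr.T / ρ) := by
      unfold F
      refine (B_norm _ _).trans (mul_le_mul (Cl.cv_norm hq2) ?_ (norm_nonneg _) hT1)
      exact (sol_norm hq).trans (div_le_div_of_nonneg_left (by positivity) hρ0 h2)
    have h4 : 0 ≤ (CU M Cr + Z) * Cl.T * g1 := by positivity
    linarith

theorem F_diffOn (M : Mdl) (Cl Cr : Cap) : DifferentiableOn ℂ (M.F Cl Cr) M.U := fun q hq =>
  (F_deriv hq.1 (M.isUnit_of_U hq)).differentiableAt.differentiableWithinAt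

end Mdl

namespace Ker

variable {M : Mdl} (A : Ker M) {Cl Cr Cl' Cr' : Cap} {a : ℕ → ℝ}

/-- the full area generating function -/
def TF (Cl Cr Cl' Cr' : Cap) (q : ℂ) : ℂ := A.AF Cl Cr q + M.F Cl' Cr q + M.F Cl Cr' q

/-- the remainder -/
def rm' (Cl Cr Cl' Cr' : Cap) (q : ℂ) : ℂ :=
  A.TF Cl Cr Cl' Cr' q - A.C2 Cl Cr * (1 - (q / M.qc) ^ 2)⁻¹

theorem rm_bd {ε : ℝ} (hε : 0 < ε) : ∃ X : ℝ, 0 ≤ X ∧ ∀ q ∈ M.U,
    ‖A.rm' Cl Cr Cl' Cr' q‖ ≤ ε / ‖q - M.qc‖ + X := by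
  obtain ⟨X0, h0, h1⟩ := A.AF_rem Cl Cr hε
  obtain ⟨X1, h2, h3⟩ := Mdl.F_bd M Cl' Cr
  obtain ⟨X2, h4, h5⟩ := Mdl.F_bd M Cl Cr'
  refine ⟨X0 + X1 + X2, by positivity, fun q hq => ?_⟩
  have e : A.rm' Cl Cr Cl' Cr' q = (A.AF Cl Cr q - A.C2 Cl Cr * (1 - (q / M.qc) ^ 2)⁻¹) +
      M.F Cl' Cr q + M.F Cl Cr' q := by
    unfold rm' TF; ring
  rw [e]
  have n1 := norm_add_le ((A.AF Cl Cr q - A.C2 Cl Cr * (1 - (q / M.qc) ^ 2)⁻¹) +
      M.F Cl' Cr q) (M.F Cl Cr' q)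
  have n2 := norm_add_le (A.AF Cl Cr q - A.C2 Cl Cr * (1 - (q / M.qc) ^ 2)⁻¹) (M.F Cl' Cr q)
  have := h1 q hq
  have := h3 q hq
  have := h5 q hq
  linarith

theorem rm_diff : DifferentiableOn ℂ (A.rm' Cl Cr Cl' Cr') M.U := by
  unfold rm' TF
  refine (((A.AF_diff Cl Cr).add (Mdl.F_diffOn M Cl' Cr)).add (Mdl.F_diffOn M Cl Cr')).sub ?_
  refine (differentiableOn_const _).mul ?_
  refine DifferentiableOn.inv (by fun_prop) fun q hq => ?_
  have := Mdl.slit hq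
  exact Complex.slitPlane_ne_zero this

/-- the coefficients of the remainder -/
def rc (Cl Cr : Cap) (a : ℕ → ℝ) (m : ℕ) : ℂ :=
  (a m : ℂ) - (A.C2 Cl Cr : ℂ) * ((if Even m then 1 / M.qc ^ m else 0 : ℝ) : ℂ)

theorem even_hasSum {R : ℝ} (hR : 0 < R) {q : ℂ} (hq : ‖q‖ < R) :
    HasSum (fun m : ℕ => ((if Even m then 1 / R ^ m else 0 : ℝ) : ℂ) * q ^ m)
      ((1 - (q / R) ^ 2)⁻¹) := by
  have hRc : (R : ℂ) ≠ 0 := by exact_mod_cast hR.ne'
  have h1 : ‖(q / R) ^ 2‖ < 1 := by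
    rw [norm_pow, norm_div, norm_real, Real.norm_eq_abs, abs_of_pos hR]
    have : ‖q‖ / R < 1 := (div_lt_one hR).2 hq
    exact pow_lt_one₀ (by positivity) this (by norm_num)
  have h2 := hasSum_geometric_of_norm_lt_one h1
  have hinj : Function.Injective fun n : ℕ => 2 * n := fun a b h => by
    simp only at h; omega
  have h3 := hinj.hasSum_iff (f := fun m : ℕ =>
    ((if Even m then 1 / R ^ m else 0 : ℝ) : ℂ) * q ^ m)
    (a := (1 - (q / R) ^ 2)⁻¹) (fun m hm => by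
      have : ¬ Even m := fun ⟨k, hk⟩ => hm ⟨k, by simp only; omega⟩
      simp only [if_neg this, ofReal_zero, zero_mul])
  rw [← h3]
  refine h2.congr_fun'' fun n => ?_
  have he : Even (2 * n) := ⟨n, by ring⟩
  simp only [Function.comp, if_pos he]
  push_cast
  rw [pow_mul, pow_mul, div_pow, div_pow]
  field_simp

/-- the part of the disc where the function is given -/
def VV (M : Mdl) : Set ℂ := {q | ‖q‖ < M.qc ∧ -(1 / 4) < q.re}

theorem VV_open (M : Mdl) : IsOpen (VV M) := by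
  unfold VV
  exact (isOpen_lt continuous_norm continuous_const).inter
    (isOpen_lt continuous_const Complex.continuous_re)

theorem VV_sub (M : Mdl) : VV M ⊆ M.U := by
  rintro q ⟨h1, h2⟩
  have hc1 := M.qc_ge
  have hc2 := M.qc_lt
  refine ⟨by linarith, ?_, ?_⟩
  · have h3 := Complex.re_le_norm ((M.qc : ℂ) + q)
    rw [Complex.add_re, Complex.ofReal_re] at h3
    linarith
  · have h3 : (q ^ 2).re ≤ ‖q‖ ^ 2 := by
      rw [← norm_pow]; exact Complex.re_le_norm _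
    have h4 : ‖q‖ ^ 2 < M.qc ^ 2 := pow_lt_pow_left₀ h1 (norm_nonneg _) (by norm_num)
    have h5 : ((M.qc : ℂ) ^ 2 - q ^ 2).re = M.qc ^ 2 - (q ^ 2).re := by
      rw [Complex.sub_re]
      congr 1
      rw [← Complex.ofReal_pow, Complex.ofReal_re]
    rw [h5]
    have h6 := norm_nonneg ((M.qc : ℂ) ^ 2 - q ^ 2)
    linarith

/-- the remainder on the disc -/
def fr (Cl Cr : Cap) (a : ℕ → ℝ) (q : ℂ) : ℂ := ∑' m, A.rc Cl Cr a m * q ^ m

theorem fr_hasSum (hs : ∀ q : ℂ, ‖q‖ < M.qc → Summable (fun n => (a n : ℂ) * q ^ n))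
    {q : ℂ} (hq : ‖q‖ < M.qc) :
    HasSum (fun m => A.rc Cl Cr a m * q ^ m) (A.fr Cl Cr a q) := by
  have h2 := (even_hasSum M.qc_pos hq).mul_left (A.C2 Cl Cr : ℂ)
  have h3 := ((hs q hq).hasSum.sub h2).summable
  refine Summable.hasSum (h3.congr fun m => ?_)
  unfold rc; ring

theorem fr_eq (hs : ∀ q : ℂ, ‖q‖ < M.qc → Summable (fun n => (a n : ℂ) * q ^ n))
    (hF : ∀ q ∈ VV M, HasSum (fun n => (a n : ℂ) * q ^ n) (A.TF Cl Cr Cl' Cr' q))
    {q : ℂ} (hq : q ∈ VV M) : A.fr Cl Cr a q = A.rm' Cl Cr Cl' Cr' q := by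
  have h2 := (even_hasSum M.qc_pos hq.1).mul_left (A.C2 Cl Cr : ℂ)
  refine (A.fr_hasSum hs hq.1).unique (((hF q hq).sub h2).congr_fun'' fun m => ?_)
  unfold rc; ring

theorem fr_even (hs : ∀ q : ℂ, ‖q‖ < M.qc → Summable (fun n => (a n : ℂ) * q ^ n))
    (ho : ∀ n, Odd n → a n = 0) {q : ℂ} (hq : ‖q‖ < M.qc) :
    A.fr Cl Cr a (-q) = A.fr Cl Cr a q := by
  have h1 := A.fr_hasSum (Cl := Cl) (Cr := Cr) hs hq
  have h2 := A.fr_hasSum (Cl := Cl) (Cr := Cr) hs (q := -q) (by rwa [norm_neg])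
  have h3 : HasSum (fun m => A.rc Cl Cr a m * (-q) ^ m) (A.fr Cl Cr a q) := by
    refine h1.congr_fun'' fun m => ?_
    rcases Nat.even_or_odd m with he | hod
    · rw [he.neg_pow]
    · have : A.rc Cl Cr a m = 0 := by
        unfold rc
        rw [ho m hod, if_neg (Nat.not_even_iff_odd.2 hod)]
        simp
      rw [this]; ring
  exact h2.unique h3

/-- the second derivative of the remainder -/
theorem rm_iter (hs : ∀ q : ℂ, ‖q‖ < M.qc → Summable (fun n => (a n : ℂ) * q ^ n))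
    (hF : ∀ q ∈ VV M, HasSum (fun n => (a n : ℂ) * q ^ n) (A.TF Cl Cr Cl' Cr' q))
    (ho : ∀ n, Odd n → a n = 0) {ε : ℝ} (hε : 0 < ε) : ∃ X, 0 ≤ X ∧ ∀ n : ℕ, 2 ≤ n → ∀ q : ℂ,
      ‖q‖ = M.qc * (1 - 1 / n) → ‖iteratedDeriv 2 (A.fr Cl Cr a) q‖ ≤
      (3200 * (4 * ε * n + X)) * (1 / ‖(M.qc : ℂ) - q‖ ^ 2 + 1 / ‖(M.qc : ℂ) + q‖ ^ 2) := by
  obtain ⟨X, hX0, hX⟩ := A.rm_bd (Cl := Cl) (Cr := Cr) (Cl' := Cl') (Cr' := Cr') hε
  have key : ∀ n : ℕ, 2 ≤ n → ∀ q : ℂ, ‖q‖ = M.qc * (1 - 1 / n) → 0 ≤ q.re →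
      ‖iteratedDeriv 2 (A.rm' Cl Cr Cl' Cr') q‖ ≤
      (3200 * (4 * ε * n + X)) * (1 / ‖(M.qc : ℂ) - q‖ ^ 2) := by
    intro n hn q hq hre
    have hn0 : (0 : ℝ) < n := by exact_mod_cast (by omega : 0 < n)
    have hqc := M.qc_ge
    have hqc1 := M.qc_lt
    set δ := ‖(M.qc : ℂ) - q‖ with hδ
    have hδn : (1 : ℝ) / 2 / n ≤ δ := by
      have h1 : ‖(M.qc : ℂ)‖ - ‖q‖ ≤ δ := norm_sub_norm_le _ _
      rw [Complex.norm_real, Real.norm_eq_abs, abs_of_pos M.qc_pos, hq] at h1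
      have h2 : M.qc - M.qc * (1 - 1 / n) = M.qc * (1 / n) := by ring
      rw [h2] at h1
      refine le_trans ?_ h1
      have h3 : (0 : ℝ) < 1 / n := by positivity
      have h4 : (1 : ℝ) / 2 / n = 1 / 2 * (1 / n) := by ring
      rw [h4]
      exact mul_le_mul_of_nonneg_right (by linarith) h3.le
    have hδ0 : 0 < δ := lt_of_lt_of_le (by positivity) hδn
    have hδi : 1 / δ ≤ 2 * n := by
      rw [div_le_iff₀ hδ0]
      have := mul_le_mul_of_nonneg_left hδn (show (0 : ℝ) ≤ 2 * n by positivity)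
      have e : 2 * (n : ℝ) * (1 / 2 / n) = 1 := by field_simp
      rw [e] at this
      exact this
    have hqle : ‖q‖ ≤ M.qc := by
      rw [hq]
      have h3 : (0 : ℝ) < 1 / n := by positivity
      nlinarith [M.qc_pos]
    have hball : closedBall q (δ / 40) ⊆ M.U := by
      intro p hp
      refine Mdl.ball_sub hqle hre ?_
      rw [mem_closedBall, dist_eq_norm] at hp
      rw [← hδ]
      linarith
    have hdc : DiffContOnCl ℂ (A.rm' Cl Cr Cl' Cr') (ball q (δ / 40)) := by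
      refine DifferentiableOn.diffContOnCl ?_
      rw [closure_ball _ (by positivity)]
      exact A.rm_diff.mono hball
    have h1 := norm_iteratedDeriv_le_of_forall_mem_sphere_norm_le 2 (show 0 < δ / 40 by positivity)
      hdc (C := 4 * ε * n + X) (fun z hz => by
        have hzU : z ∈ M.U := hball (sphere_subset_closedBall hz)
        refine (hX z hzU).trans (add_le_add ?_ le_rfl)
        rw [mem_sphere, dist_eq_norm] at hz
        have h2 : δ ≤ ‖z - M.qc‖ + ‖z - q‖ := by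
          rw [hδ, norm_sub_rev z (M.qc : ℂ)]
          have := norm_add_le ((M.qc : ℂ) - z) (z - q)
          rwa [sub_add_sub_cancel] at this
        rw [hz] at h2
        have h3 : δ / 2 ≤ ‖z - M.qc‖ := by linarith
        calc ε / ‖z - M.qc‖ ≤ ε / (δ / 2) := div_le_div_of_nonneg_left hε.le (by positivity) h3
          _ = 2 * ε * (1 / δ) := by field_simp
          _ ≤ 2 * ε * (2 * n) := mul_le_mul_of_nonneg_left hδi (by positivity)
          _ = _ := by ring)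
    refine h1.trans (le_of_eq ?_)
    have : ((2 : ℕ).factorial : ℝ) = 2 := by norm_num [Nat.factorial]
    rw [this]
    field_simp
    ring
  have hloc : ∀ q : ℂ, ‖q‖ < M.qc → 0 ≤ q.re →
      iteratedDeriv 2 (A.fr Cl Cr a) q = iteratedDeriv 2 (A.rm' Cl Cr Cl' Cr') q := by
    intro q h1 h2
    have h3 : A.fr Cl Cr a =ᶠ[𝓝 q] A.rm' Cl Cr Cl' Cr' := by
      have : VV M ∈ 𝓝 q := (VV_open M).mem_nhds ⟨h1, by linarith⟩
      filter_upwards [this] with x hx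
      exact A.fr_eq hs hF hx
    exact h3.iteratedDeriv_eq 2
  refine ⟨X, hX0, fun n hn q hq => ?_⟩
  have hn0 : (0 : ℝ) < n := by exact_mod_cast (by omega : 0 < n)
  have hqlt : ‖q‖ < M.qc := by
    rw [hq]
    have h3 : (0 : ℝ) < 1 / n := by positivity
    nlinarith [M.qc_pos]
  rcases le_total 0 q.re with h | h
  · rw [hloc q hqlt h]
    refine (key n hn q hq h).trans (mul_le_mul_of_nonneg_left ?_ (by positivity))
    have : 0 ≤ 1 / ‖(M.qc : ℂ) + q‖ ^ 2 := by positivity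
    linarith
  · have h1 := key n hn (-q) (by rwa [norm_neg]) (by simpa using h)
    have h2 : (fun x => A.fr Cl Cr a (-x)) =ᶠ[𝓝 q] fun x => A.fr Cl Cr a x := by
      have : ball (0 : ℂ) M.qc ∈ 𝓝 q := isOpen_ball.mem_nhds (by simpa using hqlt)
      filter_upwards [this] with x hx
      exact A.fr_even hs ho (by simpa using hx)
    have h3 := h2.iteratedDeriv_eq 2
    rw [iteratedDeriv_comp_neg] at h3
    have h4 : ‖iteratedDeriv 2 (A.fr Cl Cr a) q‖ =
        ‖iteratedDeriv 2 (A.fr Cl Cr a) (-q)‖ := by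
      have := congrArg norm h3
      simpa using this.symm
    rw [h4, hloc (-q) (by rwa [norm_neg]) (by simpa using h)]
    refine h1.trans (mul_le_mul_of_nonneg_left ?_ (by positivity))
    rw [sub_neg_eq_add]
    have : 0 ≤ 1 / ‖(M.qc : ℂ) - q‖ ^ 2 := by positivity
    linarith

/-- the coefficients of the area generating function -/
theorem area_coef (hs : ∀ q : ℂ, ‖q‖ < M.qc → Summable (fun n => (a n : ℂ) * q ^ n))
    (hF : ∀ q ∈ VV M, HasSum (fun n => (a n : ℂ) * q ^ n) (A.TF Cl Cr Cl' Cr' q))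
    (ho : ∀ n, Odd n → a n = 0) :
    Tendsto (fun k : ℕ => a (2 * k) * M.qc ^ (2 * k)) atTop (𝓝 (A.C2 Cl Cr)) := by
  have key : ∀ η : ℝ, 0 < η → ∀ᶠ n : ℕ in atTop, ‖A.rc Cl Cr a n‖ * M.qc ^ n ≤ η := by
    intro η hη
    obtain ⟨X, hX0, hX⟩ := A.rm_iter (Cl' := Cl') (Cr' := Cr') hs hF ho
      (ε := η / (2 * (16 * 3200 * 4))) (by positivity)
    obtain ⟨N, hN⟩ := exists_nat_gt (16 * 3200 * X * 2 / η)
    filter_upwards [eventually_ge_atTop (max 2 (N + 1))] with n hn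
    have hn2 : 2 ≤ n := (le_max_left _ _).trans hn
    have hnN : N < n := by have := (le_max_right 2 (N + 1)).trans hn; omega
    have hn0 : (0 : ℝ) < n := by exact_mod_cast (by omega : 0 < n)
    have h1 := coef_le M.qc_pos (A := 3200 * (4 * (η / (2 * (16 * 3200 * 4))) * n + X))
      (by positivity) (fun q hq => A.fr_hasSum hs hq) hn2 (hX n hn2)
    refine h1.trans ?_
    rw [div_le_iff₀ hn0]
    have h2 : 16 * 3200 * X * 2 < η * n := by
      rw [div_lt_iff₀ hη] at hN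
      have : (N : ℝ) < n := by exact_mod_cast hnN
      nlinarith
    have e : 16 * (3200 * (4 * (η / (2 * (16 * 3200 * 4))) * n + X)) = η * n / 2 +
        16 * 3200 * X := by ring
    rw [e]
    linarith
  rw [Metric.tendsto_atTop]
  intro η hη
  obtain ⟨N, hN⟩ := eventually_atTop.1 (key (η / 2) (by positivity))
  refine ⟨N, fun k hk => ?_⟩
  have h1 := hN (2 * k) (by omega)
  have he : Even (2 * k) := ⟨k, by ring⟩
  have hp : 0 < M.qc ^ (2 * k) := pow_pos M.qc_pos _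
  have e1 : A.rc Cl Cr a (2 * k) = ((a (2 * k) - A.C2 Cl Cr * (1 / M.qc ^ (2 * k)) : ℝ) : ℂ) := by
    unfold rc
    rw [if_pos he]
    push_cast
    ring
  rw [e1, Complex.norm_real, Real.norm_eq_abs, ← abs_of_pos hp, ← abs_mul, abs_of_pos hp] at h1
  rw [Real.dist_eq]
  have e2 : a (2 * k) * M.qc ^ (2 * k) - A.C2 Cl Cr =
      (a (2 * k) - A.C2 Cl Cr * (1 / M.qc ^ (2 * k))) * M.qc ^ (2 * k) := by
    field_simp
  rw [e2]
  linarith

end Ker

end

end KN.SQ
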