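import Pool.Agent.H132.SQ.Ar1
import Pool.Agent.H132.SQ.W7

/-!
# The areas of the blocks
-/

set_option autoImplicit false

namespace KN.SQ

open KN KN.ST Finset Filter Topology
open scoped Classical ENNReal

noncomputable section

/-- the indicator of an interval -/
def ind (j : ℤ) (a : ℤ) (n : ℕ) : ℝ≥0∞ := if a - n ≤ j ∧ j < a + n then 1 else 0

theorem tsum_ind (a : ℤ) (n : ℕ) : ∑' j : ℤ, ind j a n = (2 * n : ℕ) := by
  have e : ∀ j : ℤ, ind j a n = if j ∈ Finset.Ico (a - n) (a + n) then 1 else 0 := by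
    intro j
    unfold ind
    by_cases h : a - n ≤ j ∧ j < a + n
    · rw [if_pos h, if_pos (Finset.mem_Ico.2 h)]
    · rw [if_neg h, if_neg (fun h' => h (Finset.mem_Ico.1 h'))]
  rw [tsum_congr e, tsum_eq_sum (s := Finset.Ico (a - n) (a + n)) (fun j hj => if_neg hj),
    Finset.sum_congr rfl (fun j hj => if_pos hj), sum_const, Int.card_Ico, nsmul_eq_mul, mul_one]
  congr 1
  omega

/-- the parity of the crossings in a column that is crossed oddly often -/
theorem od_near {w : List Dir} {c : ℤ} (h : X w c % 2 = 1) (j : ℤ) :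
    nv w c j % 2 = (if j < 0 then 1 else 0) ∨ ind j 0 w.length = 1 := by
  unfold ind
  by_cases h1 : (0 : ℤ) - w.length ≤ j ∧ j < 0 + w.length
  · right; rw [if_pos h1]
  · left
    rcases lt_or_ge j (-(w.length : ℤ)) with h2 | h2
    · rw [nv_low h2, h, if_pos (by omega)]
    · rw [nv_high (by omega), if_neg (by omega)]

theorem od_mod {m n : ℕ} (h : m % 2 = n % 2) : od m = od n := by
  unfold od
  simp only [Nat.odd_iff, h]

theorem ind_shift (j a : ℤ) (n : ℕ) : ind (j - a) 0 n = ind j a n := by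
  unfold ind
  congr 1
  apply propext
  constructor <;> rintro ⟨h1, h2⟩ <;> constructor <;> omega

section block

variable {b : Blk} {d : ℤ}

/-- the inner crossings of a block in one column -/
def kb (b : Blk) (d c j : ℤ) : ℕ :=
  nv b.1 c j + nv b.2 (c - (pos b.1).1) (j - ((pos b.1).2.1 + d))

theorem AB_def (b : Blk) (d : ℤ) : AB b d = ∑' c : ℤ, ∑' j : ℤ, od (kb b d c j) := by
  unfold AB
  rw [ENNReal.tsum_prod']
  rfl

theorem kb_zero (hb : ∀ p ∈ path b.1, 0 ≤ p.1 ∧ p.1 ≤ (pos b.1).1)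
    (hb2 : ∀ p ∈ path b.2, -(pos b.1).1 ≤ p.1 ∧ p.1 ≤ 0) {c : ℤ}
    (hc : ¬ (0 ≤ c ∧ c < (pos b.1).1)) (j : ℤ) : kb b d c j = 0 := by
  unfold kb
  rcases lt_or_ge c 0 with h | h
  · have h3 : nv b.1 c j = 0 := nv_zero (X_high fun p hp => by have := (hb p hp).1; omega) _
    have h4 : nv b.2 (c - (pos b.1).1) (j - ((pos b.1).2.1 + d)) = 0 :=
      nv_zero (X_high fun p hp => by have := (hb2 p hp).1; omega) _
    rw [h3, h4]
  · have h3 : nv b.1 c j = 0 := nv_zero (X_low fun p hp => by have := (hb p hp).2; omega) _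
    have h4 : nv b.2 (c - (pos b.1).1) (j - ((pos b.1).2.1 + d)) = 0 :=
      nv_zero (X_low fun p hp => by have := (hb2 p hp).2; omega) _
    rw [h3, h4]

theorem kb_near (hW : 0 ≤ (pos b.1).1) (hp2 : (pos b.2).1 = -(pos b.1).1) {c : ℤ}
    (hc : 0 ≤ c ∧ c < (pos b.1).1) (j : ℤ) :
    kb b d c j % 2 = ((if j < 0 then 1 else 0) + if j < (pos b.1).2.1 + d then 1 else 0) % 2 ∨
      ind j 0 b.1.length = 1 ∨ ind j ((pos b.1).2.1 + d) b.2.length = 1 := by
  have h1 : X b.1 c % 2 = 1 := by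
    rw [X_par, if_pos (Or.inl hc)]
  have h2 : X b.2 (c - (pos b.1).1) % 2 = 1 := by
    rw [X_par, if_pos (Or.inr ⟨by omega, by omega⟩)]
  rcases od_near h1 j with h3 | h3
  · rcases od_near h2 (j - ((pos b.1).2.1 + d)) with h4 | h4
    · left
      unfold kb
      have e : (if j - ((pos b.1).2.1 + d) < 0 then 1 else 0 : ℕ) =
          if j < (pos b.1).2.1 + d then 1 else 0 := by
        congr 1
        apply propext
        constructor <;> intro h <;> omega
      rw [e] at h4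
      rw [Nat.add_mod, h3, h4]
    · right; right
      rwa [ind_shift] at h4
  · right; left; exact h3

theorem col_upper (hW : 0 ≤ (pos b.1).1) (hp2 : (pos b.2).1 = -(pos b.1).1) {c : ℤ}
    (hc : 0 ≤ c ∧ c < (pos b.1).1) :
    ∑' j : ℤ, od (kb b d c j) ≤ (((pos b.1).2.1 + d).natAbs : ℝ≥0∞) + (2 * bl b : ℕ) := by
  have h1 : ∀ j : ℤ, od (kb b d c j) ≤ od ((if j < 0 then 1 else 0) +
      if j < (pos b.1).2.1 + d then 1 else 0) + (ind j 0 b.1.length +
      ind j ((pos b.1).2.1 + d) b.2.length) := by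
    intro j
    rcases kb_near hW hp2 hc j with h | h | h
    · rw [od_mod h]; exact le_self_add
    · rw [h]
      exact (od_le _).trans (le_add_left le_self_add)
    · rw [h]
      exact (od_le _).trans (le_add_left (le_add_left le_rfl))
  refine (ENNReal.tsum_le_tsum h1).trans ?_
  rw [ENNReal.tsum_add, ENNReal.tsum_add, tsum_two, tsum_ind, tsum_ind]
  have e1 : (0 - ((pos b.1).2.1 + d)).natAbs = ((pos b.1).2.1 + d).natAbs := by omega
  rw [e1]
  refine add_le_add le_rfl (le_of_eq ?_)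
  rw [← Nat.cast_add]
  congr 1
  unfold bl
  ring

theorem col_lower (hW : 0 ≤ (pos b.1).1) (hp2 : (pos b.2).1 = -(pos b.1).1) {c : ℤ}
    (hc : 0 ≤ c ∧ c < (pos b.1).1) :
    (((pos b.1).2.1 + d).natAbs : ℝ≥0∞) ≤ ∑' j : ℤ, od (kb b d c j) + (2 * bl b : ℕ) := by
  have h1 : ∀ j : ℤ, od ((if j < 0 then 1 else 0) +
      if j < (pos b.1).2.1 + d then 1 else 0) ≤ od (kb b d c j) + (ind j 0 b.1.length +
      ind j ((pos b.1).2.1 + d) b.2.length) := by
    intro j
    rcases kb_near hW hp2 hc j with h | h | h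
    · rw [od_mod h]; exact le_self_add
    · rw [h]
      exact (od_le _).trans (le_add_left le_self_add)
    · rw [h]
      exact (od_le _).trans (le_add_left (le_add_left le_rfl))
  have h2 := ENNReal.tsum_le_tsum h1
  rw [ENNReal.tsum_add, ENNReal.tsum_add, tsum_two, tsum_ind, tsum_ind] at h2
  have e1 : (0 - ((pos b.1).2.1 + d)).natAbs = ((pos b.1).2.1 + d).natAbs := by omega
  rw [e1] at h2
  refine h2.trans (add_le_add le_rfl (le_of_eq ?_))
  rw [← Nat.cast_add]
  congr 1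
  unfold bl
  ring

end block

/-- the areas of the blocks -/
theorem AB_bd {d : ℤ} {b : Blk} (h : Pc (pt d) (nxt (pt d) b) b) (hI : Irr b) (hP : PB b) :
    AB b (d - (dv b).2.1) ≠ ⊤ ∧
    |(AB b (d - (dv b).2.1)).toReal - (wd b : ℝ) * (d - (dv b).2.1).natAbs| ≤
      3 * (bl b : ℝ) ^ 2 := by
  have hfr := h.fr
  set W := (pos b.1).1 with hW
  set y0 := (pos b.1).2.1 with hy0
  set d' := d - (dv b).2.1 with hd'
  have hb1 : ∀ p ∈ path b.1, 0 ≤ p.1 ∧ p.1 ≤ W := fun p hp =>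
    h.rg p (List.mem_append_right _ hp)
  have hW0 : 0 ≤ W := (hb1 0 (zero_mem_path b.1)).2
  have hrel := congrArg Prod.fst h.rel
  have hh0 := h.h0
  have hp2 : (pos b.2).1 = -W := by
    simp only [Prod.fst_add] at hrel
    rw [hh0, h.h1] at hrel
    omega
  have hb2 : ∀ p ∈ path b.2, -W ≤ p.1 ∧ p.1 ≤ 0 := by
    intro p hp
    have := h.rg (p + (pos b.1 + nxt (pt d) b)) (List.mem_append_left _ (mem_sh.2 (by simpa using hp)))
    simp only [Prod.fst_add, hh0] at this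
    omega
  have hLW := irr4' hfr hI
  have hwd : (wd b : ℤ) = W := by unfold wd; omega
  set L := bl b with hL
  have hy : y0.natAbs ≤ L := by
    have h2 := nl_xc b.1
    unfold nl at h2
    rw [hL]; unfold bl; omega
  -- the columns
  have hsum : AB b d' = ∑ c ∈ Finset.Ico 0 W, ∑' j : ℤ, od (kb b d' c j) := by
    rw [AB_def]
    refine tsum_eq_sum (s := Finset.Ico 0 W) fun c hc => ?_
    rw [ENNReal.tsum_eq_zero]
    intro j
    rw [kb_zero hb1 hb2 (fun h => hc (Finset.mem_Ico.2 h)), od_zero]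
  have hcard : (Finset.Ico 0 W).card = wd b := by
    rw [Int.card_Ico]; unfold wd; omega
  set N := (y0 + d').natAbs with hN
  have hup : AB b d' ≤ ((wd b * (N + 2 * L) : ℕ) : ℝ≥0∞) := by
    rw [hsum]
    refine (Finset.sum_le_sum fun c hc => col_upper hW0 hp2 (Finset.mem_Ico.1 hc)).trans ?_
    rw [sum_const, hcard, nsmul_eq_mul]
    push_cast
    exact le_rfl
  have hlo : ((wd b * N : ℕ) : ℝ≥0∞) ≤ AB b d' + ((wd b * (2 * L) : ℕ) : ℝ≥0∞) := by
    rw [hsum]
    have h1 : ∑ c ∈ Finset.Ico 0 W, (N : ℝ≥0∞) ≤ ∑ c ∈ Finset.Ico 0 W,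
        (∑' j : ℤ, od (kb b d' c j) + (2 * L : ℕ)) :=
      Finset.sum_le_sum fun c hc => col_lower hW0 hp2 (Finset.mem_Ico.1 hc)
    rw [Finset.sum_add_distrib, sum_const, sum_const, hcard, nsmul_eq_mul, nsmul_eq_mul] at h1
    push_cast at h1 ⊢
    exact h1
  have hfin : AB b d' ≠ ⊤ := ne_top_of_le_ne_top (ENNReal.natCast_ne_top _) hup
  refine ⟨hfin, ?_⟩
  have h1 := ENNReal.toReal_mono (ENNReal.natCast_ne_top _) hup
  have h2 := ENNReal.toReal_mono (ENNReal.add_ne_top.2 ⟨hfin, ENNReal.natCast_ne_top _⟩) hlo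
  rw [ENNReal.toReal_add hfin (ENNReal.natCast_ne_top _)] at h2
  rw [ENNReal.toReal_natCast] at h1
  rw [ENNReal.toReal_natCast, ENNReal.toReal_natCast] at h2
  push_cast at h1 h2
  have h3 : (wd b : ℝ) ≤ L := by exact_mod_cast (by omega : wd b ≤ L)
  have h4 : (N : ℝ) ≤ d'.natAbs + L := by exact_mod_cast (by omega : N ≤ d'.natAbs + L)
  have h5 : (d'.natAbs : ℝ) ≤ N + L := by exact_mod_cast (by omega : d'.natAbs ≤ N + L)
  have h6 : (0 : ℝ) ≤ wd b := Nat.cast_nonneg _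
  have h7 : (0 : ℝ) ≤ L := Nat.cast_nonneg _
  rw [abs_le]
  constructor <;> nlinarith [mul_le_mul_of_nonneg_left h4 h6, mul_le_mul_of_nonneg_left h5 h6,
    mul_le_mul_of_nonneg_right h3 h7]

/-- the areas of the blocks as a kernel -/
def KK (s : ℝ) (hs : Wok s) : Ker (MM s hs) where
  ar b d := (AB b.1 (d - (dv b.1).2.1)).toReal + ((d - (dv b.1).2.1).natAbs : ℝ)
  nu b := (wd b.1 : ℝ) + 1
  Ca := 5
  Ca0 := by norm_num
  nu0 b := by positivity
  nuL b := by
    have h1 := irr4' b.2.1 b.2.2.1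
    have h2 := bl_pos b.2.2.2.2
    have h3 : wd b.1 + 1 ≤ bl b.1 + 1 := by omega
    have h4 : bl b.1 + 1 ≤ 2 ^ bl b.1 := Nat.lt_two_pow_self
    show (wd b.1 : ℝ) + 1 ≤ 2 ^ bl b.1
    exact_mod_cast h3.trans h4
  ard b d h := by
    have h0 : Pc (pt d) (nxt (pt d) b.1) b.1 := h
    have h1 := (AB_bd h0 b.2.2.1 b.2.2.2.1).2
    have h2 := dv_le b.2.1 b.2.2.1
    have h3 := irr4' b.2.1 b.2.2.1
    have h4 := bl_pos b.2.2.2.2
    set d' := d - (dv b.1).2.1 with hd'
    set L := bl b.1 with hL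
    have hLr : (1 : ℝ) ≤ L := by exact_mod_cast h4
    have hw : (wd b.1 : ℝ) ≤ L := by exact_mod_cast (by omega : wd b.1 ≤ L)
    have hw0 : (0 : ℝ) ≤ wd b.1 := Nat.cast_nonneg _
    rw [Int.abs_eq_natAbs] at h2
    have h5 : (dv b.1).2.1.natAbs ≤ L := by exact_mod_cast h2
    have h6 : (d'.natAbs : ℝ) ≤ d.natAbs + L := by
      exact_mod_cast (by omega : d'.natAbs ≤ d.natAbs + L)
    have h7 : (d.natAbs : ℝ) ≤ d'.natAbs + L := by
      exact_mod_cast (by omega : d.natAbs ≤ d'.natAbs + L)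
    have h8 : (L : ℝ) ^ 2 ≤ 4 ^ L := by
      have h9 : (L : ℝ) ≤ 2 ^ L := by exact_mod_cast (Nat.lt_two_pow_self).le
      calc (L : ℝ) ^ 2 ≤ (2 ^ L) ^ 2 := pow_le_pow_left₀ (by linarith) h9 2
        _ = 4 ^ L := by rw [← pow_mul, mul_comm, pow_mul]; norm_num
    have h9 := abs_le.1 h1
    show |(AB b.1 d').toReal + (d'.natAbs : ℝ) - ((wd b.1 : ℝ) + 1) * d.natAbs| ≤ 5 * 4 ^ L
    refine le_trans ?_ (mul_le_mul_of_nonneg_left h8 (by norm_num))
    have h10 : |(wd b.1 + 1 : ℝ) * ((d'.natAbs : ℝ) - d.natAbs)| ≤ 2 * (L : ℝ) ^ 2 := by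
      rw [abs_mul, abs_of_nonneg (by positivity)]
      have h11 : |(d'.natAbs : ℝ) - d.natAbs| ≤ L := by
        rw [abs_le]; constructor <;> linarith
      calc (wd b.1 + 1 : ℝ) * |(d'.natAbs : ℝ) - d.natAbs| ≤ (L + 1) * L :=
            mul_le_mul (by linarith) h11 (abs_nonneg _) (by linarith)
        _ ≤ _ := by nlinarith
    have e : (AB b.1 d').toReal + (d'.natAbs : ℝ) - ((wd b.1 : ℝ) + 1) * d.natAbs =
        ((AB b.1 d').toReal - (wd b.1 : ℝ) * d'.natAbs) +
        (wd b.1 + 1 : ℝ) * ((d'.natAbs : ℝ) - d.natAbs) := by ring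
    rw [e]
    refine (abs_add_le _ _).trans ?_
    linarith

/-! ### the caps -/

theorem area_small (n : ℕ) : ((2 * n + 1) * (2 * n) + n : ℕ) ≤ (7 * 4 ^ n : ℕ) := by
  have h1 : n < 2 ^ n := Nat.lt_two_pow_self
  have h2 : n ^ 2 ≤ 4 ^ n := by
    calc n ^ 2 ≤ (2 ^ n) ^ 2 := Nat.pow_le_pow_left h1.le 2
      _ = 4 ^ n := by rw [← pow_mul, mul_comm, pow_mul]; norm_num
  have h3 : n ≤ 4 ^ n := h1.le.trans (Nat.pow_le_pow_left (by norm_num) n)
  nlinarith

/-- the area of a cap, with its column -/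
def ac (w : List Dir) : ℝ := (AE w).toReal + ((pos w).2.1.natAbs : ℝ)

theorem ac_nonneg (w : List Dir) : 0 ≤ ac w := add_nonneg ENNReal.toReal_nonneg (Nat.cast_nonneg _)

theorem AE_ne {w : List Dir} (h : (pos w).1 = 0) : AE w ≠ ⊤ :=
  ne_top_of_le_ne_top (ENNReal.natCast_ne_top _) (AE_le h)

theorem ac_le {w : List Dir} (h : (pos w).1 = 0) : ac w ≤ 7 * 4 ^ w.length := by
  have h1 := ENNReal.toReal_mono (ENNReal.natCast_ne_top _) (AE_le h)
  rw [ENNReal.toReal_natCast] at h1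
  have h2 : ((pos w).2.1.natAbs : ℝ) ≤ (w.length : ℕ) := by
    have h3 := pos_y_le w
    rw [Int.abs_eq_natAbs] at h3
    exact_mod_cast h3
  have h3 := area_small w.length
  have h4 : (((2 * w.length + 1) * (2 * w.length) + w.length : ℕ) : ℝ) ≤
    ((7 * 4 ^ w.length : ℕ) : ℝ) := by exact_mod_cast h3
  unfold ac
  push_cast at h1 h4
  linarith

theorem capw' {s : ℝ} (hs : Wok s) {w : List Dir} (h : 4 * xt w ≤ w.length)
    (h0 : (pos w).1 = 0) :
    s ^ (4 * w.length - 8 * xt w) * ac w * 16 ^ (w.length + 1) ≤ 112 * (1 / 12) ^ w.length := by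
  have hac := ac_le h0
  have hac0 := ac_nonneg w
  obtain ⟨hs0, h1⟩ := hs
  have hs1 : s ≤ 1 := h1.trans (by norm_num)
  have e1 : s ^ (4 * w.length - 8 * xt w) ≤ s ^ (w.length) :=
    pow_le_pow_of_le_one hs0.le hs1 (by omega)
  calc s ^ (4 * w.length - 8 * xt w) * ac w * 16 ^ (w.length + 1) ≤
        s ^ w.length * (7 * 4 ^ w.length) * 16 ^ (w.length + 1) := by
        refine mul_le_mul_of_nonneg_right (mul_le_mul e1 hac hac0 (by positivity)) (by positivity)
    _ = 112 * ((768 * s) ^ w.length * (1 / 12) ^ w.length) := by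
        rw [pow_succ, ← mul_pow]
        have : (768 * s * (1 / 12)) ^ w.length = s ^ w.length * 4 ^ w.length * 16 ^ w.length := by
          rw [← mul_pow, ← mul_pow]; congr 1; ring
        rw [this]; ring
    _ ≤ 112 * (1 * (1 / 12) ^ w.length) := by
        refine mul_le_mul_of_nonneg_left (mul_le_mul_of_nonneg_right ?_ (by positivity))
          (by norm_num)
        exact pow_le_one₀ (by positivity) (by norm_num at h1 ⊢; linarith)
    _ = _ := by ring

theorem LC.x0 {l : List Dir} (h : LC l) : (pos l).1 = 0 := by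
  obtain ⟨-, D, h2, -⟩ := h
  rw [h2.en]; simp [h2.h0]

theorem RC.x0 {l : List Dir} (h : RC l) : (pos l).1 = 0 := by
  obtain ⟨-, D, h2, -⟩ := h
  rw [h2.en]; exact h2.h0

/-- the left caps weighted with the area -/
def CL' (s : ℝ) (hs : Wok s) : Cap where
  ρ := {l : List Dir // LC l}
  a l := s ^ (4 * l.1.length - 8 * xt l.1) * ac l.1
  m l := l.1.length + 1
  x l := -(pos l.1).2.1
  a0 l := mul_nonneg (pow_nonneg hs.1.le _) (ac_nonneg _)
  xm l := (CL s hs).xm l
  x0 l := (CL s hs).x0 l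
  sm := by
    refine Summable.of_nonneg_of_le (fun l => mul_nonneg (mul_nonneg (pow_nonneg hs.1.le _)
      (ac_nonneg _)) (by positivity))
      (fun l => capw' hs l.2.four l.2.x0) ((words12.subtype _).mul_left 112)

/-- the right caps weighted with the area -/
def CR' (s : ℝ) (hs : Wok s) : Cap where
  ρ := {l : List Dir // RC l}
  a l := s ^ (4 * l.1.length - 8 * xt l.1) * (AE l.1).toReal
  m l := l.1.length + 1
  x l := (pos l.1).2.1
  a0 l := mul_nonneg (pow_nonneg hs.1.le _) ENNReal.toReal_nonneg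
  xm l := (CR s hs).xm l
  x0 l := (CR s hs).x0 l
  sm := by
    refine Summable.of_nonneg_of_le (fun l => mul_nonneg (mul_nonneg (pow_nonneg hs.1.le _)
      ENNReal.toReal_nonneg) (by positivity))
      (fun l => ?_) ((words12.subtype _).mul_left 112)
    refine le_trans ?_ (capw' hs l.2.four l.2.x0)
    refine mul_le_mul_of_nonneg_right (mul_le_mul_of_nonneg_left ?_ (pow_nonneg hs.1.le _))
      (by positivity)
    unfold ac
    have : (0 : ℝ) ≤ ((pos l.1).2.1.natAbs : ℝ) := Nat.cast_nonneg _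
    linarith

end

end KN.SQ
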