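import Pool.Agent.H132.SQ.Ar2

/-!
# The area of the decomposed polygons
-/

set_option autoImplicit false

namespace KN.SQ

open KN KN.ST Finset Filter Topology
open scoped Classical ENNReal

noncomputable section

/-- the transfer operator -/
def Kf (S T : ℝ≥0∞) (g : ℤ → ℝ≥0∞) (d : ℤ) : ℝ≥0∞ :=
  ∑' b : Blk, if fb d b then ωb S b * T ^ (bl b + 2) * g (d - (dv b).2.1) else 0

/-- the transfer operator weighted with the area -/
def Ka (S T : ℝ≥0∞) (g : ℤ → ℝ≥0∞) (d : ℤ) : ℝ≥0∞ :=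
  ∑' b : Blk, if fb d b then ωb S b * T ^ (bl b + 2) *
    ((AB b (d - (dv b).2.1) + ((d - (dv b).2.1).natAbs : ℝ≥0∞)) * g (d - (dv b).2.1)) else 0

/-- the pairing -/
def PI (f g : ℤ → ℝ≥0∞) : ℝ≥0∞ := ∑' d, f d * g d

variable {S T : ℝ≥0∞}

theorem Kf_zero : Kf S T 0 = 0 := by
  funext d
  unfold Kf
  simp

theorem Kf_add (f g : ℤ → ℝ≥0∞) : Kf S T (f + g) = Kf S T f + Kf S T g := by
  funext d
  simp only [Kf, Pi.add_apply]
  rw [← ENNReal.tsum_add]
  refine tsum_congr fun b => ?_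
  split_ifs <;> ring

/-- the transfer operator as a homomorphism -/
def Kh (S T : ℝ≥0∞) : (ℤ → ℝ≥0∞) →+ (ℤ → ℝ≥0∞) where
  toFun := Kf S T
  map_zero' := Kf_zero
  map_add' := Kf_add

theorem Kh_apply (g : ℤ → ℝ≥0∞) (d : ℤ) : Kh S T g d =
  ∑' b : Blk, if fb d b then ωb S b * T ^ (bl b + 2) * g (d - (dv b).2.1) else 0 := rfl

theorem Kh_at_zero (g : ℤ → ℝ≥0∞) : Kh S T g 0 = 0 := by
  rw [Kh_apply, ENNReal.tsum_eq_zero]
  intro b
  rw [if_neg]
  intro h
  exact h.1.ne.1 rfl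

theorem Ka_at_zero (g : ℤ → ℝ≥0∞) : Ka S T g 0 = 0 := by
  unfold Ka
  rw [ENNReal.tsum_eq_zero]
  intro b
  rw [if_neg]
  intro h
  exact h.1.ne.1 rfl

theorem Rm_iter (m : ℕ) : Rm S T m = (Kh S T)^[m] (Rm S T 0) := by
  induction m with
  | zero => rfl
  | succ m ih =>
    rw [Function.iterate_succ_apply', ← ih]
    rfl

theorem Ka_tsum (g : ℕ → ℤ → ℝ≥0∞) (d : ℤ) :
    Ka S T (fun d => ∑' m, g m d) d = ∑' m, Ka S T (g m) d := by
  unfold Ka
  rw [ENNReal.tsum_comm]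
  refine tsum_congr fun b => ?_
  split_ifs
  · rw [← ENNReal.tsum_mul_left, ← ENNReal.tsum_mul_left]
  · simp

theorem PI_tsum_right (f : ℤ → ℝ≥0∞) (g : ℕ → ℤ → ℝ≥0∞) :
    PI f (fun d => ∑' m, g m d) = ∑' m, PI f (g m) := by
  unfold PI
  rw [ENNReal.tsum_comm]
  refine tsum_congr fun d => ?_
  rw [ENNReal.tsum_mul_left]

theorem PI_tsum_left (f : ℕ → ℤ → ℝ≥0∞) (g : ℤ → ℝ≥0∞) :
    PI (fun d => ∑' m, f m d) g = ∑' m, PI (f m) g := by
  unfold PI
  rw [ENNReal.tsum_comm]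
  refine tsum_congr fun d => ?_
  rw [ENNReal.tsum_mul_right]

theorem PI_add_right (f g h : ℤ → ℝ≥0∞) : PI f (g + h) = PI f g + PI f h := by
  unfold PI
  rw [← ENNReal.tsum_add]
  refine tsum_congr fun d => ?_
  rw [Pi.add_apply, mul_add]

theorem PI_sum_right (f : ℤ → ℝ≥0∞) (s : Finset ℕ) (g : ℕ → ℤ → ℝ≥0∞) :
    PI f (∑ j ∈ s, g j) = ∑ j ∈ s, PI f (g j) := by
  induction s using Finset.induction_on with
  | empty => simp [PI]
  | insert a s ha ih => rw [sum_insert ha, sum_insert ha, PI_add_right, ih]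

/-! ### symmetry -/

theorem fb_sb1 {d : ℤ} {b : Blk} (h : fb d b) : fb (d - (dv b).2.1) (sb b) := by
  obtain ⟨h1, h2, h3⟩ := h
  have hf := h1.fr
  have e2 : nxt (pt d) b = pt (d - (dv b).2.1) := nxt_pt hf h3 d
  have e3 : nxt (pt (d - (dv b).2.1)) (sb b) = pt d := by
    rw [← e2]
    exact nxt_sb hf rfl
  refine ⟨?_, irr_sb hf h2, h3.sb⟩
  have h4 := h1.sb
  rw [e2] at h4
  rw [e3]
  exact h4

theorem fb_sb {d : ℤ} {b : Blk} (hf : Fr b) (hp : PB b) :
    fb (d - (dv b).2.1) (sb b) ↔ fb d b := by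
  constructor
  · intro h
    have h1 := fb_sb1 h
    rw [sb_sb, dv_sb hf hp] at h1
    have e : d - (dv b).2.1 - -(dv b).2.1 = d := by ring
    rwa [e] at h1
  · exact fb_sb1

/-- the involution of the blocks -/
def sbe : Blk ≃ Blk := ⟨sb, sb, sb_sb, sb_sb⟩

theorem PI_symm (f g : ℤ → ℝ≥0∞) : PI f (Kh S T g) = PI (Kh S T f) g := by
  have h1 : PI f (Kh S T g) = ∑' b : Blk, ωb S b * T ^ (bl b + 2) *
      ∑' d : ℤ, (if fb d b then f d * g (d - (dv b).2.1) else 0) := by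
    unfold PI
    simp only [Kh_apply, ← ENNReal.tsum_mul_left]
    rw [ENNReal.tsum_comm]
    refine tsum_congr fun b => tsum_congr fun d => ?_
    split_ifs
    · ring
    · ring
  have h2 : PI (Kh S T f) g = ∑' b : Blk, ωb S b * T ^ (bl b + 2) *
      ∑' d : ℤ, (if fb d b then f (d - (dv b).2.1) * g d else 0) := by
    unfold PI
    simp only [Kh_apply, ← ENNReal.tsum_mul_left, ← ENNReal.tsum_mul_right]
    rw [ENNReal.tsum_comm]
    refine tsum_congr fun b => tsum_congr fun d => ?_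
    split_ifs
    · ring
    · ring
  rw [h1, h2, ← sbe.tsum_eq]
  refine tsum_congr fun b => ?_
  have e1 : ωb S (sbe b) = ωb S b := by
    show ωb S (sb b) = ωb S b
    unfold ωb
    rw [bl_sb, wd_sb]
  have e2 : bl (sbe b) = bl b := bl_sb b
  rw [e1, e2]
  congr 1
  show ∑' d : ℤ, (if fb d (sb b) then f d * g (d - (dv (sb b)).2.1) else 0) = _
  by_cases hb : Fr b ∧ PB b
  · obtain ⟨hf, hp⟩ := hb
    rw [← (Equiv.subRight (dv b).2.1).tsum_eq]
    refine tsum_congr fun d => ?_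
    show (if fb (d - (dv b).2.1) (sb b) then f (d - (dv b).2.1) *
      g (d - (dv b).2.1 - (dv (sb b)).2.1) else 0) = _
    rw [dv_sb hf hp]
    have e : d - (dv b).2.1 - -(dv b).2.1 = d := by ring
    rw [e]
    simp only [fb_sb hf hp]
  · have h3 : ∀ d, ¬ fb d b := fun d h => hb ⟨h.1.fr, h.2.2⟩
    have h4 : ∀ d, ¬ fb d (sb b) := by
      intro d h
      have h5 := fb_sb1 h
      rw [sb_sb] at h5
      exact h3 _ h5
    simp only [if_neg (h3 _), if_neg (h4 _)]

theorem PI_iter (f g : ℤ → ℝ≥0∞) (m : ℕ) :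
    PI f ((Kh S T)^[m] g) = PI ((Kh S T)^[m] f) g := by
  induction m generalizing f with
  | zero => rfl
  | succ m ih =>
    rw [Function.iterate_succ_apply', PI_symm, ih, Function.iterate_succ_apply]

/-! ### chains with areas -/

/-- the area of the chains with `m` blocks -/
def RmA (S T : ℝ≥0∞) (m : ℕ) (d : ℤ) : ℝ≥0∞ :=
  ∑' bs : List Blk, ∑' r : List Dir, (if ok (pt d) bs r ∧ bs.length = m then
    AE (Rw bs r) * wc S T bs r else 0)

theorem ra_of_vc {D E : Z3} {bs : List Blk} {r : List Dir} (h : VC D bs E) (hr : RA E r) :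
    RA D (Rw bs r) := by
  induction bs generalizing D with
  | nil => rw [show D = E from h]; exact hr
  | cons b bs ih =>
    obtain ⟨h1, h2⟩ := h
    exact h1.ra (ih h2)

theorem RmA_succ (m : ℕ) (d : ℤ) :
    RmA S T (m + 1) d = Ka S T (Rm S T m) d + Kh S T (RmA S T m) d := by
  rw [Kh_apply]
  unfold Ka
  rw [← ENNReal.tsum_add]
  unfold RmA
  rw [tsum_cons'' _ (by simp)]
  refine tsum_congr fun b => ?_
  by_cases h : fb d b
  · rw [if_pos h, if_pos h, ← chain_Rm, ← mul_add, ← ENNReal.tsum_mul_left, ← ENNReal.tsum_add,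
      ← ENNReal.tsum_mul_left]
    refine tsum_congr fun l => ?_
    rw [← ENNReal.tsum_mul_left, ← ENNReal.tsum_add, ← ENNReal.tsum_mul_left]
    refine tsum_congr fun r => ?_
    by_cases hc : ok (pt (d - (dv b).2.1)) l r ∧ l.length = m
    · rw [if_pos hc, if_pos hc, if_pos ⟨ok_cons.2 ⟨h, hc.1⟩, by rw [List.length_cons, hc.2]⟩]
      obtain ⟨⟨E, hv, hr⟩, -⟩ := hc.1
      have h1 : Pc (pt d) (pt (d - (dv b).2.1)) b := by
        have := h.1
        rwa [nxt_pt h.1.fr h.2.2] at this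
      have e := AE_Rw1 h1 (ra_of_vc hv hr)
      have e2 : (pt (d - (dv b).2.1)).2.1 = d - (dv b).2.1 := rfl
      rw [e2] at e
      show AE (Rw1 b (Rw l r)) * _ = _
      rw [e]
      unfold wc
      rw [wl_cons, ln_cons, pow_add T (bl b + 2)]
      ring
    · rw [if_neg hc, if_neg hc, mul_zero, add_zero, mul_zero, if_neg]
      rintro ⟨h1, h2⟩
      exact hc ⟨(ok_cons.1 h1).2, by simpa using h2⟩
  · rw [if_neg h, if_neg h, add_zero, ENNReal.tsum_eq_zero]
    intro l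
    rw [ENNReal.tsum_eq_zero]
    intro r
    rw [if_neg]
    rintro ⟨h1, -⟩
    exact h (ok_cons.1 h1).1

theorem RmA_eq (m : ℕ) : RmA S T m = (Kh S T)^[m] (RmA S T 0) +
    ∑ j ∈ range m, (Kh S T)^[j] (Ka S T (Rm S T (m - 1 - j))) := by
  induction m with
  | zero => simp
  | succ m ih =>
    have h1 : RmA S T (m + 1) = Ka S T (Rm S T m) + Kh S T (RmA S T m) := by
      funext d
      exact RmA_succ m d
    rw [h1, ih, map_add, map_sum, ← Function.iterate_succ_apply' (⇑(Kh S T)), sum_range_succ']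
    have e : ∀ j ∈ range m, Kh S T ((Kh S T)^[j] (Ka S T (Rm S T (m - 1 - j)))) =
        (Kh S T)^[j + 1] (Ka S T (Rm S T (m + 1 - 1 - (j + 1)))) := by
      intro j hj
      rw [Function.iterate_succ_apply']
      have : m - 1 - j = m + 1 - 1 - (j + 1) := by omega
      rw [this]
    rw [sum_congr rfl e]
    have e2 : (Kh S T)^[0] (Ka S T (Rm S T (m + 1 - 1 - 0))) = Ka S T (Rm S T m) := rfl
    rw [e2]
    abel

theorem tsum_triangle (a : ℕ → ℕ → ℝ≥0∞) :
    ∑' m : ℕ, ∑ j ∈ range m, a j (m - 1 - j) = ∑' j : ℕ, ∑' k : ℕ, a j k := by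
  rw [tsum_eq_zero_add' ENNReal.summable]
  simp only [range_zero, sum_empty, zero_add]
  have e : ∀ n : ℕ, ∑ j ∈ range (n + 1), a j (n + 1 - 1 - j) =
      ∑ p ∈ antidiagonal n, a p.1 p.2 := by
    intro n
    rw [Finset.Nat.sum_antidiagonal_eq_sum_range_succ a n]
    refine sum_congr rfl fun j _ => ?_
    congr 1
  simp only [e]
  rw [← ENNReal.tsum_prod, ← (Finset.HasAntidiagonal.sigmaAntidiagonalEquivProd (A := ℕ)).tsum_eq, ENNReal.tsum_sigma']
  refine tsum_congr fun n => ?_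
  rw [tsum_fintype]
  exact (Finset.sum_coe_sort (antidiagonal n) (fun p : ℕ × ℕ => a p.1 p.2)).symm

/-- the left caps with their area and their column -/
def LmA (S T : ℝ≥0∞) (d : ℤ) : ℝ≥0∞ :=
  ∑' l : List Dir, if Pl l ∧ LA (pt d) l ∧ IL l then
    (AE l + (d.natAbs : ℝ≥0∞)) * (ωa S l * T ^ (l.length + 1)) else 0

/-- the sum of the areas over the chains -/
theorem sum_RmA : ∑' m, PI (Lm S T) (RmA S T m) =
    PI (fun d => ∑' m, (Kh S T)^[m] (Lm S T) d) (Ka S T (fun d => ∑' m, Rm S T m d)) +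
    PI (Lm S T) (fun d => ∑' m, (Kh S T)^[m] (RmA S T 0) d) := by
  have h1 : ∀ m, PI (Lm S T) (RmA S T m) = PI (Lm S T) ((Kh S T)^[m] (RmA S T 0)) +
      ∑ j ∈ range m, PI (Lm S T) ((Kh S T)^[j] (Ka S T (Rm S T (m - 1 - j)))) := by
    intro m
    rw [RmA_eq, PI_add_right, PI_sum_right]
  simp only [h1]
  rw [ENNReal.tsum_add, ← PI_tsum_right, add_comm]
  congr 1
  rw [tsum_triangle (fun j k => PI (Lm S T) ((Kh S T)^[j] (Ka S T (Rm S T k)))), PI_tsum_left]
  refine tsum_congr fun j => ?_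
  have e : Ka S T (fun d => ∑' m, Rm S T m d) = fun d => ∑' m, Ka S T (Rm S T m) d := by
    funext d
    exact Ka_tsum _ d
  rw [e, PI_tsum_right]
  refine tsum_congr fun k => ?_
  rw [PI_iter]

/-- the sum of the areas over the decomposed polygons -/
theorem totalA (S T : ℝ≥0∞) : (∑' m : ℕ, PI (LmA S T) (Rm S T m)) +
    (∑' m : ℕ, PI (Lm S T) (RmA S T m)) =
    ∑' x : X3, (if (∃ D E, Vd x.1 x.2.1 x.2.2 D E) ∧ Pl (pw3 x) then
      AE (pw3 x) * wx S x * T ^ (pw3 x).length else 0) := by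
  have h1 : ∀ d : ℤ, ∑' m : ℕ, Rm S T m d =
      ∑' bs : List Blk, ∑' r : List Dir, (if ok (pt d) bs r then wc S T bs r else 0) := by
    intro d
    simp only [← chain_Rm]
    rw [ENNReal.tsum_comm]
    refine tsum_congr fun bs => ?_
    rw [ENNReal.tsum_comm]
    refine tsum_congr fun r => ?_
    by_cases h : ok (pt d) bs r
    · simp only [h, true_and, if_true]
      rw [tsum_eq_single bs.length]
      · simp
      · intro m hm
        rw [if_neg (fun h => hm h.symm)]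
    · simp [h]
  have h1' : ∀ d : ℤ, ∑' m : ℕ, RmA S T m d =
      ∑' bs : List Blk, ∑' r : List Dir, (if ok (pt d) bs r then
        AE (Rw bs r) * wc S T bs r else 0) := by
    intro d
    unfold RmA
    rw [ENNReal.tsum_comm]
    refine tsum_congr fun bs => ?_
    rw [ENNReal.tsum_comm]
    refine tsum_congr fun r => ?_
    by_cases h : ok (pt d) bs r
    · simp only [h, true_and, if_true]
      rw [tsum_eq_single bs.length]
      · simp
      · intro m hm
        rw [if_neg (fun h => hm h.symm)]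
    · simp [h]
  rw [← PI_tsum_right, ← PI_tsum_right]
  unfold PI
  simp only [h1, h1']
  rw [← ENNReal.tsum_add]
  have h2 : ∀ d : ℤ, (LmA S T d *
      ∑' bs : List Blk, ∑' r : List Dir, (if ok (pt d) bs r then wc S T bs r else 0)) +
      (Lm S T d * ∑' bs : List Blk, ∑' r : List Dir, (if ok (pt d) bs r then
        AE (Rw bs r) * wc S T bs r else 0)) =
      ∑' x : X3, (if (Pl x.1 ∧ LA (pt d) x.1 ∧ IL x.1) ∧ ok (pt d) x.2.1 x.2.2 then
        AE (pw3 x) * wx S x * T ^ (pw3 x).length else 0) := by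
    intro d
    unfold Lm LmA
    rw [ENNReal.tsum_prod', ← ENNReal.tsum_mul_right, ← ENNReal.tsum_mul_right,
      ← ENNReal.tsum_add]
    refine tsum_congr fun l => ?_
    rw [ENNReal.tsum_prod', ← ENNReal.tsum_mul_left, ← ENNReal.tsum_mul_left,
      ← ENNReal.tsum_add]
    refine tsum_congr fun bs => ?_
    rw [← ENNReal.tsum_mul_left, ← ENNReal.tsum_mul_left, ← ENNReal.tsum_add]
    refine tsum_congr fun r => ?_
    by_cases ha : Pl l ∧ LA (pt d) l ∧ IL l
    · by_cases hb : ok (pt d) bs r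
      · rw [if_pos ha, if_pos ha, if_pos hb, if_pos hb]
        refine Eq.trans ?_ (if_pos ⟨ha, hb⟩).symm
        obtain ⟨⟨E, hv, hr⟩, -⟩ := hb
        have e0 : AE (pw3 (l, bs, r)) = AE l + (d.natAbs : ℝ≥0∞) + AE (Rw bs r) :=
          AE_poly ha.2.1 (ra_of_vc hv hr)
        rw [len_pw3, e0]
        unfold wc wx
        have e : l.length + r.length + 2 + ln bs = (l.length + 1) + (ln bs + (r.length + 1)) := by
          ring
        simp only
        rw [e, pow_add T (l.length + 1), pow_add T (ln bs)]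
        ring
      · rw [if_neg hb, if_neg hb, mul_zero, mul_zero, add_zero]
        exact (if_neg (fun h => hb h.2)).symm
    · rw [if_neg ha, if_neg ha, zero_mul, zero_mul, add_zero]
      exact (if_neg (fun h => ha h.1)).symm
  simp only [h2]
  rw [ENNReal.tsum_comm]
  refine tsum_congr fun x => ?_
  rw [tsum_eq_single (-(pos x.1).2.1)]
  · by_cases h : (∃ D E, Vd x.1 x.2.1 x.2.2 D E) ∧ Pl (pw3 x)
    · rw [if_pos h, if_pos (vd_iff.1 h)]
    · rw [if_neg h, if_neg (fun h' => h (vd_iff.2 h'))]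
  · intro d hd
    rw [if_neg]
    rintro ⟨⟨-, h, -⟩, -⟩
    exact hd (la_unique h)

/-- the coefficients of the area generating function -/
def AnA (S : ℝ≥0∞) (n : ℕ) : ℝ≥0∞ :=
  ∑' x : X3, if (∃ D E, Vd x.1 x.2.1 x.2.2 D E) ∧ (pw3 x).length = n ∧ Pl (pw3 x) then
    AE (pw3 x) * wx S x else 0

theorem AnA_sum (S T : ℝ≥0∞) : ∑' n : ℕ, AnA S n * T ^ n =
    ∑' x : X3, (if (∃ D E, Vd x.1 x.2.1 x.2.2 D E) ∧ Pl (pw3 x) then
      AE (pw3 x) * wx S x * T ^ (pw3 x).length else 0) := by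
  unfold AnA
  simp only [← ENNReal.tsum_mul_right]
  rw [ENNReal.tsum_comm]
  refine tsum_congr fun x => ?_
  by_cases h : (∃ D E, Vd x.1 x.2.1 x.2.2 D E) ∧ Pl (pw3 x)
  · rw [if_pos h, tsum_eq_single (pw3 x).length]
    · rw [if_pos ⟨h.1, rfl, h.2⟩]
    · intro n hn
      rw [if_neg (fun h => hn h.2.1.symm), zero_mul]
  · rw [if_neg h, ENNReal.tsum_eq_zero]
    intro n
    rw [if_neg (fun h' => h ⟨h'.1, h'.2.2⟩), zero_mul]

/-- the area generating function as a sum of pairings -/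
theorem AnA_pair (S T : ℝ≥0∞) : ∑' n : ℕ, AnA S n * T ^ n =
    PI (fun d => ∑' m, (Kh S T)^[m] (Lm S T) d) (Ka S T (fun d => ∑' m, Rm S T m d)) +
    PI (LmA S T) (fun d => ∑' m, Rm S T m d) +
    PI (Lm S T) (fun d => ∑' m, (Kh S T)^[m] (RmA S T 0) d) := by
  rw [AnA_sum, ← totalA, sum_RmA, ← PI_tsum_right]
  ring

end

end KN.SQ
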