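import Pool.Agent.H132.SQ.Ar3

/-!
# The area generating function
-/

set_option autoImplicit false

namespace KN.SQ

open KN KN.ST Finset Filter Topology
open scoped Classical ENNReal ComplexOrder

noncomputable section

/-- the vector has the nonnegative values `g` -/
def RV (f : H) (g : ℤ → ℝ≥0∞) : Prop :=
  ∀ d, ∃ y : ℝ, 0 ≤ y ∧ f d = (y : ℂ) ∧ ENNReal.ofReal y = g d

theorem RV.pair {f h : H} {g k : ℤ → ℝ≥0∞} (h1 : RV f g) (h2 : RV h k) :
    ∃ y : ℝ, 0 ≤ y ∧ B f h = (y : ℂ) ∧ ENNReal.ofReal y = PI g k := by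
  choose y hy0 hy1 hy2 using h1
  choose z hz0 hz1 hz2 using h2
  have hB : HasSum (fun d => ((y d * z d : ℝ) : ℂ)) (B f h) := by
    refine (B_summable f h).hasSum.congr_fun'' fun d => ?_
    rw [hy1, hz1]; push_cast; ring
  have hs := Complex.summable_ofReal.1 hB.summable
  have hnn : ∀ d, 0 ≤ y d * z d := fun d => mul_nonneg (hy0 d) (hz0 d)
  refine ⟨∑' d, y d * z d, tsum_nonneg hnn, ?_, ?_⟩
  · rw [← hB.tsum_eq]; exact (Complex.ofReal_tsum _).symm
  · rw [ENNReal.ofReal_tsum_of_nonneg hnn hs]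
    refine tsum_congr fun d => ?_
    rw [ENNReal.ofReal_mul (hy0 d), hy2, hz2]

theorem RV.sum {f : ℕ → H} {g : ℕ → ℤ → ℝ≥0∞} (h : ∀ m, RV (f m) (g m)) {F : H}
    (hF : HasSum f F) : RV F (fun d => ∑' m, g m d) := by
  intro d
  choose y hy0 hy1 hy2 using fun m => h m d
  have h1 : HasSum (fun m => f m d) (F d) := ContinuousLinearMap.hasSum (ev d) hF
  have h2 : HasSum (fun m => ((y m : ℝ) : ℂ)) (F d) :=
    h1.congr_fun'' fun m => (hy1 m).symm
  have hs := Complex.summable_ofReal.1 h2.summable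
  refine ⟨∑' m, y m, tsum_nonneg hy0, ?_, ?_⟩
  · rw [← h2.tsum_eq]; exact (Complex.ofReal_tsum _).symm
  · rw [ENNReal.ofReal_tsum_of_nonneg hy0 hs]
    exact tsum_congr hy2

section real

variable {s : ℝ} (hs : Wok s) {t : ℝ}

theorem RV.K (ht : 0 ≤ t) (ht2 : t ≤ 2) {f : H} {g : ℤ → ℝ≥0∞} (h : RV f g) (g0 : g 0 = 0) :
    RV ((MM s hs).K (t : ℂ) f) (Kh (ENNReal.ofReal s) (ENNReal.ofReal t) g) := by
  have hn : ‖(t : ℂ)‖ ≤ 2 := by
    rw [Complex.norm_real, Real.norm_eq_abs, abs_of_nonneg ht]; exact ht2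
  intro d
  choose y hy0 hy1 hy2 using h
  by_cases hd : d = 0
  · subst hd
    refine ⟨0, le_rfl, ?_, ?_⟩
    · rw [Mdl.K_apply, Mdl.N_zero hn]
      have h1 : f 0 = 0 := by
        rw [hy1]
        have h2 := hy2 0
        rw [g0, ENNReal.ofReal_eq_zero] at h2
        rw [le_antisymm h2 (hy0 0)]
        simp
      rw [h1]; simp
    · rw [Kh_at_zero]; simp
  · have hN := (MM s hs).N_hasSum hn f d
    have e1 : ∀ b : (MM s hs).ι, (MM s hs).w (t : ℂ) b *
        (if (MM s hs).P b d then f (d - (MM s hs).v b) else 0) =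
        (((MM s hs).c b * t ^ ((MM s hs).L b + 2) *
          (if (MM s hs).P b d then y (d - (MM s hs).v b) else 0) : ℝ) : ℂ) := by
      intro b
      unfold Mdl.w
      split_ifs
      · rw [hy1]; push_cast; ring
      · simp
    simp only [e1] at hN
    have hsum : Summable fun b : (MM s hs).ι => (MM s hs).c b * t ^ ((MM s hs).L b + 2) *
          (if (MM s hs).P b d then y (d - (MM s hs).v b) else 0) :=
      Complex.summable_ofReal.1 hN.summable
    have h0 : ∀ b : (MM s hs).ι, 0 ≤ (MM s hs).c b * t ^ ((MM s hs).L b + 2) *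
          (if (MM s hs).P b d then y (d - (MM s hs).v b) else 0) := by
      intro b
      refine mul_nonneg (mul_nonneg ((MM s hs).c0 b) (pow_nonneg ht _)) ?_
      split_ifs
      · exact hy0 _
      · exact le_rfl
    refine ⟨t ^ 2 * y d + ∑' b : (MM s hs).ι, (MM s hs).c b * t ^ ((MM s hs).L b + 2) *
          (if (MM s hs).P b d then y (d - (MM s hs).v b) else 0),
      add_nonneg (mul_nonneg (sq_nonneg _) (hy0 d)) (tsum_nonneg h0), ?_, ?_⟩
    · rw [Mdl.K_apply, hy1, ← hN.tsum_eq, ← Complex.ofReal_tsum]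
      push_cast
      rfl
    · rw [ENNReal.ofReal_add (mul_nonneg (sq_nonneg _) (hy0 d)) (tsum_nonneg h0),
        ENNReal.ofReal_tsum_of_nonneg h0 hsum, Kh_apply, fb_split hd]
      congr 1
      · have e2 : d - (dv S0).2.1 = d := by simp [dv, S0, pos]
        have e3 : ωb (ENNReal.ofReal s) S0 = 1 := by simp [ωb, S0, bl, wd, pos]
        have e4 : bl S0 = 0 := by simp [S0, bl]
        rw [e2, e3, e4, one_mul, zero_add, ENNReal.ofReal_mul (sq_nonneg _),
          ENNReal.ofReal_pow ht, hy2]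
      · refine tsum_congr fun b => ?_
        have hc : (MM s hs).c b = s ^ (4 * bl b.1 - 8 * wd b.1) := rfl
        have hL : (MM s hs).L b = bl b.1 := rfl
        have hv : (MM s hs).v b = (dv b.1).2.1 := rfl
        have hP : (MM s hs).P b d ↔ Pc (pt d) (nxt (pt d) b.1) b.1 := Iff.rfl
        rw [hc, hL, hv]
        by_cases hp : Pc (pt d) (nxt (pt d) b.1) b.1
        · rw [if_pos hp, if_pos (hP.2 hp), ENNReal.ofReal_mul (mul_nonneg
            (pow_nonneg hs.1.le _) (pow_nonneg ht _)), ENNReal.ofReal_mul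
            (pow_nonneg hs.1.le _), ofReal_ωb hs.1, ENNReal.ofReal_pow ht, hy2]
        · rw [if_neg hp, if_neg (fun h => hp (hP.1 h)), mul_zero, ENNReal.ofReal_zero]

theorem nv_nil (c j : ℤ) : nv [] c j = 0 := rfl

theorem AB_S0 (d : ℤ) : AB S0 d = 0 := by
  unfold AB S0
  simp only [nv_nil, add_zero, od_zero]
  exact tsum_zero

/-- the kernel of the areas -/
theorem RV.A (ht : 0 ≤ t) (ht2 : t ≤ 2) {f : H} {g : ℤ → ℝ≥0∞} (h : RV f g) (g0 : g 0 = 0)
    (hf : Wt f) : RV ((KK s hs).T0 (t : ℂ) f + (KK s hs).T1 (t : ℂ) (xf f))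
      (Ka (ENNReal.ofReal s) (ENNReal.ofReal t) g) := by
  have hn : ‖(t : ℂ)‖ ≤ 2 := by
    rw [Complex.norm_real, Real.norm_eq_abs, abs_of_nonneg ht]; exact ht2
  intro d
  choose y hy0 hy1 hy2 using h
  have hN := (KK s hs).ker_val hn hf d
  have e1 : ∀ b : (MM s hs).ι, (MM s hs).w (t : ℂ) b *
      (if (MM s hs).P b d then ((KK s hs).ar b d : ℂ) * f (d - (MM s hs).v b) else 0) =
      (((MM s hs).c b * t ^ ((MM s hs).L b + 2) *
        (if (MM s hs).P b d then (KK s hs).ar b d * y (d - (MM s hs).v b) else 0) : ℝ) : ℂ) := by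
    intro b
    unfold Mdl.w
    split_ifs
    · rw [hy1]; push_cast; ring
    · simp
  simp only [e1] at hN
  have hsum : Summable fun b : (MM s hs).ι => (MM s hs).c b * t ^ ((MM s hs).L b + 2) *
        (if (MM s hs).P b d then (KK s hs).ar b d * y (d - (MM s hs).v b) else 0) :=
    Complex.summable_ofReal.1 hN.summable
  have har : ∀ b : (MM s hs).ι, 0 ≤ (KK s hs).ar b d := fun b =>
    add_nonneg ENNReal.toReal_nonneg (Nat.cast_nonneg _)
  have h0 : ∀ b : (MM s hs).ι, 0 ≤ (MM s hs).c b * t ^ ((MM s hs).L b + 2) *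
        (if (MM s hs).P b d then (KK s hs).ar b d * y (d - (MM s hs).v b) else 0) := by
    intro b
    refine mul_nonneg (mul_nonneg ((MM s hs).c0 b) (pow_nonneg ht _)) ?_
    split_ifs
    · exact mul_nonneg (har b) (hy0 _)
    · exact le_rfl
  have hval : ((KK s hs).T0 (t : ℂ) f + (KK s hs).T1 (t : ℂ) (xf f)) d =
      ((t ^ 2 * (d.natAbs * y d) + ∑' b : (MM s hs).ι, (MM s hs).c b *
        t ^ ((MM s hs).L b + 2) * (if (MM s hs).P b d then (KK s hs).ar b d *
          y (d - (MM s hs).v b) else 0) : ℝ) : ℂ) := by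
    have h2 := hN.tsum_eq
    rw [← Complex.ofReal_tsum, hy1] at h2
    push_cast at h2 ⊢
    rw [h2]
    ring
  by_cases hd : d = 0
  · subst hd
    refine ⟨0, le_rfl, ?_, ?_⟩
    · rw [hval]
      have h3 : ∀ b : (MM s hs).ι, (MM s hs).c b * t ^ ((MM s hs).L b + 2) *
        (if (MM s hs).P b 0 then (KK s hs).ar b 0 * y (0 - (MM s hs).v b) else 0) = 0 := by
        intro b
        rw [if_neg ((MM s hs).P0 b), mul_zero]
      simp only [h3, tsum_zero]
      simp
    · rw [Ka_at_zero]; simp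
  · refine ⟨_, add_nonneg (mul_nonneg (sq_nonneg _) (mul_nonneg (Nat.cast_nonneg _) (hy0 d)))
      (tsum_nonneg h0), hval, ?_⟩
    rw [ENNReal.ofReal_add (mul_nonneg (sq_nonneg _) (mul_nonneg (Nat.cast_nonneg _) (hy0 d)))
      (tsum_nonneg h0), ENNReal.ofReal_tsum_of_nonneg h0 hsum]
    unfold Ka
    rw [fb_split hd]
    congr 1
    · have e2 : d - (dv S0).2.1 = d := by simp [dv, S0, pos]
      have e3 : ωb (ENNReal.ofReal s) S0 = 1 := by simp [ωb, S0, bl, wd, pos]
      have e4 : bl S0 = 0 := by simp [S0, bl]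
      rw [e2, e3, e4, AB_S0, one_mul, zero_add, zero_add, ENNReal.ofReal_mul (sq_nonneg _),
        ENNReal.ofReal_pow ht, ENNReal.ofReal_mul (Nat.cast_nonneg _), hy2,
        ENNReal.ofReal_natCast]
    · refine tsum_congr fun b => ?_
      have hc : (MM s hs).c b = s ^ (4 * bl b.1 - 8 * wd b.1) := rfl
      have hL : (MM s hs).L b = bl b.1 := rfl
      have hv : (MM s hs).v b = (dv b.1).2.1 := rfl
      have hP : (MM s hs).P b d ↔ Pc (pt d) (nxt (pt d) b.1) b.1 := Iff.rfl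
      have hA : (KK s hs).ar b d = (AB b.1 (d - (dv b.1).2.1)).toReal +
        ((d - (dv b.1).2.1).natAbs : ℝ) := rfl
      rw [hc, hL, hv]
      by_cases hp : Pc (pt d) (nxt (pt d) b.1) b.1
      · have hfin := (AB_bd hp b.2.2.1 b.2.2.2.1).1
        rw [if_pos hp, if_pos (hP.2 hp), ENNReal.ofReal_mul (mul_nonneg
          (pow_nonneg hs.1.le _) (pow_nonneg ht _)), ENNReal.ofReal_mul
          (pow_nonneg hs.1.le _), ofReal_ωb hs.1, ENNReal.ofReal_pow ht,
          ENNReal.ofReal_mul (har b), hy2, hA, ENNReal.ofReal_add ENNReal.toReal_nonneg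
          (Nat.cast_nonneg _), ENNReal.ofReal_toReal hfin, ENNReal.ofReal_natCast]
      · rw [if_neg hp, if_neg (fun h => hp (hP.1 h)), mul_zero, ENNReal.ofReal_zero]

theorem Kh_iter_zero {S T : ℝ≥0∞} {g : ℤ → ℝ≥0∞} (g0 : g 0 = 0) (m : ℕ) :
    (Kh S T)^[m] g 0 = 0 := by
  cases m with
  | zero => exact g0
  | succ m =>
    rw [Function.iterate_succ_apply']
    exact Kh_at_zero _

theorem RV.iter (ht : 0 ≤ t) (ht2 : t ≤ 2) {f : H} {g : ℤ → ℝ≥0∞} (h : RV f g)
    (g0 : g 0 = 0) (m : ℕ) :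
    RV (((MM s hs).K (t : ℂ) ^ m) f) ((Kh (ENNReal.ofReal s) (ENNReal.ofReal t))^[m] g) := by
  induction m with
  | zero => simpa using h
  | succ m ih =>
    rw [Function.iterate_succ_apply', pow_succ']
    exact RV.K hs ht ht2 ih (Kh_iter_zero g0 m)

theorem RV.G (ht : 0 ≤ t) (ht1 : t < (MM s hs).qc) {f : H} {g : ℤ → ℝ≥0∞} (h : RV f g)
    (g0 : g 0 = 0) : RV ((MM s hs).G (t : ℂ) f)
      (fun d => ∑' m, (Kh (ENNReal.ofReal s) (ENNReal.ofReal t))^[m] g d) := by
  have hqc := (MM s hs).qc_lt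
  have hlt : ‖(t : ℂ)‖ < (MM s hs).qc := by
    rw [Complex.norm_real, Real.norm_eq_abs, abs_of_nonneg ht]; exact ht1
  have h3 := (MM s hs).G_series hlt
  have h4 := (ContinuousLinearMap.hasSum (ContinuousLinearMap.apply ℂ H f) h3)
  exact RV.sum (fun m => RV.iter hs ht (by linarith) h g0 m) h4

/-! ### the caps -/

theorem RV_CR (ht : 0 ≤ t) (ht2 : t ≤ 2) :
    RV ((CR s hs).cv (t : ℂ)) (Rm (ENNReal.ofReal s) (ENNReal.ofReal t) 0) := by
  intro d
  obtain ⟨y, h0, h1, h2⟩ := fm_val hs ht ht2 0 d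
  refine ⟨y, h0, ?_, h2⟩
  have : fm s hs t 0 = (CR s hs).cv (t : ℂ) := by
    unfold fm
    rw [pow_zero]
    rfl
  rw [this] at h1
  exact h1

theorem RmA_zero (S T : ℝ≥0∞) (d : ℤ) : RmA S T 0 d = ∑' r : List Dir,
    if Pl r ∧ RA (pt d) r ∧ IR r then AE r * (ωa S r * T ^ (r.length + 1)) else 0 := by
  unfold RmA
  rw [tsum_eq_single []]
  · simp only [ok_nil, List.length_nil, and_true]
    refine tsum_congr fun r => ?_
    simp [wc, wl, ln, Rw]
  · intro bs hbs
    rw [ENNReal.tsum_eq_zero]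
    intro r
    rw [if_neg]
    rintro ⟨-, h⟩
    exact hbs (List.length_eq_zero_iff.1 h)

theorem RV_CR' (ht : 0 ≤ t) (ht2 : t ≤ 2) :
    RV ((CR' s hs).cv (t : ℂ)) (RmA (ENNReal.ofReal s) (ENNReal.ofReal t) 0) := by
  intro d
  obtain ⟨y, h1, h2, h3⟩ := cap_val (CR' s hs) ht ht2 d
  refine ⟨y, h1, h2, ?_⟩
  rw [h3, RmA_zero]
  have e : ∀ r : {r : List Dir // RC r}, (if (CR' s hs).x r = d then
      ENNReal.ofReal ((CR' s hs).a r * t ^ (CR' s hs).m r) else 0) =
      (fun r : List Dir => if Pl r ∧ RA (pt d) r ∧ IR r then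
        AE r * (ωa (ENNReal.ofReal s) r * ENNReal.ofReal t ^ (r.length + 1)) else 0) r.1 := by
    rintro ⟨r, hr⟩
    have hx : (CR' s hs).x (⟨r, hr⟩ : {r : List Dir // RC r}) = (pos r).2.1 := rfl
    have ha : (CR' s hs).a (⟨r, hr⟩ : {r : List Dir // RC r}) =
      s ^ (4 * r.length - 8 * xt r) * (AE r).toReal := rfl
    have hm : (CR' s hs).m (⟨r, hr⟩ : {r : List Dir // RC r}) = r.length + 1 := rfl
    rw [hx, ha, hm]
    simp only
    by_cases hd : (pos r).2.1 = d
    · have hp : pos r = pt d := by rw [← hd]; exact hr.pt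
      have hfin := AE_ne hr.x0
      obtain ⟨k1, D, k2, k3⟩ := hr
      have hD : D = pt d := by rw [← k2.en, hp]
      rw [if_pos hd, if_pos ⟨k1, hD ▸ k2, k3⟩, ENNReal.ofReal_mul (mul_nonneg
        (pow_nonneg hs.1.le _) ENNReal.toReal_nonneg), ENNReal.ofReal_mul
        (pow_nonneg hs.1.le _), ofReal_ωa hs.1, ENNReal.ofReal_pow ht,
        ENNReal.ofReal_toReal hfin]
      ring
    · rw [if_neg hd, if_neg]
      rintro ⟨k1, k2, k3⟩
      apply hd
      rw [k2.en]; rfl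
  refine (tsum_congr e).trans ?_
  refine (tsum_subtype {r : List Dir | RC r} (fun r : List Dir => if Pl r ∧ RA (pt d) r ∧ IR r then
        AE r * (ωa (ENNReal.ofReal s) r * ENNReal.ofReal t ^ (r.length + 1)) else 0)).trans ?_
  refine tsum_congr fun r => ?_
  by_cases hr : r ∈ {r : List Dir | RC r}
  · rw [Set.indicator_of_mem hr]
  · rw [Set.indicator_of_notMem hr, if_neg]
    rintro ⟨k1, k2, k3⟩
    exact hr ⟨k1, _, k2, k3⟩

theorem RV_CL (ht : 0 ≤ t) (ht2 : t ≤ 2) :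
    RV ((CL s hs).cv (t : ℂ)) (Lm (ENNReal.ofReal s) (ENNReal.ofReal t)) := by
  intro d
  obtain ⟨y, h1, h2, h3⟩ := cap_val (CL s hs) ht ht2 d
  refine ⟨y, h1, h2, ?_⟩
  rw [h3]
  unfold Lm
  have e : ∀ r : {r : List Dir // LC r}, (if (CL s hs).x r = d then
      ENNReal.ofReal ((CL s hs).a r * t ^ (CL s hs).m r) else 0) =
      (fun r : List Dir => if Pl r ∧ LA (pt d) r ∧ IL r then
        ωa (ENNReal.ofReal s) r * ENNReal.ofReal t ^ (r.length + 1) else 0) r.1 := by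
    rintro ⟨r, hr⟩
    have hx : (CL s hs).x (⟨r, hr⟩ : {r : List Dir // LC r}) = -(pos r).2.1 := rfl
    have ha : (CL s hs).a (⟨r, hr⟩ : {r : List Dir // LC r}) =
      s ^ (4 * r.length - 8 * xt r) := rfl
    have hm : (CL s hs).m (⟨r, hr⟩ : {r : List Dir // LC r}) = r.length + 1 := rfl
    rw [hx, ha, hm]
    simp only
    by_cases hd : -(pos r).2.1 = d
    · have hp : pos r = -pt d := by rw [← hd]; exact hr.pt
      obtain ⟨k1, D, k2, k3⟩ := hr
      have hD : D = pt d := by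
        have := k2.en
        rw [hp] at this
        exact (neg_injective this).symm
      rw [if_pos hd, if_pos ⟨k1, hD ▸ k2, k3⟩, ENNReal.ofReal_mul (pow_nonneg hs.1.le _),
        ofReal_ωa hs.1, ENNReal.ofReal_pow ht]
    · rw [if_neg hd, if_neg]
      rintro ⟨k1, k2, k3⟩
      exact hd (la_unique k2).symm
  refine (tsum_congr e).trans ?_
  refine (tsum_subtype {r : List Dir | LC r} (fun r : List Dir => if Pl r ∧ LA (pt d) r ∧ IL r then
        ωa (ENNReal.ofReal s) r * ENNReal.ofReal t ^ (r.length + 1) else 0)).trans ?_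
  refine tsum_congr fun r => ?_
  by_cases hr : r ∈ {r : List Dir | LC r}
  · rw [Set.indicator_of_mem hr]
  · rw [Set.indicator_of_notMem hr, if_neg]
    rintro ⟨k1, k2, k3⟩
    exact hr ⟨k1, _, k2, k3⟩

theorem RV_CL' (ht : 0 ≤ t) (ht2 : t ≤ 2) :
    RV ((CL' s hs).cv (t : ℂ)) (LmA (ENNReal.ofReal s) (ENNReal.ofReal t)) := by
  intro d
  obtain ⟨y, h1, h2, h3⟩ := cap_val (CL' s hs) ht ht2 d
  refine ⟨y, h1, h2, ?_⟩
  rw [h3]
  unfold LmA
  have e : ∀ r : {r : List Dir // LC r}, (if (CL' s hs).x r = d then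
      ENNReal.ofReal ((CL' s hs).a r * t ^ (CL' s hs).m r) else 0) =
      (fun r : List Dir => if Pl r ∧ LA (pt d) r ∧ IL r then
        (AE r + (d.natAbs : ℝ≥0∞)) * (ωa (ENNReal.ofReal s) r *
          ENNReal.ofReal t ^ (r.length + 1)) else 0) r.1 := by
    rintro ⟨r, hr⟩
    have hx : (CL' s hs).x (⟨r, hr⟩ : {r : List Dir // LC r}) = -(pos r).2.1 := rfl
    have ha : (CL' s hs).a (⟨r, hr⟩ : {r : List Dir // LC r}) =
      s ^ (4 * r.length - 8 * xt r) * ac r := rfl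
    have hm : (CL' s hs).m (⟨r, hr⟩ : {r : List Dir // LC r}) = r.length + 1 := rfl
    rw [hx, ha, hm]
    simp only
    by_cases hd : -(pos r).2.1 = d
    · have hp : pos r = -pt d := by rw [← hd]; exact hr.pt
      have hfin := AE_ne hr.x0
      obtain ⟨k1, D, k2, k3⟩ := hr
      have hD : D = pt d := by
        have := k2.en
        rw [hp] at this
        exact (neg_injective this).symm
      have hna : (pos r).2.1.natAbs = d.natAbs := by omega
      rw [if_pos hd, if_pos ⟨k1, hD ▸ k2, k3⟩, ENNReal.ofReal_mul (mul_nonneg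
        (pow_nonneg hs.1.le _) (ac_nonneg _)), ENNReal.ofReal_mul
        (pow_nonneg hs.1.le _), ofReal_ωa hs.1, ENNReal.ofReal_pow ht]
      unfold ac
      rw [hna, ENNReal.ofReal_add ENNReal.toReal_nonneg (Nat.cast_nonneg _),
        ENNReal.ofReal_toReal hfin, ENNReal.ofReal_natCast]
      ring
    · rw [if_neg hd, if_neg]
      rintro ⟨k1, k2, k3⟩
      exact hd (la_unique k2).symm
  refine (tsum_congr e).trans ?_
  refine (tsum_subtype {r : List Dir | LC r} (fun r : List Dir => if Pl r ∧ LA (pt d) r ∧ IL r then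
        (AE r + (d.natAbs : ℝ≥0∞)) * (ωa (ENNReal.ofReal s) r *
          ENNReal.ofReal t ^ (r.length + 1)) else 0)).trans ?_
  refine tsum_congr fun r => ?_
  by_cases hr : r ∈ {r : List Dir | LC r}
  · rw [Set.indicator_of_mem hr]
  · rw [Set.indicator_of_notMem hr, if_neg]
    rintro ⟨k1, k2, k3⟩
    exact hr ⟨k1, _, k2, k3⟩

theorem Lm_zero (S T : ℝ≥0∞) : Lm S T 0 = 0 := by
  unfold Lm
  rw [ENNReal.tsum_eq_zero]
  intro r
  rw [if_neg]
  rintro ⟨-, h, -⟩
  exact h.ne rfl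

theorem RmA_at_zero (S T : ℝ≥0∞) : RmA S T 0 0 = 0 := by
  rw [RmA_zero, ENNReal.tsum_eq_zero]
  intro r
  rw [if_neg]
  rintro ⟨-, h, -⟩
  exact h.ne rfl

/-- the area generating function on the real line -/
theorem TF_val (ht : 0 ≤ t) (ht1 : t < (MM s hs).qc) : ∃ y : ℝ, 0 ≤ y ∧
    (KK s hs).TF (CL s hs) (CR s hs) (CL' s hs) (CR' s hs) (t : ℂ) = (y : ℂ) ∧
    ENNReal.ofReal y = ∑' n : ℕ, AnA (ENNReal.ofReal s) n * ENNReal.ofReal t ^ n := by
  have hqc := (MM s hs).qc_lt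
  have ht2 : t ≤ 2 := by linarith
  set S := ENNReal.ofReal s with hS
  set T := ENNReal.ofReal t with hT
  have hU : (t : ℂ) ∈ (MM s hs).U := by
    refine Ker.VV_sub (MM s hs) ⟨?_, ?_⟩
    · rw [Complex.norm_real, Real.norm_eq_abs, abs_of_nonneg ht]; exact ht1
    · rw [Complex.ofReal_re]; linarith
  have hL : RV ((MM s hs).sol (CL s hs) (t : ℂ)) (fun d => ∑' m, (Kh S T)^[m] (Lm S T) d) :=
    RV.G hs ht ht1 (RV_CL hs ht ht2) (Lm_zero _ _)
  have hR : RV ((MM s hs).sol (CR s hs) (t : ℂ)) (fun d => ∑' m, Rm S T m d) := by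
    have h1 := RV.G hs ht ht1 (RV_CR hs ht ht2) (Rm_zero _ _ _)
    have e : (fun d => ∑' m, Rm S T m d) = fun d => ∑' m, (Kh S T)^[m] (Rm S T 0) d := by
      funext d
      refine tsum_congr fun m => ?_
      rw [Rm_iter]
    rw [e]
    exact h1
  have hR' : RV ((MM s hs).sol (CR' s hs) (t : ℂ))
      (fun d => ∑' m, (Kh S T)^[m] (RmA S T 0) d) :=
    RV.G hs ht ht1 (RV_CR' hs ht ht2) (RmA_at_zero _ _)
  have hRz : (fun d => ∑' m, Rm S T m d) 0 = 0 := by
    simp only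
    rw [ENNReal.tsum_eq_zero]
    intro m
    exact Rm_zero _ _ _
  have hA := RV.A hs ht ht2 hR hRz (Mdl.sol_wt hU)
  obtain ⟨y1, k1, k2, k3⟩ := hL.pair hA
  obtain ⟨y2, k4, k5, k6⟩ := (RV_CL' hs ht ht2).pair hR
  obtain ⟨y3, k7, k8, k9⟩ := (RV_CL hs ht ht2).pair hR'
  refine ⟨y1 + y2 + y3, by positivity, ?_, ?_⟩
  · have e1 : (KK s hs).AF (CL s hs) (CR s hs) (t : ℂ) = (y1 : ℂ) := k2
    have e2 : (MM s hs).F (CL' s hs) (CR s hs) (t : ℂ) = (y2 : ℂ) := k5
    have e3 : (MM s hs).F (CL s hs) (CR' s hs) (t : ℂ) = (y3 : ℂ) := k8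
    unfold Ker.TF
    rw [e1, e2, e3]
    push_cast
    rfl
  · rw [AnA_pair, ENNReal.ofReal_add (by positivity) k7, ENNReal.ofReal_add k1 k4, k3, k6, k9]

include hs in
theorem AnA_fin (n : ℕ) : AnA (ENNReal.ofReal s) n ≠ ⊤ := by
  have hqc := (MM s hs).qc_ge
  obtain ⟨y, -, -, h⟩ := TF_val hs (t := 1 / 2) (by norm_num) (by linarith)
  intro htop
  have h1 : ∑' n : ℕ, AnA (ENNReal.ofReal s) n * ENNReal.ofReal (1 / 2) ^ n = ⊤ := by
    refine ENNReal.tsum_eq_top_of_eq_top ⟨n, ?_⟩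
    rw [htop, ENNReal.top_mul]
    exact pow_ne_zero _ (by simp)
  rw [h1] at h
  exact ENNReal.ofReal_ne_top h

/-- the coefficients as real numbers -/
def anA (s : ℝ) (n : ℕ) : ℝ := (AnA (ENNReal.ofReal s) n).toReal

theorem anA_hasSum_real (ht : 0 ≤ t) (ht1 : t < (MM s hs).qc) :
    HasSum (fun n => (anA s n : ℂ) * (t : ℂ) ^ n)
      ((KK s hs).TF (CL s hs) (CR s hs) (CL' s hs) (CR' s hs) (t : ℂ)) := by
  obtain ⟨y, h0, h1, h2⟩ := TF_val hs ht ht1
  have h3 : ∀ n, AnA (ENNReal.ofReal s) n * ENNReal.ofReal t ^ n =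
      ENNReal.ofReal (anA s n * t ^ n) := by
    intro n
    unfold anA
    rw [ENNReal.ofReal_mul ENNReal.toReal_nonneg, ENNReal.ofReal_toReal (AnA_fin hs n),
      ENNReal.ofReal_pow ht]
  simp only [h3] at h2
  have hnn : ∀ n, 0 ≤ anA s n * t ^ n := fun n => mul_nonneg ENNReal.toReal_nonneg (pow_nonneg ht _)
  have hne : ∑' n : ℕ, ENNReal.ofReal (anA s n * t ^ n) ≠ ⊤ := by
    rw [← h2]; exact ENNReal.ofReal_ne_top
  have h4 : Summable fun n => anA s n * t ^ n := by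
    have := ENNReal.summable_toReal hne
    refine this.congr fun n => ?_
    rw [ENNReal.toReal_ofReal (hnn n)]
  have h5 : y = ∑' n, anA s n * t ^ n := by
    rw [← ENNReal.ofReal_tsum_of_nonneg hnn h4] at h2
    exact (ENNReal.ofReal_eq_ofReal_iff h0 (tsum_nonneg hnn)).1 h2
  rw [h1, h5]
  have h6 := Complex.hasSum_ofReal.2 h4.hasSum
  refine h6.congr_fun'' fun n => ?_
  push_cast; rfl

theorem anA_summable {q : ℂ} (hq : ‖q‖ < (MM s hs).qc) :
    Summable (fun n => (anA s n : ℂ) * q ^ n) := by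
  have h1 := (anA_hasSum_real hs (norm_nonneg q) hq).summable
  have h2 : Summable fun n => anA s n * ‖q‖ ^ n := by
    have : (fun n => (anA s n : ℂ) * ((‖q‖ : ℝ) : ℂ) ^ n) =
        fun n => ((anA s n * ‖q‖ ^ n : ℝ) : ℂ) := by
      funext n; push_cast; rfl
    rw [this] at h1
    exact Complex.summable_ofReal.1 h1
  refine Summable.of_norm_bounded h2 fun n => ?_
  rw [norm_mul, norm_pow, Complex.norm_real, Real.norm_eq_abs,
    abs_of_nonneg (show 0 ≤ anA s n from ENNReal.toReal_nonneg)]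

theorem VV_preconnected (M : Mdl) : IsPreconnected (Ker.VV M) := by
  have h1 : Ker.VV M = Metric.ball (0 : ℂ) M.qc ∩ {q | -(1 / 4) < q.re} := by
    ext q
    simp [Ker.VV]
  rw [h1]
  exact ((convex_ball _ _).inter (convex_halfSpace_re_gt _)).isPreconnected

/-- the area generating function -/
theorem anA_hasSum {q : ℂ} (hq : q ∈ Ker.VV (MM s hs)) :
    HasSum (fun n => (anA s n : ℂ) * q ^ n)
      ((KK s hs).TF (CL s hs) (CR s hs) (CL' s hs) (CR' s hs) q) := by
  have hqc0 := (MM s hs).qc_pos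
  have hqc := (MM s hs).qc_lt
  set f : ℂ → ℂ := fun q => ∑' n, (anA s n : ℂ) * q ^ n with hf
  have hsum : ∀ q : ℂ, ‖q‖ < (MM s hs).qc → HasSum (fun n => (anA s n : ℂ) * q ^ n) (f q) :=
    fun q hq => (anA_summable hs hq).hasSum
  have hsub : Ker.VV (MM s hs) ⊆ Metric.ball 0 (MM s hs).qc := fun p hp => by
    simpa using hp.1
  have h1 : DifferentiableOn ℂ f (Metric.ball 0 (MM s hs).qc) := (ser_iter hqc0 hsum).1
  have h2 : DifferentiableOn ℂ ((KK s hs).TF (CL s hs) (CR s hs) (CL' s hs) (CR' s hs))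
      (MM s hs).U :=
    (((KK s hs).AF_diff _ _).add (Mdl.F_diffOn _ _ _)).add (Mdl.F_diffOn _ _ _)
  have h3 := (h1.mono hsub).analyticOnNhd (Ker.VV_open _)
  have h4 := (h2.mono (Ker.VV_sub _)).analyticOnNhd (Ker.VV_open _)
  have hz : (0 : ℂ) ∈ Ker.VV (MM s hs) := ⟨by simpa using hqc0, by simp⟩
  have h5 : Set.EqOn f ((KK s hs).TF (CL s hs) (CR s hs) (CL' s hs) (CR' s hs))
      (Ker.VV (MM s hs)) := by
    refine h3.eqOn_of_preconnected_of_frequently_eq h4 (VV_preconnected _) (z₀ := 0) hz ?_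
    have h6 : Tendsto (fun k : ℕ => ((1 / ((k : ℝ) + 2) : ℝ) : ℂ)) atTop (𝓝[≠] 0) := by
      rw [tendsto_nhdsWithin_iff]
      refine ⟨?_, Eventually.of_forall fun k => ?_⟩
      · have h7 : Tendsto (fun k : ℕ => (1 / ((k : ℝ) + 2) : ℝ)) atTop (𝓝 0) := by
          have := (tendsto_atTop_add_const_right atTop (2 : ℝ)
            tendsto_natCast_atTop_atTop).inv_tendsto_atTop
          refine this.congr fun k => ?_
          simp
        have := (Complex.continuous_ofReal.tendsto 0).comp h7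
        rw [Complex.ofReal_zero] at this
        exact this
      · simp only [Set.mem_compl_iff, Set.mem_singleton_iff, Complex.ofReal_eq_zero]
        positivity
    refine h6.frequently (Eventually.frequently ?_)
    filter_upwards with k
    have hk : (0 : ℝ) ≤ 1 / ((k : ℝ) + 2) := by positivity
    have hk1 : 1 / ((k : ℝ) + 2) < (MM s hs).qc := by
      have h8 : 1 / ((k : ℝ) + 2) ≤ 1 / 2 := by
        apply one_div_le_one_div_of_le (by norm_num)
        have : (0 : ℝ) ≤ k := Nat.cast_nonneg k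
        linarith
      have := (MM s hs).qc_ge
      linarith
    exact (hsum _ (by
      rw [Complex.norm_real, Real.norm_eq_abs, abs_of_nonneg hk]; exact hk1)).unique
      (anA_hasSum_real hs hk hk1)
  rw [← h5 hq]
  exact hsum q hq.1

end real

end

end KN.SQ
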