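import Pool.Agent.H132.SQ.Ar4

/-!
# The mean area of stretched planar polygons
-/

set_option autoImplicit false

namespace KN.SQ

open KN KN.ST Finset Filter Topology
open scoped Classical ENNReal Real

noncomputable section

/-- the weighted area of the closed planar self-avoiding words -/
def ZA (y : ℝ) (n : ℕ) : ℝ :=
  ∑ w ∈ (KN.W n).filter (fun w => SAP w ∧ Pl w), (AE w).toReal * y ^ xt w

theorem sap_x0 {w : List Dir} (h : SAP w) : (pos w).1 = 0 := by rw [h.2.1]; rfl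

theorem ZA_enn {y : ℝ} (hy : 0 ≤ y) (n : ℕ) : ENNReal.ofReal (ZA y n) =
    ∑' w : List Dir, if SAP w ∧ w.length = n ∧ Pl w then
      AE w * ENNReal.ofReal y ^ xt w else 0 := by
  unfold ZA
  rw [ENNReal.ofReal_sum_of_nonneg (fun w _ => mul_nonneg ENNReal.toReal_nonneg (pow_nonneg hy _)),
    tsum_eq_sum (s := (KN.W n).filter (fun w => SAP w ∧ Pl w))]
  · refine sum_congr rfl fun w hw => ?_
    rw [mem_filter, mem_W] at hw
    rw [if_pos ⟨hw.2.1, hw.1, hw.2.2⟩, ENNReal.ofReal_mul ENNReal.toReal_nonneg,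
      ENNReal.ofReal_toReal (AE_ne (sap_x0 hw.2.1)), ENNReal.ofReal_pow hy]
  · intro w hw
    rw [if_neg]
    rintro ⟨h1, h2, h3⟩
    exact hw (mem_filter.2 ⟨mem_W.2 h2, h1, h3⟩)

theorem with_cutA {Y S : ℝ≥0∞} (hY : Y * S ^ 8 = 1) (n : ℕ) :
    (∑' w : List Dir, (if SAP w ∧ w.length = n ∧ Pl w ∧ ∃ c, X w c = 2 then
      AE w * Y ^ xt w else 0)) * (S ^ 4) ^ n = n * AnA S n := by
  rw [poly_sum (fun w => AE w * Y ^ xt w) Pl
    (fun w k hw hk => by simp only [xt_rotate hw.2.1 hk, AE_rotate hw.2.1 hk])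
    (fun w k _ h => pl_rotate.2 h) n, mul_assoc, ← ENNReal.tsum_mul_right]
  congr 1
  unfold AnA
  refine tsum_congr fun x => ?_
  by_cases h : (∃ D E, Vd x.1 x.2.1 x.2.2 D E) ∧ (pw3 x).length = n ∧ Pl (pw3 x)
  · rw [if_pos h, if_pos h]
    obtain ⟨⟨D, E, hv⟩, hl, -⟩ := h
    have := pw3_wt hY hv
    rw [hl] at this
    rw [mul_assoc, this]
    rfl
  · rw [if_neg h, if_neg h, zero_mul]

theorem no_cutA {Y S : ℝ≥0∞} (hY : Y * S ^ 8 = 1) (hS : S ≤ 1) (n : ℕ) :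
    (∑' w : List Dir, (if SAP w ∧ w.length = n ∧ Pl w ∧ ¬ ∃ c, X w c = 2 then
      AE w * Y ^ xt w else 0)) * (S ^ 4) ^ n ≤
      (((2 * n + 1) * (2 * n) : ℕ) : ℝ≥0∞) * (6 * S ^ 2) ^ n := by
  refine le_trans ?_ (mul_le_mul_right (no_cut hY hS n) _)
  rw [← mul_assoc]
  refine mul_le_mul_left ?_ _
  rw [← ENNReal.tsum_mul_left]
  refine ENNReal.tsum_le_tsum fun w => ?_
  split_ifs with h
  · refine mul_le_mul_left ?_ _
    have := AE_le (sap_x0 h.1)
    rwa [h.2.1] at this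
  · exact zero_le

theorem ZA_split {s y : ℝ} (hs : Wok s) (hy : y * s ^ 8 = 1) (n : ℕ) :
    ∃ e : ℝ, 0 ≤ e ∧ e ≤ ((2 * n + 1) * (2 * n) : ℕ) * (6 * s ^ 2) ^ n ∧
      ZA y n * (s ^ 4) ^ n = n * anA s n + e := by
  have hs0 := hs.1
  have hy0 : 0 ≤ y := by
    by_contra h
    push Not at h
    have : y * s ^ 8 < 0 := mul_neg_of_neg_of_pos h (by positivity)
    linarith
  have hs1 : s ≤ 1 := hs.2.trans (by norm_num)
  set S := ENNReal.ofReal s with hS
  set Y := ENNReal.ofReal y with hYd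
  have hY : Y * S ^ 8 = 1 := by
    rw [hS, hYd, ← ENNReal.ofReal_pow hs0.le, ← ENNReal.ofReal_mul hy0, hy, ENNReal.ofReal_one]
  have hS1 : S ≤ 1 := ENNReal.ofReal_le_one.2 hs1
  have h1 : ENNReal.ofReal (ZA y n) =
      (∑' w : List Dir, (if SAP w ∧ w.length = n ∧ Pl w ∧ ∃ c, X w c = 2 then
        AE w * Y ^ xt w else 0)) +
      (∑' w : List Dir, (if SAP w ∧ w.length = n ∧ Pl w ∧ ¬ ∃ c, X w c = 2 then
        AE w * Y ^ xt w else 0)) := by
    rw [ZA_enn hy0, ← ENNReal.tsum_add]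
    refine tsum_congr fun w => ?_
    by_cases hw : SAP w ∧ w.length = n ∧ Pl w
    · by_cases hc : ∃ c, X w c = 2
      · rw [if_pos hw, if_pos ⟨hw.1, hw.2.1, hw.2.2, hc⟩, if_neg (fun h => h.2.2.2 hc), add_zero]
      · rw [if_pos hw, if_neg (fun h => hc h.2.2.2), if_pos ⟨hw.1, hw.2.1, hw.2.2, hc⟩, zero_add]
    · rw [if_neg hw, if_neg (fun h => hw ⟨h.1, h.2.1, h.2.2.1⟩),
        if_neg (fun h => hw ⟨h.1, h.2.1, h.2.2.1⟩), add_zero]
  set N := (∑' w : List Dir, (if SAP w ∧ w.length = n ∧ Pl w ∧ ¬ ∃ c, X w c = 2 then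
        AE w * Y ^ xt w else 0)) * (S ^ 4) ^ n with hN
  have h2 : ENNReal.ofReal (ZA y n) * (S ^ 4) ^ n = n * AnA S n + N := by
    rw [h1, add_mul, with_cutA hY]
  have h3 : N ≤ (((2 * n + 1) * (2 * n) : ℕ) : ℝ≥0∞) * (6 * S ^ 2) ^ n := no_cutA hY hS1 n
  have e3 : (((2 * n + 1) * (2 * n) : ℕ) : ℝ≥0∞) * (6 * S ^ 2) ^ n =
      ENNReal.ofReal (((2 * n + 1) * (2 * n) : ℕ) * (6 * s ^ 2) ^ n) := by
    rw [ENNReal.ofReal_mul (Nat.cast_nonneg _), ENNReal.ofReal_natCast,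
      ENNReal.ofReal_pow (by positivity), ENNReal.ofReal_mul (by norm_num),
      ENNReal.ofReal_pow hs0.le]
    simp [hS]
  have hNt : N ≠ ⊤ := ne_top_of_le_ne_top (by rw [e3]; exact ENNReal.ofReal_ne_top) h3
  have hA := AnA_fin hs n
  refine ⟨N.toReal, ENNReal.toReal_nonneg, ?_, ?_⟩
  · have := ENNReal.toReal_mono (by rw [e3]; exact ENNReal.ofReal_ne_top) h3
    rw [e3, ENNReal.toReal_ofReal (by positivity)] at this
    exact this
  · have h4 := congrArg ENNReal.toReal h2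
    have hZ : 0 ≤ ZA y n :=
      sum_nonneg fun w _ => mul_nonneg ENNReal.toReal_nonneg (pow_nonneg hy0 _)
    rw [ENNReal.toReal_mul, ENNReal.toReal_ofReal hZ, ENNReal.toReal_add
      (ENNReal.mul_ne_top (ENNReal.natCast_ne_top n) hA) hNt, ENNReal.toReal_mul,
      ENNReal.toReal_pow, ENNReal.toReal_pow, hS, ENNReal.toReal_ofReal hs0.le,
      ENNReal.toReal_natCast] at h4
    exact h4

theorem anA_odd {s : ℝ} {n : ℕ} (hn : Odd n) : anA s n = 0 := by
  unfold anA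
  have : AnA (ENNReal.ofReal s) n = 0 := by
    unfold AnA
    rw [ENNReal.tsum_eq_zero]
    intro x
    rw [if_neg]
    rintro ⟨⟨D, E, h⟩, h1, -⟩
    have h2 := even_of_closed h.sap.2.1
    have h3 : (ST.Poly x.1 (Rw x.2.1 x.2.2)).length = n := h1
    rw [h3] at h2
    obtain ⟨k, hk⟩ := hn
    omega
  rw [this, ENNReal.toReal_zero]

theorem PP_pos {s : ℝ} (hs : Wok s) : 0 < (MM s hs).PP (CL s hs) (CR s hs) := by
  by_contra h
  push Not at h
  have h1 := C1_pos hs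
  have h2 : (MM s hs).C1 (CL s hs) (CR s hs) ≤ 0 := by
    unfold Mdl.C1
    have h3 := (MM s hs).mp_pos
    have h4 := (MM s hs).qc_pos
    have h5 := Real.sqrt_pos.2 (MM s hs).gam_pos
    first
    | exact div_nonpos_of_nonpos_of_nonneg (mul_nonpos_of_nonneg_of_nonpos (by positivity) h) (by positivity)
    | exact div_nonpos_of_nonpos_of_nonneg (mul_nonpos_of_nonpos_of_nonneg h (by positivity)) (by positivity)
    | exact mul_nonpos_of_nonneg_of_nonpos (by positivity) h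
    | exact mul_nonpos_of_nonpos_of_nonneg h (by positivity)
  linarith

theorem C2_pos {s : ℝ} (hs : Wok s) : 0 < (KK s hs).C2 (CL s hs) (CR s hs) := by
  have h1 := PP_pos hs
  have h2 := (KK s hs).cA_bd.1
  have h3 := (MM s hs).gam_pos
  have h4 := (MM s hs).qc_pos
  unfold Ker.C2
  positivity

/-- the asymptotics of the weighted area -/
theorem ZA_asym {s y : ℝ} (hs : Wok s) (hy : y * s ^ 8 = 1) :
    Tendsto (fun k : ℕ => ZA y (2 * k) / ((2 * k : ℕ)) * (s ^ 4 * (MM s hs).qc) ^ (2 * k)) atTop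
      (𝓝 ((KK s hs).C2 (CL s hs) (CR s hs))) := by
  have h1 := (KK s hs).area_coef (Cl := CL s hs) (Cr := CR s hs) (Cl' := CL' s hs)
    (Cr' := CR' s hs) (a := anA s) (fun q hq => anA_summable hs hq)
    (fun q hq => anA_hasSum hs hq) (fun n hn => anA_odd hn)
  choose e he0 he1 he2 using fun n => ZA_split hs hy n
  have hqc := (MM s hs).qc_pos
  have hqc1 := (MM s hs).qc_lt
  have hs0 := hs.1
  set x : ℝ := 6 * s ^ 2 with hx
  have hx0 : 0 ≤ x := by positivity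
  have hx1 : x < 1 := by
    have := hs.2
    have : s ≤ 1 / 10 := this.trans (by norm_num)
    rw [hx]
    nlinarith
  have h2 : Tendsto (fun k : ℕ => e (2 * k) * (MM s hs).qc ^ (2 * k) / ((2 * k : ℕ) : ℝ))
      atTop (𝓝 0) := by
    have h3 : Tendsto (fun k : ℕ => 10 * ((k : ℝ) ^ 1 * (x ^ 2) ^ k)) atTop (𝓝 0) := by
      have := (tendsto_pow_const_mul_const_pow_of_lt_one (r := x ^ 2) 1 (by positivity)
        (pow_lt_one₀ hx0 hx1 (by norm_num))).const_mul 10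
      simpa using this
    refine squeeze_zero' (Eventually.of_forall fun k => ?_) ?_ h3
    · have := he0 (2 * k)
      positivity
    · filter_upwards [eventually_gt_atTop 0] with k hk
      have hk0 : (0 : ℝ) < ((2 * k : ℕ) : ℝ) := by exact_mod_cast (by omega : 0 < 2 * k)
      have hk1 : (1 : ℝ) ≤ k := by exact_mod_cast hk
      rw [div_le_iff₀ hk0]
      have h4 : e (2 * k) * (MM s hs).qc ^ (2 * k) ≤
          (((2 * (2 * k) + 1) * (2 * (2 * k)) : ℕ) : ℝ) * x ^ (2 * k) * 1 :=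
        mul_le_mul (he1 _) (pow_le_one₀ hqc.le hqc1.le) (by positivity) (by positivity)
      refine h4.trans ?_
      rw [mul_one, ← pow_mul, pow_one]
      push_cast
      have h5 : 0 ≤ x ^ (2 * k) := by positivity
      have e1 : 10 * ((k : ℝ) * x ^ (2 * k)) * (2 * k) = (20 * (k : ℝ) * k) * x ^ (2 * k) := by ring
      rw [e1]
      refine mul_le_mul_of_nonneg_right ?_ h5
      nlinarith
  have h3 := h1.add h2
  rw [add_zero] at h3
  refine h3.congr' ?_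
  filter_upwards [eventually_gt_atTop 0] with k hk
  have hk0 : ((2 * k : ℕ) : ℝ) ≠ 0 := by exact_mod_cast (by omega : 2 * k ≠ 0)
  have h4 := he2 (2 * k)
  have e1 : ZA y (2 * k) / ((2 * k : ℕ) : ℝ) * (s ^ 4 * (MM s hs).qc) ^ (2 * k) =
      (ZA y (2 * k) * (s ^ 4) ^ (2 * k)) / ((2 * k : ℕ) : ℝ) * (MM s hs).qc ^ (2 * k) := by
    rw [mul_pow]; ring
  rw [e1, h4]
  field_simp

/-- the mean area -/
theorem mean_area {s y : ℝ} (hs : Wok s) (hy : y * s ^ 8 = 1) : ∃ c : ℝ, 0 < c ∧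
    Tendsto (fun k : ℕ => ZA y (2 * k) / Zw y (2 * k) / ((k : ℝ) * √(k : ℝ))) atTop (𝓝 c) := by
  have h1 := ZA_asym hs hy
  have h2 := Zw_asym hs hy
  have hC2 := C2_pos hs
  have hC1 := C1_pos hs
  have hqc := (MM s hs).qc_pos
  have hs0 := hs.1
  set c2 := (KK s hs).C2 (CL s hs) (CR s hs) with hc2
  set c1 := 1 / 2 * ((MM s hs).C1 (CL s hs) (CR s hs) * (MM s hs).qc / (2 * √π)) with hc1
  have hc1p : 0 < c1 := by
    have : 0 < √π := Real.sqrt_pos.2 Real.pi_pos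
    positivity
  refine ⟨c2 / (2 * c1), by positivity, ?_⟩
  have h3 := h1.div (h2.const_mul 2) (by positivity)
  refine h3.congr' ?_
  filter_upwards [eventually_gt_atTop 0] with k hk
  have hk0 : ((2 * k : ℕ) : ℝ) ≠ 0 := by exact_mod_cast (by omega : 2 * k ≠ 0)
  have hm : (s ^ 4 * (MM s hs).qc) ^ (2 * k) ≠ 0 := by positivity
  set N : ℝ := ((2 * k : ℕ) : ℝ) with hN
  set μ : ℝ := (s ^ 4 * (MM s hs).qc) ^ (2 * k) with hμ
  set K : ℝ := (k : ℝ) * √(k : ℝ) with hK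
  have e1 : 2 * (Zw y (2 * k) / (2 * N) * μ * K) = (Zw y (2 * k) * K) * (μ / N) := by
    field_simp
  have e2 : ZA y (2 * k) / N * μ = ZA y (2 * k) * (μ / N) := by
    field_simp
  have h5 : μ / N ≠ 0 := div_ne_zero hm hk0
  show ZA y (2 * k) / N * μ / (2 * (Zw y (2 * k) / (2 * N) * μ * K)) = _
  rw [e1, e2, mul_div_mul_right _ _ h5, div_div]

end

end KN.SQ
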