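import Mathlib

/-!
# Coefficients of a function with two singularities on the circle of convergence
-/

set_option autoImplicit false

namespace KN.SQ

open Finset Filter Topology Metric Complex MeasureTheory
open scoped Classical ENNReal Real Interval

noncomputable section

theorem poisson_avg {R r : ℝ} (h0 : 0 < r) (h : r < R) :
    ∫ θ in (0 : ℝ)..2 * π, 1 / ‖(R : ℂ) - circleMap 0 r θ‖ ^ 2 = 2 * π / (R ^ 2 - r ^ 2) := by
  have hne : ∀ z : ℂ, ‖z‖ ≤ r → (R : ℂ) - z ≠ 0 := by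
    intro z hz h1
    have h2 : z = R := (sub_eq_zero.1 h1).symm
    rw [h2, norm_real, Real.norm_eq_abs, abs_of_pos (h0.trans h)] at hz
    linarith
  have hd : DiffContOnCl ℂ (fun z : ℂ => ((R : ℂ) + z) / ((R : ℂ) - z)) (ball 0 |r|) := by
    refine DifferentiableOn.diffContOnCl ?_
    intro z hz
    have hz' : ‖z‖ ≤ r := by
      have := closure_ball_subset_closedBall hz
      rw [mem_closedBall, dist_zero_right, abs_of_pos h0] at this
      exact this
    exact (((differentiableAt_const _).add differentiableAt_id).div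
      ((differentiableAt_const _).sub differentiableAt_id) (hne z hz')).differentiableWithinAt
  have h1 := hd.circleAverage
  simp only [sub_zero, add_zero] at h1
  rw [div_self (by exact_mod_cast (h0.trans h).ne')] at h1
  unfold Real.circleAverage at h1
  have hci : IntervalIntegrable (fun θ => ((R : ℂ) + circleMap 0 r θ) / ((R : ℂ) - circleMap 0 r θ))
      volume 0 (2 * π) := by
    refine Continuous.intervalIntegrable ?_ _ _
    refine Continuous.div (by fun_prop) (by fun_prop) (fun θ => hne _ ?_)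
    rw [norm_circleMap_zero, abs_of_pos h0]
  have h2 := congrArg Complex.re h1
  rw [Complex.smul_re, one_re] at h2
  have h3 : (∫ θ in (0 : ℝ)..2 * π, ((R : ℂ) + circleMap 0 r θ) / ((R : ℂ) - circleMap 0 r θ)).re =
      ∫ θ in (0 : ℝ)..2 * π, (((R : ℂ) + circleMap 0 r θ) / ((R : ℂ) - circleMap 0 r θ)).re := by
    have := intervalIntegral.intervalIntegral_re (μ := volume) (a := 0) (b := 2 * π) hci
    simpa using this.symm
  rw [h3] at h2
  have h4 : ∀ θ : ℝ, (((R : ℂ) + circleMap 0 r θ) / ((R : ℂ) - circleMap 0 r θ)).re =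
      (R ^ 2 - r ^ 2) * (1 / ‖(R : ℂ) - circleMap 0 r θ‖ ^ 2) := by
    intro θ
    set z := circleMap 0 r θ with hz
    have hn : ‖z‖ = r := by rw [hz, norm_circleMap_zero, abs_of_pos h0]
    have hn2 : z.re ^ 2 + z.im ^ 2 = r ^ 2 := by
      rw [← hn, ← Complex.normSq_eq_norm_sq, Complex.normSq_apply]; ring
    rw [div_eq_mul_inv, Complex.inv_def, ← Complex.normSq_eq_norm_sq]
    have h5 : Complex.normSq ((R : ℂ) - z) ≠ 0 := by
      rw [Ne, Complex.normSq_eq_zero]
      exact hne z hn.le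
    simp only [map_sub, conj_ofReal, mul_re, add_re, ofReal_re, sub_re, conj_re, add_im, ofReal_im,
      zero_add, sub_im, conj_im, zero_sub, neg_neg, mul_zero, sub_zero, mul_im]
    field_simp
    nlinarith
  simp only [h4] at h2
  rw [intervalIntegral.integral_const_mul] at h2
  have hpos : 0 < R ^ 2 - r ^ 2 := by nlinarith
  rw [eq_div_iff hpos.ne']
  simp only [smul_eq_mul] at h2
  have hpi := Real.pi_pos
  field_simp at h2
  linarith

theorem poisson_avg' {R r : ℝ} (h0 : 0 < r) (h : r < R) :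
    ∫ θ in (0 : ℝ)..2 * π, 1 / ‖(R : ℂ) + circleMap 0 r θ‖ ^ 2 = 2 * π / (R ^ 2 - r ^ 2) := by
  rw [← poisson_avg h0 h]
  have hp : Function.Periodic (fun θ : ℝ => 1 / ‖(R : ℂ) - circleMap 0 r θ‖ ^ 2) (2 * π) := by
    intro θ
    simp only
    rw [periodic_circleMap]
  have h1 := hp.intervalIntegral_add_eq 0 π
  rw [zero_add] at h1
  rw [h1]
  have h2 := intervalIntegral.integral_comp_add_right (a := 0) (b := 2 * π)
    (fun θ : ℝ => 1 / ‖(R : ℂ) - circleMap 0 r θ‖ ^ 2) π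
  rw [zero_add, show 2 * π + π = π + 2 * π by ring] at h2
  rw [← h2]
  refine intervalIntegral.integral_congr fun θ _ => ?_
  congr 3
  rw [circleMap_zero, circleMap_zero]
  push_cast
  rw [add_mul, Complex.exp_add, Complex.exp_pi_mul_I]
  ring

theorem iter_le {g : ℂ → ℂ} {r A : ℝ} (hr : 0 < r) (n : ℕ) (hg : DiffContOnCl ℂ g (ball 0 r))
    {φ : ℝ → ℝ} (hφ : IntervalIntegrable φ volume 0 (2 * π))
    (h : ∀ θ, ‖g (circleMap 0 r θ)‖ ≤ φ θ) (hA : ∫ θ in (0 : ℝ)..2 * π, φ θ ≤ A) :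
    ‖iteratedDeriv n g 0‖ ≤ n.factorial * ((2 * π)⁻¹ * (r⁻¹ ^ n * A)) := by
  have hq : iteratedDeriv n g 0 = n.factorial • (2 * π * I)⁻¹ •
      ∮ z in C(0, r), (z - 0)⁻¹ ^ (n + 1) • g z := by
    have : (2 * π * I / n.factorial) ≠ 0 := by simp [Nat.factorial_ne_zero, Real.pi_ne_zero]
    have h0 := hg.circleIntegral_one_div_sub_center_pow_smul hr n
    rw [← inv_smul_smul₀ this (iteratedDeriv n g 0), ← h0, inv_div, div_eq_inv_mul, mul_comm,
      ← nsmul_eq_mul, smul_assoc]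
    simp only [one_div, inv_pow]
  rw [hq]
  have h1 : ‖∮ z in C(0, r), (z - 0)⁻¹ ^ (n + 1) • g z‖ ≤ r⁻¹ ^ n * A := by
    unfold circleIntegral
    have h2 : ‖∫ θ in (0 : ℝ)..2 * π, deriv (circleMap 0 r) θ •
        ((circleMap 0 r θ - 0)⁻¹ ^ (n + 1) • g (circleMap 0 r θ))‖ ≤
        ∫ θ in (0 : ℝ)..2 * π, r⁻¹ ^ n * φ θ := by
      refine intervalIntegral.norm_integral_le_of_norm_le (by positivity) ?_ (hφ.const_mul _)
      refine Eventually.of_forall fun θ _ => ?_
      rw [deriv_circleMap, sub_zero, norm_smul, norm_smul, norm_mul, norm_circleMap_zero, norm_I,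
        mul_one, norm_pow, norm_inv, norm_circleMap_zero, abs_of_pos hr, pow_succ]
      calc r * (r⁻¹ ^ n * r⁻¹ * ‖g (circleMap 0 r θ)‖)
          = r⁻¹ ^ n * ‖g (circleMap 0 r θ)‖ * (r * r⁻¹) := by ring
        _ = r⁻¹ ^ n * ‖g (circleMap 0 r θ)‖ := by rw [mul_inv_cancel₀ hr.ne', mul_one]
        _ ≤ _ := by gcongr; exact h θ
    refine h2.trans ?_
    rw [intervalIntegral.integral_const_mul]
    gcongr
  rw [← Nat.cast_smul_eq_nsmul ℝ, norm_smul, norm_smul, Real.norm_natCast]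
  have h3 : ‖(2 * π * I : ℂ)⁻¹‖ = (2 * π)⁻¹ := by
    rw [norm_inv, norm_mul, norm_mul, norm_I, mul_one, norm_real, Real.norm_eq_abs,
      abs_of_pos Real.pi_pos]
    norm_num
  rw [h3]
  gcongr

/-- the coefficients of a power series and the iterated derivatives -/
theorem ser_iter {f : ℂ → ℂ} {b : ℕ → ℂ} {R : ℝ} (hR : 0 < R)
    (h : ∀ q : ℂ, ‖q‖ < R → HasSum (fun m => b m * q ^ m) (f q)) :
    DifferentiableOn ℂ f (ball 0 R) ∧ ∀ m, iteratedDeriv m f 0 = m.factorial * b m := by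
  have hp : HasFPowerSeriesOnBall f (FormalMultilinearSeries.ofScalars ℂ b) 0 (ENNReal.ofReal R) := by
    refine ⟨?_, by simpa using hR, ?_⟩
    · refine ENNReal.le_of_forall_nnreal_lt fun r hr => ?_
      have hr' : (r : ℝ) < R := by
        have := (ENNReal.lt_ofReal_iff_toReal_lt (by simp)).1 hr
        simpa using this
      have hs : Summable fun m => b m * ((r : ℝ) : ℂ) ^ m :=
        (h (r : ℝ) (by simpa using hr')).summable
      refine FormalMultilinearSeries.le_radius_of_tendsto _ (l := 0) ?_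
      have h1 := hs.tendsto_atTop_zero.norm
      simp only [norm_zero] at h1
      refine h1.congr fun m => ?_
      rw [norm_mul, norm_pow, FormalMultilinearSeries.ofScalars_norm]
      simp
    · intro y hy
      have hy' : ‖y‖ < R := by
        rw [mem_eball, edist_zero_right, ← ofReal_norm] at hy
        exact (ENNReal.ofReal_lt_ofReal_iff hR).1 hy
      have := h y hy'
      rw [zero_add]
      have e : (fun n => (FormalMultilinearSeries.ofScalars ℂ b n) fun _ => y) =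
          fun m => b m * y ^ m := by
        funext m
        rw [FormalMultilinearSeries.ofScalars_apply_eq]
        simp [smul_eq_mul]
      rw [e]
      exact this
  refine ⟨?_, fun m => ?_⟩
  · have := hp.differentiableOn
    rwa [Metric.eball_ofReal] at this
  · have h1 := hp.hasFPowerSeriesAt.eq_formalMultilinearSeries
      (hp.analyticAt.hasFPowerSeriesAt)
    have h2 := congrFun (FormalMultilinearSeries.ofScalars_series_injective ℂ ℂ h1) m
    rw [h2]
    exact (mul_div_cancel₀ _ (Nat.cast_ne_zero.2 (Nat.factorial_ne_zero m))).symm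

/-- **Coefficient bound.** -/
theorem coef_le {f : ℂ → ℂ} {b : ℕ → ℂ} {R A : ℝ} (hR : 0 < R) (hA : 0 ≤ A)
    (h : ∀ q : ℂ, ‖q‖ < R → HasSum (fun m => b m * q ^ m) (f q)) {n : ℕ} (hn : 2 ≤ n)
    (hf : ∀ q : ℂ, ‖q‖ = R * (1 - 1 / n) → ‖iteratedDeriv 2 f q‖ ≤
      A * (1 / ‖(R : ℂ) - q‖ ^ 2 + 1 / ‖(R : ℂ) + q‖ ^ 2)) :
    ‖b n‖ * R ^ n ≤ 16 * A / n := by
  obtain ⟨hd, hi⟩ := ser_iter hR h
  obtain ⟨m, rfl⟩ : ∃ m, n = m + 2 := ⟨n - 2, by omega⟩
  set r := R * (1 - 1 / ((m + 2 : ℕ) : ℝ)) with hr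
  have hn0 : (0 : ℝ) < ((m + 2 : ℕ) : ℝ) := by positivity
  have hn2 : (2 : ℝ) ≤ ((m + 2 : ℕ) : ℝ) := by exact_mod_cast hn
  have h1n : 1 / ((m + 2 : ℕ) : ℝ) ≤ 1 / 2 := by
    apply one_div_le_one_div_of_le <;> linarith
  have h1n0 : 0 < 1 / ((m + 2 : ℕ) : ℝ) := by positivity
  have hr0 : 0 < r := mul_pos hR (by linarith)
  have hrR : r < R := by rw [hr]; nlinarith
  -- the second derivative
  have hg : DiffContOnCl ℂ (iteratedDeriv 2 f) (ball 0 r) := by
    refine DifferentiableOn.diffContOnCl ?_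
    have ha : AnalyticOnNhd ℂ f (ball 0 R) := hd.analyticOnNhd isOpen_ball
    have h3 : AnalyticOnNhd ℂ (iteratedDeriv 2 f) (ball 0 R) := by
      have := ha.iterated_deriv 2
      rwa [← iteratedDeriv_eq_iterate] at this
    intro z hz
    have hz' : z ∈ ball (0 : ℂ) R := by
      have := closure_ball_subset_closedBall hz
      rw [mem_closedBall, dist_zero_right] at this
      rw [mem_ball, dist_zero_right]
      linarith
    exact (h3 z hz').differentiableAt.differentiableWithinAt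
  have hci : ∀ ε : ℂ, (ε = 1 ∨ ε = -1) → IntervalIntegrable
      (fun θ => 1 / ‖(R : ℂ) + ε * circleMap 0 r θ‖ ^ 2) volume 0 (2 * π) := by
    intro ε hε
    refine Continuous.intervalIntegrable ?_ _ _
    refine Continuous.div (by fun_prop) (by fun_prop) (fun θ => ?_)
    refine pow_ne_zero _ (norm_ne_zero_iff.2 fun h0 => ?_)
    have h1 : ‖ε * circleMap 0 r θ‖ = R := by
      rw [eq_neg_of_add_eq_zero_right h0, norm_neg, norm_real, Real.norm_eq_abs, abs_of_pos hR]
    have h2 : ‖ε‖ = 1 := by rcases hε with rfl | rfl <;> simp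
    rw [norm_mul, h2, one_mul, norm_circleMap_zero, abs_of_pos hr0] at h1
    linarith
  have hc1 := hci (-1) (Or.inr rfl)
  have hc2 := hci 1 (Or.inl rfl)
  simp only [one_mul, neg_mul, ← sub_eq_add_neg] at hc1 hc2
  have hint : ∫ θ in (0 : ℝ)..2 * π, A * (1 / ‖(R : ℂ) - circleMap 0 r θ‖ ^ 2 +
      1 / ‖(R : ℂ) + circleMap 0 r θ‖ ^ 2) = A * (4 * π / (R ^ 2 - r ^ 2)) := by
    rw [intervalIntegral.integral_const_mul, intervalIntegral.integral_add hc1 hc2,
      poisson_avg hr0 hrR, poisson_avg' hr0 hrR]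
    ring
  have h4 := iter_le hr0 m hg ((hc1.add hc2).const_mul A)
    (fun θ => hf (circleMap 0 r θ) (by rw [norm_circleMap_zero, abs_of_pos hr0])) hint.le
  have h5 : iteratedDeriv m (iteratedDeriv 2 f) 0 = ((m + 2).factorial : ℂ) * b (m + 2) := by
    rw [← hi (m + 2)]
    rw [show m + 2 = 2 + m by ring]
    rw [iteratedDeriv_eq_iterate, iteratedDeriv_eq_iterate, iteratedDeriv_eq_iterate,
      ← Function.iterate_add_apply, add_comm]
  rw [h5, norm_mul, Complex.norm_natCast] at h4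
  have hfac : ((m + 2).factorial : ℝ) = (m + 2) * (m + 1) * (m.factorial : ℝ) := by
    rw [Nat.factorial_succ, Nat.factorial_succ]
    push_cast
    ring
  have hmf : (0 : ℝ) < m.factorial := by exact_mod_cast m.factorial_pos
  have h6 : (m + 2) * (m + 1) * ‖b (m + 2)‖ ≤ (2 * π)⁻¹ * (r⁻¹ ^ m * (A * (4 * π /
      (R ^ 2 - r ^ 2)))) := by
    rw [hfac] at h4
    have h7 : (m.factorial : ℝ) * ((m + 2) * (m + 1) * ‖b (m + 2)‖) ≤ (m.factorial : ℝ) *
      ((2 * π)⁻¹ * (r⁻¹ ^ m * (A * (4 * π / (R ^ 2 - r ^ 2))))) := by linarith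
    exact le_of_mul_le_mul_left h7 hmf
  have hdiff : R ^ 2 / ((m + 2 : ℕ) : ℝ) ≤ R ^ 2 - r ^ 2 := by
    have e1 : R ^ 2 - r ^ 2 = R ^ 2 * (1 - (1 - 1 / ((m + 2 : ℕ) : ℝ)) ^ 2) := by rw [hr]; ring
    rw [e1, div_eq_mul_one_div]
    refine mul_le_mul_of_nonneg_left ?_ (sq_nonneg R)
    nlinarith
  have h8 : (2 * π)⁻¹ * (r⁻¹ ^ m * (A * (4 * π / (R ^ 2 - r ^ 2)))) ≤
      r⁻¹ ^ m * (2 * A * ((m + 2 : ℕ) : ℝ) / R ^ 2) := by
    have e2 : (2 * π)⁻¹ * (r⁻¹ ^ m * (A * (4 * π / (R ^ 2 - r ^ 2)))) =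
        r⁻¹ ^ m * (2 * A * (1 / (R ^ 2 - r ^ 2))) := by
      have := Real.pi_pos
      field_simp
      ring
    rw [e2]
    refine mul_le_mul_of_nonneg_left ?_ (by positivity)
    have h9 : 1 / (R ^ 2 - r ^ 2) ≤ ((m + 2 : ℕ) : ℝ) / R ^ 2 := by
      rw [show ((m + 2 : ℕ) : ℝ) / R ^ 2 = 1 / (R ^ 2 / ((m + 2 : ℕ) : ℝ)) by field_simp]
      exact one_div_le_one_div_of_le (by positivity) hdiff
    calc 2 * A * (1 / (R ^ 2 - r ^ 2)) ≤ 2 * A * (((m + 2 : ℕ) : ℝ) / R ^ 2) := by gcongr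
      _ = _ := by ring
  have h10 : r⁻¹ ^ m * R ^ m ≤ 4 := by
    have e3 : r⁻¹ ^ m * R ^ m = ((1 - 1 / ((m + 2 : ℕ) : ℝ))⁻¹) ^ m := by
      rw [← mul_pow, hr, mul_inv]
      congr 1
      field_simp
    rw [e3]
    have h11 : (1 - 1 / ((m + 2 : ℕ) : ℝ))⁻¹ = 1 + 1 / ((m : ℝ) + 1) := by
      have hm1 : (m : ℝ) + 1 ≠ 0 := by positivity
      have hm2 : ((m + 2 : ℕ) : ℝ) ≠ 0 := by positivity
      refine (eq_inv_of_mul_eq_one_left ?_).symm
      have hm2' : (m : ℝ) + 2 ≠ 0 := by positivity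
      push_cast
      field_simp
      ring
    rw [h11]
    calc (1 + 1 / ((m : ℝ) + 1)) ^ m ≤ (1 + 1 / ((m : ℝ) + 1)) ^ (m + 1) :=
          pow_le_pow_right₀ (by simp; positivity) (by omega)
      _ ≤ (Real.exp (1 / ((m : ℝ) + 1))) ^ (m + 1) := by
          gcongr
          have := Real.add_one_le_exp (1 / ((m : ℝ) + 1))
          linarith
      _ = Real.exp 1 := by
          rw [← Real.exp_nat_mul]
          congr 1
          push_cast
          field_simp
      _ ≤ 4 := by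
          have := Real.exp_one_lt_d9
          linarith
  have hN : ((m + 2 : ℕ) : ℝ) = m + 2 := by push_cast; ring
  rw [hN] at h8 ⊢
  have hm0 : (0 : ℝ) ≤ m := Nat.cast_nonneg m
  have hR2 : (0 : ℝ) < R ^ 2 := by positivity
  rw [le_div_iff₀ (by positivity)]
  have h12 : (m + 2) * (m + 1) * (‖b (m + 2)‖ * R ^ (m + 2)) ≤ 8 * A * (m + 2) := by
    calc (m + 2) * (m + 1) * (‖b (m + 2)‖ * R ^ (m + 2))
        = ((m + 2) * (m + 1) * ‖b (m + 2)‖) * R ^ (m + 2) := by ring
      _ ≤ (r⁻¹ ^ m * (2 * A * (m + 2) / R ^ 2)) * R ^ (m + 2) := by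
          exact mul_le_mul_of_nonneg_right (h6.trans h8) (by positivity)
      _ = (r⁻¹ ^ m * R ^ m) * (2 * A * (m + 2)) := by
          rw [pow_add]
          field_simp
      _ ≤ 4 * (2 * A * (m + 2)) := by gcongr
      _ = _ := by ring
  have h13 : (m + 1) * (‖b (m + 2)‖ * R ^ (m + 2)) ≤ 8 * A := by
    have hm2 : (0 : ℝ) < m + 2 := by positivity
    refine le_of_mul_le_mul_left ?_ hm2
    linarith
  have h14 : 0 ≤ ‖b (m + 2)‖ * R ^ (m + 2) := by positivity
  nlinarith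

end

end KN.SQ
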