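import Pool.Agent.H132.SQ.Cf

/-!
# The coefficients of the square root singularity
-/

set_option autoImplicit false

namespace KN.SQ

open Finset Filter Topology Metric Complex
open scoped Classical ENNReal Real

noncomputable section

theorem _root_.HasSum.congr_fun'' {ι : Type} {f g : ι → ℂ} {a : ℂ} (h : HasSum f a)
    (hfg : ∀ b, g b = f b) : HasSum g a := by
  have : g = f := funext hfg
  rw [this]; exact h

/-- the central binomial coefficient over `4^n` -/
def cb (n : ℕ) : ℝ := ∏ i ∈ range n, (2 * i + 1) / (2 * i + 2)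

theorem cb_succ (n : ℕ) : cb (n + 1) = cb n * ((2 * n + 1) / (2 * n + 2)) := prod_range_succ _ _

theorem cb_pos (n : ℕ) : 0 < cb n := prod_pos fun i _ => by positivity

theorem cb_choose (n : ℕ) : Ring.choose ((2 : ℂ)⁻¹ + n - 1) n = (cb n : ℂ) := by
  rw [← Ring.multichoose_eq]
  have h1 := Ring.factorial_nsmul_multichoose_eq_ascPochhammer ((2 : ℂ)⁻¹) n
  have h2 : ∀ m : ℕ, (ascPochhammer ℕ m).smeval ((2 : ℂ)⁻¹) = (m.factorial : ℂ) * (cb m : ℂ) := by
    intro m
    rw [Polynomial.ascPochhammer_smeval_eq_eval]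
    induction m with
    | zero => simp [cb]
    | succ m ih =>
      rw [ascPochhammer_succ_eval, ih, cb_succ, Nat.factorial_succ]
      push_cast
      have : (2 : ℂ) * m + 2 ≠ 0 := by
        have : ((2 * m + 2 : ℕ) : ℂ) ≠ 0 := Nat.cast_ne_zero.2 (by omega)
        push_cast at this; exact this
      field_simp
      ring
  rw [h2] at h1
  have h3 : (n.factorial : ℂ) ≠ 0 := Nat.cast_ne_zero.2 n.factorial_ne_zero
  rw [nsmul_eq_mul] at h1
  exact mul_left_cancel₀ h3 h1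

theorem cb_hasSum {x : ℂ} (hx : ‖x‖ < 1) :
    HasSum (fun n => (cb n : ℂ) * x ^ n) (((1 - x) ^ (2 : ℂ)⁻¹)⁻¹) := by
  have h1 := (Complex.one_div_one_sub_cpow_hasFPowerSeriesOnBall_zero ((2 : ℂ)⁻¹)).hasSum
    (y := x) (by
      rw [mem_eball, edist_zero_right, ← ofReal_norm]
      exact_mod_cast (ENNReal.ofReal_lt_one.2 hx))
  rw [zero_add, one_div] at h1
  refine h1.congr_fun'' fun n => ?_
  rw [FormalMultilinearSeries.ofScalars_apply_eq, cb_choose, smul_eq_mul]

theorem cb_wallis (n : ℕ) : cb n ^ 2 * (2 * n + 1) * Real.Wallis.W n = 1 := by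
  induction n with
  | zero => simp [cb, Real.Wallis.W]
  | succ n ih =>
    rw [cb_succ, Real.Wallis.W_succ]
    push_cast
    field_simp
    have e1 : (2 : ℝ) * (n + 1) + 1 = 2 * n + 3 := by ring
    rw [e1]
    field_simp
    field_simp at ih
    linarith

theorem cb_tendsto : Tendsto (fun k : ℕ => cb k * √((k : ℝ) + 1)) atTop (𝓝 (1 / √π)) := by
  have h1 := Real.Wallis.tendsto_W_nhds_pi_div_two
  have hpi : (π / 2 : ℝ) ≠ 0 := by positivity
  have h2 := h1.inv₀ hpi
  have h3 : Tendsto (fun k : ℕ => ((k : ℝ) + 1) / (2 * k + 1)) atTop (𝓝 (1 / 2)) := by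
    have h4 : Tendsto (fun k : ℕ => (1 : ℝ) / (k : ℝ)) atTop (𝓝 0) :=
      tendsto_one_div_atTop_nhds_zero_nat
    have h5 : Tendsto (fun k : ℕ => (1 + (1 : ℝ) / k) / (2 + 1 / k)) atTop
        (𝓝 ((1 + 0) / (2 + 0))) := (h4.const_add 1).div (h4.const_add 2) (by norm_num)
    rw [add_zero, add_zero] at h5
    refine h5.congr' ?_
    filter_upwards [eventually_gt_atTop 0] with k hk
    have : (k : ℝ) ≠ 0 := by exact_mod_cast hk.ne'
    field_simp
  have h4 := h2.mul h3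
  have e1 : (π / 2)⁻¹ * (1 / 2) = 1 / π := by
    have := Real.pi_pos.ne'
    field_simp
  rw [e1] at h4
  have h5 := h4.sqrt
  have e2 : √(1 / π) = 1 / √π := by rw [Real.sqrt_div zero_le_one, Real.sqrt_one]
  rw [e2] at h5
  refine h5.congr fun k => ?_
  have h6 := cb_wallis k
  have h7 := Real.Wallis.W_pos k
  have h8 : (Real.Wallis.W k)⁻¹ = cb k ^ 2 * (2 * k + 1) := by
    field_simp
    linarith
  rw [h8]
  have e3 : cb k ^ 2 * (2 * (k : ℝ) + 1) * (((k : ℝ) + 1) / (2 * k + 1)) =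
      cb k ^ 2 * ((k : ℝ) + 1) := by
    have : (2 * (k : ℝ) + 1) ≠ 0 := by positivity
    field_simp
  rw [e3, Real.sqrt_mul (sq_nonneg _), Real.sqrt_sq (cb_pos k).le]

/-- the derivative of a power series -/
theorem ser_deriv {f : ℂ → ℂ} {b : ℕ → ℂ} {R : ℝ} (hR : 0 < R)
    (h : ∀ q : ℂ, ‖q‖ < R → HasSum (fun m => b m * q ^ m) (f q)) {q : ℂ} (hq : ‖q‖ < R) :
    HasSum (fun m : ℕ => ((m + 1 : ℕ) : ℂ) * b (m + 1) * q ^ m) (deriv f q) := by
  obtain ⟨hd, hi⟩ := ser_iter hR h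
  have h1 : DifferentiableOn ℂ (deriv f) (ball 0 R) := hd.deriv isOpen_ball
  have h2 := hasSum_taylorSeries_on_ball h1 (z := q) (by simpa using hq)
  refine h2.congr_fun'' fun m => ?_
  rw [← iteratedDeriv_succ', hi, sub_zero, smul_eq_mul, smul_eq_mul, Nat.factorial_succ]
  have : (m.factorial : ℂ) ≠ 0 := Nat.cast_ne_zero.2 m.factorial_ne_zero
  push_cast
  field_simp

/-- the series of the singular part -/
theorem sing_hasSum {R : ℝ} (hR : 0 < R) {q : ℂ} (hq : ‖q‖ < R) :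
    HasSum (fun m : ℕ => ((if Odd m then cb (m / 2) / R ^ m else 0 : ℝ) : ℂ) * q ^ m)
      ((q / R) * ((1 - (q / R) ^ 2) ^ (2 : ℂ)⁻¹)⁻¹) := by
  have hRc : (R : ℂ) ≠ 0 := by exact_mod_cast hR.ne'
  have h1 : ‖(q / R) ^ 2‖ < 1 := by
    rw [norm_pow, norm_div, norm_real, Real.norm_eq_abs, abs_of_pos hR]
    have : ‖q‖ / R < 1 := (div_lt_one hR).2 hq
    exact pow_lt_one₀ (by positivity) this (by norm_num)
  have h2 := (cb_hasSum h1).mul_left (q / R)
  have hinj : Function.Injective fun n : ℕ => 2 * n + 1 := fun a b h => by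
    simp only at h; omega
  have h3 := hinj.hasSum_iff (f := fun m : ℕ =>
    ((if Odd m then cb (m / 2) / R ^ m else 0 : ℝ) : ℂ) * q ^ m)
    (a := (q / R) * ((1 - (q / R) ^ 2) ^ (2 : ℂ)⁻¹)⁻¹) (fun m hm => by
      have : ¬ Odd m := fun ⟨k, hk⟩ => hm ⟨k, hk.symm⟩
      simp only [if_neg this, ofReal_zero, zero_mul])
  rw [← h3]
  refine h2.congr_fun'' fun n => ?_
  have ho : Odd (2 * n + 1) := ⟨n, rfl⟩
  have e : (2 * n + 1) / 2 = n := by omega
  simp only [Function.comp, if_pos ho, e]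
  push_cast
  rw [pow_succ, pow_succ, pow_mul, pow_mul, div_pow, div_pow]
  field_simp

end

end KN.SQ
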