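import Pool.Agent.H132.SQ.Co
import Pool.Agent.H132.SQ.Ap5

/-!
# The asymptotics of the coefficients
-/

set_option autoImplicit false

namespace KN.SQ

open Finset Filter Topology Metric Complex
open scoped Classical ENNReal Real

noncomputable section

namespace Mdl

variable {M : Mdl} {Cl Cr : Cap} {a : ℕ → ℝ}

theorem fourth_root_le {n : ℕ} {x : ℝ} (hx : (1 : ℝ) / 2 / n ≤ x) (hn : 1 ≤ n) :
    1 / √√x ≤ 2 * √√(n : ℝ) := by
  have hn0 : (0 : ℝ) < n := by exact_mod_cast hn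
  have h1 : 1 ≤ 2 * (n * x) := by
    have := mul_le_mul_of_nonneg_left hx (show (0 : ℝ) ≤ 2 * n by positivity)
    have e : 2 * (n : ℝ) * (1 / 2 / n) = 1 := by field_simp
    rw [e] at this
    linarith
  have hx0 : 0 < x := lt_of_lt_of_le (by positivity) hx
  have h2 : 0 < √√x := Real.sqrt_pos.2 (Real.sqrt_pos.2 hx0)
  rw [div_le_iff₀ h2]
  have h3 : 1 ≤ 16 * (n * x) := by linarith
  have h4 : √√((16 : ℝ) * (n * x)) = 2 * √√(n : ℝ) * √√x := by
    rw [Real.sqrt_mul (by norm_num), Real.sqrt_mul (by positivity), Real.sqrt_mul hn0.le,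
      Real.sqrt_mul (by positivity)]
    have e1 : √(16 : ℝ) = 4 := by
      rw [show (16 : ℝ) = 4 ^ 2 by norm_num, Real.sqrt_sq (by norm_num)]
    have e2 : √(4 : ℝ) = 2 := by
      rw [show (4 : ℝ) = 2 ^ 2 by norm_num, Real.sqrt_sq (by norm_num)]
    rw [e1, e2]; ring
  rw [← h4]
  exact Real.one_le_sqrt.2 (Real.one_le_sqrt.2 h3)

/-- the coefficients of the regular part -/
def hc (M : Mdl) (Cl Cr : Cap) (a : ℕ → ℝ) (m : ℕ) : ℂ :=
  ((m + 1 : ℕ) : ℂ) * (a (m + 1) : ℂ) -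
    (C1 M Cl Cr : ℂ) * ((if Odd m then cb (m / 2) / M.qc ^ m else 0 : ℝ) : ℂ)

theorem hh_hasSum (hF : ∀ q : ℂ, ‖q‖ < M.qc → HasSum (fun n => (a n : ℂ) * q ^ n) (M.F Cl Cr q))
    {q : ℂ} (hq : ‖q‖ < M.qc) : HasSum (fun m => hc M Cl Cr a m * q ^ m) (hh M Cl Cr q) := by
  have h1 := ser_deriv M.qc_pos hF hq
  have h2 := (sing_hasSum M.qc_pos hq).mul_left (C1 M Cl Cr : ℂ)
  have h3 := h1.sub h2
  have hq2 : ‖q‖ < 2 := by linarith [M.qc_lt]
  have e1 : deriv (M.F Cl Cr) q = M.F' Cl Cr q := (F_deriv hq2 (isUnit_of_lt hq)).deriv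
  rw [e1] at h3
  have e2 : hh M Cl Cr q = M.F' Cl Cr q - (C1 M Cl Cr : ℂ) *
      ((q / M.qc) * ((1 - (q / M.qc) ^ 2) ^ (2 : ℂ)⁻¹)⁻¹) := by
    unfold hh sr; ring
  rw [e2]
  refine h3.congr_fun'' fun m => ?_
  unfold hc; ring

theorem hh_odd (hF : ∀ q : ℂ, ‖q‖ < M.qc → HasSum (fun n => (a n : ℂ) * q ^ n) (M.F Cl Cr q))
    (ho : ∀ n, Odd n → a n = 0) {q : ℂ} (hq : ‖q‖ < M.qc) :
    hh M Cl Cr (-q) = - hh M Cl Cr q := by
  have h1 := hh_hasSum hF hq
  have h2 := hh_hasSum hF (q := -q) (by rwa [norm_neg])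
  have h3 : HasSum (fun m => hc M Cl Cr a m * (-q) ^ m) (- hh M Cl Cr q) := by
    refine h1.neg.congr_fun'' fun m => ?_
    rcases Nat.even_or_odd m with he | hod
    · have : hc M Cl Cr a m = 0 := by
        unfold hc
        rw [ho (m + 1) he.add_one, if_neg (Nat.not_odd_iff_even.2 he)]
        simp
      rw [this]; ring
    · rw [hod.neg_pow]; ring
  exact h2.unique h3

/-- the second derivative -/
theorem hh_iter (hF : ∀ q : ℂ, ‖q‖ < M.qc → HasSum (fun n => (a n : ℂ) * q ^ n) (M.F Cl Cr q))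
    (ho : ∀ n, Odd n → a n = 0) : ∃ Y, 0 ≤ Y ∧ ∀ n : ℕ, 2 ≤ n → ∀ q : ℂ,
      ‖q‖ = M.qc * (1 - 1 / n) → ‖iteratedDeriv 2 (hh M Cl Cr) q‖ ≤
      (Y * √√(n : ℝ)) * (1 / ‖(M.qc : ℂ) - q‖ ^ 2 + 1 / ‖(M.qc : ℂ) + q‖ ^ 2) := by
  obtain ⟨X, hX0, hX⟩ := hh_bd M Cl Cr
  have key : ∀ n : ℕ, 2 ≤ n → ∀ q : ℂ, ‖q‖ = M.qc * (1 - 1 / n) → 0 ≤ q.re →
      ‖iteratedDeriv 2 (hh M Cl Cr) q‖ ≤
      (6400 * X * √√(n : ℝ)) * (1 / ‖(M.qc : ℂ) - q‖ ^ 2) := by
    intro n hn q hq hre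
    have hn0 : (0 : ℝ) < n := by exact_mod_cast (by omega : 0 < n)
    have hqc := M.qc_ge
    have hqc1 := M.qc_lt
    set δ := ‖(M.qc : ℂ) - q‖ with hδ
    have hδn : (1 : ℝ) / 2 / n * (999 / 500) ≤ δ := by
      have h1 : ‖(M.qc : ℂ)‖ - ‖q‖ ≤ δ := norm_sub_norm_le _ _
      rw [Complex.norm_real, Real.norm_eq_abs, abs_of_pos M.qc_pos, hq] at h1
      have h2 : M.qc - M.qc * (1 - 1 / n) = M.qc * (1 / n) := by ring
      rw [h2] at h1
      refine le_trans ?_ h1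
      have h3 : (0 : ℝ) < 1 / n := by positivity
      have h4 : (1 : ℝ) / 2 / n * (999 / 500) = 999 / 1000 * (1 / n) := by ring
      rw [h4]
      exact mul_le_mul_of_nonneg_right hqc h3.le
    have hδ0 : 0 < δ := lt_of_lt_of_le (by positivity) hδn
    have hqle : ‖q‖ ≤ M.qc := by
      rw [hq]
      have h3 : (0 : ℝ) < 1 / n := by positivity
      nlinarith [M.qc_pos]
    have hball : closedBall q (δ / 40) ⊆ M.U := by
      intro p hp
      refine ball_sub hqle hre ?_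
      rw [mem_closedBall, dist_eq_norm] at hp
      rw [← hδ]
      linarith
    have hdc : DiffContOnCl ℂ (hh M Cl Cr) (ball q (δ / 40)) := by
      refine DifferentiableOn.diffContOnCl ?_
      rw [closure_ball _ (by positivity)]
      exact hh_diff.mono hball
    have h1 := norm_iteratedDeriv_le_of_forall_mem_sphere_norm_le 2 (show 0 < δ / 40 by positivity)
      hdc (C := X * (2 * √√(n : ℝ))) (fun z hz => by
        have hzU : z ∈ M.U := hball (sphere_subset_closedBall hz)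
        refine (hX z hzU).trans (mul_le_mul_of_nonneg_left ?_ hX0)
        refine fourth_root_le ?_ (by omega)
        rw [mem_sphere, dist_eq_norm] at hz
        have h2 : δ ≤ ‖z - M.qc‖ + ‖z - q‖ := by
          rw [hδ, norm_sub_rev z (M.qc : ℂ)]
          have := norm_add_le ((M.qc : ℂ) - z) (z - q)
          rwa [sub_add_sub_cancel] at this
        rw [hz] at h2
        have h3 : (0 : ℝ) < 1 / 2 / n := by positivity
        linarith)
    refine h1.trans (le_of_eq ?_)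
    have : ((2 : ℕ).factorial : ℝ) = 2 := by norm_num [Nat.factorial]
    rw [this]
    field_simp
    ring
  refine ⟨6400 * X, by positivity, fun n hn q hq => ?_⟩
  have hn0 : (0 : ℝ) < n := by exact_mod_cast (by omega : 0 < n)
  have hs : 0 ≤ √√(n : ℝ) := Real.sqrt_nonneg _
  rcases le_total 0 q.re with h | h
  · refine (key n hn q hq h).trans (mul_le_mul_of_nonneg_left ?_ (by positivity))
    have : 0 ≤ 1 / ‖(M.qc : ℂ) + q‖ ^ 2 := by positivity
    linarith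
  · have h1 := key n hn (-q) (by rwa [norm_neg]) (by simpa using h)
    have hqlt : ‖q‖ < M.qc := by
      rw [hq]
      have h3 : (0 : ℝ) < 1 / n := by positivity
      nlinarith [M.qc_pos]
    have h2 : (fun x => hh M Cl Cr (-x)) =ᶠ[𝓝 q] fun x => - hh M Cl Cr x := by
      have : ball (0 : ℂ) M.qc ∈ 𝓝 q := isOpen_ball.mem_nhds (by simpa using hqlt)
      filter_upwards [this] with x hx
      exact hh_odd hF ho (by simpa using hx)
    have h3 := h2.iteratedDeriv_eq 2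
    rw [iteratedDeriv_comp_neg, iteratedDeriv_fun_neg] at h3
    have h4 : ‖iteratedDeriv 2 (hh M Cl Cr) q‖ = ‖iteratedDeriv 2 (hh M Cl Cr) (-q)‖ := by
      have := congrArg norm h3
      simpa using this.symm
    rw [h4]
    refine h1.trans (mul_le_mul_of_nonneg_left ?_ (by positivity))
    rw [sub_neg_eq_add]
    have : 0 ≤ 1 / ‖(M.qc : ℂ) - q‖ ^ 2 := by positivity
    linarith

/-- the coefficients -/
theorem coef_asym
    (hF : ∀ q : ℂ, ‖q‖ < M.qc → HasSum (fun n => (a n : ℂ) * q ^ n) (M.F Cl Cr q))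
    (ho : ∀ n, Odd n → a n = 0) :
    Tendsto (fun k : ℕ => a (2 * k) * M.qc ^ (2 * k) * ((k : ℝ) * √(k : ℝ))) atTop
      (𝓝 (C1 M Cl Cr * M.qc / (2 * √π))) := by
  obtain ⟨Y, hY0, hY⟩ := hh_iter hF ho
  have h1 : ∀ n : ℕ, 2 ≤ n → ‖hc M Cl Cr a n‖ * M.qc ^ n ≤ 16 * (Y * √√(n : ℝ)) / n :=
    fun n hn => coef_le M.qc_pos (by positivity) (fun q hq => hh_hasSum hF hq) hn (hY n hn)
  -- the difference
  set x : ℕ → ℝ := fun k => (2 * k + 2) * a (2 * k + 2) * M.qc ^ (2 * k + 1) with hx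
  have h2 : ∀ k : ℕ, 1 ≤ k → |x k - C1 M Cl Cr * cb k| ≤
      16 * (Y * √√((2 * k + 1 : ℕ) : ℝ)) / ((2 * k + 1 : ℕ) : ℝ) := by
    intro k hk
    refine le_trans (le_of_eq ?_) (h1 (2 * k + 1) (by omega))
    have ho' : Odd (2 * k + 1) := ⟨k, rfl⟩
    have e : (2 * k + 1) / 2 = k := by omega
    have hp : 0 < M.qc ^ (2 * k + 1) := pow_pos M.qc_pos _
    have e1 : hc M Cl Cr a (2 * k + 1) =
        (((2 * k + 2) * a (2 * k + 2) - C1 M Cl Cr * (cb k / M.qc ^ (2 * k + 1)) : ℝ) : ℂ) := by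
      unfold hc
      rw [if_pos ho', e]
      push_cast
      ring
    rw [e1, Complex.norm_real, Real.norm_eq_abs]
    rw [← abs_of_pos hp, ← abs_mul, abs_of_pos hp]
    congr 1
    simp only [hx]
    field_simp
  have h3 : Tendsto (fun k : ℕ => (x k - C1 M Cl Cr * cb k) * √((k : ℝ) + 1)) atTop (𝓝 0) := by
    have h4 : Tendsto (fun k : ℕ => 16 * Y * (1 / √√((k : ℝ) + 1))) atTop (𝓝 0) := by
      have h5 : Tendsto (fun k : ℕ => √√((k : ℝ) + 1)) atTop atTop := by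
        refine Real.tendsto_sqrt_atTop.comp (Real.tendsto_sqrt_atTop.comp ?_)
        exact tendsto_atTop_add_const_right _ _ tendsto_natCast_atTop_atTop
      have h6 := h5.inv_tendsto_atTop.const_mul (16 * Y)
      rw [mul_zero] at h6
      refine h6.congr fun k => ?_
      simp
    refine squeeze_zero_norm' ?_ h4
    filter_upwards [eventually_ge_atTop 1] with k hk
    rw [Real.norm_eq_abs, abs_mul, abs_of_nonneg (Real.sqrt_nonneg _)]
    have hk1 : (0 : ℝ) < (k : ℝ) + 1 := by positivity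
    have hk2 : (0 : ℝ) < ((2 * k + 1 : ℕ) : ℝ) := by positivity
    set s := √√((k : ℝ) + 1) with hs
    have hs0 : 0 < s := Real.sqrt_pos.2 (Real.sqrt_pos.2 hk1)
    have hs2 : s * s = √((k : ℝ) + 1) := Real.mul_self_sqrt (Real.sqrt_nonneg _)
    have hs4 : √((k : ℝ) + 1) * √((k : ℝ) + 1) = (k : ℝ) + 1 := Real.mul_self_sqrt hk1.le
    set w := √√((2 * k + 1 : ℕ) : ℝ) with hw
    have hw0 : 0 < w := Real.sqrt_pos.2 (Real.sqrt_pos.2 hk2)
    have hw2 : w * w = √((2 * k + 1 : ℕ) : ℝ) := Real.mul_self_sqrt (Real.sqrt_nonneg _)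
    have hw4 : √((2 * k + 1 : ℕ) : ℝ) * √((2 * k + 1 : ℕ) : ℝ) = ((2 * k + 1 : ℕ) : ℝ) :=
      Real.mul_self_sqrt hk2.le
    have hsw : s ≤ w := by
      refine Real.sqrt_le_sqrt (Real.sqrt_le_sqrt ?_)
      push_cast
      have : (0 : ℝ) ≤ k := Nat.cast_nonneg k
      linarith
    have e1 : 16 * (Y * w) / ((2 * k + 1 : ℕ) : ℝ) = 16 * Y / (w * w * w) := by
      rw [← hw4, ← hw2]; field_simp
    calc |x k - C1 M Cl Cr * cb k| * √((k : ℝ) + 1) ≤
          (16 * (Y * w) / ((2 * k + 1 : ℕ) : ℝ)) * √((k : ℝ) + 1) :=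
          mul_le_mul_of_nonneg_right (h2 k hk) (Real.sqrt_nonneg _)
      _ = 16 * Y / (w * w * w) * (s * s) := by rw [e1, hs2]
      _ ≤ 16 * Y / (s * s * s) * (s * s) := by
          refine mul_le_mul_of_nonneg_right ?_ (by positivity)
          refine div_le_div_of_nonneg_left (by positivity) (by positivity) ?_
          gcongr
      _ = 16 * Y * (1 / s) := by field_simp
  have h4 := (cb_tendsto.const_mul (C1 M Cl Cr)).add h3
  rw [add_zero] at h4
  have h5 : Tendsto (fun k : ℕ => x k * √((k : ℝ) + 1)) atTop (𝓝 (C1 M Cl Cr * (1 / √π))) :=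
    h4.congr fun k => by ring
  have h6 := h5.mul_const (M.qc / 2)
  have e1 : C1 M Cl Cr * (1 / √π) * (M.qc / 2) = C1 M Cl Cr * M.qc / (2 * √π) := by
    have := (Real.sqrt_pos.2 Real.pi_pos).ne'
    field_simp
  rw [e1] at h6
  rw [← tendsto_add_atTop_iff_nat 1]
  refine h6.congr fun k => ?_
  simp only [hx]
  have e2 : 2 * (k + 1) = 2 * k + 2 := by ring
  rw [e2]
  push_cast
  ring

end Mdl

end

end KN.SQ
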