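import Pool.Agent.H132.SQ.Rs

/-!
# The solution at the critical value
-/

set_option autoImplicit false

namespace KN.SQ

open Finset Filter Topology
open scoped Classical ENNReal ComplexConjugate ComplexOrder

noncomputable section

/-- summability of geometric weights over the integers -/
theorem int_geom (k : ℕ) {r : ℝ} (h0 : 0 ≤ r) (h1 : r < 1) :
    Summable fun d : ℤ => ((d.natAbs : ℝ) ^ k) * r ^ d.natAbs := by
  have h : Summable fun n : ℕ => (n : ℝ) ^ k * r ^ n :=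
    summable_pow_mul_geometric_of_norm_lt_one k (by rwa [Real.norm_eq_abs, abs_of_nonneg h0])
  exact Summable.of_nat_of_neg (by simpa using h) (by simpa using h)

theorem int_geom0 {r : ℝ} (h0 : 0 ≤ r) (h1 : r < 1) :
    Summable fun d : ℤ => r ^ d.natAbs := by
  simpa using int_geom 0 h0 h1

theorem int_geom1 {r : ℝ} (h0 : 0 ≤ r) (h1 : r < 1) :
    Summable fun d : ℤ => ((d.natAbs : ℝ) + 1) * r ^ d.natAbs := by
  have := (int_geom 1 h0 h1).add (int_geom0 h0 h1)
  refine this.congr fun d => by ring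

/-- nonnegative functions -/
def Pos (f : H) : Prop := ∀ d, 0 ≤ f d

theorem Pos.inner_re {f g : H} (hf : Pos f) (hg : Pos g) : 0 ≤ (inner ℂ f g).re := by
  rw [lp.inner_eq_tsum]
  rw [Complex.re_tsum (lp.summable_inner f g)]
  refine tsum_nonneg fun d => ?_
  have h1 := Complex.nonneg_iff.1 (hf d)
  have h2 := Complex.nonneg_iff.1 (hg d)
  have e1 : (inner ℂ (f d) (g d)).re = (f d).re * (g d).re := by
    rw [RCLike.inner_apply]
    simp [← h1.2, ← h2.2]
    ring
  rw [e1]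
  exact mul_nonneg h1.1 h2.1

namespace Mdl

variable (M : Mdl)

/-- the weights at the critical value -/
def W (b : M.ι) : ℝ := M.c b * M.qc ^ (M.L b + 2)

theorem W_nonneg (b : M.ι) : 0 ≤ M.W b := mul_nonneg (M.c0 b) (pow_nonneg M.qc_pos.le _)

theorem W_le (b : M.ι) : M.W b ≤ M.c b := by
  unfold W
  exact mul_le_of_le_one_right (M.c0 b) (pow_le_one₀ M.qc_pos.le M.qc_lt.le)

theorem W_summable : Summable M.W := M.m_summable M.qc_abs

theorem W_sum : ∑' b, M.W b = 1 - M.qc ^ 2 := by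
  have := M.m_qc
  unfold m at this
  unfold W
  linarith

theorem w_qc (b : M.ι) : M.w (M.qc : ℂ) b = (M.W b : ℂ) := by
  unfold w W; push_cast; rfl

theorem K_pos {f : H} (hf : Pos f) : Pos (M.K (M.qc : ℂ) f) := by
  intro d
  rw [M.K_apply, M.N_apply M.qc_norm]
  refine add_nonneg (mul_nonneg ?_ (hf d)) (tsum_nonneg fun b => mul_nonneg ?_ ?_)
  · rw [← Complex.ofReal_pow]
    exact Complex.zero_le_real.2 (by positivity)
  · rw [w_qc]
    exact Complex.zero_le_real.2 (M.W_nonneg b)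
  · split_ifs
    · exact hf _
    · exact le_rfl

theorem cv_pos (C : Cap) : Pos (C.cv (M.qc : ℂ)) := by
  intro d
  unfold Cap.cv
  rw [← (C.apply_aux (C.b_norm M.qc_norm) d).tsum_eq]
  refine tsum_nonneg fun r => ?_
  split_ifs
  · rw [← Complex.ofReal_pow, ← Complex.ofReal_mul]
    exact Complex.zero_le_real.2 (mul_nonneg (C.a0 r) (pow_nonneg M.qc_pos.le _))
  · exact le_rfl

/-- the partial sums -/
def SM (C : Cap) : ℕ → H
  | 0 => 0
  | n + 1 => C.cv (M.qc : ℂ) + M.K (M.qc : ℂ) (SM C n)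

variable {M} {C : Cap}

theorem SM_pos (n : ℕ) : Pos (M.SM C n) := by
  induction n with
  | zero => intro d; exact le_of_eq rfl
  | succ n ih =>
    intro d
    exact add_nonneg (M.cv_pos C d) (M.K_pos ih d)

theorem SM_mono (n : ℕ) : Pos (M.SM C (n + 1) - M.SM C n) := by
  induction n with
  | zero =>
    have e : M.SM C (0 + 1) - M.SM C 0 = C.cv (M.qc : ℂ) := by
      show (C.cv (M.qc : ℂ) + M.K (M.qc : ℂ) 0) - 0 = _
      rw [map_zero, add_zero, sub_zero]
    rw [e]; exact M.cv_pos C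
  | succ n ih =>
    have e : M.SM C (n + 1 + 1) - M.SM C (n + 1) =
        M.K (M.qc : ℂ) (M.SM C (n + 1) - M.SM C n) := by
      show (C.cv (M.qc : ℂ) + M.K (M.qc : ℂ) (M.SM C (n + 1))) -
        (C.cv (M.qc : ℂ) + M.K (M.qc : ℂ) (M.SM C n)) = _
      rw [map_sub]; abel
    rw [e]; exact M.K_pos ih

theorem N_zero {q : ℂ} (hq : ‖q‖ ≤ 2) (f : H) : M.N q f 0 = 0 := by
  rw [M.N_apply hq]
  convert tsum_zero with b
  rw [if_neg (M.P0 b), mul_zero]

theorem SM_zero (n : ℕ) : M.SM C n 0 = 0 := by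
  induction n with
  | zero => rfl
  | succ n ih =>
    show C.cv (M.qc : ℂ) 0 + M.K (M.qc : ℂ) (M.SM C n) 0 = 0
    rw [C.cv_zero M.qc_norm, M.K_apply, ih, N_zero M.qc_norm]
    simp

/-- the sum of the geometric weights -/
def g1 : ℝ := ∑' d : ℤ, ((d.natAbs : ℝ) + 1) * (1 / 4) ^ d.natAbs

theorem g1_nonneg : 0 ≤ g1 := tsum_nonneg fun d => by positivity

theorem sqrt_le_succ (d : ℤ) : √|(d : ℝ)| ≤ (d.natAbs : ℝ) + 1 := by
  rw [Real.sqrt_le_left (by positivity)]
  have e : |(d : ℝ)| = (d.natAbs : ℝ) := by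
    rw [Nat.cast_natAbs, Int.cast_abs]
  rw [e]
  nlinarith [(Nat.cast_nonneg d.natAbs : (0 : ℝ) ≤ (d.natAbs : ℝ))]

theorem norm_le_sqrt {f : H} (h0 : f 0 = 0) (d : ℤ) :
    ‖f d‖ ≤ ((d.natAbs : ℝ) + 1) * √(D f) := by
  have h1 := sq_le_D h0 d
  have h2 : ‖f d‖ ≤ √(|(d : ℝ)| * D f) := Real.le_sqrt_of_sq_le h1
  rw [Real.sqrt_mul (abs_nonneg _)] at h2
  exact h2.trans (mul_le_mul_of_nonneg_right (sqrt_le_succ d) (Real.sqrt_nonneg _))

theorem inner_le_of_bd {f h : H} (h0 : f 0 = 0) {X : ℝ}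
    (hX : ∀ d : ℤ, ‖h d‖ ≤ X * (1 / 4) ^ d.natAbs) :
    ‖inner ℂ f h‖ ≤ X * g1 * √(D f) := by
  rw [lp.inner_eq_tsum]
  have hs := (int_geom1 (r := 1 / 4) (by norm_num) (by norm_num)).mul_left (X * √(D f))
  have e : X * g1 * √(D f) = ∑' d : ℤ, X * √(D f) * (((d.natAbs : ℝ) + 1) * (1 / 4) ^ d.natAbs) := by
    rw [tsum_mul_left]; unfold g1; ring
  rw [e]
  refine tsum_of_norm_bounded hs.hasSum fun d => ?_
  refine (norm_inner_le_norm _ _).trans ?_
  have h1 := norm_le_sqrt h0 d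
  calc ‖f d‖ * ‖h d‖ ≤ (((d.natAbs : ℝ) + 1) * √(D f)) * (X * (1 / 4) ^ d.natAbs) :=
        mul_le_mul h1 (hX d) (norm_nonneg _) (by positivity)
    _ = _ := by ring

theorem SM_energy (n : ℕ) : M.A (M.SM C n) ≤ C.T * g1 * √(D (M.SM C n)) := by
  have h1 := M.A_inner (M.SM C n)
  have e1 : M.SM C n - M.K (M.qc : ℂ) (M.SM C n) = C.cv (M.qc : ℂ) -
      (M.SM C (n + 1) - M.SM C n) := by
    show _ = C.cv (M.qc : ℂ) - ((C.cv (M.qc : ℂ) + M.K (M.qc : ℂ) (M.SM C n)) - M.SM C n)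
    abel
  rw [e1, inner_sub_right] at h1
  have h2 := congrArg Complex.re h1
  rw [Complex.sub_re, Complex.ofReal_re] at h2
  have h3 := (SM_pos (M := M) (C := C) n).inner_re (SM_mono (M := M) (C := C) n)
  have h4 := inner_le_of_bd (SM_zero (M := M) (C := C) n) (C.cv_bd M.qc_norm)
  have h5 := Complex.re_le_norm (inner ℂ (M.SM C n) (C.cv (M.qc : ℂ)))
  linarith

/-- the constant of the energy -/
def CD (M : Mdl) (C : Cap) : ℝ := 2 * (C.T * g1) / (M.a * M.qc ^ 3)

theorem CD_nonneg : 0 ≤ CD M C := by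
  unfold CD
  have := C.T_nonneg
  have := g1_nonneg
  have := M.a0
  have := M.qc_pos
  positivity

theorem SM_D (n : ℕ) : √(D (M.SM C n)) ≤ CD M C := by
  have h1 := (M.A_ge (M.SM C n)).trans (SM_energy n)
  have h2 : 0 < M.a * M.qc ^ 3 := mul_pos M.a0 (pow_pos M.qc_pos _)
  unfold CD
  rw [le_div_iff₀ h2]
  have h3 := Real.mul_self_sqrt (D_nonneg (M.SM C n))
  have h4 := Real.sqrt_nonneg (D (M.SM C n))
  rcases h4.eq_or_lt with h5 | h5
  · rw [← h5]
    have := C.T_nonneg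
    have := g1_nonneg
    have : 0 ≤ C.T * g1 := by positivity
    linarith
  · have h6 : 1 / 2 * (M.a * M.qc ^ 3) * √(D (M.SM C n)) * √(D (M.SM C n)) ≤
        C.T * g1 * √(D (M.SM C n)) := by
      rw [mul_assoc, h3]; exact h1
    have h7 := le_of_mul_le_mul_right h6 h5
    linarith

/-- the real values of the partial sums -/
def s (M : Mdl) (C : Cap) (n : ℕ) (d : ℤ) : ℝ := (M.SM C n d).re

theorem s_coe (n : ℕ) (d : ℤ) : ((s M C n d : ℝ) : ℂ) = M.SM C n d := by
  have := (Complex.nonneg_iff.1 (SM_pos (M := M) (C := C) n d)).2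
  apply Complex.ext
  · rfl
  · simpa using this

theorem s_nonneg (n : ℕ) (d : ℤ) : 0 ≤ s M C n d :=
  (Complex.nonneg_iff.1 (SM_pos (M := M) (C := C) n d)).1

theorem s_mono (d : ℤ) : Monotone fun n => s M C n d := by
  refine monotone_nat_of_le_succ fun n => ?_
  have := (Complex.nonneg_iff.1 (SM_mono (M := M) (C := C) n d)).1
  have e : ((M.SM C (n + 1) - M.SM C n) d).re = s M C (n + 1) d - s M C n d := rfl
  rw [e] at this
  linarith

theorem s_le (n : ℕ) (d : ℤ) : s M C n d ≤ ((d.natAbs : ℝ) + 1) * CD M C := by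
  have h1 := norm_le_sqrt (SM_zero (M := M) (C := C) n) d
  have h2 : s M C n d ≤ ‖M.SM C n d‖ := Complex.re_le_norm _
  exact h2.trans (h1.trans (mul_le_mul_of_nonneg_left (SM_D n) (by positivity)))

theorem s_le' (n : ℕ) (d : ℤ) : s M C n d ≤ √|(d : ℝ)| * CD M C := by
  have h0 := sq_le_D (SM_zero (M := M) (C := C) n) d
  have h1 : ‖M.SM C n d‖ ≤ √(|(d : ℝ)| * D (M.SM C n)) := Real.le_sqrt_of_sq_le h0
  rw [Real.sqrt_mul (abs_nonneg _)] at h1
  have h2 : s M C n d ≤ ‖M.SM C n d‖ := Complex.re_le_norm _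
  exact h2.trans (h1.trans (mul_le_mul_of_nonneg_left (SM_D n) (Real.sqrt_nonneg _)))

/-- the solution at the critical value -/
def u (M : Mdl) (C : Cap) (d : ℤ) : ℝ := ⨆ n, s M C n d

theorem u_tendsto (d : ℤ) : Tendsto (fun n => s M C n d) atTop (𝓝 (u M C d)) :=
  tendsto_atTop_ciSup (s_mono d) ⟨_, by rintro _ ⟨n, rfl⟩; exact s_le n d⟩

theorem u_nonneg (d : ℤ) : 0 ≤ u M C d := ge_of_tendsto' (u_tendsto d) fun n => s_nonneg n d

theorem u_le (d : ℤ) : u M C d ≤ ((d.natAbs : ℝ) + 1) * CD M C :=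
  le_of_tendsto' (u_tendsto d) fun n => s_le n d

theorem u_le' (d : ℤ) : u M C d ≤ √|(d : ℝ)| * CD M C :=
  le_of_tendsto' (u_tendsto d) fun n => s_le' n d

theorem u_zero : u M C 0 = 0 := by
  have := u_le' (M := M) (C := C) 0
  simp at this
  exact le_antisymm this (u_nonneg 0)

/-- the value of the caps at the critical value -/
def cr (M : Mdl) (C : Cap) (d : ℤ) : ℝ := (C.cv (M.qc : ℂ) d).re

theorem cr_coe (d : ℤ) : ((cr M C d : ℝ) : ℂ) = C.cv (M.qc : ℂ) d := by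
  have := (Complex.nonneg_iff.1 (M.cv_pos C d)).2
  apply Complex.ext
  · rfl
  · simpa using this

theorem cr_nonneg (d : ℤ) : 0 ≤ cr M C d := (Complex.nonneg_iff.1 (M.cv_pos C d)).1

theorem cr_le (d : ℤ) : cr M C d ≤ C.T * (1 / 4) ^ d.natAbs :=
  (Complex.re_le_norm _).trans (C.cv_bd M.qc_norm d)

theorem lin_aux (b : M.ι) (d : ℤ) :
    (((d - M.v b).natAbs : ℝ) + 1) ≤ ((d.natAbs : ℝ) + 1) * 16 ^ M.L b := by
  have h1 := abs_le.1 (M.vL b)
  have h2 : (d - M.v b).natAbs ≤ d.natAbs + M.L b := by omega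
  have h3 : M.L b + 1 ≤ 16 ^ M.L b := Nat.lt_pow_self (by norm_num)
  have h4 : ((M.L b : ℝ) + 1) ≤ 16 ^ M.L b := by exact_mod_cast h3
  have h5 : (((d - M.v b).natAbs : ℕ) : ℝ) ≤ (d.natAbs : ℝ) + M.L b := by exact_mod_cast h2
  have h6 : (0 : ℝ) ≤ d.natAbs := Nat.cast_nonneg _
  have h7 : (0 : ℝ) ≤ M.L b := Nat.cast_nonneg _
  nlinarith

theorem u_summable (d : ℤ) :
    Summable fun b => M.W b * u M C (d - M.v b) := by
  refine Summable.of_nonneg_of_le (fun b => mul_nonneg (M.W_nonneg b) (u_nonneg _)) (fun b => ?_)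
    (M.sm.mul_left ((((d.natAbs : ℝ) + 1)) * CD M C))
  have h1 := (u_le (M := M) (C := C) (d - M.v b)).trans
    (mul_le_mul_of_nonneg_right (lin_aux b d) CD_nonneg)
  calc M.W b * u M C (d - M.v b) ≤ M.c b * (((d.natAbs : ℝ) + 1) * 16 ^ M.L b * CD M C) :=
        mul_le_mul (M.W_le b) h1 (u_nonneg _) (M.c0 b)
    _ = _ := by ring

theorem uP_summable (d : ℤ) :
    Summable fun b => M.W b * (if M.P b d then u M C (d - M.v b) else 0) := by
  refine Summable.of_nonneg_of_le (fun b => mul_nonneg (M.W_nonneg b) ?_) (fun b => ?_)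
    (u_summable (M := M) (C := C) d)
  · split_ifs
    · exact u_nonneg _
    · exact le_rfl
  · refine mul_le_mul_of_nonneg_left ?_ (M.W_nonneg b)
    split_ifs
    · exact le_rfl
    · exact u_nonneg _

theorem s_succ (n : ℕ) (d : ℤ) : s M C (n + 1) d = cr M C d + (M.qc ^ 2 * s M C n d +
    ∑' b, M.W b * (if M.P b d then s M C n (d - M.v b) else 0)) := by
  have h1 : M.SM C (n + 1) d = C.cv (M.qc : ℂ) d + M.K (M.qc : ℂ) (M.SM C n) d := rfl
  rw [M.K_apply, M.N_apply M.qc_norm] at h1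
  apply Complex.ofReal_injective
  rw [s_coe, h1]
  push_cast
  rw [cr_coe, s_coe]
  congr 2
  refine tsum_congr fun b => ?_
  rw [w_qc]
  congr 1
  split_ifs
  · rw [s_coe]
  · simp

theorem u_eq (d : ℤ) : u M C d = cr M C d + (M.qc ^ 2 * u M C d +
    ∑' b, M.W b * (if M.P b d then u M C (d - M.v b) else 0)) := by
  have h1 := (u_tendsto (M := M) (C := C) d).comp (tendsto_add_atTop_nat 1)
  have h2 : Tendsto (fun n => ∑' b, M.W b * (if M.P b d then s M C n (d - M.v b) else 0)) atTop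
      (𝓝 (∑' b, M.W b * (if M.P b d then u M C (d - M.v b) else 0))) := by
    refine tendsto_tsum_of_dominated_convergence (u_summable (M := M) (C := C) d)
      (fun b => ?_) (Eventually.of_forall fun n b => ?_)
    · refine Tendsto.const_mul _ ?_
      split_ifs
      · exact u_tendsto _
      · exact tendsto_const_nhds
    · have h3 : s M C n (d - M.v b) ≤ u M C (d - M.v b) :=
        (s_mono (d - M.v b)).ge_of_tendsto (u_tendsto _) n
      have h4 := s_nonneg (M := M) (C := C) n (d - M.v b)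
      rw [Real.norm_eq_abs, abs_mul, abs_of_nonneg (M.W_nonneg b)]
      refine mul_le_mul_of_nonneg_left ?_ (M.W_nonneg b)
      split_ifs
      · rwa [abs_of_nonneg h4]
      · rw [abs_zero]; exact u_nonneg _
  have h3 := (((u_tendsto (M := M) (C := C) d).const_mul (M.qc ^ 2)).add h2).const_add (cr M C d)
  refine tendsto_nhds_unique h1 (h3.congr fun n => ?_)
  exact (s_succ n d).symm

end Mdl

end

end KN.SQ
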