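import Pool.Agent.H132.SQ.Cs

/-!
# The solution at the critical value has limits at infinity
-/

set_option autoImplicit false

namespace KN.SQ

open Finset Filter Topology
open scoped Classical ENNReal ComplexConjugate

noncomputable section

theorem om_add {ω : ℤ → ℝ} (h1 : ∀ d, ω (d + 1) ≤ 2 * ω d) (n : ℕ) (d : ℤ) :
    ω (d + n) ≤ 2 ^ n * ω d := by
  induction n with
  | zero => simp
  | succ n ih =>
    have := h1 (d + n)
    have e : d + ((n + 1 : ℕ) : ℤ) = d + n + 1 := by push_cast; ring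
    rw [e, pow_succ]
    linarith

theorem om_sub {ω : ℤ → ℝ} (h1 : ∀ d, ω (d - 1) ≤ 2 * ω d) (n : ℕ) (d : ℤ) :
    ω (d - n) ≤ 2 ^ n * ω d := by
  induction n with
  | zero => simp
  | succ n ih =>
    have := h1 (d - n)
    have e : d - ((n + 1 : ℕ) : ℤ) = d - n - 1 := by push_cast; ring
    rw [e, pow_succ]
    linarith

theorem diff_bd {f ω : ℤ → ℝ} {K : ℝ} (h1 : ∀ d, ω (d + 1) ≤ 2 * ω d)
    (h2 : ∀ d, ω (d - 1) ≤ 2 * ω d) (h0 : ∀ d, 0 ≤ ω d) (hK : 0 ≤ K)
    (hg : ∀ d, |f (d + 1) + f (d - 1) - 2 * f d| ≤ K * ω d) (n : ℕ) (d : ℤ) :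
    |f (d + n) + f (d - n) - 2 * f d| ≤ 5 ^ n * (K * ω d) ∧
    |(f (d + n + 1) - f (d + n)) - (f (d - n) - f (d - n - 1))| ≤ 5 ^ n * (K * ω d) := by
  have h3 : 0 ≤ K * ω d := mul_nonneg hK (h0 d)
  induction n with
  | zero =>
    refine ⟨?_, ?_⟩
    · simp only [Nat.cast_zero, add_zero, sub_zero, pow_zero, one_mul]
      have : f d + f d - 2 * f d = 0 := by ring
      rw [this, abs_zero]; exact h3
    · simp only [Nat.cast_zero, add_zero, sub_zero, pow_zero, one_mul]
      refine le_trans (le_of_eq ?_) (hg d)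
      congr 1; ring
  | succ n ih =>
    have e1 : d + ((n + 1 : ℕ) : ℤ) = d + n + 1 := by push_cast; ring
    have e2 : d - ((n + 1 : ℕ) : ℤ) = d - n - 1 := by push_cast; ring
    have h5 : (1 : ℝ) ≤ 5 ^ n := one_le_pow₀ (by norm_num)
    have h6 : (2 : ℝ) ^ n ≤ 5 ^ n := pow_le_pow_left₀ (by norm_num) (by norm_num) n
    rw [e1, e2]
    refine ⟨?_, ?_⟩
    · have e3 : f (d + n + 1) + f (d - n - 1) - 2 * f d = (f (d + n) + f (d - n) - 2 * f d) +
        ((f (d + n + 1) - f (d + n)) - (f (d - n) - f (d - n - 1))) := by ring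
      rw [e3, pow_succ]
      refine (abs_add_le _ _).trans ?_
      nlinarith [ih.1, ih.2, mul_nonneg (zero_le_one.trans h5) h3]
    · have h7 := hg (d + n + 1)
      have h8 := hg (d - n - 1)
      rw [show d + n + 1 - 1 = d + n by ring] at h7
      rw [show d - n - 1 + 1 = d - n by ring] at h8
      have h9 := om_add h1 (n + 1) d
      have h10 := om_sub h2 (n + 1) d
      rw [e1] at h9
      rw [e2] at h10
      have e3 : f (d + n + 1 + 1) - f (d + n + 1) - (f (d - n - 1) - f (d - n - 1 - 1)) =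
        ((f (d + n + 1) - f (d + n)) - (f (d - n) - f (d - n - 1))) +
        ((f (d + n + 1 + 1) + f (d + n) - 2 * f (d + n + 1)) +
        (f (d - n) + f (d - n - 1 - 1) - 2 * f (d - n - 1))) := by ring
      rw [e3]
      refine (abs_add_le _ _).trans ?_
      have h11 := abs_add_le (f (d + n + 1 + 1) + f (d + n) - 2 * f (d + n + 1))
        (f (d - n) + f (d - n - 1 - 1) - 2 * f (d - n - 1))
      have h12 : K * ω (d + n + 1) ≤ 2 ^ (n + 1) * (K * ω d) := by
        calc K * ω (d + n + 1) ≤ K * (2 ^ (n + 1) * ω d) := mul_le_mul_of_nonneg_left h9 hK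
          _ = _ := by ring
      have h13 : K * ω (d - n - 1) ≤ 2 ^ (n + 1) * (K * ω d) := by
        calc K * ω (d - n - 1) ≤ K * (2 ^ (n + 1) * ω d) := mul_le_mul_of_nonneg_left h10 hK
          _ = _ := by ring
      have h14 : 2 ^ (n + 1) * (K * ω d) ≤ 2 * (5 ^ n * (K * ω d)) := by
        rw [pow_succ]
        have := mul_le_mul_of_nonneg_right h6 h3
        linarith
      have h15 := ih.2
      rw [pow_succ]
      linarith

theorem seq_lim {f : ℕ → ℝ} {Y C : ℝ} (hg : ∀ n, |f (n + 2) + f n - 2 * f (n + 1)| ≤ Y * (1 / 2) ^ n)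
    (hf : ∀ n, |f n| ≤ C * √n) : ∃ l, ∀ n, |f n - l| ≤ 4 * Y * (1 / 2) ^ n := by
  have hr : (1 / 2 : ℝ) < 1 := by norm_num
  set h : ℕ → ℝ := fun n => f (n + 1) - f n with hh
  have h1 : ∀ n, dist (h n) (h (n + 1)) ≤ Y * (1 / 2) ^ n := by
    intro n
    rw [dist_comm, Real.dist_eq]
    refine le_trans (le_of_eq ?_) (hg n)
    congr 1; simp only [hh]; ring
  obtain ⟨a, ha⟩ := cauchySeq_tendsto_of_complete (cauchySeq_of_le_geometric _ _ hr h1)
  have h2 : a = 0 := by
    have h3 := ha.cesaro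
    have h4 : Tendsto (fun n : ℕ => ((n : ℝ))⁻¹ * ∑ i ∈ range n, h i) atTop (𝓝 0) := by
      have e1 : ∀ n : ℕ, ((n : ℝ))⁻¹ * ∑ i ∈ range n, h i = ((n : ℝ))⁻¹ * f n - (n : ℝ)⁻¹ * f 0 := by
        intro n
        rw [show ∑ i ∈ range n, h i = f n - f 0 from sum_range_sub f n]
        ring
      simp only [e1]
      have h5 : Tendsto (fun n : ℕ => (n : ℝ)⁻¹ * f 0) atTop (𝓝 0) := by
        simpa using (tendsto_inv_atTop_nhds_zero_nat (𝕜 := ℝ)).mul_const (f 0)
      have h6 : Tendsto (fun n : ℕ => (n : ℝ)⁻¹ * f n) atTop (𝓝 0) := by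
        have h7 : Tendsto (fun n : ℕ => C * (√(n : ℝ))⁻¹) atTop (𝓝 0) := by
          have : Tendsto (fun n : ℕ => (√(n : ℝ))⁻¹) atTop (𝓝 0) :=
            (Real.tendsto_sqrt_atTop.comp tendsto_natCast_atTop_atTop).inv_tendsto_atTop
          simpa using this.const_mul C
        refine squeeze_zero_norm (fun n => ?_) h7
        rw [Real.norm_eq_abs, abs_mul, abs_of_nonneg (by positivity : (0 : ℝ) ≤ (n : ℝ)⁻¹)]
        rcases Nat.eq_zero_or_pos n with rfl | hn
        · simp
        · have hn' : (0 : ℝ) < n := by exact_mod_cast hn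
          have hs := Real.mul_self_sqrt hn'.le
          have hsp := Real.sqrt_pos.2 hn'
          have := mul_le_mul_of_nonneg_left (hf n) (inv_nonneg.2 hn'.le)
          refine this.trans (le_of_eq ?_)
          field_simp
          rw [sq, hs]
          ring
      simpa using h6.sub h5
    exact tendsto_nhds_unique h3 h4
  subst h2
  have h3 : ∀ n, |h n| ≤ 2 * Y * (1 / 2) ^ n := by
    intro n
    have := dist_le_of_le_geometric_of_tendsto _ _ hr h1 ha n
    rw [dist_zero_right, Real.norm_eq_abs] at this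
    refine this.trans (le_of_eq ?_)
    ring
  have h4 : ∀ n, dist (f n) (f (n + 1)) ≤ (2 * Y) * (1 / 2) ^ n := by
    intro n
    rw [dist_comm, Real.dist_eq]
    exact h3 n
  obtain ⟨l, hl⟩ := cauchySeq_tendsto_of_complete (cauchySeq_of_le_geometric _ _ hr h4)
  refine ⟨l, fun n => ?_⟩
  have := dist_le_of_le_geometric_of_tendsto _ _ hr h4 hl n
  rw [Real.dist_eq] at this
  refine this.trans (le_of_eq ?_)
  ring

/-- the two sided weight -/
def om (ε : ℝ) (d : ℤ) : ℝ := (1 / 2) ^ d.natAbs + ε * 2 ^ d.natAbs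

theorem om_step {ε : ℝ} (h : 0 ≤ ε) {d d' : ℤ} (hd : d'.natAbs ≤ d.natAbs + 1)
    (hd' : d.natAbs ≤ d'.natAbs + 1) : om ε d' ≤ 2 * om ε d := by
  unfold om
  have h1 : (1 / 2 : ℝ) ^ d'.natAbs ≤ 2 * (1 / 2) ^ d.natAbs := by
    have : (1 / 2 : ℝ) ^ (d'.natAbs + 1) ≤ (1 / 2) ^ d.natAbs :=
      pow_le_pow_of_le_one (by norm_num) (by norm_num) hd'
    rw [pow_succ] at this
    linarith
  have h2 : (2 : ℝ) ^ d'.natAbs ≤ 2 * 2 ^ d.natAbs := by
    have : (2 : ℝ) ^ d'.natAbs ≤ 2 ^ (d.natAbs + 1) := pow_le_pow_right₀ (by norm_num) hd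
    rw [pow_succ] at this
    linarith
  have h3 := mul_le_mul_of_nonneg_left h2 h
  linarith

namespace Mdl

variable {M : Mdl} {C : Cap}

theorem W_σ (b : M.ι) : M.W (M.σ b) = M.W b := by unfold W; rw [M.cσ, M.Lσ]

/-- the defect -/
def θ (M : Mdl) (C : Cap) (d : ℤ) : ℝ :=
  (∑' b, M.W b * (if M.P b d then 0 else u M C (d - M.v b))) - cr M C d

theorem uN_summable (d : ℤ) :
    Summable fun b => M.W b * (if M.P b d then 0 else u M C (d - M.v b)) := by
  refine Summable.of_nonneg_of_le (fun b => mul_nonneg (M.W_nonneg b) ?_) (fun b => ?_)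
    (u_summable (M := M) (C := C) d)
  · split_ifs
    · exact le_rfl
    · exact u_nonneg _
  · refine mul_le_mul_of_nonneg_left ?_ (M.W_nonneg b)
    split_ifs
    · exact u_nonneg _
    · exact le_rfl

theorem u_balance (d : ℤ) : (∑' b, M.W b * u M C (d - M.v b)) - (1 - M.qc ^ 2) * u M C d =
    θ M C d := by
  have h1 := u_eq (M := M) (C := C) d
  have h2 : ∑' b, M.W b * u M C (d - M.v b) =
      (∑' b, M.W b * (if M.P b d then u M C (d - M.v b) else 0)) +
      ∑' b, M.W b * (if M.P b d then 0 else u M C (d - M.v b)) := by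
    rw [← (uP_summable (M := M) (C := C) d).tsum_add (uN_summable (M := M) (C := C) d)]
    refine tsum_congr fun b => ?_
    split_ifs <;> ring
  unfold θ
  rw [h2]
  linarith

theorem u_sym (d : ℤ) : Summable (fun b => M.W b * u M C (d + M.v b)) ∧
    ∑' b, M.W b * u M C (d + M.v b) = ∑' b, M.W b * u M C (d - M.v b) := by
  have e : (fun b => M.W b * u M C (d + M.v b)) =
      (fun b => M.W b * u M C (d - M.v b)) ∘ M.σe := by
    funext b
    simp only [Function.comp, σe, Equiv.coe_fn_mk]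
    rw [W_σ, M.vσ, sub_neg_eq_add]
  refine ⟨?_, ?_⟩
  · rw [e]
    exact (M.σe.summable_iff).2 (u_summable d)
  · rw [e]
    exact M.σe.tsum_eq (fun b => M.W b * u M C (d - M.v b))

/-- the symmetric difference -/
def Dl (M : Mdl) (C : Cap) (v d : ℤ) : ℝ := u M C (d + v) + u M C (d - v) - 2 * u M C d

theorem Dl_hasSum (d : ℤ) : HasSum (fun b => M.W b * Dl M C (M.v b) d) (2 * θ M C d) := by
  have h1 := (u_summable (M := M) (C := C) d).hasSum
  have h2 := (u_sym (M := M) (C := C) d).1.hasSum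
  rw [(u_sym (M := M) (C := C) d).2] at h2
  have h3 := (M.W_summable.hasSum.mul_right (2 * u M C d))
  rw [M.W_sum] at h3
  have h4 := (h2.add h1).sub h3
  have h5 := u_balance (M := M) (C := C) d
  have e : 2 * θ M C d = ∑' b, M.W b * u M C (d - M.v b) + ∑' b, M.W b * u M C (d - M.v b) -
      (1 - M.qc ^ 2) * (2 * u M C d) := by linarith
  rw [e]
  have e2 : (fun b => M.W b * Dl M C (M.v b) d) = fun b => M.W b * u M C (d + M.v b) +
      M.W b * u M C (d - M.v b) - M.W b * (2 * u M C d) := by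
    funext b; unfold Dl; ring
  rw [e2]
  exact h4

theorem θ_bd (d : ℤ) : |θ M C d| ≤ (CD M C + C.T) * (1 / 4) ^ d.natAbs := by
  unfold θ
  have h1 : 0 ≤ ∑' b, M.W b * (if M.P b d then 0 else u M C (d - M.v b)) := by
    refine tsum_nonneg fun b => mul_nonneg (M.W_nonneg b) ?_
    split_ifs
    · exact le_rfl
    · exact u_nonneg _
  have h2 : ∑' b, M.W b * (if M.P b d then 0 else u M C (d - M.v b)) ≤
      CD M C * (1 / 4) ^ d.natAbs := by
    have h3 : ∀ b, M.W b * (if M.P b d then 0 else u M C (d - M.v b)) ≤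
        (M.c b * 16 ^ M.L b) * (CD M C * (1 / 4) ^ d.natAbs) := by
      intro b
      have hc := M.c0 b
      have hC := CD_nonneg (M := M) (C := C)
      split_ifs with hP
      · rw [mul_zero]; positivity
      · have hL : |d| ≤ (M.L b : ℤ) := not_lt.1 fun h => hP (M.far b d h)
        have hL' : d.natAbs ≤ M.L b := by
          rw [Int.abs_eq_natAbs] at hL; exact_mod_cast hL
        have hv := abs_le.1 (M.vL b)
        have h4 := u_le (M := M) (C := C) (d - M.v b)
        have h5 : (d - M.v b).natAbs + 1 ≤ 4 ^ M.L b := by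
          have h6 : (d - M.v b).natAbs ≤ 2 * M.L b := by
            have := abs_le.1 hL; omega
          have h7 : ∀ n : ℕ, 1 ≤ n → 2 * n + 1 ≤ 4 ^ n := by
            intro n hn
            induction n, hn using Nat.le_induction with
            | base => norm_num
            | succ n hn ih => rw [pow_succ]; omega
          have := h7 _ (M.L1 b)
          omega
        have h6 : (((d - M.v b).natAbs : ℝ) + 1) ≤ 4 ^ M.L b := by exact_mod_cast h5
        have h7 : (4 : ℝ) ^ M.L b ≤ 16 ^ M.L b * (1 / 4) ^ d.natAbs := by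
          have e : (4 : ℝ) ^ M.L b = 16 ^ M.L b * (1 / 4) ^ M.L b := by
            rw [← mul_pow]; norm_num
          rw [e]
          exact mul_le_mul_of_nonneg_left
            (pow_le_pow_of_le_one (by norm_num) (by norm_num) hL') (by positivity)
        calc M.W b * u M C (d - M.v b) ≤ M.c b * ((16 ^ M.L b * (1 / 4) ^ d.natAbs) * CD M C) := by
              refine mul_le_mul (M.W_le b) ?_ (u_nonneg _) hc
              exact h4.trans (mul_le_mul_of_nonneg_right (h6.trans h7) hC)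
          _ = _ := by ring
    refine ((uN_summable d).tsum_le_tsum h3 (M.sm.mul_right _)).trans ?_
    rw [tsum_mul_right]
    have hC := CD_nonneg (M := M) (C := C)
    refine mul_le_of_le_one_left (by positivity) (M.s1.trans (by norm_num))
  have h3 := cr_nonneg (M := M) (C := C) d
  have h4 := cr_le (M := M) (C := C) d
  have hC := CD_nonneg (M := M) (C := C)
  have hT := C.T_nonneg
  have hp : (0 : ℝ) ≤ (1 / 4) ^ d.natAbs := by positivity
  rw [abs_le]
  constructor <;> nlinarith [mul_nonneg hC hp, mul_nonneg hT hp]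

/-- the second difference -/
def gg (M : Mdl) (C : Cap) (d : ℤ) : ℝ := u M C (d + 1) + u M C (d - 1) - 2 * u M C d

theorem Dl_bd {K ε : ℝ} (hε : 0 ≤ ε) (hK : 0 ≤ K) (h : ∀ d, |gg M C d| ≤ K * om ε d)
    (b : M.ι) (d : ℤ) : |Dl M C (M.v b) d| ≤ 16 ^ M.L b * (K * om ε d) := by
  have h0 : ∀ d, 0 ≤ om ε d := fun d => by unfold om; positivity
  have key := fun n => (diff_bd (f := u M C) (ω := om ε) (K := K)
    (fun d => om_step hε (by omega) (by omega)) (fun d => om_step hε (by omega) (by omega))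
    h0 hK h n d).1
  have h1 : |Dl M C (M.v b) d| ≤ 5 ^ (M.v b).natAbs * (K * om ε d) := by
    unfold Dl
    rcases Int.natAbs_eq (M.v b) with h2 | h2
    · have := key (M.v b).natAbs
      rw [← h2] at this
      exact this
    · have := key (M.v b).natAbs
      have e : ((M.v b).natAbs : ℤ) = - M.v b := by omega
      rw [e] at this
      refine le_trans (le_of_eq ?_) this
      rw [sub_neg_eq_add, ← sub_eq_add_neg]
      congr 1; ring
  refine h1.trans (mul_le_mul_of_nonneg_right ?_ (mul_nonneg hK (h0 d)))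
  have hv : (M.v b).natAbs ≤ M.L b := by
    have := M.vL b
    rw [Int.abs_eq_natAbs] at this; exact_mod_cast this
  calc (5 : ℝ) ^ (M.v b).natAbs ≤ 5 ^ M.L b := pow_le_pow_right₀ (by norm_num) hv
    _ ≤ _ := pow_le_pow_left₀ (by norm_num) (by norm_num) _

/-- the mass of the short blocks -/
def A1 (M : Mdl) : ℝ := ∑' b, (if M.L b = 1 ∧ M.v b ≠ 0 then M.W b else 0)

theorem A1_summable : Summable fun b => (if M.L b = 1 ∧ M.v b ≠ 0 then M.W b else 0) := by
  refine Summable.of_nonneg_of_le (fun b => ?_) (fun b => ?_) M.W_summable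
  · split_ifs
    · exact M.W_nonneg b
    · exact le_rfl
  · split_ifs
    · exact le_rfl
    · exact M.W_nonneg b

theorem A1_ge : 99 / 100 * M.a ≤ A1 M := by
  have h1 : M.W M.bp ≤ A1 M := by
    have := (A1_summable (M := M)).le_tsum M.bp fun b _ => by
      split_ifs
      · exact M.W_nonneg b
      · exact le_rfl
    rw [if_pos ⟨M.Lbp, by rw [M.vbp]; norm_num⟩] at this
    exact this
  refine le_trans ?_ h1
  unfold W
  rw [M.cbp, M.Lbp]
  have h2 : (99 / 100 : ℝ) ≤ M.qc ^ (1 + 2) := by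
    calc (99 / 100 : ℝ) ≤ (999 / 1000) ^ (1 + 2) := by norm_num
      _ ≤ _ := pow_le_pow_left₀ (by norm_num) M.qc_ge _
  nlinarith [M.a0]

theorem Dl_one {b : M.ι} (h : M.L b = 1) (hv : M.v b ≠ 0) (d : ℤ) :
    Dl M C (M.v b) d = gg M C d := by
  have h1 := abs_le.1 (M.vL b)
  rw [h] at h1
  have h2 : M.v b = 1 ∨ M.v b = -1 := by omega
  unfold Dl gg
  rcases h2 with h2 | h2 <;> rw [h2]
  have e1 : d + -1 = d - 1 := by ring
  have e2 : d - -1 = d + 1 := by ring
  rw [e1, e2]
  ring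

theorem gg_step {K ε : ℝ} (hε : 0 ≤ ε) (hK : 0 ≤ K) (h : ∀ d, |gg M C d| ≤ K * om ε d) (d : ℤ) :
    |gg M C d| ≤ (3 * (CD M C + C.T) / M.a + K / 2) * om ε d := by
  have h1 := Dl_hasSum (M := M) (C := C) d
  have hom : ∀ d, 0 ≤ om ε d := fun d => by unfold om; positivity
  have h2 : HasSum (fun b => (if M.L b = 1 ∧ M.v b ≠ 0 then M.W b else 0) * gg M C d)
      (A1 M * gg M C d) := A1_summable.hasSum.mul_right _
  have h3 := h1.sub h2
  have h4 : ∀ b, ‖M.W b * Dl M C (M.v b) d -
      (if M.L b = 1 ∧ M.v b ≠ 0 then M.W b else 0) * gg M C d‖ ≤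
      (if 2 ≤ M.L b then M.c b * 16 ^ M.L b else 0) * (K * om ε d) := by
    intro b
    have hKo : 0 ≤ K * om ε d := mul_nonneg hK (hom d)
    have hL := M.L1 b
    by_cases hL1 : M.L b = 1
    · by_cases hv : M.v b = 0
      · have e : Dl M C 0 d = 0 := by unfold Dl; rw [add_zero, sub_zero]; ring
        rw [hv, e, if_neg (fun h => h.2 rfl), if_neg (by omega)]
        simp
      · rw [if_pos ⟨hL1, hv⟩, Dl_one hL1 hv, sub_self, norm_zero, if_neg (by omega), zero_mul]
    · rw [if_neg (fun h => hL1 h.1), if_pos (by omega), zero_mul, sub_zero, Real.norm_eq_abs,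
        abs_mul, abs_of_nonneg (M.W_nonneg b), mul_assoc]
      exact mul_le_mul (M.W_le b) (Dl_bd hε hK h b d) (abs_nonneg _) (M.c0 b)
  have hs2 : Summable fun b => (if 2 ≤ M.L b then M.c b * 16 ^ M.L b else 0) := by
    refine Summable.of_nonneg_of_le (fun b => ?_) (fun b => ?_) M.sm
    · have := M.c0 b
      split_ifs <;> positivity
    · have := M.c0 b
      split_ifs
      · exact le_rfl
      · positivity
  have h5 : ‖2 * θ M C d - A1 M * gg M C d‖ ≤ M.a / 10 ^ 6 * (K * om ε d) := by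
    rw [← h3.tsum_eq]
    refine (tsum_of_norm_bounded (hs2.hasSum.mul_right _) h4).trans ?_
    exact mul_le_mul_of_nonneg_right M.s2 (mul_nonneg hK (hom d))
  rw [Real.norm_eq_abs] at h5
  have h6 := θ_bd (M := M) (C := C) d
  have h7 : (1 / 4 : ℝ) ^ d.natAbs ≤ om ε d := by
    unfold om
    have : (1 / 4 : ℝ) ^ d.natAbs ≤ (1 / 2) ^ d.natAbs :=
      pow_le_pow_left₀ (by norm_num) (by norm_num) _
    have h8 : 0 ≤ ε * 2 ^ d.natAbs := by positivity
    linarith
  have hA := A1_ge (M := M)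
  have ha := M.a0
  have hC := CD_nonneg (M := M) (C := C)
  have hT := C.T_nonneg
  have h8 : A1 M * |gg M C d| ≤ 2 * |θ M C d| + M.a / 10 ^ 6 * (K * om ε d) := by
    have h9 : A1 M * |gg M C d| = |A1 M * gg M C d| := by
      rw [abs_mul, abs_of_nonneg (by linarith : 0 ≤ A1 M)]
    rw [h9]
    have h10 : A1 M * gg M C d = 2 * θ M C d - (2 * θ M C d - A1 M * gg M C d) := by ring
    rw [h10]
    refine (abs_sub _ _).trans ?_
    rw [abs_mul, abs_two]
    linarith
  have h9 : 99 / 100 * M.a * |gg M C d| ≤ A1 M * |gg M C d| :=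
    mul_le_mul_of_nonneg_right hA (abs_nonneg _)
  have h10 : |θ M C d| ≤ (CD M C + C.T) * om ε d :=
    h6.trans (mul_le_mul_of_nonneg_left h7 (by linarith))
  have h11 : 99 / 100 * M.a * |gg M C d| ≤
      (2 * (CD M C + C.T) + M.a / 10 ^ 6 * K) * om ε d := by nlinarith
  have h12 : (3 * (CD M C + C.T) / M.a + K / 2) * om ε d =
      (3 * (CD M C + C.T) + M.a * K / 2) * om ε d / M.a := by
    field_simp
  rw [h12, le_div_iff₀ ha]
  have h13 : 0 ≤ (CD M C + C.T) * om ε d := mul_nonneg (by linarith) (hom d)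
  have h14 : 0 ≤ M.a * (K * om ε d) := mul_nonneg ha.le (mul_nonneg hK (hom d))
  nlinarith

/-- the constant of the second difference -/
def CG (M : Mdl) (C : Cap) : ℝ := 6 * (CD M C + C.T) / M.a

theorem CG_nonneg : 0 ≤ CG M C := by
  unfold CG
  have ha := M.a0
  have hC := CD_nonneg (M := M) (C := C)
  have hT := C.T_nonneg
  positivity

theorem gg_init {ε : ℝ} (hε : 0 < ε) (d : ℤ) :
    |gg M C d| ≤ (4 * CD M C / ε) * om ε d := by
  have h1 := u_le (M := M) (C := C) (d + 1)
  have h2 := u_le (M := M) (C := C) (d - 1)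
  have h3 := u_le (M := M) (C := C) d
  have n1 := u_nonneg (M := M) (C := C) (d + 1)
  have n2 := u_nonneg (M := M) (C := C) (d - 1)
  have n3 := u_nonneg (M := M) (C := C) d
  have hC := CD_nonneg (M := M) (C := C)
  have b1 : ((d + 1).natAbs : ℝ) ≤ (d.natAbs : ℝ) + 1 := by exact_mod_cast (by omega)
  have b2 : ((d - 1).natAbs : ℝ) ≤ (d.natAbs : ℝ) + 1 := by exact_mod_cast (by omega)
  have b3 : (d.natAbs : ℝ) + 1 ≤ 2 ^ d.natAbs := by
    exact_mod_cast Nat.lt_two_pow_self
  have h4 : |gg M C d| ≤ 4 * CD M C * 2 ^ d.natAbs := by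
    unfold gg
    have b4 : (d.natAbs : ℝ) + 1 + 1 ≤ 2 * 2 ^ d.natAbs := by
      have : (0 : ℝ) ≤ d.natAbs := Nat.cast_nonneg _
      linarith
    have c1 : u M C (d + 1) ≤ (2 * 2 ^ d.natAbs) * CD M C :=
      h1.trans (mul_le_mul_of_nonneg_right (by linarith) hC)
    have c2 : u M C (d - 1) ≤ (2 * 2 ^ d.natAbs) * CD M C :=
      h2.trans (mul_le_mul_of_nonneg_right (by linarith) hC)
    have c3 : u M C d ≤ (2 ^ d.natAbs) * CD M C :=
      h3.trans (mul_le_mul_of_nonneg_right (by linarith) hC)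
    have c4 : 0 ≤ CD M C * 2 ^ d.natAbs := by positivity
    rw [abs_le]
    constructor <;> linarith
  have h5 : ε * 2 ^ d.natAbs ≤ om ε d := by
    unfold om
    have : (0 : ℝ) ≤ (1 / 2) ^ d.natAbs := by positivity
    linarith
  calc |gg M C d| ≤ 4 * CD M C * 2 ^ d.natAbs := h4
    _ = (4 * CD M C / ε) * (ε * 2 ^ d.natAbs) := by field_simp
    _ ≤ _ := mul_le_mul_of_nonneg_left h5 (by positivity)

theorem gg_bd (d : ℤ) : |gg M C d| ≤ CG M C * (1 / 2) ^ d.natAbs := by
  have key : ∀ ε : ℝ, 0 < ε → |gg M C d| ≤ CG M C * om ε d := by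
    intro ε hε
    have ha := M.a0
    have hC := CD_nonneg (M := M) (C := C)
    have hT := C.T_nonneg
    have h1 : ∀ n : ℕ, ∀ d, |gg M C d| ≤ (CG M C + (4 * CD M C / ε) * (1 / 2) ^ n) * om ε d := by
      intro n
      induction n with
      | zero =>
        intro d
        refine (gg_init hε d).trans (mul_le_mul_of_nonneg_right ?_ (by unfold om; positivity))
        have := CG_nonneg (M := M) (C := C)
        simp; exact this
      | succ n ih =>
        intro d
        have h2 := gg_step hε.le (K := CG M C + (4 * CD M C / ε) * (1 / 2) ^ n)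
          (by have := CG_nonneg (M := M) (C := C); positivity) ih d
        refine h2.trans (le_of_eq ?_)
        congr 1
        unfold CG
        rw [pow_succ]
        ring
    have h2 : Tendsto (fun n : ℕ => (CG M C + (4 * CD M C / ε) * (1 / 2) ^ n) * om ε d) atTop
        (𝓝 ((CG M C + (4 * CD M C / ε) * 0) * om ε d)) := by
      refine Tendsto.mul_const _ (Tendsto.const_add _ (Tendsto.const_mul _ ?_))
      exact tendsto_pow_atTop_nhds_zero_of_lt_one (by norm_num) (by norm_num)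
    rw [mul_zero, add_zero] at h2
    exact ge_of_tendsto' h2 fun n => h1 n d
  have h3 : Tendsto (fun ε : ℝ => CG M C * om ε d) (𝓝[>] 0) (𝓝 (CG M C * om 0 d)) := by
    have : Continuous fun ε : ℝ => CG M C * om ε d := by unfold om; fun_prop
    exact (this.tendsto 0).mono_left nhdsWithin_le_nhds
  have h4 : om 0 d = (1 / 2) ^ d.natAbs := by unfold om; ring
  rw [← h4]
  exact ge_of_tendsto h3 (eventually_nhdsWithin_of_forall fun ε hε => key ε hε)

theorem lim_aux (M : Mdl) (C : Cap) (σ : ℤ) (hσ : σ = 1 ∨ σ = -1) :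
    ∃ l, ∀ n : ℕ, |u M C (σ * n) - l| ≤ 4 * CG M C * (1 / 2) ^ n := by
  refine seq_lim (f := fun n : ℕ => u M C (σ * n)) (C := CD M C) (fun n => ?_) (fun n => ?_)
  · have h1 := gg_bd (M := M) (C := C) (σ * (n + 1 : ℕ))
    unfold gg at h1
    have h2 : |u M C (σ * (n + 2 : ℕ)) + u M C (σ * n) - 2 * u M C (σ * (n + 1 : ℕ))| =
        |u M C (σ * (n + 1 : ℕ) + 1) + u M C (σ * (n + 1 : ℕ) - 1) -
          2 * u M C (σ * (n + 1 : ℕ))| := by
      rcases hσ with rfl | rfl
      · have e1 : (1 : ℤ) * (n + 1 : ℕ) + 1 = 1 * (n + 2 : ℕ) := by push_cast; ring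
        have e2 : (1 : ℤ) * (n + 1 : ℕ) - 1 = 1 * n := by push_cast; ring
        rw [e1, e2]
      · have e1 : (-1 : ℤ) * (n + 1 : ℕ) - 1 = -1 * (n + 2 : ℕ) := by push_cast; ring
        have e2 : (-1 : ℤ) * (n + 1 : ℕ) + 1 = -1 * n := by push_cast; ring
        rw [e1, e2]
        congr 1; ring
    show |u M C (σ * (n + 2 : ℕ)) + u M C (σ * n) - 2 * u M C (σ * (n + 1 : ℕ))| ≤ _
    rw [h2]
    refine h1.trans (mul_le_mul_of_nonneg_left ?_ CG_nonneg)
    refine pow_le_pow_of_le_one (by norm_num) (by norm_num) ?_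
    rcases hσ with rfl | rfl <;> omega
  · show |u M C (σ * n)| ≤ _
    rw [abs_of_nonneg (u_nonneg _)]
    refine (u_le' _).trans (le_of_eq ?_)
    rw [mul_comm]
    congr 2
    rcases hσ with rfl | rfl <;> simp

/-- the limit at `+∞` -/
def up (M : Mdl) (C : Cap) : ℝ := Classical.choose (lim_aux M C 1 (Or.inl rfl))
/-- the limit at `-∞` -/
def um (M : Mdl) (C : Cap) : ℝ := Classical.choose (lim_aux M C (-1) (Or.inr rfl))

theorem up_spec (n : ℕ) : |u M C n - up M C| ≤ 4 * CG M C * (1 / 2) ^ n := by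
  have := Classical.choose_spec (lim_aux M C 1 (Or.inl rfl)) n
  rwa [one_mul] at this

theorem um_spec (n : ℕ) : |u M C (-n) - um M C| ≤ 4 * CG M C * (1 / 2) ^ n := by
  have := Classical.choose_spec (lim_aux M C (-1) (Or.inr rfl)) n
  rwa [neg_one_mul] at this

/-- the limit on the side of `d` -/
def ui (M : Mdl) (C : Cap) (d : ℤ) : ℝ := if 0 < d then up M C else if d < 0 then um M C else 0

theorem ui_spec (d : ℤ) : |u M C d - ui M C d| ≤ 4 * CG M C * (1 / 2) ^ d.natAbs := by
  unfold ui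
  split_ifs with h1 h2
  · have := up_spec (M := M) (C := C) d.natAbs
    have e : (d.natAbs : ℤ) = d := by omega
    rwa [e] at this
  · have := um_spec (M := M) (C := C) d.natAbs
    have e : -(d.natAbs : ℤ) = d := by omega
    rwa [e] at this
  · have e : d = 0 := by omega
    subst e
    rw [u_zero, sub_zero, abs_zero]
    have := CG_nonneg (M := M) (C := C)
    positivity

end Mdl

end

end KN.SQ
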