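import Pool.Agent.H132.SQ.Cs2

/-!
# The limits of the critical solution are positive
-/

set_option autoImplicit false

namespace KN.SQ

open Finset Filter Topology
open scoped Classical ENNReal ComplexConjugate

noncomputable section

theorem conv_nonneg {f : ℤ → ℝ} (hg : ∀ d, 0 ≤ f (d + 1) + f (d - 1) - 2 * f d) (n : ℕ) (d : ℤ) :
    0 ≤ f (d + n) + f (d - n) - 2 * f d ∧
    0 ≤ (f (d + n + 1) - f (d + n)) - (f (d - n) - f (d - n - 1)) := by
  induction n with
  | zero =>
    simp only [Nat.cast_zero, add_zero, sub_zero]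
    have := hg d
    constructor <;> linarith
  | succ n ih =>
    have e1 : d + ((n + 1 : ℕ) : ℤ) = d + n + 1 := by push_cast; ring
    have e2 : d - ((n + 1 : ℕ) : ℤ) = d - n - 1 := by push_cast; ring
    rw [e1, e2]
    have h7 := hg (d + n + 1)
    have h8 := hg (d - n - 1)
    rw [show d + n + 1 - 1 = d + n by ring] at h7
    rw [show d - n - 1 + 1 = d - n by ring] at h8
    have := ih.1
    have := ih.2
    constructor <;> linarith

/-- the test function -/
def hf (d : ℤ) : ℝ := if 0 < d then (d : ℝ) - 1 + (1 / 2) ^ d.natAbs else 0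

theorem hf_nat (n : ℕ) : hf n = (n : ℝ) - 1 + (1 / 2) ^ n := by
  unfold hf
  split_ifs with h
  · simp
  · have : n = 0 := by omega
    subst this; simp

theorem hf_neg {d : ℤ} (h : d ≤ 0) : hf d = 0 := if_neg (by omega)

theorem hf_nonneg (d : ℤ) : 0 ≤ hf d := by
  unfold hf
  split_ifs with h
  · have : (1 : ℝ) ≤ d := by exact_mod_cast h
    have h2 : (0 : ℝ) ≤ (1 / 2) ^ d.natAbs := by positivity
    linarith
  · exact le_rfl

theorem hf_pos {d : ℤ} (h : 0 < d) : 0 < hf d := by
  unfold hf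
  rw [if_pos h]
  have : (1 : ℝ) ≤ d := by exact_mod_cast h
  have h2 : (0 : ℝ) < (1 / 2) ^ d.natAbs := by positivity
  linarith

theorem hf_le (d : ℤ) : hf d ≤ d.natAbs := by
  unfold hf
  split_ifs with h
  · have h1 : ((1 : ℝ) / 2) ^ d.natAbs ≤ 1 := pow_le_one₀ (by norm_num) (by norm_num)
    have h2 : (d : ℝ) = (d.natAbs : ℝ) := by
      rw [Nat.cast_natAbs, abs_of_pos h]
    linarith
  · positivity

theorem hf_second (n : ℕ) (hn : 1 ≤ n) :
    hf ((n : ℤ) + 1) + hf ((n : ℤ) - 1) - 2 * hf n = 1 / 2 * (1 / 2) ^ n := by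
  obtain ⟨k, rfl⟩ : ∃ k, n = k + 1 := ⟨n - 1, by omega⟩
  have e1 : ((k + 1 : ℕ) : ℤ) + 1 = ((k + 2 : ℕ) : ℤ) := by push_cast; ring
  have e2 : ((k + 1 : ℕ) : ℤ) - 1 = ((k : ℕ) : ℤ) := by push_cast; ring
  rw [e1, e2, hf_nat, hf_nat, hf_nat]
  push_cast
  rw [pow_succ, pow_succ]
  ring

theorem hf_conv (d : ℤ) : 0 ≤ hf (d + 1) + hf (d - 1) - 2 * hf d := by
  by_cases h : 1 ≤ d
  · have e : (d.natAbs : ℤ) = d := by omega
    have := hf_second d.natAbs (by omega)
    rw [e] at this
    rw [this]; positivity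
  · rw [hf_neg (show d ≤ 0 by omega)]
    have := hf_nonneg (d + 1)
    have := hf_nonneg (d - 1)
    linarith

namespace Mdl

variable {M : Mdl} {C : Cap}

theorem hfW_summable (d : ℤ) : Summable fun b => M.W b * hf (d - M.v b) := by
  refine Summable.of_nonneg_of_le (fun b => mul_nonneg (M.W_nonneg b) (hf_nonneg _)) (fun b => ?_)
    (M.sm.mul_left ((((d.natAbs : ℝ) + 1))))
  have h1 : hf (d - M.v b) ≤ ((d.natAbs : ℝ) + 1) * 16 ^ M.L b :=
    (hf_le _).trans ((by linarith : _ ≤ ((d - M.v b).natAbs : ℝ) + 1).trans (lin_aux b d))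
  calc M.W b * hf (d - M.v b) ≤ M.c b * (((d.natAbs : ℝ) + 1) * 16 ^ M.L b) :=
        mul_le_mul (M.W_le b) h1 (hf_nonneg _) (M.c0 b)
    _ = _ := by ring

theorem hfP_summable (d : ℤ) :
    Summable fun b => M.W b * (if M.P b d then hf (d - M.v b) else 0) := by
  refine Summable.of_nonneg_of_le (fun b => mul_nonneg (M.W_nonneg b) ?_) (fun b => ?_)
    (hfW_summable d)
  · split_ifs
    · exact hf_nonneg _
    · exact le_rfl
  · refine mul_le_mul_of_nonneg_left ?_ (M.W_nonneg b)
    split_ifs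
    · exact le_rfl
    · exact hf_nonneg _

theorem hfN_summable (d : ℤ) :
    Summable fun b => M.W b * (if M.P b d then 0 else hf (d - M.v b)) := by
  refine Summable.of_nonneg_of_le (fun b => mul_nonneg (M.W_nonneg b) ?_) (fun b => ?_)
    (hfW_summable d)
  · split_ifs
    · exact le_rfl
    · exact hf_nonneg _
  · refine mul_le_mul_of_nonneg_left ?_ (M.W_nonneg b)
    split_ifs
    · exact hf_nonneg _
    · exact le_rfl

/-- the test function is subharmonic -/
theorem hf_sub (d : ℤ) : (1 - M.qc ^ 2) * hf d ≤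
    ∑' b, M.W b * (if M.P b d then hf (d - M.v b) else 0) := by
  by_cases hd : d ≤ 0
  · rw [hf_neg hd, mul_zero]
    refine tsum_nonneg fun b => mul_nonneg (M.W_nonneg b) ?_
    split_ifs
    · exact hf_nonneg _
    · exact le_rfl
  have hd1 : 1 ≤ d := by omega
  have hdn : (d.natAbs : ℤ) = d := by omega
  have e2 : (fun b => M.W b * hf (d + M.v b)) = (fun b => M.W b * hf (d - M.v b)) ∘ M.σe := by
    funext b
    simp only [Function.comp, σe, Equiv.coe_fn_mk]
    rw [W_σ, M.vσ, sub_neg_eq_add]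
  have hs2 : Summable (fun b => M.W b * hf (d + M.v b)) := by
    rw [e2]; exact (M.σe.summable_iff).2 (hfW_summable d)
  have ht2 : ∑' b, M.W b * hf (d + M.v b) = ∑' b, M.W b * hf (d - M.v b) := by
    rw [e2]; exact M.σe.tsum_eq (fun b => M.W b * hf (d - M.v b))
  have h1 := (hfW_summable (M := M) d).hasSum
  have h2 := hs2.hasSum
  rw [ht2] at h2
  have h3 := (M.W_summable.hasSum.mul_right (2 * hf d))
  rw [M.W_sum] at h3
  have h4 := (h2.add h1).sub h3
  have h5 : HasSum (fun b => (if M.L b = 1 ∧ M.v b ≠ 0 then M.W b else 0) *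
      (1 / 2 * (1 / 2) ^ d.natAbs)) (A1 M * (1 / 2 * (1 / 2) ^ d.natAbs)) :=
    A1_summable.hasSum.mul_right _
  have h6 := hasSum_le (f := fun b => (if M.L b = 1 ∧ M.v b ≠ 0 then M.W b else 0) *
      (1 / 2 * (1 / 2) ^ d.natAbs)) (fun b => ?_) h5 h4
  swap
  · have hc := conv_nonneg hf_conv (M.v b).natAbs d
    have hc' : 0 ≤ hf (d + M.v b) + hf (d - M.v b) - 2 * hf d := by
      rcases Int.natAbs_eq (M.v b) with h | h
      · rw [← h] at hc; exact hc.1
      · have e : ((M.v b).natAbs : ℤ) = - M.v b := by omega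
        rw [e, sub_neg_eq_add, ← sub_eq_add_neg] at hc
        linarith [hc.1]
    have e3 : M.W b * hf (d + M.v b) + M.W b * hf (d - M.v b) - M.W b * (2 * hf d) =
        M.W b * (hf (d + M.v b) + hf (d - M.v b) - 2 * hf d) := by ring
    show _ ≤ M.W b * hf (d + M.v b) + M.W b * hf (d - M.v b) - M.W b * (2 * hf d)
    rw [e3]
    split_ifs with hL
    · refine mul_le_mul_of_nonneg_left ?_ (M.W_nonneg b)
      have h7 := abs_le.1 (M.vL b)
      rw [hL.1] at h7
      have h8 := hL.2
      have h9 : M.v b = 1 ∨ M.v b = -1 := by omega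
      have h10 := hf_second d.natAbs (by omega)
      rw [hdn] at h10
      rw [← h10]
      rcases h9 with h9 | h9 <;> rw [h9]
      have e4 : d + -1 = d - 1 := by ring
      have e5 : d - -1 = d + 1 := by ring
      rw [e4, e5]
      linarith
    · rw [zero_mul]; exact mul_nonneg (M.W_nonneg b) hc'
  -- the loss
  have h7 : ∑' b, M.W b * (if M.P b d then 0 else hf (d - M.v b)) ≤
      M.a / 10 ^ 6 * (1 / 4) ^ d.natAbs := by
    have hb : ∀ b, M.W b * (if M.P b d then 0 else hf (d - M.v b)) ≤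
        (if 2 ≤ M.L b then M.c b * 16 ^ M.L b else 0) * (1 / 4) ^ d.natAbs := by
      intro b
      have hc := M.c0 b
      have hL1 := M.L1 b
      split_ifs with hP hL hL
      · rw [mul_zero]; positivity
      · rw [mul_zero]; positivity
      · have hL : |d| ≤ (M.L b : ℤ) := not_lt.1 fun h => hP (M.far b d h)
        have hL' : d.natAbs ≤ M.L b := by
          rw [Int.abs_eq_natAbs] at hL; exact_mod_cast hL
        have hv := abs_le.1 (M.vL b)
        have h4 := hf_le (d - M.v b)
        have h5 : (d - M.v b).natAbs ≤ 4 ^ M.L b := by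
          have h6 : (d - M.v b).natAbs ≤ 2 * M.L b := by
            have := abs_le.1 hL; omega
          have h7 : ∀ n : ℕ, 1 ≤ n → 2 * n + 1 ≤ 4 ^ n := by
            intro n hn
            induction n, hn using Nat.le_induction with
            | base => norm_num
            | succ n hn ih => rw [pow_succ]; omega
          have := h7 _ (M.L1 b)
          omega
        have h6 : (((d - M.v b).natAbs : ℝ)) ≤ 4 ^ M.L b := by exact_mod_cast h5
        have h7 : (4 : ℝ) ^ M.L b ≤ 16 ^ M.L b * (1 / 4) ^ d.natAbs := by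
          have e : (4 : ℝ) ^ M.L b = 16 ^ M.L b * (1 / 4) ^ M.L b := by
            rw [← mul_pow]; norm_num
          rw [e]
          exact mul_le_mul_of_nonneg_left
            (pow_le_pow_of_le_one (by norm_num) (by norm_num) hL') (by positivity)
        calc M.W b * hf (d - M.v b) ≤ M.c b * (16 ^ M.L b * (1 / 4) ^ d.natAbs) :=
              mul_le_mul (M.W_le b) (h4.trans (h6.trans h7)) (hf_nonneg _) hc
          _ = _ := by ring
      · have hL2 : M.L b = 1 := by omega
        have : d - M.v b = 0 := by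
          by_contra hne
          exact hP (M.one b d hL2 (by omega) hne)
        rw [this, hf_neg le_rfl, mul_zero, zero_mul]
    have hs3 : Summable fun b => (if 2 ≤ M.L b then M.c b * 16 ^ M.L b else 0) := by
      refine Summable.of_nonneg_of_le (fun b => ?_) (fun b => ?_) M.sm
      · have := M.c0 b
        split_ifs <;> positivity
      · have := M.c0 b
        split_ifs
        · exact le_rfl
        · positivity
    refine ((hfN_summable d).tsum_le_tsum hb (hs3.mul_right _)).trans ?_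
    rw [tsum_mul_right]
    exact mul_le_mul_of_nonneg_right M.s2 (by positivity)
  have h8 : ∑' b, M.W b * hf (d - M.v b) =
      (∑' b, M.W b * (if M.P b d then hf (d - M.v b) else 0)) +
      ∑' b, M.W b * (if M.P b d then 0 else hf (d - M.v b)) := by
    rw [← (hfP_summable (M := M) d).tsum_add (hfN_summable (M := M) d)]
    refine tsum_congr fun b => ?_
    split_ifs <;> ring
  have hA := A1_ge (M := M)
  have ha := M.a0
  have h9 : (1 / 4 : ℝ) ^ d.natAbs ≤ (1 / 2) ^ d.natAbs :=
    pow_le_pow_left₀ (by norm_num) (by norm_num) _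
  have h10 : (0 : ℝ) ≤ (1 / 2) ^ d.natAbs := by positivity
  have h11 : 99 / 100 * M.a * (1 / 2 * (1 / 2) ^ d.natAbs) ≤ A1 M * (1 / 2 * (1 / 2) ^ d.natAbs) :=
    mul_le_mul_of_nonneg_right hA (by positivity)
  have h12 : M.a / 10 ^ 6 * (1 / 4) ^ d.natAbs ≤ M.a / 10 ^ 6 * (1 / 2) ^ d.natAbs :=
    mul_le_mul_of_nonneg_left h9 (by positivity)
  have h13 : 0 ≤ M.a * (1 / 2) ^ d.natAbs := by positivity
  rw [h8] at h6
  nlinarith

theorem up_nonneg : 0 ≤ up M C := by
  have h1 : Tendsto (fun n : ℕ => 4 * CG M C * (1 / 2 : ℝ) ^ n) atTop (𝓝 0) := by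
    simpa using (tendsto_pow_atTop_nhds_zero_of_lt_one (r := (1 / 2 : ℝ)) (by norm_num)
      (by norm_num)).const_mul (4 * CG M C)
  refine le_of_tendsto_of_tendsto' (tendsto_const_nhds (x := -(up M C))) h1 (fun n => ?_) |>
    fun h => by linarith
  have := (abs_le.1 (up_spec (M := M) (C := C) n)).2
  have h2 := u_nonneg (M := M) (C := C) n
  linarith

theorem um_nonneg : 0 ≤ um M C := by
  have h1 : Tendsto (fun n : ℕ => 4 * CG M C * (1 / 2 : ℝ) ^ n) atTop (𝓝 0) := by
    simpa using (tendsto_pow_atTop_nhds_zero_of_lt_one (r := (1 / 2 : ℝ)) (by norm_num)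
      (by norm_num)).const_mul (4 * CG M C)
  refine le_of_tendsto_of_tendsto' (tendsto_const_nhds (x := -(um M C))) h1 (fun n => ?_) |>
    fun h => by linarith
  have := (abs_le.1 (um_spec (M := M) (C := C) n)).2
  have h2 := u_nonneg (M := M) (C := C) (-n)
  linarith

/-- the involution of the pairs -/
def τ (M : Mdl) : ℤ × M.ι ≃ ℤ × M.ι where
  toFun p := (p.1 - M.v p.2, M.σ p.2)
  invFun p := (p.1 - M.v p.2, M.σ p.2)
  left_inv p := by
    simp only [M.σσ, M.vσ]
    ext
    · simp
    · rfl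
  right_inv p := by
    simp only [M.σσ, M.vσ]
    ext
    · simp
    · rfl

theorem up_pos (h : ∃ d, 0 < d ∧ 0 < cr M C d) : 0 < up M C := by
  rcases (up_nonneg (M := M) (C := C)).eq_or_lt with h0 | h0
  swap
  · exact h0
  exfalso
  obtain ⟨d0, hd0, hc0⟩ := h
  have hq1 : 0 ≤ 1 - M.qc ^ 2 := by nlinarith [M.qc_lt, M.qc_pos]
  -- decay of the solution
  have hu : ∀ d : ℤ, hf d * u M C d ≤ (4 * CG M C) * (((d.natAbs : ℝ) ^ 1) * (1 / 2) ^ d.natAbs) := by
    intro d
    by_cases hd : d ≤ 0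
    · rw [hf_neg hd, zero_mul]
      have := CG_nonneg (M := M) (C := C)
      positivity
    · have e : (d.natAbs : ℤ) = d := by omega
      have h1 := up_spec (M := M) (C := C) d.natAbs
      rw [e, ← h0, sub_zero] at h1
      have h2 := (le_abs_self _).trans h1
      calc hf d * u M C d ≤ (d.natAbs : ℝ) * (4 * CG M C * (1 / 2) ^ d.natAbs) :=
            mul_le_mul (hf_le d) h2 (u_nonneg _) (Nat.cast_nonneg _)
        _ = _ := by ring
  have hX : Summable fun d => hf d * u M C d :=
    Summable.of_nonneg_of_le (fun d => mul_nonneg (hf_nonneg _) (u_nonneg _)) hu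
      ((int_geom 1 (by norm_num) (by norm_num)).mul_left _)
  set R : ℤ → ℝ := fun d => ∑' b, M.W b * (if M.P b d then u M C (d - M.v b) else 0) with hR
  have heq : ∀ d, (1 - M.qc ^ 2) * (hf d * u M C d) = hf d * cr M C d + hf d * R d := by
    intro d
    have := u_eq (M := M) (C := C) d
    simp only [hR]
    linear_combination (hf d) * this
  have hR0 : ∀ d, 0 ≤ R d := fun d => tsum_nonneg fun b => mul_nonneg (M.W_nonneg b) (by
    split_ifs
    · exact u_nonneg _
    · exact le_rfl)
  have hRs : Summable fun d => hf d * R d := by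
    refine Summable.of_nonneg_of_le (fun d => mul_nonneg (hf_nonneg _) (hR0 d)) (fun d => ?_)
      (hX.mul_left (1 - M.qc ^ 2))
    have := heq d
    have h1 := mul_nonneg (hf_nonneg d) (cr_nonneg (M := M) (C := C) d)
    linarith
  have hcs : Summable fun d => hf d * cr M C d := by
    refine Summable.of_nonneg_of_le (fun d => mul_nonneg (hf_nonneg _) (cr_nonneg d)) (fun d => ?_)
      (hX.mul_left (1 - M.qc ^ 2))
    have := heq d
    have h1 := mul_nonneg (hf_nonneg d) (hR0 d)
    linarith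
  -- the double sum
  obtain ⟨T, hT⟩ : ∃ T : ℤ × M.ι → ℝ, T = fun p => hf p.1 * (M.W p.2 *
    (if M.P p.2 p.1 then u M C (p.1 - M.v p.2) else 0)) := ⟨_, rfl⟩
  have hTa : ∀ d b, T (d, b) = hf d * (M.W b * (if M.P b d then u M C (d - M.v b) else 0)) := by
    intro d b; rw [hT]
  have hT0 : ∀ p, 0 ≤ T p := by
    rintro ⟨d, b⟩
    rw [hTa]
    refine mul_nonneg (hf_nonneg _) (mul_nonneg (M.W_nonneg _) ?_)
    split_ifs
    · exact u_nonneg _
    · exact le_rfl
  have hTb : ∀ d, ∑' b, T (d, b) = hf d * R d := by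
    intro d
    simp only [hTa, hR]
    rw [tsum_mul_left]
  have hTs : Summable T := by
    rw [summable_prod_of_nonneg hT0]
    refine ⟨fun d => ?_, ?_⟩
    · simp only [hTa]
      exact (uP_summable (M := M) (C := C) d).mul_left (hf d)
    · simp only [hTb]
      exact hRs
  have hTt : ∑' p, T p = ∑' d, hf d * R d := by
    rw [hTs.tsum_prod]
    exact tsum_congr hTb
  have hTs' : Summable (T ∘ τ M) := (τ M).summable_iff.2 hTs
  have hTt' : ∑' p, (T ∘ τ M) p = ∑' p, T p := (τ M).tsum_eq T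
  have hTe : ∀ d b, (T ∘ τ M) (d, b) = u M C d * (M.W b *
      (if M.P b d then hf (d - M.v b) else 0)) := by
    intro d b
    have e0 : (T ∘ τ M) (d, b) = T (d - M.v b, M.σ b) := rfl
    rw [e0, hTa, W_σ, M.vσ]
    have e1 : d - M.v b - -M.v b = d := by ring
    rw [e1]
    by_cases hP : M.P b d
    · rw [if_pos hP, if_pos (M.Pσ'.1 hP)]; ring
    · rw [if_neg hP, if_neg (fun h => hP (M.Pσ'.2 h))]; ring
  have hge : (1 - M.qc ^ 2) * ∑' d, hf d * u M C d ≤ ∑' p, (T ∘ τ M) p := by
    rw [hTs'.tsum_prod, ← tsum_mul_left]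
    refine (hX.mul_left _).tsum_le_tsum (fun d => ?_) hTs'.prod
    simp only [hTe]
    rw [tsum_mul_left]
    have := mul_le_mul_of_nonneg_left (hf_sub (M := M) d) (u_nonneg (M := M) (C := C) d)
    linarith
  have hsum : (1 - M.qc ^ 2) * ∑' d, hf d * u M C d =
      (∑' d, hf d * cr M C d) + ∑' d, hf d * R d := by
    rw [← tsum_mul_left, ← hcs.tsum_add hRs]
    exact tsum_congr heq
  have hpos : 0 < ∑' d, hf d * cr M C d :=
    hcs.tsum_pos (fun d => mul_nonneg (hf_nonneg _) (cr_nonneg d)) d0 (mul_pos (hf_pos hd0) hc0)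
  rw [hTt', hTt] at hge
  linarith

end Mdl

end

end KN.SQ
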