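import Pool.Agent.H132.SQ.Md2

/-!
# The energy, the numerical range
-/

set_option autoImplicit false

namespace KN.SQ

open Finset Filter Topology
open scoped Classical ENNReal ComplexConjugate

noncomputable section

/-- the energy of a function -/
def D (f : ℤ → ℂ) : ℝ := ∑' d, (‖f d‖ - ‖f (d - 1)‖) ^ 2

theorem shift_summable {f : ℤ → ℝ} (hf : Summable f) (v : ℤ) : Summable fun d => f (d - v) :=
  (Equiv.subRight v).summable_iff.2 hf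

theorem shift_tsum (f : ℤ → ℝ) (v : ℤ) : ∑' d, f (d - v) = ∑' d, f d :=
  (Equiv.subRight v).tsum_eq f

theorem D_summable (f : H) : Summable fun d => (‖f d‖ - ‖f (d - 1)‖) ^ 2 := by
  refine Summable.of_nonneg_of_le (fun d => by positivity) (fun d => ?_)
    ((f.sum.add (shift_summable f.sum 1)).mul_left 2)
  nlinarith [sq_nonneg (‖f d‖ + ‖f (d - 1)‖)]

theorem D_nonneg (f : ℤ → ℂ) : 0 ≤ D f := tsum_nonneg fun _ => sq_nonneg _

theorem prod_summable (f : H) : Summable fun d => ‖f d‖ * ‖f (d - 1)‖ := by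
  refine Summable.of_nonneg_of_le (fun d => by positivity) (fun d => ?_)
    (f.sum.add (shift_summable f.sum 1))
  nlinarith [sq_nonneg (‖f d‖ - ‖f (d - 1)‖), sq_nonneg (‖f d‖), sq_nonneg (‖f (d - 1)‖)]

theorem D_eq (f : H) : D f = 2 * ‖f‖ ^ 2 - 2 * ∑' d, ‖f d‖ * ‖f (d - 1)‖ := by
  have h1 : ‖f‖ ^ 2 = ∑' d, ‖f (d - 1)‖ ^ 2 := by
    rw [f.norm_sq, ← shift_tsum (fun d => ‖f d‖ ^ 2) 1]
  have h2 : 2 * ‖f‖ ^ 2 = ∑' d, (‖f d‖ ^ 2 + ‖f (d - 1)‖ ^ 2) := by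
    rw [(f.sum).tsum_add (shift_summable f.sum 1), ← h1, f.norm_sq]; ring
  rw [h2, ← tsum_mul_left, ← (f.sum.add (shift_summable f.sum 1)).tsum_sub
    ((prod_summable f).mul_left 2)]
  unfold D
  exact tsum_congr fun d => by ring

theorem inner_S_re (f : H) (P : ℤ → Prop) (v : ℤ) : (inner ℂ f (S P v f)).re ≤ ‖f‖ ^ 2 := by
  calc (inner ℂ f (S P v f)).re ≤ ‖inner ℂ f (S P v f)‖ := Complex.re_le_norm _
    _ ≤ ‖f‖ * ‖S P v f‖ := norm_inner_le_norm _ _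
    _ ≤ ‖f‖ * (1 * ‖f‖) := by
        refine mul_le_mul_of_nonneg_left ?_ (norm_nonneg _)
        exact (ContinuousLinearMap.le_opNorm _ _).trans
          (mul_le_mul_of_nonneg_right (S_norm _ _) (norm_nonneg _))
    _ = _ := by ring

theorem inner_S1_re (f : H) (P : ℤ → Prop) :
    (inner ℂ f (S P 1 f)).re ≤ ‖f‖ ^ 2 - 1 / 2 * D f := by
  rw [D_eq]
  have h1 : (inner ℂ f (S P 1 f)).re ≤ ∑' d, ‖f d‖ * ‖f (d - 1)‖ := by
    refine (Complex.re_le_norm _).trans ?_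
    rw [lp.inner_eq_tsum]
    refine tsum_of_norm_bounded (prod_summable f).hasSum fun d => ?_
    refine (norm_inner_le_norm _ _).trans ?_
    refine mul_le_mul_of_nonneg_left ?_ (norm_nonneg _)
    rw [S_apply]
    split_ifs <;> simp
  linarith

theorem sq_le_D {f : H} (h0 : f 0 = 0) (d : ℤ) : ‖f d‖ ^ 2 ≤ |(d : ℝ)| * D f := by
  have key : ∀ (x : ℕ → ℝ) (e : ℕ → ℤ) (n : ℕ), Function.Injective e →
      (∀ j, x j ^ 2 = (‖f (e j)‖ - ‖f (e j - 1)‖) ^ 2) →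
      (∑ j ∈ range n, x j) ^ 2 ≤ n * D f := by
    intro x e n he hx
    have h1 := sq_sum_le_card_mul_sum_sq (s := range n) (f := x)
    rw [card_range] at h1
    refine h1.trans (mul_le_mul_of_nonneg_left ?_ (Nat.cast_nonneg _))
    have h2 : ∑ j ∈ range n, x j ^ 2 = ∑ d ∈ (range n).image e, (‖f d‖ - ‖f (d - 1)‖) ^ 2 := by
      rw [sum_image fun a _ b _ h => he h]
      exact sum_congr rfl fun j _ => hx j
    rw [h2]
    exact (D_summable f).sum_le_tsum _ fun d _ => sq_nonneg _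
  obtain ⟨n, rfl | rfl⟩ := d.eq_nat_or_neg
  · have h1 := key (fun j => ‖f ((j : ℤ) + 1)‖ - ‖f (j : ℤ)‖) (fun j => (j : ℤ) + 1) n
      (fun a b h => by simpa using h) (fun j => by rw [add_sub_cancel_right])
    have h2 : ∑ j ∈ range n, (‖f ((j : ℤ) + 1)‖ - ‖f (j : ℤ)‖) = ‖f n‖ := by
      have := sum_range_sub (fun j : ℕ => ‖f (j : ℤ)‖) n
      simp only [Nat.cast_add, Nat.cast_one, Nat.cast_zero, h0, norm_zero, sub_zero] at this
      exact this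
    rw [h2] at h1
    simpa using h1
  · have h1 := key (fun j => ‖f (-(j : ℤ) - 1)‖ - ‖f (-(j : ℤ))‖) (fun j => -(j : ℤ)) n
      (fun a b h => by simpa using h) (fun j => by ring)
    have h2 : ∑ j ∈ range n, (‖f (-(j : ℤ) - 1)‖ - ‖f (-(j : ℤ))‖) = ‖f (-(n : ℤ))‖ := by
      have := sum_range_sub (fun j : ℕ => ‖f (-(j : ℤ))‖) n
      simp only [Nat.cast_add, Nat.cast_one, Nat.cast_zero, neg_zero, h0, norm_zero, sub_zero]
        at this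
      rw [← this]
      refine sum_congr rfl fun j _ => ?_
      have e : -(((j : ℕ) : ℤ) + 1) = -(j : ℤ) - 1 := by ring
      rw [e]
    rw [h2] at h1
    simpa using h1

namespace Mdl

variable (M : Mdl)

/-- the quadratic form at the critical value -/
def A (f : H) : ℝ := ‖f‖ ^ 2 - (inner ℂ f (M.K (M.qc : ℂ) f)).re

theorem A_inner (f : H) : inner ℂ f (f - M.K (M.qc : ℂ) f) = (M.A f : ℂ) := by
  rw [inner_sub_right, inner_self_eq_norm_sq_to_K]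
  unfold A
  have h := M.K_real M.qc_abs f
  have h2 := Complex.conj_eq_iff_re.1 h
  push_cast
  rw [h2]
  rfl

theorem A_hasSum (f : H) : HasSum (fun b => M.c b * M.qc ^ (M.L b + 2) *
    (‖f‖ ^ 2 - (inner ℂ f (S (M.P b) (M.v b) f)).re)) (M.A f) := by
  have h1 := (ContinuousLinearMap.hasSum (ContinuousLinearMap.apply ℂ H f)
    (M.term_summable M.qc_norm).hasSum)
  have h2 := (ContinuousLinearMap.hasSum (innerSL ℂ f) h1)
  have h3 := (ContinuousLinearMap.hasSum Complex.reCLM h2)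
  have h4 := ((M.m_summable M.qc_abs).hasSum.mul_right (‖f‖ ^ 2)).sub h3
  have e1 : M.A f = (∑' b, M.c b * M.qc ^ (M.L b + 2)) * ‖f‖ ^ 2 -
      (inner ℂ f (M.N (M.qc : ℂ) f)).re := by
    unfold A
    have e2 : M.K (M.qc : ℂ) f = (M.qc : ℂ) ^ 2 • f + M.N (M.qc : ℂ) f := rfl
    have e3 := M.m_qc
    unfold m at e3
    have e4 : ((M.qc : ℂ) ^ 2 * (inner ℂ f f)).re = M.qc ^ 2 * ‖f‖ ^ 2 := by
      rw [inner_self_eq_norm_sq_to_K]
      have e5 : (M.qc : ℂ) ^ 2 * ((‖f‖ : ℝ) : ℂ) ^ 2 = ((M.qc ^ 2 * ‖f‖ ^ 2 : ℝ) : ℂ) := by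
        push_cast; ring
      exact (congrArg Complex.re e5).trans (Complex.ofReal_re _)
    rw [e2, inner_add_right, inner_smul_right, Complex.add_re, e4]
    have : (∑' b, M.c b * M.qc ^ (M.L b + 2)) = 1 - M.qc ^ 2 := by linarith
    rw [this]
    ring
  rw [e1]
  have key : (fun b => M.c b * M.qc ^ (M.L b + 2) *
      (‖f‖ ^ 2 - (inner ℂ f (S (M.P b) (M.v b) f)).re)) = fun b =>
      M.c b * M.qc ^ (M.L b + 2) * ‖f‖ ^ 2 -
        Complex.reCLM (((innerSL ℂ) f) (((ContinuousLinearMap.apply ℂ H) f)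
          (M.w (M.qc : ℂ) b • S (M.P b) (M.v b)))) := ?_
  · rw [key]
    exact h4
  funext b
  have : (inner ℂ f (M.w (M.qc : ℂ) b • (S (M.P b) (M.v b) f))).re =
      M.c b * M.qc ^ (M.L b + 2) * (inner ℂ f (S (M.P b) (M.v b) f)).re := by
    rw [inner_smul_right]
    unfold w
    rw [← Complex.ofReal_pow, ← Complex.ofReal_mul, Complex.re_ofReal_mul]
  have e5 : (Complex.reCLM) ((innerSL ℂ f) ((ContinuousLinearMap.apply ℂ H f)
      (M.w (M.qc : ℂ) b • S (M.P b) (M.v b)))) =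
      (inner ℂ f (M.w (M.qc : ℂ) b • (S (M.P b) (M.v b) f))).re := rfl
  rw [e5, this]
  ring

theorem A_ge (f : H) : 1 / 2 * (M.a * M.qc ^ 3) * D f ≤ M.A f := by
  have h := le_hasSum (M.A_hasSum f) M.bp fun b _ => ?_
  · refine le_trans ?_ h
    rw [M.cbp, M.Lbp, M.vbp]
    have h1 := inner_S1_re f (M.P M.bp)
    have h2 : 0 < M.a * M.qc ^ (1 + 2) := mul_pos M.a0 (pow_pos M.qc_pos _)
    have h3 := mul_le_mul_of_nonneg_left (show 1 / 2 * D f ≤ ‖f‖ ^ 2 -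
      (inner ℂ f (S (M.P M.bp) 1 f)).re by linarith) h2.le
    refine le_trans (le_of_eq ?_) h3
    ring
  · refine mul_nonneg (mul_nonneg (M.c0 b) (pow_nonneg M.qc_pos.le _)) ?_
    linarith [inner_S_re f (M.P b) (M.v b)]

theorem A_nonneg (f : H) : 0 ≤ M.A f := by
  refine le_trans ?_ (M.A_ge f)
  have := M.a0
  have := M.qc_pos
  have := D_nonneg f
  positivity

/-- the region where the resolvent exists -/
def U : Set ℂ := {q | ‖q‖ < 2 ∧ 1 / 2 < ‖(M.qc : ℂ) + q‖ ∧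
  -(1 / 2) * ‖(M.qc : ℂ) ^ 2 - q ^ 2‖ < ((M.qc : ℂ) ^ 2 - q ^ 2).re}

theorem U_open : IsOpen M.U := by
  unfold U
  refine (isOpen_lt continuous_norm continuous_const).inter ?_
  have h0 : Continuous fun q : ℂ => ‖(M.qc : ℂ) + q‖ := by fun_prop
  refine (isOpen_lt continuous_const h0).inter ?_
  have h1 : Continuous fun q : ℂ => -(1 / 2 : ℝ) * ‖(M.qc : ℂ) ^ 2 - q ^ 2‖ := by fun_prop
  have h2 : Continuous fun q : ℂ => ((M.qc : ℂ) ^ 2 - q ^ 2).re :=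
    Complex.continuous_re.comp (by fun_prop)
  exact isOpen_lt h1 h2

theorem N_lip {p q : ℂ} (hp : ‖p‖ < 2) (hq : ‖q‖ < 2) : ‖M.N p - M.N q‖ ≤ 1 / 10 ^ 6 * ‖p - q‖ := by
  refine Convex.norm_image_sub_le_of_norm_hasDerivWithin_le (f := M.N) (f' := M.N')
    (s := Metric.ball (0 : ℂ) 2) (x := q) (y := p)
    (fun x hx => (M.N_deriv (mem_ball_zero_iff.1 hx)).hasDerivWithinAt)
    (fun x hx => M.N'_norm (mem_ball_zero_iff.1 hx).le) (convex_ball _ _)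
    (mem_ball_zero_iff.2 hq) (mem_ball_zero_iff.2 hp)

theorem sector {A s : ℝ} {z : ℂ} (hA : 0 ≤ A) (hs : 0 ≤ s) (hz : -(1 / 2) * ‖z‖ ≤ z.re) :
    1 / 2 * (A + ‖z‖ * s) ≤ ‖(A : ℂ) + z * (s : ℂ)‖ := by
  refine le_of_sq_le_sq ?_ (norm_nonneg _)
  rw [Complex.sq_norm, Complex.normSq_apply]
  have h1 : ‖z‖ ^ 2 = z.re ^ 2 + z.im ^ 2 := by
    rw [Complex.sq_norm, Complex.normSq_apply]; ring
  simp only [Complex.add_re, Complex.ofReal_re, Complex.mul_re, Complex.ofReal_im, mul_zero,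
    sub_zero, Complex.add_im, Complex.mul_im, zero_add]
  have h2 : (A + z.re * s) * (A + z.re * s) + (z.im * s) * (z.im * s)
      = A ^ 2 + 2 * A * s * z.re + ‖z‖ ^ 2 * s ^ 2 := by rw [h1]; ring
  have h3 : A * s * (-(1 / 2) * ‖z‖) ≤ A * s * z.re :=
    mul_le_mul_of_nonneg_left hz (mul_nonneg hA hs)
  nlinarith [sq_nonneg (A - ‖z‖ * s)]

theorem qc_lt2 : ‖(M.qc : ℂ)‖ < 2 := by
  rw [Complex.norm_real, Real.norm_eq_abs, abs_of_pos M.qc_pos]; linarith [M.qc_lt]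

theorem num_range {q : ℂ} (hq : q ∈ M.U) (f : H) :
    1 / 8 * (M.A f + ‖(M.qc : ℂ) - q‖ * ‖f‖ ^ 2) ≤ ‖inner ℂ f (f - M.K q f)‖ := by
  obtain ⟨hq2, hq3, hq4⟩ := hq
  have e1 : f - M.K q f = (f - M.K (M.qc : ℂ) f) + ((M.qc : ℂ) ^ 2 - q ^ 2) • f +
      (M.N (M.qc : ℂ) - M.N q) f := by
    have e2 : M.K q f = q ^ 2 • f + M.N q f := rfl
    have e3 : M.K (M.qc : ℂ) f = (M.qc : ℂ) ^ 2 • f + M.N (M.qc : ℂ) f := rfl
    rw [e2, e3, sub_smul]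
    simp only [sub_apply]
    abel
  rw [e1, inner_add_right, inner_add_right, M.A_inner, inner_smul_right,
    inner_self_eq_norm_sq_to_K]
  have h1 : ‖inner ℂ f ((M.N (M.qc : ℂ) - M.N q) f)‖ ≤
      1 / 10 ^ 6 * ‖(M.qc : ℂ) - q‖ * ‖f‖ ^ 2 := by
    refine (norm_inner_le_norm _ _).trans ?_
    have h2 := (ContinuousLinearMap.le_opNorm (M.N (M.qc : ℂ) - M.N q) f).trans
      (mul_le_mul_of_nonneg_right (M.N_lip M.qc_lt2 hq2) (norm_nonneg _))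
    nlinarith [mul_le_mul_of_nonneg_left h2 (norm_nonneg f)]
  have h2 := sector (M.A_nonneg f) (sq_nonneg ‖f‖) hq4.le
  have h3 : 1 / 2 * ‖(M.qc : ℂ) - q‖ ≤ ‖(M.qc : ℂ) ^ 2 - q ^ 2‖ := by
    rw [sq_sub_sq, norm_mul]
    exact mul_le_mul_of_nonneg_right hq3.le (norm_nonneg _)
  have h4 : ‖(M.A f : ℂ) + ((M.qc : ℂ) ^ 2 - q ^ 2) * ((‖f‖ ^ 2 : ℝ) : ℂ)‖ -
      ‖inner ℂ f ((M.N (M.qc : ℂ) - M.N q) f)‖ ≤
      ‖(M.A f : ℂ) + ((M.qc : ℂ) ^ 2 - q ^ 2) * ((‖f‖ ^ 2 : ℝ) : ℂ) +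
      inner ℂ f ((M.N (M.qc : ℂ) - M.N q) f)‖ := by
    have := norm_sub_le ((M.A f : ℂ) + ((M.qc : ℂ) ^ 2 - q ^ 2) * ((‖f‖ ^ 2 : ℝ) : ℂ) +
      inner ℂ f ((M.N (M.qc : ℂ) - M.N q) f)) (inner ℂ f ((M.N (M.qc : ℂ) - M.N q) f))
    rw [add_sub_cancel_right] at this
    linarith
  have h5 : ‖(M.qc : ℂ) ^ 2 - q ^ 2‖ * ‖f‖ ^ 2 ≥ 1 / 2 * ‖(M.qc : ℂ) - q‖ * ‖f‖ ^ 2 :=
    mul_le_mul_of_nonneg_right h3 (sq_nonneg _)
  have h6 : 0 ≤ ‖(M.qc : ℂ) - q‖ * ‖f‖ ^ 2 := by positivity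
  have h7 := M.A_nonneg f
  have e6 : (((‖f‖ : ℝ) : ℂ)) ^ 2 = ((‖f‖ ^ 2 : ℝ) : ℂ) := by push_cast; rfl
  have e7 : ((‖f‖ : ℂ)) ^ 2 = ((‖f‖ ^ 2 : ℝ) : ℂ) := by push_cast; rfl
  refine le_trans ?_ (h4.trans (le_of_eq ?_))
  · nlinarith
  · congr 2
    rw [← e7]
    rfl

theorem qc_ne {q : ℂ} (hq : q ∈ M.U) : 0 < ‖(M.qc : ℂ) - q‖ := by
  rw [norm_pos_iff]
  intro h
  have h2 := hq.2.2
  have : (M.qc : ℂ) ^ 2 - q ^ 2 = 0 := by rw [sq_sub_sq, h, mul_zero]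
  rw [this] at h2
  simp at h2

theorem isUnit_of_U {q : ℂ} (hq : q ∈ M.U) : IsUnit (1 - M.K q) := by
  have hpos := M.qc_ne hq
  refine ContinuousLinearMap.isUnit_of_forall_le_norm_inner_map (1 - M.K q)
    (c := ⟨1 / 8 * ‖(M.qc : ℂ) - q‖, by positivity⟩) (by
      show (0 : ℝ) < 1 / 8 * ‖(M.qc : ℂ) - q‖
      positivity) fun f => ?_
  have h1 := M.num_range hq f
  have h2 := M.A_nonneg f
  rw [norm_inner_symm]
  have e1 : (1 - M.K q) f = f - M.K q f := rfl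
  rw [e1]
  refine le_trans ?_ h1
  show ‖f‖ ^ 2 * (1 / 8 * ‖(M.qc : ℂ) - q‖) ≤ _
  nlinarith [mul_nonneg (norm_nonneg ((M.qc : ℂ) - q)) (sq_nonneg ‖f‖)]

end Mdl

end

end KN.SQ
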