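import Pool.Agent.H132.SQ.Sm

/-!
# Stretched planar polygons: the asymptotics
-/

set_option autoImplicit false

namespace KN.SQ

open KN KN.ST Finset Filter Topology
open scoped Classical ENNReal Real

noncomputable section

/-- the weighted number of closed planar self-avoiding words -/
def Zw (y : ℝ) (n : ℕ) : ℝ := ∑ w ∈ (KN.W n).filter (fun w => SAP w ∧ Pl w), y ^ xt w

theorem Zw_enn {y : ℝ} (hy : 0 ≤ y) (n : ℕ) : ENNReal.ofReal (Zw y n) =
    ∑' w : List Dir, if SAP w ∧ w.length = n ∧ Pl w then ENNReal.ofReal y ^ xt w else 0 := by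
  unfold Zw
  rw [ENNReal.ofReal_sum_of_nonneg (fun w _ => pow_nonneg hy _),
    tsum_eq_sum (s := (KN.W n).filter (fun w => SAP w ∧ Pl w))]
  · refine sum_congr rfl fun w hw => ?_
    rw [mem_filter, mem_W] at hw
    rw [if_pos ⟨hw.2.1, hw.1, hw.2.2⟩, ENNReal.ofReal_pow hy]
  · intro w hw
    rw [if_neg]
    rintro ⟨h1, h2, h3⟩
    exact hw (mem_filter.2 ⟨mem_W.2 h2, h1, h3⟩)

theorem with_cut {Y S : ℝ≥0∞} (hY : Y * S ^ 8 = 1) (n : ℕ) :
    (∑' w : List Dir, (if SAP w ∧ w.length = n ∧ Pl w ∧ ∃ c, X w c = 2 then Y ^ xt w else 0)) *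
      (S ^ 4) ^ n = n * An S n := by
  rw [poly_sum (fun w => Y ^ xt w) Pl
    (fun w k hw hk => by rw [xt_rotate hw.2.1 hk])
    (fun w k _ h => pl_rotate.2 h) n, mul_assoc, ← ENNReal.tsum_mul_right]
  congr 1
  unfold An
  refine tsum_congr fun x => ?_
  by_cases h : (∃ D E, Vd x.1 x.2.1 x.2.2 D E) ∧ (pw3 x).length = n ∧ Pl (pw3 x)
  · rw [if_pos h, if_pos h]
    obtain ⟨⟨D, E, hv⟩, hl, -⟩ := h
    have := pw3_wt hY hv
    rw [hl] at this
    exact this
  · rw [if_neg h, if_neg h, zero_mul]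

theorem no_cut {Y S : ℝ≥0∞} (hY : Y * S ^ 8 = 1) (hS : S ≤ 1) (n : ℕ) :
    (∑' w : List Dir, (if SAP w ∧ w.length = n ∧ Pl w ∧ ¬ ∃ c, X w c = 2 then
      Y ^ xt w else 0)) * (S ^ 4) ^ n ≤ (6 * S ^ 2) ^ n := by
  rw [← ENNReal.tsum_mul_right]
  have h1 : ∀ w : List Dir, (if SAP w ∧ w.length = n ∧ Pl w ∧ ¬ ∃ c, X w c = 2 then
      Y ^ xt w else 0) * (S ^ 4) ^ n ≤ (if w ∈ KN.W n then (S ^ 2) ^ n else 0) := by
    intro w
    split_ifs with h2 h3 h3
    · obtain ⟨g1, g2, -, g4⟩ := h2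
      push Not at g4
      have h5 := four_xt (by rw [g1.2.1]; rfl) g4
      rw [g2] at h5
      have e : 4 * n = (4 * n - 8 * xt w) + 8 * xt w := by omega
      rw [← pow_mul S 4, e, pow_add S, pow_mul S 8, ← pow_mul S 2]
      calc Y ^ xt w * (S ^ (4 * n - 8 * xt w) * (S ^ 8) ^ xt w) =
            S ^ (4 * n - 8 * xt w) * (Y * S ^ 8) ^ xt w := by rw [mul_pow]; ring
        _ = S ^ (4 * n - 8 * xt w) := by rw [hY, one_pow, mul_one]
        _ ≤ S ^ (2 * n) := pow_le_pow_of_le_one zero_le hS (by omega)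
    · exfalso
      exact h3 (by rw [mem_W]; exact h2.2.1)
    · rw [zero_mul]; exact zero_le
    · rw [zero_mul]
  refine (ENNReal.tsum_le_tsum h1).trans ?_
  rw [tsum_eq_sum (s := KN.W n) (fun w hw => if_neg hw), Finset.sum_congr rfl (fun w hw => if_pos hw),
    sum_const, nsmul_eq_mul, mul_pow]
  refine mul_le_mul_left ?_ _
  exact_mod_cast card_W_le n

theorem Zw_split {s y : ℝ} (hs : Wok s) (hy : y * s ^ 8 = 1) (n : ℕ) :
    ∃ e : ℝ, 0 ≤ e ∧ e ≤ (6 * s ^ 2) ^ n ∧ Zw y n * (s ^ 4) ^ n = n * an s n + e := by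
  have hs0 := hs.1
  have hy0 : 0 ≤ y := by
    by_contra h
    push Not at h
    have : y * s ^ 8 < 0 := mul_neg_of_neg_of_pos h (by positivity)
    linarith
  have hs1 : s ≤ 1 := hs.2.trans (by norm_num)
  set S := ENNReal.ofReal s with hS
  set Y := ENNReal.ofReal y with hYd
  have hY : Y * S ^ 8 = 1 := by
    rw [hS, hYd, ← ENNReal.ofReal_pow hs0.le, ← ENNReal.ofReal_mul hy0, hy, ENNReal.ofReal_one]
  have hS1 : S ≤ 1 := ENNReal.ofReal_le_one.2 hs1
  have h1 : ENNReal.ofReal (Zw y n) =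
      (∑' w : List Dir, (if SAP w ∧ w.length = n ∧ Pl w ∧ ∃ c, X w c = 2 then Y ^ xt w else 0)) +
      (∑' w : List Dir, (if SAP w ∧ w.length = n ∧ Pl w ∧ ¬ ∃ c, X w c = 2 then
        Y ^ xt w else 0)) := by
    rw [Zw_enn hy0, ← ENNReal.tsum_add]
    refine tsum_congr fun w => ?_
    by_cases hw : SAP w ∧ w.length = n ∧ Pl w
    · by_cases hc : ∃ c, X w c = 2
      · rw [if_pos hw, if_pos ⟨hw.1, hw.2.1, hw.2.2, hc⟩, if_neg (fun h => h.2.2.2 hc), add_zero]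
      · rw [if_pos hw, if_neg (fun h => hc h.2.2.2), if_pos ⟨hw.1, hw.2.1, hw.2.2, hc⟩, zero_add]
    · rw [if_neg hw, if_neg (fun h => hw ⟨h.1, h.2.1, h.2.2.1⟩),
        if_neg (fun h => hw ⟨h.1, h.2.1, h.2.2.1⟩), add_zero]
  set N := (∑' w : List Dir, (if SAP w ∧ w.length = n ∧ Pl w ∧ ¬ ∃ c, X w c = 2 then
        Y ^ xt w else 0)) * (S ^ 4) ^ n with hN
  have h2 : ENNReal.ofReal (Zw y n) * (S ^ 4) ^ n = n * An S n + N := by
    rw [h1, add_mul, with_cut hY]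
  have h3 : N ≤ (6 * S ^ 2) ^ n := no_cut hY hS1 n
  have e3 : (6 * S ^ 2) ^ n = ENNReal.ofReal ((6 * s ^ 2) ^ n) := by
    rw [ENNReal.ofReal_pow (by positivity), ENNReal.ofReal_mul (by norm_num),
      ENNReal.ofReal_pow hs0.le]
    simp [hS]
  have hNt : N ≠ ⊤ := ne_top_of_le_ne_top (by rw [e3]; exact ENNReal.ofReal_ne_top) h3
  have hA := An_fin hs n
  refine ⟨N.toReal, ENNReal.toReal_nonneg, ?_, ?_⟩
  · have := ENNReal.toReal_mono (by rw [e3]; exact ENNReal.ofReal_ne_top) h3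
    rw [e3, ENNReal.toReal_ofReal (by positivity)] at this
    exact this
  · have h4 := congrArg ENNReal.toReal h2
    have hZ : 0 ≤ Zw y n := sum_nonneg fun w _ => pow_nonneg hy0 _
    rw [ENNReal.toReal_mul, ENNReal.toReal_ofReal hZ, ENNReal.toReal_add
      (ENNReal.mul_ne_top (ENNReal.natCast_ne_top n) hA) hNt, ENNReal.toReal_mul,
      ENNReal.toReal_pow, ENNReal.toReal_pow, hS, ENNReal.toReal_ofReal hs0.le,
      ENNReal.toReal_natCast] at h4
    exact h4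

theorem an_odd {s : ℝ} {n : ℕ} (hn : Odd n) : an s n = 0 := by
  unfold an
  have : An (ENNReal.ofReal s) n = 0 := by
    unfold An
    rw [ENNReal.tsum_eq_zero]
    intro x
    rw [if_neg]
    rintro ⟨⟨D, E, h⟩, h1, -⟩
    have h2 := even_of_closed h.sap.2.1
    have h3 : (ST.Poly x.1 (Rw x.2.1 x.2.2)).length = n := h1
    rw [h3] at h2
    obtain ⟨k, hk⟩ := hn
    omega
  rw [this, ENNReal.toReal_zero]

/-! ### positivity of the amplitude -/

theorem x_one (a : Dir) (ha : (vec a).1 = 0) (c : ℤ) : X [a] c = 0 := by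
  simp only [X, pos, Prod.fst_zero]
  unfold cx
  rw [if_neg]
  rintro (⟨rfl, -⟩ | ⟨rfl, -⟩) <;> simp [vec] at ha

theorem lc_one : LC [.ym] := by
  refine ⟨fun a ha => ?_, (0, 1, 0), ⟨?_, ?_, ?_, rfl, ?_⟩, fun c _ => ?_⟩
  · simp at ha; subst ha; simp
  · simp [path, pos, vec]
  · simp [path, pos, vec]
  · simp [pos, vec]
  · simp
  · rw [x_one _ rfl]; norm_num

theorem rc_one : RC [.yp] := by
  refine ⟨fun a ha => ?_, (0, 1, 0), ⟨?_, ?_, ?_, rfl, ?_⟩, fun c _ => ?_⟩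
  · simp at ha; subst ha; simp
  · simp [path, pos, vec]
  · simp [path, pos, vec]
  · simp [pos, vec]
  · simp
  · rw [x_one _ rfl]; norm_num

theorem cr_pos_of (M : Mdl) (C : Cap) (r : C.ρ) (hr : 0 < C.a r) : 0 < M.cr C (C.x r) := by
  have h1 := C.apply_aux (C.b_norm M.qc_norm) (C.x r)
  have h2 : ∀ r', (if C.x r' = C.x r then (C.a r' : ℂ) * (M.qc : ℂ) ^ C.m r' else 0) =
      (((if C.x r' = C.x r then C.a r' * M.qc ^ C.m r' else 0 : ℝ)) : ℂ) := by
    intro r'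
    split_ifs <;> push_cast <;> rfl
  simp only [h2] at h1
  have h3 := Complex.summable_ofReal.1 h1.summable
  have h4 : M.cr C (C.x r) = ∑' r', (if C.x r' = C.x r then C.a r' * M.qc ^ C.m r' else 0 : ℝ) := by
    unfold Mdl.cr Cap.cv
    rw [← h1.tsum_eq, ← Complex.ofReal_tsum, Complex.ofReal_re]
  rw [h4]
  refine h3.tsum_pos (fun r' => ?_) r ?_
  · have := C.a0 r'
    have := M.qc_pos
    split_ifs <;> positivity
  · rw [if_pos rfl]
    exact mul_pos hr (pow_pos M.qc_pos _)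

theorem C1_pos {s : ℝ} (hs : Wok s) : 0 < (MM s hs).C1 (CL s hs) (CR s hs) := by
  have h1 : 0 < (MM s hs).up (CL s hs) := by
    refine Mdl.up_pos ⟨1, one_pos, ?_⟩
    have h := cr_pos_of (MM s hs) (CL s hs) (⟨[.ym], lc_one⟩ : {l : List Dir // LC l})
      (pow_pos hs.1 _)
    have e : (CL s hs).x (⟨[.ym], lc_one⟩ : {l : List Dir // LC l}) = 1 := by
      show -(pos [Dir.ym]).2.1 = 1
      simp [pos, vec]
    rwa [e] at h
  have h2 : 0 < (MM s hs).up (CR s hs) := by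
    refine Mdl.up_pos ⟨1, one_pos, ?_⟩
    have h := cr_pos_of (MM s hs) (CR s hs) (⟨[.yp], rc_one⟩ : {l : List Dir // RC l})
      (pow_pos hs.1 _)
    have e : (CR s hs).x (⟨[.yp], rc_one⟩ : {l : List Dir // RC l}) = 1 := by
      show (pos [Dir.yp]).2.1 = 1
      simp [pos, vec]
    rwa [e] at h
  have h3 := (MM s hs).mp_pos
  have h4 := (MM s hs).qc_pos
  have h5 := Real.sqrt_pos.2 (MM s hs).gam_pos
  have h6 : 0 < (MM s hs).PP (CL s hs) (CR s hs) := by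
    unfold Mdl.PP
    have h7 := Mdl.um_nonneg (M := MM s hs) (C := CL s hs)
    have h8 := Mdl.um_nonneg (M := MM s hs) (C := CR s hs)
    have := mul_pos h1 h2
    have := mul_nonneg h7 h8
    linarith
  unfold Mdl.C1
  positivity

theorem small_err {x : ℝ} (h0 : 0 ≤ x) (h1 : x < 1) :
    Tendsto (fun k : ℕ => x ^ (2 * k) * √(k : ℝ)) atTop (𝓝 0) := by
  have h2 : Tendsto (fun k : ℕ => (k : ℝ) ^ 1 * (x ^ 2) ^ k) atTop (𝓝 0) :=
    tendsto_pow_const_mul_const_pow_of_lt_one 1 (by positivity) (pow_lt_one₀ h0 h1 (by norm_num))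
  refine squeeze_zero (fun k => by positivity) (fun k => ?_) h2
  rw [pow_one, ← pow_mul, mul_comm (k : ℝ)]
  refine mul_le_mul_of_nonneg_left ?_ (by positivity)
  rcases Nat.eq_zero_or_pos k with rfl | hk
  · simp
  · have hk1 : (1 : ℝ) ≤ k := by exact_mod_cast hk
    rw [Real.sqrt_le_left (by linarith)]
    nlinarith

/-- the asymptotics -/
theorem Zw_asym {s y : ℝ} (hs : Wok s) (hy : y * s ^ 8 = 1) :
    Tendsto (fun k : ℕ => Zw y (2 * k) / (2 * (2 * k : ℕ)) * (s ^ 4 * (MM s hs).qc) ^ (2 * k) *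
      ((k : ℝ) * √(k : ℝ))) atTop
      (𝓝 (1 / 2 * ((MM s hs).C1 (CL s hs) (CR s hs) * (MM s hs).qc / (2 * √π)))) := by
  have h1 := (Mdl.coef_asym (M := MM s hs) (Cl := CL s hs) (Cr := CR s hs) (a := an s)
    (fun q hq => an_hasSum hs hq) (fun n hn => an_odd hn)).const_mul (1 / 2 : ℝ)
  choose e he0 he1 he2 using fun n => Zw_split hs hy n
  have hqc := (MM s hs).qc_pos
  have hqc1 := (MM s hs).qc_lt
  have hs0 := hs.1
  have h2 : Tendsto (fun k : ℕ => 1 / 4 * (e (2 * k) * (MM s hs).qc ^ (2 * k) * √(k : ℝ)))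
      atTop (𝓝 0) := by
    have h3 : Tendsto (fun k : ℕ => 1 / 4 * ((6 * s ^ 2) ^ (2 * k) * √(k : ℝ))) atTop (𝓝 0) := by
      have := (small_err (x := 6 * s ^ 2) (by positivity) (by
        have := hs.2
        have : s ≤ 1 / 10 := this.trans (by norm_num)
        nlinarith)).const_mul (1 / 4)
      simpa using this
    refine squeeze_zero (fun k => ?_) (fun k => ?_) h3
    · have := he0 (2 * k)
      positivity
    · refine mul_le_mul_of_nonneg_left (mul_le_mul_of_nonneg_right ?_ (Real.sqrt_nonneg _))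
        (by norm_num)
      calc e (2 * k) * (MM s hs).qc ^ (2 * k) ≤ (6 * s ^ 2) ^ (2 * k) * 1 :=
            mul_le_mul (he1 _) (pow_le_one₀ hqc.le hqc1.le) (by positivity) (by positivity)
        _ = _ := mul_one _
  have h3 := h1.add h2
  rw [add_zero] at h3
  refine h3.congr' ?_
  filter_upwards [eventually_gt_atTop 0] with k hk
  have hk0 : (k : ℝ) ≠ 0 := by exact_mod_cast hk.ne'
  have h4 := he2 (2 * k)
  have e1 : Zw y (2 * k) / (2 * ((2 * k : ℕ) : ℝ)) * (s ^ 4 * (MM s hs).qc) ^ (2 * k) *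
      ((k : ℝ) * √(k : ℝ)) =
      (Zw y (2 * k) * (s ^ 4) ^ (2 * k)) / (2 * ((2 * k : ℕ) : ℝ)) * (MM s hs).qc ^ (2 * k) *
      ((k : ℝ) * √(k : ℝ)) := by
    rw [mul_pow]; ring
  rw [e1, h4]
  push_cast
  field_simp
  ring

end

end KN.SQ
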