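import Pool.Agent.H132.SQ.Cf
set_option autoImplicit false
namespace KN.SQ
open Finset Filter Topology Metric Complex MeasureTheory
open scoped Classical ENNReal Real Interval

/-- Task B. Same as the landed theorem `coef_le` in Pool/Agent/H132/SQ/Cf.lean (which bounds the second
derivative), but for the function itself: Cauchy's formula on the circle of radius r = R(1-1/n):
‖b n‖ r^n ≤ (1/2π)∫ ‖f‖ ≤ A*2/(R²-r²) and (1-1/n)^n ≥ 1/4. Adapt the proof of `coef_le`. -/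
theorem coef_le0 {f : ℂ → ℂ} {b : ℕ → ℂ} {R A : ℝ} (hR : 0 < R) (hA : 0 ≤ A)
    (h : ∀ q : ℂ, ‖q‖ < R → HasSum (fun m => b m * q ^ m) (f q)) {n : ℕ} (hn : 2 ≤ n)
    (hf : ∀ q : ℂ, ‖q‖ = R * (1 - 1 / n) → ‖f q‖ ≤
      A * (1 / ‖(R : ℂ) - q‖ ^ 2 + 1 / ‖(R : ℂ) + q‖ ^ 2)) :
    ‖b n‖ * R ^ n ≤ 100 * A * n / R ^ 2 := by
  obtain ⟨hd, hi⟩ := ser_iter hR h
  obtain ⟨m, rfl⟩ : ∃ m, n = m + 2 := ⟨n - 2, by omega⟩
  set r := R * (1 - 1 / ((m + 2 : ℕ) : ℝ)) with hr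
  have hn0 : (0 : ℝ) < ((m + 2 : ℕ) : ℝ) := by positivity
  have hn2 : (2 : ℝ) ≤ ((m + 2 : ℕ) : ℝ) := by exact_mod_cast hn
  have h1n : 1 / ((m + 2 : ℕ) : ℝ) ≤ 1 / 2 := by
    apply one_div_le_one_div_of_le <;> linarith
  have h1n0 : 0 < 1 / ((m + 2 : ℕ) : ℝ) := by positivity
  have hr0 : 0 < r := mul_pos hR (by linarith)
  have hrR : r < R := by rw [hr]; nlinarith
  have hg : DiffContOnCl ℂ f (ball 0 r) := by
    refine DifferentiableOn.diffContOnCl ?_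
    intro z hz
    have hz' : z ∈ ball (0 : ℂ) R := by
      have := closure_ball_subset_closedBall hz
      rw [mem_closedBall, dist_zero_right] at this
      rw [mem_ball, dist_zero_right]
      linarith
    exact ((hd.differentiableAt (isOpen_ball.mem_nhds hz'))).differentiableWithinAt
  have hci : ∀ ε : ℂ, (ε = 1 ∨ ε = -1) → IntervalIntegrable
      (fun θ => 1 / ‖(R : ℂ) + ε * circleMap 0 r θ‖ ^ 2) volume 0 (2 * π) := by
    intro ε hε
    refine Continuous.intervalIntegrable ?_ _ _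
    refine Continuous.div (by fun_prop) (by fun_prop) (fun θ => ?_)
    refine pow_ne_zero _ (norm_ne_zero_iff.2 fun h0 => ?_)
    have h1 : ‖ε * circleMap 0 r θ‖ = R := by
      rw [eq_neg_of_add_eq_zero_right h0, norm_neg, norm_real, Real.norm_eq_abs, abs_of_pos hR]
    have h2 : ‖ε‖ = 1 := by rcases hε with rfl | rfl <;> simp
    rw [norm_mul, h2, one_mul, norm_circleMap_zero, abs_of_pos hr0] at h1
    linarith
  have hc1 := hci (-1) (Or.inr rfl)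
  have hc2 := hci 1 (Or.inl rfl)
  simp only [one_mul, neg_mul, ← sub_eq_add_neg] at hc1 hc2
  have hint : ∫ θ in (0 : ℝ)..2 * π, A * (1 / ‖(R : ℂ) - circleMap 0 r θ‖ ^ 2 +
      1 / ‖(R : ℂ) + circleMap 0 r θ‖ ^ 2) = A * (4 * π / (R ^ 2 - r ^ 2)) := by
    rw [intervalIntegral.integral_const_mul, intervalIntegral.integral_add hc1 hc2,
      poisson_avg hr0 hrR, poisson_avg' hr0 hrR]
    ring
  have h4 := iter_le hr0 (m + 2) hg ((hc1.add hc2).const_mul A)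
    (fun θ => hf (circleMap 0 r θ) (by rw [norm_circleMap_zero, abs_of_pos hr0])) hint.le
  rw [hi (m + 2), norm_mul, Complex.norm_natCast] at h4
  have hmf : (0 : ℝ) < (m + 2).factorial := by exact_mod_cast (m + 2).factorial_pos
  have h6 : ‖b (m + 2)‖ ≤ (2 * π)⁻¹ * (r⁻¹ ^ (m + 2) * (A * (4 * π / (R ^ 2 - r ^ 2)))) :=
    le_of_mul_le_mul_left h4 hmf
  have hdiff : R ^ 2 / ((m + 2 : ℕ) : ℝ) ≤ R ^ 2 - r ^ 2 := by
    have e1 : R ^ 2 - r ^ 2 = R ^ 2 * (1 - (1 - 1 / ((m + 2 : ℕ) : ℝ)) ^ 2) := by rw [hr]; ring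
    rw [e1, div_eq_mul_one_div]
    refine mul_le_mul_of_nonneg_left ?_ (sq_nonneg R)
    nlinarith
  have h8 : (2 * π)⁻¹ * (r⁻¹ ^ (m + 2) * (A * (4 * π / (R ^ 2 - r ^ 2)))) ≤
      r⁻¹ ^ (m + 2) * (2 * A * ((m + 2 : ℕ) : ℝ) / R ^ 2) := by
    have e2 : (2 * π)⁻¹ * (r⁻¹ ^ (m + 2) * (A * (4 * π / (R ^ 2 - r ^ 2)))) =
        r⁻¹ ^ (m + 2) * (2 * A * (1 / (R ^ 2 - r ^ 2))) := by
      have := Real.pi_pos
      field_simp
      ring
    rw [e2]
    refine mul_le_mul_of_nonneg_left ?_ (by positivity)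
    have h9 : 1 / (R ^ 2 - r ^ 2) ≤ ((m + 2 : ℕ) : ℝ) / R ^ 2 := by
      rw [show ((m + 2 : ℕ) : ℝ) / R ^ 2 = 1 / (R ^ 2 / ((m + 2 : ℕ) : ℝ)) by field_simp]
      exact one_div_le_one_div_of_le (by positivity) hdiff
    calc 2 * A * (1 / (R ^ 2 - r ^ 2)) ≤ 2 * A * (((m + 2 : ℕ) : ℝ) / R ^ 2) := by gcongr
      _ = _ := by ring
  have h10 : r⁻¹ ^ (m + 2) * R ^ (m + 2) ≤ 8 := by
    have e3 : r⁻¹ ^ (m + 2) * R ^ (m + 2) = ((1 - 1 / ((m + 2 : ℕ) : ℝ))⁻¹) ^ (m + 2) := by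
      rw [← mul_pow, hr, mul_inv]
      congr 1
      field_simp
    rw [e3]
    have h11 : (1 - 1 / ((m + 2 : ℕ) : ℝ))⁻¹ = 1 + 1 / ((m : ℝ) + 1) := by
      have hm1 : (m : ℝ) + 1 ≠ 0 := by positivity
      have hm2 : ((m + 2 : ℕ) : ℝ) ≠ 0 := by positivity
      refine (eq_inv_of_mul_eq_one_left ?_).symm
      have hm2' : (m : ℝ) + 2 ≠ 0 := by positivity
      push_cast
      field_simp
      ring
    rw [h11]
    have h12 : (1 + 1 / ((m : ℝ) + 1)) ^ (m + 1) ≤ 4 := by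
      calc (1 + 1 / ((m : ℝ) + 1)) ^ (m + 1) ≤ (Real.exp (1 / ((m : ℝ) + 1))) ^ (m + 1) := by
            gcongr
            have := Real.add_one_le_exp (1 / ((m : ℝ) + 1))
            linarith
        _ = Real.exp 1 := by
            rw [← Real.exp_nat_mul]
            congr 1
            push_cast
            field_simp
        _ ≤ 4 := by
            have := Real.exp_one_lt_d9
            linarith
    have h13 : 1 + 1 / ((m : ℝ) + 1) ≤ 2 := by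
      have h14 : 1 / ((m : ℝ) + 1) ≤ 1 := by
        rw [div_le_one (by positivity)]
        have : (0 : ℝ) ≤ m := Nat.cast_nonneg m
        linarith
      linarith
    have h15 : 0 ≤ 1 + 1 / ((m : ℝ) + 1) := by positivity
    calc (1 + 1 / ((m : ℝ) + 1)) ^ (m + 2)
        = (1 + 1 / ((m : ℝ) + 1)) ^ (m + 1) * (1 + 1 / ((m : ℝ) + 1)) := pow_succ _ _
      _ ≤ 4 * 2 := mul_le_mul h12 h13 h15 (by norm_num)
      _ = 8 := by norm_num
  have hR2 : (0 : ℝ) < R ^ 2 := by positivity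
  have hq : 0 ≤ A * ((m + 2 : ℕ) : ℝ) / R ^ 2 := by positivity
  calc ‖b (m + 2)‖ * R ^ (m + 2)
      ≤ (r⁻¹ ^ (m + 2) * (2 * A * ((m + 2 : ℕ) : ℝ) / R ^ 2)) * R ^ (m + 2) :=
        mul_le_mul_of_nonneg_right (h6.trans h8) (by positivity)
    _ = (r⁻¹ ^ (m + 2) * R ^ (m + 2)) * (2 * (A * ((m + 2 : ℕ) : ℝ) / R ^ 2)) := by ring
    _ ≤ 8 * (2 * (A * ((m + 2 : ℕ) : ℝ) / R ^ 2)) :=
        mul_le_mul_of_nonneg_right h10 (by linarith)
    _ ≤ 100 * (A * ((m + 2 : ℕ) : ℝ) / R ^ 2) := by linarith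
    _ = 100 * A * ((m + 2 : ℕ) : ℝ) / R ^ 2 := by ring
end KN.SQ
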