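import Pool.Agent.H132.SQ.Co
set_option autoImplicit false
namespace KN.SQ
open Finset Filter Topology Metric Real
/-- Task C. c5 n = ∏ (2i+5)/(2i+2) = cb n * (2n+1)(2n+3)/3; see cb_choose, cb_hasSum, cb_tendsto in
Pool/Agent/H132/SQ/Co.lean (same proof with a = 5/2 in
Complex.one_div_one_sub_cpow_hasFPowerSeriesOnBall_zero). -/
noncomputable def c5 (n : ℕ) : ℝ := cb n * ((2 * n + 1) * (2 * n + 3) / 3)

theorem c5_choose (n : ℕ) : Ring.choose ((5 / 2 : ℂ) + n - 1) n = (c5 n : ℂ) := by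
  rw [← Ring.multichoose_eq]
  have h1 := Ring.factorial_nsmul_multichoose_eq_ascPochhammer (5 / 2 : ℂ) n
  have h2 : ∀ m : ℕ, (ascPochhammer ℕ m).smeval (5 / 2 : ℂ) = (m.factorial : ℂ) * (c5 m : ℂ) := by
    intro m
    rw [Polynomial.ascPochhammer_smeval_eq_eval]
    induction m with
    | zero => simp [c5, cb]
    | succ m ih =>
      rw [ascPochhammer_succ_eval, ih, c5, c5, cb_succ, Nat.factorial_succ]
      push_cast
      have : (2 : ℂ) * m + 2 ≠ 0 := by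
        have : ((2 * m + 2 : ℕ) : ℂ) ≠ 0 := Nat.cast_ne_zero.2 (by omega)
        push_cast at this; exact this
      field_simp
      ring
  rw [h2] at h1
  have h3 : (n.factorial : ℂ) ≠ 0 := Nat.cast_ne_zero.2 n.factorial_ne_zero
  rw [nsmul_eq_mul] at h1
  exact mul_left_cancel₀ h3 h1

theorem c5_hasSum {x : ℂ} (hx : ‖x‖ < 1) :
    HasSum (fun n => (c5 n : ℂ) * x ^ n) ((((1 - x) ^ (2 : ℂ)⁻¹)⁻¹) ^ 5) := by
  have h1 := (Complex.one_div_one_sub_cpow_hasFPowerSeriesOnBall_zero (5 / 2 : ℂ)).hasSum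
    (y := x) (by
      rw [mem_eball, edist_zero_right, ← ofReal_norm]
      exact_mod_cast (ENNReal.ofReal_lt_one.2 hx))
  rw [zero_add, one_div] at h1
  have e : (1 - x) ^ (5 / 2 : ℂ) = ((1 - x) ^ (2 : ℂ)⁻¹) ^ 5 := by
    rw [← Complex.cpow_nat_mul]
    norm_num [div_eq_mul_inv]
  rw [e, ← inv_pow] at h1
  refine h1.congr_fun'' fun n => ?_
  rw [FormalMultilinearSeries.ofScalars_apply_eq, c5_choose, smul_eq_mul]

theorem c5_tendsto : Tendsto (fun k : ℕ => c5 k / ((k : ℝ) * √(k : ℝ))) atTop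
    (𝓝 (4 / (3 * √π))) := by
  have h4 : Tendsto (fun k : ℕ => (1 : ℝ) / (k : ℝ)) atTop (𝓝 0) :=
    tendsto_one_div_atTop_nhds_zero_nat
  have h5 : Tendsto (fun k : ℕ => (2 + 1 / (k : ℝ)) * (2 + 3 * (1 / (k : ℝ))) / 3 /
      √(1 + 1 / (k : ℝ))) atTop (𝓝 ((2 + 0) * (2 + 3 * 0) / 3 / √(1 + 0))) :=
    (((h4.const_add 2).mul ((h4.const_mul 3).const_add 2)).div_const 3).div
      ((h4.const_add 1).sqrt) (by rw [add_zero, Real.sqrt_one]; norm_num)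
  have h6 := cb_tendsto.mul h5
  have e1 : 1 / √π * ((2 + 0) * (2 + 3 * 0) / 3 / √(1 + 0)) = 4 / (3 * √π) := by
    rw [add_zero, add_zero, mul_zero, add_zero, Real.sqrt_one]
    have : √π ≠ 0 := (Real.sqrt_pos.2 Real.pi_pos).ne'
    field_simp
    norm_num
  rw [e1] at h6
  refine h6.congr' ?_
  filter_upwards [eventually_gt_atTop 0] with k hk
  have hk0 : (0 : ℝ) < k := by exact_mod_cast hk
  have h7 : (k : ℝ) * √(1 + 1 / (k : ℝ)) = √(k : ℝ) * √((k : ℝ) + 1) := by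
    rw [← Real.sqrt_mul hk0.le]
    have e2 : (k : ℝ) * ((k : ℝ) + 1) = (k : ℝ) ^ 2 * (1 + 1 / (k : ℝ)) := by
      field_simp
    rw [e2, Real.sqrt_mul (sq_nonneg _), Real.sqrt_sq hk0.le]
  have h8 : 0 < √(1 + 1 / (k : ℝ)) := Real.sqrt_pos.2 (by positivity)
  have h9 : 0 < √(k : ℝ) := Real.sqrt_pos.2 hk0
  have h10 : √((k : ℝ) + 1) = (k : ℝ) * √(1 + 1 / (k : ℝ)) / √(k : ℝ) := by
    rw [h7]
    field_simp
  rw [c5, h10]
  obtain ⟨s, hs⟩ : ∃ s, s = √(1 + 1 / (k : ℝ)) := ⟨_, rfl⟩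
  rw [← hs] at h8 ⊢
  field_simp
end KN.SQ
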