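import Pool.Agent.H132.SQ.X1
set_option autoImplicit false
/-!
Task F1 (for helper132, by helper389): the residual of the explicit approximate solution.
-/
namespace KN.SQ
open Finset Filter Topology
open scoped Classical ENNReal ComplexConjugate
noncomputable section

theorem exp_sub_one_sub (z : ℂ) : ‖Complex.exp z - 1 - z‖ ≤ ‖z‖ ^ 2 * Real.exp ‖z‖ := by
  have h := Complex.norm_exp_sub_sum_le_norm_mul_exp z 2
  have e : ∑ m ∈ range 2, z ^ m / (m.factorial : ℂ) = 1 + z := by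
    simp [Finset.sum_range_succ, Nat.factorial]
  rw [e] at h
  have e2 : Complex.exp z - 1 - z = Complex.exp z - (1 + z) := by ring
  rw [e2]; exact h

namespace Mdl
/-- the polynomial -/
def Qp (κ : ℂ) (n : ℕ) : ℂ := (κ⁻¹ * (n : ℂ) ^ 2 + κ⁻¹ ^ 2 * (n : ℂ)) / 4
/-- the distance times the exponential -/
def mt (M : Mdl) (C : Cap) (q : ℂ) : H :=
  toH fun d => (ui M C d : ℂ) * ((d.natAbs : ℂ) * E (M.kap q) d)
/-- the approximate solution -/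
def yq (M : Mdl) (C : Cap) (q : ℂ) : H :=
  toH fun d => (ui M C d : ℂ) * (Qp (M.kap q) d.natAbs * E (M.kap q) d)

theorem mt_bd0 {M : Mdl} {C : Cap} {q : ℂ} (hq : q ∈ Loc M) (d : ℤ) :
    ‖(ui M C d : ℂ) * ((d.natAbs : ℂ) * E (M.kap q) d)‖ ≤
      (CU M C * (4 / ‖M.kap q‖)) * Real.exp (-(‖M.kap q‖ / 2 / 2)) ^ d.natAbs := by
  have hκ0 := kap_pos hq.1
  have hC := CU_nonneg (M := M) (C := C)
  rw [norm_mul, norm_mul, Complex.norm_real, Real.norm_eq_abs, abs_of_nonneg (ui_nonneg _),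
    Complex.norm_natCast]
  have h1 := E_norm_le (kap_re hq.1) d
  set t := ‖M.kap q‖ with ht
  set n : ℝ := (d.natAbs : ℝ) with hn
  have hn0 : 0 ≤ n := Nat.cast_nonneg _
  have e1 : Real.exp (-(t / 2)) ^ d.natAbs =
      Real.exp (-(t / 2 / 2)) ^ d.natAbs * Real.exp (-(t / 2 / 2)) ^ d.natAbs := by
    rw [← mul_pow, ← Real.exp_add]; congr 2; ring
  have e2 : Real.exp (-(t / 2 / 2)) ^ d.natAbs = (Real.exp (t * n / 4))⁻¹ := by
    rw [← Real.exp_nat_mul, ← Real.exp_neg]; congr 1; rw [← hn]; ring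
  have h3 : n ≤ 4 / t * Real.exp (t * n / 4) := by
    have h4 := Real.add_one_le_exp (t * n / 4)
    calc n = 4 / t * (t * n / 4) := by field_simp
      _ ≤ 4 / t * Real.exp (t * n / 4) := mul_le_mul_of_nonneg_left (by linarith) (by positivity)
  have h4 : n * Real.exp (-(t / 2 / 2)) ^ d.natAbs ≤ 4 / t := by
    rw [e2]
    have h5 := Real.exp_pos (t * n / 4)
    calc _ ≤ (4 / t * Real.exp (t * n / 4)) * (Real.exp (t * n / 4))⁻¹ :=
          mul_le_mul_of_nonneg_right h3 (by positivity)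
      _ = 4 / t := by field_simp
  calc _ ≤ CU M C * (n * Real.exp (-(t / 2)) ^ d.natAbs) :=
        mul_le_mul (ui_le d) (mul_le_mul_of_nonneg_left h1 hn0) (by positivity) hC
    _ = CU M C * ((n * Real.exp (-(t / 2 / 2)) ^ d.natAbs) *
          Real.exp (-(t / 2 / 2)) ^ d.natAbs) := by
        rw [e1]; ring
    _ ≤ CU M C * ((4 / t) * Real.exp (-(t / 2 / 2)) ^ d.natAbs) :=
        mul_le_mul_of_nonneg_left (mul_le_mul_of_nonneg_right h4 (by positivity)) hC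
    _ = _ := by ring

theorem yq_bd0 {M : Mdl} {C : Cap} {q : ℂ} (hq : q ∈ Loc M) (d : ℤ) :
    ‖(ui M C d : ℂ) * (Qp (M.kap q) d.natAbs * E (M.kap q) d)‖ ≤
      (CU M C * (8 / ‖M.kap q‖ ^ 3)) * Real.exp (-(‖M.kap q‖ / 2 / 2)) ^ d.natAbs := by
  have hκ0 := kap_pos hq.1
  have hC := CU_nonneg (M := M) (C := C)
  rw [norm_mul, norm_mul, Complex.norm_real, Real.norm_eq_abs, abs_of_nonneg (ui_nonneg _)]
  have h1 := E_norm_le (kap_re hq.1) d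
  have n4 : ‖(4 : ℂ)‖ = 4 := by simp
  have p0 : ‖Qp (M.kap q) d.natAbs‖ ≤
      (‖M.kap q‖⁻¹ * (d.natAbs : ℝ) ^ 2 + ‖M.kap q‖⁻¹ ^ 2 * d.natAbs) / 4 := by
    unfold Qp
    rw [norm_div, n4]
    refine div_le_div_of_nonneg_right ?_ (by norm_num)
    refine (norm_add_le _ _).trans (le_of_eq ?_)
    rw [norm_mul, norm_mul, norm_pow, norm_pow, norm_inv, Complex.norm_natCast]
  set t := ‖M.kap q‖ with ht
  set n : ℝ := (d.natAbs : ℝ) with hn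
  have hn0 : 0 ≤ n := Nat.cast_nonneg _
  have e1 : Real.exp (-(t / 2)) ^ d.natAbs =
      Real.exp (-(t / 2 / 2)) ^ d.natAbs * Real.exp (-(t / 2 / 2)) ^ d.natAbs := by
    rw [← mul_pow, ← Real.exp_add]; congr 2; ring
  have e2 : Real.exp (-(t / 2 / 2)) ^ d.natAbs = (Real.exp (t * n / 4))⁻¹ := by
    rw [← Real.exp_nat_mul, ← Real.exp_neg]; congr 1; rw [← hn]; ring
  have h3 : (t⁻¹ * n ^ 2 + t⁻¹ ^ 2 * n) / 4 ≤ 8 / t ^ 3 * Real.exp (t * n / 4) := by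
    have h4 := Real.quadratic_le_exp_of_nonneg (x := t * n / 4) (by positivity)
    calc (t⁻¹ * n ^ 2 + t⁻¹ ^ 2 * n) / 4 = 1 / t ^ 3 * (((t * n) ^ 2 + t * n) / 4) := by
          field_simp
      _ ≤ 1 / t ^ 3 * (8 * Real.exp (t * n / 4)) := by
          refine mul_le_mul_of_nonneg_left ?_ (by positivity)
          have h6 : 0 ≤ t * n := by positivity
          nlinarith
      _ = _ := by ring
  have h4 : ((t⁻¹ * n ^ 2 + t⁻¹ ^ 2 * n) / 4) * Real.exp (-(t / 2 / 2)) ^ d.natAbs ≤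
      8 / t ^ 3 := by
    rw [e2]
    have h5 := Real.exp_pos (t * n / 4)
    calc _ ≤ (8 / t ^ 3 * Real.exp (t * n / 4)) * (Real.exp (t * n / 4))⁻¹ :=
          mul_le_mul_of_nonneg_right h3 (by positivity)
      _ = 8 / t ^ 3 := by field_simp
  calc _ ≤ CU M C * (((t⁻¹ * n ^ 2 + t⁻¹ ^ 2 * n) / 4) * Real.exp (-(t / 2)) ^ d.natAbs) :=
        mul_le_mul (ui_le d) (mul_le_mul p0 h1 (norm_nonneg _) (by positivity)) (by positivity) hC
    _ = CU M C * ((((t⁻¹ * n ^ 2 + t⁻¹ ^ 2 * n) / 4) * Real.exp (-(t / 2 / 2)) ^ d.natAbs) *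
          Real.exp (-(t / 2 / 2)) ^ d.natAbs) := by
        rw [e1]; ring
    _ ≤ CU M C * ((8 / t ^ 3) * Real.exp (-(t / 2 / 2)) ^ d.natAbs) :=
        mul_le_mul_of_nonneg_left (mul_le_mul_of_nonneg_right h4 (by positivity)) hC
    _ = _ := by ring

theorem rt4 {M : Mdl} {q : ℂ} (hq : q ∈ Loc M) : 0 ≤ Real.exp (-(‖M.kap q‖ / 2 / 2)) ∧
    Real.exp (-(‖M.kap q‖ / 2 / 2)) < 1 := by
  have := kap_pos hq.1
  exact ⟨(Real.exp_pos _).le, Real.exp_lt_one_iff.2 (by linarith)⟩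

/-- F0 (warm-up) -/
theorem mt_apply {M : Mdl} {C : Cap} {q : ℂ} (hq : q ∈ Loc M) (d : ℤ) :
    mt M C q d = (ui M C d : ℂ) * ((d.natAbs : ℂ) * E (M.kap q) d) :=
  toH_apply (summable_of_bd (rt4 hq).1 (rt4 hq).2 (mt_bd0 hq)) d

theorem yq_apply {M : Mdl} {C : Cap} {q : ℂ} (hq : q ∈ Loc M) (d : ℤ) :
    yq M C q d = (ui M C d : ℂ) * (Qp (M.kap q) d.natAbs * E (M.kap q) d) :=
  toH_apply (summable_of_bd (rt4 hq).1 (rt4 hq).2 (yq_bd0 hq)) d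

variable {M : Mdl} {C : Cap}

theorem sgn_cases (d : ℤ) : sgn d = 1 ∨ sgn d = -1 := by unfold sgn; split_ifs <;> simp

theorem sgn_norm' {s : ℂ} (hs : s = 1 ∨ s = -1) : ‖s‖ = 1 := by rcases hs with rfl | rfl <;> simp

theorem sgn_sq' {s : ℂ} (hs : s = 1 ∨ s = -1) : s * s = 1 := by
  rcases hs with rfl | rfl <;> norm_num

theorem vc_norm (b : M.ι) : ‖(M.v b : ℂ)‖ ≤ M.L b := by
  have : ((M.v b : ℤ) : ℂ) = ((M.v b : ℝ) : ℂ) := by push_cast; rfl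
  rw [this, Complex.norm_real]
  exact M.v_abs_le b

theorem exp_s_bd {q : ℂ} (hq : q ∈ Loc M) {s : ℂ} (hs : s = 1 ∨ s = -1) (b : M.ι) :
    ‖Complex.exp (s * M.kap q * (M.v b : ℂ))‖ ≤ 2 ^ M.L b ∧
    ‖Complex.exp (s * M.kap q * (M.v b : ℂ)) - 1‖ ≤ (‖M.kap q‖ * M.L b) * 2 ^ M.L b ∧
    ‖Complex.exp (s * M.kap q * (M.v b : ℂ)) - 1 - s * M.kap q * (M.v b : ℂ)‖ ≤
      (‖M.kap q‖ * M.L b) ^ 2 * 2 ^ M.L b := by
  have e3 : ‖s * M.kap q * (M.v b : ℂ)‖ = ‖M.kap q * (M.v b : ℂ)‖ := by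
    rw [mul_assoc, norm_mul, sgn_norm' hs, one_mul]
  have h4 := exp_kv (M := M) hq.2 b
  refine ⟨?_, ?_, ?_⟩
  · refine (Complex.norm_exp_le_exp_norm _).trans ?_
    rw [e3]; exact h4.2
  · refine (exp_sub_one _).trans ?_
    rw [e3]
    exact mul_le_mul h4.1 h4.2 (Real.exp_pos _).le (by positivity)
  · refine (exp_sub_one_sub _).trans ?_
    rw [e3]
    exact mul_le_mul (pow_le_pow_left₀ (norm_nonneg _) h4.1 2) h4.2 (Real.exp_pos _).le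
      (by positivity)

theorem T0_hasSum {q : ℂ} (hq : q ∈ Loc M) {s : ℂ} (hs : s = 1 ∨ s = -1) :
    HasSum (fun b => M.w q b * Complex.exp (s * M.kap q * (M.v b : ℂ)))
      (1 - q ^ 2 + Ph M q (M.kap q)) := by
  have hq2 : ‖q‖ ≤ 2 := hq.1.1.le
  have hsκ : ‖s * M.kap q‖ ≤ 1 / 100 := by rw [norm_mul, sgn_norm' hs, one_mul]; exact hq.2
  have h1 := (Ph_summable (M := M) hq2 hsκ).hasSum
  have h2 : Ph M q (M.kap q) = Ph M q (s * M.kap q) := by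
    rcases hs with rfl | rfl
    · rw [one_mul]
    · rw [neg_one_mul, Ph_neg]
  have h3 := Complex.hasSum_ofReal.2 (M.W_summable).hasSum
  rw [M.W_sum] at h3
  have h4 := h1.add h3
  have e : 1 - q ^ 2 + Ph M q (M.kap q) =
      (∑' b, (M.w q b * Complex.exp (s * M.kap q * (M.v b : ℂ)) - M.W b)) +
        ((1 - M.qc ^ 2 : ℝ) : ℂ) := by
    rw [h2]; unfold Ph; push_cast; ring
  rw [e]
  exact h4.congr_fun' fun b => by ring

/-- the first moment -/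
def T1 (M : Mdl) (q s : ℂ) : ℂ :=
  ∑' b, M.w q b * (s * (M.v b : ℂ)) * Complex.exp (s * M.kap q * (M.v b : ℂ))

/-- the second moment -/
def T2 (M : Mdl) (q s : ℂ) : ℂ :=
  ∑' b, M.w q b * (M.v b : ℂ) ^ 2 * Complex.exp (s * M.kap q * (M.v b : ℂ))

theorem T1_hasSum {q : ℂ} (hq : q ∈ Loc M) {s : ℂ} (hs : s = 1 ∨ s = -1) :
    HasSum (fun b => M.w q b * (s * (M.v b : ℂ)) * Complex.exp (s * M.kap q * (M.v b : ℂ)))
      (T1 M q s) := by
  refine Summable.hasSum ?_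
  refine Summable.of_norm_bounded (M.sm.mul_left 4) fun b => ?_
  rw [norm_mul, norm_mul, norm_mul, sgn_norm' hs, one_mul]
  have h1 := vc_norm b
  have h2 := w_norm' (M := M) hq.1.1.le b
  have h3 := M.c0 b
  have h4 := (exp_s_bd hq hs b).1
  have h5 : (M.L b : ℝ) ≤ 4 ^ M.L b := by exact_mod_cast (Nat.lt_pow_self (by norm_num)).le
  calc _ ≤ ((4 * 2 ^ M.L b * M.c b) * 4 ^ M.L b) * 2 ^ M.L b :=
        mul_le_mul (mul_le_mul h2 (h1.trans h5) (norm_nonneg _) (by positivity)) h4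
          (norm_nonneg _) (by positivity)
    _ = 4 * (M.c b * 16 ^ M.L b) := by
        rw [show (16 : ℝ) ^ M.L b = (2 ^ M.L b * 2 ^ M.L b) * 4 ^ M.L b by
          rw [← mul_pow, ← mul_pow]; norm_num]
        ring

theorem T2_hasSum {q : ℂ} (hq : q ∈ Loc M) {s : ℂ} (hs : s = 1 ∨ s = -1) :
    HasSum (fun b => M.w q b * (M.v b : ℂ) ^ 2 * Complex.exp (s * M.kap q * (M.v b : ℂ)))
      (T2 M q s) := by
  refine Summable.hasSum ?_
  refine Summable.of_norm_bounded (M.sm.mul_left 4) fun b => ?_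
  rw [norm_mul, norm_mul, norm_pow]
  have h1 := pow_le_pow_left₀ (norm_nonneg _) (vc_norm b) 2
  have h2 := w_norm' (M := M) hq.1.1.le b
  have h3 := M.c0 b
  have h4 := (exp_s_bd hq hs b).1
  have h5 : (M.L b : ℝ) ^ 2 ≤ 4 ^ M.L b := by exact_mod_cast nat_sq4 (M.L b)
  calc _ ≤ ((4 * 2 ^ M.L b * M.c b) * 4 ^ M.L b) * 2 ^ M.L b :=
        mul_le_mul (mul_le_mul h2 (h1.trans h5) (by positivity) (by positivity)) h4
          (norm_nonneg _) (by positivity)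
    _ = 4 * (M.c b * 16 ^ M.L b) := by
        rw [show (16 : ℝ) ^ M.L b = (2 ^ M.L b * 2 ^ M.L b) * 4 ^ M.L b by
          rw [← mul_pow, ← mul_pow]; norm_num]
        ring

theorem T1_bd {q : ℂ} (hq : q ∈ Loc M) {s : ℂ} (hs : s = 1 ∨ s = -1) :
    ‖T1 M q s - (M.sg : ℂ) * M.kap q‖ ≤ ‖M.kap q‖ ^ 2 := by
  have h1 := T1_hasSum hq hs
  have h2 := (wv_zero (M := M) hq.1.1.le).mul_right s
  have h3 := (Complex.hasSum_ofReal.2 M.sg_summable.hasSum).mul_right (M.kap q)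
  have h4 := (h1.sub h2).sub h3
  have e0 : T1 M q s - 0 * s - ((∑' b, M.W b * (M.v b : ℝ) ^ 2 : ℝ) : ℂ) * M.kap q =
      T1 M q s - (M.sg : ℂ) * M.kap q := by
    rw [zero_mul, sub_zero]; rfl
  rw [e0] at h4
  rw [← h4.tsum_eq]
  set t := ‖M.kap q‖ with ht
  have ht0 : 0 ≤ t := norm_nonneg _
  have ht1 : t ≤ 1 / 100 := hq.2
  have key : ∀ b, ‖M.w q b * (s * (M.v b : ℂ)) * Complex.exp (s * M.kap q * (M.v b : ℂ)) -
      M.w q b * (M.v b : ℂ) * s - ((M.W b * (M.v b : ℝ) ^ 2 : ℝ) : ℂ) * M.kap q‖ ≤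
      (M.c b * 16 ^ M.L b) * (5 * t ^ 2) := by
    intro b
    have hs2 := sgn_sq' hs
    have e1 : M.w q b * (s * (M.v b : ℂ)) * Complex.exp (s * M.kap q * (M.v b : ℂ)) -
        M.w q b * (M.v b : ℂ) * s - ((M.W b * (M.v b : ℝ) ^ 2 : ℝ) : ℂ) * M.kap q =
        M.w q b * (s * (M.v b : ℂ)) * (Complex.exp (s * M.kap q * (M.v b : ℂ)) - 1 -
          s * M.kap q * (M.v b : ℂ)) + (M.w q b - M.W b) * ((M.v b : ℂ) ^ 2 * M.kap q) := by
      push_cast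
      linear_combination (M.w q b * (M.v b : ℂ) ^ 2 * M.kap q) * hs2
    rw [e1]
    refine (norm_add_le _ _).trans ?_
    rw [norm_mul, norm_mul, norm_mul, norm_mul, norm_mul, norm_pow, sgn_norm' hs, one_mul, ← ht]
    have hc := M.c0 b
    have hv := vc_norm b
    have hw := w_norm' (M := M) hq.1.1.le b
    have hx := (exp_s_bd hq hs b).2.2
    rw [← ht] at hx
    have hδ : ‖q - M.qc‖ ≤ t ^ 2 := sub_le_kap hq.1
    have hW := (w_sub_W (M := M) hq.1.1.le b).trans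
      (mul_le_mul_of_nonneg_left hδ (by positivity))
    have hL3 : (M.L b : ℝ) ^ 3 ≤ 4 ^ M.L b := by exact_mod_cast nat_cube (M.L b)
    have hL2 : (M.L b : ℝ) ^ 2 ≤ 4 ^ M.L b := by exact_mod_cast nat_sq4 (M.L b)
    have hLn : (0 : ℝ) ≤ M.L b := Nat.cast_nonneg _
    have p16 : (16 : ℝ) ^ M.L b = (2 ^ M.L b * 2 ^ M.L b) * 4 ^ M.L b := by
      rw [← mul_pow, ← mul_pow]; norm_num
    have p16' : (16 : ℝ) ^ M.L b = 4 ^ M.L b * 4 ^ M.L b := by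
      rw [← mul_pow]; norm_num
    have b1 : ‖M.w q b‖ * ‖(M.v b : ℂ)‖ * ‖Complex.exp (s * M.kap q * (M.v b : ℂ)) - 1 -
          s * M.kap q * (M.v b : ℂ)‖ ≤ (M.c b * 16 ^ M.L b) * (4 * t ^ 2) := by
      calc _ ≤ (4 * 2 ^ M.L b * M.c b) * (M.L b : ℝ) * ((t * M.L b) ^ 2 * 2 ^ M.L b) :=
            mul_le_mul (mul_le_mul hw hv (norm_nonneg _) (by positivity)) hx (norm_nonneg _)
              (by positivity)
        _ = (4 * (2 ^ M.L b * 2 ^ M.L b) * M.c b * t ^ 2) * (M.L b : ℝ) ^ 3 := by ring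
        _ ≤ (4 * (2 ^ M.L b * 2 ^ M.L b) * M.c b * t ^ 2) * 4 ^ M.L b :=
            mul_le_mul_of_nonneg_left hL3 (by positivity)
        _ = _ := by rw [p16]; ring
    have b2 : ‖M.w q b - M.W b‖ * (‖(M.v b : ℂ)‖ ^ 2 * t) ≤ (M.c b * 16 ^ M.L b) * t ^ 2 := by
      calc _ ≤ (16 * 4 ^ M.L b * M.c b * t ^ 2) * (4 ^ M.L b * (1 / 100)) :=
            mul_le_mul hW (mul_le_mul ((pow_le_pow_left₀ (norm_nonneg _) hv 2).trans hL2) ht1 ht0
              (by positivity)) (by positivity) (by positivity)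
        _ = (M.c b * 16 ^ M.L b) * t ^ 2 * (16 / 100) := by rw [p16']; ring
        _ ≤ (M.c b * 16 ^ M.L b) * t ^ 2 * 1 :=
            mul_le_mul_of_nonneg_left (by norm_num) (by positivity)
        _ = _ := by ring
    calc _ ≤ (M.c b * 16 ^ M.L b) * (4 * t ^ 2) + (M.c b * 16 ^ M.L b) * t ^ 2 := add_le_add b1 b2
      _ = _ := by ring
  refine (tsum_of_norm_bounded (M.sm.hasSum.mul_right _) key).trans ?_
  have h8 := M.s1
  calc (∑' b, M.c b * 16 ^ M.L b) * (5 * t ^ 2) ≤ 1 / 10 ^ 6 * (5 * t ^ 2) :=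
        mul_le_mul_of_nonneg_right h8 (by positivity)
    _ ≤ t ^ 2 := by nlinarith [sq_nonneg t]

theorem T2_bd {q : ℂ} (hq : q ∈ Loc M) {s : ℂ} (hs : s = 1 ∨ s = -1) :
    ‖T2 M q s - (M.sg : ℂ)‖ ≤ ‖M.kap q‖ := by
  have h1 := T2_hasSum hq hs
  have h3 := Complex.hasSum_ofReal.2 M.sg_summable.hasSum
  have h4 := h1.sub h3
  have e0 : T2 M q s - ((∑' b, M.W b * (M.v b : ℝ) ^ 2 : ℝ) : ℂ) =
      T2 M q s - (M.sg : ℂ) := rfl
  rw [e0] at h4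
  rw [← h4.tsum_eq]
  set t := ‖M.kap q‖ with ht
  have ht0 : 0 ≤ t := norm_nonneg _
  have ht1 : t ≤ 1 / 100 := hq.2
  have key : ∀ b, ‖M.w q b * (M.v b : ℂ) ^ 2 * Complex.exp (s * M.kap q * (M.v b : ℂ)) -
      ((M.W b * (M.v b : ℝ) ^ 2 : ℝ) : ℂ)‖ ≤ (M.c b * 16 ^ M.L b) * (5 * t) := by
    intro b
    have e1 : M.w q b * (M.v b : ℂ) ^ 2 * Complex.exp (s * M.kap q * (M.v b : ℂ)) -
        ((M.W b * (M.v b : ℝ) ^ 2 : ℝ) : ℂ) =
        M.w q b * (M.v b : ℂ) ^ 2 * (Complex.exp (s * M.kap q * (M.v b : ℂ)) - 1) +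
          (M.w q b - M.W b) * (M.v b : ℂ) ^ 2 := by
      push_cast; ring
    rw [e1]
    refine (norm_add_le _ _).trans ?_
    rw [norm_mul, norm_mul, norm_mul, norm_pow]
    have hc := M.c0 b
    have hv := pow_le_pow_left₀ (norm_nonneg _) (vc_norm b) 2
    have hw := w_norm' (M := M) hq.1.1.le b
    have hx := (exp_s_bd hq hs b).2.1
    rw [← ht] at hx
    have hδ : ‖q - M.qc‖ ≤ t ^ 2 := sub_le_kap hq.1
    have hW := (w_sub_W (M := M) hq.1.1.le b).trans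
      (mul_le_mul_of_nonneg_left hδ (by positivity))
    have hL3 : (M.L b : ℝ) ^ 3 ≤ 4 ^ M.L b := by exact_mod_cast nat_cube (M.L b)
    have hL2 : (M.L b : ℝ) ^ 2 ≤ 4 ^ M.L b := by exact_mod_cast nat_sq4 (M.L b)
    have hLn : (0 : ℝ) ≤ M.L b := Nat.cast_nonneg _
    have p16 : (16 : ℝ) ^ M.L b = (2 ^ M.L b * 2 ^ M.L b) * 4 ^ M.L b := by
      rw [← mul_pow, ← mul_pow]; norm_num
    have p16' : (16 : ℝ) ^ M.L b = 4 ^ M.L b * 4 ^ M.L b := by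
      rw [← mul_pow]; norm_num
    have b1 : ‖M.w q b‖ * ‖(M.v b : ℂ)‖ ^ 2 * ‖Complex.exp (s * M.kap q * (M.v b : ℂ)) - 1‖ ≤
        (M.c b * 16 ^ M.L b) * (4 * t) := by
      calc _ ≤ (4 * 2 ^ M.L b * M.c b) * (M.L b : ℝ) ^ 2 * ((t * M.L b) * 2 ^ M.L b) :=
            mul_le_mul (mul_le_mul hw hv (by positivity) (by positivity)) hx (norm_nonneg _)
              (by positivity)
        _ = (4 * (2 ^ M.L b * 2 ^ M.L b) * M.c b * t) * (M.L b : ℝ) ^ 3 := by ring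
        _ ≤ (4 * (2 ^ M.L b * 2 ^ M.L b) * M.c b * t) * 4 ^ M.L b :=
            mul_le_mul_of_nonneg_left hL3 (by positivity)
        _ = _ := by rw [p16]; ring
    have b2 : ‖M.w q b - M.W b‖ * ‖(M.v b : ℂ)‖ ^ 2 ≤ (M.c b * 16 ^ M.L b) * t := by
      calc _ ≤ (16 * 4 ^ M.L b * M.c b * t ^ 2) * 4 ^ M.L b :=
            mul_le_mul hW (hv.trans hL2) (by positivity) (by positivity)
        _ = (M.c b * 16 ^ M.L b) * (t * (16 * t)) := by rw [p16']; ring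
        _ ≤ (M.c b * 16 ^ M.L b) * (t * 1) := by
            refine mul_le_mul_of_nonneg_left (mul_le_mul_of_nonneg_left ?_ ht0) (by positivity)
            linarith
        _ = _ := by ring
    calc _ ≤ (M.c b * 16 ^ M.L b) * (4 * t) + (M.c b * 16 ^ M.L b) * t := add_le_add b1 b2
      _ = _ := by ring
  refine (tsum_of_norm_bounded (M.sm.hasSum.mul_right _) key).trans ?_
  have h8 := M.s1
  calc (∑' b, M.c b * 16 ^ M.L b) * (5 * t) ≤ 1 / 10 ^ 6 * (5 * t) :=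
        mul_le_mul_of_nonneg_right h8 (by positivity)
    _ ≤ t := by norm_num; linarith

/-- the terms of the main part -/
def mb (M : Mdl) (C : Cap) (q : ℂ) (d : ℤ) (b : M.ι) : ℂ :=
  (ui M C d : ℂ) * E (M.kap q) d *
    (M.w q b * Complex.exp (sgn d * M.kap q * (M.v b : ℂ)) * Qp (M.kap q) d.natAbs -
      (2 * (M.kap q)⁻¹ * (d.natAbs : ℂ) *
          (M.w q b * (sgn d * (M.v b : ℂ)) * Complex.exp (sgn d * M.kap q * (M.v b : ℂ))) -
        (M.kap q)⁻¹ *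
          (M.w q b * (M.v b : ℂ) ^ 2 * Complex.exp (sgn d * M.kap q * (M.v b : ℂ))) +
        (M.kap q)⁻¹ ^ 2 *
          (M.w q b * (sgn d * (M.v b : ℂ)) * Complex.exp (sgn d * M.kap q * (M.v b : ℂ)))) / 4)

/-- the main part -/
def mn (M : Mdl) (C : Cap) (q : ℂ) (d : ℤ) : ℂ :=
  (ui M C d : ℂ) * E (M.kap q) d *
    ((1 - q ^ 2 + Ph M q (M.kap q)) * Qp (M.kap q) d.natAbs -
      (2 * (M.kap q)⁻¹ * (d.natAbs : ℂ) * T1 M q (sgn d) - (M.kap q)⁻¹ * T2 M q (sgn d) +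
        (M.kap q)⁻¹ ^ 2 * T1 M q (sgn d)) / 4)

theorem mb_hasSum {q : ℂ} (hq : q ∈ Loc M) (d : ℤ) : HasSum (mb M C q d) (mn M C q d) := by
  have h0 := T0_hasSum hq (sgn_cases d)
  have h1 := T1_hasSum hq (sgn_cases d)
  have h2 := T2_hasSum hq (sgn_cases d)
  exact ((h0.mul_right (Qp (M.kap q) d.natAbs)).sub
    ((((h1.mul_left (2 * (M.kap q)⁻¹ * (d.natAbs : ℂ))).sub
      (h2.mul_left (M.kap q)⁻¹)).add (h1.mul_left ((M.kap q)⁻¹ ^ 2))).div_const 4)).mul_left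
        ((ui M C d : ℂ) * E (M.kap q) d)

theorem far_b {q : ℂ} (hq : q ∈ Loc M) (b : M.ι) {d : ℤ} (hd : M.L b < d.natAbs) :
    mb M C q d b = M.w q b * (if M.P b d then yq M C q (d - M.v b) else 0) := by
  have hP : M.P b d := M.far b d (by rw [Int.abs_eq_natAbs]; exact_mod_cast hd)
  have hv := vn_le (M := M) b
  have hd0 : d ≠ 0 := by rintro rfl; simp at hd
  rw [if_pos hP, yq_apply hq, E_bulk hd0 (by omega)]
  have e1 : ui M C (d - M.v b) = ui M C d := by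
    unfold ui
    have h1 : (0 < d - M.v b ↔ 0 < d) := by omega
    have h2 : (d - M.v b < 0 ↔ d < 0) := by omega
    simp only [h1, h2]
  have e2 : ((d - M.v b).natAbs : ℂ) = (d.natAbs : ℂ) - sgn d * (M.v b : ℂ) := by
    unfold sgn
    split_ifs with h
    · have e1 : ((d - M.v b).natAbs : ℤ) = (d.natAbs : ℤ) - M.v b := by omega
      have e2 : ((((d - M.v b).natAbs : ℤ)) : ℂ) = (((d.natAbs : ℤ) - M.v b : ℤ) : ℂ) := by
        rw [e1]
      rw [Int.cast_sub, Int.cast_natCast, Int.cast_natCast] at e2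
      rw [e2]; ring
    · have e1 : ((d - M.v b).natAbs : ℤ) = (d.natAbs : ℤ) + M.v b := by omega
      have e2 : ((((d - M.v b).natAbs : ℤ)) : ℂ) = (((d.natAbs : ℤ) + M.v b : ℤ) : ℂ) := by
        rw [e1]
      rw [Int.cast_add, Int.cast_natCast, Int.cast_natCast] at e2
      rw [e2]; ring
  rw [e1]
  unfold mb Qp
  rw [e2]
  have hs2 := sgn_sq' (sgn_cases d)
  linear_combination (-((ui M C d : ℂ) * E (M.kap q) d * M.w q b *
    Complex.exp (sgn d * M.kap q * (M.v b : ℂ)) * (M.kap q)⁻¹ * (M.v b : ℂ) ^ 2 / 4)) * hs2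

theorem q_bd {κ A B : ℂ} (h0 : 0 < ‖κ‖) (h1 : ‖κ‖ ≤ 1 / 100) {L : ℝ} (hL : 1 ≤ L)
    (hA : ‖A‖ ≤ 4 * L ^ 2) (hB : ‖B‖ ≤ 2 * L) :
    ‖(κ⁻¹ * A + κ⁻¹ ^ 2 * B) / 4‖ ≤ 2 * L ^ 2 / ‖κ‖ ^ 2 := by
  have e : ‖(4 : ℂ)‖ = 4 := by simp
  rw [norm_div, e, div_le_div_iff₀ (by norm_num) (by positivity)]
  have h2 : ‖κ⁻¹ * A + κ⁻¹ ^ 2 * B‖ ≤ ‖κ‖⁻¹ * (4 * L ^ 2) + ‖κ‖⁻¹ ^ 2 * (2 * L) := by
    refine (norm_add_le _ _).trans ?_
    rw [norm_mul, norm_mul, norm_pow, norm_inv]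
    exact add_le_add (mul_le_mul_of_nonneg_left hA (by positivity))
      (mul_le_mul_of_nonneg_left hB (by positivity))
  calc _ ≤ (‖κ‖⁻¹ * (4 * L ^ 2) + ‖κ‖⁻¹ ^ 2 * (2 * L)) * ‖κ‖ ^ 2 :=
        mul_le_mul_of_nonneg_right h2 (by positivity)
    _ = 4 * L ^ 2 * ‖κ‖ + 2 * L := by field_simp
    _ ≤ 2 * L ^ 2 * 4 := by nlinarith [mul_nonneg (sq_nonneg L) h0.le]

theorem near_b {q : ℂ} (hq : q ∈ Loc M) (b : M.ι) {d : ℤ} (hd : d.natAbs ≤ M.L b) :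
    ‖mb M C q d b - M.w q b * (if M.P b d then yq M C q (d - M.v b) else 0)‖ ≤
      (M.c b * 16 ^ M.L b) * (32 * CU M C / ‖M.kap q‖ ^ 2 * (1 / 2) ^ d.natAbs) := by
  have hκ0 := kap_pos hq.1
  have hκ1 := hq.2
  have hre := kap_re hq.1
  have hC := CU_nonneg (M := M) (C := C)
  have hc := M.c0 b
  have hv := vc_norm b
  have hw := w_norm' (M := M) hq.1.1.le b
  have hL1 : (1 : ℝ) ≤ M.L b := by exact_mod_cast M.L1 b
  have hs := sgn_cases d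
  have hx := (exp_s_bd hq hs b).1
  have hE2 : ‖E (M.kap q) d‖ ≤ 1 := E_norm_le_one (by linarith) _
  have hE1 : ‖E (M.kap q) (d - M.v b)‖ ≤ 1 := E_norm_le_one (by linarith) _
  have hdL : (d.natAbs : ℝ) ≤ M.L b := by exact_mod_cast hd
  have hdn : ‖(d.natAbs : ℂ)‖ ≤ M.L b := by rw [Complex.norm_natCast]; exact hdL
  have hsv : ‖sgn d * (M.v b : ℂ)‖ ≤ M.L b := by rw [norm_mul, sgn_norm' hs, one_mul]; exact hv
  set t := ‖M.kap q‖ with ht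
  have a1 : ‖mb M C q d b‖ ≤ (4 * 2 ^ M.L b * M.c b) *
      (CU M C * (1 * (2 ^ M.L b * (2 * (M.L b : ℝ) ^ 2 / t ^ 2)))) := by
    have e1 : mb M C q d b = M.w q b * ((ui M C d : ℂ) * (E (M.kap q) d *
        (Complex.exp (sgn d * M.kap q * (M.v b : ℂ)) *
        (((M.kap q)⁻¹ * ((d.natAbs : ℂ) ^ 2 - 2 * ((d.natAbs : ℂ) * (sgn d * (M.v b : ℂ))) +
          (M.v b : ℂ) ^ 2) +
        (M.kap q)⁻¹ ^ 2 * ((d.natAbs : ℂ) - sgn d * (M.v b : ℂ))) / 4)))) := by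
      unfold mb Qp; ring
    rw [e1, norm_mul, norm_mul, norm_mul, norm_mul, Complex.norm_real, Real.norm_eq_abs,
      abs_of_nonneg (ui_nonneg _)]
    have hA : ‖(d.natAbs : ℂ) ^ 2 - 2 * ((d.natAbs : ℂ) * (sgn d * (M.v b : ℂ))) +
        (M.v b : ℂ) ^ 2‖ ≤ 4 * (M.L b : ℝ) ^ 2 := by
      refine (norm_add_le _ _).trans ?_
      have h1 := norm_sub_le ((d.natAbs : ℂ) ^ 2) (2 * ((d.natAbs : ℂ) * (sgn d * (M.v b : ℂ))))
      rw [norm_mul, norm_mul (d.natAbs : ℂ), norm_pow] at h1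
      rw [norm_pow]
      have e2 : ‖(2 : ℂ)‖ = 2 := by simp
      rw [e2] at h1
      have h2 := pow_le_pow_left₀ (norm_nonneg _) hdn 2
      have h3 := pow_le_pow_left₀ (norm_nonneg _) hv 2
      have h4 : ‖(d.natAbs : ℂ)‖ * ‖sgn d * (M.v b : ℂ)‖ ≤ M.L b * M.L b :=
        mul_le_mul hdn hsv (norm_nonneg _) (by positivity)
      nlinarith
    have hB : ‖(d.natAbs : ℂ) - sgn d * (M.v b : ℂ)‖ ≤ 2 * (M.L b : ℝ) := by
      refine (norm_sub_le _ _).trans ?_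
      linarith
    have h1 := q_bd hκ0 hκ1 hL1 hA hB
    refine mul_le_mul hw (mul_le_mul (ui_le d) ?_ (by positivity) hC) ?_ (by positivity)
    · exact mul_le_mul hE2 (mul_le_mul hx h1 (norm_nonneg _) (by positivity)) (by positivity)
        zero_le_one
    · exact mul_nonneg (ui_nonneg _) (by positivity)
  have a2 : ‖M.w q b * (if M.P b d then yq M C q (d - M.v b) else 0)‖ ≤
      (4 * 2 ^ M.L b * M.c b) * (CU M C * (2 * (M.L b : ℝ) ^ 2 / t ^ 2 * 1)) := by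
    rw [norm_mul]
    refine mul_le_mul hw ?_ (norm_nonneg _) (by positivity)
    split_ifs with hP
    · rw [yq_apply hq, norm_mul, norm_mul, Complex.norm_real, Real.norm_eq_abs,
        abs_of_nonneg (ui_nonneg _)]
      have hm : (d - M.v b).natAbs ≤ 2 * M.L b := by
        have := vn_le (M := M) b
        omega
      have hm' : ((d - M.v b).natAbs : ℝ) ≤ 2 * (M.L b : ℝ) := by exact_mod_cast hm
      have h1 : ‖Qp (M.kap q) (d - M.v b).natAbs‖ ≤ 2 * (M.L b : ℝ) ^ 2 / t ^ 2 := by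
        unfold Qp
        refine q_bd hκ0 hκ1 hL1 ?_ ?_
        · rw [norm_pow, Complex.norm_natCast]
          have := pow_le_pow_left₀ (Nat.cast_nonneg _) hm' 2
          nlinarith
        · rw [Complex.norm_natCast]; exact hm'
      exact mul_le_mul (ui_le _) (mul_le_mul h1 hE1 (norm_nonneg _) (by positivity))
        (by positivity) hC
    · rw [norm_zero]; positivity
  have hL2 : (M.L b : ℝ) ^ 2 ≤ 2 * 2 ^ M.L b := by exact_mod_cast sq_le_two_pow (M.L b)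
  have h2L : (1 : ℝ) ≤ 2 ^ M.L b := one_le_pow₀ (by norm_num)
  have h8 : (2 : ℝ) ^ M.L b * 2 ^ M.L b * 2 ^ M.L b ≤ 16 ^ M.L b * (1 / 2) ^ d.natAbs := by
    have h7 : (2 : ℝ) ^ M.L b * 2 ^ M.L b * 2 ^ M.L b = 16 ^ M.L b * (1 / 2) ^ M.L b := by
      rw [← mul_pow, ← mul_pow, ← mul_pow]; norm_num
    rw [h7]
    exact mul_le_mul_of_nonneg_left
      (pow_le_pow_of_le_one (by norm_num) (by norm_num) hd) (by positivity)
  refine (norm_sub_le _ _).trans ((add_le_add a1 a2).trans ?_)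
  calc _ = (8 * 2 ^ M.L b * M.c b) * (CU M C * ((M.L b : ℝ) ^ 2 / t ^ 2 * (2 ^ M.L b + 1))) := by
        ring
    _ ≤ (8 * 2 ^ M.L b * M.c b) * (CU M C * ((2 * 2 ^ M.L b) / t ^ 2 * (2 * 2 ^ M.L b))) := by
        refine mul_le_mul_of_nonneg_left (mul_le_mul_of_nonneg_left ?_ hC) (by positivity)
        exact mul_le_mul (div_le_div_of_nonneg_right hL2 (by positivity)) (by linarith)
          (by positivity) (by positivity)
    _ = (M.c b * (2 ^ M.L b * 2 ^ M.L b * 2 ^ M.L b)) * (32 * CU M C / t ^ 2) := by ring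
    _ ≤ (M.c b * (16 ^ M.L b * (1 / 2) ^ d.natAbs)) * (32 * CU M C / t ^ 2) :=
        mul_le_mul_of_nonneg_right (mul_le_mul_of_nonneg_left h8 hc) (by positivity)
    _ = _ := by ring

theorem term_bd {q : ℂ} (hq : q ∈ Loc M) (d : ℤ) (b : M.ι) :
    ‖mb M C q d b - M.w q b * (if M.P b d then yq M C q (d - M.v b) else 0)‖ ≤
      (M.c b * 16 ^ M.L b) * (32 * CU M C / ‖M.kap q‖ ^ 2 * (1 / 2) ^ d.natAbs) := by
  have hC := CU_nonneg (M := M) (C := C)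
  have hc := M.c0 b
  rcases le_or_gt d.natAbs (M.L b) with h | h
  · exact near_b hq b h
  · rw [far_b hq b h, sub_self, norm_zero]; positivity

theorem main_bd {q : ℂ} (hq : q ∈ Loc M) (d : ℤ) :
    ‖mn M C q d - M.N q (yq M C q) d‖ ≤ CU M C / ‖M.kap q‖ ^ 2 * (1 / 2) ^ d.natAbs := by
  have hC := CU_nonneg (M := M) (C := C)
  have H1 := M.N_hasSum hq.1.1.le (yq M C q) d
  have H := (mb_hasSum (C := C) hq d).sub H1
  rw [← H.tsum_eq]
  refine (tsum_of_norm_bounded (M.sm.hasSum.mul_right _) (term_bd hq d)).trans ?_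
  have h8 := M.s1
  have h9 : 0 ≤ CU M C / ‖M.kap q‖ ^ 2 * (1 / 2) ^ d.natAbs := by positivity
  calc (∑' b, M.c b * 16 ^ M.L b) * (32 * CU M C / ‖M.kap q‖ ^ 2 * (1 / 2) ^ d.natAbs)
      ≤ 1 / 10 ^ 6 * (32 * CU M C / ‖M.kap q‖ ^ 2 * (1 / 2) ^ d.natAbs) :=
        mul_le_mul_of_nonneg_right h8 (by positivity)
    _ = (32 / 10 ^ 6) * (CU M C / ‖M.kap q‖ ^ 2 * (1 / 2) ^ d.natAbs) := by ring
    _ ≤ 1 * (CU M C / ‖M.kap q‖ ^ 2 * (1 / 2) ^ d.natAbs) :=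
        mul_le_mul_of_nonneg_right (by norm_num) h9
    _ = _ := one_mul _

/-- the bulk error -/
def r1 (M : Mdl) (C : Cap) (q : ℂ) (d : ℤ) : ℂ :=
  (ui M C d : ℂ) * (E (M.kap q) d * (-(Ph M q (M.kap q)) * Qp (M.kap q) d.natAbs +
    (2 * (M.kap q)⁻¹ * (d.natAbs : ℂ) * T1 M q (sgn d) - (M.kap q)⁻¹ * T2 M q (sgn d) +
      (M.kap q)⁻¹ ^ 2 * T1 M q (sgn d)) / 4 - ((M.sg / 2 : ℝ) : ℂ) * (d.natAbs : ℂ)))

theorem r1_in {q : ℂ} (hq : q ∈ Loc M) (d : ℤ) :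
    ‖-(Ph M q (M.kap q)) * Qp (M.kap q) d.natAbs +
    (2 * (M.kap q)⁻¹ * (d.natAbs : ℂ) * T1 M q (sgn d) - (M.kap q)⁻¹ * T2 M q (sgn d) +
      (M.kap q)⁻¹ ^ 2 * T1 M q (sgn d)) / 4 - ((M.sg / 2 : ℝ) : ℂ) * (d.natAbs : ℂ)‖ ≤
    3 * (1 + ‖M.kap q‖ * d.natAbs + (‖M.kap q‖ * d.natAbs) ^ 2) := by
  have hκ0 := kap_pos hq.1
  have hP := Ph_bd hq
  have b1 := T1_bd hq (sgn_cases d)
  have b2 := T2_bd hq (sgn_cases d)
  have hκ : M.kap q ≠ 0 := norm_pos_iff.1 hκ0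
  have hκi : (M.kap q)⁻¹ * M.kap q = 1 := inv_mul_cancel₀ hκ
  have hn : (0 : ℝ) ≤ d.natAbs := Nat.cast_nonneg _
  have e : -(Ph M q (M.kap q)) * Qp (M.kap q) d.natAbs +
    (2 * (M.kap q)⁻¹ * (d.natAbs : ℂ) * T1 M q (sgn d) - (M.kap q)⁻¹ * T2 M q (sgn d) +
      (M.kap q)⁻¹ ^ 2 * T1 M q (sgn d)) / 4 - ((M.sg / 2 : ℝ) : ℂ) * (d.natAbs : ℂ) =
    -(Ph M q (M.kap q)) * Qp (M.kap q) d.natAbs +
      (((M.kap q)⁻¹ * (d.natAbs : ℂ) * (T1 M q (sgn d) - (M.sg : ℂ) * M.kap q)) / 2 +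
      ((M.kap q)⁻¹ ^ 2 * (T1 M q (sgn d) - (M.sg : ℂ) * M.kap q) -
        (M.kap q)⁻¹ * (T2 M q (sgn d) - (M.sg : ℂ))) / 4) := by
    push_cast
    linear_combination ((M.sg : ℂ) * (d.natAbs : ℂ) / 2 + (M.kap q)⁻¹ * (M.sg : ℂ) / 4) * hκi
  rw [e]
  set e1 := T1 M q (sgn d) - (M.sg : ℂ) * M.kap q with he1
  set e2 := T2 M q (sgn d) - (M.sg : ℂ) with he2
  have n2 : ‖(2 : ℂ)‖ = 2 := by simp
  have n4 : ‖(4 : ℂ)‖ = 4 := by simp
  have p0 : ‖Qp (M.kap q) d.natAbs‖ ≤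
      (‖M.kap q‖⁻¹ * (d.natAbs : ℝ) ^ 2 + ‖M.kap q‖⁻¹ ^ 2 * d.natAbs) / 4 := by
    unfold Qp
    rw [norm_div, n4]
    refine div_le_div_of_nonneg_right ?_ (by norm_num)
    refine (norm_add_le _ _).trans (le_of_eq ?_)
    rw [norm_mul, norm_mul, norm_pow, norm_pow, norm_inv, Complex.norm_natCast]
  set t := ‖M.kap q‖ with ht
  have p1 : ‖-(Ph M q (M.kap q)) * Qp (M.kap q) d.natAbs‖ ≤
      5 / 2 * ((t * d.natAbs) ^ 2 + t * d.natAbs) := by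
    rw [norm_mul, norm_neg]
    calc _ ≤ (10 * t ^ 3) * ((t⁻¹ * (d.natAbs : ℝ) ^ 2 + t⁻¹ ^ 2 * d.natAbs) / 4) :=
          mul_le_mul hP p0 (norm_nonneg _) (by positivity)
      _ = _ := by field_simp; ring
  have p2 : ‖((M.kap q)⁻¹ * (d.natAbs : ℂ) * e1) / 2‖ ≤ t * d.natAbs / 2 := by
    rw [norm_div, n2, norm_mul, norm_mul, norm_inv, Complex.norm_natCast, ← ht]
    refine div_le_div_of_nonneg_right ?_ (by norm_num)
    calc _ ≤ t⁻¹ * (d.natAbs : ℝ) * t ^ 2 := mul_le_mul_of_nonneg_left b1 (by positivity)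
      _ = _ := by field_simp
  have p3 : ‖((M.kap q)⁻¹ ^ 2 * e1 - (M.kap q)⁻¹ * e2) / 4‖ ≤ 2 / 4 := by
    rw [norm_div, n4]
    refine div_le_div_of_nonneg_right ?_ (by norm_num)
    refine (norm_sub_le _ _).trans ?_
    rw [norm_mul, norm_mul, norm_pow, norm_inv, ← ht]
    have h1 : t⁻¹ ^ 2 * ‖e1‖ ≤ 1 := by
      calc _ ≤ t⁻¹ ^ 2 * t ^ 2 := mul_le_mul_of_nonneg_left b1 (by positivity)
        _ = 1 := by field_simp
    have h2 : t⁻¹ * ‖e2‖ ≤ 1 := by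
      calc _ ≤ t⁻¹ * t := mul_le_mul_of_nonneg_left b2 (by positivity)
        _ = 1 := by field_simp
    linarith
  refine (norm_add_le _ _).trans ?_
  have h5 := norm_add_le (((M.kap q)⁻¹ * (d.natAbs : ℂ) * e1) / 2)
    (((M.kap q)⁻¹ ^ 2 * e1 - (M.kap q)⁻¹ * e2) / 4)
  have h6 : 0 ≤ t * d.natAbs := by positivity
  nlinarith [sq_nonneg (t * (d.natAbs : ℝ))]

theorem r1_bd0 {q : ℂ} (hq : q ∈ Loc M) (d : ℤ) :
    ‖r1 M C q d‖ ≤ (96 * CU M C) * Real.exp (-(‖M.kap q‖ / 2 / 2)) ^ d.natAbs := by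
  have hκ0 := kap_pos hq.1
  have hC := CU_nonneg (M := M) (C := C)
  unfold r1
  rw [norm_mul, norm_mul, Complex.norm_real, Real.norm_eq_abs, abs_of_nonneg (ui_nonneg _)]
  have h1 := E_norm_le (kap_re hq.1) d
  have h2 := r1_in hq d
  set t := ‖M.kap q‖ with ht
  set n : ℝ := (d.natAbs : ℝ) with hn
  have hn0 : 0 ≤ n := Nat.cast_nonneg _
  have hx : 0 ≤ t * n := by positivity
  have e1 : Real.exp (-(t / 2)) ^ d.natAbs =
      Real.exp (-(t / 2 / 2)) ^ d.natAbs * Real.exp (-(t / 2 / 2)) ^ d.natAbs := by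
    rw [← mul_pow, ← Real.exp_add]; congr 2; ring
  have e2 : Real.exp (-(t / 2 / 2)) ^ d.natAbs = (Real.exp (t * n / 4))⁻¹ := by
    rw [← Real.exp_nat_mul, ← Real.exp_neg]; congr 1; rw [← hn]; ring
  have h3 : 1 + t * n + (t * n) ^ 2 ≤ 32 * Real.exp (t * n / 4) := by
    have := Real.quadratic_le_exp_of_nonneg (x := t * n / 4) (by positivity)
    nlinarith
  have h4 : Real.exp (-(t / 2 / 2)) ^ d.natAbs * (3 * (1 + t * n + (t * n) ^ 2)) ≤ 96 := by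
    rw [e2]
    have h5 := Real.exp_pos (t * n / 4)
    calc _ ≤ (Real.exp (t * n / 4))⁻¹ * (3 * (32 * Real.exp (t * n / 4))) :=
          mul_le_mul_of_nonneg_left (by linarith) (by positivity)
      _ = 96 := by field_simp; norm_num
  calc _ ≤ CU M C * (Real.exp (-(t / 2)) ^ d.natAbs * (3 * (1 + t * n + (t * n) ^ 2))) :=
        mul_le_mul (ui_le d) (mul_le_mul h1 h2 (norm_nonneg _) (by positivity)) (by positivity) hC
    _ = CU M C * (Real.exp (-(t / 2 / 2)) ^ d.natAbs *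
          (Real.exp (-(t / 2 / 2)) ^ d.natAbs * (3 * (1 + t * n + (t * n) ^ 2)))) := by
        rw [e1]; ring
    _ ≤ CU M C * (Real.exp (-(t / 2 / 2)) ^ d.natAbs * 96) :=
        mul_le_mul_of_nonneg_left (mul_le_mul_of_nonneg_left h4 (by positivity)) hC
    _ = _ := by ring

/-- F1 -/
theorem yq_res (M : Mdl) (C : Cap) : ∃ X : ℝ, 0 ≤ X ∧ ∀ q ∈ Loc M, ∃ ρ1 ρ2 : H,
    yq M C q - M.K q (yq M C q) = ((M.sg / 2 : ℝ) : ℂ) • mt M C q + ρ1 + ρ2 ∧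
    ρ1 0 = 0 ∧ ρ2 0 = 0 ∧ ‖ρ1‖ ≤ X / √‖M.kap q‖ ∧
    ∀ d, ‖ρ2 d‖ ≤ X / ‖M.kap q‖ ^ 2 * (1 / 2) ^ d.natAbs := by
  have hC := CU_nonneg (M := M) (C := C)
  refine ⟨384 * CU M C, by positivity, fun q hq => ?_⟩
  have hκ0 := kap_pos hq.1
  have hκ1 := hq.2
  have hr0 : 0 ≤ Real.exp (-(‖M.kap q‖ / 2 / 2)) := (Real.exp_pos _).le
  have hr1 : Real.exp (-(‖M.kap q‖ / 2 / 2)) < 1 := Real.exp_lt_one_iff.2 (by linarith)
  have hap : ∀ d, toH (r1 M C q) d = r1 M C q d :=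
    toH_apply (summable_of_bd hr0 hr1 (r1_bd0 hq))
  have hui0 : ui M C 0 = 0 := by unfold ui; simp
  have hρ2 : ∀ d, (yq M C q - M.K q (yq M C q) - ((M.sg / 2 : ℝ) : ℂ) • mt M C q -
      toH (r1 M C q)) d = mn M C q d - M.N q (yq M C q) d := by
    intro d
    have e : (yq M C q - M.K q (yq M C q) - ((M.sg / 2 : ℝ) : ℂ) • mt M C q -
      toH (r1 M C q)) d = yq M C q d - (q ^ 2 * yq M C q d + M.N q (yq M C q) d) -
        ((M.sg / 2 : ℝ) : ℂ) * mt M C q d - toH (r1 M C q) d := rfl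
    rw [e, hap, yq_apply hq, mt_apply hq]
    unfold mn r1
    ring
  refine ⟨toH (r1 M C q), yq M C q - M.K q (yq M C q) - ((M.sg / 2 : ℝ) : ℂ) • mt M C q -
    toH (r1 M C q), by abel, ?_, ?_, ?_, ?_⟩
  · rw [hap]; unfold r1; rw [hui0]; simp
  · rw [hρ2, N_zero hq.1.1.le]; unfold mn; rw [hui0]; simp
  · have h1 := norm_sq_le (f := toH (r1 M C q)) hr0 hr1 (fun d => by rw [hap]; exact r1_bd0 hq d)
    have h2 := geom_exp (t := ‖M.kap q‖ / 2) (by linarith) (by linarith)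
    have hsq : 0 < √‖M.kap q‖ := Real.sqrt_pos.2 hκ0
    refine le_of_sq_le_sq ?_ (by positivity)
    rw [div_pow, Real.sq_sqrt hκ0.le]
    refine h1.trans ((mul_le_mul_of_nonneg_left h2 (sq_nonneg _)).trans (le_of_eq ?_))
    field_simp
    ring
  · intro d
    rw [hρ2]
    refine (main_bd hq d).trans ?_
    refine mul_le_mul_of_nonneg_right (div_le_div_of_nonneg_right ?_ (by positivity))
      (by positivity)
    linarith

end Mdl
end
end KN.SQ
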