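import Pool.Agent.H132.SQ.W6

set_option autoImplicit false

/-!
# Sharp bound for the distance times the error vector (task T3-E)
-/

namespace KN.SQ

open Finset Filter Topology
open scoped Classical ENNReal ComplexConjugate

namespace Mdl

variable {M : Mdl} {C : Cap}

theorem xfe_S (g : H) (P : ℤ → Prop) (v : ℤ) :
    ‖S P v g - g‖ ^ 2 ≤ 2 * (‖g‖ ^ 2 - (inner ℂ g (S P v g)).re) := by
  have h1 : ‖g - S P v g‖ ^ 2 = ‖g‖ ^ 2 - 2 * (inner ℂ g (S P v g)).re + ‖S P v g‖ ^ 2 :=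
    norm_sub_sq (𝕜 := ℂ) g (S P v g)
  have h2 : ‖S P v g‖ ≤ ‖g‖ := by
    have := (S P v).le_opNorm g
    have h2 := mul_le_mul_of_nonneg_right (S_norm P v) (norm_nonneg g)
    linarith
  have h3 : ‖S P v g‖ ^ 2 ≤ ‖g‖ ^ 2 := pow_le_pow_left₀ (norm_nonneg _) h2 2
  rw [norm_sub_rev, h1]
  linarith

theorem xfe_nat (n : ℕ) : n ^ 2 ≤ 2 * 2 ^ n := by
  have key : ∀ n : ℕ, 4 ≤ n → n ^ 2 ≤ 2 * 2 ^ n := by
    intro n hn
    induction n, hn using Nat.le_induction with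
    | base => norm_num
    | succ n hn ih =>
      have : (n + 1) ^ 2 ≤ 2 * n ^ 2 := by nlinarith
      calc (n + 1) ^ 2 ≤ 2 * n ^ 2 := this
        _ ≤ 2 * (2 * 2 ^ n) := Nat.mul_le_mul_left _ ih
        _ = 2 * 2 ^ (n + 1) := by rw [pow_succ]; ring
  rcases Nat.lt_or_ge n 4 with h | h
  · interval_cases n <;> norm_num
  · exact key n h

theorem xfe_qc (L : ℕ) (hL : 1 ≤ L) : (1 / 2 : ℝ) ^ L ≤ M.qc ^ (L + 2) := by
  have h1 := M.qc_ge
  have h2 : (999 / 1000 : ℝ) ^ (L + 2) ≤ M.qc ^ (L + 2) := pow_le_pow_left₀ (by norm_num) h1 _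
  refine le_trans ?_ h2
  induction L, hL using Nat.le_induction with
  | base => norm_num
  | succ n hn ih =>
    have h3 := ih (pow_le_pow_left₀ (by norm_num) h1 _)
    rw [show n + 1 + 2 = (n + 2) + 1 by ring, pow_succ, pow_succ]
    exact mul_le_mul h3 (by norm_num) (by norm_num) (by positivity)

/-- the inequality between the means, for one block -/
theorem xfe_am {q : ℂ} (hq : ‖q‖ ≤ 2) (b : M.ι) {t x : ℝ} (ht : 0 < t) (hx : 0 ≤ x) :
    ‖M.w q b * (M.v b : ℂ)‖ * x ≤ 8 * t * (M.c b * 16 ^ M.L b) + M.W b * x ^ 2 / t := by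
  have hc := M.c0 b
  have h1 := w_norm' (M := M) hq b
  have hv : ‖(M.v b : ℂ)‖ ≤ M.L b := by
    rw [Complex.norm_intCast]
    exact M.v_abs_le b
  obtain ⟨L, hL⟩ : ∃ L : ℕ, L = M.L b := ⟨_, rfl⟩
  have hL1 : 1 ≤ L := by rw [hL]; exact M.L1 b
  rw [← hL] at h1 hv ⊢
  have h2 : ‖M.w q b * (M.v b : ℂ)‖ * x ≤ (4 * 2 ^ L * M.c b) * L * x := by
    rw [norm_mul]
    gcongr
  refine h2.trans ?_
  obtain ⟨a, ha⟩ : ∃ a : ℝ, a = 2 ^ L := ⟨_, rfl⟩
  have ha0 : 0 < a := by rw [ha]; positivity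
  have h16 : (16 : ℝ) ^ L = a ^ 4 := by
    rw [ha, ← pow_mul, mul_comm, pow_mul]
    norm_num
  have hL2 : (L : ℝ) ^ 2 ≤ 2 * a := by
    rw [ha]
    exact_mod_cast xfe_nat L
  have hρ : 1 / a ≤ M.qc ^ (L + 2) := by
    have := xfe_qc (M := M) L hL1
    rw [one_div_pow] at this
    rw [ha]
    exact this
  have hW : M.c b * (1 / a) * x ^ 2 / t ≤ M.W b * x ^ 2 / t := by
    unfold W
    rw [← hL]
    gcongr
  refine le_trans ?_ (add_le_add le_rfl hW)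
  rw [← ha, h16]
  have key : 4 * a * L * x ≤ 8 * t * a ^ 4 + (1 / a) * x ^ 2 / t := by
    have e : 8 * t * a ^ 4 + (1 / a) * x ^ 2 / t = (8 * a ^ 5 * t ^ 2 + x ^ 2) / (a * t) := by
      field_simp
    rw [e, le_div_iff₀ (by positivity)]
    have h3 : 4 * a ^ 4 * (L : ℝ) ^ 2 * t ^ 2 ≤ 4 * a ^ 4 * (2 * a) * t ^ 2 := by gcongr
    nlinarith [sq_nonneg (x - 2 * a ^ 2 * L * t)]
  calc 4 * a * M.c b * L * x = M.c b * (4 * a * L * x) := by ring
    _ ≤ M.c b * (8 * t * a ^ 4 + (1 / a) * x ^ 2 / t) := mul_le_mul_of_nonneg_left key hc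
    _ = _ := by ring

theorem xfe_wv {q : ℂ} (hq : ‖q‖ ≤ 2) (b : M.ι) :
    ‖M.w q b * (M.v b : ℂ)‖ ≤ M.c b * 16 ^ M.L b * 4 := by
  have h := (w_sq_le (M := M) hq b).1
  rw [norm_mul, Complex.norm_intCast]
  have e : |((M.v b : ℤ) : ℝ)| = ((M.v b).natAbs : ℝ) := by
    rw [← Int.cast_abs, Int.abs_eq_natAbs]
    rfl
  rw [e]
  exact h

theorem xfe_opsum {q : ℂ} (hq : ‖q‖ ≤ 2) :
    Summable fun b => (M.w q b * (M.v b : ℂ)) • S (M.P b) (M.v b) := by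
  refine Summable.of_norm_bounded (M.sm.mul_right 4) fun b => ?_
  rw [norm_smul]
  calc ‖M.w q b * (M.v b : ℂ)‖ * ‖S (M.P b) (M.v b)‖ ≤ ‖M.w q b * (M.v b : ℂ)‖ * 1 :=
        mul_le_mul_of_nonneg_left (S_norm _ _) (norm_nonneg _)
    _ ≤ _ := by rw [mul_one]; exact xfe_wv hq b

/-- the drift -/
theorem xfe_zero {q : ℂ} (hq : ‖q‖ ≤ 2) : HasSum (fun b => M.w q b * (M.v b : ℂ)) 0 := by
  have hs : Summable fun b => M.w q b * (M.v b : ℂ) :=
    Summable.of_norm_bounded (M.sm.mul_right 4) fun b => xfe_wv hq b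
  have h1 := hs.hasSum
  have h2 := (M.σe.hasSum_iff).2 h1
  have h3 : (fun b => M.w q b * (M.v b : ℂ)) ∘ M.σe = fun b => -(M.w q b * (M.v b : ℂ)) := by
    funext b
    simp only [Function.comp, σe, Equiv.coe_fn_mk]
    rw [M.w_σ, M.vσ]
    push_cast
    ring
  rw [h3] at h2
  have h4 := h1.neg.unique h2
  have h5 : ∑' b, M.w q b * (M.v b : ℂ) = 0 := by
    have h6 : (2 : ℂ) * ∑' b, M.w q b * (M.v b : ℂ) = 0 := by linear_combination -h4
    rcases mul_eq_zero.1 h6 with h7 | h7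
    · exact absurd h7 two_ne_zero
    · exact h7
  rw [h5] at h1
  exact h1

/-- the first part of the commutator -/
theorem xfe_K1 {q : ℂ} (hq : ‖q‖ ≤ 2) (g : H) : ∃ K1 : H,
    (∀ d, HasSum (fun b => (M.w q b * (M.v b : ℂ)) * (if M.P b d then g (d - M.v b) else 0))
      (K1 d)) ∧ ∀ t : ℝ, 0 < t → ‖K1‖ ≤ t + 2 * M.A g / t := by
  have hs := xfe_opsum (M := M) hq
  have h1 := (ContinuousLinearMap.hasSum (ContinuousLinearMap.apply ℂ H g) hs.hasSum)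
  refine ⟨(∑' b, (M.w q b * (M.v b : ℂ)) • S (M.P b) (M.v b)) g, fun d => ?_, fun t ht => ?_⟩
  · exact ContinuousLinearMap.hasSum (ev d) h1
  · have h2 := h1.sub ((xfe_zero (M := M) hq).smul_const g)
    rw [zero_smul, sub_zero] at h2
    have h3 : HasSum (fun b => (M.w q b * (M.v b : ℂ)) • (S (M.P b) (M.v b) g - g))
        ((∑' b, (M.w q b * (M.v b : ℂ)) • S (M.P b) (M.v b)) g) := by
      have e : (fun b => (M.w q b * (M.v b : ℂ)) • (S (M.P b) (M.v b) g - g)) = fun b =>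
          (ContinuousLinearMap.apply ℂ H g) ((M.w q b * (M.v b : ℂ)) • S (M.P b) (M.v b)) -
            (M.w q b * (M.v b : ℂ)) • g := by
        funext b
        rw [smul_sub]
        rfl
      rw [e]
      exact h2
    have h4 := (M.sm.hasSum.mul_left (8 * t)).add ((M.A_hasSum g).mul_left (2 / t))
    have h5 := tsum_of_norm_bounded h4 (f := fun b => (M.w q b * (M.v b : ℂ)) •
      (S (M.P b) (M.v b) g - g)) (fun b => by
        rw [norm_smul]
        refine (xfe_am hq b ht (norm_nonneg _)).trans (add_le_add le_rfl ?_)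
        have h6 := xfe_S g (M.P b) (M.v b)
        have h7 := M.W_nonneg b
        have h8 := mul_le_mul_of_nonneg_left h6 h7
        rw [div_le_iff₀ ht]
        refine h8.trans (le_of_eq ?_)
        unfold W
        field_simp)
    rw [h3.tsum_eq] at h5
    refine h5.trans ?_
    have h6 := M.s1
    have h7 : 8 * t * ∑' b, M.c b * 16 ^ M.L b ≤ 8 * t * (1 / 10 ^ 6) :=
      mul_le_mul_of_nonneg_left h6 (by positivity)
    have h8 : 2 / t * M.A g = 2 * M.A g / t := by ring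
    rw [h8]
    have h9 : 8 * t * (1 / 10 ^ 6) ≤ t := by norm_num; linarith
    linarith

theorem xfe_zdiff {d v : ℤ} (hd : d ≠ 0) (h : v.natAbs ≤ d.natAbs) :
    ((d.natAbs : ℂ) - ((d - v).natAbs : ℂ) - sgn d * (v : ℂ)) = 0 := by
  unfold sgn
  split_ifs with h0
  · have e : (d.natAbs : ℤ) - (d - v).natAbs - v = 0 := by omega
    rw [one_mul, ← Int.cast_natCast (R := ℂ) d.natAbs, ← Int.cast_natCast (R := ℂ) (d - v).natAbs,
      ← Int.cast_sub, ← Int.cast_sub, e, Int.cast_zero]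
  · have e : (d.natAbs : ℤ) - (d - v).natAbs + v = 0 := by omega
    rw [neg_one_mul, sub_neg_eq_add, ← Int.cast_natCast (R := ℂ) d.natAbs,
      ← Int.cast_natCast (R := ℂ) (d - v).natAbs, ← Int.cast_sub, ← Int.cast_add, e, Int.cast_zero]

theorem xfe_zbd (d v : ℤ) :
    ‖((d.natAbs : ℂ) - ((d - v).natAbs : ℂ) - sgn d * (v : ℂ))‖ ≤ 2 * v.natAbs := by
  refine (norm_sub_le _ _).trans ?_
  have h1 : ‖(d.natAbs : ℂ) - ((d - v).natAbs : ℂ)‖ ≤ v.natAbs := by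
    have e : (d.natAbs : ℂ) - ((d - v).natAbs : ℂ) =
        -((((d - v).natAbs : ℝ) - d.natAbs : ℝ) : ℂ) := by push_cast; ring
    rw [e, norm_neg, Complex.norm_real]
    exact natAbs_diff d v
  have h2 : ‖sgn d * (v : ℂ)‖ ≤ v.natAbs := by
    have hsn : ‖sgn d‖ = 1 := by unfold sgn; split_ifs <;> simp
    rw [norm_mul, hsn, one_mul, Complex.norm_intCast, ← Int.cast_abs, Int.abs_eq_natAbs]
    exact le_of_eq rfl
  linarith

/-- the second part of the commutator, for one block -/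
theorem xfe_term {q : ℂ} (hq : ‖q‖ ≤ 2) {g : H} (hg0 : g 0 = 0) (hg : Wt g) (b : M.ι) (d : ℤ) :
    ‖(d.natAbs : ℂ) * (M.w q b * (if M.P b d then g (d - M.v b) else 0)) -
      M.w q b * (if M.P b d then xf g (d - M.v b) else 0) -
      sgn d * ((M.w q b * (M.v b : ℂ)) * (if M.P b d then g (d - M.v b) else 0))‖ ≤
      M.c b * 16 ^ M.L b * (48 * √(D g) * (1 / 2) ^ d.natAbs) := by
  have hc := M.c0 b
  have hD := Real.sqrt_nonneg (D g)
  split_ifs with hP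
  · rw [xf_apply hg]
    have e1 : (d.natAbs : ℂ) * (M.w q b * g (d - M.v b)) -
        M.w q b * (((d - M.v b).natAbs : ℂ) * g (d - M.v b)) -
        sgn d * ((M.w q b * (M.v b : ℂ)) * g (d - M.v b)) =
        M.w q b * (((d.natAbs : ℂ) - ((d - M.v b).natAbs : ℂ) - sgn d * (M.v b : ℂ)) *
          g (d - M.v b)) := by ring
    rw [e1]
    have hd0 : d ≠ 0 := (M.P0' hP).1
    rcases Nat.lt_or_ge d.natAbs (M.v b).natAbs with h | h
    · rw [norm_mul, norm_mul]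
      have h1 := w_norm' (M := M) hq b
      have h2 := xfe_zbd d (M.v b)
      have h3 := norm_le_sqrt hg0 (d - M.v b)
      have hvL := vn_le (M := M) b
      have hdv : (d - M.v b).natAbs + 1 ≤ 2 * M.L b + 1 := by omega
      have hdL : d.natAbs ≤ M.L b := by omega
      have h4 : ((d - M.v b).natAbs : ℝ) + 1 ≤ 2 * (M.L b : ℝ) + 1 := by exact_mod_cast hdv
      have h5 : ((M.v b).natAbs : ℝ) ≤ M.L b := by exact_mod_cast hvL
      have hL1 : (1 : ℝ) ≤ M.L b := by exact_mod_cast M.L1 b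
      have hL4 : (M.L b : ℝ) ^ 2 ≤ 4 ^ M.L b := by exact_mod_cast nat_sq4 (M.L b)
      have hh : (1 : ℝ) ≤ 2 ^ M.L b * (1 / 2) ^ d.natAbs := by
        have e2 : (1 : ℝ) = 2 ^ d.natAbs * (1 / 2) ^ d.natAbs := by rw [← mul_pow]; norm_num
        calc (1 : ℝ) = 2 ^ d.natAbs * (1 / 2) ^ d.natAbs := e2
          _ ≤ 2 ^ M.L b * (1 / 2) ^ d.natAbs := by
            gcongr
            norm_num
      calc ‖M.w q b‖ * (‖(d.natAbs : ℂ) - ((d - M.v b).natAbs : ℂ) - sgn d * (M.v b : ℂ)‖ *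
            ‖g (d - M.v b)‖) ≤ (4 * 2 ^ M.L b * M.c b) * ((2 * M.L b) *
              ((2 * (M.L b : ℝ) + 1) * √(D g))) := by
            gcongr
            · exact h2.trans (by linarith)
            · exact h3.trans (mul_le_mul_of_nonneg_right h4 hD)
        _ ≤ (4 * 2 ^ M.L b * M.c b) * (6 * 4 ^ M.L b * √(D g)) := by
            have : (2 * (M.L b : ℝ)) * (2 * (M.L b : ℝ) + 1) ≤ 6 * 4 ^ M.L b := by nlinarith
            have h6 : (2 * (M.L b : ℝ)) * ((2 * (M.L b : ℝ) + 1) * √(D g)) ≤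
                6 * 4 ^ M.L b * √(D g) := by
              calc _ = ((2 * (M.L b : ℝ)) * (2 * (M.L b : ℝ) + 1)) * √(D g) := by ring
                _ ≤ _ := mul_le_mul_of_nonneg_right this hD
            exact mul_le_mul_of_nonneg_left h6 (by positivity)
        _ ≤ (4 * 2 ^ M.L b * M.c b) * (6 * 4 ^ M.L b * √(D g)) *
            (2 ^ M.L b * (1 / 2) ^ d.natAbs) := le_mul_of_one_le_right (by positivity) hh
        _ = M.c b * ((2 * 2) ^ M.L b * 4 ^ M.L b) * (24 * √(D g) * (1 / 2) ^ d.natAbs) := by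
            rw [mul_pow]; ring
        _ = M.c b * 16 ^ M.L b * (24 * √(D g) * (1 / 2) ^ d.natAbs) := by
            rw [← mul_pow]; norm_num
        _ ≤ _ := by
            gcongr
            norm_num
    · rw [xfe_zdiff hd0 h, zero_mul, mul_zero, norm_zero]
      positivity
  · simp only [mul_zero, sub_zero, norm_zero]
    positivity

/-- the commutator -/
theorem xfe_com {q : ℂ} (hq : ‖q‖ ≤ 2) {g : H} (hg0 : g 0 = 0) (hg : Wt g) {k : H}
    (hk : ∀ d : ℤ, k d = (d.natAbs : ℂ) * M.N q g d - M.N q (xf g) d) {t : ℝ} (ht : 0 < t) :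
    ‖k‖ ≤ 2 * (t + 2 * M.A g / t) + 2 * (√(∑' d : ℤ, (1 / 2 : ℝ) ^ d.natAbs) * √(D g)) := by
  obtain ⟨K1, hK1, hK1n⟩ := xfe_K1 (M := M) hq g
  have hpt : ∀ d, ‖k d‖ ≤ ‖K1 d‖ + √(D g) * (1 / 2) ^ d.natAbs := by
    intro d
    have h1 := (((M.N_hasSum hq g d).mul_left (d.natAbs : ℂ)).sub (M.N_hasSum hq (xf g) d)).sub
      ((hK1 d).mul_left (sgn d))
    have h2 := tsum_of_norm_bounded (M.sm.hasSum.mul_right
      (48 * √(D g) * (1 / 2 : ℝ) ^ d.natAbs)) (fun b => xfe_term hq hg0 hg b d)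
    rw [h1.tsum_eq, ← hk d] at h2
    have h3 : ‖sgn d * K1 d‖ = ‖K1 d‖ := by
      have hsn : ‖sgn d‖ = 1 := by unfold sgn; split_ifs <;> simp
      rw [norm_mul, hsn, one_mul]
    have h4 : ‖k d‖ ≤ ‖sgn d * K1 d‖ + ‖k d - sgn d * K1 d‖ := by
      have := norm_add_le (sgn d * K1 d) (k d - sgn d * K1 d)
      rwa [add_sub_cancel] at this
    have h5 : (∑' b, M.c b * 16 ^ M.L b) * (48 * √(D g) * (1 / 2 : ℝ) ^ d.natAbs) ≤
        √(D g) * (1 / 2) ^ d.natAbs := by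
      have h6 := M.s1
      have h7 : 0 ≤ √(D g) * (1 / 2 : ℝ) ^ d.natAbs := by positivity
      calc _ ≤ 1 / 10 ^ 6 * (48 * √(D g) * (1 / 2 : ℝ) ^ d.natAbs) :=
            mul_le_mul_of_nonneg_right h6 (by positivity)
        _ = 48 / 10 ^ 6 * (√(D g) * (1 / 2 : ℝ) ^ d.natAbs) := by ring
        _ ≤ 1 * (√(D g) * (1 / 2 : ℝ) ^ d.natAbs) :=
            mul_le_mul_of_nonneg_right (by norm_num) h7
        _ = _ := one_mul _
    rw [h3] at h4
    linarith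
  set G : ℝ := ∑' d : ℤ, (1 / 2 : ℝ) ^ d.natAbs with hG
  have hGs := int_geom0 (r := 1 / 2) (by norm_num) (by norm_num)
  have hG0 : 0 ≤ G := tsum_nonneg fun d => by positivity
  have hD0 := D_nonneg g
  have hDs : √(D g) ^ 2 = D g := Real.sq_sqrt hD0
  have hGq : √G ^ 2 = G := Real.sq_sqrt hG0
  have h1 : ‖k‖ ^ 2 ≤ 2 * ‖K1‖ ^ 2 + 2 * D g * G := by
    rw [H.norm_sq k, H.norm_sq K1, hG, ← tsum_mul_left, ← tsum_mul_left,
      ← (K1.sum.mul_left 2).tsum_add (hGs.mul_left (2 * D g))]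
    refine k.sum.tsum_le_tsum (fun d => ?_) ((K1.sum.mul_left 2).add (hGs.mul_left (2 * D g)))
    have h2 := hpt d
    have h3 : ((1 / 2 : ℝ) ^ d.natAbs) ^ 2 ≤ (1 / 2) ^ d.natAbs := by
      have h4 : (1 / 2 : ℝ) ^ d.natAbs ≤ 1 := pow_le_one₀ (by norm_num) (by norm_num)
      have h5 : 0 ≤ (1 / 2 : ℝ) ^ d.natAbs := by positivity
      nlinarith
    calc ‖k d‖ ^ 2 ≤ (‖K1 d‖ + √(D g) * (1 / 2) ^ d.natAbs) ^ 2 :=
          pow_le_pow_left₀ (norm_nonneg _) h2 2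
      _ ≤ 2 * ‖K1 d‖ ^ 2 + 2 * (√(D g) ^ 2 * ((1 / 2) ^ d.natAbs) ^ 2) := by
          nlinarith [sq_nonneg (‖K1 d‖ - √(D g) * (1 / 2) ^ d.natAbs)]
      _ = 2 * ‖K1 d‖ ^ 2 + 2 * D g * ((1 / 2) ^ d.natAbs) ^ 2 := by rw [hDs]; ring
      _ ≤ _ := by gcongr
  have h2 := hK1n t ht
  have h3 : ‖k‖ ≤ 2 * ‖K1‖ + 2 * (√G * √(D g)) := by
    refine le_of_sq_le_sq ?_ (by positivity)
    refine h1.trans ?_
    have h4 : D g * G = (√G * √(D g)) ^ 2 := by rw [mul_pow, hGq, hDs]; ring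
    have h5 : 0 ≤ ‖K1‖ * (√G * √(D g)) := by positivity
    nlinarith [sq_nonneg (√G * √(D g)), sq_nonneg ‖K1‖]
  linarith

theorem gq_xf1 (M : Mdl) (C : Cap) : ∃ Z : ℝ, 0 ≤ Z ∧ ∀ q ∈ Loc M,
    ‖xf (gq M C q)‖ ≤ Z / ‖M.kap q‖ := by
  obtain ⟨Z, hZ0, hZ⟩ := gq_bd M C
  have hCE := CE_nonneg (M := M) (C := C)
  have hCU := CU_nonneg (M := M) (C := C)
  have hg2 := g2_nonneg
  have hgam := M.gam_pos
  obtain ⟨Z1, hZ1⟩ : ∃ Z1 : ℝ, Z1 = 8 * (CE M C * g2 * Z + 30 * CU M C * Z) := ⟨_, rfl⟩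
  have hZ10 : 0 ≤ Z1 := by rw [hZ1]; positivity
  obtain ⟨G, hG⟩ : ∃ G : ℝ, G = √(∑' d : ℤ, (1 / 2 : ℝ) ^ d.natAbs) := ⟨_, rfl⟩
  have hG0 : 0 ≤ G := by rw [hG]; exact Real.sqrt_nonneg _
  refine ⟨24 * M.gam * ((6 * CE M C + 160 * CU M C) + 2 * (1 + 2 * Z1) + 2 * (G * Z)),
    by positivity, fun q hq => ?_⟩
  obtain ⟨hZa, hZb⟩ := hZ q hq
  have hq2 : ‖q‖ ≤ 2 := hq.1.1.le
  set t := ‖M.kap q‖ with ht
  have ht0 : 0 < t := (rt hq).1
  set g := gq M C q with hgdef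
  have hg0 : g 0 = 0 := gq_zero hq
  have hgw : Wt g := gq_wt hq
  -- the energy
  have hA : M.A g ≤ Z1 * t ^ 2 := by
    have h1 := M.num_range hq.1 g
    rw [gq_eq hq] at h1
    have e1 : er M C q = (er M C q - er2 M C q) + er2 M C q := by abel
    rw [e1, inner_add_right] at h1
    have h2 : ‖inner ℂ g (er M C q - er2 M C q)‖ ≤ CE M C * t * g2 * √(D g) :=
      inner_le_of_bd2 hg0 (er1_bd hq)
    have h3 : ‖inner ℂ g (er2 M C q)‖ ≤ ‖g‖ * (30 * CU M C * t ^ 2) :=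
      (norm_inner_le_norm _ _).trans (mul_le_mul_of_nonneg_left (er2_norm hq) (norm_nonneg _))
    have h4 := norm_add_le (inner ℂ g (er M C q - er2 M C q)) (inner ℂ g (er2 M C q))
    have h5 : 0 ≤ ‖(M.qc : ℂ) - q‖ * ‖g‖ ^ 2 := by positivity
    have h6 : CE M C * t * g2 * √(D g) ≤ CE M C * t * g2 * (Z * t) := by gcongr
    have h7 : ‖g‖ * (30 * CU M C * t ^ 2) ≤ Z * (30 * CU M C * t ^ 2) := by gcongr
    rw [hZ1]
    nlinarith
  -- the weighted error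
  obtain ⟨hew, hen⟩ := xf_of (f := er M C q) (fun N => er_tr (C := C) hq N)
  set k : H := xf g - M.K q (xf g) - xf (er M C q) with hkdef
  have hk : ∀ d : ℤ, k d = (d.natAbs : ℂ) * M.N q g d - M.N q (xf g) d := by
    intro d
    have e1 : k d = xf g d - (q ^ 2 * xf g d + M.N q (xf g) d) - xf (er M C q) d := rfl
    have e2 : er M C q d = g d - (q ^ 2 * g d + M.N q g d) := by
      have := congrArg (fun f : H => f d) (gq_eq (C := C) hq)
      exact this.symm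
    rw [e1, xf_apply hgw, xf_apply hew, e2]
    ring
  have hkn := xfe_com hq2 hg0 hgw hk ht0
  rw [← hG] at hkn
  have h1 := res_bd hq.1 (xf g)
  have h2 : ‖xf g - M.K q (xf g)‖ ≤ ‖k‖ + ‖xf (er M C q)‖ := by
    have e : xf g - M.K q (xf g) = k + xf (er M C q) := by rw [hkdef]; abel
    rw [e]
    exact norm_add_le _ _
  have h3 := dist_ge hq.1
  have h4 := M.qc_ne hq.1
  have h5 : 2 * M.A g / t ≤ 2 * Z1 * t := by
    rw [div_le_iff₀ ht0]
    nlinarith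
  have h6 : G * √(D g) ≤ G * (Z * t) := mul_le_mul_of_nonneg_left hZa hG0
  have h7 : ‖xf g - M.K q (xf g)‖ ≤
      ((6 * CE M C + 160 * CU M C) + 2 * (1 + 2 * Z1) + 2 * (G * Z)) * t := by
    linarith
  calc ‖xf g‖ ≤ 8 * ‖xf g - M.K q (xf g)‖ / ‖(M.qc : ℂ) - q‖ := h1
    _ = 8 * ‖xf g - M.K q (xf g)‖ * (1 / ‖(M.qc : ℂ) - q‖) := by ring
    _ ≤ 8 * (((6 * CE M C + 160 * CU M C) + 2 * (1 + 2 * Z1) + 2 * (G * Z)) * t) *
        (3 * M.gam / t ^ 2) := by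
        refine mul_le_mul ?_ h3 (by positivity) (by positivity)
        linarith
    _ = _ := by
        field_simp
        ring

end Mdl

end KN.SQ

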