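import Pool.Agent.H132.SQ.X1
import Pool.Agent.H132.SQ.X6
set_option autoImplicit false
/-!
Task G: the area operator applied to the solution (modules Pool/Agent/H132/SQ/*, X1 = block operators with
multipliers is new on origin/main). t = ‖kap q‖ ≤ 1/100, κ = kap q, M.sol C q = vq + gq (gq := sol - vq, Ap3).
Sketch: Om X (sol) = Om X vq + Om X gq. By Mul.Om_lin and gq_xf1, gq_bd: ‖Om X gq‖ ≤ 10a(‖xf gq‖+‖gq‖) ≤ Z/t.
For vq pointwise (Mul.Om_val; xf vq d = |d| vq d; cq q = q² + Σ w_b ν_b (W6, cq_sub: ‖cq q - cA‖ ≤ 20‖q-qc‖ ≤ 20t²)):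
 (Om X vq)(d) - cq |d| vq(d) = q²(z(d)-|d|)vq(d) + Σ_b w_b [ (m_b(d) - ν_b|d|) 1_P vq(d-v_b)
                                + ν_b |d| (1_P vq(d-v_b) - vq(d)) ].
 |z(d)-|d||, |m_b(d)-ν_b|d||/4^L ≤ a(1+|d|²/N) ≤ a(1+t²|d|²), |vq(d)| ≤ CU e^{-t|d|/2} (vq_bd), |vq(d-v)| ≤ CU 2^L e^{-t|d|/2},
 |1_P vq(d-v) - vq(d)| ≤ c1 (1/2)^|d| + c2 e^{-t|d|/2}, c1 = CU(2^L+1), c2 = CU L 2^L t (this is `hpt` inside the proof
 of S_vq in W5; copy it), ν_b ≤ 2^L. With t|d| ≤ 8e^{t|d|/8}, t²|d|² ≤ 64 e^{t|d|/4}, |d|(1/2)^|d| ≤ 2(3/4)^|d| (lin_pow) everything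
 is ≤ C e^{-t|d|/4} times c_b 16^L·const, so (norm_sq_le, geom_exp with t/2) the norm is ≤ C'/√t ≤ C''/t.
 ‖(cq - cA) xf vq‖ ≤ 20 t² · 16CU/(t√t) (vq_xf).
-/
namespace KN.SQ
open Finset Filter Topology
open scoped Classical ENNReal ComplexConjugate
noncomputable section
namespace Mul
variable {M : Mdl}
/-- the multipliers approximate `nu b |d|` up to the height `N` -/
def App (X : Mul M) (A : Ker M) (N : ℕ) (a : ℝ) : Prop := 0 ≤ a ∧
  (∀ b d, M.P b d → |X.m b d - A.nu b * d.natAbs| ≤ a * 4 ^ M.L b * (1 + (d.natAbs : ℝ) ^ 2 / N)) ∧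
  (∀ b d, ¬ M.P b d → X.m b d = 0) ∧
  (∀ d, |X.z d - d.natAbs| ≤ a * (1 + (d.natAbs : ℝ) ^ 2 / N))

/-- elementary bounds of exponentials: `s = e^{-t/4}` dominates everything -/
theorem exp_dom {t : ℝ} (h0 : 0 < t) (h1 : t ≤ 1 / 100) (n : ℕ) :
    Real.exp (-(t / 2)) ^ n ≤ Real.exp (-(t / 2 / 2)) ^ n ∧
    (t * n) * Real.exp (-(t / 2)) ^ n ≤ 8 * Real.exp (-(t / 2 / 2)) ^ n ∧
    (t ^ 2 * (n : ℝ) ^ 2) * Real.exp (-(t / 2)) ^ n ≤ 64 * Real.exp (-(t / 2 / 2)) ^ n ∧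
    (n : ℝ) * (1 / 2) ^ n ≤ 2 * Real.exp (-(t / 2 / 2)) ^ n := by
  have hn : (0 : ℝ) ≤ n := Nat.cast_nonneg _
  have htn : 0 ≤ t * n := by positivity
  have e1 : Real.exp (-(t / 2)) ^ n = Real.exp (-(t * n / 2)) := by
    rw [← Real.exp_nat_mul]; congr 1; ring
  have e2 : Real.exp (-(t / 2 / 2)) ^ n = Real.exp (-(t * n / 4)) := by
    rw [← Real.exp_nat_mul]; congr 1; ring
  rw [e1, e2]
  have h8 : t * n / 8 ≤ Real.exp (t * n / 8) := by
    have := Real.add_one_le_exp (t * n / 8); linarith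
  have hle : Real.exp (-(t * n / 2)) ≤ Real.exp (-(t * n / 4)) := Real.exp_le_exp.2 (by linarith)
  have p8 : Real.exp (t * n / 8) * Real.exp (-(t * n / 2)) ≤ Real.exp (-(t * n / 4)) := by
    rw [← Real.exp_add]; exact Real.exp_le_exp.2 (by linarith)
  have p4 : Real.exp (t * n / 8) ^ 2 * Real.exp (-(t * n / 2)) = Real.exp (-(t * n / 4)) := by
    rw [← Real.exp_nat_mul, ← Real.exp_add]; congr 1; push_cast; ring
  have hpos := Real.exp_pos (-(t * n / 2))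
  refine ⟨hle, ?_, ?_, ?_⟩
  · have h2 : t * n * Real.exp (-(t * n / 2)) ≤
        (8 * Real.exp (t * n / 8)) * Real.exp (-(t * n / 2)) :=
      mul_le_mul_of_nonneg_right (by linarith) hpos.le
    linarith
  · have h3 : (t * n) ^ 2 ≤ (8 * Real.exp (t * n / 8)) ^ 2 :=
      pow_le_pow_left₀ htn (by linarith) 2
    have h2 : t ^ 2 * (n : ℝ) ^ 2 * Real.exp (-(t * n / 2)) ≤
        (8 * Real.exp (t * n / 8)) ^ 2 * Real.exp (-(t * n / 2)) :=
      mul_le_mul_of_nonneg_right (by linarith [mul_pow t (n : ℝ) 2]) hpos.le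
    have e3 : (8 * Real.exp (t * n / 8)) ^ 2 * Real.exp (-(t * n / 2)) =
        64 * (Real.exp (t * n / 8) ^ 2 * Real.exp (-(t * n / 2))) := by ring
    rw [e3, p4] at h2
    exact h2
  · rw [← e2]
    have h3 : (n : ℝ) * (1 / 2) ^ n ≤ 2 * (3 / 4) ^ n := by
      have h := lin_pow n
      have e : (3 / 4 : ℝ) ^ n = (3 / 2) ^ n * (1 / 2) ^ n := by rw [← mul_pow]; norm_num
      rw [e, ← mul_assoc]
      exact mul_le_mul_of_nonneg_right h (by positivity)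
    have h4 : (3 / 4 : ℝ) ≤ Real.exp (-(t / 2 / 2)) := by
      have := Real.add_one_le_exp (-(t / 2 / 2)); linarith
    have h5 : (3 / 4 : ℝ) ^ n ≤ Real.exp (-(t / 2 / 2)) ^ n :=
      pow_le_pow_left₀ (by norm_num) h4 n
    linarith

/-- a shift of the approximate solution, pointwise -/
theorem vq_pt {C : Cap} {q : ℂ} (hq : q ∈ Mdl.Loc M) (b : M.ι) (d : ℤ) :
    ‖(if M.P b d then Mdl.vq M C q (d - M.v b) else 0) - Mdl.vq M C q d‖ ≤
      Mdl.CU M C * (2 ^ M.L b + 1) * (1 / 2) ^ d.natAbs +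
      Mdl.CU M C * (M.L b * 2 ^ M.L b) * ‖M.kap q‖ *
        Real.exp (-(‖M.kap q‖ / 2)) ^ d.natAbs := by
  have hCU := Mdl.CU_nonneg (M := M) (C := C)
  set t := ‖M.kap q‖ with ht
  have ht0 : 0 < t := (Mdl.rt hq).1
  have ht1 : t ≤ 1 / 100 := hq.2
  set pu : ℝ := (if M.P b d then Mdl.u M C (d - M.v b) else 0) with hpu
  have e1 : (if M.P b d then Mdl.vq M C q (d - M.v b) else 0) =
      (pu : ℂ) * E (M.kap q) (d - M.v b) := by
    rw [hpu]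
    split_ifs
    · rw [Mdl.vq_apply hq]
    · simp
  rw [e1, Mdl.vq_apply hq]
  have e2 : (pu : ℂ) * E (M.kap q) (d - M.v b) - (Mdl.u M C d : ℂ) * E (M.kap q) d =
      ((pu - Mdl.ui M C d : ℝ) : ℂ) * E (M.kap q) (d - M.v b) +
      (Mdl.ui M C d : ℂ) * (E (M.kap q) (d - M.v b) - E (M.kap q) d) -
      ((Mdl.u M C d - Mdl.ui M C d : ℝ) : ℂ) * E (M.kap q) d := by push_cast; ring
  rw [e2]
  have hE1 : ‖E (M.kap q) (d - M.v b)‖ ≤ 1 := E_norm_le_one (M.kap_re_nonneg q) _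
  have hE2 : ‖E (M.kap q) d‖ ≤ 1 := E_norm_le_one (M.kap_re_nonneg q) _
  have hE4 := E_norm_le (Mdl.kap_re hq.1) d
  have hE3 : ‖E (M.kap q) (d - M.v b) - E (M.kap q) d‖ ≤
      Real.exp (-(t / 2)) ^ d.natAbs * (t * M.L b * 2 ^ M.L b) := by
    have h1 : |(((d - M.v b).natAbs : ℝ) - d.natAbs)| ≤ (M.L b : ℕ) :=
      (natAbs_diff d (M.v b)).trans (by exact_mod_cast Mdl.vn_le b)
    refine (E_sub (κ := M.kap q) h1).trans ?_
    have hκ := exp_small hq.2 (M.L b)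
    rw [← ht] at hκ hE4 ⊢
    exact mul_le_mul hE4 (mul_le_mul_of_nonneg_left hκ (by positivity)) (by positivity)
      (by positivity)
  have h1 := Mdl.pu_ui (M := M) (C := C) b d
  rw [← hpu] at h1
  have hh : (0 : ℝ) ≤ (1 / 2) ^ d.natAbs := by positivity
  have h2 : |Mdl.u M C d - Mdl.ui M C d| ≤ Mdl.CU M C * (1 / 2) ^ d.natAbs :=
    (Mdl.ui_spec d).trans (mul_le_mul_of_nonneg_right Mdl.CG_le hh)
  refine (norm_sub_le _ _).trans ?_
  have h3 := norm_add_le (((pu - Mdl.ui M C d : ℝ) : ℂ) * E (M.kap q) (d - M.v b))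
    ((Mdl.ui M C d : ℂ) * (E (M.kap q) (d - M.v b) - E (M.kap q) d))
  have b1 : ‖((pu - Mdl.ui M C d : ℝ) : ℂ) * E (M.kap q) (d - M.v b)‖ ≤
      Mdl.CU M C * (2 ^ M.L b * (1 / 2) ^ d.natAbs) := by
    rw [norm_mul, Complex.norm_real, Real.norm_eq_abs]
    calc _ ≤ (Mdl.CU M C * (2 ^ M.L b * (1 / 2) ^ d.natAbs)) * 1 :=
          mul_le_mul h1 hE1 (norm_nonneg _) (by positivity)
      _ = _ := mul_one _
  have b2 : ‖(Mdl.ui M C d : ℂ) * (E (M.kap q) (d - M.v b) - E (M.kap q) d)‖ ≤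
      Mdl.CU M C * (Real.exp (-(t / 2)) ^ d.natAbs * (t * M.L b * 2 ^ M.L b)) := by
    rw [norm_mul, Complex.norm_real, Real.norm_eq_abs, abs_of_nonneg (Mdl.ui_nonneg _)]
    exact mul_le_mul (Mdl.ui_le d) hE3 (norm_nonneg _) hCU
  have b3 : ‖((Mdl.u M C d - Mdl.ui M C d : ℝ) : ℂ) * E (M.kap q) d‖ ≤
      Mdl.CU M C * (1 / 2) ^ d.natAbs := by
    rw [norm_mul, Complex.norm_real, Real.norm_eq_abs]
    calc _ ≤ (Mdl.CU M C * (1 / 2) ^ d.natAbs) * 1 :=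
          mul_le_mul h2 hE2 (norm_nonneg _) (by positivity)
      _ = _ := mul_one _
  have e3 : Mdl.CU M C * (2 ^ M.L b + 1) * (1 / 2) ^ d.natAbs +
      Mdl.CU M C * (M.L b * 2 ^ M.L b) * t * Real.exp (-(t / 2)) ^ d.natAbs =
      Mdl.CU M C * (2 ^ M.L b * (1 / 2) ^ d.natAbs) +
      Mdl.CU M C * (Real.exp (-(t / 2)) ^ d.natAbs * (t * M.L b * 2 ^ M.L b)) +
      Mdl.CU M C * (1 / 2) ^ d.natAbs := by ring
  rw [e3]
  linarith

/-- a shifted value of the approximate solution -/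
theorem vq_shift {C : Cap} {q : ℂ} (hq : q ∈ Mdl.Loc M) (b : M.ι) (d : ℤ) :
    ‖Mdl.vq M C q (d - M.v b)‖ ≤
      Mdl.CU M C * 2 ^ M.L b * Real.exp (-(‖M.kap q‖ / 2)) ^ d.natAbs := by
  have hCU := Mdl.CU_nonneg (M := M) (C := C)
  refine (Mdl.vq_bd hq _).trans ?_
  set t := ‖M.kap q‖ with ht
  have ht0 : 0 < t := (Mdl.rt hq).1
  have ht1 : t ≤ 1 / 100 := hq.2
  rw [mul_assoc]
  refine mul_le_mul_of_nonneg_left ?_ hCU
  have h1 : |(((d - M.v b).natAbs : ℝ) - d.natAbs)| ≤ (M.L b : ℕ) :=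
    (natAbs_diff d (M.v b)).trans (by exact_mod_cast Mdl.vn_le b)
  have h2 := (abs_le.1 h1).1
  have hκ := exp_small ht1 (M.L b)
  have hL0 : (0 : ℝ) ≤ M.L b := Nat.cast_nonneg _
  rw [← Real.exp_nat_mul, ← Real.exp_nat_mul]
  calc Real.exp (((d - M.v b).natAbs : ℝ) * -(t / 2)) ≤
        Real.exp (t * M.L b + (d.natAbs : ℝ) * -(t / 2)) := by
        refine Real.exp_le_exp.2 ?_
        nlinarith
    _ = Real.exp (t * M.L b) * Real.exp ((d.natAbs : ℝ) * -(t / 2)) := Real.exp_add _ _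
    _ ≤ _ := mul_le_mul_of_nonneg_right hκ (Real.exp_pos _).le

/-- the multiplier bound absorbed by the exponential -/
theorem quad_dom {a t : ℝ} {N : ℕ} (ha : 0 ≤ a) (h0 : 0 < t) (h1 : t ≤ 1 / 100)
    (hN : 1 / t ^ 2 ≤ N) (n : ℕ) :
    a * (1 + (n : ℝ) ^ 2 / N) * Real.exp (-(t / 2)) ^ n ≤
      65 * a * Real.exp (-(t / 2 / 2)) ^ n := by
  obtain ⟨g1, -, g3, -⟩ := exp_dom h0 h1 n
  have hN0 : (0 : ℝ) < N := lt_of_lt_of_le (by positivity) hN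
  have h2 : (n : ℝ) ^ 2 / N ≤ t ^ 2 * (n : ℝ) ^ 2 := by
    rw [div_le_iff₀ hN0]
    have h3 : 1 ≤ t ^ 2 * N := by
      rw [div_le_iff₀ (by positivity)] at hN
      linarith
    nlinarith [sq_nonneg (n : ℝ)]
  have hr : 0 ≤ Real.exp (-(t / 2)) ^ n := pow_nonneg (Real.exp_pos _).le _
  calc a * (1 + (n : ℝ) ^ 2 / N) * Real.exp (-(t / 2)) ^ n ≤
        a * (1 + t ^ 2 * (n : ℝ) ^ 2) * Real.exp (-(t / 2)) ^ n :=
        mul_le_mul_of_nonneg_right (mul_le_mul_of_nonneg_left (by linarith) ha) hr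
    _ = a * (Real.exp (-(t / 2)) ^ n + (t ^ 2 * (n : ℝ) ^ 2) * Real.exp (-(t / 2)) ^ n) := by ring
    _ ≤ a * (Real.exp (-(t / 2 / 2)) ^ n + 64 * Real.exp (-(t / 2 / 2)) ^ n) :=
        mul_le_mul_of_nonneg_left (by linarith) ha
    _ = _ := by ring

/-- one block -/
theorem blk {C : Cap} (A : Ker M) {X : Mul M} {N : ℕ} {a : ℝ} (hA : App X A N a) {q : ℂ}
    (hq : q ∈ Mdl.Loc M) (hN : 1 / ‖M.kap q‖ ^ 2 ≤ N) (b : M.ι) (d : ℤ) :
    ‖M.w q b * ((X.m b d : ℂ) * Mdl.vq M C q (d - M.v b)) -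
      M.w q b * (A.nu b : ℂ) * ((d.natAbs : ℂ) * Mdl.vq M C q d)‖ ≤
      M.c b * 16 ^ M.L b * ((260 * a * Mdl.CU M C + 40 * Mdl.CU M C) *
        Real.exp (-(‖M.kap q‖ / 2 / 2)) ^ d.natAbs) := by
  have hCU := Mdl.CU_nonneg (M := M) (C := C)
  obtain ⟨ha, hm, hm0, -⟩ := hA
  have hw := Mdl.w_norm' (M := M) hq.1.1.le b
  have hc := M.c0 b
  have hpt := vq_pt (C := C) hq b d
  have hsh := vq_shift (C := C) hq b d
  set t := ‖M.kap q‖ with ht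
  have ht0 : 0 < t := (Mdl.rt hq).1
  have ht1 : t ≤ 1 / 100 := hq.2
  set r := Real.exp (-(t / 2)) ^ d.natAbs with hr
  set s := Real.exp (-(t / 2 / 2)) ^ d.natAbs with hs
  have hr0 : 0 ≤ r := pow_nonneg (Real.exp_pos _).le _
  have hs0 : 0 ≤ s := pow_nonneg (Real.exp_pos _).le _
  obtain ⟨g1, g2', g3, g4⟩ := exp_dom ht0 ht1 d.natAbs
  rw [← hr, ← hs] at g1 g2' g3
  rw [← hs] at g4
  have hnu0 := A.nu0 b
  have hnuL := A.nuL b
  have hL := M.L1 b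
  have hn0 : (0 : ℝ) ≤ d.natAbs := Nat.cast_nonneg _
  have p24 : (2 : ℝ) ^ M.L b + 1 ≤ 4 ^ M.L b := by
    have h1 : (2 : ℝ) ≤ 2 ^ M.L b := by
      calc (2 : ℝ) = 2 ^ 1 := by norm_num
        _ ≤ _ := pow_le_pow_right₀ (by norm_num) hL
    have h2 : (4 : ℝ) ^ M.L b = 2 ^ M.L b * 2 ^ M.L b := by rw [← mul_pow]; norm_num
    rw [h2]; nlinarith
  have pL : (M.L b : ℝ) * 2 ^ M.L b ≤ 4 ^ M.L b := by
    have h1 : (M.L b : ℝ) ≤ 2 ^ M.L b := by exact_mod_cast (Nat.lt_two_pow_self).le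
    have h2 : (4 : ℝ) ^ M.L b = 2 ^ M.L b * 2 ^ M.L b := by rw [← mul_pow]; norm_num
    rw [h2]; exact mul_le_mul_of_nonneg_right h1 (by positivity)
  -- the decomposition
  set V : ℂ := if M.P b d then Mdl.vq M C q (d - M.v b) else 0 with hV
  have e1 : (X.m b d : ℂ) * Mdl.vq M C q (d - M.v b) =
      ((X.m b d - A.nu b * d.natAbs : ℝ) : ℂ) * V + (A.nu b : ℂ) * ((d.natAbs : ℂ) * V) := by
    rw [hV]
    split_ifs with h
    · push_cast; ring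
    · rw [hm0 b d h]; simp
  have e2 : M.w q b * ((X.m b d : ℂ) * Mdl.vq M C q (d - M.v b)) -
      M.w q b * (A.nu b : ℂ) * ((d.natAbs : ℂ) * Mdl.vq M C q d) =
      M.w q b * (((X.m b d - A.nu b * d.natAbs : ℝ) : ℂ) * V +
        (A.nu b : ℂ) * ((d.natAbs : ℂ) * (V - Mdl.vq M C q d))) := by
    rw [e1]; ring
  rw [e2, norm_mul]
  have f1 : ‖((X.m b d - A.nu b * d.natAbs : ℝ) : ℂ) * V‖ ≤
      4 ^ M.L b * 2 ^ M.L b * (65 * a * Mdl.CU M C * s) := by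
    rw [norm_mul, Complex.norm_real, Real.norm_eq_abs, hV]
    split_ifs with h
    · have hq1 := quad_dom (N := N) ha ht0 ht1 hN d.natAbs
      rw [← hr, ← hs] at hq1
      calc |X.m b d - A.nu b * d.natAbs| * ‖Mdl.vq M C q (d - M.v b)‖ ≤
            (a * 4 ^ M.L b * (1 + (d.natAbs : ℝ) ^ 2 / N)) * (Mdl.CU M C * 2 ^ M.L b * r) :=
            mul_le_mul (hm b d h) hsh (norm_nonneg _) (by positivity)
        _ = 4 ^ M.L b * 2 ^ M.L b * Mdl.CU M C * (a * (1 + (d.natAbs : ℝ) ^ 2 / N) * r) := by ring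
        _ ≤ 4 ^ M.L b * 2 ^ M.L b * Mdl.CU M C * (65 * a * s) :=
            mul_le_mul_of_nonneg_left hq1 (by positivity)
        _ = _ := by ring
    · rw [norm_zero, mul_zero]; positivity
  have f2 : ‖(A.nu b : ℂ) * ((d.natAbs : ℂ) * (V - Mdl.vq M C q d))‖ ≤
      4 ^ M.L b * 2 ^ M.L b * (10 * Mdl.CU M C * s) := by
    rw [norm_mul, norm_mul, Complex.norm_real, Real.norm_eq_abs, abs_of_nonneg hnu0,
      Complex.norm_natCast]
    have k1 : (d.natAbs : ℝ) * ‖V - Mdl.vq M C q d‖ ≤ 4 ^ M.L b * (10 * Mdl.CU M C * s) := by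
      calc (d.natAbs : ℝ) * ‖V - Mdl.vq M C q d‖ ≤ (d.natAbs : ℝ) *
            (Mdl.CU M C * (2 ^ M.L b + 1) * (1 / 2) ^ d.natAbs +
              Mdl.CU M C * (M.L b * 2 ^ M.L b) * t * r) := mul_le_mul_of_nonneg_left hpt hn0
        _ = Mdl.CU M C * (2 ^ M.L b + 1) * ((d.natAbs : ℝ) * (1 / 2) ^ d.natAbs) +
              Mdl.CU M C * (M.L b * 2 ^ M.L b) * (t * d.natAbs * r) := by ring
        _ ≤ Mdl.CU M C * 4 ^ M.L b * (2 * s) + Mdl.CU M C * 4 ^ M.L b * (8 * s) := by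
            refine add_le_add ?_ ?_
            · exact mul_le_mul (mul_le_mul_of_nonneg_left p24 hCU) g4 (by positivity)
                (by positivity)
            · exact mul_le_mul (mul_le_mul_of_nonneg_left pL hCU) g2' (by positivity)
                (by positivity)
        _ = _ := by ring
    calc A.nu b * ((d.natAbs : ℝ) * ‖V - Mdl.vq M C q d‖) ≤
          2 ^ M.L b * (4 ^ M.L b * (10 * Mdl.CU M C * s)) :=
          mul_le_mul hnuL k1 (by positivity) (by positivity)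
      _ = _ := by ring
  have p16 : (2 : ℝ) ^ M.L b * (4 ^ M.L b * 2 ^ M.L b) = 16 ^ M.L b := by
    rw [← mul_pow, ← mul_pow]; norm_num
  calc ‖M.w q b‖ * ‖((X.m b d - A.nu b * d.natAbs : ℝ) : ℂ) * V +
        (A.nu b : ℂ) * ((d.natAbs : ℂ) * (V - Mdl.vq M C q d))‖ ≤
        (4 * 2 ^ M.L b * M.c b) * (4 ^ M.L b * 2 ^ M.L b * (65 * a * Mdl.CU M C * s) +
          4 ^ M.L b * 2 ^ M.L b * (10 * Mdl.CU M C * s)) := by
        refine mul_le_mul hw ((norm_add_le _ _).trans (add_le_add f1 f2)) (norm_nonneg _)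
          (by positivity)
    _ = M.c b * (2 ^ M.L b * (4 ^ M.L b * 2 ^ M.L b)) *
        ((260 * a * Mdl.CU M C + 40 * Mdl.CU M C) * s) := by ring
    _ = _ := by rw [p16]

/-- the error of the main part, pointwise -/
theorem Om_pt {C : Cap} (A : Ker M) {X : Mul M} {N : ℕ} {a : ℝ} (hA : App X A N a) {q : ℂ}
    (hq : q ∈ Mdl.Loc M) (hN : 1 / ‖M.kap q‖ ^ 2 ≤ N) (d : ℤ) :
    ‖(X.Om q (Mdl.vq M C q) - A.cq q • xf (Mdl.vq M C q)) d‖ ≤
      (520 * a * Mdl.CU M C + 40 * Mdl.CU M C) *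
        Real.exp (-(‖M.kap q‖ / 2 / 2)) ^ d.natAbs := by
  have hCU := Mdl.CU_nonneg (M := M) (C := C)
  have hq2 : ‖q‖ ≤ 2 := hq.1.1.le
  have hA' := hA
  obtain ⟨ha, -, -, hz⟩ := hA'
  have ht0 : 0 < ‖M.kap q‖ := (Mdl.rt hq).1
  have ht1 : ‖M.kap q‖ ≤ 1 / 100 := hq.2
  have e0 : (X.Om q (Mdl.vq M C q) - A.cq q • xf (Mdl.vq M C q)) d =
      X.Om q (Mdl.vq M C q) d - A.cq q * ((d.natAbs : ℂ) * Mdl.vq M C q d) := by
    rw [← xf_apply (Mdl.vq_wt hq)]; rfl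
  rw [e0]
  have H1 := X.Om_val hq2 (Mdl.vq M C q) d
  have hs : Summable fun b => M.w q b * (A.nu b : ℂ) :=
    Summable.of_norm_bounded (M.sm.mul_right _) (A.T1_coef hq2)
  have H2 := hs.hasSum.mul_right ((d.natAbs : ℂ) * Mdl.vq M C q d)
  have H3 := H1.sub H2
  have H4 := tsum_of_norm_bounded (M.sm.hasSum.mul_right
    ((260 * a * Mdl.CU M C + 40 * Mdl.CU M C) *
        Real.exp (-(‖M.kap q‖ / 2 / 2)) ^ d.natAbs)) (fun b => blk (C := C) A hA hq hN b d)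
  rw [H3.tsum_eq] at H4
  have e1 : X.Om q (Mdl.vq M C q) d - A.cq q * ((d.natAbs : ℂ) * Mdl.vq M C q d) =
      q ^ 2 * (((X.z d - d.natAbs : ℝ) : ℂ) * Mdl.vq M C q d) +
      (X.Om q (Mdl.vq M C q) d - q ^ 2 * ((X.z d : ℂ) * Mdl.vq M C q d) -
        (∑' b, M.w q b * (A.nu b : ℂ)) * ((d.natAbs : ℂ) * Mdl.vq M C q d)) := by
    unfold Ker.cq
    push_cast
    ring
  rw [e1]
  refine (norm_add_le _ _).trans ?_
  set t := ‖M.kap q‖ with ht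
  set s := Real.exp (-(t / 2 / 2)) ^ d.natAbs with hs'
  have hs0 : 0 ≤ s := pow_nonneg (Real.exp_pos _).le _
  have f1 : ‖q ^ 2 * (((X.z d - d.natAbs : ℝ) : ℂ) * Mdl.vq M C q d)‖ ≤
      4 * (65 * a * Mdl.CU M C * s) := by
    rw [norm_mul, norm_pow, norm_mul, Complex.norm_real, Real.norm_eq_abs]
    have h8 : ‖q‖ ^ 2 ≤ 4 := by nlinarith [norm_nonneg q]
    refine mul_le_mul h8 ?_ (by positivity) (by norm_num)
    have hq1 := quad_dom (N := N) ha ht0 ht1 hN d.natAbs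
    rw [← hs'] at hq1
    have hv := Mdl.vq_bd (C := C) hq d
    rw [← ht] at hv
    calc |X.z d - d.natAbs| * ‖Mdl.vq M C q d‖ ≤
          (a * (1 + (d.natAbs : ℝ) ^ 2 / N)) * (Mdl.CU M C * Real.exp (-(t / 2)) ^ d.natAbs) :=
          mul_le_mul (hz d) hv (norm_nonneg _) (by positivity)
      _ = Mdl.CU M C * (a * (1 + (d.natAbs : ℝ) ^ 2 / N) * Real.exp (-(t / 2)) ^ d.natAbs) := by
          ring
      _ ≤ Mdl.CU M C * (65 * a * s) := mul_le_mul_of_nonneg_left hq1 hCU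
      _ = _ := by ring
  have h7 := M.s1
  have hK : 0 ≤ (260 * a * Mdl.CU M C + 40 * Mdl.CU M C) * s := by positivity
  have h8 : (∑' b, M.c b * 16 ^ M.L b) * ((260 * a * Mdl.CU M C + 40 * Mdl.CU M C) * s) ≤
      1 * ((260 * a * Mdl.CU M C + 40 * Mdl.CU M C) * s) := by
    refine mul_le_mul_of_nonneg_right (h7.trans ?_) hK
    norm_num
  have h9 := H4.trans h8
  calc _ ≤ 4 * (65 * a * Mdl.CU M C * s) +
        1 * ((260 * a * Mdl.CU M C + 40 * Mdl.CU M C) * s) := add_le_add f1 h9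
    _ = _ := by ring

theorem Om_sol (A : Ker M) (C : Cap) (a : ℝ) : ∃ Z : ℝ, 0 ≤ Z ∧ ∀ (X : Mul M) (N : ℕ),
    X.Lin a → App X A N a → ∀ q ∈ Mdl.Loc M, 1 / ‖M.kap q‖ ^ 2 ≤ N →
    ‖X.Om q (M.sol C q) - (A.cA : ℂ) • xf (Mdl.vq M C q)‖ ≤ Z / ‖M.kap q‖ := by
  obtain ⟨Z1, hZ1, h1⟩ := Mdl.gq_xf1 M C
  obtain ⟨Z2, hZ2, h2⟩ := Mdl.gq_bd M C
  have hCU := Mdl.CU_nonneg (M := M) (C := C)
  set K : ℝ := 520 * |a| * Mdl.CU M C + 40 * Mdl.CU M C with hK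
  have hK0 : 0 ≤ K := by positivity
  refine ⟨10 * |a| * (Z1 + Z2) + 4 * K + 320 * Mdl.CU M C, by positivity, ?_⟩
  intro X N hL hA q hq hN
  have ha : 0 ≤ a := hL.1
  have haa : |a| = a := abs_of_nonneg ha
  rw [haa] at hK ⊢
  have hq2 : ‖q‖ ≤ 2 := hq.1.1.le
  have ht0 : 0 < ‖M.kap q‖ := (Mdl.rt hq).1
  have ht1 : ‖M.kap q‖ ≤ 1 / 100 := hq.2
  have g1 := X.Om_lin hL hq2 (Mdl.gq_wt (C := C) hq)
  have g2' := h1 q hq
  have g3 := (h2 q hq).2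
  have g4 := A.cq_sub hq2
  have g5 := Mdl.sub_le_kap hq.1
  have g6 := Mdl.vq_xf (C := C) hq
  have e : X.Om q (M.sol C q) - (A.cA : ℂ) • xf (Mdl.vq M C q) =
      X.Om q (Mdl.gq M C q) + (X.Om q (Mdl.vq M C q) - A.cq q • xf (Mdl.vq M C q)) +
      (A.cq q - A.cA) • xf (Mdl.vq M C q) := by
    unfold Mdl.gq
    rw [map_sub, sub_smul]
    abel
  -- the main part
  have k1 : ‖X.Om q (Mdl.vq M C q) - A.cq q • xf (Mdl.vq M C q)‖ ≤ 4 * K / ‖M.kap q‖ := by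
    have hpt := Om_pt (C := C) A hA hq hN
    rw [← hK] at hpt
    set t := ‖M.kap q‖ with ht
    have n1 := norm_sq_le (f := X.Om q (Mdl.vq M C q) - A.cq q • xf (Mdl.vq M C q))
      (X := K) (r := Real.exp (-(t / 2 / 2))) (Real.exp_pos _).le
      (Real.exp_lt_one_iff.2 (by linarith)) hpt
    have n2 := geom_exp (t := t / 2) (by linarith) (by linarith)
    refine le_of_sq_le_sq ?_ (by positivity)
    refine n1.trans ((mul_le_mul_of_nonneg_left n2 (sq_nonneg _)).trans ?_)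
    have e3 : (4 * K / t) ^ 2 = K ^ 2 * (16 / t) * (1 / t) := by
      field_simp
      ring
    have e4 : K ^ 2 * (8 / (t / 2)) = K ^ 2 * (16 / t) * 1 := by
      field_simp
      ring
    rw [e3, e4]
    refine mul_le_mul_of_nonneg_left ?_ (by positivity)
    rw [le_div_iff₀ ht0]; linarith
  set t := ‖M.kap q‖ with ht
  have k2 : ‖X.Om q (Mdl.gq M C q)‖ ≤ 10 * a * (Z1 + Z2) / t := by
    have h5 : Z2 ≤ Z2 / t := by
      rw [le_div_iff₀ ht0]; nlinarith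
    have h6 : ‖xf (Mdl.gq M C q)‖ + ‖Mdl.gq M C q‖ ≤ (Z1 + Z2) / t := by
      rw [add_div]; linarith
    calc _ ≤ _ := g1
      _ ≤ 10 * a * ((Z1 + Z2) / t) := mul_le_mul_of_nonneg_left h6 (by positivity)
      _ = _ := by ring
  have k3 : ‖(A.cq q - A.cA) • xf (Mdl.vq M C q)‖ ≤ 320 * Mdl.CU M C / t := by
    rw [norm_smul]
    have hs0 : 0 < √t := Real.sqrt_pos.2 ht0
    have h5 : ‖A.cq q - A.cA‖ ≤ 20 * t ^ 2 := g4.trans (by linarith)
    calc ‖A.cq q - A.cA‖ * ‖xf (Mdl.vq M C q)‖ ≤ (20 * t ^ 2) * (16 * Mdl.CU M C / (t * √t)) :=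
          mul_le_mul h5 g6 (norm_nonneg _) (by positivity)
      _ = (320 * Mdl.CU M C / t) * (t ^ 2 / √t) := by
          field_simp
          ring
      _ ≤ (320 * Mdl.CU M C / t) * 1 := by
          refine mul_le_mul_of_nonneg_left ?_ (by positivity)
          rw [div_le_one hs0]
          have h7 : √t * √t = t := Real.mul_self_sqrt ht0.le
          have h8 : √t ≤ 1 := Real.sqrt_le_one.2 (by linarith)
          have h9 : t ^ 2 ≤ t := by nlinarith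
          have h10 : t ≤ √t := by nlinarith
          linarith
      _ = _ := mul_one _
  rw [e]
  refine (norm_add_le _ _).trans ?_
  refine (add_le_add ((norm_add_le _ _).trans (add_le_add k2 k1)) k3).trans (le_of_eq ?_)
  ring
end Mul
end
end KN.SQ
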