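import Pool.Agent.H132.SQ.X2
import Pool.Agent.H132.SQ.X3
import Pool.Agent.H132.SQ.X4
import Pool.Agent.H132.SQ.X7
import Pool.Agent.H132.SQ.X8

/-!
# All moments of the area: definitions
-/

set_option autoImplicit false

namespace KN.SQ

open Finset Filter Topology
open scoped Classical ENNReal ComplexConjugate

noncomputable section

/-- `exp (τ|d|) f` lies in the space and has norm at most `F` -/
def Wb (τ : ℝ) (f : H) (F : ℝ) : Prop :=
  ∃ g : H, (∀ d, g d = (Real.exp (τ * (d.natAbs : ℝ)) : ℂ) * f d) ∧ ‖g‖ ≤ F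

/-- growth of order `j` -/
def Mul.Gr {M : Mdl} (X : Mul M) (j : ℕ) (a : ℝ) : Prop := 0 ≤ a ∧
  (∀ b d, |X.m b d| ≤ a * 4 ^ M.L b * (((d - M.v b).natAbs : ℝ) + 1) ^ j) ∧
  (∀ d, |X.z d| ≤ a * ((d.natAbs : ℝ) + 1) ^ j)

/-- `ui(d) P(κ|d|) e^{-κ|d|}` -/
def yv (M : Mdl) (C : Cap) (P : Polynomial ℝ) (q : ℂ) : H :=
  toH fun d => (Mdl.ui M C d : ℂ) *
    ((P.map (algebraMap ℝ ℂ)).eval (M.kap q * (d.natAbs : ℂ)) * E (M.kap q) d)

/-- the integral from 0 -/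
def pint (P : Polynomial ℝ) : Polynomial ℝ :=
  P.sum fun n a => Polynomial.C (a / (n + 1)) * Polynomial.X ^ (n + 1)

/-- the solution of `2 Q - Q' = P` -/
def psol (P : Polynomial ℝ) : Polynomial ℝ :=
  ∑ i ∈ range (P.natDegree + 1), Polynomial.C ((1 / 2 : ℝ) ^ (i + 1)) * Polynomial.derivative^[i] P

/-- the profiles of the moments -/
def PK : ℕ → Polynomial ℝ
  | 0 => 1
  | k + 1 => pint (psol (Polynomial.X * PK k))

/-- the Laplace transform at 2 of `x P(x)` -/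
def lap (P : Polynomial ℝ) : ℝ := P.sum fun n a => a * ((n + 1).factorial : ℝ) / 2 ^ (n + 2)

/-- the constants of Takács: `K_0 = -1/2`, `K_k = (3k-4)/4 K_{k-1} + ∑_{j=1}^{k-1} K_j K_{k-j}` -/
def Kt : ℕ → ℝ
  | 0 => -1 / 2
  | k + 1 => (3 * ((k : ℝ) + 1) - 4) / 4 * Kt k + ∑ j : Fin k, Kt (j + 1) * Kt (k - j)
decreasing_by all_goals omega

/-- the coefficients of `(1-x)^(-m/2)` -/
def cm (m n : ℕ) : ℝ := (∏ i ∈ range n, ((m : ℝ) / 2 + i)) / n.factorial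

/-- the caps of all moments -/
structure CapS where
  l : ℕ → Cap
  r : ℕ → Cap

section
variable {M : Mdl}

/-- the assumptions on the multipliers (`X j` belongs to the `j`-th power of the area, `j ≥ 1`) -/
def GoodK (A : Ker M) (a : ℕ → ℝ) (N : ℕ) (X : ℕ → Mul M) : Prop :=
  (∀ j, 1 ≤ j → (X j).Gr j (a j)) ∧ (X 1).App A N (a 1) ∧
  ∀ j, 1 ≤ j → (∀ b, (X j).m b 0 = 0) ∧ (X j).z 0 = 0

/-- the vectors of the moments -/
def VK (X : ℕ → Mul M) (C : CapS) (q : ℂ) : ℕ → H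
  | k => M.G q ((∑ j : Fin k, (k.choose (j + 1) : ℂ) • (X (j + 1)).Om q (VK X C q (k - 1 - j))) +
      (C.r k).cv q)
termination_by k => k
decreasing_by all_goals omega

/-- the moments -/
def MK (X : ℕ → Mul M) (C : CapS) (k : ℕ) (q : ℂ) : ℂ :=
  ∑ j ∈ range (k + 1), (k.choose j : ℂ) * B ((C.l j).cv q) (VK X C q (k - j))

/-- the amplitudes -/
def CK (A : Ker M) (C : CapS) (k : ℕ) : ℝ := k.factorial * A.cA * (2 * A.cA / M.sg) ^ (k - 1) *
  Mdl.PP M (C.l 0) (C.r 0) * lap (PK (k - 1))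

end

end

end KN.SQ
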