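import Pool.Agent.H132.SQ.G0

/-!
# Exponentially weighted norms
-/

set_option autoImplicit false

namespace KN.SQ
open Finset Filter Topology
open scoped Classical ENNReal ComplexConjugate
noncomputable section
/-- comparison -/
theorem K1_cmp {g : H} {φ : ℤ → ℂ} {c : ℝ} (hc : 0 ≤ c) (h : ∀ d, ‖φ d‖ ≤ c * ‖g d‖) :
    ∃ g' : H, (∀ d, g' d = φ d) ∧ ‖g'‖ ≤ c * ‖g‖ := by
  have h1 : ∀ d, ‖φ d‖ ^ 2 ≤ c ^ 2 * ‖g d‖ ^ 2 := fun d => by
    rw [← mul_pow]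
    exact pow_le_pow_left₀ (norm_nonneg _) (h d) 2
  have hs : Summable fun d => ‖φ d‖ ^ 2 :=
    Summable.of_nonneg_of_le (fun d => by positivity) h1 ((H.sum g).mul_left (c ^ 2))
  refine ⟨toH φ, fun d => toH_apply hs d, ?_⟩
  refine le_of_sq_le_sq ?_ (mul_nonneg hc (norm_nonneg _))
  rw [H.norm_sq, mul_pow, H.norm_sq, ← tsum_mul_left]
  have e1 : ∀ d, ‖toH φ d‖ ^ 2 = ‖φ d‖ ^ 2 := fun d => by rw [toH_apply hs d]
  rw [tsum_congr e1]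
  exact hs.tsum_le_tsum h1 ((H.sum g).mul_left (c ^ 2))

theorem K1_nexp (τ : ℝ) (n : ℕ) : ‖(Real.exp (τ * (n : ℝ)) : ℂ)‖ = Real.exp (τ * (n : ℝ)) := by
  rw [Complex.norm_real, Real.norm_of_nonneg (Real.exp_pos _).le]

theorem Wb.add {τ : ℝ} {f g : H} {F G : ℝ} (h1 : Wb τ f F) (h2 : Wb τ g G) :
    Wb τ (f + g) (F + G) := by
  obtain ⟨f', hf, hf'⟩ := h1
  obtain ⟨g', hg, hg'⟩ := h2
  refine ⟨f' + g', fun d => ?_, (norm_add_le _ _).trans (add_le_add hf' hg')⟩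
  rw [lp.coeFn_add, lp.coeFn_add, Pi.add_apply, Pi.add_apply, hf, hg]
  ring

theorem Wb.smul {τ : ℝ} {f : H} {F : ℝ} (h : Wb τ f F) (c : ℂ) : Wb τ (c • f) (‖c‖ * F) := by
  obtain ⟨f', hf, hf'⟩ := h
  refine ⟨c • f', fun d => ?_, ?_⟩
  · rw [lp.coeFn_smul, lp.coeFn_smul, Pi.smul_apply, Pi.smul_apply, hf, smul_eq_mul, smul_eq_mul]
    ring
  · rw [norm_smul]
    exact mul_le_mul_of_nonneg_left hf' (norm_nonneg _)

theorem K1_zero (τ : ℝ) : Wb τ (0 : H) 0 :=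
  ⟨0, fun d => by rw [lp.coeFn_zero, Pi.zero_apply, mul_zero], by rw [norm_zero]⟩

theorem Wb.sum {ι : Type} (s : Finset ι) {τ : ℝ} {f : ι → H} {F : ι → ℝ}
    (h : ∀ i ∈ s, Wb τ (f i) (F i)) : Wb τ (∑ i ∈ s, f i) (∑ i ∈ s, F i) := by
  induction s using Finset.induction_on with
  | empty =>
    rw [Finset.sum_empty, Finset.sum_empty]
    exact K1_zero τ
  | insert a s ha ih =>
    rw [Finset.sum_insert ha, Finset.sum_insert ha]
    exact (h a (Finset.mem_insert_self _ _)).add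
      (ih fun i hi => h i (Finset.mem_insert_of_mem hi))

theorem Wb.mono {τ : ℝ} {f : H} {F G : ℝ} (h : Wb τ f F) (hFG : F ≤ G) : Wb τ f G := by
  obtain ⟨g, hg, hg'⟩ := h
  exact ⟨g, hg, hg'.trans hFG⟩

theorem Wb.tau {τ τ' : ℝ} {f : H} {F : ℝ} (h : Wb τ f F) (hτ : τ' ≤ τ) : Wb τ' f F := by
  obtain ⟨g, hg, hg'⟩ := h
  obtain ⟨g', h1, h2⟩ := K1_cmp (g := g)
    (φ := fun d => (Real.exp (τ' * (d.natAbs : ℝ)) : ℂ) * f d) zero_le_one (fun d => by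
      rw [one_mul, hg, norm_mul, norm_mul, K1_nexp, K1_nexp]
      refine mul_le_mul_of_nonneg_right ?_ (norm_nonneg _)
      exact Real.exp_le_exp.2 (mul_le_mul_of_nonneg_right hτ (Nat.cast_nonneg _)))
  exact ⟨g', h1, h2.trans (by rw [one_mul]; exact hg')⟩

theorem Wb.norm {τ : ℝ} (hτ : 0 ≤ τ) {f : H} {F : ℝ} (h : Wb τ f F) : ‖f‖ ≤ F := by
  obtain ⟨g, hg, hg'⟩ := h.tau hτ
  have h1 : g = f := by
    ext d
    rw [hg]
    simp
  rw [← h1]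
  exact hg'

theorem K1_poly {ε : ℝ} (h0 : 0 < ε) (h1 : ε ≤ 1) (n j : ℕ) :
    ((n : ℝ) + 1) ^ j ≤ 3 * j.factorial / ε ^ j * Real.exp (ε * (n : ℝ)) := by
  have h2 := Real.pow_div_factorial_le_exp (ε * ((n : ℝ) + 1)) (by positivity) j
  have hj : (0 : ℝ) < (j.factorial : ℝ) := by exact_mod_cast Nat.factorial_pos j
  rw [div_le_iff₀ hj, mul_pow] at h2
  have h3 : Real.exp (ε * ((n : ℝ) + 1)) ≤ 3 * Real.exp (ε * (n : ℝ)) := by
    rw [mul_add, mul_one, Real.exp_add, mul_comm]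
    refine mul_le_mul_of_nonneg_right ?_ (Real.exp_pos _).le
    have := Real.exp_one_lt_d9
    exact (Real.exp_le_exp.2 h1).trans (by linarith)
  have h4 : (0 : ℝ) < ε ^ j := by positivity
  rw [div_mul_eq_mul_div, le_div_iff₀ h4]
  have h5 := mul_le_mul_of_nonneg_right h3 hj.le
  linarith

/-- polynomial weights: `x^j ≤ j! e^x`, `(n+1)^j ≤ 3 * j! * ε^(-j) * e^(εn)` for `ε ≤ 1` -/
theorem Wb.poly {τ τ' : ℝ} (hτ : τ' < τ) (h1 : τ - τ' ≤ 1) {f g : H} {F a : ℝ} (j : ℕ) (ha : 0 ≤ a)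
    (h : Wb τ f F) (hg : ∀ d, ‖g d‖ ≤ a * ((d.natAbs : ℝ) + 1) ^ j * ‖f d‖) :
    Wb τ' g (a * (3 * j.factorial / (τ - τ') ^ j) * F) := by
  obtain ⟨G, hG, hG'⟩ := h
  have hε : 0 < τ - τ' := by linarith
  have hc : 0 ≤ a * (3 * (j.factorial : ℝ) / (τ - τ') ^ j) := by positivity
  obtain ⟨g', h2, h3⟩ := K1_cmp (g := G)
    (φ := fun d => (Real.exp (τ' * (d.natAbs : ℝ)) : ℂ) * g d) hc (fun d => by
      rw [hG, norm_mul, norm_mul, K1_nexp, K1_nexp]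
      have h4 := K1_poly hε h1 d.natAbs j
      have h5 : Real.exp (τ * (d.natAbs : ℝ)) =
          Real.exp ((τ - τ') * (d.natAbs : ℝ)) * Real.exp (τ' * (d.natAbs : ℝ)) := by
        rw [← Real.exp_add]
        congr 1
        ring
      calc Real.exp (τ' * (d.natAbs : ℝ)) * ‖g d‖
          ≤ Real.exp (τ' * (d.natAbs : ℝ)) * (a * ((d.natAbs : ℝ) + 1) ^ j * ‖f d‖) :=
            mul_le_mul_of_nonneg_left (hg d) (Real.exp_pos _).le
        _ = ((d.natAbs : ℝ) + 1) ^ j * (a * Real.exp (τ' * (d.natAbs : ℝ)) * ‖f d‖) := by ring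
        _ ≤ (3 * j.factorial / (τ - τ') ^ j * Real.exp ((τ - τ') * (d.natAbs : ℝ))) *
            (a * Real.exp (τ' * (d.natAbs : ℝ)) * ‖f d‖) :=
            mul_le_mul_of_nonneg_right h4 (by positivity)
        _ = a * (3 * j.factorial / (τ - τ') ^ j) * (Real.exp (τ * (d.natAbs : ℝ)) * ‖f d‖) := by
            rw [h5]; ring)
  exact ⟨g', h2, h3.trans (mul_le_mul_of_nonneg_left hG' hc)⟩

/-- geometric decay: for `t ≤ 1` and `τ ≤ ρ/2`, `∑ exp(-2(ρ-τ)|d|) ≤ 10/ρ` -/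
theorem Wb.geom {τ ρ : ℝ} (h0 : 0 < ρ) (h1 : ρ ≤ 1) (hτ : τ ≤ ρ / 2) {f : H} {X : ℝ} (hX : 0 ≤ X)
    (h : ∀ d, ‖f d‖ ≤ X * Real.exp (-(ρ * (d.natAbs : ℝ)))) : Wb τ f (4 * X / √ρ) := by
  have hr0 : 0 ≤ Real.exp (-(ρ / 2)) := (Real.exp_pos _).le
  have hr1 : Real.exp (-(ρ / 2)) < 1 := Real.exp_lt_one_iff.2 (by linarith)
  have hb : ∀ d : ℤ, ‖(Real.exp (τ * (d.natAbs : ℝ)) : ℂ) * f d‖ ≤
      X * Real.exp (-(ρ / 2)) ^ d.natAbs := by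
    intro d
    rw [norm_mul, K1_nexp, ← Real.exp_nat_mul]
    calc Real.exp (τ * (d.natAbs : ℝ)) * ‖f d‖
        ≤ Real.exp (ρ / 2 * (d.natAbs : ℝ)) * (X * Real.exp (-(ρ * (d.natAbs : ℝ)))) :=
          mul_le_mul (Real.exp_le_exp.2 (mul_le_mul_of_nonneg_right hτ (Nat.cast_nonneg _)))
            (h d) (norm_nonneg _) (Real.exp_pos _).le
      _ = X * (Real.exp (ρ / 2 * (d.natAbs : ℝ)) * Real.exp (-(ρ * (d.natAbs : ℝ)))) := by ring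
      _ = X * Real.exp ((d.natAbs : ℝ) * -(ρ / 2)) := by
          rw [← Real.exp_add]
          congr 2
          ring
  have hs : Summable fun d : ℤ => ‖(Real.exp (τ * (d.natAbs : ℝ)) : ℂ) * f d‖ ^ 2 := by
    refine Summable.of_nonneg_of_le (fun d => by positivity) (fun d => ?_)
      ((geom_int_hasSum hr0 hr1).summable.mul_left (X ^ 2))
    calc ‖(Real.exp (τ * (d.natAbs : ℝ)) : ℂ) * f d‖ ^ 2
        ≤ (X * Real.exp (-(ρ / 2)) ^ d.natAbs) ^ 2 := pow_le_pow_left₀ (norm_nonneg _) (hb d) 2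
      _ = X ^ 2 * (Real.exp (-(ρ / 2)) ^ d.natAbs * Real.exp (-(ρ / 2)) ^ d.natAbs) := by ring
      _ ≤ X ^ 2 * (Real.exp (-(ρ / 2)) ^ d.natAbs * 1) :=
          mul_le_mul_of_nonneg_left (mul_le_mul_of_nonneg_left (pow_le_one₀ hr0 hr1.le)
            (pow_nonneg hr0 _)) (sq_nonneg _)
      _ = X ^ 2 * Real.exp (-(ρ / 2)) ^ d.natAbs := by rw [mul_one]
  refine ⟨toH fun d => (Real.exp (τ * (d.natAbs : ℝ)) : ℂ) * f d, fun d => toH_apply hs d, ?_⟩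
  have h2 := norm_sq_le (f := toH fun d => (Real.exp (τ * (d.natAbs : ℝ)) : ℂ) * f d) hr0 hr1
    (fun d => by rw [toH_apply hs d]; exact hb d)
  rw [(geom_int_hasSum hr0 hr1).tsum_eq] at h2
  set r := Real.exp (-(ρ / 2)) with hr
  have h3 : ρ / 4 ≤ 1 - r := by
    have h4 : r * Real.exp (ρ / 2) = 1 := by rw [hr, ← Real.exp_add]; simp
    have h5 := Real.add_one_le_exp (ρ / 2)
    have h6 : r * (ρ / 2 + 1) ≤ 1 := (mul_le_mul_of_nonneg_left h5 hr0).trans (le_of_eq h4)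
    nlinarith
  have h7 : 0 < 1 - r := by linarith
  have h8 : (1 - r)⁻¹ + r * (1 - r)⁻¹ ≤ 8 / ρ := by
    have h9 : (1 - r)⁻¹ ≤ 4 / ρ := by
      rw [inv_le_comm₀ h7 (by positivity), inv_div]
      exact h3
    have h10 : r * (1 - r)⁻¹ ≤ 1 * (1 - r)⁻¹ :=
      mul_le_mul_of_nonneg_right hr1.le (inv_nonneg.2 h7.le)
    have h11 : 8 / ρ = 4 / ρ + 4 / ρ := by ring
    linarith
  refine le_of_sq_le_sq ?_ (by positivity)
  rw [div_pow, Real.sq_sqrt h0.le]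
  calc _ ≤ X ^ 2 * ((1 - r)⁻¹ + r * (1 - r)⁻¹) := h2
    _ ≤ X ^ 2 * (8 / ρ) := mul_le_mul_of_nonneg_left h8 (sq_nonneg _)
    _ ≤ (4 * X) ^ 2 / ρ := by
        rw [← mul_div_assoc]
        refine div_le_div_of_nonneg_right ?_ h0.le
        nlinarith [sq_nonneg X]

end
end KN.SQ
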