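import Pool.Agent.H132.SQ.X5

/-!
# The combinatorics of all moments
-/

set_option autoImplicit false

namespace KN.SQ
open KN KN.ST Finset Filter Topology
open scoped Classical ENNReal
noncomputable section
/-- the vectors of the moments: `RK k = GG (∑_{j=1}^k C(k,j) Kg (aN^j) (RK (k-j)) + cR k)` -/
def RK (N : ℕ) (S T : ℝ≥0∞) : ℕ → ℤ → ℝ≥0∞
  | k => GG S T (fun d => (∑ j : Fin k, (k.choose (j + 1) : ℝ≥0∞) *
      Kg S T (fun b d => aN N b d ^ ((j : ℕ) + 1)) (RK N S T (k - 1 - j)) d) + cR k S T d)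
termination_by k => k
decreasing_by all_goals omega

/-- the coefficients of the `k`-th moment -/
def AnK (N k : ℕ) (S : ℝ≥0∞) (n : ℕ) : ℝ≥0∞ :=
  ∑' x : X3, if (∃ D E, Vd x.1 x.2.1 x.2.2 D E) ∧ (pw3 x).length = n ∧ Pl (pw3 x) then
    UN N x ^ k * wx S x else 0

theorem AnK_eq {N k n : ℕ} (h : n ≤ N) (S : ℝ≥0∞) : AnK N k S n =
    ∑' x : X3, if (∃ D E, Vd x.1 x.2.1 x.2.2 D E) ∧ (pw3 x).length = n ∧ Pl (pw3 x) then
      AE (pw3 x) ^ k * wx S x else 0 := by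
  unfold AnK
  refine tsum_congr fun x => ?_
  by_cases hx : (∃ D E, Vd x.1 x.2.1 x.2.2 D E) ∧ (pw3 x).length = n ∧ Pl (pw3 x)
  · rw [if_pos hx, if_pos hx]
    obtain ⟨ha, hb⟩ := vd_iff.1 ⟨hx.1, hx.2.2⟩
    have hra : RA (pt (-(pos x.1).2.1)) (Rw x.2.1 x.2.2) := by
      obtain ⟨⟨E, hv, hr⟩, -⟩ := hb
      exact ra_of_vc hv hr
    have e0 := AE_poly ha.2.1 hra
    have e3 : (pt (-(pos x.1).2.1)).2.1 = -(pos x.1).2.1 := rfl
    rw [e3] at e0
    have e4 : pw3 x = Poly x.1 (Rw x.2.1 x.2.2) := rfl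
    have hlen : (Rw x.2.1 x.2.2).length ≤ N := by
      have h1 := hx.2.1
      rw [len_pw3] at h1
      rw [length_Rw]
      omega
    have e1 : UN N x = AE (pw3 x) := by
      rw [e4, e0]
      unfold UN
      rw [VN_eq N x.2.1 x.2.2 _ hb hlen]
    rw [e1]
  · rw [if_neg hx, if_neg hx]

section L_two
variable {S T : ℝ≥0∞}
/-- the `k`-th moments of the chains with `m` blocks -/
def L_R (N k : ℕ) (S T : ℝ≥0∞) (m : ℕ) (d : ℤ) : ℝ≥0∞ := D412.Wt S T m d (fun bs r => VN N d bs r ^ k)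

theorem L_Wt_sum {ι : Type} (s : Finset ι) (m : ℕ) (d : ℤ)
    (φ : ι → List Blk → List Dir → ℝ≥0∞) :
    D412.Wt S T m d (fun bs r => ∑ i ∈ s, φ i bs r) = ∑ i ∈ s, D412.Wt S T m d (φ i) := by
  induction s using Finset.induction_on with
  | empty =>
    simp only [sum_empty]
    rw [D412.Wt_const, zero_mul]
  | insert i s hi ih =>
    rw [sum_insert hi, ← ih, ← D412.Wt_add]
    simp only [sum_insert hi]

theorem L_R_zero (N k : ℕ) : L_R N k S T 0 = cR k S T := by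
  funext d
  unfold L_R cR
  rw [D412.Wt_zero]
  rfl

theorem L_pow (k : ℕ) (x y : ℝ≥0∞) : (x + y) ^ k =
    (∑ j : Fin k, ((k.choose ((j : ℕ) + 1) : ℝ≥0∞) * x ^ ((j : ℕ) + 1)) * y ^ (k - 1 - (j : ℕ))) +
      y ^ k := by
  rw [add_pow, sum_range_succ']
  congr 1
  · rw [Finset.sum_range]
    refine sum_congr rfl fun j _ => ?_
    have e : k - ((j : ℕ) + 1) = k - 1 - (j : ℕ) := by omega
    rw [e]
    ring
  · simp

theorem L_R_succ (N k : ℕ) (m : ℕ) :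
    L_R N k S T (m + 1) = (fun d => ∑ j : Fin k, (k.choose ((j : ℕ) + 1) : ℝ≥0∞) *
      Kg S T (fun b d => aN N b d ^ ((j : ℕ) + 1)) (L_R N (k - 1 - j) S T m) d) +
        Kh S T (L_R N k S T m) := by
  funext d
  rw [Pi.add_apply, Kh_apply]
  have e0 : ∀ j : Fin k, (k.choose ((j : ℕ) + 1) : ℝ≥0∞) *
      Kg S T (fun b d => aN N b d ^ ((j : ℕ) + 1)) (L_R N (k - 1 - j) S T m) d =
      ∑' b : Blk, if fb d b then ωb S b * T ^ (bl b + 2) *
        D412.Wt S T m (d - (dv b).2.1) (fun bs r => ((k.choose ((j : ℕ) + 1) : ℝ≥0∞) *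
          aN N b d ^ ((j : ℕ) + 1)) * VN N (d - (dv b).2.1) bs r ^ (k - 1 - (j : ℕ))) else 0 := by
    intro j
    unfold Kg
    rw [← ENNReal.tsum_mul_left]
    refine tsum_congr fun b => ?_
    split_ifs
    · rw [D412.Wt_mul]
      unfold L_R
      ring
    · rw [mul_zero]
  rw [sum_congr rfl fun j _ => e0 j, ← Summable.tsum_finsetSum fun i _ => ENNReal.summable,
    ← ENNReal.tsum_add]
  unfold L_R
  rw [D412.Wt_succ]
  refine tsum_congr fun b => ?_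
  by_cases h : fb d b
  · simp only [if_pos h]
    rw [← mul_sum, ← mul_add, ← L_Wt_sum, ← D412.Wt_add]
    congr 2
    funext bs r
    show (aN N b d + VN N (d - (dv b).2.1) bs r) ^ k = _
    rw [L_pow]
  · simp [if_neg h]

theorem L_sum_R (N : ℕ) : ∀ k : ℕ, (fun d => ∑' m, L_R N k S T m d) = RK N S T k := by
  intro k
  induction k using Nat.strong_induction_on with
  | _ k ih =>
    rw [D412.rec_sum (L_R N k S T) (fun m d => ∑ j : Fin k, (k.choose ((j : ℕ) + 1) : ℝ≥0∞) *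
      Kg S T (fun b d => aN N b d ^ ((j : ℕ) + 1)) (L_R N (k - 1 - j) S T m) d)
      (fun m => L_R_succ N k m), L_R_zero, ← D412.GG_add]
    rw [RK]
    congr 1
    funext d
    rw [Pi.add_apply, add_comm]
    congr 1
    rw [Summable.tsum_finsetSum fun i _ => ENNReal.summable]
    refine sum_congr rfl fun j _ => ?_
    rw [ENNReal.tsum_mul_left]
    congr 1
    have hj : k - 1 - (j : ℕ) < k := by
      have := j.2
      omega
    rw [← ih _ hj, D412.Kg_tsum]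

theorem L_pair (N i j : ℕ) (d : ℤ) : cL i S T d * (∑' m, L_R N j S T m d) =
    ∑' x : X3, (if (Pl x.1 ∧ LA (pt d) x.1 ∧ IL x.1) ∧ ok (pt d) x.2.1 x.2.2 then
      (((AE x.1 + (d.natAbs : ℝ≥0∞)) ^ i * VN N d x.2.1 x.2.2 ^ j) * wx S x) *
        T ^ (pw3 x).length else 0) := by
  have e2 : ∑' m : ℕ, L_R N j S T m d = ∑' bs : List Blk, ∑' r : List Dir,
      (if ok (pt d) bs r then VN N d bs r ^ j * wc S T bs r else 0) := D412.Wt_tsum d _
  rw [e2]
  unfold cL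
  rw [ENNReal.tsum_prod', ← ENNReal.tsum_mul_right]
  refine tsum_congr fun l => ?_
  rw [ENNReal.tsum_prod', ← ENNReal.tsum_mul_left]
  refine tsum_congr fun bs => ?_
  rw [← ENNReal.tsum_mul_left]
  refine tsum_congr fun r => ?_
  by_cases ha : Pl l ∧ LA (pt d) l ∧ IL l
  · by_cases hb : ok (pt d) bs r
    · rw [if_pos ha, if_pos hb]
      refine Eq.trans ?_ (if_pos ⟨ha, hb⟩).symm
      rw [len_pw3]
      unfold wc wx
      have e : l.length + r.length + 2 + ln bs = (l.length + 1) + (ln bs + (r.length + 1)) := by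
        ring
      simp only
      rw [e, pow_add T (l.length + 1), pow_add T (ln bs)]
      ring
    · rw [if_neg hb]
      simp only [mul_zero]
      exact (if_neg (fun h => hb h.2)).symm
  · rw [if_neg ha]
    simp only [zero_mul]
    exact (if_neg (fun h => ha h.1)).symm

theorem L_total (N k : ℕ) (S T : ℝ≥0∞) :
    ∑ j ∈ range (k + 1), (k.choose j : ℝ≥0∞) * PI (cL j S T) (fun d => ∑' m, L_R N (k - j) S T m d) =
    ∑' x : X3, (if (∃ D E, Vd x.1 x.2.1 x.2.2 D E) ∧ Pl (pw3 x) then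
      UN N x ^ k * wx S x * T ^ (pw3 x).length else 0) := by
  unfold PI
  simp only [L_pair]
  have h1 : ∀ j ∈ range (k + 1), (k.choose j : ℝ≥0∞) * (∑' d : ℤ, ∑' x : X3,
      (if (Pl x.1 ∧ LA (pt d) x.1 ∧ IL x.1) ∧ ok (pt d) x.2.1 x.2.2 then
      (((AE x.1 + (d.natAbs : ℝ≥0∞)) ^ j * VN N d x.2.1 x.2.2 ^ (k - j)) * wx S x) *
        T ^ (pw3 x).length else 0)) = ∑' d : ℤ, ∑' x : X3,
      (if (Pl x.1 ∧ LA (pt d) x.1 ∧ IL x.1) ∧ ok (pt d) x.2.1 x.2.2 then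
      (((AE x.1 + (d.natAbs : ℝ≥0∞)) ^ j * VN N d x.2.1 x.2.2 ^ (k - j) *
        (k.choose j : ℝ≥0∞)) * wx S x) * T ^ (pw3 x).length else 0) := by
    intro j _
    rw [← ENNReal.tsum_mul_left]
    refine tsum_congr fun d => ?_
    rw [← ENNReal.tsum_mul_left]
    refine tsum_congr fun x => ?_
    split_ifs
    · ring
    · rw [mul_zero]
  rw [sum_congr rfl h1, ← Summable.tsum_finsetSum fun i _ => ENNReal.summable]
  have h2 : ∀ d : ℤ, ∑ j ∈ range (k + 1), ∑' x : X3,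
      (if (Pl x.1 ∧ LA (pt d) x.1 ∧ IL x.1) ∧ ok (pt d) x.2.1 x.2.2 then
      (((AE x.1 + (d.natAbs : ℝ≥0∞)) ^ j * VN N d x.2.1 x.2.2 ^ (k - j) *
        (k.choose j : ℝ≥0∞)) * wx S x) * T ^ (pw3 x).length else 0) =
      ∑' x : X3, (if (Pl x.1 ∧ LA (pt d) x.1 ∧ IL x.1) ∧ ok (pt d) x.2.1 x.2.2 then
        ((AE x.1 + (d.natAbs : ℝ≥0∞)) + VN N d x.2.1 x.2.2) ^ k * wx S x *
          T ^ (pw3 x).length else 0) := by
    intro d
    rw [← Summable.tsum_finsetSum fun i _ => ENNReal.summable]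
    refine tsum_congr fun x => ?_
    by_cases h : (Pl x.1 ∧ LA (pt d) x.1 ∧ IL x.1) ∧ ok (pt d) x.2.1 x.2.2
    · simp only [if_pos h]
      rw [← sum_mul, ← sum_mul, ← add_pow]
    · simp only [if_neg h, sum_const_zero]
  simp only [h2]
  rw [ENNReal.tsum_comm]
  refine tsum_congr fun x => ?_
  rw [tsum_eq_single (-(pos x.1).2.1)]
  · by_cases h : (∃ D E, Vd x.1 x.2.1 x.2.2 D E) ∧ Pl (pw3 x)
    · rw [if_pos h, if_pos (vd_iff.1 h)]
      rfl
    · rw [if_neg h, if_neg (fun h' => h (vd_iff.2 h'))]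
  · intro d hd
    rw [if_neg]
    rintro ⟨⟨-, h, -⟩, -⟩
    exact hd (la_unique h)

theorem L_AnK_sum (N k : ℕ) (S T : ℝ≥0∞) : ∑' n : ℕ, AnK N k S n * T ^ n =
    ∑' x : X3, (if (∃ D E, Vd x.1 x.2.1 x.2.2 D E) ∧ Pl (pw3 x) then
      UN N x ^ k * wx S x * T ^ (pw3 x).length else 0) := by
  unfold AnK
  simp only [← ENNReal.tsum_mul_right]
  rw [ENNReal.tsum_comm]
  refine tsum_congr fun x => ?_
  by_cases h : (∃ D E, Vd x.1 x.2.1 x.2.2 D E) ∧ Pl (pw3 x)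
  · rw [if_pos h, tsum_eq_single (pw3 x).length]
    · rw [if_pos ⟨h.1, rfl, h.2⟩]
    · intro n hn
      rw [if_neg (fun h => hn h.2.1.symm), zero_mul]
  · rw [if_neg h, ENNReal.tsum_eq_zero]
    intro n
    rw [if_neg (fun h' => h ⟨h'.1, h'.2.2⟩), zero_mul]

end L_two
theorem AnK_pair (N k : ℕ) (S T : ℝ≥0∞) : ∑' n : ℕ, AnK N k S n * T ^ n =
    ∑ j ∈ range (k + 1), (k.choose j : ℝ≥0∞) * PI (cL j S T) (RK N S T (k - j)) := by
  rw [L_AnK_sum, ← L_total]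
  simp only [L_sum_R]

end
end KN.SQ
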