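import Pool.Agent.H132.SQ.Ar4
set_option autoImplicit false
/-!
Task D: the ENNReal combinatorics of the SECOND moment of the (truncated) area.
-/
namespace KN.SQ
open KN KN.ST Finset Filter Topology
open scoped Classical ENNReal
noncomputable section

/-- the truncated area of a block -/
def aN (N : ℕ) (b : Blk) (d : ℤ) : ℝ≥0∞ :=
  if d.natAbs ≤ N then AB b (d - (dv b).2.1) + ((d - (dv b).2.1).natAbs : ℝ≥0∞) else 0

/-- the truncated area of a chain with a right cap -/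
def VN (N : ℕ) : ℤ → List Blk → List Dir → ℝ≥0∞
  | _, [], r => AE r
  | d, b :: bs, r => aN N b d + VN N (d - (dv b).2.1) bs r

/-- the transfer operator with a multiplier -/
def Kg (S T : ℝ≥0∞) (μ : Blk → ℤ → ℝ≥0∞) (g : ℤ → ℝ≥0∞) (d : ℤ) : ℝ≥0∞ :=
  ∑' b : Blk, if fb d b then ωb S b * T ^ (bl b + 2) * (μ b d * g (d - (dv b).2.1)) else 0

/-- the resolvent -/
def GG (S T : ℝ≥0∞) (g : ℤ → ℝ≥0∞) (d : ℤ) : ℝ≥0∞ := ∑' m, (Kh S T)^[m] g d

/-- the right caps weighted with the `k`-th power of the area -/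
def cR (k : ℕ) (S T : ℝ≥0∞) (d : ℤ) : ℝ≥0∞ := ∑' r : List Dir,
  if Pl r ∧ RA (pt d) r ∧ IR r then AE r ^ k * (ωa S r * T ^ (r.length + 1)) else 0

/-- the left caps weighted with the `k`-th power of the area -/
def cL (k : ℕ) (S T : ℝ≥0∞) (d : ℤ) : ℝ≥0∞ := ∑' l : List Dir,
  if Pl l ∧ LA (pt d) l ∧ IL l then (AE l + (d.natAbs : ℝ≥0∞)) ^ k *
    (ωa S l * T ^ (l.length + 1)) else 0

/-- the truncated area of a decomposed polygon -/
def UN (N : ℕ) (x : X3) : ℝ≥0∞ :=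
  (AE x.1 + ((-(pos x.1).2.1).natAbs : ℝ≥0∞)) + VN N (-(pos x.1).2.1) x.2.1 x.2.2

/-- the coefficients of the second moment -/
def AnB (N : ℕ) (S : ℝ≥0∞) (n : ℕ) : ℝ≥0∞ :=
  ∑' x : X3, if (∃ D E, Vd x.1 x.2.1 x.2.2 D E) ∧ (pw3 x).length = n ∧ Pl (pw3 x) then
    UN N x ^ 2 * wx S x else 0

/-! ### D1 -/

theorem VN_eq (N : ℕ) (bs : List Blk) (r : List Dir) : ∀ d : ℤ, ok (pt d) bs r →
    (Rw bs r).length ≤ N → VN N d bs r = AE (Rw bs r) := by
  induction bs with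
  | nil =>
    intro d _ _
    rfl
  | cons b bs ih =>
    intro d h hlen
    have hra : RA (pt d) (Rw (b :: bs) r) := by
      obtain ⟨⟨E, hv, hr⟩, -⟩ := h
      exact ra_of_vc hv hr
    have hpos : (pos (Rw (b :: bs) r)).2.1 = d := by
      rw [hra.en]
      rfl
    have hd : d.natAbs ≤ N := by
      have h1 := pos_y_le (Rw (b :: bs) r)
      rw [hpos, Int.abs_eq_natAbs] at h1
      have h2 : d.natAbs ≤ (Rw (b :: bs) r).length := by exact_mod_cast h1
      exact h2.trans hlen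
    obtain ⟨hf, hok⟩ := ok_cons.1 h
    have hlen2 : (Rw bs r).length ≤ N := by
      rw [length_Rw] at hlen ⊢
      rw [ln_cons] at hlen
      omega
    have h1 : Pc (pt d) (pt (d - (dv b).2.1)) b := by
      have := hf.1
      rwa [nxt_pt hf.1.fr hf.2.2] at this
    have hra2 : RA (pt (d - (dv b).2.1)) (Rw bs r) := by
      obtain ⟨⟨E, hv, hr⟩, -⟩ := hok
      exact ra_of_vc hv hr
    have e := AE_Rw1 h1 hra2
    have e2 : (pt (d - (dv b).2.1)).2.1 = d - (dv b).2.1 := rfl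
    rw [e2] at e
    show aN N b d + VN N (d - (dv b).2.1) bs r = AE (Rw1 b (Rw bs r))
    rw [e, ih _ hok hlen2]
    unfold aN
    rw [if_pos hd]

/-- D1: for `n ≤ N` the truncation has no effect -/
theorem AnB_eq {N n : ℕ} (h : n ≤ N) (S : ℝ≥0∞) : AnB N S n =
    ∑' x : X3, if (∃ D E, Vd x.1 x.2.1 x.2.2 D E) ∧ (pw3 x).length = n ∧ Pl (pw3 x) then
      AE (pw3 x) ^ 2 * wx S x else 0 := by
  unfold AnB
  refine tsum_congr fun x => ?_
  by_cases hx : (∃ D E, Vd x.1 x.2.1 x.2.2 D E) ∧ (pw3 x).length = n ∧ Pl (pw3 x)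
  · rw [if_pos hx, if_pos hx]
    obtain ⟨ha, hb⟩ := vd_iff.1 ⟨hx.1, hx.2.2⟩
    have hra : RA (pt (-(pos x.1).2.1)) (Rw x.2.1 x.2.2) := by
      obtain ⟨⟨E, hv, hr⟩, -⟩ := hb
      exact ra_of_vc hv hr
    have e0 := AE_poly ha.2.1 hra
    have e3 : (pt (-(pos x.1).2.1)).2.1 = -(pos x.1).2.1 := rfl
    rw [e3] at e0
    have e4 : pw3 x = Poly x.1 (Rw x.2.1 x.2.2) := rfl
    have hlen : (Rw x.2.1 x.2.2).length ≤ N := by
      have h1 := hx.2.1
      rw [len_pw3] at h1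
      rw [length_Rw]
      omega
    have e1 : UN N x = AE (pw3 x) := by
      rw [e4, e0]
      unfold UN
      rw [VN_eq N x.2.1 x.2.2 _ hb hlen]
    rw [e1]
  · rw [if_neg hx, if_neg hx]

/-! ### D2 -/

namespace D412

section two

variable {S T : ℝ≥0∞}

/-- sums over the chains with `m` blocks -/
def Wt (S T : ℝ≥0∞) (m : ℕ) (d : ℤ) (φ : List Blk → List Dir → ℝ≥0∞) : ℝ≥0∞ :=
  ∑' bs : List Blk, ∑' r : List Dir, (if ok (pt d) bs r ∧ bs.length = m then
    φ bs r * wc S T bs r else 0)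

theorem Wt_add (m : ℕ) (d : ℤ) (φ ψ : List Blk → List Dir → ℝ≥0∞) :
    Wt S T m d (fun bs r => φ bs r + ψ bs r) = Wt S T m d φ + Wt S T m d ψ := by
  unfold Wt
  rw [← ENNReal.tsum_add]
  refine tsum_congr fun bs => ?_
  rw [← ENNReal.tsum_add]
  refine tsum_congr fun r => ?_
  split_ifs
  · ring
  · ring

theorem Wt_mul (m : ℕ) (d : ℤ) (c : ℝ≥0∞) (φ : List Blk → List Dir → ℝ≥0∞) :
    Wt S T m d (fun bs r => c * φ bs r) = c * Wt S T m d φ := by
  unfold Wt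
  rw [← ENNReal.tsum_mul_left]
  refine tsum_congr fun bs => ?_
  rw [← ENNReal.tsum_mul_left]
  refine tsum_congr fun r => ?_
  split_ifs
  · ring
  · ring

theorem Wt_one (m : ℕ) (d : ℤ) : Wt S T m d (fun _ _ => 1) = Rm S T m d := by
  rw [← chain_Rm]
  unfold Wt
  simp only [one_mul]

theorem Wt_const (m : ℕ) (d : ℤ) (c : ℝ≥0∞) : Wt S T m d (fun _ _ => c) = c * Rm S T m d := by
  rw [← Wt_one, ← Wt_mul]
  simp only [mul_one]

theorem Wt_zero (d : ℤ) (φ : List Blk → List Dir → ℝ≥0∞) : Wt S T 0 d φ =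
    ∑' r : List Dir, if Pl r ∧ RA (pt d) r ∧ IR r then
      φ [] r * (ωa S r * T ^ (r.length + 1)) else 0 := by
  unfold Wt
  rw [tsum_eq_single []]
  · simp only [ok_nil, List.length_nil, and_true]
    refine tsum_congr fun r => ?_
    simp [wc, wl, ln]
  · intro bs hbs
    rw [ENNReal.tsum_eq_zero]
    intro r
    rw [if_neg]
    rintro ⟨-, h⟩
    exact hbs (List.length_eq_zero_iff.1 h)

theorem Wt_succ (m : ℕ) (d : ℤ) (φ : List Blk → List Dir → ℝ≥0∞) : Wt S T (m + 1) d φ =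
    ∑' b : Blk, if fb d b then ωb S b * T ^ (bl b + 2) *
      Wt S T m (d - (dv b).2.1) (fun bs r => φ (b :: bs) r) else 0 := by
  unfold Wt
  rw [tsum_cons'' _ (by simp)]
  refine tsum_congr fun b => ?_
  by_cases h : fb d b
  · rw [if_pos h, ← ENNReal.tsum_mul_left]
    refine tsum_congr fun l => ?_
    rw [← ENNReal.tsum_mul_left]
    refine tsum_congr fun r => ?_
    by_cases hc : ok (pt (d - (dv b).2.1)) l r ∧ l.length = m
    · rw [if_pos hc, if_pos ⟨ok_cons.2 ⟨h, hc.1⟩, by rw [List.length_cons, hc.2]⟩]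
      unfold wc
      rw [wl_cons, ln_cons, pow_add T (bl b + 2)]
      ring
    · rw [if_neg hc, mul_zero, if_neg]
      rintro ⟨h1, h2⟩
      exact hc ⟨(ok_cons.1 h1).2, by simpa using h2⟩
  · rw [if_neg h, ENNReal.tsum_eq_zero]
    intro l
    rw [ENNReal.tsum_eq_zero]
    intro r
    rw [if_neg]
    rintro ⟨h1, -⟩
    exact h (ok_cons.1 h1).1

theorem Wt_tsum (d : ℤ) (φ : List Blk → List Dir → ℝ≥0∞) : ∑' m : ℕ, Wt S T m d φ =
    ∑' bs : List Blk, ∑' r : List Dir, (if ok (pt d) bs r then φ bs r * wc S T bs r else 0) := by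
  unfold Wt
  rw [ENNReal.tsum_comm]
  refine tsum_congr fun bs => ?_
  rw [ENNReal.tsum_comm]
  refine tsum_congr fun r => ?_
  by_cases h : ok (pt d) bs r
  · simp only [h, true_and, if_true]
    rw [tsum_eq_single bs.length]
    · simp
    · intro m hm
      rw [if_neg (fun h => hm h.symm)]
  · simp [h]

/-- first moments -/
def R1 (N : ℕ) (S T : ℝ≥0∞) (m : ℕ) (d : ℤ) : ℝ≥0∞ := Wt S T m d (VN N d)

/-- second moments -/
def R2 (N : ℕ) (S T : ℝ≥0∞) (m : ℕ) (d : ℤ) : ℝ≥0∞ := Wt S T m d (fun bs r => VN N d bs r ^ 2)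

theorem R1_succ (N : ℕ) (m : ℕ) :
    R1 N S T (m + 1) = Kg S T (aN N) (Rm S T m) + Kh S T (R1 N S T m) := by
  funext d
  rw [Pi.add_apply, Kh_apply]
  unfold Kg
  rw [← ENNReal.tsum_add]
  unfold R1
  rw [Wt_succ]
  refine tsum_congr fun b => ?_
  by_cases h : fb d b
  · rw [if_pos h, if_pos h, if_pos h, ← mul_add, ← Wt_const, ← Wt_add]
    rfl
  · rw [if_neg h, if_neg h, if_neg h, add_zero]

theorem R2_succ (N : ℕ) (m : ℕ) :
    R2 N S T (m + 1) = (Kg S T (fun b d => aN N b d ^ 2) (Rm S T m) +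
      (Kg S T (aN N) (R1 N S T m) + Kg S T (aN N) (R1 N S T m))) + Kh S T (R2 N S T m) := by
  funext d
  rw [Pi.add_apply, Pi.add_apply, Pi.add_apply, Kh_apply]
  unfold Kg
  rw [← ENNReal.tsum_add, ← ENNReal.tsum_add, ← ENNReal.tsum_add]
  unfold R2
  rw [Wt_succ]
  refine tsum_congr fun b => ?_
  by_cases h : fb d b
  · rw [if_pos h, if_pos h, if_pos h, if_pos h]
    have e : (fun (bs : List Blk) (r : List Dir) => VN N d (b :: bs) r ^ 2) =
        fun bs r => (aN N b d ^ 2 + (aN N b d * VN N (d - (dv b).2.1) bs r +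
          aN N b d * VN N (d - (dv b).2.1) bs r)) + VN N (d - (dv b).2.1) bs r ^ 2 := by
      funext bs r
      show (aN N b d + VN N (d - (dv b).2.1) bs r) ^ 2 = _
      ring
    rw [e, Wt_add, Wt_add, Wt_add, Wt_const, Wt_mul]
    unfold R1
    ring
  · rw [if_neg h, if_neg h, if_neg h, if_neg h]
    simp

theorem R1_zero (N : ℕ) : R1 N S T 0 = cR 1 S T := by
  funext d
  unfold R1 cR
  rw [Wt_zero]
  refine tsum_congr fun r => ?_
  rw [pow_one]
  rfl

theorem R2_zero (N : ℕ) : R2 N S T 0 = cR 2 S T := by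
  funext d
  unfold R2 cR
  rw [Wt_zero]
  rfl

theorem Rm_zero' : Rm S T 0 = cR 0 S T := by
  funext d
  unfold cR
  simp only [Rm, pow_zero, one_mul]

theorem Kg_tsum (μ : Blk → ℤ → ℝ≥0∞) (g : ℕ → ℤ → ℝ≥0∞) :
    Kg S T μ (fun d => ∑' m, g m d) = fun d => ∑' m, Kg S T μ (g m) d := by
  funext d
  unfold Kg
  rw [ENNReal.tsum_comm]
  refine tsum_congr fun b => ?_
  split_ifs
  · rw [← ENNReal.tsum_mul_left, ← ENNReal.tsum_mul_left]
  · simp

theorem Kh_tsum (g : ℕ → ℤ → ℝ≥0∞) :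
    Kh S T (fun d => ∑' m, g m d) = fun d => ∑' m, Kh S T (g m) d := by
  funext d
  simp only [Kh_apply]
  rw [ENNReal.tsum_comm]
  refine tsum_congr fun b => ?_
  split_ifs
  · rw [← ENNReal.tsum_mul_left]
  · simp

theorem Kh_iter_tsum (j : ℕ) : ∀ g : ℕ → ℤ → ℝ≥0∞,
    (Kh S T)^[j] (fun d => ∑' m, g m d) = fun d => ∑' m, (Kh S T)^[j] (g m) d := by
  induction j with
  | zero => intro g; rfl
  | succ j ih =>
    intro g
    rw [Function.iterate_succ_apply, Kh_tsum, ih]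
    rfl

theorem Kh_iter_add (j : ℕ) : ∀ f g : ℤ → ℝ≥0∞,
    (Kh S T)^[j] (f + g) = (Kh S T)^[j] f + (Kh S T)^[j] g := by
  induction j with
  | zero => intro f g; rfl
  | succ j ih =>
    intro f g
    rw [Function.iterate_succ_apply, map_add, ih, Function.iterate_succ_apply,
      Function.iterate_succ_apply]

theorem GG_add (f g : ℤ → ℝ≥0∞) : GG S T (f + g) = GG S T f + GG S T g := by
  funext d
  rw [Pi.add_apply]
  unfold GG
  rw [← ENNReal.tsum_add]
  refine tsum_congr fun m => ?_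
  rw [Kh_iter_add, Pi.add_apply]

theorem rec_eq (u F : ℕ → ℤ → ℝ≥0∞) (h : ∀ m, u (m + 1) = F m + Kh S T (u m)) (m : ℕ) :
    u m = (Kh S T)^[m] (u 0) + ∑ j ∈ range m, (Kh S T)^[j] (F (m - 1 - j)) := by
  induction m with
  | zero => simp
  | succ m ih =>
    rw [h, ih, map_add, map_sum, ← Function.iterate_succ_apply' (⇑(Kh S T)), sum_range_succ']
    have e : ∀ j ∈ range m, Kh S T ((Kh S T)^[j] (F (m - 1 - j))) =
        (Kh S T)^[j + 1] (F (m + 1 - 1 - (j + 1))) := by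
      intro j hj
      rw [Function.iterate_succ_apply']
      have : m - 1 - j = m + 1 - 1 - (j + 1) := by omega
      rw [this]
    rw [sum_congr rfl e]
    have e2 : (Kh S T)^[0] (F (m + 1 - 1 - 0)) = F m := rfl
    rw [e2]
    abel

theorem rec_sum (u F : ℕ → ℤ → ℝ≥0∞) (h : ∀ m, u (m + 1) = F m + Kh S T (u m)) :
    (fun d => ∑' m, u m d) = GG S T (u 0) + GG S T (fun d => ∑' k, F k d) := by
  funext d
  have h1 : ∀ m, u m d = (Kh S T)^[m] (u 0) d +
      ∑ j ∈ range m, (Kh S T)^[j] (F (m - 1 - j)) d := by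
    intro m
    have := congrFun (rec_eq u F h m) d
    rw [this, Pi.add_apply, Finset.sum_apply]
  show ∑' m, u m d = _
  rw [tsum_congr h1, ENNReal.tsum_add, tsum_triangle (fun j k => (Kh S T)^[j] (F k) d),
    Pi.add_apply]
  congr 1
  unfold GG
  refine tsum_congr fun j => ?_
  rw [Kh_iter_tsum]

theorem sum_Rm : (fun d => ∑' m, Rm S T m d) = GG S T (cR 0 S T) := by
  funext d
  unfold GG
  refine tsum_congr fun m => ?_
  rw [Rm_iter, Rm_zero']

theorem sum_R1 (N : ℕ) : (fun d => ∑' m, R1 N S T m d) =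
    GG S T (Kg S T (aN N) (GG S T (cR 0 S T)) + cR 1 S T) := by
  rw [rec_sum (R1 N S T) (fun m => Kg S T (aN N) (Rm S T m)) (fun m => R1_succ N m), R1_zero,
    ← Kg_tsum, sum_Rm, GG_add, add_comm]

theorem sum_R2 (N : ℕ) : (fun d => ∑' m, R2 N S T m d) =
    GG S T (cR 2 S T) + (GG S T (Kg S T (fun b d => aN N b d ^ 2) (GG S T (cR 0 S T))) +
      (GG S T (Kg S T (aN N) (GG S T (Kg S T (aN N) (GG S T (cR 0 S T)) + cR 1 S T))) +
      GG S T (Kg S T (aN N) (GG S T (Kg S T (aN N) (GG S T (cR 0 S T)) + cR 1 S T))))) := by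
  rw [rec_sum (R2 N S T) (fun m => Kg S T (fun b d => aN N b d ^ 2) (Rm S T m) +
      (Kg S T (aN N) (R1 N S T m) + Kg S T (aN N) (R1 N S T m))) (fun m => R2_succ N m), R2_zero]
  congr 1
  have e : (fun d => ∑' k, (Kg S T (fun b d => aN N b d ^ 2) (Rm S T k) +
      (Kg S T (aN N) (R1 N S T k) + Kg S T (aN N) (R1 N S T k))) d) =
      Kg S T (fun b d => aN N b d ^ 2) (fun d => ∑' m, Rm S T m d) +
      (Kg S T (aN N) (fun d => ∑' m, R1 N S T m d) +
        Kg S T (aN N) (fun d => ∑' m, R1 N S T m d)) := by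
    rw [Kg_tsum, Kg_tsum]
    funext d
    simp only [Pi.add_apply]
    rw [ENNReal.tsum_add, ENNReal.tsum_add]
  rw [e, sum_Rm, sum_R1, GG_add, GG_add]

theorem PI_GG (f g : ℤ → ℝ≥0∞) : PI f (GG S T g) = PI (GG S T f) g := by
  have e1 : GG S T g = fun d => ∑' m, (Kh S T)^[m] g d := rfl
  have e2 : GG S T f = fun d => ∑' m, (Kh S T)^[m] f d := rfl
  rw [e1, e2, PI_tsum_right, PI_tsum_left]
  exact tsum_congr fun m => PI_iter f g m

theorem AnB_sum (N : ℕ) (S T : ℝ≥0∞) : ∑' n : ℕ, AnB N S n * T ^ n =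
    ∑' x : X3, (if (∃ D E, Vd x.1 x.2.1 x.2.2 D E) ∧ Pl (pw3 x) then
      UN N x ^ 2 * wx S x * T ^ (pw3 x).length else 0) := by
  unfold AnB
  simp only [← ENNReal.tsum_mul_right]
  rw [ENNReal.tsum_comm]
  refine tsum_congr fun x => ?_
  by_cases h : (∃ D E, Vd x.1 x.2.1 x.2.2 D E) ∧ Pl (pw3 x)
  · rw [if_pos h, tsum_eq_single (pw3 x).length]
    · rw [if_pos ⟨h.1, rfl, h.2⟩]
    · intro n hn
      rw [if_neg (fun h => hn h.2.1.symm), zero_mul]
  · rw [if_neg h, ENNReal.tsum_eq_zero]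
    intro n
    rw [if_neg (fun h' => h ⟨h'.1, h'.2.2⟩), zero_mul]

theorem totalB (N : ℕ) (S T : ℝ≥0∞) : PI (cL 2 S T) (fun d => ∑' m, Rm S T m d) +
    (PI (cL 1 S T) (fun d => ∑' m, R1 N S T m d) + PI (cL 1 S T) (fun d => ∑' m, R1 N S T m d)) +
    PI (cL 0 S T) (fun d => ∑' m, R2 N S T m d) =
    ∑' x : X3, (if (∃ D E, Vd x.1 x.2.1 x.2.2 D E) ∧ Pl (pw3 x) then
      UN N x ^ 2 * wx S x * T ^ (pw3 x).length else 0) := by
  have e0 : ∀ d : ℤ, ∑' m : ℕ, Rm S T m d =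
      ∑' bs : List Blk, ∑' r : List Dir, (if ok (pt d) bs r then wc S T bs r else 0) := by
    intro d
    have h := Wt_tsum (S := S) (T := T) d (fun _ _ => 1)
    simp only [Wt_one, one_mul] at h
    exact h
  have e1 : ∀ d : ℤ, ∑' m : ℕ, R1 N S T m d = ∑' bs : List Blk, ∑' r : List Dir,
      (if ok (pt d) bs r then VN N d bs r * wc S T bs r else 0) := fun d => Wt_tsum d _
  have e2 : ∀ d : ℤ, ∑' m : ℕ, R2 N S T m d = ∑' bs : List Blk, ∑' r : List Dir,
      (if ok (pt d) bs r then VN N d bs r ^ 2 * wc S T bs r else 0) := fun d => Wt_tsum d _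
  unfold PI
  simp only [e0, e1, e2]
  rw [← ENNReal.tsum_add, ← ENNReal.tsum_add, ← ENNReal.tsum_add]
  have h2 : ∀ d : ℤ, (cL 2 S T d *
      ∑' bs : List Blk, ∑' r : List Dir, (if ok (pt d) bs r then wc S T bs r else 0)) +
      ((cL 1 S T d * ∑' bs : List Blk, ∑' r : List Dir, (if ok (pt d) bs r then
        VN N d bs r * wc S T bs r else 0)) +
       (cL 1 S T d * ∑' bs : List Blk, ∑' r : List Dir, (if ok (pt d) bs r then
        VN N d bs r * wc S T bs r else 0))) +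
      (cL 0 S T d * ∑' bs : List Blk, ∑' r : List Dir, (if ok (pt d) bs r then
        VN N d bs r ^ 2 * wc S T bs r else 0)) =
      ∑' x : X3, (if (Pl x.1 ∧ LA (pt d) x.1 ∧ IL x.1) ∧ ok (pt d) x.2.1 x.2.2 then
        ((AE x.1 + (d.natAbs : ℝ≥0∞)) + VN N d x.2.1 x.2.2) ^ 2 * wx S x *
          T ^ (pw3 x).length else 0) := by
    intro d
    unfold cL
    rw [ENNReal.tsum_prod', ← ENNReal.tsum_mul_right, ← ENNReal.tsum_mul_right,
      ← ENNReal.tsum_mul_right, ← ENNReal.tsum_add, ← ENNReal.tsum_add, ← ENNReal.tsum_add]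
    refine tsum_congr fun l => ?_
    rw [ENNReal.tsum_prod', ← ENNReal.tsum_mul_left, ← ENNReal.tsum_mul_left,
      ← ENNReal.tsum_mul_left, ← ENNReal.tsum_add, ← ENNReal.tsum_add, ← ENNReal.tsum_add]
    refine tsum_congr fun bs => ?_
    rw [← ENNReal.tsum_mul_left, ← ENNReal.tsum_mul_left, ← ENNReal.tsum_mul_left,
      ← ENNReal.tsum_add, ← ENNReal.tsum_add, ← ENNReal.tsum_add]
    refine tsum_congr fun r => ?_
    by_cases ha : Pl l ∧ LA (pt d) l ∧ IL l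
    · by_cases hb : ok (pt d) bs r
      · rw [if_pos ha, if_pos ha, if_pos ha, if_pos hb, if_pos hb, if_pos hb]
        refine Eq.trans ?_ (if_pos ⟨ha, hb⟩).symm
        rw [len_pw3]
        unfold wc wx
        have e : l.length + r.length + 2 + ln bs = (l.length + 1) + (ln bs + (r.length + 1)) := by
          ring
        simp only
        rw [e, pow_add T (l.length + 1), pow_add T (ln bs)]
        ring
      · rw [if_neg hb, if_neg hb, if_neg hb]
        simp only [mul_zero, add_zero]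
        exact (if_neg (fun h => hb h.2)).symm
    · rw [if_neg ha, if_neg ha, if_neg ha]
      simp only [zero_mul, add_zero]
      exact (if_neg (fun h => ha h.1)).symm
  simp only [h2]
  rw [ENNReal.tsum_comm]
  refine tsum_congr fun x => ?_
  rw [tsum_eq_single (-(pos x.1).2.1)]
  · by_cases h : (∃ D E, Vd x.1 x.2.1 x.2.2 D E) ∧ Pl (pw3 x)
    · rw [if_pos h, if_pos (vd_iff.1 h)]
      rfl
    · rw [if_neg h, if_neg (fun h' => h (vd_iff.2 h'))]
  · intro d hd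
    rw [if_neg]
    rintro ⟨⟨-, h, -⟩, -⟩
    exact hd (la_unique h)

end two

end D412

/-- D2 -/
theorem AnB_pair (N : ℕ) (S T : ℝ≥0∞) : ∑' n : ℕ, AnB N S n * T ^ n =
    PI (cL 2 S T) (GG S T (cR 0 S T)) +
    2 * PI (cL 1 S T) (GG S T (Kg S T (aN N) (GG S T (cR 0 S T)) + cR 1 S T)) +
    (PI (GG S T (cL 0 S T)) (Kg S T (fun b d => aN N b d ^ 2) (GG S T (cR 0 S T))) +
      2 * PI (GG S T (cL 0 S T)) (Kg S T (aN N)
        (GG S T (Kg S T (aN N) (GG S T (cR 0 S T)) + cR 1 S T))) +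
      PI (GG S T (cL 0 S T)) (cR 2 S T)) := by
  rw [D412.AnB_sum, ← D412.totalB, D412.sum_Rm, D412.sum_R1, D412.sum_R2, PI_add_right, PI_add_right, PI_add_right,
    D412.PI_GG (cL 0 S T) (cR 2 S T), D412.PI_GG (cL 0 S T) (Kg S T (fun b d => aN N b d ^ 2) _),
    D412.PI_GG (cL 0 S T) (Kg S T (aN N) _)]
  ring

end
end KN.SQ
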