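import Pool.Agent.H132.SQ.G0
import Pool.Agent.H132.SQ.X5

/-!
# The concrete multipliers and caps of all moments
-/

set_option autoImplicit false

namespace KN.SQ
open KN KN.ST Finset Filter Topology
open scoped Classical ENNReal ComplexConjugate
noncomputable section
theorem N1_4 (L : ℕ) : (4 : ℝ) ^ L = 2 ^ L * 2 ^ L := by
  rw [← mul_pow]; norm_num

theorem N1_1 (L : ℕ) : (1 : ℝ) ≤ 2 ^ L := one_le_pow₀ (by norm_num)

theorem N1_fac (L j : ℕ) : ((L : ℝ) + 1) ^ (2 * j) ≤ 3 * (2 * j).factorial * 4 ^ L := by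
  have h := Real.pow_div_factorial_le_exp ((L : ℝ) + 1) (by positivity) (2 * j)
  have h1 : Real.exp ((L : ℝ) + 1) ≤ 3 * 4 ^ L := by
    rw [Real.exp_add, mul_comm]
    have h2 : Real.exp 1 < 3 := Real.exp_one_lt_three
    have h3 : Real.exp (L : ℝ) = Real.exp 1 ^ L := by rw [← Real.exp_nat_mul, mul_one]
    rw [h3]
    exact mul_le_mul h2.le (pow_le_pow_left₀ (Real.exp_pos 1).le (by linarith) L) (by positivity)
      (by norm_num)
  rw [div_le_iff₀ (by positivity)] at h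
  calc ((L : ℝ) + 1) ^ (2 * j) ≤ Real.exp ((L : ℝ) + 1) * (2 * j).factorial := h
    _ ≤ (3 * 4 ^ L) * (2 * j).factorial := mul_le_mul_of_nonneg_right h1 (by positivity)
    _ = _ := by ring

theorem N1_f1 (j : ℕ) : (1 : ℝ) ≤ ((2 * j).factorial : ℝ) := by
  exact_mod_cast Nat.one_le_iff_ne_zero.2 (Nat.factorial_ne_zero _)

theorem N1_ar (s : ℝ) (hs : Wok s) (b : (MM s hs).ι) (d : ℤ) (h : (MM s hs).P b d) :
    0 ≤ (KK s hs).ar b d ∧ (KK s hs).ar b d ≤
      5 / 4 * ((MM s hs).L b : ℝ) * ((d - (MM s hs).v b).natAbs : ℝ) + 3 * ((MM s hs).L b : ℝ) ^ 2 := by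
  have h0 : Pc (pt d) (nxt (pt d) b.1) b.1 := h
  have h1 := (AB_bd h0 b.2.2.1 b.2.2.2.1).2
  have h3 := irr4' b.2.1 b.2.2.1
  have h4 := bl_pos b.2.2.2.2
  have e1 : (KK s hs).ar b d = (AB b.1 (d - (dv b.1).2.1)).toReal +
    ((d - (dv b.1).2.1).natAbs : ℝ) := rfl
  have e2 : (MM s hs).L b = bl b.1 := rfl
  have e3 : (MM s hs).v b = (dv b.1).2.1 := rfl
  rw [e1, e2, e3]
  set n' : ℝ := ((d - (dv b.1).2.1).natAbs : ℝ) with hn'
  set L := bl b.1 with hL
  have hn0 : 0 ≤ n' := Nat.cast_nonneg _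
  have hLr : (1 : ℝ) ≤ L := by exact_mod_cast h4
  have hw : 4 * (wd b.1 : ℝ) ≤ L := by exact_mod_cast (by omega : 4 * wd b.1 ≤ L)
  have hA : 0 ≤ (AB b.1 (d - (dv b.1).2.1)).toReal := ENNReal.toReal_nonneg
  refine ⟨by linarith, ?_⟩
  have h9 := (abs_le.1 h1).2
  nlinarith [mul_le_mul_of_nonneg_right hw hn0, mul_le_mul_of_nonneg_right hLr hn0]

theorem N1_vL (s : ℝ) (hs : Wok s) (b : (MM s hs).ι) (d : ℤ) :
    ((d - (MM s hs).v b).natAbs : ℝ) ≤ (d.natAbs : ℝ) + (MM s hs).L b := by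
  have h := (MM s hs).vL b
  rw [Int.abs_eq_natAbs] at h
  have h' : ((MM s hs).v b).natAbs ≤ (MM s hs).L b := by exact_mod_cast h
  exact_mod_cast (by omega : (d - (MM s hs).v b).natAbs ≤ d.natAbs + (MM s hs).L b)

theorem N1_pw {x y L : ℝ} (hx : 0 ≤ x) (hy : 0 ≤ y) (l j : ℕ) (hL : L = l) (h : x ≤ y * (L + 1) ^ 2) :
    x ^ j ≤ y ^ j * (3 * (2 * j).factorial * 4 ^ l) := by
  subst hL
  calc x ^ j ≤ (y * ((l : ℝ) + 1) ^ 2) ^ j := pow_le_pow_left₀ hx h j
    _ = y ^ j * ((l : ℝ) + 1) ^ (2 * j) := by rw [mul_pow, ← pow_mul]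
    _ ≤ _ := mul_le_mul_of_nonneg_left (N1_fac l j) (pow_nonneg hy j)

/-- `(L+1)^(2j) ≤ 3 (2j)! 4^L` and `ar ≤ 6 (N+1) (L+1)^2` for `|d| ≤ N` -/
theorem XK_bd (s : ℝ) (hs : Wok s) (N j : ℕ) (b : (MM s hs).ι) (d : ℤ) :
    |(if (MM s hs).P b d ∧ d.natAbs ≤ N then (KK s hs).ar b d ^ j else 0)| ≤
      (3 * (2 * j).factorial * (6 * (N + 1)) ^ j) * 4 ^ (MM s hs).L b := by
  split_ifs with h
  · obtain ⟨h1, h2⟩ := h
    obtain ⟨h3, h4⟩ := N1_ar s hs b d h1
    have h5 := N1_vL s hs b d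
    have h7 : (d.natAbs : ℝ) ≤ N := by exact_mod_cast h2
    rw [abs_of_nonneg (pow_nonneg h3 j)]
    have hN : (0 : ℝ) ≤ N := Nat.cast_nonneg _
    have hL : (0 : ℝ) ≤ ((MM s hs).L b : ℝ) := Nat.cast_nonneg _
    refine (N1_pw (y := 6 * ((N : ℝ) + 1)) h3 (by positivity) ((MM s hs).L b) j rfl ?_).trans
      (le_of_eq (by ring))
    refine h4.trans ?_
    set L : ℝ := ((MM s hs).L b : ℝ) with hLd
    set n' : ℝ := ((d - (MM s hs).v b).natAbs : ℝ) with hn'
    have h8 : L * n' ≤ L * (N + L) := mul_le_mul_of_nonneg_left (by linarith) hL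
    have h9 : 0 ≤ L * N := mul_nonneg hL hN
    have h10 : 0 ≤ L ^ 2 * N := mul_nonneg (sq_nonneg L) hN
    have h11 : 0 ≤ L ^ 2 := sq_nonneg L
    nlinarith
  · rw [abs_zero]; positivity

theorem XK_bz (N j : ℕ) (d : ℤ) :
    |(if d.natAbs ≤ N then (d.natAbs : ℝ) ^ j else 0)| ≤
      3 * (2 * j).factorial * (6 * ((N : ℝ) + 1)) ^ j := by
  have hN : (0 : ℝ) ≤ N := Nat.cast_nonneg _
  split_ifs with h
  · have h1 : (d.natAbs : ℝ) ≤ 6 * ((N : ℝ) + 1) := by
      have : (d.natAbs : ℝ) ≤ N := by exact_mod_cast h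
      linarith
    rw [abs_of_nonneg (pow_nonneg (Nat.cast_nonneg _) j)]
    have h2 : (d.natAbs : ℝ) ^ j ≤ (6 * ((N : ℝ) + 1)) ^ j :=
      pow_le_pow_left₀ (Nat.cast_nonneg _) h1 j
    have h3 := N1_f1 j
    have h4 : (0 : ℝ) ≤ (6 * ((N : ℝ) + 1)) ^ j := by positivity
    have h5 : (6 * ((N : ℝ) + 1)) ^ j ≤ 3 * ((2 * j).factorial : ℝ) * (6 * ((N : ℝ) + 1)) ^ j :=
      le_mul_of_one_le_left h4 (by linarith)
    exact h2.trans h5
  · rw [abs_zero]; positivity

/-- the powers of the truncated areas of the blocks -/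
def XK (s : ℝ) (hs : Wok s) (N j : ℕ) : Mul (MM s hs) where
  m b d := if (MM s hs).P b d ∧ d.natAbs ≤ N then (KK s hs).ar b d ^ j else 0
  z d := if d.natAbs ≤ N then (d.natAbs : ℝ) ^ j else 0
  R := 3 * (2 * j).factorial * (6 * (N + 1)) ^ j
  R0 := by positivity
  bd := XK_bd s hs N j
  bz := XK_bz N j

/-- the constants -/
def aK (j : ℕ) : ℝ := 1000 ^ (j + 1) * (2 * j).factorial

theorem N1_a1 (j : ℕ) : 3 * (4 : ℝ) ^ j * (2 * j).factorial ≤ aK j := by
  unfold aK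
  refine mul_le_mul_of_nonneg_right ?_ (by positivity)
  have h1 : (4 : ℝ) ^ j ≤ 1000 ^ j := pow_le_pow_left₀ (by norm_num) (by norm_num) j
  have h2 : (0 : ℝ) ≤ 1000 ^ j := by positivity
  rw [pow_succ]
  nlinarith

theorem N1_a2 (j : ℕ) : 1000 ≤ aK j := by
  unfold aK
  have h1 := N1_f1 j
  have h2 : (1 : ℝ) ≤ 1000 ^ j := one_le_pow₀ (by norm_num)
  rw [pow_succ]
  nlinarith [mul_nonneg (by linarith : (0 : ℝ) ≤ 1000 ^ j - 1) (by linarith : (0 : ℝ) ≤ ((2 * j).factorial : ℝ) - 1)]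

theorem N1_sq {n N : ℕ} (hN : 0 < N) (h : N < n) : (n : ℝ) ≤ (n : ℝ) ^ 2 / N := by
  have h1 : (0 : ℝ) < N := by exact_mod_cast hN
  have h2 : (N : ℝ) ≤ n := by exact_mod_cast h.le
  rw [le_div_iff₀ h1]
  nlinarith

theorem N1_z (s : ℝ) (hs : Wok s) (N : ℕ) (hN : 0 < N) (d : ℤ) :
    |(XK s hs N 1).z d - d.natAbs| ≤ 1000 * (1 + (d.natAbs : ℝ) ^ 2 / N) := by
  have h0 : (0 : ℝ) ≤ (d.natAbs : ℝ) ^ 2 / N := by positivity
  show |(if d.natAbs ≤ N then (d.natAbs : ℝ) ^ 1 else 0) - d.natAbs| ≤ _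
  split_ifs with h
  · rw [pow_one, sub_self, abs_zero]; linarith
  · have h1 := N1_sq hN (not_le.1 h)
    rw [zero_sub, abs_neg, abs_of_nonneg (Nat.cast_nonneg _)]
    linarith

theorem N1_m (s : ℝ) (hs : Wok s) (N : ℕ) (hN : 0 < N) (b : (MM s hs).ι) (d : ℤ)
    (hP : (MM s hs).P b d) : |(XK s hs N 1).m b d - (KK s hs).nu b * d.natAbs| ≤
      1000 * 4 ^ (MM s hs).L b * (1 + (d.natAbs : ℝ) ^ 2 / N) := by
  have h0 : (0 : ℝ) ≤ (d.natAbs : ℝ) ^ 2 / N := by positivity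
  have h1 := N1_1 ((MM s hs).L b)
  have h2 := (KK s hs).nuL b
  have h3 := (KK s hs).nu0 b
  show |(if (MM s hs).P b d ∧ d.natAbs ≤ N then (KK s hs).ar b d ^ 1 else 0) -
    (KK s hs).nu b * d.natAbs| ≤ _
  rw [pow_one]
  by_cases h : d.natAbs ≤ N
  · rw [if_pos ⟨hP, h⟩]
    have h4 := (KK s hs).ard b d hP
    have h6 : (KK s hs).Ca = 5 := rfl
    rw [h6] at h4
    have h7 : (0 : ℝ) < 4 ^ (MM s hs).L b := by positivity
    have h8 : 0 ≤ 4 ^ (MM s hs).L b * ((d.natAbs : ℝ) ^ 2 / N) := mul_nonneg h7.le h0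
    nlinarith
  · rw [if_neg (fun h' => h h'.2), zero_sub, abs_neg,
      abs_of_nonneg (mul_nonneg h3 (Nat.cast_nonneg _))]
    have h4 := N1_sq hN (not_le.1 h)
    rw [N1_4]
    set t : ℝ := 2 ^ (MM s hs).L b with ht
    have h5 : (KK s hs).nu b * (d.natAbs : ℝ) ≤ t * t * ((d.natAbs : ℝ) ^ 2 / N) := by
      refine mul_le_mul ?_ h4 (Nat.cast_nonneg _) (mul_self_nonneg t)
      nlinarith
    have h6 : 0 ≤ t * t := mul_self_nonneg t
    have h7 : 0 ≤ t * t * ((d.natAbs : ℝ) ^ 2 / N) := mul_nonneg h6 h0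
    nlinarith

/-- **Task N1** (with XK_bd, XK_bz): ar ≤ 4 (L+1)^2 (|d-v|+1) -/
theorem good_XK (s : ℝ) (hs : Wok s) (N : ℕ) (hN : 0 < N) :
    GoodK (KK s hs) aK N (XK s hs N) := by
  refine ⟨fun j hj => ⟨?_, fun b d => ?_, fun d => ?_⟩, ⟨?_, fun b d hP => ?_, fun b d hP => ?_,
    fun d => ?_⟩, fun j hj => ⟨fun b => ?_, ?_⟩⟩
  · have := N1_a2 j
    linarith
  · show |(if (MM s hs).P b d ∧ d.natAbs ≤ N then (KK s hs).ar b d ^ j else 0)| ≤ _
    have ha := N1_a2 j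
    have hn0 : (0 : ℝ) ≤ ((d - (MM s hs).v b).natAbs : ℝ) := Nat.cast_nonneg _
    split_ifs with h
    · obtain ⟨h3, h4⟩ := N1_ar s hs b d h.1
      rw [abs_of_nonneg (pow_nonneg h3 j)]
      have hL : (0 : ℝ) ≤ ((MM s hs).L b : ℝ) := Nat.cast_nonneg _
      have h5 : (KK s hs).ar b d ^ j ≤ (4 * (((d - (MM s hs).v b).natAbs : ℝ) + 1)) ^ j *
          (3 * (2 * j).factorial * 4 ^ (MM s hs).L b) := by
        refine N1_pw h3 (by positivity) ((MM s hs).L b) j rfl ?_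
        refine h4.trans ?_
        set L : ℝ := ((MM s hs).L b : ℝ) with hLd
        set n' : ℝ := ((d - (MM s hs).v b).natAbs : ℝ) with hn'
        have h8 : 0 ≤ L * n' := mul_nonneg hL hn0
        have h9 : 0 ≤ L ^ 2 * n' := mul_nonneg (sq_nonneg L) hn0
        nlinarith [sq_nonneg L]
      refine h5.trans ?_
      have h6 := N1_a1 j
      rw [mul_pow]
      have h7 : (0 : ℝ) ≤ 4 ^ (MM s hs).L b * (((d - (MM s hs).v b).natAbs : ℝ) + 1) ^ j := by
        positivity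
      have h8 := mul_le_mul_of_nonneg_right h6 h7
      refine le_trans (le_of_eq (by ring)) (h8.trans (le_of_eq (by ring)))
    · rw [abs_zero]
      positivity
  · show |(if d.natAbs ≤ N then (d.natAbs : ℝ) ^ j else 0)| ≤ _
    have ha := N1_a2 j
    have h0 : (0 : ℝ) ≤ d.natAbs := Nat.cast_nonneg _
    split_ifs with h
    · rw [abs_of_nonneg (pow_nonneg h0 j)]
      have h1 : (d.natAbs : ℝ) ^ j ≤ ((d.natAbs : ℝ) + 1) ^ j :=
        pow_le_pow_left₀ h0 (by linarith) j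
      exact h1.trans (le_mul_of_one_le_left (by positivity) (by linarith))
    · rw [abs_zero]
      positivity
  · have := N1_a2 1
    linarith
  · refine (N1_m s hs N hN b d hP).trans ?_
    have ha := N1_a2 1
    have h0 : (0 : ℝ) ≤ 4 ^ (MM s hs).L b * (1 + (d.natAbs : ℝ) ^ 2 / N) := by positivity
    rw [mul_assoc, mul_assoc]
    exact mul_le_mul_of_nonneg_right ha h0
  · show (if (MM s hs).P b d ∧ d.natAbs ≤ N then (KK s hs).ar b d ^ 1 else 0) = 0
    rw [if_neg (fun h => hP h.1)]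
  · refine (N1_z s hs N hN d).trans ?_
    exact mul_le_mul_of_nonneg_right (N1_a2 1) (by positivity)
  · show (if (MM s hs).P b 0 ∧ (0 : ℤ).natAbs ≤ N then (KK s hs).ar b 0 ^ j else 0) = 0
    rw [if_neg (fun h => (MM s hs).P0 b h.1)]
  · show (if (0 : ℤ).natAbs ≤ N then (((0 : ℤ).natAbs : ℕ) : ℝ) ^ j else 0) = 0
    split_ifs
    · simp; omega
    · rfl

theorem N2_pow (k L : ℕ) :
    ((L : ℝ) + 1) ^ (2 * k) ≤ 3 * (2 * k).factorial * 4 ^ L := by
  have h1 := Real.pow_div_factorial_le_exp ((L : ℝ) + 1) (by positivity) (2 * k)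
  have hf : (0 : ℝ) < (2 * k).factorial := by exact_mod_cast Nat.factorial_pos _
  rw [div_le_iff₀ hf] at h1
  have h2 : Real.exp ((L : ℝ) + 1) ≤ 3 * 4 ^ L := by
    have h3 : Real.exp 1 ≤ 3 := by
      have := Real.exp_one_lt_d9
      linarith
    have h4 : Real.exp (L : ℝ) = Real.exp 1 ^ L := by
      rw [← Real.exp_nat_mul, mul_one]
    rw [Real.exp_add, h4, mul_comm]
    exact mul_le_mul h3 (pow_le_pow_left₀ (Real.exp_pos 1).le (by linarith) L)
      (by positivity) (by norm_num)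
  calc ((L : ℝ) + 1) ^ (2 * k) ≤ Real.exp ((L : ℝ) + 1) * (2 * k).factorial := h1
    _ ≤ (3 * 4 ^ L) * (2 * k).factorial := mul_le_mul_of_nonneg_right h2 hf.le
    _ = _ := by ring

theorem N2_ac {w : List Dir} (h : (pos w).1 = 0) :
    ac w ≤ 7 * ((w.length : ℝ) + 1) ^ 2 := by
  have h1 := ENNReal.toReal_mono (ENNReal.natCast_ne_top _) (AE_le h)
  rw [ENNReal.toReal_natCast] at h1
  have h2 : ((pos w).2.1.natAbs : ℝ) ≤ (w.length : ℕ) := by
    have h3 := pos_y_le w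
    rw [Int.abs_eq_natAbs] at h3
    exact_mod_cast h3
  have h0 : (0 : ℝ) ≤ (w.length : ℝ) := Nat.cast_nonneg _
  unfold ac
  push_cast at h1
  nlinarith

theorem N2_ack (k : ℕ) {w : List Dir} (h : (pos w).1 = 0) :
    ac w ^ k ≤ 7 ^ k * (3 * (2 * k).factorial * 4 ^ w.length) := by
  have h1 : ac w ^ k ≤ (7 * ((w.length : ℝ) + 1) ^ 2) ^ k :=
    pow_le_pow_left₀ (ac_nonneg w) (N2_ac h) k
  refine h1.trans ?_
  rw [mul_pow, ← pow_mul]
  exact mul_le_mul_of_nonneg_left (N2_pow k w.length) (by positivity)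

theorem N2_capw (k : ℕ) {s : ℝ} (hs : Wok s) {w : List Dir} (h : 4 * xt w ≤ w.length)
    (h0 : (pos w).1 = 0) :
    s ^ (4 * w.length - 8 * xt w) * ac w ^ k * 16 ^ (w.length + 1) ≤
      (48 * 7 ^ k * (2 * k).factorial) * (1 / 12) ^ w.length := by
  have hac := N2_ack k h0
  have hac0 : 0 ≤ ac w ^ k := pow_nonneg (ac_nonneg w) k
  obtain ⟨hs0, h1⟩ := hs
  have hs1 : s ≤ 1 := h1.trans (by norm_num)
  have e1 : s ^ (4 * w.length - 8 * xt w) ≤ s ^ (w.length) :=
    pow_le_pow_of_le_one hs0.le hs1 (by omega)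
  calc s ^ (4 * w.length - 8 * xt w) * ac w ^ k * 16 ^ (w.length + 1) ≤
        s ^ w.length * (7 ^ k * (3 * (2 * k).factorial * 4 ^ w.length)) *
          16 ^ (w.length + 1) := by
        refine mul_le_mul_of_nonneg_right (mul_le_mul e1 hac hac0 (by positivity))
          (by positivity)
    _ = (48 * 7 ^ k * (2 * k).factorial) * ((768 * s) ^ w.length * (1 / 12) ^ w.length) := by
        rw [pow_succ, ← mul_pow]
        have : (768 * s * (1 / 12)) ^ w.length =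
            s ^ w.length * 4 ^ w.length * 16 ^ w.length := by
          rw [← mul_pow, ← mul_pow]
          exact congrArg (fun t : ℝ => t ^ w.length) (by ring)
        rw [this]; ring
    _ ≤ (48 * 7 ^ k * (2 * k).factorial) * (1 * (1 / 12) ^ w.length) := by
        refine mul_le_mul_of_nonneg_left (mul_le_mul_of_nonneg_right ?_ (by positivity))
          (by positivity)
        exact pow_le_one₀ (by positivity) (by norm_num at h1 ⊢; linarith)
    _ = _ := by ring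

/-- **Task N2** (with the fields sm): AE ≤ (2 len + 1)(2 len) (AE_le), so `ac^j ≤ (7 (len+1)^2)^j ≤ C_j 4^len` -/
def CLk (s : ℝ) (hs : Wok s) : ℕ → Cap
  | 0 => CL s hs
  | j + 1 =>
    { ρ := {l : List Dir // LC l}
      a := fun l => s ^ (4 * l.1.length - 8 * xt l.1) * ac l.1 ^ (j + 1)
      m := fun l => l.1.length + 1
      x := fun l => -(pos l.1).2.1
      a0 := fun l => mul_nonneg (pow_nonneg hs.1.le _) (pow_nonneg (ac_nonneg _) _)
      xm := fun l => (CL s hs).xm l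
      x0 := fun l => (CL s hs).x0 l
      sm := by
        refine Summable.of_nonneg_of_le (fun l => mul_nonneg (mul_nonneg (pow_nonneg hs.1.le _)
          (pow_nonneg (ac_nonneg _) _)) (by positivity))
          (fun l => N2_capw (j + 1) hs l.2.four l.2.x0)
          ((words12.subtype _).mul_left ((48 : ℝ) * 7 ^ (j + 1) * ((2 * (j + 1)).factorial : ℝ))) }

def CRk (s : ℝ) (hs : Wok s) : ℕ → Cap
  | 0 => CR s hs
  | j + 1 =>
    { ρ := {l : List Dir // RC l}
      a := fun l => s ^ (4 * l.1.length - 8 * xt l.1) * (AE l.1).toReal ^ (j + 1)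
      m := fun l => l.1.length + 1
      x := fun l => (pos l.1).2.1
      a0 := fun l => mul_nonneg (pow_nonneg hs.1.le _) (pow_nonneg ENNReal.toReal_nonneg _)
      xm := fun l => (CR s hs).xm l
      x0 := fun l => (CR s hs).x0 l
      sm := by
        refine Summable.of_nonneg_of_le (fun l => mul_nonneg (mul_nonneg (pow_nonneg hs.1.le _)
          (pow_nonneg ENNReal.toReal_nonneg _)) (by positivity))
          (fun l => ?_)
          ((words12.subtype _).mul_left ((48 : ℝ) * 7 ^ (j + 1) * ((2 * (j + 1)).factorial : ℝ)))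
        refine le_trans ?_ (N2_capw (j + 1) hs l.2.four l.2.x0)
        refine mul_le_mul_of_nonneg_right (mul_le_mul_of_nonneg_left ?_ (pow_nonneg hs.1.le _))
          (by positivity)
        refine pow_le_pow_left₀ ENNReal.toReal_nonneg ?_ (j + 1)
        unfold ac
        have : (0 : ℝ) ≤ ((pos l.1).2.1.natAbs : ℝ) := Nat.cast_nonneg _
        linarith }

theorem N2_cR0 (S T : ℝ≥0∞) : cR 0 S T = Rm S T 0 := by
  funext d
  unfold cR Rm
  refine tsum_congr fun r => ?_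
  rw [pow_zero, one_mul]

theorem N2_cL0 (S T : ℝ≥0∞) : cL 0 S T = Lm S T := by
  funext d
  unfold cL Lm
  refine tsum_congr fun r => ?_
  rw [pow_zero, one_mul]

theorem RV_CRk {s : ℝ} (hs : Wok s) (j : ℕ) {t : ℝ} (ht : 0 ≤ t) (ht2 : t ≤ 2) :
    RV ((CRk s hs j).cv (t : ℂ)) (cR j (ENNReal.ofReal s) (ENNReal.ofReal t)) := by
  cases j with
  | zero =>
    rw [N2_cR0]
    exact RV_CR hs ht ht2
  | succ j =>
    intro d
    obtain ⟨y, h1, h2, h3⟩ := cap_val (CRk s hs (j + 1)) ht ht2 d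
    refine ⟨y, h1, h2, ?_⟩
    rw [h3]
    unfold cR
    have e : ∀ r : {r : List Dir // RC r}, (if (CRk s hs (j + 1)).x r = d then
        ENNReal.ofReal ((CRk s hs (j + 1)).a r * t ^ (CRk s hs (j + 1)).m r) else 0) =
        (fun r : List Dir => if Pl r ∧ RA (pt d) r ∧ IR r then
          AE r ^ (j + 1) * (ωa (ENNReal.ofReal s) r * ENNReal.ofReal t ^ (r.length + 1)) else 0) r.1 := by
      rintro ⟨r, hr⟩
      have hx : (CRk s hs (j + 1)).x (⟨r, hr⟩ : {r : List Dir // RC r}) = (pos r).2.1 := rfl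
      have ha : (CRk s hs (j + 1)).a (⟨r, hr⟩ : {r : List Dir // RC r}) =
        s ^ (4 * r.length - 8 * xt r) * (AE r).toReal ^ (j + 1) := rfl
      have hm : (CRk s hs (j + 1)).m (⟨r, hr⟩ : {r : List Dir // RC r}) = r.length + 1 := rfl
      rw [hx, ha, hm]
      simp only
      by_cases hd : (pos r).2.1 = d
      · have hp : pos r = pt d := by rw [← hd]; exact hr.pt
        have hfin := AE_ne hr.x0
        obtain ⟨k1, D, k2, k3⟩ := hr
        have hD : D = pt d := by rw [← k2.en, hp]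
        rw [if_pos hd, if_pos ⟨k1, hD ▸ k2, k3⟩, ENNReal.ofReal_mul (mul_nonneg
          (pow_nonneg hs.1.le _) (pow_nonneg ENNReal.toReal_nonneg _)), ENNReal.ofReal_mul
          (pow_nonneg hs.1.le _), ofReal_ωa hs.1, ENNReal.ofReal_pow ht,
          ENNReal.ofReal_pow ENNReal.toReal_nonneg, ENNReal.ofReal_toReal hfin]
        ring
      · rw [if_neg hd, if_neg]
        rintro ⟨k1, k2, k3⟩
        apply hd
        rw [k2.en]; rfl
    refine (tsum_congr e).trans ?_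
    refine (tsum_subtype {r : List Dir | RC r} (fun r : List Dir => if Pl r ∧ RA (pt d) r ∧ IR r then
          AE r ^ (j + 1) * (ωa (ENNReal.ofReal s) r * ENNReal.ofReal t ^ (r.length + 1)) else 0)).trans ?_
    refine tsum_congr fun r => ?_
    by_cases hr : r ∈ {r : List Dir | RC r}
    · rw [Set.indicator_of_mem hr]
    · rw [Set.indicator_of_notMem hr, if_neg]
      rintro ⟨k1, k2, k3⟩
      exact hr ⟨k1, _, k2, k3⟩

theorem RV_CLk {s : ℝ} (hs : Wok s) (j : ℕ) {t : ℝ} (ht : 0 ≤ t) (ht2 : t ≤ 2) :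
    RV ((CLk s hs j).cv (t : ℂ)) (cL j (ENNReal.ofReal s) (ENNReal.ofReal t)) := by
  cases j with
  | zero =>
    rw [N2_cL0]
    exact RV_CL hs ht ht2
  | succ j =>
    intro d
    obtain ⟨y, h1, h2, h3⟩ := cap_val (CLk s hs (j + 1)) ht ht2 d
    refine ⟨y, h1, h2, ?_⟩
    rw [h3]
    unfold cL
    have e : ∀ r : {r : List Dir // LC r}, (if (CLk s hs (j + 1)).x r = d then
        ENNReal.ofReal ((CLk s hs (j + 1)).a r * t ^ (CLk s hs (j + 1)).m r) else 0) =
        (fun r : List Dir => if Pl r ∧ LA (pt d) r ∧ IL r then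
          (AE r + (d.natAbs : ℝ≥0∞)) ^ (j + 1) * (ωa (ENNReal.ofReal s) r *
            ENNReal.ofReal t ^ (r.length + 1)) else 0) r.1 := by
      rintro ⟨r, hr⟩
      have hx : (CLk s hs (j + 1)).x (⟨r, hr⟩ : {r : List Dir // LC r}) = -(pos r).2.1 := rfl
      have ha : (CLk s hs (j + 1)).a (⟨r, hr⟩ : {r : List Dir // LC r}) =
        s ^ (4 * r.length - 8 * xt r) * ac r ^ (j + 1) := rfl
      have hm : (CLk s hs (j + 1)).m (⟨r, hr⟩ : {r : List Dir // LC r}) = r.length + 1 := rfl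
      rw [hx, ha, hm]
      simp only
      by_cases hd : -(pos r).2.1 = d
      · have hp : pos r = -pt d := by rw [← hd]; exact hr.pt
        have hfin := AE_ne hr.x0
        obtain ⟨k1, D, k2, k3⟩ := hr
        have hD : D = pt d := by
          have := k2.en
          rw [hp] at this
          exact (neg_injective this).symm
        have hna : (pos r).2.1.natAbs = d.natAbs := by omega
        rw [if_pos hd, if_pos ⟨k1, hD ▸ k2, k3⟩, ENNReal.ofReal_mul (mul_nonneg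
          (pow_nonneg hs.1.le _) (pow_nonneg (ac_nonneg _) _)), ENNReal.ofReal_mul
          (pow_nonneg hs.1.le _), ofReal_ωa hs.1, ENNReal.ofReal_pow ht,
          ENNReal.ofReal_pow (ac_nonneg _)]
        unfold ac
        rw [hna, ENNReal.ofReal_add ENNReal.toReal_nonneg (Nat.cast_nonneg _),
          ENNReal.ofReal_toReal hfin, ENNReal.ofReal_natCast]
        ring
      · rw [if_neg hd, if_neg]
        rintro ⟨k1, k2, k3⟩
        exact hd (la_unique k2).symm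
    refine (tsum_congr e).trans ?_
    refine (tsum_subtype {r : List Dir | LC r} (fun r : List Dir => if Pl r ∧ LA (pt d) r ∧ IL r then
          (AE r + (d.natAbs : ℝ≥0∞)) ^ (j + 1) * (ωa (ENNReal.ofReal s) r *
            ENNReal.ofReal t ^ (r.length + 1)) else 0)).trans ?_
    refine tsum_congr fun r => ?_
    by_cases hr : r ∈ {r : List Dir | LC r}
    · rw [Set.indicator_of_mem hr]
    · rw [Set.indicator_of_notMem hr, if_neg]
      rintro ⟨k1, k2, k3⟩
      exact hr ⟨k1, _, k2, k3⟩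

end
end KN.SQ
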