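import Pool.Agent.H132.SQ.X1
import Pool.Agent.H132.SQ.X5

/-!
# Nonnegative vectors and operators with multipliers
-/

set_option autoImplicit false

namespace KN.SQ

open KN KN.ST Finset Filter Topology
open scoped Classical ENNReal ComplexOrder

noncomputable section

namespace LnK

theorem add_RV {f h : H} {g k : ℤ → ℝ≥0∞} (h1 : RV f g) (h2 : RV h k) :
    RV (f + h) (g + k) := by
  intro d
  obtain ⟨y, hy0, hy1, hy2⟩ := h1 d
  obtain ⟨z, hz0, hz1, hz2⟩ := h2 d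
  refine ⟨y + z, add_nonneg hy0 hz0, ?_, ?_⟩
  · have : (f + h) d = f d + h d := rfl
    rw [this, hy1, hz1]; push_cast; rfl
  · rw [ENNReal.ofReal_add hy0 hz0, hy2, hz2]; rfl

theorem Kg_at_zero {S T : ℝ≥0∞} {μ : Blk → ℤ → ℝ≥0∞} (g : ℤ → ℝ≥0∞) : Kg S T μ g 0 = 0 := by
  unfold Kg
  rw [ENNReal.tsum_eq_zero]
  intro b
  rw [if_neg]
  intro h
  exact h.1.ne.1 rfl

section real

variable {s : ℝ} (hs : Wok s) {t : ℝ}

/-- operators with multipliers -/
theorem Om_RV (X : Mul (MM s hs)) {μ : Blk → ℤ → ℝ≥0∞}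
    (m0 : ∀ b d, 0 ≤ X.m b d) (z0 : ∀ d, 0 ≤ X.z d) (m00 : ∀ b, X.m b 0 = 0) (z00 : X.z 0 = 0)
    (hz : ∀ d, μ S0 d = ENNReal.ofReal (X.z d))
    (hm : ∀ (b : (MM s hs).ι) d, (MM s hs).P b d → μ b.1 d = ENNReal.ofReal (X.m b d))
    (hmP : ∀ (b : (MM s hs).ι) d, ¬ (MM s hs).P b d → X.m b d = 0)
    (ht : 0 ≤ t) (ht2 : t ≤ 2) {f : H} {g : ℤ → ℝ≥0∞} (h : RV f g) :
    RV (X.Om (t : ℂ) f) (Kg (ENNReal.ofReal s) (ENNReal.ofReal t) μ g) := by
  have hn : ‖(t : ℂ)‖ ≤ 2 := by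
    rw [Complex.norm_real, Real.norm_eq_abs, abs_of_nonneg ht]; exact ht2
  intro d
  choose y hy0 hy1 hy2 using h
  have hN := X.Om_val hn f d
  have e1 : ∀ b : (MM s hs).ι, (MM s hs).w (t : ℂ) b *
      ((X.m b d : ℂ) * f (d - (MM s hs).v b)) =
      (((MM s hs).c b * t ^ ((MM s hs).L b + 2) * (X.m b d * y (d - (MM s hs).v b)) : ℝ) : ℂ) := by
    intro b
    unfold Mdl.w
    rw [hy1]; push_cast; ring
  simp only [e1] at hN
  have hsum : Summable fun b : (MM s hs).ι => (MM s hs).c b * t ^ ((MM s hs).L b + 2) *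
        (X.m b d * y (d - (MM s hs).v b)) :=
    Complex.summable_ofReal.1 hN.summable
  have h0 : ∀ b : (MM s hs).ι, 0 ≤ (MM s hs).c b * t ^ ((MM s hs).L b + 2) *
        (X.m b d * y (d - (MM s hs).v b)) := by
    intro b
    exact mul_nonneg (mul_nonneg ((MM s hs).c0 b) (pow_nonneg ht _))
      (mul_nonneg (m0 b d) (hy0 _))
  have hval : X.Om (t : ℂ) f d =
      ((t ^ 2 * (X.z d * y d) + ∑' b : (MM s hs).ι, (MM s hs).c b *
        t ^ ((MM s hs).L b + 2) * (X.m b d * y (d - (MM s hs).v b)) : ℝ) : ℂ) := by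
    have h2 := hN.tsum_eq
    rw [← Complex.ofReal_tsum, hy1] at h2
    push_cast at h2 ⊢
    rw [h2]
    ring
  by_cases hd : d = 0
  · subst hd
    refine ⟨0, le_rfl, ?_, ?_⟩
    · rw [hval]
      have h3 : ∀ b : (MM s hs).ι, (MM s hs).c b * t ^ ((MM s hs).L b + 2) *
        (X.m b 0 * y (0 - (MM s hs).v b)) = 0 := by
        intro b
        rw [m00]; ring
      simp only [h3, tsum_zero, z00]
      simp
    · rw [Kg_at_zero]; simp
  · refine ⟨_, add_nonneg (mul_nonneg (sq_nonneg _) (mul_nonneg (z0 d) (hy0 d)))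
      (tsum_nonneg h0), hval, ?_⟩
    rw [ENNReal.ofReal_add (mul_nonneg (sq_nonneg _) (mul_nonneg (z0 d) (hy0 d)))
      (tsum_nonneg h0), ENNReal.ofReal_tsum_of_nonneg h0 hsum]
    unfold Kg
    rw [fb_split hd]
    congr 1
    · have e2 : d - (dv S0).2.1 = d := by simp [dv, S0, pos]
      have e3 : ωb (ENNReal.ofReal s) S0 = 1 := by simp [ωb, S0, bl, wd, pos]
      have e4 : bl S0 = 0 := by simp [S0, bl]
      rw [e2, e3, e4, hz, one_mul, zero_add, ENNReal.ofReal_mul (sq_nonneg _),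
        ENNReal.ofReal_pow ht, ENNReal.ofReal_mul (z0 d), hy2]
    · refine tsum_congr fun b => ?_
      have hc : (MM s hs).c b = s ^ (4 * bl b.1 - 8 * wd b.1) := rfl
      have hL : (MM s hs).L b = bl b.1 := rfl
      have hv : (MM s hs).v b = (dv b.1).2.1 := rfl
      have hP : (MM s hs).P b d ↔ Pc (pt d) (nxt (pt d) b.1) b.1 := Iff.rfl
      rw [hc, hL, hv]
      by_cases hp : Pc (pt d) (nxt (pt d) b.1) b.1
      · rw [if_pos hp, hm b d (hP.2 hp), ENNReal.ofReal_mul (mul_nonneg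
          (pow_nonneg hs.1.le _) (pow_nonneg ht _)), ENNReal.ofReal_mul
          (pow_nonneg hs.1.le _), ofReal_ωb hs.1, ENNReal.ofReal_pow ht,
          ENNReal.ofReal_mul (m0 b d), hy2]
      · rw [if_neg hp, hmP b d (fun h => hp (hP.1 h)), zero_mul, mul_zero, ENNReal.ofReal_zero]

theorem ar_nonneg (b : (MM s hs).ι) (d : ℤ) : 0 ≤ (KK s hs).ar b d :=
  add_nonneg ENNReal.toReal_nonneg (Nat.cast_nonneg _)

theorem aN_S0 (N : ℕ) (d : ℤ) :
    aN N S0 d = ENNReal.ofReal (if d.natAbs ≤ N then (d.natAbs : ℝ) else 0) := by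
  have e2 : d - (dv S0).2.1 = d := by simp [dv, S0, pos]
  unfold aN
  rw [e2, AB_S0, zero_add]
  split_ifs
  · rw [ENNReal.ofReal_natCast]
  · rw [ENNReal.ofReal_zero]

theorem aN_b (N : ℕ) (b : (MM s hs).ι) (d : ℤ) (hP : (MM s hs).P b d) :
    aN N b.1 d = ENNReal.ofReal
      (if (MM s hs).P b d ∧ d.natAbs ≤ N then (KK s hs).ar b d else 0) := by
  have hp : Pc (pt d) (nxt (pt d) b.1) b.1 := hP
  have hfin := (AB_bd hp b.2.2.1 b.2.2.2.1).1
  have hA : (KK s hs).ar b d = (AB b.1 (d - (dv b.1).2.1)).toReal +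
    ((d - (dv b.1).2.1).natAbs : ℝ) := rfl
  unfold aN
  by_cases h : d.natAbs ≤ N
  · rw [if_pos h, if_pos ⟨hP, h⟩, hA, ENNReal.ofReal_add ENNReal.toReal_nonneg
      (Nat.cast_nonneg _), ENNReal.ofReal_toReal hfin, ENNReal.ofReal_natCast]
  · rw [if_neg h, if_neg (fun h' => h h'.2), ENNReal.ofReal_zero]

end real

end LnK

end

end KN.SQ
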