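import Pool.Agent.H132.SQ.GM4
import Pool.Agent.H132.SQ.G7
import Pool.Agent.H132.SQ.G8
import Pool.Agent.H132.SQ.GLa

/-!
# The generating functions of the moments
-/

set_option autoImplicit false

namespace KN.SQ

open KN KN.ST Finset Filter Topology
open scoped Classical ENNReal ComplexOrder

noncomputable section

namespace LnK

theorem nsmul_RV (c : ℕ) {f : H} {g : ℤ → ℝ≥0∞} (h : RV f g) :
    RV ((c : ℂ) • f) (fun d => (c : ℝ≥0∞) * g d) := by
  intro d
  obtain ⟨y, hy0, hy1, hy2⟩ := h d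
  refine ⟨c * y, by positivity, ?_, ?_⟩
  · have : ((c : ℂ) • f) d = (c : ℂ) * f d := rfl
    rw [this, hy1]; push_cast; rfl
  · rw [ENNReal.ofReal_mul (Nat.cast_nonneg _), hy2, ENNReal.ofReal_natCast]

theorem zero_RV : RV (0 : H) (fun _ => 0) := by
  intro d
  exact ⟨0, le_rfl, by simp, by simp⟩

theorem sum_RV {ι : Type} (s : Finset ι) {f : ι → H} {g : ι → ℤ → ℝ≥0∞}
    (h : ∀ i, RV (f i) (g i)) : RV (∑ i ∈ s, f i) (fun d => ∑ i ∈ s, g i d) := by
  induction s using Finset.induction_on with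
  | empty => simpa using zero_RV
  | insert a s ha ih =>
    simp only [Finset.sum_insert ha]
    exact add_RV (h a) ih

section real

variable {s : ℝ} (hs : Wok s) {t : ℝ}

theorem OmK_RV (N : ℕ) {j : ℕ} (hj : 1 ≤ j) (ht : 0 ≤ t) (ht2 : t ≤ 2) {f : H} {g : ℤ → ℝ≥0∞}
    (h : RV f g) : RV ((XK s hs N j).Om (t : ℂ) f)
      (Kg (ENNReal.ofReal s) (ENNReal.ofReal t) (fun b d => aN N b d ^ j) g) := by
  have e1 : ∀ (b : (MM s hs).ι) (d : ℤ), (XK s hs N j).m b d =
      (if (MM s hs).P b d ∧ d.natAbs ≤ N then (KK s hs).ar b d else 0) ^ j := by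
    intro b d
    show (if (MM s hs).P b d ∧ d.natAbs ≤ N then (KK s hs).ar b d ^ j else 0) = _
    split_ifs
    · rfl
    · rw [zero_pow (by omega)]
  have e2 : ∀ d : ℤ, (XK s hs N j).z d = (if d.natAbs ≤ N then (d.natAbs : ℝ) else 0) ^ j := by
    intro d
    show (if d.natAbs ≤ N then (d.natAbs : ℝ) ^ j else 0) = _
    split_ifs
    · rfl
    · rw [zero_pow (by omega)]
  have n1 : ∀ (b : (MM s hs).ι) (d : ℤ), (0 : ℝ) ≤
      (if (MM s hs).P b d ∧ d.natAbs ≤ N then (KK s hs).ar b d else 0) := by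
    intro b d
    split_ifs
    · exact ar_nonneg hs b d
    · exact le_rfl
  have n2 : ∀ d : ℤ, (0 : ℝ) ≤ (if d.natAbs ≤ N then (d.natAbs : ℝ) else 0) := by
    intro d
    split_ifs
    · positivity
    · exact le_rfl
  have p0 : ∀ (b : (MM s hs).ι) (d : ℤ), ¬ (MM s hs).P b d → (XK s hs N j).m b d = 0 := by
    intro b d hP
    rw [e1, if_neg (fun h => hP h.1), zero_pow (by omega)]
  refine Om_RV hs (XK s hs N j) (fun b d => ?_) (fun d => ?_) (fun b => p0 b 0 ((MM s hs).P0 b))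
    ?_ (fun d => ?_) (fun b d hP => ?_) p0 ht ht2 h
  · rw [e1]; exact pow_nonneg (n1 b d) _
  · rw [e2]; exact pow_nonneg (n2 d) _
  · rw [e2]
    have : (if (0 : ℤ).natAbs ≤ N then ((0 : ℤ).natAbs : ℝ) else 0) = 0 := by simp
    rw [this, zero_pow (by omega)]
  · rw [e2, ENNReal.ofReal_pow (n2 d), ← aN_S0]
  · rw [e1, ENNReal.ofReal_pow (n1 b d), ← aN_b hs N b d hP]

/-- the caps -/
def CSk (s : ℝ) (hs : Wok s) : CapS := ⟨CLk s hs, CRk s hs⟩

theorem cR_at_zero (k : ℕ) (S T : ℝ≥0∞) : cR k S T 0 = 0 := by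
  unfold cR
  rw [ENNReal.tsum_eq_zero]
  intro r
  rw [if_neg]
  rintro ⟨-, h, -⟩
  exact h.ne rfl

theorem VK_RV (N : ℕ) (ht : 0 ≤ t) (ht1 : t < (MM s hs).qc) (k : ℕ) :
    RV (VK (XK s hs N) (CSk s hs) (t : ℂ) k)
      (RK N (ENNReal.ofReal s) (ENNReal.ofReal t) k) := by
  have hqc := (MM s hs).qc_lt
  have ht2 : t ≤ 2 := by linarith
  induction k using Nat.strong_induction_on with
  | _ k ih =>
    rw [VK, RK]
    refine RV.G hs ht ht1 ?_ ?_
    · refine add_RV ?_ (RV_CRk hs k ht ht2)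
      refine sum_RV Finset.univ fun j => ?_
      exact nsmul_RV _ (OmK_RV hs N (by omega) ht ht2 (ih _ (by omega)))
    · simp only [cR_at_zero, add_zero]
      refine Finset.sum_eq_zero fun j _ => ?_
      rw [Kg_at_zero, mul_zero]

theorem sum_val {ι : Type} (u : Finset ι) {f : ι → ℂ} {g : ι → ℝ≥0∞}
    (h : ∀ i, ∃ y : ℝ, 0 ≤ y ∧ f i = (y : ℂ) ∧ ENNReal.ofReal y = g i) :
    ∃ y : ℝ, 0 ≤ y ∧ ∑ i ∈ u, f i = (y : ℂ) ∧ ENNReal.ofReal y = ∑ i ∈ u, g i := by
  choose y h0 h1 h2 using h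
  refine ⟨∑ i ∈ u, y i, Finset.sum_nonneg fun i _ => h0 i, ?_, ?_⟩
  · simp only [h1]; push_cast; rfl
  · rw [ENNReal.ofReal_sum_of_nonneg fun i _ => h0 i]
    exact Finset.sum_congr rfl fun i _ => h2 i

/-- the generating functions of the moments on the real line -/
theorem MK_val (N k : ℕ) (ht : 0 ≤ t) (ht1 : t < (MM s hs).qc) : ∃ y : ℝ, 0 ≤ y ∧
    MK (XK s hs N) (CSk s hs) k (t : ℂ) = (y : ℂ) ∧
    ENNReal.ofReal y = ∑' n : ℕ, AnK N k (ENNReal.ofReal s) n * ENNReal.ofReal t ^ n := by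
  have hqc := (MM s hs).qc_lt
  have ht2 : t ≤ 2 := by linarith
  rw [AnK_pair]
  unfold MK
  refine sum_val _ fun j => ?_
  obtain ⟨y, h0, h1, h2⟩ := (RV_CLk hs j ht ht2).pair (VK_RV hs N ht ht1 (k - j))
  refine ⟨(k.choose j : ℝ) * y, by positivity, ?_, ?_⟩
  · have : B (((CSk s hs).l j).cv (t : ℂ)) (VK (XK s hs N) (CSk s hs) (t : ℂ) (k - j)) = (y : ℂ) :=
      h1
    rw [this]; push_cast; rfl
  · rw [ENNReal.ofReal_mul (Nat.cast_nonneg _), h2, ENNReal.ofReal_natCast]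

end real

end LnK

section real

variable {s : ℝ} (hs : Wok s) {t : ℝ}

include hs in
theorem AnK_fin (N k n : ℕ) : AnK N k (ENNReal.ofReal s) n ≠ ⊤ := by
  have hqc := (MM s hs).qc_ge
  obtain ⟨y, -, -, h⟩ := LnK.MK_val hs N k (t := 1 / 2) (by norm_num) (by linarith)
  intro htop
  have h1 : ∑' n : ℕ, AnK N k (ENNReal.ofReal s) n * ENNReal.ofReal (1 / 2) ^ n = ⊤ := by
    refine ENNReal.tsum_eq_top_of_eq_top ⟨n, ?_⟩
    rw [htop, ENNReal.top_mul]
    exact pow_ne_zero _ (by simp)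
  rw [h1] at h
  exact ENNReal.ofReal_ne_top h

/-- the coefficients as real numbers -/
def anK (s : ℝ) (N k n : ℕ) : ℝ := (AnK N k (ENNReal.ofReal s) n).toReal

theorem anK_hasSum_real (N k : ℕ) (ht : 0 ≤ t) (ht1 : t < (MM s hs).qc) :
    HasSum (fun n => (anK s N k n : ℂ) * (t : ℂ) ^ n)
      (MK (XK s hs N) (LnK.CSk s hs) k (t : ℂ)) := by
  obtain ⟨y, h0, h1, h2⟩ := LnK.MK_val hs N k ht ht1
  have h3 : ∀ n, AnK N k (ENNReal.ofReal s) n * ENNReal.ofReal t ^ n =
      ENNReal.ofReal (anK s N k n * t ^ n) := by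
    intro n
    unfold anK
    rw [ENNReal.ofReal_mul ENNReal.toReal_nonneg, ENNReal.ofReal_toReal (AnK_fin hs N k n),
      ENNReal.ofReal_pow ht]
  simp only [h3] at h2
  have hnn : ∀ n, 0 ≤ anK s N k n * t ^ n :=
    fun n => mul_nonneg ENNReal.toReal_nonneg (pow_nonneg ht _)
  have hne : ∑' n : ℕ, ENNReal.ofReal (anK s N k n * t ^ n) ≠ ⊤ := by
    rw [← h2]; exact ENNReal.ofReal_ne_top
  have h4 : Summable fun n => anK s N k n * t ^ n := by
    have := ENNReal.summable_toReal hne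
    refine this.congr fun n => ?_
    rw [ENNReal.toReal_ofReal (hnn n)]
  have h5 : y = ∑' n, anK s N k n * t ^ n := by
    rw [← ENNReal.ofReal_tsum_of_nonneg hnn h4] at h2
    exact (ENNReal.ofReal_eq_ofReal_iff h0 (tsum_nonneg hnn)).1 h2
  rw [h1, h5]
  have h6 := Complex.hasSum_ofReal.2 h4.hasSum
  refine h6.congr_fun'' fun n => ?_
  push_cast; rfl

theorem anK_summable (N k : ℕ) {q : ℂ} (hq : ‖q‖ < (MM s hs).qc) :
    Summable (fun n => (anK s N k n : ℂ) * q ^ n) := by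
  have h1 := (anK_hasSum_real hs N k (norm_nonneg q) hq).summable
  have h2 : Summable fun n => anK s N k n * ‖q‖ ^ n := by
    have : (fun n => (anK s N k n : ℂ) * ((‖q‖ : ℝ) : ℂ) ^ n) =
        fun n => ((anK s N k n * ‖q‖ ^ n : ℝ) : ℂ) := by
      funext n; push_cast; rfl
    rw [this] at h1
    exact Complex.summable_ofReal.1 h1
  refine Summable.of_norm_bounded h2 fun n => ?_
  rw [norm_mul, norm_pow, Complex.norm_real, Real.norm_eq_abs,
    abs_of_nonneg (show 0 ≤ anK s N k n from ENNReal.toReal_nonneg)]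

/-- the generating functions of the moments -/
theorem anK_hasSum (N k : ℕ) {q : ℂ} (hq : q ∈ Ker.VV (MM s hs)) :
    HasSum (fun n => (anK s N k n : ℂ) * q ^ n)
      (MK (XK s hs N) (LnK.CSk s hs) k q) := by
  have hqc0 := (MM s hs).qc_pos
  have hqc := (MM s hs).qc_lt
  set f : ℂ → ℂ := fun q => ∑' n, (anK s N k n : ℂ) * q ^ n with hf
  have hsum : ∀ q : ℂ, ‖q‖ < (MM s hs).qc → HasSum (fun n => (anK s N k n : ℂ) * q ^ n) (f q) :=
    fun q hq => (anK_summable hs N k hq).hasSum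
  have hsub : Ker.VV (MM s hs) ⊆ Metric.ball 0 (MM s hs).qc := fun p hp => by
    simpa using hp.1
  have h1 : DifferentiableOn ℂ f (Metric.ball 0 (MM s hs).qc) := (ser_iter hqc0 hsum).1
  have h2 : DifferentiableOn ℂ (MK (XK s hs N) (LnK.CSk s hs) k)
      (MM s hs).U := MK_diff _ _ _
  have h3 := (h1.mono hsub).analyticOnNhd (Ker.VV_open _)
  have h4 := (h2.mono (Ker.VV_sub _)).analyticOnNhd (Ker.VV_open _)
  have hz : (0 : ℂ) ∈ Ker.VV (MM s hs) := ⟨by simpa using hqc0, by simp⟩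
  have h5 : Set.EqOn f (MK (XK s hs N) (LnK.CSk s hs) k)
      (Ker.VV (MM s hs)) := by
    refine h3.eqOn_of_preconnected_of_frequently_eq h4 (VV_preconnected _) (z₀ := 0) hz ?_
    have h6 : Tendsto (fun k : ℕ => ((1 / ((k : ℝ) + 2) : ℝ) : ℂ)) atTop (𝓝[≠] 0) := by
      rw [tendsto_nhdsWithin_iff]
      refine ⟨?_, Eventually.of_forall fun k => ?_⟩
      · have h7 : Tendsto (fun k : ℕ => (1 / ((k : ℝ) + 2) : ℝ)) atTop (𝓝 0) := by
          have := (tendsto_atTop_add_const_right atTop (2 : ℝ)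
            tendsto_natCast_atTop_atTop).inv_tendsto_atTop
          refine this.congr fun k => ?_
          simp
        have := (Complex.continuous_ofReal.tendsto 0).comp h7
        rw [Complex.ofReal_zero] at this
        exact this
      · simp only [Set.mem_compl_iff, Set.mem_singleton_iff, Complex.ofReal_eq_zero]
        positivity
    refine h6.frequently (Eventually.frequently ?_)
    filter_upwards with i
    have hk : (0 : ℝ) ≤ 1 / ((i : ℝ) + 2) := by positivity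
    have hk1 : 1 / ((i : ℝ) + 2) < (MM s hs).qc := by
      have h8 : 1 / ((i : ℝ) + 2) ≤ 1 / 2 := by
        apply one_div_le_one_div_of_le (by norm_num)
        have : (0 : ℝ) ≤ i := Nat.cast_nonneg i
        linarith
      have := (MM s hs).qc_ge
      linarith
    exact (hsum _ (by
      rw [Complex.norm_real, Real.norm_eq_abs, abs_of_nonneg hk]; exact hk1)).unique
      (anK_hasSum_real hs N k hk hk1)
  rw [← h5 hq]
  exact hsum q hq.1

end real

end

end KN.SQ
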