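import Pool.Agent.H132.SQ.G0

/-!
# Differentiability of the moments
-/

set_option autoImplicit false

namespace KN.SQ
open Finset Filter Topology
open scoped Classical ENNReal ComplexConjugate
noncomputable section
section
variable {M : Mdl}

theorem MK_diff (Xs : ℕ → Mul M) (C : CapS) (k : ℕ) : DifferentiableOn ℂ (MK Xs C k) M.U := by
  have hsub : M.U ⊆ Metric.ball 0 2 := fun q hq => mem_ball_zero_iff.2 hq.1
  have hcv : ∀ C : Cap, DifferentiableOn ℂ (fun q => C.cv q) M.U := fun C q hq =>
    (C.cv_deriv hq.1).differentiableAt.differentiableWithinAt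
  have hG : DifferentiableOn ℂ (fun q => M.G q) M.U := fun q hq =>
    (Mdl.G_deriv hq.1 (M.isUnit_of_U hq)).differentiableAt.differentiableWithinAt
  have hO : ∀ X : Mul M, DifferentiableOn ℂ (fun q => X.Om q) M.U := fun X => X.Om_diff.mono hsub
  have hB : ∀ f g : ℂ → H, DifferentiableOn ℂ f M.U → DifferentiableOn ℂ g M.U →
      DifferentiableOn ℂ (fun q => B (f q) (g q)) M.U := fun f g hf hg =>
    (Bc.differentiable.comp_differentiableOn hf).clm_apply hg
  have hV : ∀ k, DifferentiableOn ℂ (fun q => VK Xs C q k) M.U := by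
    intro k
    induction k using Nat.strong_induction_on with
    | _ k ih =>
      have e : (fun q => VK Xs C q k) = fun q => M.G q ((∑ j : Fin k, (k.choose (j + 1) : ℂ) •
          (Xs (j + 1)).Om q (VK Xs C q (k - 1 - j))) + (C.r k).cv q) := by
        funext q; rw [VK]
      rw [e]
      refine hG.clm_apply (DifferentiableOn.add (DifferentiableOn.fun_sum fun j _ => ?_) (hcv _))
      have h1 : DifferentiableOn ℂ (fun q => (Xs (j + 1)).Om q (VK Xs C q (k - 1 - j))) M.U :=
        (hO _).clm_apply (ih (k - 1 - j) (by have := j.2; omega))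
      exact h1.const_smul (k.choose (j + 1) : ℂ)
  have e : MK Xs C k = fun q => ∑ j ∈ range (k + 1), (k.choose j : ℂ) *
      B ((C.l j).cv q) (VK Xs C q (k - j)) := by funext q; rfl
  rw [e]
  refine DifferentiableOn.fun_sum fun j _ => ?_
  exact (hB _ _ (hcv _) (hV _)).const_mul _

end
end
end KN.SQ
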