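import Pool.Agent.H132.SQ.GM7
import Pool.Agent.H132.SQ.GM4

/-!
# The coefficients of the moments
-/

set_option autoImplicit false

namespace KN.SQ
open Finset Filter Topology
open scoped Classical ENNReal ComplexConjugate
noncomputable section
section
variable {M : Mdl}
theorem M8_even {m : ℕ} {R : ℝ} (hR : 0 < R) {q : ℂ} (hq : ‖q‖ < R) :
    HasSum (fun j : ℕ => ((if Even j then cm m (j / 2) / R ^ j else 0 : ℝ) : ℂ) * q ^ j)
      ((((1 - (q / R) ^ 2) ^ (2 : ℂ)⁻¹)⁻¹) ^ m) := by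
  have hRc : (R : ℂ) ≠ 0 := by exact_mod_cast hR.ne'
  have h1 : ‖(q / R) ^ 2‖ < 1 := by
    rw [norm_pow, norm_div, Complex.norm_real, Real.norm_eq_abs, abs_of_pos hR]
    have : ‖q‖ / R < 1 := (div_lt_one hR).2 hq
    exact pow_lt_one₀ (by positivity) this (by norm_num)
  have h2 := cm_hasSum (m := m) h1
  have hinj : Function.Injective fun n : ℕ => 2 * n := fun a b h => by
    simp only at h; omega
  have h3 := hinj.hasSum_iff (f := fun j : ℕ =>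
    ((if Even j then cm m (j / 2) / R ^ j else 0 : ℝ) : ℂ) * q ^ j)
    (a := ((((1 - (q / R) ^ 2) ^ (2 : ℂ)⁻¹)⁻¹) ^ m)) (fun j hj => by
      have : ¬ Even j := fun ⟨k, hk⟩ => hj ⟨k, by simp only; omega⟩
      simp only [if_neg this, Complex.ofReal_zero, zero_mul])
  rw [← h3]
  refine h2.congr_fun'' fun n => ?_
  have he : Even (2 * n) := ⟨n, by ring⟩
  have hd : 2 * n / 2 = n := by omega
  simp only [Function.comp, if_pos he, hd]
  push_cast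
  rw [pow_mul, pow_mul, div_pow, div_pow]
  field_simp

/-- the coefficients of the remainder -/
def M8_r (M : Mdl) (m : ℕ) (D : ℝ) (c : ℕ → ℝ) (j : ℕ) : ℂ :=
  (c j : ℂ) - (D : ℂ) * ((if Even j then cm m (j / 2) / M.qc ^ j else 0 : ℝ) : ℂ)

/-- the remainder on the disc -/
def M8_f (M : Mdl) (m : ℕ) (D : ℝ) (c : ℕ → ℝ) (q : ℂ) : ℂ := ∑' j, M8_r M m D c j * q ^ j

theorem M8_hasSum {m : ℕ} {D : ℝ} {c : ℕ → ℝ}
    (hs : ∀ q : ℂ, ‖q‖ < M.qc → Summable (fun n => (c n : ℂ) * q ^ n))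
    {q : ℂ} (hq : ‖q‖ < M.qc) :
    HasSum (fun j => M8_r M m D c j * q ^ j) (M8_f M m D c q) := by
  have h2 := (M8_even (m := m) M.qc_pos hq).mul_left (D : ℂ)
  have h3 := ((hs q hq).hasSum.sub h2).summable
  refine Summable.hasSum (h3.congr fun j => ?_)
  unfold M8_r; ring

theorem M8_eq {m : ℕ} {D : ℝ} {c : ℕ → ℝ} {F : ℂ → ℂ}
    (hs : ∀ q : ℂ, ‖q‖ < M.qc → Summable (fun n => (c n : ℂ) * q ^ n))
    (hF : ∀ q ∈ Ker.VV M, HasSum (fun n => (c n : ℂ) * q ^ n) (F q))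
    {q : ℂ} (hq : q ∈ Ker.VV M) :
    M8_f M m D c q = F q - (D : ℂ) * (((1 - (q / M.qc) ^ 2) ^ (2 : ℂ)⁻¹)⁻¹) ^ m := by
  have h2 := (M8_even (m := m) M.qc_pos hq.1).mul_left (D : ℂ)
  refine (M8_hasSum hs hq.1).unique (((hF q hq).sub h2).congr_fun'' fun j => ?_)
  unfold M8_r; ring

theorem M8_evenf {m : ℕ} {D : ℝ} {c : ℕ → ℝ}
    (hs : ∀ q : ℂ, ‖q‖ < M.qc → Summable (fun n => (c n : ℂ) * q ^ n))
    (ho : ∀ n, Odd n → c n = 0) {q : ℂ} (hq : ‖q‖ < M.qc) :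
    M8_f M m D c (-q) = M8_f M m D c q := by
  have h1 := M8_hasSum (m := m) (D := D) hs hq
  have h2 := M8_hasSum (m := m) (D := D) hs (q := -q) (by rwa [norm_neg])
  have h3 : HasSum (fun j => M8_r M m D c j * (-q) ^ j) (M8_f M m D c q) := by
    refine h1.congr_fun'' fun j => ?_
    rcases Nat.even_or_odd j with he | hod
    · rw [he.neg_pow]
    · have : M8_r M m D c j = 0 := by
        unfold M8_r
        rw [ho j hod, if_neg (Nat.not_even_iff_odd.2 hod)]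
        simp
      rw [this]; ring
  exact h2.unique h3

/-- the estimate on the circle -/
theorem M8_circle {G : ℕ → ℂ → ℂ} {c : ℕ → ℕ → ℝ} {m : ℕ} (hm : 4 ≤ m) {c3 ε X : ℝ} (hε : 0 < ε)
    (hX0 : 0 ≤ X)
    (hX : ∀ N : ℕ, 0 < N → ∀ q ∈ M.U, 1 / ‖M.kap q‖ ^ 2 ≤ N →
      ‖G N q - (c3 : ℂ) * (M.kap q)⁻¹ ^ m‖ ≤ ε / ‖M.kap q‖ ^ m + X)
    (hs : ∀ N, ∀ q : ℂ, ‖q‖ < M.qc → Summable (fun n => (c N n : ℂ) * q ^ n))
    (hF : ∀ N, ∀ q ∈ Ker.VV M, HasSum (fun n => (c N n : ℂ) * q ^ n) (G N q))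
    (ho : ∀ N n, Odd n → c N n = 0) {n : ℕ} (hn : 2 ≤ n) {q : ℂ} (hq : ‖q‖ = M.qc * (1 - 1 / n)) :
    ‖M8_f M m (c3 / (√M.gam * M.qc) ^ m) (c n) q‖ ≤ (ε * √n ^ (m - 4) + 4 * X) *
      (1 / ‖(M.qc : ℂ) - q‖ ^ 2 + 1 / ‖(M.qc : ℂ) + q‖ ^ 2) := by
  obtain ⟨D, hD⟩ : ∃ D : ℝ, D = c3 / (√M.gam * M.qc) ^ m := ⟨_, rfl⟩
  rw [← hD]
  have hn0 : (0 : ℝ) < n := by exact_mod_cast (by omega : 0 < n)
  have hqc := M.qc_ge
  have hqc1 := M.qc_lt
  have hsn : 0 < √(n : ℝ) := Real.sqrt_pos.2 hn0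
  have key : ∀ q : ℂ, ‖q‖ = M.qc * (1 - 1 / n) → 0 ≤ q.re →
      ‖M8_f M m D (c n) q‖ ≤ (ε * √n ^ (m - 4) + 4 * X) * (1 / ‖(M.qc : ℂ) - q‖ ^ 2) := by
    intro q hq hre
    have hqlt : ‖q‖ < M.qc := by
      rw [hq]
      have h3 : (0 : ℝ) < 1 / n := by positivity
      nlinarith [M.qc_pos]
    have hV : q ∈ Ker.VV M := ⟨hqlt, by linarith⟩
    have hU : q ∈ M.U := Ker.VV_sub M hV
    rw [M8_eq (hs n) (hF n) hV]
    set δ := ‖(M.qc : ℂ) - q‖ with hδ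
    have hδn : (1 : ℝ) / 2 / n ≤ δ := by
      have h1 : ‖(M.qc : ℂ)‖ - ‖q‖ ≤ δ := norm_sub_norm_le _ _
      rw [Complex.norm_real, Real.norm_eq_abs, abs_of_pos M.qc_pos, hq] at h1
      have h2 : M.qc - M.qc * (1 - 1 / n) = M.qc * (1 / n) := by ring
      rw [h2] at h1
      refine le_trans ?_ h1
      have h3 : (0 : ℝ) < 1 / n := by positivity
      have h4 : (1 : ℝ) / 2 / n = 1 / 2 * (1 / n) := by ring
      rw [h4]
      exact mul_le_mul_of_nonneg_right (by linarith) h3.le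
    have hδ0 : 0 < δ := lt_of_lt_of_le (by positivity) hδn
    have hδ2 : δ ≤ 2 := by
      refine (norm_sub_le _ _).trans ?_
      rw [Complex.norm_real, Real.norm_eq_abs, abs_of_pos M.qc_pos]
      linarith
    -- the height
    have hk2 : 2 * δ ≤ ‖M.kap q‖ ^ 2 := by
      rw [Mdl.kap_norm_sq, sq_sub_sq, norm_mul]
      have h1 := hU.2.1
      have h2 := M.gam_ge
      have h4 : 2 ≤ M.gam * ‖(M.qc : ℂ) + q‖ := by nlinarith
      calc 2 * δ ≤ (M.gam * ‖(M.qc : ℂ) + q‖) * δ := mul_le_mul_of_nonneg_right h4 hδ0.le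
        _ = _ := by rw [hδ]; ring
    have hkp : 0 < ‖M.kap q‖ := Mdl.kap_pos hU
    have hkn : 1 / (n : ℝ) ≤ ‖M.kap q‖ ^ 2 := by
      refine le_trans ?_ hk2
      have h4 : (1 : ℝ) / n = 2 * (1 / 2 / n) := by ring
      rw [h4]
      exact mul_le_mul_of_nonneg_left hδn (by norm_num)
    have hkN : 1 / ‖M.kap q‖ ^ 2 ≤ (n : ℝ) := by
      rw [div_le_iff₀ (by positivity)]
      have h5 := mul_le_mul_of_nonneg_left hkn hn0.le
      rw [mul_one_div_cancel hn0.ne'] at h5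
      exact h5
    have hb := hX n (by omega) q hU hkN
    have hDk : (D : ℂ) * (((1 - (q / M.qc) ^ 2) ^ (2 : ℂ)⁻¹)⁻¹) ^ m = (c3 : ℂ) * (M.kap q)⁻¹ ^ m := by
      have h1 : M.kap q = ((√M.gam * M.qc : ℝ) : ℂ) * (1 - (q / M.qc) ^ 2) ^ (2 : ℂ)⁻¹ := rfl
      rw [h1, hD, mul_inv, mul_pow]
      push_cast
      ring
    rw [hDk]
    refine hb.trans ?_
    have h6 : 1 / ‖M.kap q‖ ≤ √n := by
      rw [div_le_iff₀ hkp]
      have h7 : 1 ≤ (√n * ‖M.kap q‖) ^ 2 := by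
        rw [mul_pow, Real.sq_sqrt hn0.le]
        have h5 := mul_le_mul_of_nonneg_left hkn hn0.le
        rwa [mul_one_div_cancel hn0.ne'] at h5
      have h8 : 0 ≤ √n * ‖M.kap q‖ := by positivity
      nlinarith
    have h7 : δ ^ 2 ≤ ‖M.kap q‖ ^ 4 := by
      have h8 : δ ≤ ‖M.kap q‖ ^ 2 := by linarith
      calc δ ^ 2 ≤ (‖M.kap q‖ ^ 2) ^ 2 := pow_le_pow_left₀ hδ0.le h8 2
        _ = _ := by ring
    have h8 : 1 / ‖M.kap q‖ ^ 4 ≤ 1 / δ ^ 2 := one_div_le_one_div_of_le (by positivity) h7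
    have h9 : ε / ‖M.kap q‖ ^ m ≤ ε * √n ^ (m - 4) * (1 / δ ^ 2) := by
      have h9a : ‖M.kap q‖ ^ m = ‖M.kap q‖ ^ (m - 4) * ‖M.kap q‖ ^ 4 := by
        rw [← pow_add]
        congr 1
        omega
      have h9b : (1 / ‖M.kap q‖) ^ (m - 4) ≤ √n ^ (m - 4) :=
        pow_le_pow_left₀ (by positivity) h6 _
      calc ε / ‖M.kap q‖ ^ m = ε * (1 / ‖M.kap q‖) ^ (m - 4) * (1 / ‖M.kap q‖ ^ 4) := by
            rw [h9a, one_div_pow]
            field_simp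
        _ ≤ ε * √n ^ (m - 4) * (1 / δ ^ 2) := by gcongr
    have h10 : X ≤ 4 * X * (1 / δ ^ 2) := by
      have h11 : 1 ≤ 4 * (1 / δ ^ 2) := by
        rw [mul_one_div, le_div_iff₀ (by positivity), one_mul]
        nlinarith
      calc X = X * 1 := (mul_one X).symm
        _ ≤ X * (4 * (1 / δ ^ 2)) := mul_le_mul_of_nonneg_left h11 hX0
        _ = _ := by ring
    calc ε / ‖M.kap q‖ ^ m + X ≤ ε * √n ^ (m - 4) * (1 / δ ^ 2) + 4 * X * (1 / δ ^ 2) :=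
          add_le_add h9 h10
      _ = _ := by ring
  have hqlt : ‖q‖ < M.qc := by
    rw [hq]
    have h3 : (0 : ℝ) < 1 / n := by positivity
    nlinarith [M.qc_pos]
  have hK : 0 ≤ ε * √n ^ (m - 4) + 4 * X := by positivity
  rcases le_total 0 q.re with h | h
  · refine (key q hq h).trans (mul_le_mul_of_nonneg_left ?_ hK)
    have : 0 ≤ 1 / ‖(M.qc : ℂ) + q‖ ^ 2 := by positivity
    linarith
  · have h1 := key (-q) (by rwa [norm_neg]) (by simpa using h)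
    rw [M8_evenf (hs n) (ho n) hqlt, sub_neg_eq_add] at h1
    refine h1.trans (mul_le_mul_of_nonneg_left ?_ hK)
    have : 0 ≤ 1 / ‖(M.qc : ℂ) - q‖ ^ 2 := by positivity
    linarith

theorem M8_pow {m : ℕ} (hm : 4 ≤ m) (i : ℕ) (hi : 1 ≤ i) :
    (i : ℝ) ^ ((m : ℝ) / 2 - 1) = (i : ℝ) * √(i : ℝ) ^ (m - 4) := by
  have hi0 : (0 : ℝ) < i := by exact_mod_cast hi
  rw [Real.sqrt_eq_rpow, ← Real.rpow_natCast, ← Real.rpow_mul hi0.le]
  have h1 : (i : ℝ) * (i : ℝ) ^ (1 / 2 * ((m - 4 : ℕ) : ℝ)) =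
      (i : ℝ) ^ (1 : ℝ) * (i : ℝ) ^ (1 / 2 * ((m - 4 : ℕ) : ℝ)) := by rw [Real.rpow_one]
  rw [h1, ← Real.rpow_add hi0]
  congr 1
  rw [Nat.cast_sub hm]
  push_cast
  ring

/-- **Task M8**: coefficients; the case k = 2 is done: file h132_P3_done.lean in the store (lemmas P3_*: adapt them from the
exponent 5 to m = 3k-1 ≥ 5, `t^{-m} ≤ t^{-4} n^{(m-4)/2}` on the circle |q| = qc(1-1/n), n = 2i). -/
theorem MK_coef (A : Ker M) (a : ℕ → ℝ) (C : CapS) (Xs : ℕ → ℕ → Mul M) (co : ℕ → ℕ → ℝ)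
    {k : ℕ} (hk : 2 ≤ k) (hg : ∀ N, 0 < N → GoodK A a N (Xs N))
    (hs : ∀ N, ∀ q : ℂ, ‖q‖ < M.qc → Summable (fun n => (co N n : ℂ) * q ^ n))
    (hF : ∀ N, ∀ q ∈ Ker.VV M, HasSum (fun n => (co N n : ℂ) * q ^ n) (MK (Xs N) C k q))
    (ho : ∀ N n, Odd n → co N n = 0) :
    Tendsto (fun i : ℕ => co (2 * i) (2 * i) * M.qc ^ (2 * i) /
      (i : ℝ) ^ (((3 * k - 1 : ℕ) : ℝ) / 2 - 1)) atTop
      (𝓝 (CK A C k / (√M.gam * M.qc) ^ (3 * k - 1) * (1 / Real.Gamma (((3 * k - 1 : ℕ) : ℝ) / 2)))) := by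
  have hMK := fun (ε : ℝ) (hε : 0 < ε) => MK_est A a C (k := k) (by omega) hε
  obtain ⟨m, hm⟩ : ∃ m : ℕ, m = 3 * k - 1 := ⟨_, rfl⟩
  rw [← hm]
  rw [← hm] at hMK
  have hm5 : 5 ≤ m := by omega
  obtain ⟨D, hD⟩ : ∃ D : ℝ, D = CK A C k / (√M.gam * M.qc) ^ m := ⟨_, rfl⟩
  rw [← hD]
  have hqc := M.qc_ge
  have hqc1 := M.qc_lt
  have hqc0 := M.qc_pos
  -- the remainder
  have key : ∀ η : ℝ, 0 < η → ∀ᶠ i : ℕ in atTop,
      ‖M8_r M m D (co (2 * i)) (2 * i)‖ * M.qc ^ (2 * i) ≤ η * ((i : ℝ) * √(i : ℝ) ^ (m - 4)) := by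
    intro η hη
    obtain ⟨X, hX0, hX⟩ := hMK (η / (1600 * 2 ^ (m - 4))) (by positivity)
    obtain ⟨k0, hk0⟩ := exists_nat_gt ((3200 * X / η) ^ 2)
    filter_upwards [eventually_ge_atTop (max 1 k0)] with i hi
    have hi1 : 1 ≤ i := (le_max_left _ _).trans hi
    have hii : k0 ≤ i := (le_max_right _ _).trans hi
    have hi0' : (0 : ℝ) < i := by exact_mod_cast hi1
    have hsi : 0 < √(i : ℝ) := Real.sqrt_pos.2 hi0'
    have hn2 : 2 ≤ 2 * i := by omega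
    have h1 := coef_le0 (b := M8_r M m D (co (2 * i))) (f := M8_f M m D (co (2 * i))) M.qc_pos
      (A := η / (1600 * 2 ^ (m - 4)) * √((2 * i : ℕ) : ℝ) ^ (m - 4) + 4 * X) (by positivity)
      (fun q hq => M8_hasSum (hs (2 * i)) hq) hn2 (fun q hq => by
        rw [hD]
        exact M8_circle (G := fun N => MK (Xs N) C k) (c := co) (by omega) (by positivity) hX0
          (fun N hN0 q hq hN => hX N (Xs N) (hg N hN0) q hq hN) hs hF ho hn2 hq)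
    refine h1.trans ?_
    have h2 : √((2 * i : ℕ) : ℝ) ≤ 2 * √(i : ℝ) := by
      rw [Real.sqrt_le_left (by positivity), mul_pow, Real.sq_sqrt hi0'.le]
      push_cast
      linarith
    have h2p : √((2 * i : ℕ) : ℝ) ^ (m - 4) ≤ 2 ^ (m - 4) * √(i : ℝ) ^ (m - 4) := by
      rw [← mul_pow]
      exact pow_le_pow_left₀ (Real.sqrt_nonneg _) h2 _
    have hs1 : 1 ≤ √(i : ℝ) := by
      rw [Real.one_le_sqrt]
      exact_mod_cast hi1
    obtain ⟨S, hS⟩ : ∃ S : ℝ, S = √(i : ℝ) ^ (m - 4) := ⟨_, rfl⟩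
    have hSS : √(i : ℝ) ≤ S := by
      rw [hS]
      exact le_self_pow₀ hs1 (by omega)
    have hS0 : 0 < S := lt_of_lt_of_le hsi hSS
    rw [← hS] at h2p ⊢
    have h3 : 3200 * X ≤ η * S := by
      have h4 : 3200 * X / η ≤ √(i : ℝ) := by
        apply Real.le_sqrt_of_sq_le
        have : (k0 : ℝ) ≤ i := by exact_mod_cast hii
        linarith
      rw [div_le_iff₀ hη] at h4
      have := mul_le_mul_of_nonneg_left hSS hη.le
      linarith
    have h5 : 1 / 2 ≤ M.qc ^ 2 := by nlinarith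
    rw [div_le_iff₀ (by positivity)]
    have h6 : η / (1600 * 2 ^ (m - 4)) * √((2 * i : ℕ) : ℝ) ^ (m - 4) + 4 * X ≤
        η / 1600 * S + 4 * X := by
      have h6a := mul_le_mul_of_nonneg_left h2p (show 0 ≤ η / (1600 * 2 ^ (m - 4)) by positivity)
      have h6b : η / (1600 * 2 ^ (m - 4)) * (2 ^ (m - 4) * S) = η / 1600 * S := by
        field_simp
      linarith
    have h7 : 100 * (η / (1600 * 2 ^ (m - 4)) * √((2 * i : ℕ) : ℝ) ^ (m - 4) + 4 * X) *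
        ((2 * i : ℕ) : ℝ) ≤ 100 * (η / 1600 * S + 4 * X) * (2 * i) := by
      have : ((2 * i : ℕ) : ℝ) = 2 * i := by push_cast; rfl
      rw [this] at h6 ⊢
      exact mul_le_mul_of_nonneg_right (by linarith) (by positivity)
    refine h7.trans ?_
    have h8 : 100 * (η / 1600 * S + 4 * X) * (2 * i) ≤ (η / 2) * (i * S) := by
      have h9 : 200 * (η / 1600 * S + 4 * X) ≤ η / 2 * S := by
        have : 0 ≤ η * S := by positivity
        linarith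
      calc 100 * (η / 1600 * S + 4 * X) * (2 * i) = (200 * (η / 1600 * S + 4 * X)) * i := by ring
        _ ≤ (η / 2 * S) * i := mul_le_mul_of_nonneg_right h9 hi0'.le
        _ = _ := by ring
    refine h8.trans ?_
    have h10 : 0 ≤ η * ((i : ℝ) * S) := by positivity
    calc η / 2 * (i * S) = η * ((i : ℝ) * S) * (1 / 2) := by ring
      _ ≤ _ := mul_le_mul_of_nonneg_left h5 h10
  have h0 : Tendsto (fun i : ℕ => co (2 * i) (2 * i) * M.qc ^ (2 * i) / (i : ℝ) ^ ((m : ℝ) / 2 - 1) -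
      D * (cm m i / (i : ℝ) ^ ((m : ℝ) / 2 - 1))) atTop (𝓝 0) := by
    rw [Metric.tendsto_atTop]
    intro η hη
    obtain ⟨k1, hk1⟩ := eventually_atTop.1 (key (η / 2) (by positivity))
    refine ⟨max k1 1, fun i hi => ?_⟩
    have h1 := hk1 i ((le_max_left _ _).trans hi)
    have hi1' : 1 ≤ i := (le_max_right _ _).trans hi
    have hi0' : (0 : ℝ) < i := by exact_mod_cast hi1'
    have hg0 : 0 < (i : ℝ) ^ ((m : ℝ) / 2 - 1) := Real.rpow_pos_of_pos hi0' _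
    rw [← M8_pow (by omega) i hi1'] at h1
    obtain ⟨g, hg⟩ : ∃ g : ℝ, g = (i : ℝ) ^ ((m : ℝ) / 2 - 1) := ⟨_, rfl⟩
    rw [← hg] at h1 hg0 ⊢
    have he : Even (2 * i) := ⟨i, by ring⟩
    have hd : 2 * i / 2 = i := by omega
    have hp : 0 < M.qc ^ (2 * i) := pow_pos M.qc_pos _
    have e1 : M8_r M m D (co (2 * i)) (2 * i) =
        ((co (2 * i) (2 * i) - D * (cm m i / M.qc ^ (2 * i)) : ℝ) : ℂ) := by
      unfold M8_r
      rw [if_pos he, hd]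
      push_cast
      ring
    rw [e1, Complex.norm_real, Real.norm_eq_abs, ← abs_of_pos hp, ← abs_mul, abs_of_pos hp] at h1
    rw [Real.dist_eq, sub_zero]
    have e2 : co (2 * i) (2 * i) * M.qc ^ (2 * i) / g - D * (cm m i / g) =
        (co (2 * i) (2 * i) - D * (cm m i / M.qc ^ (2 * i))) * M.qc ^ (2 * i) / g := by
      field_simp
    rw [e2, abs_div, abs_of_pos hg0, div_lt_iff₀ hg0]
    refine lt_of_le_of_lt h1 ?_
    exact mul_lt_mul_of_pos_right (by linarith) hg0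
  have h1 := h0.add ((cm_tendsto (m := m) (by omega)).const_mul D)
  rw [zero_add] at h1
  refine h1.congr fun i => ?_
  ring

end
end
end KN.SQ
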