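import Pool.Agent.H132.SQ.Ar5
import Pool.Agent.H132.SQ.GLb
import Pool.Agent.H132.SQ.GM8

/-!
# The moments of the area of stretched polygons
-/

set_option autoImplicit false

namespace KN.SQ
open KN KN.ST Finset Filter Topology
open scoped Classical ENNReal Real
noncomputable section
/-- the weighted `k`-th power of the area of the closed planar self-avoiding words -/
def ZK (y : ℝ) (k n : ℕ) : ℝ :=
  ∑ w ∈ (KN.W n).filter (fun w => SAP w ∧ Pl w), (AE w).toReal ^ k * y ^ xt w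

theorem O1_ZK_enn {y : ℝ} (hy : 0 ≤ y) (k n : ℕ) : ENNReal.ofReal (ZK y k n) =
    ∑' w : List Dir, if SAP w ∧ w.length = n ∧ Pl w then
      AE w ^ k * ENNReal.ofReal y ^ xt w else 0 := by
  unfold ZK
  rw [ENNReal.ofReal_sum_of_nonneg (fun w _ => mul_nonneg (pow_nonneg ENNReal.toReal_nonneg _) (pow_nonneg hy _)),
    tsum_eq_sum (s := (KN.W n).filter (fun w => SAP w ∧ Pl w))]
  · refine sum_congr rfl fun w hw => ?_
    rw [mem_filter, mem_W] at hw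
    rw [if_pos ⟨hw.2.1, hw.1, hw.2.2⟩, ENNReal.ofReal_mul (pow_nonneg ENNReal.toReal_nonneg _),
      ENNReal.ofReal_pow ENNReal.toReal_nonneg,
      ENNReal.ofReal_toReal (AE_ne (sap_x0 hw.2.1)), ENNReal.ofReal_pow hy]
  · intro w hw
    rw [if_neg]
    rintro ⟨h1, h2, h3⟩
    exact hw (mem_filter.2 ⟨mem_W.2 h2, h1, h3⟩)

theorem O1_with_cut {Y S : ℝ≥0∞} (hY : Y * S ^ 8 = 1) (k n : ℕ) :
    (∑' w : List Dir, (if SAP w ∧ w.length = n ∧ Pl w ∧ ∃ c, X w c = 2 then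
      AE w ^ k * Y ^ xt w else 0)) * (S ^ 4) ^ n = n * AnK n k S n := by
  rw [poly_sum (fun w => AE w ^ k * Y ^ xt w) Pl
    (fun w j hw hj => by simp only [xt_rotate hw.2.1 hj, AE_rotate hw.2.1 hj])
    (fun w k _ h => pl_rotate.2 h) n, mul_assoc, ← ENNReal.tsum_mul_right]
  congr 1
  rw [AnK_eq le_rfl S]
  refine tsum_congr fun x => ?_
  by_cases h : (∃ D E, Vd x.1 x.2.1 x.2.2 D E) ∧ (pw3 x).length = n ∧ Pl (pw3 x)
  · rw [if_pos h, if_pos h]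
    obtain ⟨⟨D, E, hv⟩, hl, -⟩ := h
    have := pw3_wt hY hv
    rw [hl] at this
    rw [mul_assoc, this]
    rfl
  · rw [if_neg h, if_neg h, zero_mul]

theorem O1_no_cut {Y S : ℝ≥0∞} (hY : Y * S ^ 8 = 1) (hS : S ≤ 1) (k n : ℕ) :
    (∑' w : List Dir, (if SAP w ∧ w.length = n ∧ Pl w ∧ ¬ ∃ c, X w c = 2 then
      AE w ^ k * Y ^ xt w else 0)) * (S ^ 4) ^ n ≤
      (((2 * n + 1) * (2 * n) : ℕ) : ℝ≥0∞) ^ k * (6 * S ^ 2) ^ n := by
  refine le_trans ?_ (mul_le_mul_right (no_cut hY hS n) _)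
  rw [← mul_assoc]
  refine mul_le_mul_left ?_ _
  rw [← ENNReal.tsum_mul_left]
  refine ENNReal.tsum_le_tsum fun w => ?_
  split_ifs with h
  · refine mul_le_mul_left ?_ _
    have := AE_le (sap_x0 h.1)
    rw [h.2.1] at this
    gcongr
  · exact zero_le

/-- O1: as ZA_split (with_cutA, no_cutA: AE^k ≤ ((2n+1)(2n))^k by AE_le) -/
theorem ZK_split {s y : ℝ} (hs : Wok s) (hy : y * s ^ 8 = 1) (k n : ℕ) :
    ∃ e : ℝ, 0 ≤ e ∧ e ≤ ((2 * n + 1) * (2 * n) : ℕ) ^ k * (6 * s ^ 2) ^ n ∧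
      ZK y k n * (s ^ 4) ^ n = n * anK s n k n + e := by
  have hs0 := hs.1
  have hy0 : 0 ≤ y := by
    by_contra h
    push Not at h
    have : y * s ^ 8 < 0 := mul_neg_of_neg_of_pos h (by positivity)
    linarith
  have hs1 : s ≤ 1 := hs.2.trans (by norm_num)
  set S := ENNReal.ofReal s with hS
  set Y := ENNReal.ofReal y with hYd
  have hY : Y * S ^ 8 = 1 := by
    rw [hS, hYd, ← ENNReal.ofReal_pow hs0.le, ← ENNReal.ofReal_mul hy0, hy, ENNReal.ofReal_one]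
  have hS1 : S ≤ 1 := ENNReal.ofReal_le_one.2 hs1
  have h1 : ENNReal.ofReal (ZK y k n) =
      (∑' w : List Dir, (if SAP w ∧ w.length = n ∧ Pl w ∧ ∃ c, X w c = 2 then
        AE w ^ k * Y ^ xt w else 0)) +
      (∑' w : List Dir, (if SAP w ∧ w.length = n ∧ Pl w ∧ ¬ ∃ c, X w c = 2 then
        AE w ^ k * Y ^ xt w else 0)) := by
    rw [O1_ZK_enn hy0, ← ENNReal.tsum_add]
    refine tsum_congr fun w => ?_
    by_cases hw : SAP w ∧ w.length = n ∧ Pl w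
    · by_cases hc : ∃ c, X w c = 2
      · rw [if_pos hw, if_pos ⟨hw.1, hw.2.1, hw.2.2, hc⟩, if_neg (fun h => h.2.2.2 hc), add_zero]
      · rw [if_pos hw, if_neg (fun h => hc h.2.2.2), if_pos ⟨hw.1, hw.2.1, hw.2.2, hc⟩, zero_add]
    · rw [if_neg hw, if_neg (fun h => hw ⟨h.1, h.2.1, h.2.2.1⟩),
        if_neg (fun h => hw ⟨h.1, h.2.1, h.2.2.1⟩), add_zero]
  set N := (∑' w : List Dir, (if SAP w ∧ w.length = n ∧ Pl w ∧ ¬ ∃ c, X w c = 2 then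
        AE w ^ k * Y ^ xt w else 0)) * (S ^ 4) ^ n with hN
  have h2 : ENNReal.ofReal (ZK y k n) * (S ^ 4) ^ n = n * AnK n k S n + N := by
    rw [h1, add_mul, O1_with_cut hY]
  have h3 : N ≤ (((2 * n + 1) * (2 * n) : ℕ) : ℝ≥0∞) ^ k * (6 * S ^ 2) ^ n := O1_no_cut hY hS1 k n
  have e3 : (((2 * n + 1) * (2 * n) : ℕ) : ℝ≥0∞) ^ k * (6 * S ^ 2) ^ n =
      ENNReal.ofReal (((2 * n + 1) * (2 * n) : ℕ) ^ k * (6 * s ^ 2) ^ n) := by
    rw [ENNReal.ofReal_mul (pow_nonneg (Nat.cast_nonneg _) _), ENNReal.ofReal_pow (Nat.cast_nonneg _),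
      ENNReal.ofReal_natCast,
      ENNReal.ofReal_pow (by positivity), ENNReal.ofReal_mul (by norm_num),
      ENNReal.ofReal_pow hs0.le]
    simp [hS]
  have hNt : N ≠ ⊤ := ne_top_of_le_ne_top (by rw [e3]; exact ENNReal.ofReal_ne_top) h3
  have hA : AnK n k S n ≠ ⊤ := AnK_fin hs n k n
  refine ⟨N.toReal, ENNReal.toReal_nonneg, ?_, ?_⟩
  · have := ENNReal.toReal_mono (by rw [e3]; exact ENNReal.ofReal_ne_top) h3
    rw [e3, ENNReal.toReal_ofReal (by positivity)] at this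
    exact this
  · have h4 := congrArg ENNReal.toReal h2
    have hZ : 0 ≤ ZK y k n :=
      sum_nonneg fun w _ => mul_nonneg (pow_nonneg ENNReal.toReal_nonneg _) (pow_nonneg hy0 _)
    rw [ENNReal.toReal_mul, ENNReal.toReal_ofReal hZ, ENNReal.toReal_add
      (ENNReal.mul_ne_top (ENNReal.natCast_ne_top n) hA) hNt, ENNReal.toReal_mul,
      ENNReal.toReal_pow, ENNReal.toReal_pow, hS, ENNReal.toReal_ofReal hs0.le,
      ENNReal.toReal_natCast] at h4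
    exact h4

theorem anK_odd {s : ℝ} {N k n : ℕ} (hn : Odd n) : anK s N k n = 0 := by
  unfold anK
  have : AnK N k (ENNReal.ofReal s) n = 0 := by
    unfold AnK
    rw [ENNReal.tsum_eq_zero]
    intro x
    rw [if_neg]
    rintro ⟨⟨D, E, h⟩, h1, -⟩
    have h2 := even_of_closed h.sap.2.1
    have h3 : (ST.Poly x.1 (Rw x.2.1 x.2.2)).length = n := h1
    rw [h3] at h2
    obtain ⟨k, hk⟩ := hn
    omega
  rw [this, ENNReal.toReal_zero]

/-- O1: as ZA_asym, from the coefficient asymptotics `h` -/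
theorem ZK_asym {s y : ℝ} (hs : Wok s) (hy : y * s ^ 8 = 1) {k : ℕ} (hk : 2 ≤ k) {c : ℝ}
    (h : Tendsto (fun i : ℕ => anK s (2 * i) k (2 * i) * (MM s hs).qc ^ (2 * i) /
      (i : ℝ) ^ (((3 * k - 1 : ℕ) : ℝ) / 2 - 1)) atTop (𝓝 c)) :
    Tendsto (fun i : ℕ => ZK y k (2 * i) / ((2 * i : ℕ)) * (s ^ 4 * (MM s hs).qc) ^ (2 * i) /
      (i : ℝ) ^ (((3 * k - 1 : ℕ) : ℝ) / 2 - 1)) atTop (𝓝 c) := by
  choose e he0 he1 he2 using fun n => ZK_split hs hy k n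
  have hqc := (MM s hs).qc_pos
  have hqc1 := (MM s hs).qc_lt
  have hs0 := hs.1
  set x : ℝ := 6 * s ^ 2 with hx
  have hx0 : 0 ≤ x := by positivity
  have hx1 : x < 1 := by
    have := hs.2
    have : s ≤ 1 / 10 := this.trans (by norm_num)
    rw [hx]
    nlinarith
  set p : ℝ := (((3 * k - 1 : ℕ) : ℝ) / 2 - 1) with hp
  have hp0 : 0 ≤ p := by
    have h5 : (5 : ℝ) ≤ ((3 * k - 1 : ℕ) : ℝ) := by exact_mod_cast (by omega : 5 ≤ 3 * k - 1)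
    rw [hp]
    linarith
  have h2 : Tendsto (fun i : ℕ => e (2 * i) * (MM s hs).qc ^ (2 * i) / ((2 * i : ℕ) : ℝ) / (i : ℝ) ^ p)
      atTop (𝓝 0) := by
    have h3 : Tendsto (fun i : ℕ => 20 ^ k * ((i : ℝ) ^ (2 * k) * (x ^ 2) ^ i)) atTop (𝓝 0) := by
      have := (tendsto_pow_const_mul_const_pow_of_lt_one (r := x ^ 2) (2 * k) (by positivity)
        (pow_lt_one₀ hx0 hx1 (by norm_num))).const_mul ((20 : ℝ) ^ k)
      simpa using this
    refine squeeze_zero' (Eventually.of_forall fun i => ?_) ?_ h3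
    · have := he0 (2 * i)
      positivity
    · filter_upwards [eventually_gt_atTop 0] with i hi
      have hk0 : (1 : ℝ) ≤ ((2 * i : ℕ) : ℝ) := by exact_mod_cast (by omega : 1 ≤ 2 * i)
      have hk1 : (1 : ℝ) ≤ i := by exact_mod_cast hi
      have hip : (1 : ℝ) ≤ (i : ℝ) ^ p := Real.one_le_rpow hk1 hp0
      have h5 : 0 ≤ x ^ (2 * i) := by positivity
      have h4 : e (2 * i) * (MM s hs).qc ^ (2 * i) ≤
          (((2 * (2 * i) + 1) * (2 * (2 * i)) : ℕ) : ℝ) ^ k * x ^ (2 * i) * 1 :=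
        mul_le_mul (he1 _) (pow_le_one₀ hqc.le hqc1.le) (by positivity) (by positivity)
      have h6 : (((2 * (2 * i) + 1) * (2 * (2 * i)) : ℕ) : ℝ) ≤ 20 * (i : ℝ) ^ 2 := by
        push_cast
        nlinarith
      have h7 : (((2 * (2 * i) + 1) * (2 * (2 * i)) : ℕ) : ℝ) ^ k ≤ (20 * (i : ℝ) ^ 2) ^ k :=
        pow_le_pow_left₀ (Nat.cast_nonneg _) h6 k
      have h8 : 0 ≤ e (2 * i) * (MM s hs).qc ^ (2 * i) := mul_nonneg (he0 _) (by positivity)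
      have h9 : e (2 * i) * (MM s hs).qc ^ (2 * i) / ((2 * i : ℕ) : ℝ) / (i : ℝ) ^ p ≤
          e (2 * i) * (MM s hs).qc ^ (2 * i) :=
        (div_le_self (div_nonneg h8 (by linarith)) hip).trans (div_le_self h8 hk0)
      refine h9.trans (h4.trans ?_)
      have e1 : ∀ a b : ℝ, 20 ^ k * (a ^ (2 * k) * (b ^ 2) ^ i) = (20 * a ^ 2) ^ k * b ^ (2 * i) := by
        intro a b
        rw [mul_pow, ← pow_mul, ← pow_mul, mul_assoc]
      rw [mul_one, e1]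
      exact mul_le_mul_of_nonneg_right h7 h5
  have h3 := h.add h2
  rw [add_zero] at h3
  refine h3.congr' ?_
  filter_upwards [eventually_gt_atTop 0] with i hi
  have hk0 : ((2 * i : ℕ) : ℝ) ≠ 0 := by exact_mod_cast (by omega : 2 * i ≠ 0)
  have h4 := he2 (2 * i)
  have e1 : ZK y k (2 * i) / ((2 * i : ℕ) : ℝ) * (s ^ 4 * (MM s hs).qc) ^ (2 * i) / (i : ℝ) ^ p =
      (ZK y k (2 * i) * (s ^ 4) ^ (2 * i)) / ((2 * i : ℕ) : ℝ) * (MM s hs).qc ^ (2 * i) / (i : ℝ) ^ p := by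
    rw [mul_pow]; ring
  rw [e1, h4, add_div, mul_div_cancel_left₀ _ hk0]
  ring

theorem O2_pow {i : ℕ} (hi : 0 < i) (j : ℕ) :
    ((i : ℝ) * √(i : ℝ)) ^ j = (i : ℝ) ^ (((3 * j + 2 : ℕ) : ℝ) / 2 - 1) := by
  have h0 : (0 : ℝ) < i := by exact_mod_cast hi
  have h1 : (i : ℝ) * √(i : ℝ) = (i : ℝ) ^ (3 / 2 : ℝ) := by
    rw [Real.sqrt_eq_rpow]
    nth_rewrite 1 [← Real.rpow_one (i : ℝ)]
    rw [← Real.rpow_add h0]
    norm_num
  rw [h1, ← Real.rpow_natCast, ← Real.rpow_mul h0.le]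
  congr 1
  push_cast
  ring

theorem O2_ident (zk zw za : ℝ) {j : ℕ} (hj : 1 ≤ j) :
    (zk / zw) / (za / zw) ^ (j + 1) = zk * zw ^ j / za ^ (j + 1) := by
  by_cases hw : zw = 0
  · rw [hw, div_zero, zero_div, zero_pow (by omega), mul_zero, zero_div]
  · by_cases ha : za = 0
    · rw [ha, zero_div, zero_pow (by omega), div_zero, div_zero]
    · rw [div_pow, pow_succ zw j]
      field_simp

theorem O2_abs (zk zw za : ℕ → ℝ) {m : ℝ} (hm : 0 < m) {j : ℕ} (hj : 1 ≤ j) {a w b : ℝ}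
    (hb : b ≠ 0)
    (h : Tendsto (fun i : ℕ => zk i / ((2 * i : ℕ)) * m ^ (2 * i) /
      (i : ℝ) ^ (((3 * j + 2 : ℕ) : ℝ) / 2 - 1)) atTop (𝓝 a))
    (h2 : Tendsto (fun i : ℕ => zw i / (2 * (2 * i : ℕ)) * m ^ (2 * i) *
      ((i : ℝ) * √(i : ℝ))) atTop (𝓝 w))
    (h1 : Tendsto (fun i : ℕ => za i / ((2 * i : ℕ)) * m ^ (2 * i)) atTop (𝓝 b)) :
    Tendsto (fun i : ℕ => (zk i / zw i) / (za i / zw i) ^ (j + 1)) atTop
      (𝓝 (a * (2 * w) ^ j / b ^ (j + 1))) := by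
  have h3 := (h.mul ((h2.const_mul 2).pow j)).div (h1.pow (j + 1)) (pow_ne_zero (j + 1) hb)
  refine h3.congr' ?_
  filter_upwards [eventually_gt_atTop 0] with i hi
  have hi0 : ((2 * i : ℕ) : ℝ) ≠ 0 := by exact_mod_cast (by omega : 2 * i ≠ 0)
  have hi1 : (0 : ℝ) < i := by exact_mod_cast hi
  have hμ : m ^ (2 * i) ≠ 0 := by positivity
  have hR : (i : ℝ) ^ (((3 * j + 2 : ℕ) : ℝ) / 2 - 1) ≠ 0 := (Real.rpow_pos_of_pos hi1 _).ne'
  have hK := O2_pow hi j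
  rw [O2_ident _ _ _ hj]
  show zk i / ((2 * i : ℕ) : ℝ) * m ^ (2 * i) / (i : ℝ) ^ (((3 * j + 2 : ℕ) : ℝ) / 2 - 1) *
      (2 * (zw i / (2 * ((2 * i : ℕ) : ℝ)) * m ^ (2 * i) * ((i : ℝ) * √(i : ℝ)))) ^ j /
      (za i / ((2 * i : ℕ) : ℝ) * m ^ (2 * i)) ^ (j + 1) = zk i * zw i ^ j / za i ^ (j + 1)
  generalize (i : ℝ) ^ (((3 * j + 2 : ℕ) : ℝ) / 2 - 1) = R at hR hK ⊢
  generalize ((2 * i : ℕ) : ℝ) = N at hi0 ⊢
  generalize m ^ (2 * i) = μ at hμ ⊢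
  generalize (i : ℝ) * √(i : ℝ) = K at hK ⊢
  generalize zk i = x
  generalize zw i = y
  generalize za i = z
  have e1 : 2 * (y / (2 * N) * μ * K) = y * (μ / N) * K := by
    field_simp
  have e2 : z / N * μ = z * (μ / N) := by
    field_simp
  have e3 : x / N * μ / R = x * (μ / N) / R := by
    field_simp
  have h5 : μ / N ≠ 0 := div_ne_zero hμ hi0
  rw [e1, e2, e3, mul_pow, mul_pow, mul_pow, hK]
  generalize μ / N = ν at h5 ⊢
  have e4 : x * ν / R * (y ^ j * ν ^ j * R) = x * y ^ j * ν ^ (j + 1) := by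
    rw [pow_succ ν j]
    field_simp
  rw [e4, mul_div_mul_right _ _ (pow_ne_zero (j + 1) h5)]

theorem O2_calc {cA PP sg x q G F K : ℝ} (hcA : 0 < cA) (hPP : 0 < PP) (hsg : 0 < sg)
    (hx : 0 < x) (hq : 0 < q) (hG : 0 < G) (j : ℕ) :
    (F * cA * (2 * cA / sg) ^ j * PP * (2 * K)) / x ^ (3 * j + 2) * (1 / G) *
      (x * sg * PP / (4 * q)) ^ j / (cA * PP / (4 * x ^ 2)) ^ (j + 1) =
      4 * 2 ^ (j + 1) * F * K / (q ^ j * G) := by
  have h4 : (4 : ℝ) ^ j = 2 ^ j * 2 ^ j := by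
    rw [← mul_pow]
    norm_num
  have hx3 : x ^ (3 * j + 2) = (x ^ j) ^ 3 * x ^ 2 := by
    rw [← pow_mul, ← pow_add]
    congr 1
    ring
  have hx2 : (x ^ 2) ^ j = (x ^ j) ^ 2 := by
    rw [← pow_mul, ← pow_mul, mul_comm]
  rw [pow_succ (cA * PP / (4 * x ^ 2)) j, pow_succ (2 : ℝ) j, div_pow, div_pow, div_pow, mul_pow,
    mul_pow, mul_pow, mul_pow, mul_pow, mul_pow, h4, hx3, hx2]
  have g1 : cA ^ j ≠ 0 := by positivity
  have g2 : PP ^ j ≠ 0 := by positivity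
  have g3 : sg ^ j ≠ 0 := by positivity
  have g4 : x ^ j ≠ 0 := by positivity
  have g5 : q ^ j ≠ 0 := by positivity
  have g6 : (2 : ℝ) ^ j ≠ 0 := by positivity
  generalize cA ^ j = A at g1 ⊢
  generalize PP ^ j = B at g2 ⊢
  generalize sg ^ j = C at g3 ⊢
  generalize x ^ j = D at g4 ⊢
  generalize q ^ j = E at g5 ⊢
  generalize (2 : ℝ) ^ j = T at g6 ⊢
  field_simp

/-- O2: the ratio `E[A^k]/E[A]^k = ZK Zw^{k-1} / ZA^k` for k ≥ 2; with x = √gam qc: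
ZK(2i)/(2i) μ / i^{(3k-1)/2-1} → k! cA (2cA/sg)^{k-1} PP (2 Kt k) / x^{3k-1} / Γ((3k-1)/2),
ZA(2i)/(2i) μ → C2 = cA PP/(4 x²) (ZA_asym), Zw(2i)/(2i) μ i^{3/2} → C1 qc/(2√π) (Zw_asym: limit ½·C1·qc/(2√π) of
Zw/(2·2i)·μ·i√i), C1 = mp PP/(2x), mp = gam qc sg, i.e. x sg PP/(4√π); μ = (s⁴qc)^(2i). The limit is
4·2^k·k!·K_k/(√π^(k-1) Γ((3k-1)/2)). -/
theorem ratio_limK {s y : ℝ} (hs : Wok s) (hy : y * s ^ 8 = 1) {k : ℕ} (hk : 2 ≤ k)
    (h : Tendsto (fun i : ℕ => ZK y k (2 * i) / ((2 * i : ℕ)) * (s ^ 4 * (MM s hs).qc) ^ (2 * i) /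
      (i : ℝ) ^ (((3 * k - 1 : ℕ) : ℝ) / 2 - 1)) atTop
      (𝓝 ((k.factorial * (KK s hs).cA * (2 * (KK s hs).cA / (MM s hs).sg) ^ (k - 1) *
        Mdl.PP (MM s hs) (CL s hs) (CR s hs) * (2 * Kt k)) /
        (√(MM s hs).gam * (MM s hs).qc) ^ (3 * k - 1) *
        (1 / Real.Gamma (((3 * k - 1 : ℕ) : ℝ) / 2))))) :
    Tendsto (fun i : ℕ => (ZK y k (2 * i) / Zw y (2 * i)) / (ZA y (2 * i) / Zw y (2 * i)) ^ k) atTop
      (𝓝 (4 * 2 ^ k * k.factorial * Kt k / (√π ^ (k - 1) * Real.Gamma ((3 * (k : ℝ) - 1) / 2)))) := by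
  obtain ⟨j, rfl⟩ : ∃ j, k = j + 1 := ⟨k - 1, by omega⟩
  have hj : 1 ≤ j := by omega
  have e1 : 3 * (j + 1) - 1 = 3 * j + 2 := by omega
  rw [e1, Nat.add_sub_cancel] at h
  rw [Nat.add_sub_cancel]
  have h1 := ZA_asym hs hy
  have h2 := Zw_asym hs hy
  have hC2 := C2_pos hs
  have hPP := PP_pos hs
  have hcA := (KK s hs).cA_bd.1
  have hqc := (MM s hs).qc_pos
  have hgam := (MM s hs).gam_pos
  have hsg := (MM s hs).sg_pos
  have hs0 := hs.1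
  have hmp : (MM s hs).mp = (MM s hs).gam * (MM s hs).qc * (MM s hs).sg := by
    have h4 : (MM s hs).gam = (MM s hs).mp / ((MM s hs).qc * (MM s hs).sg) := rfl
    rw [h4]
    field_simp
  have hc1 : (MM s hs).C1 (CL s hs) (CR s hs) =
      (MM s hs).gam * (MM s hs).qc * (MM s hs).sg * Mdl.PP (MM s hs) (CL s hs) (CR s hs) /
        (2 * (√(MM s hs).gam * (MM s hs).qc)) := by
    rw [← hmp]
    rfl
  have hc2 : (KK s hs).C2 (CL s hs) (CR s hs) = (KK s hs).cA * Mdl.PP (MM s hs) (CL s hs) (CR s hs) /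
      (4 * ((MM s hs).gam * (MM s hs).qc ^ 2)) := rfl
  have hm : 0 < s ^ 4 * (MM s hs).qc := by positivity
  have h3 := O2_abs (fun i => ZK y (j + 1) (2 * i)) (fun i => Zw y (2 * i))
    (fun i => ZA y (2 * i)) hm hj hC2.ne' h h2 h1
  have hg : 0 < √(MM s hs).gam := Real.sqrt_pos.2 hgam
  have hx : 0 < √(MM s hs).gam * (MM s hs).qc := mul_pos hg hqc
  have hq : 0 < √π := Real.sqrt_pos.2 Real.pi_pos
  have eG : (3 * ((j + 1 : ℕ) : ℝ) - 1) / 2 = ((3 * j + 2 : ℕ) : ℝ) / 2 := by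
    push_cast
    ring
  have hG : 0 < Real.Gamma (((3 * j + 2 : ℕ) : ℝ) / 2) :=
    Real.Gamma_pos_of_pos (by positivity)
  have hw : 2 * (1 / 2 * ((MM s hs).C1 (CL s hs) (CR s hs) * (MM s hs).qc / (2 * √π))) =
      √(MM s hs).gam * (MM s hs).qc * (MM s hs).sg * Mdl.PP (MM s hs) (CL s hs) (CR s hs) /
        (4 * √π) := by
    rw [hc1]
    have hgs : (MM s hs).gam = √(MM s hs).gam ^ 2 := (Real.sq_sqrt hgam.le).symm
    generalize (MM s hs).gam = gg at hgs hg ⊢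
    generalize √gg = g at hgs hg ⊢
    rw [hgs]
    field_simp
    ring
  have hb : (KK s hs).C2 (CL s hs) (CR s hs) = (KK s hs).cA * Mdl.PP (MM s hs) (CL s hs) (CR s hs) /
      (4 * (√(MM s hs).gam * (MM s hs).qc) ^ 2) := by
    rw [hc2, mul_pow, Real.sq_sqrt hgam.le]
  rw [hw, hb, O2_calc hcA hPP hsg hx hq hG j] at h3
  rw [eG]
  exact h3


/-- the limits of the moments -/
theorem moments_lim {s y : ℝ} (hs : Wok s) (hy : y * s ^ 8 = 1) {k : ℕ} (hk : 2 ≤ k) :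
    Tendsto (fun i : ℕ => (ZK y k (2 * i) / Zw y (2 * i)) / (ZA y (2 * i) / Zw y (2 * i)) ^ k) atTop
      (𝓝 (4 * 2 ^ k * k.factorial * Kt k / (√π ^ (k - 1) * Real.Gamma ((3 * (k : ℝ) - 1) / 2)))) := by
  refine ratio_limK hs hy hk (ZK_asym hs hy hk ?_)
  have h := MK_coef (KK s hs) aK (LnK.CSk s hs) (fun N => XK s hs N) (fun N n => anK s N k n) hk
    (fun N hN => good_XK s hs N hN) (fun N q hq => anK_summable hs N k hq)
    (fun N q hq => anK_hasSum hs N k hq) (fun N n hn => anK_odd hn)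
  have e : CK (KK s hs) (LnK.CSk s hs) k =
      k.factorial * (KK s hs).cA * (2 * (KK s hs).cA / (MM s hs).sg) ^ (k - 1) *
        Mdl.PP (MM s hs) (CL s hs) (CR s hs) * (2 * Kt k) := by
    obtain ⟨j, rfl⟩ : ∃ j, k = j + 1 := ⟨k - 1, by omega⟩
    unfold CK
    rw [Nat.add_sub_cancel, lap_PK, PK_deriv]
    rfl
  rw [e] at h
  exact h
end
end KN.SQ
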