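import Pool.Agent.H132.SQ.G1
import Pool.Agent.H132.SQ.X6

/-!
# The weighted resolvent bound
-/

set_option autoImplicit false

namespace KN.SQ
open Finset Filter Topology
open scoped Classical ENNReal ComplexConjugate
noncomputable section
theorem K2_L (L : ℕ) : (L : ℝ) ^ 2 ≤ 4 * (3 / 2) ^ L := by
  have key : ∀ n : ℕ, 5 ≤ n → (n : ℝ) ^ 2 ≤ 4 * (3 / 2) ^ n := by
    intro n hn
    induction n, hn using Nat.le_induction with
    | base => norm_num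
    | succ n hn ih =>
      have h5 : (5 : ℝ) ≤ n := by exact_mod_cast hn
      have e : (3 / 2 : ℝ) ^ (n + 1) = (3 / 2) ^ n * (3 / 2) := pow_succ _ _
      rw [e]
      push_cast
      nlinarith
  rcases Nat.lt_or_ge L 5 with h | h
  · interval_cases L <;> norm_num
  · exact key L h

theorem K2_exp {τ : ℝ} (h1 : τ ≤ 1 / 100) (L : ℕ) :
    Real.exp (τ * L) ^ 2 ≤ (4 / 3) ^ L := by
  have e : Real.exp (τ * L) ^ 2 = Real.exp (2 * τ) ^ L := by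
    rw [← Real.exp_nat_mul, ← Real.exp_nat_mul]; congr 1; push_cast; ring
  rw [e]
  refine pow_le_pow_left₀ (Real.exp_pos _).le ?_ _
  have h2 : Real.exp (2 * τ) ≤ Real.exp (1 / 50) := Real.exp_le_exp.2 (by linarith)
  refine h2.trans ?_
  have h3 := Real.one_sub_le_exp_neg (1 / 50)
  have h4 : Real.exp (1 / 50) * Real.exp (-(1 / 50)) = 1 := by rw [← Real.exp_add]; norm_num
  have h5 := Real.exp_pos (1 / 50)
  nlinarith

theorem K2_ab {A B ρ : ℝ} (h : |A - B| ≤ ρ) :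
    |Real.exp A - Real.exp B| ≤ ρ * Real.exp ρ * Real.exp B := by
  have hρ : 0 ≤ ρ := (abs_nonneg _).trans h
  have e : Real.exp A - Real.exp B = (Real.exp (A - B) - 1) * Real.exp B := by
    rw [sub_mul, ← Real.exp_add, one_mul]; ring_nf
  rw [e, abs_mul, abs_of_pos (Real.exp_pos B)]
  refine mul_le_mul_of_nonneg_right ?_ (Real.exp_pos B).le
  obtain ⟨h1, h2⟩ := abs_le.1 h
  have h3 := Real.add_one_le_exp (A - B)
  have h4 := Real.add_one_le_exp (-(A - B))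
  have h5 : Real.exp (A - B) * Real.exp (-(A - B)) = 1 := by rw [← Real.exp_add]; norm_num
  have h6 := Real.exp_pos (A - B)
  have h7 : Real.exp (A - B) ≤ Real.exp ρ := Real.exp_le_exp.2 h2
  have h8 : 1 ≤ Real.exp ρ := Real.one_le_exp hρ
  rw [abs_le]
  constructor
  · nlinarith
  · have h9 : Real.exp (A - B) - 1 ≤ (A - B) * Real.exp (A - B) := by nlinarith
    have h10 : (A - B) * Real.exp (A - B) ≤ ρ * Real.exp (A - B) :=
      mul_le_mul_of_nonneg_right h2 h6.le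
    have h11 : ρ * Real.exp (A - B) ≤ ρ * Real.exp ρ := mul_le_mul_of_nonneg_left h7 hρ
    linarith

theorem K2_term {α β m : ℝ} (hα : 0 < α) (hβ : 0 < β) (h1 : |α - β| ≤ m * β)
    (h2 : |α - β| ≤ m * α) (x y : ℂ) :
    ‖((α - β : ℝ) : ℂ) * (conj ((α : ℂ) * x) * y) + ((β - α : ℝ) : ℂ) * (conj ((β : ℂ) * y) * x)‖ ≤
      2 * m * (‖(α : ℂ) * x‖ * ‖(β : ℂ) * y - (α : ℂ) * x‖) +
        m ^ 2 * (‖(α : ℂ) * x‖ * ‖(β : ℂ) * y‖) := by
  obtain ⟨G, hG⟩ : ∃ G : ℂ, G = (α : ℂ) * x := ⟨_, rfl⟩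
  obtain ⟨K, hK⟩ : ∃ K : ℂ, K = (β : ℂ) * y := ⟨_, rfl⟩
  have hαc : (α : ℂ) ≠ 0 := by exact_mod_cast hα.ne'
  have hβc : (β : ℂ) ≠ 0 := by exact_mod_cast hβ.ne'
  have hx : x = G / α := by rw [hG]; field_simp
  have hy : y = K / β := by rw [hK]; field_simp
  have hm : 0 ≤ m := by
    by_contra hc
    push Not at hc
    have := (abs_nonneg _).trans h1
    nlinarith
  rw [← hG, ← hK, hx, hy]
  have e : ((α - β : ℝ) : ℂ) * (conj G * (K / β)) + ((β - α : ℝ) : ℂ) * (conj K * (G / α)) =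
      (((α - β) / β : ℝ) : ℂ) * (conj G * (K - G) - conj (conj G * (K - G))) +
        (((α - β) / β * ((α - β) / α) : ℝ) : ℂ) * (conj K * G) := by
    simp only [map_mul, map_sub, Complex.conj_conj]
    push_cast
    field_simp
    ring
  rw [e]
  refine (norm_add_le _ _).trans ?_
  have n1 : ‖(((α - β) / β : ℝ) : ℂ)‖ ≤ m := by
    rw [Complex.norm_real, Real.norm_eq_abs, abs_div, abs_of_pos hβ, div_le_iff₀ hβ]
    exact h1
  have n2 : ‖(((α - β) / β * ((α - β) / α) : ℝ) : ℂ)‖ ≤ m ^ 2 := by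
    rw [Complex.norm_real, Real.norm_eq_abs, abs_mul, abs_div, abs_div, abs_of_pos hβ,
      abs_of_pos hα, sq]
    refine mul_le_mul ?_ ?_ (by positivity) hm
    · rw [div_le_iff₀ hβ]; exact h1
    · rw [div_le_iff₀ hα]; exact h2
  rw [norm_mul, norm_mul]
  have n3 : ‖conj G * (K - G) - conj (conj G * (K - G))‖ ≤ 2 * (‖G‖ * ‖K - G‖) := by
    refine (norm_sub_le _ _).trans ?_
    rw [RCLike.norm_conj, norm_mul, RCLike.norm_conj]
    linarith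
  have n4 : ‖conj K * G‖ = ‖G‖ * ‖K‖ := by rw [norm_mul, RCLike.norm_conj, mul_comm]
  rw [n4]
  have n5 := mul_le_mul n1 n3 (norm_nonneg _) hm
  have n6 := mul_le_mul_of_nonneg_right n2 (mul_nonneg (norm_nonneg G) (norm_nonneg K))
  linarith

/-- the truncated exponential weight -/
def K2w (τ : ℝ) (R : ℕ) (d : ℤ) : ℝ := Real.exp (τ * ((min d.natAbs R : ℕ) : ℝ))

theorem K2w_pos (τ : ℝ) (R : ℕ) (d : ℤ) : 0 < K2w τ R d := Real.exp_pos _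

theorem K2w_le {τ : ℝ} (hτ : 0 ≤ τ) (R : ℕ) (d : ℤ) :
    K2w τ R d ≤ Real.exp (τ * R) ∧ K2w τ R d ≤ Real.exp (τ * (d.natAbs : ℝ)) := by
  unfold K2w
  constructor
  · refine Real.exp_le_exp.2 (mul_le_mul_of_nonneg_left ?_ hτ)
    exact_mod_cast min_le_right _ _
  · refine Real.exp_le_exp.2 (mul_le_mul_of_nonneg_left ?_ hτ)
    exact_mod_cast min_le_left _ _

theorem K2w_eq {τ : ℝ} {R : ℕ} {d : ℤ} (h : d.natAbs ≤ R) :
    K2w τ R d = Real.exp (τ * (d.natAbs : ℝ)) := by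
  unfold K2w; rw [min_eq_left h]

theorem K2w_diff {τ : ℝ} (hτ : 0 ≤ τ) (R : ℕ) {d v : ℤ} {L : ℕ} (hv : v.natAbs ≤ L) :
    |K2w τ R d - K2w τ R (d - v)| ≤ τ * L * Real.exp (τ * L) * K2w τ R (d - v) ∧
    |K2w τ R d - K2w τ R (d - v)| ≤ τ * L * Real.exp (τ * L) * K2w τ R d := by
  have h1 : |((min d.natAbs R : ℕ) : ℝ) - ((min (d - v).natAbs R : ℕ) : ℝ)| ≤ L := by
    rw [abs_le]
    constructor
    · have : min (d - v).natAbs R ≤ min d.natAbs R + L := by omega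
      have h : ((min (d - v).natAbs R : ℕ) : ℝ) ≤ ((min d.natAbs R : ℕ) : ℝ) + L := by
        exact_mod_cast this
      linarith
    · have : min d.natAbs R ≤ min (d - v).natAbs R + L := by omega
      have h : ((min d.natAbs R : ℕ) : ℝ) ≤ ((min (d - v).natAbs R : ℕ) : ℝ) + L := by
        exact_mod_cast this
      linarith
  have h2 : |τ * ((min d.natAbs R : ℕ) : ℝ) - τ * ((min (d - v).natAbs R : ℕ) : ℝ)| ≤ τ * L := by
    rw [← mul_sub, abs_mul, abs_of_nonneg hτ]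
    exact mul_le_mul_of_nonneg_left h1 hτ
  refine ⟨K2_ab h2, ?_⟩
  rw [abs_sub_comm]
  rw [abs_sub_comm] at h2
  exact K2_ab h2

/-- the multiplication by the weight -/
def K2M (τ : ℝ) (hτ : 0 ≤ τ) (R : ℕ) : H →L[ℂ] H :=
  LinearMap.mkContinuous
    { toFun := fun f => ⟨fun d => (K2w τ R d : ℂ) * f d, mem2.2 (by
        refine Summable.of_nonneg_of_le (fun d => by positivity) (fun d => ?_)
          (f.sum.mul_left (Real.exp (τ * R) ^ 2))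
        rw [norm_mul, Complex.norm_real, Real.norm_eq_abs, abs_of_pos (K2w_pos τ R d), mul_pow]
        exact mul_le_mul_of_nonneg_right
          (pow_le_pow_left₀ (K2w_pos τ R d).le (K2w_le hτ R d).1 2) (sq_nonneg _))⟩
      map_add' := fun f g => by
        ext d
        simp only [lp.coeFn_add, Pi.add_apply]
        ring
      map_smul' := fun c f => by
        ext d
        simp only [lp.coeFn_smul, Pi.smul_apply, RingHom.id_apply, smul_eq_mul]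
        ring } (Real.exp (τ * R)) (fun f => by
        refine le_of_sq_le_sq ?_ (by positivity)
        rw [mul_pow, H.norm_sq, H.norm_sq, ← tsum_mul_left]
        refine Summable.tsum_le_tsum (fun d => ?_) ?_ (f.sum.mul_left _)
        · show ‖(K2w τ R d : ℂ) * f d‖ ^ 2 ≤ _
          rw [norm_mul, Complex.norm_real, Real.norm_eq_abs, abs_of_pos (K2w_pos τ R d), mul_pow]
          exact mul_le_mul_of_nonneg_right
            (pow_le_pow_left₀ (K2w_pos τ R d).le (K2w_le hτ R d).1 2) (sq_nonneg _)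
        · exact H.sum _)

theorem K2M_apply {τ : ℝ} (hτ : 0 ≤ τ) (R : ℕ) (f : H) (d : ℤ) :
    K2M τ hτ R f d = (K2w τ R d : ℂ) * f d := rfl

theorem K2_norm_le {f h : H} (hh : ∀ d, ‖f d‖ ≤ ‖h d‖) : ‖f‖ ≤ ‖h‖ := by
  refine le_of_sq_le_sq ?_ (norm_nonneg _)
  rw [H.norm_sq, H.norm_sq]
  exact Summable.tsum_le_tsum (fun d => pow_le_pow_left₀ (norm_nonneg _) (hh d) 2) f.sum h.sum

/-- the pairing with the commutator of a block -/
def K2P {M : Mdl} {τ : ℝ} (hτ : 0 ≤ τ) (R : ℕ) (u : H) (b : M.ι) : ℂ :=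
  inner ℂ (K2M τ hτ R u) (K2M τ hτ R (S (M.P b) (M.v b) u) - S (M.P b) (M.v b) (K2M τ hτ R u))

theorem K2P_hasSum {M : Mdl} {τ : ℝ} (hτ : 0 ≤ τ) (R : ℕ) (u : H) (b : M.ι) :
    HasSum (fun d : ℤ => if M.P b d then
      ((K2w τ R d - K2w τ R (d - M.v b) : ℝ) : ℂ) *
        (conj ((K2w τ R d : ℂ) * u d) * u (d - M.v b)) else 0) (K2P (M := M) hτ R u b) := by
  have h := lp.hasSum_inner (𝕜 := ℂ) (K2M τ hτ R u)
    (K2M τ hτ R (S (M.P b) (M.v b) u) - S (M.P b) (M.v b) (K2M τ hτ R u))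
  refine HasSum.congr_fun' h fun d => ?_
  have e : (K2M τ hτ R (S (M.P b) (M.v b) u) - S (M.P b) (M.v b) (K2M τ hτ R u)) d =
      (K2w τ R d : ℂ) * (if M.P b d then u (d - M.v b) else 0) -
        (if M.P b d then (K2w τ R (d - M.v b) : ℂ) * u (d - M.v b) else 0) := rfl
  rw [e, K2M_apply]
  split_ifs
  · rw [RCLike.inner_apply]
    push_cast
    ring
  · simp

theorem K2_sum {M : Mdl} {τ : ℝ} (hτ : 0 ≤ τ) (R : ℕ) (u : H) (b : M.ι) :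
    ‖K2P (M := M) hτ R u b + K2P (M := M) hτ R u (M.σ b)‖ ≤
      (128 * 4 ^ M.L b + 1) * (τ * M.L b * Real.exp (τ * M.L b)) ^ 2 * ‖K2M τ hτ R u‖ ^ 2 +
        ‖S (M.P b) (M.v b) (K2M τ hτ R u) - K2M τ hτ R u‖ ^ 2 / (128 * 4 ^ M.L b) := by
  obtain ⟨g, hg⟩ : ∃ g : H, g = K2M τ hτ R u := ⟨_, rfl⟩
  obtain ⟨m, hm⟩ : ∃ m : ℝ, m = τ * M.L b * Real.exp (τ * M.L b) := ⟨_, rfl⟩
  obtain ⟨K, hK⟩ : ∃ K : ℝ, K = 128 * 4 ^ M.L b := ⟨_, rfl⟩
  have hK0 : 0 < K := by rw [hK]; positivity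
  have h1 := K2P_hasSum (M := M) hτ R u b
  have h2 := K2P_hasSum (M := M) hτ R u (M.σ b)
  have h3 := (Equiv.subRight (M.v b)).hasSum_iff.2 h2
  have h4 := h1.add h3
  rw [← hg, ← hm, ← hK]
  have hgd : ∀ d, g d = (K2w τ R d : ℂ) * u d := fun d => by rw [hg]; rfl
  obtain ⟨h, hh⟩ : ∃ h : H, h = S (M.P b) (M.v b) g - g := ⟨_, rfl⟩
  rw [← hh]
  have s1 : HasSum (fun d => ‖g d‖ ^ 2) (‖g‖ ^ 2) := by rw [g.norm_sq]; exact g.sum.hasSum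
  have s2 : HasSum (fun d => ‖h d‖ ^ 2) (‖h‖ ^ 2) := by rw [h.norm_sq]; exact h.sum.hasSum
  have s3 : HasSum (fun d => ‖g (d - M.v b)‖ ^ 2) (‖g‖ ^ 2) :=
    (Equiv.subRight (M.v b)).hasSum_iff.2 s1
  have s4 := ((s1.mul_left (K * m ^ 2)).add (s2.mul_left (1 / K))).add
    ((s1.add s3).mul_left (m ^ 2 / 2))
  have e4 : (K + 1) * m ^ 2 * ‖g‖ ^ 2 + ‖h‖ ^ 2 / K =
      K * m ^ 2 * ‖g‖ ^ 2 + 1 / K * ‖h‖ ^ 2 + m ^ 2 / 2 * (‖g‖ ^ 2 + ‖g‖ ^ 2) := by ring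
  rw [e4, ← h4.tsum_eq]
  refine tsum_of_norm_bounded s4 fun d => ?_
  have hP : M.P (M.σ b) (d - M.v b) ↔ M.P b d := M.Pσ'.symm
  simp only [Function.comp, Equiv.subRight_apply]
  by_cases hp : M.P b d
  · rw [if_pos hp, if_pos (hP.2 hp)]
    have e1 : d - M.v b - M.v (M.σ b) = d := by rw [M.vσ]; ring
    rw [e1]
    have hv : (M.v b).natAbs ≤ M.L b := Mdl.vn_le (M := M) b
    obtain ⟨k1, k2⟩ := K2w_diff hτ R (d := d) hv
    rw [← hm] at k1 k2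
    have h5 := K2_term (K2w_pos τ R d) (K2w_pos τ R (d - M.v b)) k1 k2 (u d) (u (d - M.v b))
    refine h5.trans ?_
    rw [← hgd, ← hgd]
    have e2 : h d = g (d - M.v b) - g d := by
      rw [hh]
      show S (M.P b) (M.v b) g d - g d = _
      rw [S_apply, if_pos hp]
    rw [← e2]
    have q1 : 2 * m * (‖g d‖ * ‖h d‖) ≤ K * m ^ 2 * ‖g d‖ ^ 2 + 1 / K * ‖h d‖ ^ 2 := by
      have e5 : K * m ^ 2 * ‖g d‖ ^ 2 + 1 / K * ‖h d‖ ^ 2 - 2 * m * (‖g d‖ * ‖h d‖) =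
          (K * m * ‖g d‖ - ‖h d‖) ^ 2 / K := by field_simp; ring
      have e6 : 0 ≤ (K * m * ‖g d‖ - ‖h d‖) ^ 2 / K := by positivity
      linarith
    have q2 : m ^ 2 * (‖g d‖ * ‖g (d - M.v b)‖) ≤
        m ^ 2 / 2 * (‖g d‖ ^ 2 + ‖g (d - M.v b)‖ ^ 2) := by
      nlinarith [mul_nonneg (sq_nonneg m) (sq_nonneg (‖g d‖ - ‖g (d - M.v b)‖))]
    linarith
  · rw [if_neg hp, if_neg (fun hc => hp (hP.1 hc)), add_zero, norm_zero]
    positivity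

theorem K2_block (M : Mdl) {q : ℂ} (hq : ‖q‖ ≤ 2) {τ : ℝ} (hτ : 0 ≤ τ) (hτ1 : τ ≤ 1 / 100) (R : ℕ)
    (u : H) (b : M.ι) : ‖M.w q b * (K2P (M := M) hτ R u b + K2P (M := M) hτ R u (M.σ b))‖ ≤
      2064 * τ ^ 2 * ‖K2M τ hτ R u‖ ^ 2 * (M.c b * 16 ^ M.L b) +
      1 / 16 * (M.c b * M.qc ^ (M.L b + 2) * (‖K2M τ hτ R u‖ ^ 2 -
        (inner ℂ (K2M τ hτ R u) (S (M.P b) (M.v b) (K2M τ hτ R u))).re)) := by
  have h1 := K2_sum (M := M) hτ R u b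
  obtain ⟨g, hg⟩ : ∃ g : H, g = K2M τ hτ R u := ⟨_, rfl⟩
  rw [← hg] at h1 ⊢
  have h2 := Mdl.w_norm' (M := M) hq b
  have hc := M.c0 b
  have h3 : ‖S (M.P b) (M.v b) g - g‖ ^ 2 ≤
      2 * (‖g‖ ^ 2 - (inner ℂ g (S (M.P b) (M.v b) g)).re) := by
    have h1 : ‖g - S (M.P b) (M.v b) g‖ ^ 2 = ‖g‖ ^ 2 -
        2 * (inner ℂ g (S (M.P b) (M.v b) g)).re + ‖S (M.P b) (M.v b) g‖ ^ 2 :=
      norm_sub_sq (𝕜 := ℂ) g _
    have h2 : ‖S (M.P b) (M.v b) g‖ ≤ ‖g‖ := by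
      have := (S (M.P b) (M.v b)).le_opNorm g
      have h2 := mul_le_mul_of_nonneg_right (S_norm (M.P b) (M.v b)) (norm_nonneg g)
      linarith
    have h3 : ‖S (M.P b) (M.v b) g‖ ^ 2 ≤ ‖g‖ ^ 2 := pow_le_pow_left₀ (norm_nonneg _) h2 2
    rw [norm_sub_rev, h1]
    linarith
  obtain ⟨y, hy⟩ : ∃ y : ℝ, y = ‖g‖ ^ 2 - (inner ℂ g (S (M.P b) (M.v b) g)).re := ⟨_, rfl⟩
  rw [← hy] at h3 ⊢
  have hy0 : 0 ≤ y := by nlinarith [sq_nonneg ‖S (M.P b) (M.v b) g - g‖]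
  have hL := K2_L (M.L b)
  have he := K2_exp hτ1 (M.L b)
  have hqc : (1 / 2 : ℝ) ^ M.L b ≤ M.qc ^ (M.L b + 2) := by
    have g1 := M.qc_ge
    have g2 : (999 / 1000 : ℝ) ^ (M.L b + 2) ≤ M.qc ^ (M.L b + 2) :=
      pow_le_pow_left₀ (by norm_num) g1 _
    refine le_trans ?_ g2
    have hL1 := M.L1 b
    obtain ⟨L, hL⟩ : ∃ L : ℕ, L = M.L b := ⟨_, rfl⟩
    rw [← hL] at hL1 ⊢
    clear hL
    induction L, hL1 using Nat.le_induction with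
    | base => norm_num
    | succ n hn ih =>
      have h3 := ih
      rw [show n + 1 + 2 = (n + 2) + 1 by ring, pow_succ, pow_succ]
      exact mul_le_mul h3 (by norm_num) (by norm_num) (by positivity)
  obtain ⟨L, hLL⟩ : ∃ L : ℕ, L = M.L b := ⟨_, rfl⟩
  rw [← hLL] at h1 h2 hL he hqc ⊢
  obtain ⟨a, ha⟩ : ∃ a : ℝ, a = 2 ^ L := ⟨_, rfl⟩
  have ha0 : 0 < a := by rw [ha]; positivity
  have ha1 : 1 ≤ a := by rw [ha]; exact one_le_pow₀ (by norm_num)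
  have h4a : (4 : ℝ) ^ L = a ^ 2 := by rw [ha, ← pow_mul, mul_comm, pow_mul]; norm_num
  have h16 : (16 : ℝ) ^ L = a ^ 4 := by rw [ha, ← pow_mul, mul_comm, pow_mul]; norm_num
  have hm2 : (τ * L * Real.exp (τ * L)) ^ 2 ≤ 4 * τ ^ 2 * a := by
    have e1 : (τ * L * Real.exp (τ * L)) ^ 2 = τ ^ 2 * ((L : ℝ) ^ 2 * Real.exp (τ * L) ^ 2) := by
      ring
    rw [e1]
    have e2 : (L : ℝ) ^ 2 * Real.exp (τ * L) ^ 2 ≤ 4 * (3 / 2) ^ L * (4 / 3) ^ L :=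
      mul_le_mul hL he (sq_nonneg _) (by positivity)
    have e3 : 4 * (3 / 2 : ℝ) ^ L * (4 / 3) ^ L = 4 * a := by
      rw [mul_assoc, ← mul_pow, ha]; norm_num
    rw [e3] at e2
    nlinarith [mul_le_mul_of_nonneg_left e2 (sq_nonneg τ)]
  rw [norm_mul]
  have hsum : ‖K2P (M := M) hτ R u b + K2P (M := M) hτ R u (M.σ b)‖ ≤
      129 * a ^ 2 * (4 * τ ^ 2 * a) * ‖g‖ ^ 2 + 2 * y / (128 * a ^ 2) := by
    refine h1.trans (add_le_add ?_ ?_)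
    · refine mul_le_mul_of_nonneg_right ?_ (sq_nonneg _)
      rw [h4a]
      refine mul_le_mul ?_ hm2 (sq_nonneg _) (by positivity)
      nlinarith
    · rw [h4a]
      exact div_le_div_of_nonneg_right h3 (by positivity)
  rw [← ha] at h2
  have hf := mul_le_mul h2 hsum (norm_nonneg _) (by positivity)
  refine hf.trans ?_
  rw [h16]
  have hq2 : 1 / a ≤ M.qc ^ (L + 2) := by
    rw [one_div_pow] at hqc
    rw [ha]; exact hqc
  have e5 : 4 * a * M.c b * (129 * a ^ 2 * (4 * τ ^ 2 * a) * ‖g‖ ^ 2 + 2 * y / (128 * a ^ 2)) =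
      2064 * τ ^ 2 * ‖g‖ ^ 2 * (M.c b * a ^ 4) + 1 / 16 * (M.c b * (1 / a) * y) := by
    field_simp
    ring
  rw [e5]
  have e6 : M.c b * (1 / a) * y ≤ M.c b * M.qc ^ (L + 2) * y :=
    mul_le_mul_of_nonneg_right (mul_le_mul_of_nonneg_left hq2 hc) hy0
  linarith

/-- the commutator -/
theorem K2_comm (M : Mdl) {q : ℂ} (hq : ‖q‖ ≤ 2) {τ : ℝ} (hτ : 0 ≤ τ) (hτ1 : τ ≤ 1 / 100) (R : ℕ)
    (u : H) : ‖inner ℂ (K2M τ hτ R u) (K2M τ hτ R (M.K q u) - M.K q (K2M τ hτ R u))‖ ≤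
      1 / 100 * τ ^ 2 * ‖K2M τ hτ R u‖ ^ 2 + 1 / 32 * M.A (K2M τ hτ R u) := by
  obtain ⟨g, hg⟩ : ∃ g : H, g = K2M τ hτ R u := ⟨_, rfl⟩
  have h1 := (M.term_summable hq).hasSum
  have h2 := ContinuousLinearMap.hasSum (ContinuousLinearMap.apply ℂ H u) h1
  have h3 := ContinuousLinearMap.hasSum (K2M τ hτ R) h2
  have h4 := ContinuousLinearMap.hasSum (ContinuousLinearMap.apply ℂ H (K2M τ hτ R u)) h1
  have h5 := ContinuousLinearMap.hasSum (innerSL ℂ (K2M τ hτ R u)) (h3.sub h4)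
  have h6 : HasSum (fun b => M.w q b * K2P (M := M) hτ R u b)
      (inner ℂ (K2M τ hτ R u) (K2M τ hτ R (M.K q u) - M.K q (K2M τ hτ R u))) := by
    have e0 : K2M τ hτ R (M.K q u) - M.K q (K2M τ hτ R u) =
        K2M τ hτ R (M.N q u) - M.N q (K2M τ hτ R u) := by
      have e1 : M.K q u = q ^ 2 • u + M.N q u := rfl
      have e2 : M.K q (K2M τ hτ R u) = q ^ 2 • (K2M τ hτ R u) + M.N q (K2M τ hτ R u) := rfl
      rw [e1, e2, map_add, map_smul]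
      abel
    rw [e0]
    refine (h5 : HasSum _ (inner ℂ (K2M τ hτ R u)
      (K2M τ hτ R (M.N q u) - M.N q (K2M τ hτ R u)))).congr_fun' fun b => ?_
    show _ = inner ℂ (K2M τ hτ R u) (K2M τ hτ R (M.w q b • S (M.P b) (M.v b) u) -
      M.w q b • S (M.P b) (M.v b) (K2M τ hτ R u))
    rw [map_smul, ← smul_sub, inner_smul_right]
    rfl
  have h7 : HasSum (fun b => M.w q b * K2P (M := M) hτ R u (M.σ b))
      (inner ℂ (K2M τ hτ R u) (K2M τ hτ R (M.K q u) - M.K q (K2M τ hτ R u))) := by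
    have := (M.σe.hasSum_iff).2 h6
    refine this.congr_fun' fun b => ?_
    show _ = M.w q (M.σ b) * _
    rw [M.w_σ]
    rfl
  have h8 := h6.add h7
  have h9 := (M.sm.hasSum.mul_left (2064 * τ ^ 2 * ‖K2M τ hτ R u‖ ^ 2)).add
    ((M.A_hasSum (K2M τ hτ R u)).mul_left (1 / 16))
  have h10 := tsum_of_norm_bounded h9 (f := fun b => M.w q b * K2P (M := M) hτ R u b +
    M.w q b * K2P (M := M) hτ R u (M.σ b)) fun b => by
      rw [← mul_add]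
      exact K2_block M hq hτ hτ1 R u b
  rw [h8.tsum_eq, ← two_mul, norm_mul] at h10
  have h11 := M.s1
  have h12 : 2064 * τ ^ 2 * ‖K2M τ hτ R u‖ ^ 2 * ∑' b, M.c b * 16 ^ M.L b ≤
      2064 * τ ^ 2 * ‖K2M τ hτ R u‖ ^ 2 * (1 / 10 ^ 6) :=
    mul_le_mul_of_nonneg_left h11 (by positivity)
  have h13 : ‖(2 : ℂ)‖ = 2 := by norm_num
  rw [h13] at h10
  have h14 : 0 ≤ τ ^ 2 * ‖K2M τ hτ R u‖ ^ 2 := by positivity
  nlinarith

/-- the sum of the geometric weights -/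
def K2g : ℝ := ∑' d : ℤ, ((d.natAbs : ℝ) + 1) * (3 / 4) ^ d.natAbs

theorem K2g_nonneg : 0 ≤ K2g := tsum_nonneg fun d => by positivity

theorem K2_inner {f h : H} (h0 : f 0 = 0) {X : ℝ} (hX0 : 0 ≤ X)
    (hX : ∀ d : ℤ, ‖h d‖ ≤ X * (3 / 4) ^ d.natAbs) :
    ‖inner ℂ f h‖ ≤ X * K2g * √(D f) := by
  rw [lp.inner_eq_tsum]
  have hs := (int_geom1 (r := 3 / 4) (by norm_num) (by norm_num)).mul_left (X * √(D f))
  have e : X * K2g * √(D f) = ∑' d : ℤ, X * √(D f) * (((d.natAbs : ℝ) + 1) * (3 / 4) ^ d.natAbs) := by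
    rw [tsum_mul_left]; unfold K2g; ring
  rw [e]
  refine tsum_of_norm_bounded hs.hasSum fun d => ?_
  refine (norm_inner_le_norm _ _).trans ?_
  have h1 := Mdl.norm_le_sqrt h0 d
  calc ‖f d‖ * ‖h d‖ ≤ (((d.natAbs : ℝ) + 1) * √(D f)) * (X * (3 / 4) ^ d.natAbs) :=
        mul_le_mul h1 (hX d) (norm_nonneg _) (by positivity)
    _ = _ := by ring

/-- the algebra at the end -/
theorem K2_alg {A s n F1 F2 C c x : ℝ} (hA : 0 ≤ A) (hs : 0 < s) (hn : 0 ≤ n) (hF1 : 0 ≤ F1)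
    (hF2 : 0 ≤ F2) (hC : 0 ≤ C) (hc : 0 < c) (hx : 0 ≤ x) (hxA : c * x ^ 2 ≤ A)
    (h : 1 / 16 * (A + s * n ^ 2) ≤ n * F1 + C * F2 * x) :
    n ≤ 16 * (F1 / s + C * F2 / √(c * s)) := by
  have hcs : 0 < c * s := mul_pos hc hs
  have hr := Real.sqrt_pos.2 hcs
  have hr2 : √(c * s) ^ 2 = c * s := Real.sq_sqrt hcs.le
  obtain ⟨r, hrr⟩ : ∃ r : ℝ, r = √(c * s) := ⟨_, rfl⟩
  rw [← hrr] at hr hr2 ⊢
  by_contra hcon
  push Not at hcon
  -- n > 16 (F1/s + C F2 / r)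
  have h1 : 16 * (F1 / s) * s = 16 * F1 := by field_simp
  have h2 : (C * F2) ^ 2 = (C * F2 / r) ^ 2 * (c * s) := by rw [← hr2]; field_simp
  obtain ⟨P, hP⟩ : ∃ P : ℝ, P = F1 / s := ⟨_, rfl⟩
  obtain ⟨Q, hQ⟩ : ∃ Q : ℝ, Q = C * F2 / r := ⟨_, rfl⟩
  have hP0 : 0 ≤ P := by rw [hP]; positivity
  have hQ0 : 0 ≤ Q := by rw [hQ]; positivity
  have e1 : F1 = P * s := by rw [hP]; field_simp
  have e2 : C * F2 = Q * r := by rw [hQ]; field_simp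
  rw [← hP, ← hQ] at hcon
  rw [e1, e2] at h
  -- (c x² + s n²)/16 ≤ n P s + Q r x
  have h3 : 1 / 16 * (c * x ^ 2 + s * n ^ 2) ≤ n * (P * s) + Q * r * x := by linarith
  -- Q r x ≤ c x²/16 + 4 Q² s
  have h4 : Q * r * x ≤ 1 / 16 * (c * x ^ 2) + 4 * Q ^ 2 * s := by
    have h5 : 0 ≤ (r * x / 4 - 2 * Q * s) ^ 2 / s := by positivity
    have h6 : (r * x / 4 - 2 * Q * s) ^ 2 / s =
        1 / 16 * (c * x ^ 2) + 4 * Q ^ 2 * s - Q * r * x := by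
      have h7 : (r * x / 4 - 2 * Q * s) ^ 2 = r ^ 2 * x ^ 2 / 16 - Q * r * x * s +
        4 * Q ^ 2 * s ^ 2 := by ring
      rw [h7, hr2]
      field_simp
      ring
    linarith
  have h8 : 1 / 16 * (s * n ^ 2) ≤ s * (n * P + 4 * Q ^ 2) := by nlinarith
  have h9 : n ^ 2 ≤ 16 * (n * P + 4 * Q ^ 2) := by
    have : s * (n ^ 2) ≤ s * (16 * (n * P + 4 * Q ^ 2)) := by linarith
    exact le_of_mul_le_mul_left this hs
  nlinarith [mul_nonneg hP0 hQ0, mul_nonneg hn hQ0, mul_nonneg hn hP0]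

theorem K2_one (M : Mdl) {q : ℂ} (hq : q ∈ M.U) {τ : ℝ} (hτ : 0 ≤ τ) (hτ1 : τ ≤ 1 / 100)
    (hτ2 : τ ^ 2 ≤ ‖(M.qc : ℂ) - q‖) (R : ℕ) {f1 f2 : H} {F1 F2 : ℝ} (hF2 : 0 ≤ F2)
    (h10 : f1 0 = 0) (h20 : f2 0 = 0) (hf1 : Wb τ f1 F1)
    (hf2 : ∀ d, ‖f2 d‖ ≤ F2 * (1 / 2) ^ d.natAbs) :
    ‖K2M τ hτ R (M.G q (f1 + f2))‖ ≤ 16 * (F1 / ‖(M.qc : ℂ) - q‖ +
      K2g * F2 / √((1 / 2 * (M.a * M.qc ^ 3)) * ‖(M.qc : ℂ) - q‖)) := by
  obtain ⟨u, hu⟩ : ∃ u : H, u = M.G q (f1 + f2) := ⟨_, rfl⟩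
  have hG : u - M.K q u = f1 + f2 := by rw [hu]; exact Mdl.G_right (M.isUnit_of_U hq) _
  rw [← hu]
  have hq2 : ‖q‖ ≤ 2 := hq.1.le
  have hs := M.qc_ne hq
  obtain ⟨s, hss⟩ : ∃ s : ℝ, s = ‖(M.qc : ℂ) - q‖ := ⟨_, rfl⟩
  rw [← hss] at hs hτ2 ⊢
  obtain ⟨g, hg⟩ : ∃ g : H, g = K2M τ hτ R u := ⟨_, rfl⟩
  have hu0 : u 0 = 0 := by
    have h1 : u 0 - M.K q u 0 = 0 := by
      have h2 : (u - M.K q u) 0 = (f1 + f2) 0 := by rw [hG]
      have h3 : (u - M.K q u) 0 = u 0 - M.K q u 0 := rfl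
      have h4 : (f1 + f2) 0 = f1 0 + f2 0 := rfl
      rw [← h3, h2, h4, h10, h20, add_zero]
    rw [M.K_apply, Mdl.N_zero hq2, add_zero] at h1
    have h2 : (1 - q ^ 2) * u 0 = 0 := by linear_combination h1
    rcases mul_eq_zero.1 h2 with h3 | h3
    · exfalso
      have h4 : q ^ 2 = 1 := by linear_combination -h3
      have h5 := hq.2.2
      rw [h4] at h5
      have h6 : ((M.qc : ℂ) ^ 2 - 1) = ((M.qc ^ 2 - 1 : ℝ) : ℂ) := by push_cast; ring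
      rw [h6, Complex.norm_real, Complex.ofReal_re, Real.norm_eq_abs] at h5
      have h7 : M.qc ^ 2 - 1 < 0 := by nlinarith [M.qc_pos, M.qc_lt]
      rw [abs_of_neg h7] at h5
      linarith
    · exact h3
  have hg0 : g 0 = 0 := by
    rw [hg, K2M_apply, hu0, mul_zero]
  have h1 := M.num_range hq g
  have h2 := K2_comm M hq2 hτ hτ1 R u
  rw [← hg] at h2
  have e1 : g - M.K q g = K2M τ hτ R f1 + K2M τ hτ R f2 +
      (K2M τ hτ R (M.K q u) - M.K q g) := by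
    have e2 : K2M τ hτ R f1 + K2M τ hτ R f2 = g - K2M τ hτ R (M.K q u) := by
      rw [← map_add, ← hG, map_sub, hg]
    rw [e2]
    abel
  have h3 : ‖inner ℂ g (K2M τ hτ R f1)‖ ≤ ‖g‖ * F1 := by
    refine (norm_inner_le_norm _ _).trans (mul_le_mul_of_nonneg_left ?_ (norm_nonneg _))
    obtain ⟨k, hk1, hk2⟩ := hf1
    refine (K2_norm_le (h := k) fun d => ?_).trans hk2
    rw [hk1, K2M_apply, norm_mul, norm_mul, Complex.norm_real, Complex.norm_real,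
      Real.norm_eq_abs, Real.norm_eq_abs, abs_of_pos (K2w_pos τ R d), abs_of_pos (Real.exp_pos _)]
    exact mul_le_mul_of_nonneg_right (K2w_le hτ R d).2 (norm_nonneg _)
  have hF1 : 0 ≤ F1 := by
    obtain ⟨k, hk1, hk2⟩ := hf1
    exact (norm_nonneg _).trans hk2
  have h4 : ‖inner ℂ g (K2M τ hτ R f2)‖ ≤ F2 * K2g * √(D g) := by
    refine K2_inner hg0 hF2 fun d => ?_
    rw [K2M_apply, norm_mul, Complex.norm_real, Real.norm_eq_abs, abs_of_pos (K2w_pos τ R d)]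
    have h5 : K2w τ R d ≤ (3 / 2) ^ d.natAbs := by
      refine (K2w_le hτ R d).2.trans ?_
      rw [mul_comm, Real.exp_nat_mul]
      refine pow_le_pow_left₀ (Real.exp_pos _).le ?_ _
      have h2 : Real.exp τ ≤ Real.exp (1 / 50) := Real.exp_le_exp.2 (by linarith)
      refine h2.trans ?_
      have h3 := Real.one_sub_le_exp_neg (1 / 50)
      have h4 : Real.exp (1 / 50) * Real.exp (-(1 / 50)) = 1 := by rw [← Real.exp_add]; norm_num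
      have h5 := Real.exp_pos (1 / 50)
      nlinarith
    calc K2w τ R d * ‖f2 d‖ ≤ (3 / 2) ^ d.natAbs * (F2 * (1 / 2) ^ d.natAbs) :=
          mul_le_mul h5 (hf2 d) (norm_nonneg _) (by positivity)
      _ = F2 * ((3 / 2) ^ d.natAbs * (1 / 2) ^ d.natAbs) := by ring
      _ = _ := by rw [← mul_pow]; norm_num
  rw [e1, inner_add_right, inner_add_right] at h1
  have h5 : ‖inner ℂ g (K2M τ hτ R f1) + inner ℂ g (K2M τ hτ R f2) +
      inner ℂ g (K2M τ hτ R (M.K q u) - M.K q g)‖ ≤ ‖g‖ * F1 + F2 * K2g * √(D g) +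
      (1 / 100 * τ ^ 2 * ‖g‖ ^ 2 + 1 / 32 * M.A g) :=
    (norm_add_le _ _).trans (add_le_add ((norm_add_le _ _).trans (add_le_add h3 h4)) h2)
  have h6 := h1.trans h5
  rw [← hss] at h6
  rw [← hg]
  have h7 := M.A_ge g
  have h8 := M.A_nonneg g
  have hc : 0 < 1 / 2 * (M.a * M.qc ^ 3) := by
    have := M.a0
    have := M.qc_pos
    positivity
  refine K2_alg h8 hs (norm_nonneg g) hF1 hF2 K2g_nonneg hc (Real.sqrt_nonneg (D g)) ?_ ?_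
  · rw [Real.sq_sqrt (D_nonneg g)]
    exact h7
  · have h9 : τ ^ 2 * ‖g‖ ^ 2 ≤ s * ‖g‖ ^ 2 := mul_le_mul_of_nonneg_right hτ2 (sq_nonneg _)
    have h10 : 0 ≤ s * ‖g‖ ^ 2 := by positivity
    linarith

theorem K2_lim {τ : ℝ} (hτ : 0 ≤ τ) {u : H} {Y : ℝ} (hY : 0 ≤ Y)
    (h : ∀ R : ℕ, ‖K2M τ hτ R u‖ ≤ Y) : Wb τ u Y := by
  have hb : ∀ s : Finset ℤ, ∑ d ∈ s, ‖(Real.exp (τ * (d.natAbs : ℝ)) : ℂ) * u d‖ ^ 2 ≤ Y ^ 2 := by
    intro s
    obtain ⟨R, hR⟩ : ∃ R : ℕ, ∀ d ∈ s, d.natAbs ≤ R :=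
      ⟨s.sup fun d => d.natAbs, fun d hd => Finset.le_sup (f := fun d : ℤ => d.natAbs) hd⟩
    have h1 : ∑ d ∈ s, ‖(Real.exp (τ * (d.natAbs : ℝ)) : ℂ) * u d‖ ^ 2 =
        ∑ d ∈ s, ‖K2M τ hτ R u d‖ ^ 2 := by
      refine Finset.sum_congr rfl fun d hd => ?_
      rw [K2M_apply, K2w_eq (hR d hd)]
    rw [h1]
    calc ∑ d ∈ s, ‖K2M τ hτ R u d‖ ^ 2 ≤ ∑' d, ‖K2M τ hτ R u d‖ ^ 2 :=
          (K2M τ hτ R u).sum.sum_le_tsum _ fun d _ => by positivity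
      _ = ‖K2M τ hτ R u‖ ^ 2 := (H.norm_sq _).symm
      _ ≤ Y ^ 2 := pow_le_pow_left₀ (norm_nonneg _) (h R) 2
  have hs : Summable fun d : ℤ => ‖(Real.exp (τ * (d.natAbs : ℝ)) : ℂ) * u d‖ ^ 2 :=
    summable_of_sum_le (fun d => by positivity) hb
  refine ⟨⟨fun d => (Real.exp (τ * (d.natAbs : ℝ)) : ℂ) * u d, mem2.2 hs⟩, fun d => rfl, ?_⟩
  refine le_of_sq_le_sq ?_ hY
  rw [H.norm_sq]
  exact hs.tsum_le_of_sum_le hb

/-- For `g_R = exp(τ min(|d|,R)) G f`: `⟨g_R, (1-K) g_R⟩ = ⟨g_R, e f⟩ + ⟨g_R, (K_τ - K) g_R⟩`, where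
`K_τ - K = ∑ w_b Sg(exp(τ(ρ(d)-ρ(d-v_b))) - 1 on P b)` (a `Mul` family with z = 0, see X1). Symmetrising with σ, for
a = τ(ρ(d)-ρ(d-v)), |a| ≤ τL: ½((e^a-1)X + (e^{-a}-1)X̄) = ½((cosh a-1)(X+X̄) + sinh a (X-X̄)), X = conj g(d) g(d-v),
|X-X̄| ≤ 2|g(d)||g(d-v)-g(d)|, so |⟨g,(K_τ-K)g⟩| ≤ C δ (A(g) + t²‖g‖²) for τ ≤ δt, using
‖S (P b) (v b) g - g‖² ≤ C_M L_b² A(g) (from the block bp and its mirror; Pool.Agent.H132.SQ.X6 has similar commutator bounds),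
while num_range (En.lean) gives |⟨g,(1-K)g⟩| ≥ (A(g) + ‖qc-q‖‖g‖²)/8, t² ≤ 3 gam ‖qc-q‖ (kap_le_sub), and
|⟨g, f2⟩| ≤ C F2 √D(g) (inner_le_of_bd2-like, (3/4)^|d| decay as e^τ ≤ 3/2), A ≥ ½ a qc³ D (A_ge). R → ∞. `τ` small on all of `U`:
t² ≤ 9·gam there. -/
theorem res_w (M : Mdl) : ∃ δ Y : ℝ, 0 < δ ∧ 0 ≤ Y ∧ (∀ q ∈ M.U, δ * ‖M.kap q‖ ≤ 1 / 4) ∧
    ∀ q ∈ M.U, ∀ τ : ℝ, 0 ≤ τ → τ ≤ δ * ‖M.kap q‖ → ∀ (f1 f2 : H) (F1 F2 : ℝ), 0 ≤ F2 →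
    f1 0 = 0 → f2 0 = 0 → Wb τ f1 F1 → (∀ d, ‖f2 d‖ ≤ F2 * (1 / 2) ^ d.natAbs) →
    Wb τ (M.G q (f1 + f2)) (Y * (F1 / ‖M.kap q‖ ^ 2 + F2 / ‖M.kap q‖)) := by
  have hgam := M.gam_ge
  have hgam0 := M.gam_pos
  have hc : 0 < 1 / 2 * (M.a * M.qc ^ 3) := by
    have := M.a0
    have := M.qc_pos
    positivity
  obtain ⟨c, hcc⟩ : ∃ c : ℝ, c = 1 / 2 * (M.a * M.qc ^ 3) := ⟨_, rfl⟩
  rw [← hcc] at hc
  have hkap : ∀ q ∈ M.U, ‖M.kap q‖ ≤ M.gam := by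
    intro q hq
    refine le_of_sq_le_sq ?_ hgam0.le
    rw [Mdl.kap_norm_sq]
    have h1 : ‖(M.qc : ℂ) ^ 2 - q ^ 2‖ ≤ 5 := by
      refine (norm_sub_le _ _).trans ?_
      rw [norm_pow, norm_pow, Complex.norm_real, Real.norm_eq_abs, abs_of_pos M.qc_pos]
      have h2 := hq.1
      have h3 := M.qc_lt
      have h4 := M.qc_pos
      have h5 := norm_nonneg q
      nlinarith
    nlinarith
  refine ⟨1 / (100 * M.gam), 16 * (3 * M.gam + K2g * √(3 * M.gam / c)), by positivity, ?_, ?_, ?_⟩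
  · have := K2g_nonneg
    positivity
  · intro q hq
    have h1 := hkap q hq
    rw [one_div_mul_eq_div, div_le_iff₀ (by positivity)]
    linarith
  · intro q hq τ hτ hτ1 f1 f2 F1 F2 hF2 h10 h20 hf1 hf2
    have hk := hkap q hq
    have hk0 := Mdl.kap_pos hq
    obtain ⟨t, ht⟩ : ∃ t : ℝ, t = ‖M.kap q‖ := ⟨_, rfl⟩
    have hF1 : 0 ≤ F1 := by
      obtain ⟨k, hk1, hk2⟩ := hf1
      exact (norm_nonneg _).trans hk2
    have hs := M.qc_ne hq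
    have hd := Mdl.dist_ge hq
    obtain ⟨s, hss⟩ : ∃ s : ℝ, s = ‖(M.qc : ℂ) - q‖ := ⟨_, rfl⟩
    rw [← ht] at hk hk0 hτ1 hd ⊢
    rw [← hss] at hs hd
    have hg := K2g_nonneg
    have hts : t ^ 2 ≤ 3 * M.gam * s := by
      rw [div_le_div_iff₀ hs (by positivity)] at hd
      linarith
    have e1 : 1 / (100 * M.gam) * t = t / (100 * M.gam) := by ring
    rw [e1, le_div_iff₀ (by positivity)] at hτ1
    have hτ100 : τ ≤ 1 / 100 := by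
      by_contra hcon
      push Not at hcon
      nlinarith
    have hτ2 : τ ^ 2 ≤ s := by
      have h1 : (τ * (100 * M.gam)) ^ 2 ≤ t ^ 2 := pow_le_pow_left₀ (by positivity) hτ1 2
      have h2 : τ ^ 2 * (10000 * M.gam ^ 2) ≤ 3 * M.gam * s := by nlinarith
      have h3 : M.gam * (τ ^ 2 * (10000 * M.gam)) ≤ M.gam * (3 * s) := by nlinarith
      have h4 : τ ^ 2 * (10000 * M.gam) ≤ 3 * s := le_of_mul_le_mul_left h3 hgam0
      have h5 : τ ^ 2 * 10000 ≤ τ ^ 2 * (10000 * M.gam) :=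
        mul_le_mul_of_nonneg_left (by linarith) (sq_nonneg τ)
      linarith [sq_nonneg τ]
    refine K2_lim hτ (by positivity) fun R => ?_
    rw [hss] at hτ2
    refine (K2_one M hq hτ hτ100 hτ2 R hF2 h10 h20 hf1 hf2).trans ?_
    rw [← hss, ← hcc]
    have k1 : F1 / s ≤ 3 * M.gam * (F1 / t ^ 2) := by
      calc F1 / s = F1 * (1 / s) := by ring
        _ ≤ F1 * (3 * M.gam / t ^ 2) := mul_le_mul_of_nonneg_left hd hF1
        _ = _ := by ring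
    have k2 : K2g * F2 / √(c * s) ≤ K2g * √(3 * M.gam / c) * (F2 / t) := by
      have h1 : t ≤ √(3 * M.gam / c) * √(c * s) := by
        rw [← Real.sqrt_mul (by positivity)]
        refine Real.le_sqrt_of_sq_le ?_
        have e : 3 * M.gam / c * (c * s) = 3 * M.gam * s := by field_simp
        rw [e]
        exact hts
      have h2 : 0 < √(c * s) := Real.sqrt_pos.2 (mul_pos hc hs)
      rw [div_le_iff₀ h2]
      have h3 : K2g * √(3 * M.gam / c) * (F2 / t) * √(c * s) =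
          K2g * F2 * ((√(3 * M.gam / c) * √(c * s)) / t) := by ring
      rw [h3]
      refine le_mul_of_one_le_right (by positivity) ?_
      rw [le_div_iff₀ hk0, one_mul]
      exact h1
    have k3 : 0 ≤ F2 / t := by positivity
    have k4 : 0 ≤ F1 / t ^ 2 := by positivity
    have k5 : 0 ≤ K2g * √(3 * M.gam / c) := by positivity
    nlinarith [mul_nonneg k5 k4, mul_nonneg hgam0.le k3]

end
end KN.SQ
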