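import Pool.Agent.H132.SQ.G1

/-!
# Block operators in weighted norms
-/

set_option autoImplicit false

namespace KN.SQ
open Finset Filter Topology
open scoped Classical ENNReal ComplexConjugate
noncomputable section
theorem K3_dom {φ : ℤ → ℂ} {g : H} {Y : ℝ} (hY : 0 ≤ Y) (v : ℤ)
    (h : ∀ d, ‖φ d‖ ≤ Y * ‖g (d - v)‖) : ∃ u : H, (∀ d, u d = φ d) ∧ ‖u‖ ≤ Y * ‖g‖ := by
  have h1 : ∀ d, ‖φ d‖ ^ 2 ≤ Y ^ 2 * ‖g (d - v)‖ ^ 2 := by
    intro d
    rw [← mul_pow]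
    exact pow_le_pow_left₀ (norm_nonneg _) (h d) 2
  have hs : Summable fun d => Y ^ 2 * ‖g (d - v)‖ ^ 2 := (shift_summable g.sum v).mul_left _
  have h2 : Summable fun d => ‖φ d‖ ^ 2 :=
    Summable.of_nonneg_of_le (fun d => by positivity) h1 hs
  have h3 : ∀ d, toH φ d = φ d := toH_apply h2
  refine ⟨toH φ, h3, ?_⟩
  refine le_of_sq_le_sq ?_ (by positivity)
  rw [H.norm_sq]
  simp only [h3]
  refine (h2.tsum_le_tsum h1 hs).trans ?_
  rw [tsum_mul_left, shift_tsum (fun d => ‖g d‖ ^ 2) v, ← H.norm_sq, mul_pow]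

theorem K3_exp {τ : ℝ} (h0 : 0 ≤ τ) (h1 : τ ≤ 1 / 2) {v : ℤ} {L : ℕ} (hv : |v| ≤ (L : ℤ)) (d : ℤ) :
    Real.exp (τ * (d.natAbs : ℝ)) ≤ 2 ^ L * Real.exp (τ * ((d - v).natAbs : ℝ)) := by
  have h2 : (d.natAbs : ℝ) ≤ ((d - v).natAbs : ℝ) + L := by
    have h3 : d.natAbs ≤ (d - v).natAbs + L := by
      have h4 := abs_le.1 hv
      omega
    exact_mod_cast h3
  have h4 : Real.exp (τ * (d.natAbs : ℝ)) ≤ Real.exp (τ * ((d - v).natAbs : ℝ) + L * (1 / 2)) := by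
    apply Real.exp_le_exp.2
    have h5 : τ * (d.natAbs : ℝ) ≤ τ * (((d - v).natAbs : ℝ) + L) := mul_le_mul_of_nonneg_left h2 h0
    have h6 : τ * (L : ℝ) ≤ 1 / 2 * L := mul_le_mul_of_nonneg_right h1 (Nat.cast_nonneg _)
    linarith
  refine h4.trans ?_
  rw [Real.exp_add, mul_comm (2 ^ L : ℝ)]
  apply mul_le_mul_of_nonneg_left _ (Real.exp_nonneg _)
  rw [Real.exp_nat_mul]
  apply pow_le_pow_left₀ (Real.exp_nonneg _)
  have h7 := Real.exp_one_lt_d9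
  have h8 : Real.exp (1 / 2) * Real.exp (1 / 2) = Real.exp 1 := by
    rw [← Real.exp_add]
    norm_num
  nlinarith [Real.exp_pos (1 / 2)]

theorem K3_shift {τ : ℝ} (h0 : 0 ≤ τ) (h1 : τ ≤ 1 / 2) {h f' : H} {G : ℝ} {v : ℤ} {L : ℕ}
    (hv : |v| ≤ (L : ℤ)) (hh : Wb τ h G) (he : ∀ d, f' d = h (d - v)) : Wb τ f' (2 ^ L * G) := by
  obtain ⟨g, hg, hG⟩ := hh
  obtain ⟨u, hu, hun⟩ := K3_dom (φ := fun d => (Real.exp (τ * (d.natAbs : ℝ)) : ℂ) * f' d) (g := g)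
    (Y := 2 ^ L) (by positivity) v (by
      intro d
      rw [hg, he, norm_mul, norm_mul, ← mul_assoc]
      apply mul_le_mul_of_nonneg_right _ (norm_nonneg _)
      rw [Complex.norm_real, Complex.norm_real, Real.norm_eq_abs, Real.norm_eq_abs,
        abs_of_pos (Real.exp_pos _), abs_of_pos (Real.exp_pos _)]
      exact K3_exp h0 h1 hv d)
  exact ⟨u, hu, hun.trans (mul_le_mul_of_nonneg_left hG (by positivity))⟩

theorem K3_tsum {ι : Type} {τ : ℝ} {f : ι → H} {F : ι → ℝ} (hF : Summable F)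
    (h : ∀ i, Wb τ (f i) (F i)) {u : H} (hu : ∀ d, HasSum (fun i => f i d) (u d)) :
    Wb τ u (∑' i, F i) := by
  choose g hg hG using h
  have hs : Summable g := Summable.of_norm_bounded hF hG
  refine ⟨∑' i, g i, ?_, tsum_of_norm_bounded hF.hasSum hG⟩
  intro d
  have h1 : HasSum (fun i => g i d) ((∑' i, g i) d) :=
    ContinuousLinearMap.hasSum (ev d) hs.hasSum
  have h2 : HasSum (fun i => g i d) ((Real.exp (τ * (d.natAbs : ℝ)) : ℂ) * u d) :=
    ((hu d).mul_left _).congr_fun' fun i => hg i d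
  exact h1.unique h2

/-- e^{τ'|d|} ≤ e^{τ'|d-v|} 2^L; copy Om_lin (X1) with Wb.poly -/
theorem Om_wb {M : Mdl} (j : ℕ) : ∃ Z : ℝ, 0 ≤ Z ∧ ∀ (X : Mul M) (a : ℝ), X.Gr j a →
    ∀ q : ℂ, ‖q‖ ≤ 2 → ∀ τ τ' : ℝ, 0 ≤ τ' → τ' < τ → τ ≤ 1 / 2 → ∀ (f : H) (F : ℝ), Wb τ f F →
    Wb τ' (X.Om q f) (Z * a / (τ - τ') ^ j * F) := by
  refine ⟨15 * j.factorial, by positivity, ?_⟩
  intro X a hGr q hq τ τ' h0 hlt hle f F hf
  obtain ⟨ha, hm, hz⟩ := hGr
  have hF0 : 0 ≤ F := by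
    obtain ⟨g, -, hg⟩ := hf
    exact (norm_nonneg g).trans hg
  have hd : 0 < τ - τ' := by linarith
  set K : ℝ := 3 * j.factorial / (τ - τ') ^ j with hK
  have hK0 : 0 ≤ K := by positivity
  have hQ0 : 0 ≤ a * K * F := by positivity
  have hwz : Wb τ' (X.oz f) (a * K * F) := by
    refine Wb.poly hlt (by linarith) j ha hf fun d => ?_
    show ‖(X.z d : ℂ) * f (d - 0)‖ ≤ _
    rw [norm_mul, Complex.norm_real, Real.norm_eq_abs, sub_zero]
    exact mul_le_mul_of_nonneg_right (hz d) (norm_nonneg _)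
  have hwb : ∀ b, Wb τ' (M.w q b • X.ob b f) (M.c b * 16 ^ M.L b * (4 * (a * K * F))) := by
    intro b
    have hR4 : 0 ≤ X.R * 4 ^ M.L b := mul_nonneg X.R0 (by positivity)
    obtain ⟨u, hu, -⟩ := K3_dom (φ := fun d => (X.m b (d + M.v b) : ℂ) * f d) (g := f)
      (Y := X.R * 4 ^ M.L b) hR4 0 (by
        intro d
        rw [norm_mul, Complex.norm_real, Real.norm_eq_abs, sub_zero]
        exact mul_le_mul_of_nonneg_right (X.bd b _) (norm_nonneg _))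
    have h1 : Wb τ' u ((a * 4 ^ M.L b) * K * F) := by
      refine Wb.poly hlt (by linarith) j (by positivity) hf fun d => ?_
      rw [hu, norm_mul, Complex.norm_real, Real.norm_eq_abs]
      have h2 := hm b (d + M.v b)
      rw [add_sub_cancel_right] at h2
      exact mul_le_mul_of_nonneg_right h2 (norm_nonneg _)
    have h2 : Wb τ' (X.ob b f) (2 ^ M.L b * ((a * 4 ^ M.L b) * K * F)) := by
      refine K3_shift h0 (by linarith) (M.vL b) h1 fun d => ?_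
      rw [hu]
      show (X.m b d : ℂ) * f (d - M.v b) = _
      rw [sub_add_cancel]
    refine (h2.smul (M.w q b)).mono ?_
    have h3 := Mdl.w_norm' (M := M) hq b
    have hc := M.c0 b
    have h4 : (2 : ℝ) ^ M.L b * 2 ^ M.L b * 4 ^ M.L b = 16 ^ M.L b := by
      rw [← mul_pow, ← mul_pow]
      norm_num
    calc ‖M.w q b‖ * (2 ^ M.L b * ((a * 4 ^ M.L b) * K * F))
        ≤ (4 * 2 ^ M.L b * M.c b) * (2 ^ M.L b * ((a * 4 ^ M.L b) * K * F)) :=
          mul_le_mul_of_nonneg_right h3 (by positivity)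
      _ = M.c b * (2 ^ M.L b * 2 ^ M.L b * 4 ^ M.L b) * (4 * (a * K * F)) := by ring
      _ = _ := by rw [h4]
  have hsum := K3_tsum (M.sm.mul_right (4 * (a * K * F))) hwb
    (u := X.Om q f - q ^ 2 • X.oz f) (fun d => by
      have h := X.Om_val hq f d
      have e : (X.Om q f - q ^ 2 • X.oz f) d = X.Om q f d - q ^ 2 * ((X.z d : ℂ) * f d) := by
        show X.Om q f d - q ^ 2 * ((X.z d : ℂ) * f (d - 0)) = _
        rw [sub_zero]
      rw [e]
      exact h)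
  have hall := (hwz.smul (q ^ 2)).add hsum
  rw [add_sub_cancel] at hall
  refine hall.mono ?_
  rw [tsum_mul_right]
  have h8 : ‖q ^ 2‖ ≤ 4 := by
    rw [norm_pow]
    nlinarith [norm_nonneg q]
  have h9 : ‖q ^ 2‖ * (a * K * F) ≤ 4 * (a * K * F) := mul_le_mul_of_nonneg_right h8 hQ0
  have h10 : (∑' b, M.c b * 16 ^ M.L b) * (4 * (a * K * F)) ≤ 1 / 10 ^ 6 * (4 * (a * K * F)) :=
    mul_le_mul_of_nonneg_right M.s1 (by positivity)
  have h11 : 15 * (j.factorial : ℝ) * a / (τ - τ') ^ j * F = 5 * (a * K * F) := by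
    rw [hK]
    ring
  rw [h11]
  norm_num at h10
  linarith

theorem Om_zero {M : Mdl} (X : Mul M) (hm : ∀ b, X.m b 0 = 0) (hz : X.z 0 = 0) {q : ℂ}
    (hq : ‖q‖ ≤ 2) (f : H) : X.Om q f 0 = 0 := by
  have h1 := X.Om_val hq f 0
  have h2 : HasSum (fun b => M.w q b * ((X.m b 0 : ℂ) * f (0 - M.v b))) 0 := by
    have h3 : (fun b => M.w q b * ((X.m b 0 : ℂ) * f (0 - M.v b))) = fun _ => (0 : ℂ) := by
      funext b
      rw [hm b]
      simp
    rw [h3]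
    exact hasSum_zero
  have h4 := h1.unique h2
  rw [hz] at h4
  simpa using h4

end
end KN.SQ
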