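import Pool.Agent.H132.SQ.G0

/-!
# Explicit vectors
-/

set_option autoImplicit false

namespace KN.SQ
open Finset Filter Topology
open scoped Classical ENNReal ComplexConjugate
noncomputable section

theorem K4a_poly (g : Polynomial ℂ) (ε : ℝ) (hε : 0 < ε) : ∃ A : ℝ, 0 ≤ A ∧ ∀ x : ℂ,
    ‖g.eval x‖ ≤ A * Real.exp (ε * ‖x‖) := by
  refine ⟨∑ i ∈ range (g.natDegree + 1), ‖g.coeff i‖ * ((i.factorial : ℝ) / ε ^ i),
    Finset.sum_nonneg fun i _ => by positivity, fun x => ?_⟩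
  rw [Polynomial.eval_eq_sum_range, Finset.sum_mul]
  refine (norm_sum_le _ _).trans (Finset.sum_le_sum fun i _ => ?_)
  rw [norm_mul, norm_pow, mul_assoc]
  refine mul_le_mul_of_nonneg_left ?_ (norm_nonneg _)
  have h := Real.pow_div_factorial_le_exp (ε * ‖x‖) (by positivity) i
  have hf : (0 : ℝ) < i.factorial := by exact_mod_cast Nat.factorial_pos i
  rw [div_le_iff₀ hf] at h
  calc ‖x‖ ^ i = (ε * ‖x‖) ^ i / ε ^ i := by rw [mul_pow]; field_simp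
    _ ≤ (Real.exp (ε * ‖x‖) * i.factorial) / ε ^ i := div_le_div_of_nonneg_right h (by positivity)
    _ = _ := by ring

theorem K4a_bd (M : Mdl) (C : Cap) (P : Polynomial ℝ) : ∃ X : ℝ, 0 ≤ X ∧ ∀ q ∈ Mdl.Loc M,
    ∀ d : ℤ, ‖(Mdl.ui M C d : ℂ) *
    ((P.map (algebraMap ℝ ℂ)).eval (M.kap q * (d.natAbs : ℂ)) * E (M.kap q) d)‖ ≤
      X * Real.exp (-(‖M.kap q‖ / 4 * (d.natAbs : ℝ))) := by
  obtain ⟨A, hA, h⟩ := K4a_poly (P.map (algebraMap ℝ ℂ)) (1 / 4) (by norm_num)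
  have hC := Mdl.CU_nonneg (M := M) (C := C)
  refine ⟨Mdl.CU M C * A, by positivity, fun q hq d => ?_⟩
  rw [norm_mul, norm_mul, Complex.norm_real, Real.norm_eq_abs, abs_of_nonneg (Mdl.ui_nonneg _)]
  have h1 := E_norm_le (M.kap_re hq.1) d
  have h2 := h (M.kap q * (d.natAbs : ℂ))
  rw [norm_mul, Complex.norm_natCast] at h2
  have h3 : Real.exp (1 / 4 * (‖M.kap q‖ * (d.natAbs : ℝ))) *
      Real.exp (-(‖M.kap q‖ / 2)) ^ d.natAbs = Real.exp (-(‖M.kap q‖ / 4 * (d.natAbs : ℝ))) := by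
    rw [← Real.exp_nat_mul, ← Real.exp_add]; congr 1; ring
  calc _ ≤ Mdl.CU M C * ((A * Real.exp (1 / 4 * (‖M.kap q‖ * (d.natAbs : ℝ)))) *
        Real.exp (-(‖M.kap q‖ / 2)) ^ d.natAbs) :=
        mul_le_mul (Mdl.ui_le d) (mul_le_mul h2 h1 (norm_nonneg _) (by positivity))
          (by positivity) hC
    _ = Mdl.CU M C * A * (Real.exp (1 / 4 * (‖M.kap q‖ * (d.natAbs : ℝ))) *
        Real.exp (-(‖M.kap q‖ / 2)) ^ d.natAbs) := by ring
    _ = _ := by rw [h3]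

theorem yv_apply {M : Mdl} {C : Cap} (P : Polynomial ℝ) {q : ℂ} (hq : q ∈ Mdl.Loc M) (d : ℤ) :
    yv M C P q d = (Mdl.ui M C d : ℂ) *
    ((P.map (algebraMap ℝ ℂ)).eval (M.kap q * (d.natAbs : ℂ)) * E (M.kap q) d) := by
  obtain ⟨X, hX, h⟩ := K4a_bd M C P
  have ht : 0 < ‖M.kap q‖ := Mdl.kap_pos hq.1
  refine toH_apply (summable_of_bd (X := X) (r := Real.exp (-(‖M.kap q‖ / 4)))
    (Real.exp_pos _).le (Real.exp_lt_one_iff.2 (by linarith)) fun d => ?_) d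
  refine (h q hq d).trans (le_of_eq ?_)
  rw [← Real.exp_nat_mul]; congr 2; ring

theorem yv_bd (M : Mdl) (C : Cap) (P : Polynomial ℝ) : ∃ X : ℝ, 0 ≤ X ∧ ∀ q ∈ Mdl.Loc M, ∀ d,
    ‖yv M C P q d‖ ≤ X * Real.exp (-(‖M.kap q‖ / 4 * (d.natAbs : ℝ))) := by
  obtain ⟨X, hX, h⟩ := K4a_bd M C P
  exact ⟨X, hX, fun q hq d => by rw [yv_apply P hq]; exact h q hq d⟩

theorem yv_wt {M : Mdl} {C : Cap} (P : Polynomial ℝ) {q : ℂ} (hq : q ∈ Mdl.Loc M) :
    Wt (yv M C P q) := by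
  obtain ⟨X, hX, h⟩ := yv_bd M C P
  have ht : 0 < ‖M.kap q‖ := Mdl.kap_pos hq.1
  set t := ‖M.kap q‖ with htd
  refine summable_of_bd (X := 8 / t * X) (r := Real.exp (-(t / 8)))
    (Real.exp_pos _).le (Real.exp_lt_one_iff.2 (by linarith)) fun d => ?_
  rw [norm_mul, Complex.norm_natCast]
  have h1 := h q hq d
  have h2 : (d.natAbs : ℝ) ≤ 8 / t * Real.exp (t / 8 * (d.natAbs : ℝ)) := by
    have h4 := Real.add_one_le_exp (t / 8 * (d.natAbs : ℝ))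
    calc (d.natAbs : ℝ) = 8 / t * (t / 8 * (d.natAbs : ℝ)) := by field_simp
      _ ≤ 8 / t * Real.exp (t / 8 * (d.natAbs : ℝ)) :=
          mul_le_mul_of_nonneg_left (by linarith) (by positivity)
  have h3 : Real.exp (t / 8 * (d.natAbs : ℝ)) * Real.exp (-(t / 4 * (d.natAbs : ℝ))) =
      Real.exp (-(t / 8)) ^ d.natAbs := by
    rw [← Real.exp_nat_mul, ← Real.exp_add]; congr 1; ring
  calc (d.natAbs : ℝ) * ‖yv M C P q d‖ ≤ (8 / t * Real.exp (t / 8 * (d.natAbs : ℝ))) *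
        (X * Real.exp (-(t / 4 * (d.natAbs : ℝ)))) :=
        mul_le_mul h2 h1 (norm_nonneg _) (by positivity)
    _ = 8 / t * X * (Real.exp (t / 8 * (d.natAbs : ℝ)) *
        Real.exp (-(t / 4 * (d.natAbs : ℝ)))) := by ring
    _ = _ := by rw [h3]

theorem xf_yv {M : Mdl} {C : Cap} (P : Polynomial ℝ) {q : ℂ} (hq : q ∈ Mdl.Loc M) :
    M.kap q • xf (yv M C P q) = yv M C (Polynomial.X * P) q := by
  refine lp.ext (funext fun d => ?_)
  show M.kap q * xf (yv M C P q) d = yv M C (Polynomial.X * P) q d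
  rw [xf_apply (yv_wt P hq), yv_apply P hq, yv_apply _ hq, Polynomial.map_mul, Polynomial.map_X,
    Polynomial.eval_mul, Polynomial.eval_X]
  ring

end
end KN.SQ
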