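import Pool.Agent.H132.SQ.G4a

/-!
# The residual of the explicit vectors
-/

set_option autoImplicit false

namespace KN.SQ
open Finset Filter Topology
open scoped Classical ENNReal ComplexConjugate
noncomputable section
section K4b
open Mdl
variable {M : Mdl} {C : Cap}
/-- polynomials are dominated by exponentials -/
theorem K4b_poly (g : Polynomial ℂ) (ε : ℝ) (hε : 0 < ε) : ∃ A : ℝ, 0 ≤ A ∧ ∀ x : ℂ,
    ‖g.eval x‖ ≤ A * Real.exp (ε * ‖x‖) := by
  refine ⟨∑ i ∈ range (g.natDegree + 1), ‖g.coeff i‖ * ((i.factorial : ℝ) / ε ^ i),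
    Finset.sum_nonneg fun i _ => by positivity, fun x => ?_⟩
  rw [Polynomial.eval_eq_sum_range, Finset.sum_mul]
  refine (norm_sum_le _ _).trans (Finset.sum_le_sum fun i _ => ?_)
  rw [norm_mul, norm_pow, mul_assoc]
  refine mul_le_mul_of_nonneg_left ?_ (norm_nonneg _)
  have h := Real.pow_div_factorial_le_exp (ε * ‖x‖) (by positivity) i
  have hf : (0 : ℝ) < i.factorial := by exact_mod_cast Nat.factorial_pos i
  rw [div_le_iff₀ hf] at h
  calc ‖x‖ ^ i = (ε * ‖x‖) ^ i / ε ^ i := by rw [mul_pow]; field_simp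
    _ ≤ (Real.exp (ε * ‖x‖) * i.factorial) / ε ^ i := div_le_div_of_nonneg_right h (by positivity)
    _ = _ := by ring

theorem K4b_taylor (f : Polynomial ℂ) (x h : ℂ) {N : ℕ} (hN : f.natDegree < N) :
    f.eval (x - h) = ∑ j ∈ range N, (Polynomial.hasseDeriv j f).eval x * (-h) ^ j := by
  have h1 : f.eval (x - h) = (Polynomial.taylor x f).eval (-h) := by
    rw [Polynomial.taylor_eval]; congr 1; ring
  rw [h1, Polynomial.eval_eq_sum_range' (by rw [Polynomial.natDegree_taylor]; exact hN)]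
  exact Finset.sum_congr rfl fun j _ => by rw [Polynomial.taylor_coeff]

/-- the moments -/
def K4b_T (M : Mdl) (q s : ℂ) (j : ℕ) : ℂ :=
  ∑' b, M.w q b * (s * (M.v b : ℂ)) ^ j * Complex.exp (s * M.kap q * (M.v b : ℂ))

theorem K4b_pow (L j : ℕ) : (L : ℝ) ^ j ≤ j.factorial * 4 ^ L := by
  have h := Real.pow_div_factorial_le_exp (L : ℝ) (Nat.cast_nonneg _) j
  have hf : (0 : ℝ) < j.factorial := by exact_mod_cast Nat.factorial_pos j
  rw [div_le_iff₀ hf, ← Real.exp_one_pow] at h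
  have h1 : Real.exp 1 ≤ 4 := by have := Real.exp_one_lt_d9; linarith
  have h2 : Real.exp 1 ^ L ≤ 4 ^ L := pow_le_pow_left₀ (Real.exp_pos _).le h1 L
  calc _ ≤ Real.exp 1 ^ L * j.factorial := h
    _ ≤ 4 ^ L * j.factorial := mul_le_mul_of_nonneg_right h2 hf.le
    _ = _ := mul_comm _ _

theorem K4b_T_key {q : ℂ} (hq : q ∈ Loc M) {s : ℂ} (hs : s = 1 ∨ s = -1) (j : ℕ) (b : M.ι) :
    ‖M.w q b * (s * (M.v b : ℂ)) ^ j * Complex.exp (s * M.kap q * (M.v b : ℂ))‖ ≤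
      (M.c b * 16 ^ M.L b) * (4 * j.factorial) := by
  rw [norm_mul, norm_mul, norm_pow, norm_mul, sgn_norm' hs, one_mul]
  have h1 := pow_le_pow_left₀ (norm_nonneg _) (vc_norm b) j
  have h2 := w_norm' (M := M) hq.1.1.le b
  have h3 := M.c0 b
  have h4 := (exp_s_bd hq hs b).1
  have h5 := K4b_pow (M.L b) j
  calc _ ≤ ((4 * 2 ^ M.L b * M.c b) * (j.factorial * 4 ^ M.L b)) * 2 ^ M.L b :=
        mul_le_mul (mul_le_mul h2 (h1.trans h5) (by positivity) (by positivity)) h4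
          (norm_nonneg _) (by positivity)
    _ = _ := by
        rw [show (16 : ℝ) ^ M.L b = (2 ^ M.L b * 2 ^ M.L b) * 4 ^ M.L b by
          rw [← mul_pow, ← mul_pow]; norm_num]
        ring

theorem K4b_T_hasSum {q : ℂ} (hq : q ∈ Loc M) {s : ℂ} (hs : s = 1 ∨ s = -1) (j : ℕ) :
    HasSum (fun b => M.w q b * (s * (M.v b : ℂ)) ^ j * Complex.exp (s * M.kap q * (M.v b : ℂ)))
      (K4b_T M q s j) :=
  (Summable.of_norm_bounded (M.sm.mul_right _) (K4b_T_key hq hs j)).hasSum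

theorem K4b_T_norm {q : ℂ} (hq : q ∈ Loc M) {s : ℂ} (hs : s = 1 ∨ s = -1) (j : ℕ) :
    ‖K4b_T M q s j‖ ≤ 4 * j.factorial := by
  unfold K4b_T
  refine (tsum_of_norm_bounded (M.sm.hasSum.mul_right _) (K4b_T_key hq hs j)).trans ?_
  have h8 := M.s1
  have hf : (0 : ℝ) ≤ 4 * j.factorial := by positivity
  calc (∑' b, M.c b * 16 ^ M.L b) * (4 * j.factorial) ≤ 1 / 10 ^ 6 * (4 * j.factorial) :=
        mul_le_mul_of_nonneg_right h8 hf
    _ ≤ 1 * (4 * j.factorial) := mul_le_mul_of_nonneg_right (by norm_num) hf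
    _ = _ := one_mul _

theorem K4b_T0 {q : ℂ} (hq : q ∈ Loc M) {s : ℂ} (hs : s = 1 ∨ s = -1) :
    K4b_T M q s 0 = 1 - q ^ 2 + Ph M q (M.kap q) := by
  refine (K4b_T_hasSum hq hs 0).unique ?_
  have h := T0_hasSum hq hs
  simpa using h

theorem K4b_T1 {q : ℂ} (hq : q ∈ Loc M) {s : ℂ} (hs : s = 1 ∨ s = -1) :
    K4b_T M q s 1 = T1 M q s := by
  refine (K4b_T_hasSum hq hs 1).unique ?_
  have h := T1_hasSum hq hs
  simpa using h

theorem K4b_T2 {q : ℂ} (hq : q ∈ Loc M) {s : ℂ} (hs : s = 1 ∨ s = -1) :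
    K4b_T M q s 2 = T2 M q s := by
  refine (K4b_T_hasSum hq hs 2).unique ?_
  have h := T2_hasSum hq hs
  have e : (fun b => M.w q b * (s * (M.v b : ℂ)) ^ 2 * Complex.exp (s * M.kap q * (M.v b : ℂ))) =
      fun b => M.w q b * (M.v b : ℂ) ^ 2 * Complex.exp (s * M.kap q * (M.v b : ℂ)) := by
    funext b
    have h2 := sgn_sq' hs
    rw [mul_pow, pow_two s, h2, one_mul]
  rw [e]
  exact h

/-- the terms of the main part -/
def K4b_mb (M : Mdl) (C : Cap) (f : Polynomial ℂ) (q : ℂ) (d : ℤ) (b : M.ι) : ℂ :=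
  (ui M C d : ℂ) * E (M.kap q) d *
    (M.w q b * Complex.exp (sgn d * M.kap q * (M.v b : ℂ)) *
      f.eval (M.kap q * (d.natAbs : ℂ) - M.kap q * (sgn d * (M.v b : ℂ))))

/-- the sum of the main part -/
def K4b_sm (M : Mdl) (f : Polynomial ℂ) (q : ℂ) (d : ℤ) : ℂ :=
  ∑ j ∈ range (f.natDegree + 3), (Polynomial.hasseDeriv j f).eval (M.kap q * (d.natAbs : ℂ)) *
    (-M.kap q) ^ j * K4b_T M q (sgn d) j

theorem K4b_mb_hasSum (f : Polynomial ℂ) {q : ℂ} (hq : q ∈ Loc M) (d : ℤ) :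
    HasSum (K4b_mb M C f q d) ((ui M C d : ℂ) * E (M.kap q) d * K4b_sm M f q d) := by
  unfold K4b_mb
  refine HasSum.mul_left _ ?_
  have e : (fun b => M.w q b * Complex.exp (sgn d * M.kap q * (M.v b : ℂ)) *
      f.eval (M.kap q * (d.natAbs : ℂ) - M.kap q * (sgn d * (M.v b : ℂ)))) =
      fun b => ∑ j ∈ range (f.natDegree + 3),
        (Polynomial.hasseDeriv j f).eval (M.kap q * (d.natAbs : ℂ)) * (-M.kap q) ^ j *
          (M.w q b * (sgn d * (M.v b : ℂ)) ^ j *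
            Complex.exp (sgn d * M.kap q * (M.v b : ℂ))) := by
    funext b
    rw [K4b_taylor f _ _ (N := f.natDegree + 3) (by omega), Finset.mul_sum]
    refine Finset.sum_congr rfl fun j _ => ?_
    rw [show -(M.kap q * (sgn d * (M.v b : ℂ))) = (-M.kap q) * (sgn d * (M.v b : ℂ)) by ring,
      mul_pow (-M.kap q)]
    ring
  rw [e]
  exact hasSum_sum fun j _ => (K4b_T_hasSum hq (sgn_cases d) j).mul_left _

theorem K4b_far (P : Polynomial ℝ) {q : ℂ} (hq : q ∈ Loc M) (b : M.ι) {d : ℤ}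
    (hd : M.L b < d.natAbs) :
    K4b_mb M C (P.map (algebraMap ℝ ℂ)) q d b =
      M.w q b * (if M.P b d then yv M C P q (d - M.v b) else 0) := by
  have hP : M.P b d := M.far b d (by rw [Int.abs_eq_natAbs]; exact_mod_cast hd)
  have hv := vn_le (M := M) b
  have hd0 : d ≠ 0 := by rintro rfl; simp at hd
  rw [if_pos hP, yv_apply P hq, E_bulk hd0 (by omega)]
  have e1 : ui M C (d - M.v b) = ui M C d := by
    unfold ui
    have h1 : (0 < d - M.v b ↔ 0 < d) := by omega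
    have h2 : (d - M.v b < 0 ↔ d < 0) := by omega
    simp only [h1, h2]
  have e2 : ((d - M.v b).natAbs : ℂ) = (d.natAbs : ℂ) - sgn d * (M.v b : ℂ) := by
    unfold sgn
    split_ifs with h
    · have e1 : ((d - M.v b).natAbs : ℤ) = (d.natAbs : ℤ) - M.v b := by omega
      have e2 : ((((d - M.v b).natAbs : ℤ)) : ℂ) = (((d.natAbs : ℤ) - M.v b : ℤ) : ℂ) := by
        rw [e1]
      rw [Int.cast_sub, Int.cast_natCast, Int.cast_natCast] at e2
      rw [e2]; ring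
    · have e1 : ((d - M.v b).natAbs : ℤ) = (d.natAbs : ℤ) + M.v b := by omega
      have e2 : ((((d - M.v b).natAbs : ℤ)) : ℂ) = (((d.natAbs : ℤ) + M.v b : ℤ) : ℂ) := by
        rw [e1]
      rw [Int.cast_add, Int.cast_natCast, Int.cast_natCast] at e2
      rw [e2]; ring
  rw [e1, e2]
  unfold K4b_mb
  rw [mul_sub (M.kap q)]
  ring

theorem K4b_Lexp (L : ℕ) : (L : ℝ) * Real.exp (L / 50) ≤ 2 * 2 ^ L := by
  have h1 : (L : ℝ) ≤ 2 * (3 / 2) ^ L := by
    have := one_add_mul_le_pow (a := (1 / 2 : ℝ)) (by norm_num) L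
    have e : (1 + 1 / 2 : ℝ) = 3 / 2 := by norm_num
    rw [e] at this
    linarith
  have h2 : Real.exp ((L : ℝ) / 50) ≤ (4 / 3) ^ L := by
    have e : (L : ℝ) / 50 = L * (1 / 50) := by ring
    rw [e, Real.exp_nat_mul]
    refine pow_le_pow_left₀ (Real.exp_pos _).le ?_ L
    have h3 := Real.add_one_le_exp (-(1 / 50) : ℝ)
    rw [Real.exp_neg] at h3
    have h4 := Real.exp_pos (1 / 50 : ℝ)
    have h5 : (49 / 50 : ℝ) * Real.exp (1 / 50) ≤ 1 := by
      calc (49 / 50 : ℝ) * Real.exp (1 / 50) ≤ (Real.exp (1 / 50))⁻¹ * Real.exp (1 / 50) :=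
            mul_le_mul_of_nonneg_right (by linarith) h4.le
        _ = 1 := inv_mul_cancel₀ h4.ne'
    linarith
  calc (L : ℝ) * Real.exp (L / 50) ≤ (2 * (3 / 2) ^ L) * (4 / 3) ^ L :=
        mul_le_mul h1 h2 (Real.exp_pos _).le (by positivity)
    _ = 2 * ((3 / 2) * (4 / 3)) ^ L := by rw [mul_pow]; ring
    _ = _ := by norm_num

theorem K4b_lin (P : Polynomial ℝ) (hP : P.eval 0 = 0) : ∃ A : ℝ, 0 ≤ A ∧ ∀ x : ℂ,
    ‖(P.map (algebraMap ℝ ℂ)).eval x‖ ≤ A * (‖x‖ * Real.exp ‖x‖) := by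
  obtain ⟨A, hA, h⟩ := K4b_poly (P.divX.map (algebraMap ℝ ℂ)) 1 one_pos
  refine ⟨A, hA, fun x => ?_⟩
  have e : P.map (algebraMap ℝ ℂ) = P.divX.map (algebraMap ℝ ℂ) * Polynomial.X := by
    have h1 := Polynomial.divX_mul_X_add P
    rw [Polynomial.coeff_zero_eq_eval_zero, hP, Polynomial.C_0, add_zero] at h1
    conv_lhs => rw [← h1]
    rw [Polynomial.map_mul, Polynomial.map_X]
  rw [e, Polynomial.eval_mul, Polynomial.eval_X, norm_mul]
  have h2 := h x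
  rw [one_mul] at h2
  calc _ ≤ (A * Real.exp ‖x‖) * ‖x‖ := mul_le_mul_of_nonneg_right h2 (norm_nonneg _)
    _ = _ := by ring

theorem K4b_small {A t : ℝ} (hA : 0 ≤ A) (ht : 0 ≤ t) (ht1 : t ≤ 1 / 100) {L : ℕ} {x : ℂ}
    (hx : ‖x‖ ≤ t * (2 * L)) :
    A * (‖x‖ * Real.exp ‖x‖) ≤ A * (4 * t * 2 ^ L) := by
  refine mul_le_mul_of_nonneg_left ?_ hA
  have h1 : ‖x‖ ≤ (L : ℝ) / 50 := by
    have : (0 : ℝ) ≤ L := Nat.cast_nonneg _
    nlinarith
  calc ‖x‖ * Real.exp ‖x‖ ≤ (t * (2 * L)) * Real.exp ((L : ℝ) / 50) :=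
        mul_le_mul hx (Real.exp_le_exp.2 h1) (Real.exp_pos _).le (by positivity)
    _ = 2 * t * (L * Real.exp ((L : ℝ) / 50)) := by ring
    _ ≤ 2 * t * (2 * 2 ^ L) := mul_le_mul_of_nonneg_left (K4b_Lexp L) (by positivity)
    _ = _ := by ring

theorem K4b_near (P : Polynomial ℝ) {A : ℝ} (hA : 0 ≤ A) (h : ∀ x : ℂ,
    ‖(P.map (algebraMap ℝ ℂ)).eval x‖ ≤ A * (‖x‖ * Real.exp ‖x‖)) {q : ℂ} (hq : q ∈ Loc M)
    (b : M.ι) {d : ℤ} (hd : d.natAbs ≤ M.L b) :
    ‖K4b_mb M C (P.map (algebraMap ℝ ℂ)) q d b -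
      M.w q b * (if M.P b d then yv M C P q (d - M.v b) else 0)‖ ≤
      (M.c b * 16 ^ M.L b) * (32 * (A * CU M C) * ‖M.kap q‖ * (1 / 2) ^ d.natAbs) := by
  have hκ0 := kap_pos hq.1
  have hκ1 := hq.2
  have hre := kap_re hq.1
  have hC := CU_nonneg (M := M) (C := C)
  have hc := M.c0 b
  have hv := vc_norm b
  have hw := w_norm' (M := M) hq.1.1.le b
  have hs := sgn_cases d
  have hx := (exp_s_bd hq hs b).1
  have hE2 : ‖E (M.kap q) d‖ ≤ 1 := E_norm_le_one (by linarith) _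
  have hE1 : ‖E (M.kap q) (d - M.v b)‖ ≤ 1 := E_norm_le_one (by linarith) _
  have hdL : (d.natAbs : ℝ) ≤ M.L b := by exact_mod_cast hd
  have hdn : ‖(d.natAbs : ℂ)‖ ≤ M.L b := by rw [Complex.norm_natCast]; exact hdL
  have hsv : ‖sgn d * (M.v b : ℂ)‖ ≤ M.L b := by rw [norm_mul, sgn_norm' hs, one_mul]; exact hv
  set t := ‖M.kap q‖ with ht
  have a1 : ‖K4b_mb M C (P.map (algebraMap ℝ ℂ)) q d b‖ ≤
      (CU M C * 1) * ((4 * 2 ^ M.L b * M.c b) * 2 ^ M.L b * (A * (4 * t * 2 ^ M.L b))) := by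
    unfold K4b_mb
    rw [norm_mul, norm_mul, norm_mul, norm_mul, Complex.norm_real, Real.norm_eq_abs,
      abs_of_nonneg (ui_nonneg _)]
    refine mul_le_mul (mul_le_mul (ui_le d) hE2 (norm_nonneg _) hC) ?_ (by positivity)
      (by positivity)
    refine mul_le_mul (mul_le_mul hw hx (norm_nonneg _) (by positivity)) ?_ (norm_nonneg _)
      (by positivity)
    refine (h _).trans (K4b_small hA hκ0.le hκ1 ?_)
    rw [← mul_sub, norm_mul]
    refine mul_le_mul_of_nonneg_left ?_ hκ0.le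
    refine (norm_sub_le _ _).trans ?_
    linarith
  have a2 : ‖M.w q b * (if M.P b d then yv M C P q (d - M.v b) else 0)‖ ≤
      (4 * 2 ^ M.L b * M.c b) * (CU M C * ((A * (4 * t * 2 ^ M.L b)) * 1)) := by
    rw [norm_mul]
    refine mul_le_mul hw ?_ (norm_nonneg _) (by positivity)
    split_ifs with hP
    · rw [yv_apply P hq, norm_mul, norm_mul, Complex.norm_real, Real.norm_eq_abs,
        abs_of_nonneg (ui_nonneg _)]
      have hm : (d - M.v b).natAbs ≤ 2 * M.L b := by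
        have := vn_le (M := M) b
        omega
      have hm' : ((d - M.v b).natAbs : ℝ) ≤ 2 * (M.L b : ℝ) := by exact_mod_cast hm
      refine mul_le_mul (ui_le _) (mul_le_mul ?_ hE1 (norm_nonneg _) (by positivity))
        (by positivity) hC
      refine (h _).trans (K4b_small hA hκ0.le hκ1 ?_)
      rw [norm_mul, Complex.norm_natCast]
      exact mul_le_mul_of_nonneg_left hm' hκ0.le
    · rw [norm_zero]; positivity
  have h2L : (1 : ℝ) ≤ 2 ^ M.L b := one_le_pow₀ (by norm_num)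
  have h8 : (2 : ℝ) ^ M.L b * 2 ^ M.L b * 2 ^ M.L b ≤ 16 ^ M.L b * (1 / 2) ^ d.natAbs := by
    have h7 : (2 : ℝ) ^ M.L b * 2 ^ M.L b * 2 ^ M.L b = 16 ^ M.L b * (1 / 2) ^ M.L b := by
      rw [← mul_pow, ← mul_pow, ← mul_pow]; norm_num
    rw [h7]
    exact mul_le_mul_of_nonneg_left
      (pow_le_pow_of_le_one (by norm_num) (by norm_num) hd) (by positivity)
  refine (norm_sub_le _ _).trans ((add_le_add a1 a2).trans ?_)
  calc _ = (16 * (A * CU M C) * t * M.c b) * (2 ^ M.L b * 2 ^ M.L b * (2 ^ M.L b + 1)) := by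
        ring
    _ ≤ (16 * (A * CU M C) * t * M.c b) * (2 ^ M.L b * 2 ^ M.L b * (2 * 2 ^ M.L b)) := by
        refine mul_le_mul_of_nonneg_left (mul_le_mul_of_nonneg_left (by linarith) ?_) ?_
        · positivity
        · positivity
    _ = (32 * (A * CU M C) * t * M.c b) * (2 ^ M.L b * 2 ^ M.L b * 2 ^ M.L b) := by ring
    _ ≤ (32 * (A * CU M C) * t * M.c b) * (16 ^ M.L b * (1 / 2) ^ d.natAbs) :=
        mul_le_mul_of_nonneg_left h8 (by positivity)
    _ = _ := by ring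

theorem K4b_main (P : Polynomial ℝ) {A : ℝ} (hA : 0 ≤ A) (h : ∀ x : ℂ,
    ‖(P.map (algebraMap ℝ ℂ)).eval x‖ ≤ A * (‖x‖ * Real.exp ‖x‖)) {q : ℂ} (hq : q ∈ Loc M)
    (d : ℤ) :
    ‖(ui M C d : ℂ) * E (M.kap q) d * K4b_sm M (P.map (algebraMap ℝ ℂ)) q d -
      M.N q (yv M C P q) d‖ ≤ 32 * (A * CU M C) * ‖M.kap q‖ * (1 / 2) ^ d.natAbs := by
  have hC := CU_nonneg (M := M) (C := C)
  have H1 := M.N_hasSum hq.1.1.le (yv M C P q) d
  have H := (K4b_mb_hasSum (C := C) (P.map (algebraMap ℝ ℂ)) hq d).sub H1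
  rw [← H.tsum_eq]
  have h9 : 0 ≤ 32 * (A * CU M C) * ‖M.kap q‖ * (1 / 2) ^ d.natAbs := by positivity
  have key : ∀ b, ‖K4b_mb M C (P.map (algebraMap ℝ ℂ)) q d b -
      M.w q b * (if M.P b d then yv M C P q (d - M.v b) else 0)‖ ≤
      (M.c b * 16 ^ M.L b) * (32 * (A * CU M C) * ‖M.kap q‖ * (1 / 2) ^ d.natAbs) := by
    intro b
    have hc := M.c0 b
    rcases le_or_gt d.natAbs (M.L b) with h' | h'
    · exact K4b_near P hA h hq b h'
    · rw [K4b_far P hq b h', sub_self, norm_zero]; positivity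
  refine (tsum_of_norm_bounded (M.sm.hasSum.mul_right _) key).trans ?_
  have h8 := M.s1
  calc (∑' b, M.c b * 16 ^ M.L b) * (32 * (A * CU M C) * ‖M.kap q‖ * (1 / 2) ^ d.natAbs)
      ≤ 1 / 10 ^ 6 * (32 * (A * CU M C) * ‖M.kap q‖ * (1 / 2) ^ d.natAbs) :=
        mul_le_mul_of_nonneg_right h8 h9
    _ ≤ 1 * (32 * (A * CU M C) * ‖M.kap q‖ * (1 / 2) ^ d.natAbs) :=
        mul_le_mul_of_nonneg_right (by norm_num) h9
    _ = _ := one_mul _

/-- the inner part of the bulk error -/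
def K4b_in (M : Mdl) (f : Polynomial ℂ) (q : ℂ) (d : ℤ) : ℂ :=
  (1 - q ^ 2) * f.eval (M.kap q * (d.natAbs : ℂ)) - K4b_sm M f q d -
    ((M.sg / 2 : ℝ) : ℂ) * (M.kap q ^ 2 *
      (2 * f.derivative.eval (M.kap q * (d.natAbs : ℂ)) -
        f.derivative.derivative.eval (M.kap q * (d.natAbs : ℂ))))

theorem K4b_in_bd (M : Mdl) (f : Polynomial ℂ) : ∃ A : ℝ, 0 ≤ A ∧ ∀ q ∈ Loc M, ∀ d : ℤ,
    ‖K4b_in M f q d‖ ≤ A * ‖M.kap q‖ ^ 3 * Real.exp (1 / 4 * (‖M.kap q‖ * d.natAbs)) := by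
  choose A hA hAb using fun j : ℕ => K4b_poly (Polynomial.hasseDeriv j f) (1 / 4) (by norm_num)
  refine ⟨10 * A 0 + A 1 + A 2 + ∑ j ∈ range f.natDegree, A (j + 3) * (4 * (j + 3).factorial),
    ?_, fun q hq d => ?_⟩
  · have h0 := hA 0
    have h1 := hA 1
    have h2 := hA 2
    have h3 : 0 ≤ ∑ j ∈ range f.natDegree, A (j + 3) * (4 * ((j + 3).factorial : ℝ)) :=
      Finset.sum_nonneg fun j _ => mul_nonneg (hA _) (by positivity)
    linarith
  have hs := sgn_cases d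
  have hκ0 := kap_pos hq.1
  have hPh := Ph_bd hq
  have b1 := T1_bd hq hs
  have b2 := T2_bd hq hs
  have hx : ‖M.kap q * (d.natAbs : ℂ)‖ = ‖M.kap q‖ * d.natAbs := by
    rw [norm_mul, Complex.norm_natCast]
  have c := fun j => hAb j (M.kap q * (d.natAbs : ℂ))
  simp only [hx] at c
  set e := Real.exp (1 / 4 * (‖M.kap q‖ * d.natAbs)) with he
  have he0 : 0 < e := Real.exp_pos _
  have a0 : (Polynomial.hasseDeriv 0 f) = f := by rw [Polynomial.hasseDeriv_zero']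
  have a1 : (Polynomial.hasseDeriv 1 f) = f.derivative := by rw [Polynomial.hasseDeriv_one']
  have a2 : 2 * (Polynomial.hasseDeriv 2 f).eval (M.kap q * (d.natAbs : ℂ)) =
      f.derivative.derivative.eval (M.kap q * (d.natAbs : ℂ)) := by
    have h := congrFun (Polynomial.factorial_smul_hasseDeriv (R := ℂ) 2) f
    simp only [LinearMap.smul_apply, Function.iterate_succ, Function.iterate_zero,
      Function.comp_apply, id_eq] at h
    have h' := congrArg (fun p : Polynomial ℂ => p.eval (M.kap q * (d.natAbs : ℂ))) h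
    simp only [Nat.factorial] at h'
    simpa [two_mul, two_nsmul] using h'
  have eq1 : K4b_in M f q d = -(Ph M q (M.kap q)) *
        (Polynomial.hasseDeriv 0 f).eval (M.kap q * (d.natAbs : ℂ)) +
      M.kap q * (Polynomial.hasseDeriv 1 f).eval (M.kap q * (d.natAbs : ℂ)) *
        (T1 M q (sgn d) - (M.sg : ℂ) * M.kap q) -
      M.kap q ^ 2 * (Polynomial.hasseDeriv 2 f).eval (M.kap q * (d.natAbs : ℂ)) *
        (T2 M q (sgn d) - (M.sg : ℂ)) -
      ∑ j ∈ range f.natDegree,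
        (Polynomial.hasseDeriv (j + 3) f).eval (M.kap q * (d.natAbs : ℂ)) *
          (-M.kap q) ^ (j + 3) * K4b_T M q (sgn d) (j + 3) := by
    unfold K4b_in K4b_sm
    rw [Finset.sum_range_succ', Finset.sum_range_succ', Finset.sum_range_succ', ← a2,
      K4b_T0 hq hs, zero_add, K4b_T1 hq hs, K4b_T2 hq hs, a0, a1]
    push_cast
    ring
  set t := ‖M.kap q‖ with ht
  have ht1 : t ≤ 1 := hq.2.trans (by norm_num)
  rw [eq1]
  have n0 : ‖-(Ph M q (M.kap q)) *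
      (Polynomial.hasseDeriv 0 f).eval (M.kap q * (d.natAbs : ℂ))‖ ≤ 10 * t ^ 3 * (A 0 * e) := by
    rw [norm_mul, norm_neg]
    exact mul_le_mul hPh (c 0) (norm_nonneg _) (by positivity)
  have n1 : ‖M.kap q * (Polynomial.hasseDeriv 1 f).eval (M.kap q * (d.natAbs : ℂ)) *
        (T1 M q (sgn d) - (M.sg : ℂ) * M.kap q)‖ ≤ t * (A 1 * e) * t ^ 2 := by
    rw [norm_mul, norm_mul]
    exact mul_le_mul (mul_le_mul_of_nonneg_left (c 1) hκ0.le) b1 (norm_nonneg _)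
      (mul_nonneg hκ0.le (mul_nonneg (hA 1) he0.le))
  have n2 : ‖M.kap q ^ 2 * (Polynomial.hasseDeriv 2 f).eval (M.kap q * (d.natAbs : ℂ)) *
        (T2 M q (sgn d) - (M.sg : ℂ))‖ ≤ t ^ 2 * (A 2 * e) * t := by
    rw [norm_mul, norm_mul, norm_pow]
    exact mul_le_mul (mul_le_mul_of_nonneg_left (c 2) (by positivity)) b2 (norm_nonneg _)
      (mul_nonneg (by positivity) (mul_nonneg (hA 2) he0.le))
  have n3 : ‖∑ j ∈ range f.natDegree,
        (Polynomial.hasseDeriv (j + 3) f).eval (M.kap q * (d.natAbs : ℂ)) *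
          (-M.kap q) ^ (j + 3) * K4b_T M q (sgn d) (j + 3)‖ ≤
      (∑ j ∈ range f.natDegree, A (j + 3) * (4 * ((j + 3).factorial : ℝ))) * (t ^ 3 * e) := by
    rw [Finset.sum_mul]
    refine (norm_sum_le _ _).trans (Finset.sum_le_sum fun j _ => ?_)
    rw [norm_mul, norm_mul, norm_pow, norm_neg, ← ht]
    have h1 : t ^ (j + 3) ≤ t ^ 3 := pow_le_pow_of_le_one hκ0.le ht1 (by omega)
    calc _ ≤ (A (j + 3) * e) * t ^ 3 * (4 * ((j + 3).factorial : ℝ)) :=
          mul_le_mul (mul_le_mul (c (j + 3)) h1 (by positivity) (mul_nonneg (hA _) he0.le))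
            (K4b_T_norm hq hs (j + 3)) (norm_nonneg _)
            (mul_nonneg (mul_nonneg (hA _) he0.le) (by positivity))
      _ = _ := by ring
  have m1 := norm_sub_le (-(Ph M q (M.kap q)) *
        (Polynomial.hasseDeriv 0 f).eval (M.kap q * (d.natAbs : ℂ)) +
      M.kap q * (Polynomial.hasseDeriv 1 f).eval (M.kap q * (d.natAbs : ℂ)) *
        (T1 M q (sgn d) - (M.sg : ℂ) * M.kap q) -
      M.kap q ^ 2 * (Polynomial.hasseDeriv 2 f).eval (M.kap q * (d.natAbs : ℂ)) *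
        (T2 M q (sgn d) - (M.sg : ℂ))) (∑ j ∈ range f.natDegree,
        (Polynomial.hasseDeriv (j + 3) f).eval (M.kap q * (d.natAbs : ℂ)) *
          (-M.kap q) ^ (j + 3) * K4b_T M q (sgn d) (j + 3))
  have m2 := norm_sub_le (-(Ph M q (M.kap q)) *
        (Polynomial.hasseDeriv 0 f).eval (M.kap q * (d.natAbs : ℂ)) +
      M.kap q * (Polynomial.hasseDeriv 1 f).eval (M.kap q * (d.natAbs : ℂ)) *
        (T1 M q (sgn d) - (M.sg : ℂ) * M.kap q))
      (M.kap q ^ 2 * (Polynomial.hasseDeriv 2 f).eval (M.kap q * (d.natAbs : ℂ)) *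
        (T2 M q (sgn d) - (M.sg : ℂ)))
  have m3 := norm_add_le (-(Ph M q (M.kap q)) *
        (Polynomial.hasseDeriv 0 f).eval (M.kap q * (d.natAbs : ℂ)))
      (M.kap q * (Polynomial.hasseDeriv 1 f).eval (M.kap q * (d.natAbs : ℂ)) *
        (T1 M q (sgn d) - (M.sg : ℂ) * M.kap q))
  have hfin : (10 * A 0 + A 1 + A 2 + ∑ j ∈ range f.natDegree,
      A (j + 3) * (4 * ((j + 3).factorial : ℝ))) * t ^ 3 * e =
      10 * t ^ 3 * (A 0 * e) + t * (A 1 * e) * t ^ 2 + t ^ 2 * (A 2 * e) * t +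
      (∑ j ∈ range f.natDegree, A (j + 3) * (4 * ((j + 3).factorial : ℝ))) * (t ^ 3 * e) := by
    ring
  rw [hfin]
  linarith

end K4b
/-- **K4b** (generalises yq_res in X7: reuse its lemmas T0_hasSum, T1_hasSum, T2_hasSum, T1_bd, T2_bd, far_b, near_b).
For `f(x) = P(x)e^{-x}`: Taylor `f(κ(n∓v)) = f ∓ κv f' + κ²v² f''/2 + O(t³ L³ e^{L/10} e^{-t n/4})`, `∑ w_b v_b = 0`,
`1 - q² - ∑ w_b = (sg/2)κ² + O(t³)`, `∑ w_b v_b² = sg + O(t²)`. `P(0) = 0` gives the factor `t` near the origin. -/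
theorem yv_res (M : Mdl) (C : Cap) (P : Polynomial ℝ) (hP : P.eval 0 = 0) :
    ∃ X : ℝ, 0 ≤ X ∧ ∀ q ∈ Mdl.Loc M, ∃ ρ1 ρ2 : H,
    yv M C P q - M.K q (yv M C P q) =
      ((M.sg / 2 : ℝ) : ℂ) • (M.kap q ^ 2 • yv M C (2 * P.derivative - P.derivative.derivative) q) + ρ1 + ρ2 ∧
    ρ1 0 = 0 ∧ ρ2 0 = 0 ∧
    (∀ d, ‖ρ1 d‖ ≤ X * ‖M.kap q‖ ^ 3 * Real.exp (-(‖M.kap q‖ / 8 * (d.natAbs : ℝ)))) ∧
    ∀ d, ‖ρ2 d‖ ≤ X * ‖M.kap q‖ * (1 / 2) ^ d.natAbs := by
  obtain ⟨A, hA, hAb⟩ := K4b_in_bd M (P.map (algebraMap ℝ ℂ))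
  obtain ⟨A', hA', hAb'⟩ := K4b_lin P hP
  have hC := Mdl.CU_nonneg (M := M) (C := C)
  refine ⟨Mdl.CU M C * A + 32 * (A' * Mdl.CU M C), by positivity, fun q hq => ?_⟩
  have hκ0 := Mdl.kap_pos hq.1
  have hκ1 := hq.2
  have hr0 : 0 ≤ Real.exp (-(‖M.kap q‖ / 8)) := (Real.exp_pos _).le
  have hr1 : Real.exp (-(‖M.kap q‖ / 8)) < 1 := Real.exp_lt_one_iff.2 (by linarith)
  set r : ℤ → ℂ := fun d => (Mdl.ui M C d : ℂ) * (E (M.kap q) d *
    K4b_in M (P.map (algebraMap ℝ ℂ)) q d) with hr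
  have hrb0 : ∀ d, ‖r d‖ ≤ (Mdl.CU M C * A) * ‖M.kap q‖ ^ 3 *
      Real.exp (-(‖M.kap q‖ / 8 * (d.natAbs : ℝ))) := by
    intro d
    rw [hr]
    simp only []
    rw [norm_mul, norm_mul, Complex.norm_real, Real.norm_eq_abs,
      abs_of_nonneg (Mdl.ui_nonneg _)]
    have h1 := E_norm_le (Mdl.kap_re hq.1) d
    have h2 := hAb q hq d
    rw [← Real.exp_nat_mul] at h1
    have hn : (0 : ℝ) ≤ d.natAbs := Nat.cast_nonneg _
    have h3 : Real.exp ((d.natAbs : ℝ) * -(‖M.kap q‖ / 2)) *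
        Real.exp (1 / 4 * (‖M.kap q‖ * d.natAbs)) ≤
        Real.exp (-(‖M.kap q‖ / 8 * (d.natAbs : ℝ))) := by
      rw [← Real.exp_add]
      refine Real.exp_le_exp.2 ?_
      have : 0 ≤ ‖M.kap q‖ * (d.natAbs : ℝ) := mul_nonneg hκ0.le hn
      nlinarith
    calc _ ≤ Mdl.CU M C * (Real.exp ((d.natAbs : ℝ) * -(‖M.kap q‖ / 2)) *
          (A * ‖M.kap q‖ ^ 3 * Real.exp (1 / 4 * (‖M.kap q‖ * d.natAbs)))) :=
          mul_le_mul (Mdl.ui_le d) (mul_le_mul h1 h2 (norm_nonneg _) (Real.exp_pos _).le)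
            (by positivity) hC
      _ = (Mdl.CU M C * A) * ‖M.kap q‖ ^ 3 * (Real.exp ((d.natAbs : ℝ) * -(‖M.kap q‖ / 2)) *
            Real.exp (1 / 4 * (‖M.kap q‖ * d.natAbs))) := by ring
      _ ≤ _ := mul_le_mul_of_nonneg_left h3 (by positivity)
  have hap : ∀ d, toH r d = r d := by
    refine toH_apply (summable_of_bd (X := (Mdl.CU M C * A) * ‖M.kap q‖ ^ 3) hr0 hr1
      fun d => (hrb0 d).trans (le_of_eq ?_))
    rw [← Real.exp_nat_mul]
    congr 2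
    ring
  have hui0 : Mdl.ui M C 0 = 0 := by unfold Mdl.ui; simp
  have hρ2 : ∀ d, (yv M C P q - M.K q (yv M C P q) -
      ((M.sg / 2 : ℝ) : ℂ) • (M.kap q ^ 2 •
        yv M C (2 * P.derivative - P.derivative.derivative) q) - toH r) d =
      (Mdl.ui M C d : ℂ) * E (M.kap q) d * K4b_sm M (P.map (algebraMap ℝ ℂ)) q d -
        M.N q (yv M C P q) d := by
    intro d
    have e : (yv M C P q - M.K q (yv M C P q) -
      ((M.sg / 2 : ℝ) : ℂ) • (M.kap q ^ 2 •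
        yv M C (2 * P.derivative - P.derivative.derivative) q) - toH r) d =
        yv M C P q d - (q ^ 2 * yv M C P q d + M.N q (yv M C P q) d) -
        ((M.sg / 2 : ℝ) : ℂ) * (M.kap q ^ 2 *
          yv M C (2 * P.derivative - P.derivative.derivative) q d) - toH r d := rfl
    have e3 : ((2 * P.derivative - P.derivative.derivative).map (algebraMap ℝ ℂ)).eval
        (M.kap q * (d.natAbs : ℂ)) =
        2 * (P.map (algebraMap ℝ ℂ)).derivative.eval (M.kap q * (d.natAbs : ℂ)) -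
        (P.map (algebraMap ℝ ℂ)).derivative.derivative.eval (M.kap q * (d.natAbs : ℂ)) := by
      rw [Polynomial.map_sub, Polynomial.map_mul, Polynomial.eval_sub, Polynomial.eval_mul,
        Polynomial.derivative_map, Polynomial.derivative_map]
      congr 2
      simp
    rw [e, hap, yv_apply P hq, yv_apply _ hq, e3, hr]
    simp only []
    unfold K4b_in
    ring
  refine ⟨toH r, yv M C P q - M.K q (yv M C P q) -
      ((M.sg / 2 : ℝ) : ℂ) • (M.kap q ^ 2 •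
        yv M C (2 * P.derivative - P.derivative.derivative) q) - toH r, by abel, ?_, ?_, ?_, ?_⟩
  · rw [hap, hr]; simp only []; rw [hui0]; simp
  · rw [hρ2, Mdl.N_zero hq.1.1.le, hui0]; simp
  · intro d
    rw [hap]
    refine (hrb0 d).trans ?_
    refine mul_le_mul_of_nonneg_right (mul_le_mul_of_nonneg_right ?_ (by positivity))
      (Real.exp_pos _).le
    have : 0 ≤ 32 * (A' * Mdl.CU M C) := by positivity
    linarith
  · intro d
    rw [hρ2]
    refine (K4b_main P hA' hAb' hq d).trans ?_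
    refine mul_le_mul_of_nonneg_right (mul_le_mul_of_nonneg_right ?_ (norm_nonneg _))
      (by positivity)
    have : 0 ≤ Mdl.CU M C * A := by positivity
    linarith

end
end KN.SQ
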