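import Pool.Agent.H132.SQ.G4b
import Pool.Agent.H132.SQ.G3

/-!
# The area operator on the explicit vectors
-/

set_option autoImplicit false

namespace KN.SQ
open Finset Filter Topology
open scoped Classical ENNReal ComplexConjugate
noncomputable section
theorem K4c_poly (P : Polynomial ℝ) : ∀ ε : ℝ, 0 < ε → ∃ C : ℝ, 0 ≤ C ∧ ∀ (z w : ℂ) (R : ℝ),
    ‖z‖ ≤ R → ‖w‖ ≤ R →
    ‖(P.map (algebraMap ℝ ℂ)).eval z‖ ≤ C * Real.exp (ε * R) ∧
    ‖(P.map (algebraMap ℝ ℂ)).eval z - (P.map (algebraMap ℝ ℂ)).eval w‖ ≤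
      C * ‖z - w‖ * Real.exp (ε * R) := by
  induction P using Polynomial.induction_on with
  | C a =>
    intro ε hε
    refine ⟨|a|, abs_nonneg a, fun z w R hz hw => ?_⟩
    have hR : 0 ≤ R := (norm_nonneg z).trans hz
    have h1 : 1 ≤ Real.exp (ε * R) := Real.one_le_exp (by positivity)
    rw [Polynomial.map_C, Polynomial.eval_C, Polynomial.eval_C, sub_self, norm_zero]
    constructor
    · have : ‖algebraMap ℝ ℂ a‖ = |a| := by simp
      rw [this]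
      exact le_mul_of_one_le_right (abs_nonneg a) h1
    · positivity
  | add p q hp hq =>
    intro ε hε
    obtain ⟨C1, h1, k1⟩ := hp ε hε
    obtain ⟨C2, h2, k2⟩ := hq ε hε
    refine ⟨C1 + C2, by positivity, fun z w R hz hw => ?_⟩
    obtain ⟨a1, b1⟩ := k1 z w R hz hw
    obtain ⟨a2, b2⟩ := k2 z w R hz hw
    rw [Polynomial.map_add, Polynomial.eval_add, Polynomial.eval_add]
    constructor
    · refine (norm_add_le _ _).trans ?_
      linarith
    · have e : (p.map (algebraMap ℝ ℂ)).eval z + (q.map (algebraMap ℝ ℂ)).eval z -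
          ((p.map (algebraMap ℝ ℂ)).eval w + (q.map (algebraMap ℝ ℂ)).eval w) =
          ((p.map (algebraMap ℝ ℂ)).eval z - (p.map (algebraMap ℝ ℂ)).eval w) +
          ((q.map (algebraMap ℝ ℂ)).eval z - (q.map (algebraMap ℝ ℂ)).eval w) := by ring
      rw [e]
      refine (norm_add_le _ _).trans ?_
      have e2 : (C1 + C2) * ‖z - w‖ * Real.exp (ε * R) =
        C1 * ‖z - w‖ * Real.exp (ε * R) + C2 * ‖z - w‖ * Real.exp (ε * R) := by ring
      linarith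
  | monomial n a ih =>
    intro ε hε
    obtain ⟨C, h0, h1⟩ := ih (ε / 2) (by positivity)
    refine ⟨C * (1 + 2 / ε), by positivity, fun z w R hz hw => ?_⟩
    have hR : 0 ≤ R := (norm_nonneg z).trans hz
    obtain ⟨a1, b1⟩ := h1 z w R hz hw
    have e0 : ∀ x : ℂ, ((Polynomial.C a * Polynomial.X ^ (n + 1)).map (algebraMap ℝ ℂ)).eval x =
        ((Polynomial.C a * Polynomial.X ^ n).map (algebraMap ℝ ℂ)).eval x * x := by
      intro x
      simp only [Polynomial.map_mul, Polynomial.map_C, Polynomial.map_pow, Polynomial.map_X,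
        Polynomial.eval_mul, Polynomial.eval_C, Polynomial.eval_pow, Polynomial.eval_X]
      ring
    have hx : Real.exp (ε / 2 * R) * Real.exp (ε / 2 * R) = Real.exp (ε * R) := by
      rw [← Real.exp_add]; congr 1; ring
    have hx1 : Real.exp (ε / 2 * R) ≤ Real.exp (ε * R) :=
      Real.exp_le_exp.2 (by nlinarith)
    have hRx : R ≤ 2 / ε * Real.exp (ε / 2 * R) := by
      have h2 := Real.add_one_le_exp (ε / 2 * R)
      calc R = 2 / ε * (ε / 2 * R) := by field_simp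
        _ ≤ 2 / ε * Real.exp (ε / 2 * R) := mul_le_mul_of_nonneg_left (by linarith) (by positivity)
    have hpos := Real.exp_pos (ε / 2 * R)
    have hRe : Real.exp (ε / 2 * R) * R ≤ 2 / ε * Real.exp (ε * R) := by
      calc Real.exp (ε / 2 * R) * R ≤ Real.exp (ε / 2 * R) * (2 / ε * Real.exp (ε / 2 * R)) :=
            mul_le_mul_of_nonneg_left hRx hpos.le
        _ = 2 / ε * (Real.exp (ε / 2 * R) * Real.exp (ε / 2 * R)) := by ring
        _ = _ := by rw [hx]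
    rw [e0, e0]
    generalize ((Polynomial.C a * Polynomial.X ^ n).map (algebraMap ℝ ℂ)).eval z = pz at *
    generalize ((Polynomial.C a * Polynomial.X ^ n).map (algebraMap ℝ ℂ)).eval w = pw at *
    have hE := Real.exp_pos (ε * R)
    constructor
    · rw [norm_mul]
      calc ‖pz‖ * ‖z‖ ≤ (C * Real.exp (ε / 2 * R)) * R :=
            mul_le_mul a1 hz (norm_nonneg _) (by positivity)
        _ = C * (Real.exp (ε / 2 * R) * R) := by ring
        _ ≤ C * (2 / ε * Real.exp (ε * R)) := mul_le_mul_of_nonneg_left hRe h0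
        _ ≤ C * ((1 + 2 / ε) * Real.exp (ε * R)) :=
            mul_le_mul_of_nonneg_left (mul_le_mul_of_nonneg_right (by linarith) hE.le) h0
        _ = _ := by ring
    · have e1 : pz * z - pw * w = pz * (z - w) + (pz - pw) * w := by ring
      rw [e1]
      refine (norm_add_le _ _).trans ?_
      rw [norm_mul, norm_mul]
      have hzw := norm_nonneg (z - w)
      calc ‖pz‖ * ‖z - w‖ + ‖pz - pw‖ * ‖w‖ ≤
            (C * Real.exp (ε * R)) * ‖z - w‖ + (C * ‖z - w‖ * Real.exp (ε / 2 * R)) * R := by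
            refine add_le_add (mul_le_mul_of_nonneg_right
              (a1.trans (mul_le_mul_of_nonneg_left hx1 h0)) hzw)
              (mul_le_mul b1 hw (norm_nonneg _) (by positivity))
        _ = (C * ‖z - w‖) * Real.exp (ε * R) + (C * ‖z - w‖) * (Real.exp (ε / 2 * R) * R) := by
            ring
        _ ≤ (C * ‖z - w‖) * Real.exp (ε * R) + (C * ‖z - w‖) * (2 / ε * Real.exp (ε * R)) :=
            add_le_add le_rfl (mul_le_mul_of_nonneg_left hRe (by positivity))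
        _ = _ := by ring

theorem K4c_exp {t : ℝ} (h0 : 0 ≤ t) (h1 : t ≤ 1 / 100) (n : ℕ) :
    Real.exp (2 * t * n) ≤ 2 ^ n := by
  rw [mul_comm, Real.exp_nat_mul]
  refine pow_le_pow_left₀ (Real.exp_pos _).le ?_ n
  have h2 : Real.exp (2 * t) ≤ Real.exp (1 / 2) := Real.exp_le_exp.2 (by linarith)
  have h3 : Real.exp (1 / 2) * Real.exp (1 / 2) = Real.exp 1 := by
    rw [← Real.exp_add]; norm_num
  have h4 := Real.exp_one_lt_d9
  have h5 := Real.exp_pos (1 / 2 : ℝ)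
  nlinarith

/-- the function without the factor `ui` -/
def K4c_F (κ : ℂ) (P : Polynomial ℝ) (d : ℤ) : ℂ :=
  (P.map (algebraMap ℝ ℂ)).eval (κ * (d.natAbs : ℂ)) * E κ d

theorem K4c_E {M : Mdl} {q : ℂ} (hq : q ∈ Mdl.Loc M) (d : ℤ) :
    ‖E (M.kap q) d‖ ≤ Real.exp (-(‖M.kap q‖ / 2 * (d.natAbs : ℝ))) := by
  refine (E_norm_le (Mdl.kap_re hq.1) d).trans (le_of_eq ?_)
  rw [← Real.exp_nat_mul]; congr 1; ring

theorem K4c_F_bd {M : Mdl} {P : Polynomial ℝ} {c : ℝ} (hc : 0 ≤ c)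
    (hP : ∀ (z w : ℂ) (R : ℝ), ‖z‖ ≤ R → ‖w‖ ≤ R →
      ‖(P.map (algebraMap ℝ ℂ)).eval z‖ ≤ c * Real.exp (1 / 16 * R) ∧
      ‖(P.map (algebraMap ℝ ℂ)).eval z - (P.map (algebraMap ℝ ℂ)).eval w‖ ≤
        c * ‖z - w‖ * Real.exp (1 / 16 * R)) {q : ℂ} (hq : q ∈ Mdl.Loc M) (d : ℤ) :
    ‖K4c_F (M.kap q) P d‖ ≤ c * Real.exp (-(‖M.kap q‖ / 4 * (d.natAbs : ℝ))) := by
  have h1 := (hP (M.kap q * (d.natAbs : ℂ)) 0 (‖M.kap q‖ * (d.natAbs : ℝ)) (by
    rw [norm_mul, Complex.norm_natCast]) (by rw [norm_zero]; positivity)).1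
  have h2 := K4c_E hq d
  unfold K4c_F
  rw [norm_mul]
  have hn : (0 : ℝ) ≤ ‖M.kap q‖ * (d.natAbs : ℝ) := by positivity
  calc _ ≤ (c * Real.exp (1 / 16 * (‖M.kap q‖ * (d.natAbs : ℝ)))) *
        Real.exp (-(‖M.kap q‖ / 2 * (d.natAbs : ℝ))) :=
        mul_le_mul h1 h2 (norm_nonneg _) (by positivity)
    _ = c * Real.exp (1 / 16 * (‖M.kap q‖ * (d.natAbs : ℝ)) +
        -(‖M.kap q‖ / 2 * (d.natAbs : ℝ))) := by rw [Real.exp_add]; ring
    _ ≤ _ := mul_le_mul_of_nonneg_left (Real.exp_le_exp.2 (by linarith)) hc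

theorem K4c_F_sub {M : Mdl} {P : Polynomial ℝ} {c : ℝ} (hc : 0 ≤ c)
    (hP : ∀ (z w : ℂ) (R : ℝ), ‖z‖ ≤ R → ‖w‖ ≤ R →
      ‖(P.map (algebraMap ℝ ℂ)).eval z‖ ≤ c * Real.exp (1 / 16 * R) ∧
      ‖(P.map (algebraMap ℝ ℂ)).eval z - (P.map (algebraMap ℝ ℂ)).eval w‖ ≤
        c * ‖z - w‖ * Real.exp (1 / 16 * R)) {q : ℂ} (hq : q ∈ Mdl.Loc M) (b : M.ι) (d : ℤ) :
    ‖K4c_F (M.kap q) P (d - M.v b) - K4c_F (M.kap q) P d‖ ≤
      2 * c * ‖M.kap q‖ * (M.L b * 2 ^ M.L b) *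
        Real.exp (-(‖M.kap q‖ / 4 * (d.natAbs : ℝ))) := by
  have hdiff : |(((d - M.v b).natAbs : ℝ) - d.natAbs)| ≤ (M.L b : ℕ) :=
    (natAbs_diff d (M.v b)).trans (by exact_mod_cast Mdl.vn_le b)
  have hE := K4c_E hq d
  have hEs := E_sub (κ := M.kap q) hdiff
  set t := ‖M.kap q‖ with ht
  have ht0 : 0 ≤ t := norm_nonneg _
  have ht1 : t ≤ 1 / 100 := hq.2
  set n : ℝ := (d.natAbs : ℝ) with hn
  set n' : ℝ := ((d - M.v b).natAbs : ℝ) with hn'
  have hn0 : 0 ≤ n := Nat.cast_nonneg _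
  have hn0' : 0 ≤ n' := Nat.cast_nonneg _
  have hL0 : (0 : ℝ) ≤ M.L b := Nat.cast_nonneg _
  have hd2 := abs_le.1 hdiff
  have h1 := hP (M.kap q * ((d - M.v b).natAbs : ℂ)) (M.kap q * (d.natAbs : ℂ))
    (t * (n + M.L b)) (by
      rw [norm_mul, Complex.norm_natCast]
      exact mul_le_mul_of_nonneg_left (by linarith [hd2.2]) ht0) (by
      rw [norm_mul, Complex.norm_natCast]
      exact mul_le_mul_of_nonneg_left (by linarith) ht0)
  obtain ⟨h2, h3⟩ := h1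
  have h4 : ‖M.kap q * ((d - M.v b).natAbs : ℂ) - M.kap q * (d.natAbs : ℂ)‖ ≤ t * M.L b := by
    rw [← mul_sub, norm_mul]
    refine mul_le_mul_of_nonneg_left ?_ ht0
    have e : (((d - M.v b).natAbs : ℂ) - (d.natAbs : ℂ)) = ((n' - n : ℝ) : ℂ) := by
      rw [hn, hn']; push_cast; rfl
    rw [e, Complex.norm_real, Real.norm_eq_abs]
    exact hdiff
  have e1 : K4c_F (M.kap q) P (d - M.v b) - K4c_F (M.kap q) P d =
      (P.map (algebraMap ℝ ℂ)).eval (M.kap q * ((d - M.v b).natAbs : ℂ)) *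
        (E (M.kap q) (d - M.v b) - E (M.kap q) d) +
      ((P.map (algebraMap ℝ ℂ)).eval (M.kap q * ((d - M.v b).natAbs : ℂ)) -
        (P.map (algebraMap ℝ ℂ)).eval (M.kap q * (d.natAbs : ℂ))) * E (M.kap q) d := by
    unfold K4c_F; ring
  rw [e1]
  refine (norm_add_le _ _).trans ?_
  rw [norm_mul, norm_mul]
  set x := Real.exp (1 / 16 * (t * (n + M.L b))) with hx
  set y := Real.exp (-(t / 2 * n)) with hy
  have hx0 : 0 < x := Real.exp_pos _
  have hy0 : 0 < y := Real.exp_pos _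
  have hu1 : 1 ≤ Real.exp (t * M.L b) := Real.one_le_exp (by positivity)
  have a1 : ‖(P.map (algebraMap ℝ ℂ)).eval (M.kap q * ((d - M.v b).natAbs : ℂ))‖ *
      ‖E (M.kap q) (d - M.v b) - E (M.kap q) d‖ ≤
      (c * x) * (y * (t * M.L b * Real.exp (t * M.L b))) :=
    mul_le_mul h2 (hEs.trans (mul_le_mul_of_nonneg_right hE (by positivity))) (norm_nonneg _)
      (by positivity)
  have a2 : ‖(P.map (algebraMap ℝ ℂ)).eval (M.kap q * ((d - M.v b).natAbs : ℂ)) -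
      (P.map (algebraMap ℝ ℂ)).eval (M.kap q * (d.natAbs : ℂ))‖ * ‖E (M.kap q) d‖ ≤
      (c * (t * M.L b) * x) * y :=
    mul_le_mul (h3.trans (mul_le_mul_of_nonneg_right (mul_le_mul_of_nonneg_left h4 hc) hx0.le)) hE
      (norm_nonneg _) (by positivity)
  have a3 : (c * (t * M.L b) * x) * y ≤ (c * x) * (y * (t * M.L b * Real.exp (t * M.L b))) := by
    have e2 : (c * x) * (y * (t * M.L b * Real.exp (t * M.L b))) =
      (c * (t * M.L b) * x * y) * Real.exp (t * M.L b) := by ring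
    rw [e2]
    exact le_mul_of_one_le_right (by positivity) hu1
  have a4 : x * y * Real.exp (t * M.L b) ≤ 2 ^ M.L b * Real.exp (-(t / 4 * n)) := by
    have htn : 0 ≤ t * n := by positivity
    have htL : 0 ≤ t * M.L b := by positivity
    calc x * y * Real.exp (t * M.L b) =
          Real.exp (1 / 16 * (t * (n + M.L b)) + -(t / 2 * n) + t * M.L b) := by
          rw [Real.exp_add, Real.exp_add]
      _ ≤ Real.exp (2 * t * M.L b + -(t / 4 * n)) := Real.exp_le_exp.2 (by nlinarith)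
      _ = Real.exp (2 * t * M.L b) * Real.exp (-(t / 4 * n)) := Real.exp_add _ _
      _ ≤ _ := mul_le_mul_of_nonneg_right (K4c_exp ht0 ht1 _) (Real.exp_pos _).le
  calc _ ≤ (c * x) * (y * (t * M.L b * Real.exp (t * M.L b))) +
        (c * x) * (y * (t * M.L b * Real.exp (t * M.L b))) := add_le_add a1 (a2.trans a3)
    _ = (2 * c * t * M.L b) * (x * y * Real.exp (t * M.L b)) := by ring
    _ ≤ (2 * c * t * M.L b) * (2 ^ M.L b * Real.exp (-(t / 4 * n))) :=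
        mul_le_mul_of_nonneg_left a4 (by positivity)
    _ = _ := by ring

theorem K4c_F_sh {M : Mdl} {P : Polynomial ℝ} {c : ℝ} (hc : 0 ≤ c) {q : ℂ} (hq : q ∈ Mdl.Loc M)
    (h : ∀ d : ℤ, ‖K4c_F (M.kap q) P d‖ ≤ c * Real.exp (-(‖M.kap q‖ / 4 * (d.natAbs : ℝ))))
    (b : M.ι) (d : ℤ) :
    ‖K4c_F (M.kap q) P (d - M.v b)‖ ≤
      c * (2 ^ M.L b * Real.exp (-(‖M.kap q‖ / 4 * (d.natAbs : ℝ)))) := by
  refine (h _).trans (mul_le_mul_of_nonneg_left ?_ hc)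
  have hdiff : |(((d - M.v b).natAbs : ℝ) - d.natAbs)| ≤ (M.L b : ℕ) :=
    (natAbs_diff d (M.v b)).trans (by exact_mod_cast Mdl.vn_le b)
  have hd2 := abs_le.1 hdiff
  have ht0 : 0 ≤ ‖M.kap q‖ := norm_nonneg _
  have hL0 : (0 : ℝ) ≤ M.L b := Nat.cast_nonneg _
  calc Real.exp (-(‖M.kap q‖ / 4 * ((d - M.v b).natAbs : ℝ))) ≤
        Real.exp (2 * ‖M.kap q‖ * M.L b + -(‖M.kap q‖ / 4 * (d.natAbs : ℝ))) := by
        refine Real.exp_le_exp.2 ?_
        nlinarith [mul_nonneg ht0 hL0, mul_le_mul_of_nonneg_left hd2.1 ht0]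
    _ = Real.exp (2 * ‖M.kap q‖ * M.L b) * Real.exp (-(‖M.kap q‖ / 4 * (d.natAbs : ℝ))) :=
        Real.exp_add _ _
    _ ≤ _ := mul_le_mul_of_nonneg_right (K4c_exp ht0 hq.2 _) (Real.exp_pos _).le

theorem K4c_ui {M : Mdl} {C : Cap} (b : M.ι) (d : ℤ) :
    |(if M.P b d then Mdl.ui M C (d - M.v b) else 0) - Mdl.ui M C d| ≤
      2 * Mdl.CU M C * (2 ^ M.L b * (1 / 2) ^ d.natAbs) := by
  have hCU := Mdl.CU_nonneg (M := M) (C := C)
  have h1 := Mdl.pu_ui (M := M) (C := C) b d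
  have h3 : (1 / 2 : ℝ) ^ (d - M.v b).natAbs ≤ 2 ^ M.L b * (1 / 2) ^ d.natAbs := by
    have h4 : d.natAbs ≤ (d - M.v b).natAbs + M.L b := by
      have := Mdl.vn_le (M := M) b
      omega
    have h5 : (1 / 2 : ℝ) ^ ((d - M.v b).natAbs + M.L b) ≤ (1 / 2) ^ d.natAbs :=
      pow_le_pow_of_le_one (by norm_num) (by norm_num) h4
    have h6 := mul_le_mul_of_nonneg_left h5 (by positivity : (0 : ℝ) ≤ 2 ^ M.L b)
    refine le_trans (le_of_eq ?_) h6
    rw [pow_add, mul_comm ((1 / 2 : ℝ) ^ (d - M.v b).natAbs), ← mul_assoc, ← mul_pow]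
    norm_num
  have hp : (0 : ℝ) ≤ 2 ^ M.L b * (1 / 2) ^ d.natAbs := by positivity
  by_cases h : M.P b d
  · rw [if_pos h] at h1 ⊢
    have h2 : |Mdl.u M C (d - M.v b) - Mdl.ui M C (d - M.v b)| ≤
        Mdl.CU M C * (2 ^ M.L b * (1 / 2) ^ d.natAbs) :=
      (Mdl.ui_spec _).trans (mul_le_mul Mdl.CG_le h3 (by positivity) hCU)
    rw [abs_le] at h1 h2 ⊢
    constructor <;> linarith [h1.1, h1.2, h2.1, h2.2]
  · rw [if_neg h] at h1 ⊢
    refine h1.trans ?_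
    have : 0 ≤ Mdl.CU M C * (2 ^ M.L b * (1 / 2) ^ d.natAbs) := by positivity
    linarith

/-- elementary bounds of exponentials -/
theorem K4c_dom {t : ℝ} (h0 : 0 ≤ t) (h1 : t ≤ 1 / 100) (n : ℕ) :
    (t * n) * Real.exp (-(t / 4 * n)) ≤ 6 * Real.exp (-(t / 16 * n)) ∧
    (1 + t ^ 2 * (n : ℝ) ^ 2) * Real.exp (-(t / 4 * n)) ≤ 60 * Real.exp (-(t / 16 * n)) ∧
    (n : ℝ) * (1 / 2) ^ n ≤ 2 * Real.exp (-(t / 16 * n)) := by
  have hn : (0 : ℝ) ≤ n := Nat.cast_nonneg _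
  have htn : 0 ≤ t * n := by positivity
  set x := t * n with hx
  have e1 : Real.exp (-(t / 16 * n)) = Real.exp (3 / 16 * x) * Real.exp (-(t / 4 * n)) := by
    rw [← Real.exp_add]; congr 1; rw [hx]; ring
  have hp := Real.exp_pos (-(t / 4 * n))
  have hq := Real.quadratic_le_exp_of_nonneg (x := 3 / 16 * x) (by positivity)
  refine ⟨?_, ?_, ?_⟩
  · rw [e1, ← mul_assoc]
    refine mul_le_mul_of_nonneg_right ?_ hp.le
    nlinarith
  · rw [e1, ← mul_assoc]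
    refine mul_le_mul_of_nonneg_right ?_ hp.le
    have : t ^ 2 * (n : ℝ) ^ 2 = x ^ 2 := by rw [hx]; ring
    rw [this]
    nlinarith [sq_nonneg x]
  · have h3 : (n : ℝ) * (1 / 2) ^ n ≤ 2 * (3 / 4) ^ n := by
      have h := lin_pow n
      have e : (3 / 4 : ℝ) ^ n = (3 / 2) ^ n * (1 / 2) ^ n := by rw [← mul_pow]; norm_num
      rw [e, ← mul_assoc]
      exact mul_le_mul_of_nonneg_right h (by positivity)
    have h4 : (3 / 4 : ℝ) ≤ Real.exp (-(t / 16)) := by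
      have := Real.add_one_le_exp (-(t / 16)); linarith
    have h5 : (3 / 4 : ℝ) ^ n ≤ Real.exp (-(t / 16)) ^ n :=
      pow_le_pow_left₀ (by norm_num) h4 n
    have h6 : Real.exp (-(t / 16)) ^ n = Real.exp (-(t / 16 * n)) := by
      rw [← Real.exp_nat_mul]; congr 1; ring
    rw [h6] at h5
    linarith

theorem K4c_quad {a t : ℝ} {N : ℕ} (ha : 0 ≤ a) (h0 : 0 < t) (h1 : t ≤ 1 / 100)
    (hN : 1 / t ^ 2 ≤ N) (n : ℕ) :
    a * (1 + (n : ℝ) ^ 2 / N) * Real.exp (-(t / 4 * n)) ≤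
      60 * a * Real.exp (-(t / 16 * n)) := by
  obtain ⟨-, g2, -⟩ := K4c_dom h0.le h1 n
  have hN0 : (0 : ℝ) < N := lt_of_lt_of_le (by positivity) hN
  have h2 : (n : ℝ) ^ 2 / N ≤ t ^ 2 * (n : ℝ) ^ 2 := by
    rw [div_le_iff₀ hN0]
    have h3 : 1 ≤ t ^ 2 * N := by
      rw [div_le_iff₀ (by positivity)] at hN
      linarith
    nlinarith [sq_nonneg (n : ℝ)]
  have hr : 0 ≤ Real.exp (-(t / 4 * n)) := (Real.exp_pos _).le
  calc a * (1 + (n : ℝ) ^ 2 / N) * Real.exp (-(t / 4 * n)) ≤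
        a * (1 + t ^ 2 * (n : ℝ) ^ 2) * Real.exp (-(t / 4 * n)) :=
        mul_le_mul_of_nonneg_right (mul_le_mul_of_nonneg_left (by linarith) ha) hr
    _ = a * ((1 + t ^ 2 * (n : ℝ) ^ 2) * Real.exp (-(t / 4 * n))) := by ring
    _ ≤ a * (60 * Real.exp (-(t / 16 * n))) := mul_le_mul_of_nonneg_left g2 ha
    _ = _ := by ring

/-- one block -/
theorem K4c_blk {M : Mdl} {C : Cap} (A : Ker M) {X : Mul M} {N : ℕ} {a : ℝ} (hA : X.App A N a)
    {P : Polynomial ℝ} {c : ℝ} (hc : 0 ≤ c)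
    (hP : ∀ (z w : ℂ) (R : ℝ), ‖z‖ ≤ R → ‖w‖ ≤ R →
      ‖(P.map (algebraMap ℝ ℂ)).eval z‖ ≤ c * Real.exp (1 / 16 * R) ∧
      ‖(P.map (algebraMap ℝ ℂ)).eval z - (P.map (algebraMap ℝ ℂ)).eval w‖ ≤
        c * ‖z - w‖ * Real.exp (1 / 16 * R)) {q : ℂ}
    (hq : q ∈ Mdl.Loc M) (hN : 1 / ‖M.kap q‖ ^ 2 ≤ N) (b : M.ι) (d : ℤ) :
    ‖M.w q b * ((X.m b d : ℂ) * yv M C P q (d - M.v b)) -
      M.w q b * (A.nu b : ℂ) * ((d.natAbs : ℂ) * yv M C P q d)‖ ≤
      M.c b * 16 ^ M.L b * (((240 * a + 64) * (Mdl.CU M C * c)) *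
        Real.exp (-(‖M.kap q‖ / 16 * (d.natAbs : ℝ)))) := by
  have hCU := Mdl.CU_nonneg (M := M) (C := C)
  obtain ⟨ha, hm, hm0, -⟩ := hA
  have hw := Mdl.w_norm' (M := M) hq.1.1.le b
  have hcb := M.c0 b
  have hFb := K4c_F_bd hc hP hq
  have hsh := K4c_F_sh hc hq hFb b d
  have hsub := K4c_F_sub hc hP hq b d
  have hui := K4c_ui (C := C) b d
  have hF1 : ‖K4c_F (M.kap q) P (d - M.v b)‖ ≤ c := by
    refine (hFb _).trans ?_
    refine mul_le_of_le_one_right hc (Real.exp_le_one_iff.2 ?_)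
    have : 0 ≤ ‖M.kap q‖ / 4 * ((d - M.v b).natAbs : ℝ) := by positivity
    linarith
  set t := ‖M.kap q‖ with ht
  have ht0 : 0 < t := (Mdl.rt hq).1
  have ht1 : t ≤ 1 / 100 := hq.2
  obtain ⟨g1, g2', g3⟩ := K4c_dom ht0.le ht1 d.natAbs
  have hqd := K4c_quad (N := N) ha ht0 ht1 hN d.natAbs
  set r := Real.exp (-(t / 4 * (d.natAbs : ℝ))) with hr
  set s := Real.exp (-(t / 16 * (d.natAbs : ℝ))) with hs
  have hr0 : 0 ≤ r := (Real.exp_pos _).le
  have hs0 : 0 ≤ s := (Real.exp_pos _).le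
  have hnu0 := A.nu0 b
  have hnuL := A.nuL b
  have hn0 : (0 : ℝ) ≤ d.natAbs := Nat.cast_nonneg _
  have p24 : (2 : ℝ) ^ M.L b ≤ 4 ^ M.L b := pow_le_pow_left₀ (by norm_num) (by norm_num) _
  have pL : (M.L b : ℝ) * 2 ^ M.L b ≤ 4 ^ M.L b := by
    have h1 : (M.L b : ℝ) ≤ 2 ^ M.L b := by exact_mod_cast (Nat.lt_two_pow_self).le
    have h2 : (4 : ℝ) ^ M.L b = 2 ^ M.L b * 2 ^ M.L b := by rw [← mul_pow]; norm_num
    rw [h2]; exact mul_le_mul_of_nonneg_right h1 (by positivity)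
  have hfd : ∀ e : ℤ, yv M C P q e = (Mdl.ui M C e : ℂ) * K4c_F (M.kap q) P e := fun e =>
    yv_apply P hq e
  -- the decomposition
  set pu : ℝ := (if M.P b d then Mdl.ui M C (d - M.v b) else 0) with hpu
  have hpu0 : 0 ≤ pu := by
    rw [hpu]; split_ifs
    · exact Mdl.ui_nonneg _
    · exact le_rfl
  have hpuC : pu ≤ Mdl.CU M C := by
    rw [hpu]; split_ifs
    · exact Mdl.ui_le _
    · exact hCU
  set F := K4c_F (M.kap q) P d with hF
  set F' := K4c_F (M.kap q) P (d - M.v b) with hF'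
  have e1 : (X.m b d : ℂ) * yv M C P q (d - M.v b) =
      ((if M.P b d then X.m b d - A.nu b * d.natAbs else 0 : ℝ) : ℂ) * ((pu : ℂ) * F') +
        (A.nu b : ℂ) * ((d.natAbs : ℂ) * ((pu : ℂ) * F')) := by
    rw [hfd, hpu]
    split_ifs with h
    · push_cast; ring
    · rw [hm0 b d h]; simp
  have e2 : M.w q b * ((X.m b d : ℂ) * yv M C P q (d - M.v b)) -
      M.w q b * (A.nu b : ℂ) * ((d.natAbs : ℂ) * yv M C P q d) =
      M.w q b * (((if M.P b d then X.m b d - A.nu b * d.natAbs else 0 : ℝ) : ℂ) *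
          ((pu : ℂ) * F') +
        (A.nu b : ℂ) * ((d.natAbs : ℂ) * (((pu - Mdl.ui M C d : ℝ) : ℂ) * F' +
          (Mdl.ui M C d : ℂ) * (F' - F)))) := by
    rw [e1, hfd d]; push_cast; ring
  rw [e2, norm_mul]
  have f1 : ‖((if M.P b d then X.m b d - A.nu b * d.natAbs else 0 : ℝ) : ℂ) *
      ((pu : ℂ) * F')‖ ≤ 4 ^ M.L b * 2 ^ M.L b * (60 * a * (Mdl.CU M C * c) * s) := by
    rw [norm_mul, norm_mul, Complex.norm_real, Real.norm_eq_abs, Complex.norm_real,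
      Real.norm_eq_abs, abs_of_nonneg hpu0]
    have hN0 : (0 : ℝ) ≤ (d.natAbs : ℝ) ^ 2 / N := by positivity
    have k0 : |(if M.P b d then X.m b d - A.nu b * d.natAbs else 0 : ℝ)| ≤
        a * 4 ^ M.L b * (1 + (d.natAbs : ℝ) ^ 2 / N) := by
      split_ifs with h
      · exact hm b d h
      · rw [abs_zero]; positivity
    calc _ ≤ (a * 4 ^ M.L b * (1 + (d.natAbs : ℝ) ^ 2 / N)) *
          (Mdl.CU M C * (c * (2 ^ M.L b * r))) :=
          mul_le_mul k0 (mul_le_mul hpuC hsh (norm_nonneg _) hCU) (by positivity) (by positivity)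
      _ = 4 ^ M.L b * 2 ^ M.L b * (Mdl.CU M C * c) * (a * (1 + (d.natAbs : ℝ) ^ 2 / N) * r) := by
          ring
      _ ≤ 4 ^ M.L b * 2 ^ M.L b * (Mdl.CU M C * c) * (60 * a * s) :=
          mul_le_mul_of_nonneg_left hqd (by positivity)
      _ = _ := by ring
  have f2 : ‖(A.nu b : ℂ) * ((d.natAbs : ℂ) * (((pu - Mdl.ui M C d : ℝ) : ℂ) * F' +
      (Mdl.ui M C d : ℂ) * (F' - F)))‖ ≤
      4 ^ M.L b * 2 ^ M.L b * (16 * (Mdl.CU M C * c) * s) := by
    rw [norm_mul, norm_mul, Complex.norm_real, Real.norm_eq_abs, abs_of_nonneg hnu0,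
      Complex.norm_natCast]
    have k0 : ‖((pu - Mdl.ui M C d : ℝ) : ℂ) * F' + (Mdl.ui M C d : ℂ) * (F' - F)‖ ≤
        2 * Mdl.CU M C * (2 ^ M.L b * (1 / 2) ^ d.natAbs) * c +
        Mdl.CU M C * (2 * c * t * (M.L b * 2 ^ M.L b) * r) := by
      refine (norm_add_le _ _).trans ?_
      rw [norm_mul, norm_mul, Complex.norm_real, Real.norm_eq_abs, Complex.norm_real,
        Real.norm_eq_abs, abs_of_nonneg (Mdl.ui_nonneg _)]
      exact add_le_add (mul_le_mul hui hF1 (norm_nonneg _) (by positivity))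
        (mul_le_mul (Mdl.ui_le d) hsub (norm_nonneg _) hCU)
    have k1 : (d.natAbs : ℝ) * ‖((pu - Mdl.ui M C d : ℝ) : ℂ) * F' +
        (Mdl.ui M C d : ℂ) * (F' - F)‖ ≤ 4 ^ M.L b * (16 * (Mdl.CU M C * c) * s) := by
      calc _ ≤ (d.natAbs : ℝ) * (2 * Mdl.CU M C * (2 ^ M.L b * (1 / 2) ^ d.natAbs) * c +
            Mdl.CU M C * (2 * c * t * (M.L b * 2 ^ M.L b) * r)) :=
            mul_le_mul_of_nonneg_left k0 hn0
        _ = 2 * (Mdl.CU M C * c) * 2 ^ M.L b * ((d.natAbs : ℝ) * (1 / 2) ^ d.natAbs) +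
              2 * (Mdl.CU M C * c) * (M.L b * 2 ^ M.L b) * (t * d.natAbs * r) := by ring
        _ ≤ 2 * (Mdl.CU M C * c) * 4 ^ M.L b * (2 * s) +
              2 * (Mdl.CU M C * c) * 4 ^ M.L b * (6 * s) := by
            refine add_le_add ?_ ?_
            · exact mul_le_mul (mul_le_mul_of_nonneg_left p24 (by positivity)) g3 (by positivity)
                (by positivity)
            · exact mul_le_mul (mul_le_mul_of_nonneg_left pL (by positivity)) g1 (by positivity)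
                (by positivity)
        _ = _ := by ring
    calc _ ≤ 2 ^ M.L b * (4 ^ M.L b * (16 * (Mdl.CU M C * c) * s)) :=
          mul_le_mul hnuL k1 (by positivity) (by positivity)
      _ = _ := by ring
  have p16 : (2 : ℝ) ^ M.L b * (4 ^ M.L b * 2 ^ M.L b) = 16 ^ M.L b := by
    rw [← mul_pow, ← mul_pow]; norm_num
  calc _ ≤ (4 * 2 ^ M.L b * M.c b) * (4 ^ M.L b * 2 ^ M.L b * (60 * a * (Mdl.CU M C * c) * s) +
          4 ^ M.L b * 2 ^ M.L b * (16 * (Mdl.CU M C * c) * s)) := by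
        refine mul_le_mul hw ((norm_add_le _ _).trans (add_le_add f1 f2)) (norm_nonneg _)
          (by positivity)
    _ = M.c b * (2 ^ M.L b * (4 ^ M.L b * 2 ^ M.L b)) *
        (((240 * a + 64) * (Mdl.CU M C * c)) * s) := by ring
    _ = _ := by rw [p16]

/-- **K4c** (as Om_sol in X8). -/
theorem Om_yv {M : Mdl} (A : Ker M) (C : Cap) (P : Polynomial ℝ) (a : ℝ) : ∃ Z : ℝ, 0 ≤ Z ∧
    ∀ (X : Mul M) (N : ℕ), X.Gr 1 a → X.App A N a → ∀ q ∈ Mdl.Loc M, 1 / ‖M.kap q‖ ^ 2 ≤ N →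
    ∀ d, ‖(X.Om q (yv M C P q) - (A.cA : ℂ) • xf (yv M C P q)) d‖ ≤
      Z * Real.exp (-(‖M.kap q‖ / 16 * (d.natAbs : ℝ))) := by
  obtain ⟨c, hc, hP⟩ := K4c_poly P (1 / 16) (by norm_num)
  have hCU := Mdl.CU_nonneg (M := M) (C := C)
  refine ⟨(480 * |a| + 66) * (Mdl.CU M C * c), by positivity, ?_⟩
  intro X N _ hA q hq hN d
  have hA' := hA
  obtain ⟨ha, -, -, hz⟩ := hA'
  rw [abs_of_nonneg ha]
  have hq2 : ‖q‖ ≤ 2 := hq.1.1.le
  have ht0 : 0 < ‖M.kap q‖ := (Mdl.rt hq).1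
  have ht1 : ‖M.kap q‖ ≤ 1 / 100 := hq.2
  have e0 : (X.Om q (yv M C P q) - (A.cA : ℂ) • xf (yv M C P q)) d =
      X.Om q (yv M C P q) d - (A.cA : ℂ) * ((d.natAbs : ℂ) * yv M C P q d) := by
    rw [← xf_apply (yv_wt P hq)]; rfl
  rw [e0]
  have H1 := X.Om_val hq2 (yv M C P q) d
  have hs : Summable fun b => M.w q b * (A.nu b : ℂ) :=
    Summable.of_norm_bounded (M.sm.mul_right _) (A.T1_coef hq2)
  have H2 := hs.hasSum.mul_right ((d.natAbs : ℂ) * yv M C P q d)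
  have H3 := H1.sub H2
  have H4 := tsum_of_norm_bounded (M.sm.hasSum.mul_right
    (((240 * a + 64) * (Mdl.CU M C * c)) *
        Real.exp (-(‖M.kap q‖ / 16 * (d.natAbs : ℝ)))))
    (fun b => K4c_blk (C := C) A hA hc hP hq hN b d)
  rw [H3.tsum_eq] at H4
  have e1 : X.Om q (yv M C P q) d - (A.cA : ℂ) * ((d.natAbs : ℂ) * yv M C P q d) =
      q ^ 2 * (((X.z d - d.natAbs : ℝ) : ℂ) * yv M C P q d) +
      (X.Om q (yv M C P q) d - q ^ 2 * ((X.z d : ℂ) * yv M C P q d) -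
        (∑' b, M.w q b * (A.nu b : ℂ)) * ((d.natAbs : ℂ) * yv M C P q d)) +
      (A.cq q - A.cA) * ((d.natAbs : ℂ) * yv M C P q d) := by
    unfold Ker.cq
    push_cast
    ring
  rw [e1]
  have g4 := A.cq_sub hq2
  have g5 := Mdl.sub_le_kap hq.1
  have hv : ‖yv M C P q d‖ ≤ Mdl.CU M C * (c * Real.exp (-(‖M.kap q‖ / 4 * (d.natAbs : ℝ)))) := by
    rw [yv_apply P hq, norm_mul, Complex.norm_real, Real.norm_eq_abs,
      abs_of_nonneg (Mdl.ui_nonneg _)]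
    exact mul_le_mul (Mdl.ui_le d) (K4c_F_bd hc hP hq d) (norm_nonneg _) hCU
  refine (norm_add_le _ _).trans ?_
  refine (add_le_add (norm_add_le _ _) le_rfl).trans ?_
  set t := ‖M.kap q‖ with ht
  obtain ⟨g1, -, -⟩ := K4c_dom ht0.le ht1 d.natAbs
  have hqd := K4c_quad (N := N) ha ht0 ht1 hN d.natAbs
  set r := Real.exp (-(t / 4 * (d.natAbs : ℝ))) with hr
  set s := Real.exp (-(t / 16 * (d.natAbs : ℝ))) with hs'
  have hs0 : 0 ≤ s := (Real.exp_pos _).le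
  have hr0 : 0 ≤ r := (Real.exp_pos _).le
  have hn0 : (0 : ℝ) ≤ d.natAbs := Nat.cast_nonneg _
  have f1 : ‖q ^ 2 * (((X.z d - d.natAbs : ℝ) : ℂ) * yv M C P q d)‖ ≤
      4 * (60 * a * (Mdl.CU M C * c) * s) := by
    rw [norm_mul, norm_pow, norm_mul, Complex.norm_real, Real.norm_eq_abs]
    have h8 : ‖q‖ ^ 2 ≤ 4 := by nlinarith [norm_nonneg q]
    refine mul_le_mul h8 ?_ (by positivity) (by norm_num)
    calc |X.z d - d.natAbs| * ‖yv M C P q d‖ ≤
          (a * (1 + (d.natAbs : ℝ) ^ 2 / N)) * (Mdl.CU M C * (c * r)) :=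
          mul_le_mul (hz d) hv (norm_nonneg _) (by positivity)
      _ = (Mdl.CU M C * c) * (a * (1 + (d.natAbs : ℝ) ^ 2 / N) * r) := by ring
      _ ≤ (Mdl.CU M C * c) * (60 * a * s) := mul_le_mul_of_nonneg_left hqd (by positivity)
      _ = _ := by ring
  have f3 : ‖(A.cq q - A.cA) * ((d.natAbs : ℂ) * yv M C P q d)‖ ≤
      2 * ((Mdl.CU M C * c) * s) := by
    rw [norm_mul, norm_mul, Complex.norm_natCast]
    have h5 : ‖A.cq q - A.cA‖ ≤ 20 * t ^ 2 := g4.trans (by linarith)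
    calc _ ≤ (20 * t ^ 2) * ((d.natAbs : ℝ) * (Mdl.CU M C * (c * r))) :=
          mul_le_mul h5 (mul_le_mul_of_nonneg_left hv hn0) (by positivity) (by positivity)
      _ = (20 * t * (Mdl.CU M C * c)) * (t * d.natAbs * r) := by ring
      _ ≤ (20 * t * (Mdl.CU M C * c)) * (6 * s) := mul_le_mul_of_nonneg_left g1 (by positivity)
      _ = (120 * t) * ((Mdl.CU M C * c) * s) := by ring
      _ ≤ 2 * ((Mdl.CU M C * c) * s) :=
          mul_le_mul_of_nonneg_right (by linarith) (by positivity)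
  have h7 := M.s1
  have hK : 0 ≤ ((240 * a + 64) * (Mdl.CU M C * c)) * s := by positivity
  have h8 : (∑' b, M.c b * 16 ^ M.L b) * (((240 * a + 64) * (Mdl.CU M C * c)) * s) ≤
      1 * (((240 * a + 64) * (Mdl.CU M C * c)) * s) := by
    refine mul_le_mul_of_nonneg_right (h7.trans ?_) hK
    norm_num
  have h9 := H4.trans h8
  calc _ ≤ 4 * (60 * a * (Mdl.CU M C * c) * s) +
        1 * (((240 * a + 64) * (Mdl.CU M C * c)) * s) + 2 * ((Mdl.CU M C * c) * s) :=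
        add_le_add (add_le_add f1 h9) f3
    _ = _ := by ring

end
end KN.SQ
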