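import Pool.Agent.H132.SQ.G0

/-!
# The profiles and the recursion of Takacs
-/

set_option autoImplicit false

namespace KN.SQ
open Polynomial Finset Filter Topology
noncomputable section
theorem T1_pint (P : Polynomial ℝ) : derivative (pint P) = P := by
  unfold pint
  rw [Polynomial.sum_def, map_sum]
  conv_rhs => rw [← sum_C_mul_X_pow_eq P, Polynomial.sum_def]
  refine Finset.sum_congr rfl fun n _ => ?_
  rw [derivative_C_mul_X_pow, Nat.add_sub_cancel]
  congr 2
  have : (n : ℝ) + 1 ≠ 0 := by positivity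
  push_cast
  field_simp

theorem T1_psol (P : Polynomial ℝ) : 2 * psol P - derivative (psol P) = P := by
  unfold psol
  have h1 : 2 * ∑ i ∈ range (P.natDegree + 1), C ((1 / 2 : ℝ) ^ (i + 1)) * derivative^[i] P -
      derivative (∑ i ∈ range (P.natDegree + 1), C ((1 / 2 : ℝ) ^ (i + 1)) * derivative^[i] P) =
      ∑ i ∈ range (P.natDegree + 1), (C ((1 / 2 : ℝ) ^ i) * derivative^[i] P -
        C ((1 / 2 : ℝ) ^ (i + 1)) * derivative^[i + 1] P) := by
    rw [map_sum, Finset.mul_sum, ← Finset.sum_sub_distrib]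
    refine Finset.sum_congr rfl fun i _ => ?_
    rw [derivative_C_mul, Function.iterate_succ_apply']
    congr 1
    rw [← mul_assoc]
    congr 1
    rw [show (2 : Polynomial ℝ) = C 2 from (map_ofNat C 2).symm, ← C_mul]
    congr 1
    ring
  rw [h1, Finset.sum_range_sub']
  rw [iterate_derivative_eq_zero (Nat.lt_succ_self _)]
  simp

theorem PK_eq (k : ℕ) :
    2 * (PK (k + 1)).derivative - (PK (k + 1)).derivative.derivative = X * PK k := by
  have h1 : derivative (PK (k + 1)) = psol (X * PK k) := by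
    rw [PK]
    exact T1_pint _
  rw [h1]
  exact T1_psol _

theorem PK_zero (k : ℕ) : (PK (k + 1)).eval 0 = 0 := by
  rw [PK]
  unfold pint
  rw [Polynomial.sum_def, eval_finsetSum]
  refine Finset.sum_eq_zero fun n _ => ?_
  simp

/-- with `L(x^n) = n!/2^(n+1)`: `L(2Q - Q') = Q(0)` -/
theorem lap_PK (k : ℕ) : lap (PK k) = (PK (k + 1)).derivative.eval 0 := by
  have h1 := PK_eq k
  generalize (PK (k + 1)).derivative = Q at h1 ⊢
  generalize PK k = P at h1 ⊢
  have h2 : ∀ n, P.coeff n = 2 * Q.coeff (n + 1) - (n + 2) * Q.coeff (n + 2) := by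
    intro n
    have h3 := congrArg (fun R => Polynomial.coeff R (n + 1)) h1
    simp only [coeff_X_mul, coeff_sub, coeff_derivative, coeff_ofNat_mul] at h3
    push_cast at h3
    rw [← h3]
    ring
  have h0 : Q.coeff 1 = 2 * Q.coeff 0 := by
    have h3 := congrArg (fun R => Polynomial.coeff R 0) h1
    simp only [coeff_X_mul_zero, coeff_sub, coeff_derivative, coeff_ofNat_mul] at h3
    push_cast at h3
    linarith
  obtain ⟨N, hN⟩ : ∃ N, N = P.natDegree + Q.natDegree + 1 := ⟨_, rfl⟩
  unfold lap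
  rw [Polynomial.sum_over_range' P (by intro n; simp) N (by omega)]
  have h4 : ∀ n, P.coeff n * ((n + 1).factorial : ℝ) / 2 ^ (n + 2) =
      Q.coeff (n + 1) * ((n + 1).factorial : ℝ) / 2 ^ (n + 1) -
        Q.coeff (n + 1 + 1) * ((n + 1 + 1).factorial : ℝ) / 2 ^ (n + 1 + 1) := by
    intro n
    rw [h2 n, Nat.factorial_succ (n + 1)]
    push_cast
    field_simp
    ring
  simp only [h4]
  rw [Finset.sum_range_sub' (fun n => Q.coeff (n + 1) * ((n + 1).factorial : ℝ) / 2 ^ (n + 1))]
  rw [coeff_eq_zero_of_natDegree_lt (by omega : Q.natDegree < N + 1), ← coeff_zero_eq_eval_zero, zero_add, h0]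
  simp

/-- the derivative of the coefficients -/
def T1_D (f : PowerSeries (Polynomial ℝ)) : PowerSeries (Polynomial ℝ) :=
  PowerSeries.mk fun n => derivative (PowerSeries.coeff n f)

theorem T1_Dc (f : PowerSeries (Polynomial ℝ)) (n : ℕ) :
    PowerSeries.coeff n (T1_D f) = derivative (PowerSeries.coeff n f) := by
  unfold T1_D
  rw [PowerSeries.coeff_mk]

theorem T1_Dadd (f g : PowerSeries (Polynomial ℝ)) : T1_D (f + g) = T1_D f + T1_D g := by
  ext1 n
  simp only [T1_Dc, map_add]

theorem T1_Dsub (f g : PowerSeries (Polynomial ℝ)) : T1_D (f - g) = T1_D f - T1_D g := by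
  ext1 n
  simp only [T1_Dc, map_sub]

theorem T1_Dmul (f g : PowerSeries (Polynomial ℝ)) :
    T1_D (f * g) = T1_D f * g + f * T1_D g := by
  ext1 n
  rw [T1_Dc, map_add, PowerSeries.coeff_mul, PowerSeries.coeff_mul, PowerSeries.coeff_mul, map_sum,
    ← Finset.sum_add_distrib]
  refine Finset.sum_congr rfl fun p _ => ?_
  rw [derivative_mul, T1_Dc, T1_Dc]

theorem T1_DX : T1_D PowerSeries.X = 0 := by
  ext1 n
  rw [T1_Dc, PowerSeries.coeff_X]
  split_ifs <;> simp

theorem T1_D1 : T1_D 1 = 0 := by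
  ext1 n
  rw [T1_Dc, PowerSeries.coeff_one]
  split_ifs <;> simp

theorem T1_DC (P : Polynomial ℝ) : T1_D (PowerSeries.C P) = PowerSeries.C (derivative P) := by
  ext1 n
  rw [T1_Dc, PowerSeries.coeff_C, PowerSeries.coeff_C]
  split_ifs <;> simp

/-- the derivative in `z` -/
def T1_Z {R : Type} [CommRing R] (f : PowerSeries R) : PowerSeries R := PowerSeries.derivative R f

theorem T1_Zc {R : Type} [CommRing R] (f : PowerSeries R) (n : ℕ) :
    PowerSeries.coeff n (T1_Z f) = PowerSeries.coeff (n + 1) f * (n + 1) := PowerSeries.coeff_derivative f n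

theorem T1_Zmul {R : Type} [CommRing R] (f g : PowerSeries R) :
    T1_Z (f * g) = f * T1_Z g + g * T1_Z f := by
  unfold T1_Z
  rw [Derivation.leibniz, smul_eq_mul, smul_eq_mul]

theorem T1_Zsub {R : Type} [CommRing R] (f g : PowerSeries R) : T1_Z (f - g) = T1_Z f - T1_Z g := by
  unfold T1_Z
  rw [map_sub]

theorem T1_ZC {R : Type} [CommRing R] (r : R) : T1_Z (PowerSeries.C r) = 0 := PowerSeries.derivative_C

theorem T1_ZX {R : Type} [CommRing R] : T1_Z (PowerSeries.X : PowerSeries R) = 1 :=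
  PowerSeries.derivative_X

theorem T1_Z1 {R : Type} [CommRing R] : T1_Z (1 : PowerSeries R) = 0 := by
  have h := T1_ZC (1 : R)
  rwa [map_one] at h

theorem T1_comm (f : PowerSeries (Polynomial ℝ)) : T1_Z (T1_D f) = T1_D (T1_Z f) := by
  ext1 n
  rw [T1_Zc, T1_Dc, T1_Dc, T1_Zc, derivative_mul]
  simp

theorem T1_phi (W Z : PowerSeries (Polynomial ℝ))
    (hW : T1_D W = 1 - PowerSeries.C X * PowerSeries.X - W * W)
    (hZ : Z = (2 + PowerSeries.C X * PowerSeries.X) * T1_D W -
      3 * (PowerSeries.X * PowerSeries.X * T1_Z W) + PowerSeries.X * W) :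
    T1_D Z = -(2 * W * Z) := by
  have h1 : T1_D (PowerSeries.C X * PowerSeries.X) = PowerSeries.X := by
    rw [T1_Dmul, T1_DX, T1_DC, derivative_X, map_one]
    ring
  have h2 : T1_D (T1_D W) = -PowerSeries.X - 2 * W * T1_D W := by
    conv_lhs => rw [hW]
    rw [T1_Dsub, T1_Dsub, T1_D1, h1, T1_Dmul]
    ring
  have h3 : T1_D (T1_Z W) = -PowerSeries.C X - 2 * W * T1_Z W := by
    rw [← T1_comm, hW, T1_Zsub, T1_Zsub, T1_Zmul, T1_Zmul, T1_ZC, T1_ZX, T1_Z1]
    ring
  have h4 : T1_D (2 + PowerSeries.C X * PowerSeries.X) = PowerSeries.X := by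
    rw [T1_Dadd, h1, show (2 : PowerSeries (Polynomial ℝ)) = PowerSeries.C 2 from (map_ofNat _ 2).symm, T1_DC]
    simp
  have h5 : T1_D (3 * (PowerSeries.X * PowerSeries.X * T1_Z W)) =
      3 * (PowerSeries.X * PowerSeries.X * T1_D (T1_Z W)) := by
    have h6 : T1_D (3 : PowerSeries (Polynomial ℝ)) = 0 := by
      rw [show (3 : PowerSeries (Polynomial ℝ)) = PowerSeries.C 3 from (map_ofNat _ 3).symm, T1_DC]
      simp
    rw [T1_Dmul, T1_Dmul, T1_Dmul, T1_DX, h6]
    ring
  have h7 : T1_D Z = PowerSeries.X * T1_D W + (2 + PowerSeries.C X * PowerSeries.X) * T1_D (T1_D W) -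
      3 * (PowerSeries.X * PowerSeries.X * T1_D (T1_Z W)) + PowerSeries.X * T1_D W := by
    rw [hZ, T1_Dadd, T1_Dsub, T1_Dmul, h4, h5, T1_Dmul PowerSeries.X W, T1_DX]
    ring
  rw [h7, h2, h3, hZ]
  linear_combination (2 * PowerSeries.X) * hW

theorem T1_zero (Z W : PowerSeries (Polynomial ℝ)) (h : T1_D Z = -(2 * W * Z))
    (hW : PowerSeries.coeff 0 W = -1) : Z = 0 := by
  have key : ∀ n, PowerSeries.coeff n Z = 0 := by
    intro n
    induction n using Nat.strong_induction_on with
    | _ n ih =>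
      have h1 := congrArg (PowerSeries.coeff n) h
      rw [T1_Dc, map_neg, mul_assoc, show (2 : PowerSeries (Polynomial ℝ)) = PowerSeries.C 2 from
        (map_ofNat _ 2).symm, PowerSeries.coeff_C_mul, PowerSeries.coeff_mul] at h1
      have h2 : ∑ p ∈ HasAntidiagonal.antidiagonal n, PowerSeries.coeff p.1 W * PowerSeries.coeff p.2 Z =
          -PowerSeries.coeff n Z := by
        rw [Finset.sum_eq_single (0, n)]
        · rw [hW]; ring
        · rintro ⟨a, b⟩ hab hne
          rw [HasAntidiagonal.mem_antidiagonal] at hab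
          simp only at hab ⊢
          have hb : b < n := by
            rcases Nat.eq_zero_or_pos a with h0 | h0
            · exfalso
              apply hne
              rw [Prod.mk.injEq]
              omega
            · omega
          rw [ih b hb, mul_zero]
        · intro h3
          exact absurd (HasAntidiagonal.mem_antidiagonal.2 (by simp)) h3
      rw [h2] at h1
      have h3 : derivative (PowerSeries.coeff n Z) = 2 * PowerSeries.coeff n Z := by
        rw [h1]; ring
      by_contra h4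
      have h5 := natDegree_derivative_le (PowerSeries.coeff n Z)
      have h6 := degree_derivative_lt h4
      rw [h3] at h6
      have h7 : (2 * PowerSeries.coeff n Z).degree = (PowerSeries.coeff n Z).degree := by
        rw [show (2 : Polynomial ℝ) = C 2 from (map_ofNat C 2).symm]
        exact degree_C_mul (by norm_num)
      rw [h7] at h6
      exact lt_irrefl _ h6
  ext1 n
  rw [key n, map_zero]

theorem T1_rec (s : ℕ → ℝ) (h0 : s 0 = 0)
    (h : ∀ n, 4 * s (n + 1) - 2 * ∑ p ∈ HasAntidiagonal.antidiagonal (n + 1), s p.1 * s p.2 =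
      (3 * n - 1) * s n + (if n = 0 then 1 else 0)) (k : ℕ) : s (k + 1) = 2 * Kt (k + 1) := by
  induction k using Nat.strong_induction_on with
  | _ k ih =>
    have h1 := h k
    rw [Finset.Nat.sum_antidiagonal_eq_sum_range_succ (fun a b => s a * s b), Finset.sum_range_succ',
      Finset.sum_range_succ, h0] at h1
    simp only [Nat.sub_self, h0, mul_zero, zero_mul, add_zero] at h1
    rw [Kt, Finset.sum_fin_eq_sum_range]
    have h2 : ∑ i ∈ range k, s (i + 1) * s (k + 1 - (i + 1)) =
        4 * ∑ i ∈ range k, (if h : i < k then Kt (i + 1) * Kt (k - i) else 0) := by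
      rw [Finset.mul_sum]
      refine Finset.sum_congr rfl fun i hi => ?_
      rw [mem_range] at hi
      rw [dif_pos hi, ih i hi]
      obtain ⟨m, hm⟩ : ∃ m, k - i = m + 1 := ⟨k - i - 1, by omega⟩
      rw [show k + 1 - (i + 1) = m + 1 by omega, hm, ih m (by omega)]
      ring
    rw [h2] at h1
    rcases Nat.eq_zero_or_pos k with h3 | h3
    · subst h3
      simp only [h0, if_true] at h1
      rw [Kt]
      norm_num at h1 ⊢
      linarith
    · obtain ⟨m, rfl⟩ : ∃ m, k = m + 1 := ⟨k - 1, by omega⟩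
      rw [ih m (by omega), if_neg (by omega)] at h1
      push_cast at h1 ⊢
      linarith

/-- Sketch: F = ∑ PK_k(x) z^k in (ℝ[x])[[z]], F'' - 2F' = -x z F (' = d/dx), S = F'/F, W = S - 1, Riccati
W' = 1 - x z - W². Put Φ = (2 + x z) W' - 3 z² W_z + z W. Then Φ' = -2WΦ (compute with the Riccati equation and its
z-derivative W_z' = -x - 2 W W_z), i.e. Φ_k' - 2Φ_k = combination of lower Φ_j, so by induction Φ_k' = 2Φ_k, Φ_k = 0
(polynomial). At x = 0: 2(1 - W²) = 3z² W_z - z W with W(0,z) = -1 + ∑ PK_k'(0) z^k (as PK_j(0) = 0 for j ≥ 1),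
which is the recursion of Kt. -/
theorem PK_deriv (k : ℕ) : (PK (k + 1)).derivative.eval 0 = 2 * Kt (k + 1) := by
  obtain ⟨F, hF⟩ : ∃ F : PowerSeries (Polynomial ℝ), F = PowerSeries.mk PK := ⟨_, rfl⟩
  have hFc : ∀ n, PowerSeries.coeff n F = PK n := fun n => by rw [hF, PowerSeries.coeff_mk]
  have hP0 : PK 0 = 1 := by rw [PK]
  have hF1 : T1_D (T1_D F) - 2 * T1_D F = -(PowerSeries.C X * PowerSeries.X * F) := by
    ext1 n
    rw [map_sub, T1_Dc, T1_Dc, show (2 : PowerSeries (Polynomial ℝ)) = PowerSeries.C 2 from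
      (map_ofNat _ 2).symm, PowerSeries.coeff_C_mul, T1_Dc, map_neg, mul_assoc, PowerSeries.coeff_C_mul]
    rcases n with _ | n
    · rw [hFc, hP0]
      simp
    · rw [PowerSeries.coeff_succ_X_mul, hFc, hFc, ← PK_eq n]
      ring
  have hFcc : PowerSeries.constantCoeff F = ((1 : (Polynomial ℝ)ˣ) : Polynomial ℝ) := by
    rw [← PowerSeries.coeff_zero_eq_constantCoeff_apply, hFc, hP0]
    rfl
  obtain ⟨G, hG⟩ : ∃ G : PowerSeries (Polynomial ℝ), F * G = 1 :=
    ⟨_, PowerSeries.mul_invOfUnit F 1 hFcc⟩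
  have hDG : T1_D G = -(G * G * T1_D F) := by
    have h1 : T1_D F * G + F * T1_D G = 0 := by rw [← T1_Dmul, hG, T1_D1]
    have h2 : G * (T1_D F * G + F * T1_D G) = 0 := by rw [h1, mul_zero]
    linear_combination h2 - T1_D G * hG
  obtain ⟨W, hWd⟩ : ∃ W : PowerSeries (Polynomial ℝ), W = T1_D F * G - 1 := ⟨_, rfl⟩
  have hW : T1_D W = 1 - PowerSeries.C X * PowerSeries.X - W * W := by
    have h1 : T1_D W = T1_D (T1_D F) * G + T1_D F * T1_D G := by
      rw [hWd, T1_Dsub, T1_D1, T1_Dmul, sub_zero]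
    rw [h1, hDG, hWd]
    linear_combination G * hF1 - PowerSeries.C X * PowerSeries.X * hG
  have hW0 : PowerSeries.coeff 0 W = -1 := by
    rw [hWd, map_sub, PowerSeries.coeff_mul]
    simp [T1_Dc, hFc, hP0]
  obtain ⟨Z, hZ⟩ : ∃ Z : PowerSeries (Polynomial ℝ), Z = (2 + PowerSeries.C X * PowerSeries.X) * T1_D W -
      3 * (PowerSeries.X * PowerSeries.X * T1_Z W) + PowerSeries.X * W := ⟨_, rfl⟩
  have hZ0 : Z = 0 := T1_zero Z W (T1_phi W Z hW hZ) hW0
  obtain ⟨s, hs⟩ : ∃ s : ℕ → ℝ, s = fun n => (PK n).derivative.eval 0 := ⟨_, rfl⟩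
  have hsn : ∀ n, s n = (PK n).derivative.eval 0 := fun n => by rw [hs]
  rw [← hsn]
  refine T1_rec s (by rw [hsn, hP0]; simp) (fun n => ?_) k
  -- the evaluation at `x = 0`
  have hmF : PowerSeries.map (evalRingHom (0 : ℝ)) F = 1 := by
    ext1 m
    rw [PowerSeries.coeff_map, hFc, PowerSeries.coeff_one]
    rcases m with _ | m
    · rw [hP0]; simp
    · rw [if_neg (by omega)]
      exact PK_zero m
  have hmG : PowerSeries.map (evalRingHom (0 : ℝ)) G = 1 := by
    have h1 := congrArg (PowerSeries.map (evalRingHom (0 : ℝ))) hG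
    rw [map_mul, hmF, one_mul, map_one] at h1
    exact h1
  obtain ⟨w, hw⟩ : ∃ w, w = PowerSeries.map (evalRingHom (0 : ℝ)) W := ⟨_, rfl⟩
  have hws : w = PowerSeries.mk s - 1 := by
    ext1 m
    rw [hw, hWd, map_sub, map_mul, hmG, mul_one, map_one, map_sub, map_sub, PowerSeries.coeff_map, T1_Dc, hFc,
      PowerSeries.coeff_mk, hsn]
    rfl
  have hZw := congrArg (PowerSeries.map (evalRingHom (0 : ℝ))) hZ
  rw [hZ0, hW] at hZw
  simp only [map_zero, map_add, map_sub, map_mul, map_one, map_ofNat, PowerSeries.map_C, PowerSeries.map_X,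
    coe_evalRingHom, eval_X, zero_mul, add_zero, sub_zero] at hZw
  rw [← hw] at hZw
  have hc := congrArg (PowerSeries.coeff (n + 1)) hZw
  have hww : PowerSeries.coeff (n + 1) (w * w) =
      ∑ p ∈ HasAntidiagonal.antidiagonal (n + 1), s p.1 * s p.2 - 2 * s (n + 1) := by
    have h1 : w * w = PowerSeries.mk s * PowerSeries.mk s - PowerSeries.C 2 * PowerSeries.mk s + 1 := by
      rw [hws, map_ofNat]
      ring
    rw [h1, map_add, map_sub, PowerSeries.coeff_mul, PowerSeries.coeff_C_mul, PowerSeries.coeff_mk,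
      PowerSeries.coeff_one, if_neg (by omega), add_zero]
    simp only [PowerSeries.coeff_mk]
  have hwn : ∀ m, PowerSeries.coeff m w = s m - (if m = 0 then 1 else 0) := by
    intro m
    rw [hws, map_sub, PowerSeries.coeff_mk, PowerSeries.coeff_one]
  have hwz : PowerSeries.coeff (n + 1) (PowerSeries.X * PowerSeries.X *
      PowerSeries.map (evalRingHom (0 : ℝ)) (T1_Z W)) = n * PowerSeries.coeff n w := by
    rw [mul_assoc, PowerSeries.coeff_succ_X_mul]
    rcases n with _ | n
    · simp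
    · rw [PowerSeries.coeff_succ_X_mul, PowerSeries.coeff_map, T1_Zc, hw, PowerSeries.coeff_map]
      simp
      ring
  rw [show (2 : PowerSeries ℝ) = PowerSeries.C 2 from (map_ofNat _ 2).symm,
    show (3 : PowerSeries ℝ) = PowerSeries.C 3 from (map_ofNat _ 3).symm] at hc
  rw [map_add, map_sub, PowerSeries.coeff_C_mul, PowerSeries.coeff_C_mul, map_sub, hww, hwz,
    PowerSeries.coeff_succ_X_mul, hwn, PowerSeries.coeff_one, if_neg (by omega), map_zero] at hc
  rcases Nat.eq_zero_or_pos n with h0 | h0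
  · subst h0
    simp only [if_true] at hc ⊢
    push_cast at hc ⊢
    linarith
  · rw [if_neg (by omega)] at hc ⊢
    linarith

end
end KN.SQ
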