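import Pool.Agent.H132.SQ.G0

/-!
# The powers of the square root
-/

set_option autoImplicit false

namespace KN.SQ
open Polynomial Finset Filter Topology
noncomputable section
theorem cm_nonneg (m n : ℕ) : 0 ≤ cm m n := by
  unfold cm
  exact div_nonneg (prod_nonneg fun i _ => by positivity) (Nat.cast_nonneg _)

theorem T2_choose (m n : ℕ) : Ring.choose (((m : ℂ) / 2) + n - 1) n = (cm m n : ℂ) := by
  rw [← Ring.multichoose_eq]
  have h1 := Ring.factorial_nsmul_multichoose_eq_ascPochhammer ((m : ℂ) / 2) n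
  have h2 : ∀ l : ℕ, (ascPochhammer ℕ l).smeval ((m : ℂ) / 2) =
      ∏ i ∈ range l, ((m : ℂ) / 2 + i) := by
    intro l
    rw [Polynomial.ascPochhammer_smeval_eq_eval]
    induction l with
    | zero => simp
    | succ l ih => rw [ascPochhammer_succ_eval, ih, Finset.prod_range_succ]
  rw [h2] at h1
  have h3 : (n.factorial : ℂ) ≠ 0 := Nat.cast_ne_zero.2 n.factorial_ne_zero
  rw [nsmul_eq_mul] at h1
  have h4 : (cm m n : ℂ) = (∏ i ∈ range n, ((m : ℂ) / 2 + i)) / n.factorial := by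
    unfold cm
    push_cast
    rfl
  rw [h4, eq_div_iff h3, ← h1]
  ring

/-- Complex.one_div_one_sub_cpow_hasFPowerSeriesOnBall_zero with a = m/2, Ring.choose, ascPochhammer -/
theorem cm_hasSum {m : ℕ} {x : ℂ} (hx : ‖x‖ < 1) :
    HasSum (fun n => (cm m n : ℂ) * x ^ n) ((((1 - x) ^ (2 : ℂ)⁻¹)⁻¹) ^ m) := by
  have h1 := (Complex.one_div_one_sub_cpow_hasFPowerSeriesOnBall_zero ((m : ℂ) / 2)).hasSum
    (y := x) (by
      rw [Metric.mem_eball, edist_zero_right, ← ofReal_norm]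
      exact_mod_cast (ENNReal.ofReal_lt_one.2 hx))
  rw [zero_add, one_div] at h1
  have e : (1 - x) ^ ((m : ℂ) / 2) = ((1 - x) ^ (2 : ℂ)⁻¹) ^ m := by
    rw [← Complex.cpow_nat_mul, div_eq_mul_inv]
  rw [e, ← inv_pow] at h1
  have h5 : (fun n => (cm m n : ℂ) * x ^ n) = fun n : ℕ =>
      (FormalMultilinearSeries.ofScalars ℂ (fun n : ℕ => Ring.choose ((m : ℂ) / 2 + n - 1) n) n)
        fun _ => x := by
    funext n
    rw [FormalMultilinearSeries.ofScalars_apply_eq, T2_choose, smul_eq_mul]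
  rw [h5]
  exact h1

/-- Real.GammaSeq_tendsto_Gamma -/
theorem cm_tendsto {m : ℕ} (hm : 1 ≤ m) :
    Tendsto (fun k : ℕ => cm m k / (k : ℝ) ^ ((m : ℝ) / 2 - 1)) atTop
      (𝓝 (1 / Real.Gamma ((m : ℝ) / 2))) := by
  have hm0 : (0 : ℝ) < m := by exact_mod_cast (by omega : 0 < m)
  have hs : (0 : ℝ) < (m : ℝ) / 2 := by positivity
  have h1 := Real.GammaSeq_tendsto_Gamma ((m : ℝ) / 2)
  have hG : Real.Gamma ((m : ℝ) / 2) ≠ 0 := (Real.Gamma_pos_of_pos hs).ne'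
  have h2 := h1.inv₀ hG
  have h3 : Tendsto (fun k : ℕ => (k : ℝ) / (k + (m : ℝ) / 2)) atTop (𝓝 1) :=
    tendsto_natCast_div_add_atTop ((m : ℝ) / 2)
  have h4 := h2.mul h3
  rw [mul_one, ← one_div] at h4
  refine h4.congr' ?_
  filter_upwards [eventually_gt_atTop 0] with k hk
  have hk0 : (0 : ℝ) < k := by exact_mod_cast hk
  have h5 : (k : ℝ) ^ ((m : ℝ) / 2) = (k : ℝ) ^ ((m : ℝ) / 2 - 1) * k := by
    rw [← Real.rpow_add_one hk0.ne']
    congr 1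
    ring
  have h6 : (0 : ℝ) < (k : ℝ) ^ ((m : ℝ) / 2 - 1) := Real.rpow_pos_of_pos hk0 _
  have h7 : (0 : ℝ) < (k.factorial : ℝ) := by exact_mod_cast k.factorial_pos
  have h8 : (0 : ℝ) < ∏ i ∈ range k, ((m : ℝ) / 2 + i) := prod_pos fun i _ => by positivity
  rw [Real.GammaSeq, Finset.prod_range_succ, h5]
  unfold cm
  obtain ⟨p, hp⟩ : ∃ p, p = ∏ i ∈ range k, ((m : ℝ) / 2 + i) := ⟨_, rfl⟩
  obtain ⟨q, hq⟩ : ∃ q, q = (k : ℝ) ^ ((m : ℝ) / 2 - 1) := ⟨_, rfl⟩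
  rw [← hp, ← hq] 
  rw [← hp] at h8
  rw [← hq] at h6
  have h9 : (0 : ℝ) < (m : ℝ) / 2 + k := by positivity
  have h10 : (0 : ℝ) < (k : ℝ) + (m : ℝ) / 2 := by positivity
  rw [add_comm (k : ℝ) ((m : ℝ) / 2)]
  obtain ⟨d, hd⟩ : ∃ d, d = (m : ℝ) / 2 + k := ⟨_, rfl⟩
  rw [← hd] at h9 ⊢
  field_simp

end
end KN.SQ
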