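import Pool.Agent.H132.SQ.G2
import Pool.Agent.H132.SQ.G3
import Pool.Agent.H132.SQ.G4a
import Pool.Agent.H132.SQ.G4b
import Pool.Agent.H132.SQ.G4c
import Pool.Agent.H132.SQ.G5
import Pool.Agent.H132.SQ.G5b

/-!
# Solutions of order zero
-/

set_option autoImplicit false

namespace KN.SQ
open Finset Filter Topology
open scoped Classical ENNReal ComplexConjugate
noncomputable section
section
variable {M : Mdl}
theorem M1_exp_half (n : ℕ) : (1 / 2 : ℝ) ^ n ≤ Real.exp (-(1 / 2 * (n : ℝ))) := by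
  have h1 : (1 / 2 : ℝ) ≤ Real.exp (-(1 / 2)) := by
    have := Real.add_one_le_exp (-(1 / 2) : ℝ)
    linarith
  calc (1 / 2 : ℝ) ^ n ≤ (Real.exp (-(1 / 2))) ^ n := pow_le_pow_left₀ (by norm_num) h1 n
    _ = _ := by
      rw [← Real.exp_nat_mul]
      congr 1
      ring

theorem M1_exp_one (n : ℕ) : (1 / 4 : ℝ) ^ n ≤ Real.exp (-(1 * (n : ℝ))) := by
  have h1 : (1 / 4 : ℝ) ≤ Real.exp (-1) := by
    have h3 := Real.add_one_le_exp (-(1 / 2) : ℝ)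
    have h2 : Real.exp (-1) = Real.exp (-(1 / 2)) * Real.exp (-(1 / 2)) := by
      rw [← Real.exp_add]
      norm_num
    rw [h2]
    nlinarith
  calc (1 / 4 : ℝ) ^ n ≤ (Real.exp (-1)) ^ n := pow_le_pow_left₀ (by norm_num) h1 n
    _ = _ := by
      rw [← Real.exp_nat_mul]
      congr 1
      ring

/-- **Task M1a**: `sol - yv 1 = (vq - yv 1) + gq`, |u - ui| ≤ 4 CG 2^{-|d|} (ui_spec), `gq = G er` (gq_eq, G_left),
er = (er - er2) + er2, |er - er2| ≤ CE t 2^{-|d|} (er1_bd), er2 pointwise ≤ X t³ e^{-t|d|/4} (er2_apply; er2_norm, Ph bound). -/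
theorem sol_yv (M : Mdl) (C : Cap) : ∃ δ X : ℝ, 0 < δ ∧ 0 ≤ X ∧ ∀ q ∈ Mdl.Loc M,
    Wb (δ * ‖M.kap q‖) (M.sol C q - yv M C 1 q) X := by
  obtain ⟨δ0, Y, hδ0, hY, -, hres⟩ := res_w M
  have hCG := Mdl.CG_nonneg (M := M) (C := C)
  have hCU := Mdl.CU_nonneg (M := M) (C := C)
  have hCE := Mdl.CE_nonneg (M := M) (C := C)
  refine ⟨min δ0 (1 / 4), 4 * (4 * Mdl.CG M C) / √(1 / 2) + Y * (80 * Mdl.CU M C + Mdl.CE M C),
    lt_min hδ0 (by norm_num), by positivity, fun q hq => ?_⟩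
  have ht0 : 0 < ‖M.kap q‖ := (Mdl.rt hq).1
  have ht1 : ‖M.kap q‖ ≤ 1 / 100 := hq.2
  set t := ‖M.kap q‖ with ht
  set τ := min δ0 (1 / 4) * t with hτ
  have hτ0 : 0 ≤ τ := mul_nonneg (le_min hδ0.le (by norm_num)) ht0.le
  have hτ1 : τ ≤ δ0 * t := mul_le_mul_of_nonneg_right (min_le_left _ _) ht0.le
  have hτ2 : τ ≤ 1 / 4 * t := mul_le_mul_of_nonneg_right (min_le_right _ _) ht0.le
  have h1 : Wb τ (Mdl.vq M C q - yv M C 1 q) (4 * (4 * Mdl.CG M C) / √(1 / 2)) := by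
    refine Wb.geom (ρ := 1 / 2) (by norm_num) (by norm_num) (by linarith) (by positivity)
      fun d => ?_
    have e1 : (Mdl.vq M C q - yv M C 1 q) d =
        ((Mdl.u M C d - Mdl.ui M C d : ℝ) : ℂ) * E (M.kap q) d := by
      show Mdl.vq M C q d - yv M C 1 q d = _
      rw [Mdl.vq_apply hq, yv_apply 1 hq, Polynomial.map_one, Polynomial.eval_one]
      push_cast
      ring
    rw [e1, norm_mul, Complex.norm_real, Real.norm_eq_abs]
    have h2 := Mdl.ui_spec (M := M) (C := C) d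
    have h3 : ‖E (M.kap q) d‖ ≤ 1 := by
      have h4 := Mdl.kap_re hq.1
      exact E_norm_le_one (by linarith) d
    calc |Mdl.u M C d - Mdl.ui M C d| * ‖E (M.kap q) d‖
        ≤ 4 * Mdl.CG M C * (1 / 2) ^ d.natAbs * 1 := mul_le_mul h2 h3 (norm_nonneg _) (by positivity)
      _ ≤ 4 * Mdl.CG M C * Real.exp (-(1 / 2 * (d.natAbs : ℝ))) := by
        rw [mul_one]
        exact mul_le_mul_of_nonneg_left (M1_exp_half _) (by positivity)
  have h2 : Wb τ (Mdl.er2 M C q) (80 * Mdl.CU M C * t ^ 2) := by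
    have h3 : Wb τ (Mdl.er2 M C q) (4 * (Mdl.CU M C * (10 * t ^ 3)) / √(t / 2)) := by
      refine Wb.geom (ρ := t / 2) (by positivity) (by linarith) (by linarith) (by positivity)
        fun d => ?_
      rw [Mdl.er2_apply hq]
      refine (Mdl.er2_bd0 hq d).trans (le_of_eq ?_)
      rw [← Real.exp_nat_mul]
      congr 2
      ring
    refine h3.mono ?_
    have hs : t / 2 ≤ √(t / 2) := Real.le_sqrt_of_sq_le (by nlinarith)
    have hs0 : 0 < √(t / 2) := Real.sqrt_pos.2 (by positivity)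
    rw [div_le_iff₀ hs0]
    calc 4 * (Mdl.CU M C * (10 * t ^ 3)) = 80 * Mdl.CU M C * t ^ 2 * (t / 2) := by ring
      _ ≤ 80 * Mdl.CU M C * t ^ 2 * √(t / 2) := mul_le_mul_of_nonneg_left hs (by positivity)
  have hq2 : ‖q‖ ≤ 2 := hq.1.1.le
  have hz2 : Mdl.er2 M C q 0 = 0 := by
    rw [Mdl.er2_apply hq]
    simp [Mdl.ui]
  have hz1 : (Mdl.er M C q - Mdl.er2 M C q) 0 = 0 := by
    have e : Mdl.er M C q 0 = 0 := by
      rw [← Mdl.gq_eq hq]
      show Mdl.gq M C q 0 - (q ^ 2 * Mdl.gq M C q 0 + M.N q (Mdl.gq M C q) 0) = 0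
      rw [Mdl.gq_zero hq, Mdl.N_zero hq2]
      ring
    show Mdl.er M C q 0 - Mdl.er2 M C q 0 = 0
    rw [e, hz2, sub_zero]
  have h4 := hres q hq.1 τ hτ0 hτ1 (Mdl.er2 M C q) (Mdl.er M C q - Mdl.er2 M C q)
    (80 * Mdl.CU M C * t ^ 2) (Mdl.CE M C * t) (by positivity) hz2 hz1 h2 (Mdl.er1_bd hq)
  have e5 : Mdl.er2 M C q + (Mdl.er M C q - Mdl.er2 M C q) =
      Mdl.gq M C q - M.K q (Mdl.gq M C q) := by
    rw [Mdl.gq_eq hq]
    abel
  rw [e5, Mdl.G_left (M.isUnit_of_U hq.1), ← ht] at h4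
  have e6 : Y * (80 * Mdl.CU M C * t ^ 2 / t ^ 2 + Mdl.CE M C * t / t) =
      Y * (80 * Mdl.CU M C + Mdl.CE M C) := by
    rw [mul_div_cancel_right₀ _ (pow_ne_zero 2 ht0.ne'), mul_div_cancel_right₀ _ ht0.ne']
  rw [e6] at h4
  have h7 := h1.add h4
  have e8 : (Mdl.vq M C q - yv M C 1 q) + Mdl.gq M C q = M.sol C q - yv M C 1 q := by
    unfold Mdl.gq
    abel
  rw [e8] at h7
  exact h7

/-- **Task M1b**: |cv d| ≤ T (1/4)^|d| (cv_bd), cv 0 = 0 -/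
theorem cv_wb (M : Mdl) (C : Cap) : ∃ X : ℝ, 0 ≤ X ∧ ∀ q ∈ M.U, ∀ τ : ℝ, τ ≤ 1 / 4 →
    Wb τ (C.cv q) X := by
  have hT := C.T_nonneg
  refine ⟨4 * C.T / √1, by positivity, fun q hq τ hτ => ?_⟩
  refine Wb.geom (ρ := 1) one_pos le_rfl (by linarith) hT fun d => ?_
  refine (C.cv_bd hq.1.le d).trans ?_
  exact mul_le_mul_of_nonneg_left (M1_exp_one _) hT

end
end
end KN.SQ
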