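import Pool.Agent.H132.SQ.GM1

/-!
# The moment vectors near the singularity
-/

set_option autoImplicit false

namespace KN.SQ
open Finset Filter Topology
open scoped Classical ENNReal ComplexConjugate
noncomputable section
section
variable {M : Mdl}

/-- `1/√t` -/
def M2_r (M : Mdl) (q : ℂ) : ℝ := (√‖M.kap q‖)⁻¹

theorem M2_facts {q : ℂ} (hq : q ∈ Mdl.Loc M) :
    0 < ‖M.kap q‖ ∧ 1 ≤ M2_r M q ∧ ‖M.kap q‖⁻¹ = M2_r M q ^ 2 := by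
  have h1 : 0 < ‖M.kap q‖ := Mdl.kap_pos hq.1
  have h2 : ‖M.kap q‖ ≤ 1 / 100 := hq.2
  have h3 : 0 < √‖M.kap q‖ := Real.sqrt_pos.2 h1
  have h4 : √‖M.kap q‖ ≤ 1 := by
    rw [Real.sqrt_le_left (by norm_num)]
    linarith
  refine ⟨h1, ?_, ?_⟩
  · unfold M2_r
    exact (one_le_inv₀ h3).2 h4
  · unfold M2_r
    rw [inv_pow, Real.sq_sqrt h1.le]

theorem M2_pow {q : ℂ} (hq : q ∈ Mdl.Loc M) {m n : ℕ} (h : m ≤ n) :
    M2_r M q ^ m ≤ M2_r M q ^ n :=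
  pow_le_pow_right₀ (M2_facts hq).2.1 h

theorem M2_pos {q : ℂ} (hq : q ∈ Mdl.Loc M) (n : ℕ) : 0 < M2_r M q ^ n :=
  pow_pos (lt_of_lt_of_le one_pos (M2_facts hq).2.1) n

theorem M2_div {q : ℂ} (hq : q ∈ Mdl.Loc M) (x : ℝ) (n : ℕ) :
    x / ‖M.kap q‖ ^ n = x * M2_r M q ^ (2 * n) := by
  rw [div_eq_mul_inv, ← inv_pow, (M2_facts hq).2.2, ← pow_mul]

theorem M2_kinv {q : ℂ} (hq : q ∈ Mdl.Loc M) (n : ℕ) :
    ‖(M.kap q)⁻¹ ^ n‖ = M2_r M q ^ (2 * n) := by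
  rw [norm_pow, norm_inv, (M2_facts hq).2.2, ← pow_mul]

theorem M2_sq {q : ℂ} (hq : q ∈ Mdl.Loc M) : 1 / √‖M.kap q‖ = M2_r M q := by
  unfold M2_r; rw [one_div]

theorem M2_geom4 {q : ℂ} (hq : q ∈ Mdl.Loc M) (X : ℝ) :
    4 * X / √(‖M.kap q‖ / 4) = 8 * X * M2_r M q := by
  have h1 := (M2_facts hq).1
  have h2 : √(‖M.kap q‖ / 4) = √‖M.kap q‖ / 2 := by
    rw [Real.sqrt_div h1.le]
    congr 1
    rw [show (4 : ℝ) = 2 ^ 2 by norm_num, Real.sqrt_sq (by norm_num)]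
  have h3 : 0 < √‖M.kap q‖ := Real.sqrt_pos.2 h1
  rw [h2]
  unfold M2_r
  field_simp
  ring

theorem M2_geom16 {q : ℂ} (hq : q ∈ Mdl.Loc M) (X : ℝ) :
    4 * X / √(‖M.kap q‖ / 16) = 16 * X * M2_r M q := by
  have h1 := (M2_facts hq).1
  have h2 : √(‖M.kap q‖ / 16) = √‖M.kap q‖ / 4 := by
    rw [Real.sqrt_div h1.le]
    congr 1
    rw [show (16 : ℝ) = 4 ^ 2 by norm_num, Real.sqrt_sq (by norm_num)]
  have h3 : 0 < √‖M.kap q‖ := Real.sqrt_pos.2 h1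
  rw [h2]
  unfold M2_r
  field_simp
  ring

/-- the vectors `yv` -/
theorem M2_yv (M : Mdl) (C : Cap) (P : Polynomial ℝ) : ∃ X : ℝ, 0 ≤ X ∧ ∀ q ∈ Mdl.Loc M,
    ∀ δ : ℝ, δ ≤ 1 / 8 → Wb (δ * ‖M.kap q‖) (yv M C P q) (X * M2_r M q) := by
  obtain ⟨Y, hY0, hY⟩ := yv_bd M C P
  refine ⟨8 * Y, by positivity, fun q hq δ hδ => ?_⟩
  obtain ⟨t0, -, -⟩ := M2_facts hq
  have t1 : ‖M.kap q‖ ≤ 1 / 100 := hq.2
  rw [← M2_geom4 hq]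
  refine Wb.geom (by linarith) (by linarith) ?_ hY0 (hY q hq)
  nlinarith

/-- the constants -/
def M2_c (A : Ker M) (i : ℕ) : ℝ := i.factorial * (2 * A.cA / M.sg) ^ i

/-- the errors -/
def M2_e (A : Ker M) (C : CapS) (Xs : ℕ → Mul M) (q : ℂ) (i : ℕ) : H :=
  VK Xs C q i - (M2_c A i : ℂ) • ((M.kap q)⁻¹ ^ (3 * i) • yv M (C.r 0) (PK i) q)

/-- the statement -/
def M2_S (A : Ker M) (a : ℕ → ℝ) (C : CapS) (k : ℕ) (δ X : ℝ) : Prop :=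
    ∀ (N : ℕ) (Xs : ℕ → Mul M), GoodK A a N Xs → ∀ q ∈ Mdl.Loc M, 1 / ‖M.kap q‖ ^ 2 ≤ N →
    ∀ i ≤ k, Wb (δ * ‖M.kap q‖) (M2_e A C Xs q i) (X * M2_r M q ^ (6 * i))

/-- the vectors `V_i` -/
theorem M2_V (A : Ker M) (a : ℕ → ℝ) (C : CapS) (k : ℕ) {δ X0 : ℝ}
    (hδ8 : δ ≤ 1 / 8) (hX0 : 0 ≤ X0) (h0 : M2_S A a C k δ X0) : ∃ X : ℝ, 0 ≤ X ∧
    ∀ (N : ℕ) (Xs : ℕ → Mul M), GoodK A a N Xs → ∀ q ∈ Mdl.Loc M, 1 / ‖M.kap q‖ ^ 2 ≤ N →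
    ∀ i ≤ k, Wb (δ * ‖M.kap q‖) (VK Xs C q i) (X * M2_r M q ^ (6 * i + 1)) := by
  choose Y hY0 hY using fun i => M2_yv M (C.r 0) (PK i)
  refine ⟨X0 + ∑ i ∈ range (k + 1), |M2_c A i| * Y i,
    add_nonneg hX0 (sum_nonneg fun i _ => mul_nonneg (abs_nonneg _) (hY0 i)), ?_⟩
  intro N Xs hG q hq hN i hi
  have h1 := h0 N Xs hG q hq hN i hi
  have h2 := ((hY i q hq δ hδ8).smul ((M.kap q)⁻¹ ^ (3 * i))).smul (M2_c A i : ℂ)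
  have h3 := h1.add h2
  have e0 : M2_e A C Xs q i + (M2_c A i : ℂ) • ((M.kap q)⁻¹ ^ (3 * i) • yv M (C.r 0) (PK i) q) =
      VK Xs C q i := by unfold M2_e; rw [sub_add_cancel]
  rw [e0] at h3
  refine h3.mono ?_
  rw [M2_kinv hq, Complex.norm_real, Real.norm_eq_abs]
  have e2 : 2 * (3 * i) = 6 * i := by ring
  rw [e2]
  have h4 : |M2_c A i| * Y i ≤ ∑ i ∈ range (k + 1), |M2_c A i| * Y i :=
    single_le_sum (f := fun i => |M2_c A i| * Y i)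
      (fun i _ => mul_nonneg (abs_nonneg _) (hY0 i)) (mem_range.2 (by omega))
  have h5 : M2_r M q ^ (6 * i) ≤ M2_r M q ^ (6 * i + 1) := M2_pow hq (by omega)
  have h6 := M2_pos hq (6 * i + 1)
  calc X0 * M2_r M q ^ (6 * i) + |M2_c A i| * (M2_r M q ^ (6 * i) * (Y i * M2_r M q))
      = X0 * M2_r M q ^ (6 * i) + (|M2_c A i| * Y i) * M2_r M q ^ (6 * i + 1) := by ring
    _ ≤ X0 * M2_r M q ^ (6 * i + 1) +
        (∑ i ∈ range (k + 1), |M2_c A i| * Y i) * M2_r M q ^ (6 * i + 1) :=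
        add_le_add (mul_le_mul_of_nonneg_left h5 hX0) (mul_le_mul_of_nonneg_right h4 h6.le)
    _ = _ := by ring

/-- the vectors `Om_j V_i` -/
theorem M2_OV (A : Ker M) (a : ℕ → ℝ) (C : CapS) (k : ℕ) {δ X0 : ℝ} (hδ : 0 < δ)
    (hδ8 : δ ≤ 1 / 8) (hX0 : 0 ≤ X0) (hS : M2_S A a C k δ X0) : ∃ X : ℝ, 0 ≤ X ∧
    ∀ (N : ℕ) (Xs : ℕ → Mul M), GoodK A a N Xs → ∀ q ∈ Mdl.Loc M, 1 / ‖M.kap q‖ ^ 2 ≤ N →
    ∀ i ≤ k, ∀ j ≤ k + 1, 1 ≤ j → Wb (δ / 2 * ‖M.kap q‖) ((Xs j).Om q (VK Xs C q i))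
      (X * M2_r M q ^ (6 * i + 2 * j + 1)) := by
  obtain ⟨X1, hX1, h0⟩ := M2_V A a C k hδ8 hX0 hS
  choose Z hZ0 hZ using fun j => Om_wb (M := M) j
  refine ⟨∑ j ∈ range (k + 2), Z j * |a j| / (δ / 2) ^ j * X1, sum_nonneg fun j _ => ?_, ?_⟩
  · have := hZ0 j
    positivity
  intro N Xs hG q hq hN i hi j hj hj1
  obtain ⟨t0, r1, r2⟩ := M2_facts hq
  have t1 : ‖M.kap q‖ ≤ 1 / 100 := hq.2
  have ha : 0 ≤ a j := (hG.1 j hj1).1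
  have h1 := hZ j (Xs j) (a j) (hG.1 j hj1) q hq.1.1.le (δ * ‖M.kap q‖) (δ / 2 * ‖M.kap q‖)
    (by positivity) (by nlinarith)
    (by nlinarith) _ _ (h0 N Xs hG q hq hN i hi)
  refine h1.mono ?_
  have e1 : δ * ‖M.kap q‖ - δ / 2 * ‖M.kap q‖ = δ / 2 * ‖M.kap q‖ := by ring
  have h3 : Z j * a j / (δ * ‖M.kap q‖ - δ / 2 * ‖M.kap q‖) ^ j *
      (X1 * M2_r M q ^ (6 * i + 1)) =
      (Z j * |a j| / (δ / 2) ^ j * X1) * M2_r M q ^ (6 * i + 2 * j + 1) := by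
    rw [e1, abs_of_nonneg ha, mul_pow, ← div_div, M2_div hq]
    ring
  rw [h3]
  refine mul_le_mul_of_nonneg_right ?_ (M2_pos hq _).le
  refine single_le_sum (f := fun j => Z j * |a j| / (δ / 2) ^ j * X1) (fun j _ => ?_)
    (mem_range.2 (by omega))
  have := hZ0 j
  positivity

/-- the main term -/
theorem M2_O1 (A : Ker M) (a : ℕ → ℝ) (C : CapS) (k : ℕ) {δ X0 : ℝ} (hδ : 0 < δ)
    (hδ8 : δ ≤ 1 / 16) (hX0 : 0 ≤ X0) (hS : M2_S A a C k δ X0) : ∃ X : ℝ, 0 ≤ X ∧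
    ∀ (N : ℕ) (Xs : ℕ → Mul M), GoodK A a N Xs → ∀ q ∈ Mdl.Loc M, 1 / ‖M.kap q‖ ^ 2 ≤ N →
    Wb (δ / 2 * ‖M.kap q‖) ((Xs 1).Om q (VK Xs C q k) - (M2_c A k : ℂ) •
      ((M.kap q)⁻¹ ^ (3 * k) • ((A.cA : ℂ) • xf (yv M (C.r 0) (PK k) q))))
      (X * M2_r M q ^ (6 * k + 2)) := by
  obtain ⟨Z, hZ0, hZ⟩ := Om_wb (M := M) 1
  obtain ⟨W, hW0, hW⟩ := Om_yv A (C.r 0) (PK k) (a 1)
  refine ⟨Z * |a 1| / (δ / 2) * X0 + |M2_c A k| * (16 * W), by positivity, ?_⟩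
  intro N Xs hG q hq hN
  obtain ⟨t0, r1, r2⟩ := M2_facts hq
  have t1 : ‖M.kap q‖ ≤ 1 / 100 := hq.2
  have hGr := hG.1 1 le_rfl
  have ha : 0 ≤ a 1 := hGr.1
  have h1 := hS N Xs hG q hq hN k le_rfl
  have h2 := hZ (Xs 1) (a 1) hGr q hq.1.1.le (δ * ‖M.kap q‖) (δ / 2 * ‖M.kap q‖)
    (by positivity) (by nlinarith) (by nlinarith) _ _ h1
  have h3 : Wb (δ / 2 * ‖M.kap q‖) ((Xs 1).Om q (yv M (C.r 0) (PK k) q) -
      (A.cA : ℂ) • xf (yv M (C.r 0) (PK k) q)) (4 * W / √(‖M.kap q‖ / 16)) := by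
    refine Wb.geom (by linarith) (by linarith) (by nlinarith) hW0 (fun d => ?_)
    exact hW (Xs 1) N hGr hG.2.1 q hq hN d
  rw [M2_geom16 hq] at h3
  have h4 := (h3.smul ((M.kap q)⁻¹ ^ (3 * k))).smul (M2_c A k : ℂ)
  have e : (Xs 1).Om q (VK Xs C q k) - (M2_c A k : ℂ) •
      ((M.kap q)⁻¹ ^ (3 * k) • ((A.cA : ℂ) • xf (yv M (C.r 0) (PK k) q))) =
      (Xs 1).Om q (M2_e A C Xs q k) +
      (M2_c A k : ℂ) • ((M.kap q)⁻¹ ^ (3 * k) •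
      ((Xs 1).Om q (yv M (C.r 0) (PK k) q) - (A.cA : ℂ) • xf (yv M (C.r 0) (PK k) q))) := by
    unfold M2_e
    rw [map_sub, map_smul, map_smul, smul_sub, smul_sub]
    abel
  rw [e]
  refine (h2.add h4).mono ?_
  have e1 : δ * ‖M.kap q‖ - δ / 2 * ‖M.kap q‖ = δ / 2 * ‖M.kap q‖ := by ring
  have h5 : Z * a 1 / (δ * ‖M.kap q‖ - δ / 2 * ‖M.kap q‖) ^ 1 * (X0 * M2_r M q ^ (6 * k)) =
      (Z * |a 1| / (δ / 2) * X0) * M2_r M q ^ (6 * k + 2) := by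
    rw [e1, abs_of_nonneg ha, pow_one, ← div_div, div_eq_mul_inv _ ‖M.kap q‖, r2]
    ring
  have h6 : ‖(M2_c A k : ℂ)‖ * (‖(M.kap q)⁻¹ ^ (3 * k)‖ * (16 * W * M2_r M q)) ≤
      |M2_c A k| * (16 * W) * M2_r M q ^ (6 * k + 2) := by
    rw [M2_kinv hq, Complex.norm_real, Real.norm_eq_abs]
    have h7 : M2_r M q ^ (6 * k + 1) ≤ M2_r M q ^ (6 * k + 2) := M2_pow hq (by omega)
    calc |M2_c A k| * (M2_r M q ^ (2 * (3 * k)) * (16 * W * M2_r M q))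
        = |M2_c A k| * (16 * W) * M2_r M q ^ (6 * k + 1) := by ring
      _ ≤ _ := mul_le_mul_of_nonneg_left h7 (by positivity)
  rw [h5, add_mul]
  exact add_le_add le_rfl h6

theorem M2_c_succ (A : Ker M) (k : ℕ) :
    M2_c A (k + 1) * (M.sg / 2) = ((k + 1 : ℕ) : ℝ) * (A.cA * M2_c A k) := by
  have hs := M.sg_pos.ne'
  unfold M2_c
  rw [Nat.factorial_succ, pow_succ]
  push_cast
  field_simp

/-- the induction step -/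
theorem M2_step (A : Ker M) (a : ℕ → ℝ) (C : CapS) (k : ℕ) {δ X0 : ℝ} (hδ : 0 < δ)
    (hδ8 : δ ≤ 1 / 32) (hX0 : 0 ≤ X0) (hS : M2_S A a C k δ X0)
    (hδr : ∃ δ0 Y : ℝ, δ ≤ δ0 ∧ 0 ≤ Y ∧
    ∀ q ∈ M.U, ∀ τ : ℝ, 0 ≤ τ → τ ≤ δ0 * ‖M.kap q‖ → ∀ (f1 f2 : H) (F1 F2 : ℝ), 0 ≤ F2 →
    f1 0 = 0 → f2 0 = 0 → Wb τ f1 F1 → (∀ d, ‖f2 d‖ ≤ F2 * (1 / 2) ^ d.natAbs) →
    Wb τ (M.G q (f1 + f2)) (Y * (F1 / ‖M.kap q‖ ^ 2 + F2 / ‖M.kap q‖))) :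
    ∃ X : ℝ, 0 ≤ X ∧ M2_S A a C (k + 1) (δ / 2) X := by
  obtain ⟨δ0, Y, hδ0, hY, hres⟩ := hδr
  obtain ⟨X1, hX1, h1⟩ := M2_OV A a C k hδ (by linarith) hX0 hS
  obtain ⟨X2, hX2, h2⟩ := M2_O1 A a C k hδ (by linarith) hX0 hS
  obtain ⟨T, hT, hcv⟩ := cv_wb M (C.r (k + 1))
  obtain ⟨R, hR, hres2⟩ := yv_res M (C.r 0) (PK (k + 1)) (PK_zero k)
  obtain ⟨c, hc⟩ : ∃ c : ℝ, c = |M2_c A (k + 1)| := ⟨_, rfl⟩
  have hc0 : 0 ≤ c := by rw [hc]; exact abs_nonneg _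
  obtain ⟨S, hSd⟩ : ∃ S : ℝ, S = ∑ j : Fin k, ‖(((k + 1).choose ((j.succ : ℕ) + 1) : ℕ) : ℂ)‖ * X1 :=
    ⟨_, rfl⟩
  have hS0 : 0 ≤ S := by rw [hSd]; exact sum_nonneg fun j _ => by positivity
  obtain ⟨F1, hF1⟩ : ∃ F1 : ℝ, F1 = ((k + 1 : ℕ) : ℝ) * X2 + S + T + c * (16 * R) := ⟨_, rfl⟩
  have hF10 : 0 ≤ F1 := by rw [hF1]; positivity
  refine ⟨X0 + Y * (F1 + c * R), by positivity, ?_⟩
  intro N Xs hG q hq hN i hi
  obtain ⟨t0, r1, r2⟩ := M2_facts hq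
  have t1 : ‖M.kap q‖ ≤ 1 / 100 := hq.2
  have hq2 : ‖q‖ ≤ 2 := hq.1.1.le
  have hκ : M.kap q ≠ 0 := norm_pos_iff.1 t0
  rcases Nat.lt_or_ge i (k + 1) with hik | hik
  · refine ((hS N Xs hG q hq hN i (by omega)).tau (by nlinarith)).mono ?_
    refine mul_le_mul_of_nonneg_right ?_ (M2_pos hq _).le
    have : 0 ≤ Y * (F1 + c * R) := by positivity
    linarith
  · obtain rfl : i = k + 1 := by omega
    obtain ⟨ρ1, ρ2, hρ, z1, z2, b1, b2⟩ := hres2 q hq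
    obtain ⟨r, hr⟩ : ∃ r, r = M2_r M q := ⟨_, rfl⟩
    -- the equation
    set y := yv M (C.r 0) (PK (k + 1)) q with hy
    set κ := M.kap q with hκd
    have hyG : y = M.G q (y - M.K q y) := (Mdl.G_left (M.isUnit_of_U hq.1) y).symm
    rw [PK_eq, ← xf_yv (PK k) hq, ← hκd] at hρ
    -- the tail of the sum
    set Tl : H := ∑ j : Fin k, (((k + 1).choose ((j.succ : ℕ) + 1) : ℕ) : ℂ) •
      (Xs ((j.succ : ℕ) + 1)).Om q (VK Xs C q (k + 1 - 1 - (j.succ : ℕ))) with hTl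
    have hVK : VK Xs C q (k + 1) = M.G q ((((k + 1 : ℕ) : ℂ) • (Xs 1).Om q (VK Xs C q k) + Tl) +
        (C.r (k + 1)).cv q) := by
      rw [VK, Fin.sum_univ_succ]
      have e1 : (k + 1).choose (((0 : Fin (k + 1)) : ℕ) + 1) = k + 1 := by simp
      have e2 : ((0 : Fin (k + 1)) : ℕ) + 1 = 1 := by simp
      have e3 : k + 1 - 1 - ((0 : Fin (k + 1)) : ℕ) = k := by simp
      rw [e1, e2, e3]
    set D : H := (Xs 1).Om q (VK Xs C q k) - (M2_c A k : ℂ) •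
      (κ⁻¹ ^ (3 * k) • ((A.cA : ℂ) • xf (yv M (C.r 0) (PK k) q))) with hD
    have key : M2_e A C Xs q (k + 1) = M.G q
        ((((k + 1 : ℕ) : ℂ) • D + Tl + (C.r (k + 1)).cv q -
          (M2_c A (k + 1) : ℂ) • (κ⁻¹ ^ (3 * (k + 1)) • ρ1)) +
        (-((M2_c A (k + 1) : ℂ) • (κ⁻¹ ^ (3 * (k + 1)) • ρ2)))) := by
      have eG : (M2_c A (k + 1) : ℂ) • (κ⁻¹ ^ (3 * (k + 1)) • y) = M.G q
          ((M2_c A (k + 1) : ℂ) • (κ⁻¹ ^ (3 * (k + 1)) • (((M.sg / 2 : ℝ) : ℂ) • (κ ^ 2 •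
          (κ • xf (yv M (C.r 0) (PK k) q))) + ρ1 + ρ2))) := by
        conv_lhs => rw [hyG, hρ]
        rw [map_smul, map_smul]
      unfold M2_e
      rw [hVK, ← hκd, ← hy, eG, ← map_sub]
      congr 1
      have e1 : (M2_c A (k + 1) : ℂ) • (κ⁻¹ ^ (3 * (k + 1)) • (((M.sg / 2 : ℝ) : ℂ) • (κ ^ 2 •
          (κ • xf (yv M (C.r 0) (PK k) q))) + ρ1 + ρ2)) =
          ((k + 1 : ℕ) : ℂ) • ((M2_c A k : ℂ) • (κ⁻¹ ^ (3 * k) • ((A.cA : ℂ) •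
            xf (yv M (C.r 0) (PK k) q)))) +
          (M2_c A (k + 1) : ℂ) • (κ⁻¹ ^ (3 * (k + 1)) • ρ1) +
          (M2_c A (k + 1) : ℂ) • (κ⁻¹ ^ (3 * (k + 1)) • ρ2) := by
        rw [smul_add, smul_add, smul_add, smul_add]
        congr 2
        simp only [smul_smul]
        congr 1
        have e2 := congrArg (fun x : ℝ => (x : ℂ)) (M2_c_succ A k)
        simp only [Complex.ofReal_mul, Complex.ofReal_natCast] at e2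
        have e3 : κ⁻¹ ^ (3 * (k + 1)) * (κ ^ 2 * κ) = κ⁻¹ ^ (3 * k) := by
          rw [mul_add, pow_add, inv_pow, inv_pow]
          field_simp
        calc _ = ((M2_c A (k + 1) : ℂ) * ((M.sg / 2 : ℝ) : ℂ)) *
              (κ⁻¹ ^ (3 * (k + 1)) * (κ ^ 2 * κ)) := by ring
          _ = _ := by rw [e2, e3]; ring
      rw [e1, hD, smul_sub]
      abel
    rw [key]
    -- bounds
    have w1 := (h2 N Xs hG q hq hN).smul (((k + 1 : ℕ) : ℂ))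
    have w2 : Wb (δ / 2 * ‖κ‖) Tl (∑ j : Fin k, ‖(((k + 1).choose ((j.succ : ℕ) + 1) : ℕ) : ℂ)‖ *
        (X1 * M2_r M q ^ (6 * (k + 1 - 1 - (j.succ : ℕ)) + 2 * ((j.succ : ℕ) + 1) + 1))) := by
      refine Wb.sum _ fun j _ => ?_
      have hj := j.2
      have hjs : (j.succ : ℕ) = j + 1 := Fin.val_succ j
      exact (h1 N Xs hG q hq hN (k + 1 - 1 - (j.succ : ℕ)) (by omega) ((j.succ : ℕ) + 1)
        (by omega) (by omega)).smul _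
    have w3 : Wb (δ / 2 * ‖κ‖) ((C.r (k + 1)).cv q) T := hcv q hq.1 _ (by nlinarith)
    have w4 : Wb (δ / 2 * ‖κ‖) ρ1 (4 * (R * ‖κ‖ ^ 3) / √(‖κ‖ / 16)) := by
      refine Wb.geom (by linarith) (by linarith) (by nlinarith) (by positivity) fun d => ?_
      refine (b1 d).trans (mul_le_mul_of_nonneg_left (Real.exp_le_exp.2 ?_) (by positivity))
      have hd0 : (0 : ℝ) ≤ d.natAbs := Nat.cast_nonneg _
      have : ‖κ‖ / 16 * (d.natAbs : ℝ) ≤ ‖κ‖ / 8 * (d.natAbs : ℝ) :=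
        mul_le_mul_of_nonneg_right (by linarith) hd0
      linarith
    rw [M2_geom16 hq] at w4
    have w5 := ((w4.smul (κ⁻¹ ^ (3 * (k + 1)))).smul (M2_c A (k + 1) : ℂ)).smul (-1 : ℂ)
    have w6 := ((w1.add w2).add w3).add w5
    have e6 : ((k + 1 : ℕ) : ℂ) • D + Tl + (C.r (k + 1)).cv q +
        (-1 : ℂ) • ((M2_c A (k + 1) : ℂ) • (κ⁻¹ ^ (3 * (k + 1)) • ρ1)) =
        ((k + 1 : ℕ) : ℂ) • D + Tl + (C.r (k + 1)).cv q -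
          (M2_c A (k + 1) : ℂ) • (κ⁻¹ ^ (3 * (k + 1)) • ρ1) := by
      rw [neg_one_smul, sub_eq_add_neg]
    rw [e6] at w6
    have rp : ∀ n, 0 < M2_r M q ^ n := fun n => M2_pos hq n
    have w7 := w6.mono (G := F1 * M2_r M q ^ (6 * k + 2)) (by
      have a1 : ‖((k + 1 : ℕ) : ℂ)‖ * (X2 * M2_r M q ^ (6 * k + 2)) =
          ((k + 1 : ℕ) : ℝ) * X2 * M2_r M q ^ (6 * k + 2) := by
        rw [Complex.norm_natCast]; ring
      have a2 : ∑ j : Fin k, ‖(((k + 1).choose ((j.succ : ℕ) + 1) : ℕ) : ℂ)‖ *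
        (X1 * M2_r M q ^ (6 * (k + 1 - 1 - (j.succ : ℕ)) + 2 * ((j.succ : ℕ) + 1) + 1)) ≤
          S * M2_r M q ^ (6 * k + 2) := by
        rw [hSd, Finset.sum_mul]
        refine sum_le_sum fun j _ => ?_
        have hj := j.2
        have hjs : (j.succ : ℕ) = j + 1 := Fin.val_succ j
        rw [mul_assoc]
        refine mul_le_mul_of_nonneg_left (mul_le_mul_of_nonneg_left (M2_pow hq ?_) hX1)
          (norm_nonneg _)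
        omega
      have a3 : T ≤ T * M2_r M q ^ (6 * k + 2) :=
        le_mul_of_one_le_right hT (one_le_pow₀ r1)
      have a4 : ‖(-1 : ℂ)‖ * (‖(M2_c A (k + 1) : ℂ)‖ * (‖κ⁻¹ ^ (3 * (k + 1))‖ *
          (16 * (R * ‖κ‖ ^ 3) * M2_r M q))) ≤ c * (16 * R) * M2_r M q ^ (6 * k + 2) := by
        rw [norm_neg, norm_one, one_mul, M2_kinv hq, Complex.norm_real, Real.norm_eq_abs, ← hc]
        have e7 : M2_r M q ^ (2 * (3 * (k + 1))) * ‖κ‖ ^ 3 = M2_r M q ^ (6 * k) := by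
          have e8 : ‖κ‖ * M2_r M q ^ 2 = 1 := by rw [← r2]; exact mul_inv_cancel₀ t0.ne'
          calc M2_r M q ^ (2 * (3 * (k + 1))) * ‖κ‖ ^ 3 =
                M2_r M q ^ (6 * k) * (‖κ‖ * M2_r M q ^ 2) ^ 3 := by ring
            _ = _ := by rw [e8]; ring
        calc c * (M2_r M q ^ (2 * (3 * (k + 1))) * (16 * (R * ‖κ‖ ^ 3) * M2_r M q)) =
              c * (16 * R) * ((M2_r M q ^ (2 * (3 * (k + 1))) * ‖κ‖ ^ 3) * M2_r M q) := by ring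
          _ = c * (16 * R) * M2_r M q ^ (6 * k + 1) := by rw [e7]; ring
          _ ≤ _ := mul_le_mul_of_nonneg_left (M2_pow hq (by omega)) (by positivity)
      rw [hF1]
      calc _ ≤ ((k + 1 : ℕ) : ℝ) * X2 * M2_r M q ^ (6 * k + 2) + S * M2_r M q ^ (6 * k + 2) +
            T * M2_r M q ^ (6 * k + 2) + c * (16 * R) * M2_r M q ^ (6 * k + 2) :=
            add_le_add (add_le_add (add_le_add a1.le a2) a3) a4
        _ = _ := by ring)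
    have z3 : ∀ f : H, ∀ j : ℕ, 1 ≤ j → (Xs j).Om q f 0 = 0 := fun f j hj =>
      Om_zero (Xs j) (hG.2.2 j hj).1 (hG.2.2 j hj).2 hq2 f
    have zx : xf (yv M (C.r 0) (PK k) q) 0 = 0 := by
      rw [xf_apply (yv_wt _ hq)]; simp
    have zT : Tl 0 = 0 := by
      have e : Tl 0 = ev 0 Tl := rfl
      rw [e, hTl, map_sum]
      refine Finset.sum_eq_zero fun j _ => ?_
      rw [map_smul]
      have : ev 0 ((Xs ((j.succ : ℕ) + 1)).Om q (VK Xs C q (k + 1 - 1 - (j.succ : ℕ)))) = 0 :=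
        z3 _ _ (by omega)
      rw [this, smul_zero]
    have f10 : (((k + 1 : ℕ) : ℂ) • D + Tl + (C.r (k + 1)).cv q -
          (M2_c A (k + 1) : ℂ) • (κ⁻¹ ^ (3 * (k + 1)) • ρ1) : H) 0 = 0 := by
      have e : (((k + 1 : ℕ) : ℂ) • D + Tl + (C.r (k + 1)).cv q -
          (M2_c A (k + 1) : ℂ) • (κ⁻¹ ^ (3 * (k + 1)) • ρ1) : H) 0 =
          ((k + 1 : ℕ) : ℂ) * ((Xs 1).Om q (VK Xs C q k) 0 - (M2_c A k : ℂ) *
            (κ⁻¹ ^ (3 * k) * ((A.cA : ℂ) * xf (yv M (C.r 0) (PK k) q) 0))) + Tl 0 +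
            (C.r (k + 1)).cv q 0 - (M2_c A (k + 1) : ℂ) * (κ⁻¹ ^ (3 * (k + 1)) * ρ1 0) := rfl
      rw [e, z3 _ 1 le_rfl, zx, zT, (C.r (k + 1)).cv_zero hq2, z1]
      ring
    have f20 : (-((M2_c A (k + 1) : ℂ) • (κ⁻¹ ^ (3 * (k + 1)) • ρ2)) : H) 0 = 0 := by
      have e : (-((M2_c A (k + 1) : ℂ) • (κ⁻¹ ^ (3 * (k + 1)) • ρ2)) : H) 0 =
        -((M2_c A (k + 1) : ℂ) * (κ⁻¹ ^ (3 * (k + 1)) * ρ2 0)) := rfl
      rw [e, z2]; ring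
    have hfin := hres q hq.1 (δ / 2 * ‖κ‖) (by positivity) (by nlinarith) _ _ _
      (c * R * M2_r M q ^ (6 * k + 4)) (by positivity) f10 f20 w7 (fun d => by
        have e : (-((M2_c A (k + 1) : ℂ) • (κ⁻¹ ^ (3 * (k + 1)) • ρ2)) : H) d =
          -((M2_c A (k + 1) : ℂ) * (κ⁻¹ ^ (3 * (k + 1)) * ρ2 d)) := rfl
        rw [e, norm_neg, norm_mul, norm_mul, M2_kinv hq, Complex.norm_real, Real.norm_eq_abs, ← hc]
        have e7 : M2_r M q ^ (2 * (3 * (k + 1))) * ‖κ‖ = M2_r M q ^ (6 * k + 4) := by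
          have e8 : ‖κ‖ * M2_r M q ^ 2 = 1 := by rw [← r2]; exact mul_inv_cancel₀ t0.ne'
          calc M2_r M q ^ (2 * (3 * (k + 1))) * ‖κ‖ =
                M2_r M q ^ (6 * k + 4) * (‖κ‖ * M2_r M q ^ 2) := by ring
            _ = _ := by rw [e8]; ring
        calc c * (M2_r M q ^ (2 * (3 * (k + 1))) * ‖ρ2 d‖) ≤
              c * (M2_r M q ^ (2 * (3 * (k + 1))) * (R * ‖κ‖ * (1 / 2) ^ d.natAbs)) :=
              mul_le_mul_of_nonneg_left (mul_le_mul_of_nonneg_left (b2 d) (rp _).le) hc0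
          _ = c * R * (M2_r M q ^ (2 * (3 * (k + 1))) * ‖κ‖) * (1 / 2) ^ d.natAbs := by ring
          _ = _ := by rw [e7])
    refine hfin.mono ?_
    have e9 : F1 * M2_r M q ^ (6 * k + 2) / ‖κ‖ ^ 2 = F1 * M2_r M q ^ (6 * (k + 1)) := by
      rw [M2_div hq]; ring
    have e10 : c * R * M2_r M q ^ (6 * k + 4) / ‖κ‖ = c * R * M2_r M q ^ (6 * (k + 1)) := by
      rw [div_eq_mul_inv, r2]; ring
    rw [e9, e10]
    have hx : 0 ≤ X0 * M2_r M q ^ (6 * (k + 1)) := mul_nonneg hX0 (rp _).le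
    calc Y * (F1 * M2_r M q ^ (6 * (k + 1)) + c * R * M2_r M q ^ (6 * (k + 1))) =
          Y * (F1 + c * R) * M2_r M q ^ (6 * (k + 1)) := by ring
      _ ≤ _ := by rw [add_mul]; linarith

theorem VK_loc (A : Ker M) (a : ℕ → ℝ) (C : CapS) (k : ℕ) : ∃ δ X : ℝ, 0 < δ ∧ 0 ≤ X ∧
    ∀ (N : ℕ) (Xs : ℕ → Mul M), GoodK A a N Xs → ∀ q ∈ Mdl.Loc M, 1 / ‖M.kap q‖ ^ 2 ≤ N →
    ∀ i ≤ k, Wb (δ * ‖M.kap q‖) (VK Xs C q i - ((i.factorial * (2 * A.cA / M.sg) ^ i : ℝ) : ℂ) •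
      ((M.kap q)⁻¹ ^ (3 * i) • yv M (C.r 0) (PK i) q)) (X / ‖M.kap q‖ ^ (3 * i)) := by
  obtain ⟨δr, Y, hδr, hY, -, hres⟩ := res_w M
  have main : ∃ δ X : ℝ, 0 < δ ∧ δ ≤ 1 / 32 ∧ δ ≤ δr ∧ 0 ≤ X ∧ M2_S A a C k δ X := by
    induction k with
    | zero =>
      obtain ⟨δ, X, hδ, hX, h⟩ := sol_yv M (C.r 0)
      refine ⟨min δ (min δr (1 / 32)), X, lt_min hδ (lt_min hδr (by norm_num)),
        (min_le_right _ _).trans (min_le_right _ _), (min_le_right _ _).trans (min_le_left _ _),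
        hX, ?_⟩
      intro N Xs hG q hq hN i hi
      obtain rfl : i = 0 := by omega
      obtain ⟨t0, r1, r2⟩ := M2_facts hq
      have h1 := (h q hq).tau (τ' := min δ (min δr (1 / 32)) * ‖M.kap q‖)
        (mul_le_mul_of_nonneg_right (min_le_left _ _) t0.le)
      have e : M2_e A C Xs q 0 = M.sol (C.r 0) q - yv M (C.r 0) 1 q := by
        unfold M2_e M2_c
        have e1 : VK Xs C q 0 = M.sol (C.r 0) q := by
          rw [VK]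
          simp only [Finset.univ_eq_empty, Finset.sum_empty, zero_add]
          rfl
        rw [e1, PK]
        simp
      rw [e]
      simpa using h1
    | succ k ih =>
      obtain ⟨δ, X, hδ, hδ8, hδr2, hX, hS⟩ := ih
      obtain ⟨X', hX', hS'⟩ := M2_step A a C k hδ hδ8 hX hS ⟨δr, Y, hδr2, hY, hres⟩
      exact ⟨δ / 2, X', by positivity, by linarith, by linarith, hX', hS'⟩
  obtain ⟨δ, X, hδ, -, -, hX, hS⟩ := main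
  refine ⟨δ, X, hδ, hX, fun N Xs hG q hq hN i hi => ?_⟩
  have h1 := hS N Xs hG q hq hN i hi
  rw [M2_div hq]
  have e : 2 * (3 * i) = 6 * i := by ring
  rw [e]
  exact h1

end
end
end KN.SQ
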