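import Pool.Agent.H132.SQ.GM1

/-!
# The moment vectors away from the singularity
-/

set_option autoImplicit false

namespace KN.SQ
open Finset Filter Topology
open scoped Classical ENNReal ComplexConjugate
noncomputable section
section
variable {M : Mdl}
theorem M3_unf (Xs : ℕ → Mul M) (C : CapS) (q : ℂ) (k : ℕ) :
    VK Xs C q k = M.G q ((∑ j : Fin k, (k.choose (j + 1) : ℂ) •
      (Xs (j + 1)).Om q (VK Xs C q (k - 1 - j))) + (C.r k).cv q) := by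
  rw [VK]

theorem M3_res (M : Mdl) : ∃ δ Y : ℝ, 0 < δ ∧ 0 ≤ Y ∧ (∀ q ∈ M.U, δ * ‖M.kap q‖ ≤ 1 / 4) ∧
    ∀ q ∈ M.U, 1 / 100 ≤ ‖M.kap q‖ → ∀ τ : ℝ, 0 ≤ τ → τ ≤ δ * ‖M.kap q‖ → ∀ (f : H) (F : ℝ),
    f 0 = 0 → Wb τ f F → Wb τ (M.G q f) (Y * F) := by
  obtain ⟨δ, Y, h1, h2, h3, h4⟩ := res_w M
  refine ⟨δ, Y * 10 ^ 4, h1, by positivity, h3, ?_⟩
  intro q hq ht τ hτ0 hτ f F hf hF
  have h5 := h4 q hq τ hτ0 hτ f 0 F 0 le_rfl hf (by simp) hF (by intro d; simp)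
  rw [add_zero] at h5
  refine h5.mono ?_
  have hF0 : 0 ≤ F := (norm_nonneg _).trans (hF.norm hτ0)
  have hk2 : (1 / 100 : ℝ) ^ 2 ≤ ‖M.kap q‖ ^ 2 := pow_le_pow_left₀ (by norm_num) ht 2
  have h6 : F / ‖M.kap q‖ ^ 2 ≤ 10 ^ 4 * F := by
    rw [div_le_iff₀ (by positivity)]
    nlinarith
  calc Y * (F / ‖M.kap q‖ ^ 2 + 0 / ‖M.kap q‖) = Y * (F / ‖M.kap q‖ ^ 2) := by
        rw [zero_div, add_zero]
    _ ≤ Y * (10 ^ 4 * F) := mul_le_mul_of_nonneg_left h6 h2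
    _ = Y * 10 ^ 4 * F := by ring

/-- **Task M3** (induction, constants only; res_w, Om_wb, cv_wb) -/
theorem VK_far (A : Ker M) (a : ℕ → ℝ) (C : CapS) (k : ℕ) : ∃ δ X : ℝ, 0 < δ ∧ 0 ≤ X ∧
    ∀ (N : ℕ) (Xs : ℕ → Mul M), GoodK A a N Xs → ∀ q ∈ M.U, 1 / 100 ≤ ‖M.kap q‖ →
    ∀ i ≤ k, Wb (δ * ‖M.kap q‖) (VK Xs C q i) X := by
  obtain ⟨δ0, Y, hδ0, hY, hU, hG⟩ := M3_res M
  suffices h : ∃ δ X : ℝ, 0 < δ ∧ δ ≤ δ0 ∧ 0 ≤ X ∧ ∀ (N : ℕ) (Xs : ℕ → Mul M),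
      GoodK A a N Xs → ∀ q ∈ M.U, 1 / 100 ≤ ‖M.kap q‖ →
      ∀ i ≤ k, Wb (δ * ‖M.kap q‖) (VK Xs C q i) X by
    obtain ⟨δ, X, h1, -, h2, h3⟩ := h
    exact ⟨δ, X, h1, h2, h3⟩
  induction k with
  | zero =>
    obtain ⟨X1, hX1, hc⟩ := cv_wb M (C.r 0)
    refine ⟨δ0, Y * X1, hδ0, le_rfl, mul_nonneg hY hX1, ?_⟩
    intro N Xs hg q hq ht i hi
    obtain rfl : i = 0 := by omega
    have hk0 : 0 ≤ δ0 * ‖M.kap q‖ := by positivity
    rw [M3_unf, Finset.univ_eq_empty, Finset.sum_empty, zero_add]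
    exact hG q hq ht _ hk0 le_rfl _ _ (Cap.cv_zero _ hq.1.le) (hc q hq _ (hU q hq))
  | succ k ih =>
    obtain ⟨δ, X, hδ, hδ', hX, Hk⟩ := ih
    obtain ⟨X1, hX1, hc⟩ := cv_wb M (C.r (k + 1))
    choose Z hZ0 hZ using (fun j : ℕ => Om_wb (M := M) j)
    obtain ⟨S, hS⟩ : ∃ S : ℝ, S = ∑ j : Fin (k + 1), ((k + 1).choose (j + 1) : ℝ) *
      (Z (j + 1) * |a (j + 1)| / (δ / 200) ^ ((j : ℕ) + 1) * X) := ⟨_, rfl⟩
    have hS0 : 0 ≤ S := by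
      rw [hS]
      refine Finset.sum_nonneg fun j _ => ?_
      have := hZ0 (j + 1)
      positivity
    refine ⟨δ / 2, X + Y * (S + X1), by positivity, by linarith, by positivity, ?_⟩
    intro N Xs hg q hq ht i hi
    have ht0 : 0 < ‖M.kap q‖ := by linarith
    have hk0 : 0 ≤ δ / 2 * ‖M.kap q‖ := by positivity
    have hlt : δ / 2 * ‖M.kap q‖ < δ * ‖M.kap q‖ := by nlinarith [mul_pos hδ ht0]
    have hle : δ * ‖M.kap q‖ ≤ δ0 * ‖M.kap q‖ := mul_le_mul_of_nonneg_right hδ' ht0.le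
    have hq4 := hU q hq
    rcases Nat.lt_or_ge k i with h | h
    · obtain rfl : i = k + 1 := by omega
      rw [M3_unf]
      have h1 : Wb (δ / 2 * ‖M.kap q‖) ((∑ j : Fin (k + 1), ((k + 1).choose (j + 1) : ℂ) •
          (Xs (j + 1)).Om q (VK Xs C q (k + 1 - 1 - j))) + (C.r (k + 1)).cv q) (S + X1) := by
        refine Wb.add ?_ (hc q hq _ (by linarith))
        rw [hS]
        refine Wb.sum _ fun j _ => ?_
        have h2 := Hk N Xs hg q hq ht (k + 1 - 1 - j) (by omega)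
        have hgr := hg.1 ((j : ℕ) + 1) (by omega)
        have h3 := hZ ((j : ℕ) + 1) (Xs (j + 1)) (a (j + 1)) hgr q hq.1.le
          (δ * ‖M.kap q‖) (δ / 2 * ‖M.kap q‖) hk0 hlt (by linarith) _ _ h2
        refine (h3.smul ((k + 1).choose (j + 1) : ℂ)).mono ?_
        rw [Complex.norm_natCast]
        have e1 : δ / 200 ≤ δ * ‖M.kap q‖ - δ / 2 * ‖M.kap q‖ := by nlinarith
        have e2 := hZ0 ((j : ℕ) + 1)
        have e3 := hgr.1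
        have e4 := le_abs_self (a ((j : ℕ) + 1))
        have e5 : (δ / 200) ^ ((j : ℕ) + 1) ≤
            (δ * ‖M.kap q‖ - δ / 2 * ‖M.kap q‖) ^ ((j : ℕ) + 1) :=
          pow_le_pow_left₀ (by positivity) e1 _
        have e6 : 0 < (δ / 200) ^ ((j : ℕ) + 1) := by positivity
        refine mul_le_mul_of_nonneg_left (mul_le_mul_of_nonneg_right ?_ hX) (by positivity)
        exact div_le_div₀ (by positivity) (mul_le_mul_of_nonneg_left e4 e2) e6 e5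
      refine (hG q hq ht _ hk0 (by linarith) _ _ ?_ h1).mono (by linarith)
      rw [lp.coeFn_add, Pi.add_apply, Cap.cv_zero _ hq.1.le, add_zero, lp.coeFn_sum,
        Finset.sum_apply]
      refine Finset.sum_eq_zero fun j _ => ?_
      have h5 := hg.2.2 ((j : ℕ) + 1) (by omega)
      rw [lp.coeFn_smul, Pi.smul_apply, Om_zero _ h5.1 h5.2 hq.1.le, smul_zero]
    · have hYS : 0 ≤ Y * (S + X1) := by positivity
      exact ((Hk N Xs hg q hq ht i h).tau hlt.le).mono (by linarith)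

end
end
end KN.SQ
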