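import Pool.Agent.H132.SQ.G4a

/-!
# The pairing of the explicit vectors
-/

set_option autoImplicit false

namespace KN.SQ
open Finset Filter Topology
open scoped Classical ENNReal ComplexConjugate
noncomputable section
section
variable {M : Mdl}
theorem M5_pow_sub {a b : ℂ} {R : ℝ} (ha : ‖a‖ ≤ R) (hb : ‖b‖ ≤ R) (n : ℕ) :
    ‖a ^ (n + 1) - b ^ (n + 1)‖ ≤ (n + 1) * R ^ n * ‖a - b‖ := by
  have hR : 0 ≤ R := (norm_nonneg _).trans ha
  induction n with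
  | zero => simp
  | succ n ih =>
    have e : a ^ (n + 1 + 1) - b ^ (n + 1 + 1) =
        a * (a ^ (n + 1) - b ^ (n + 1)) + b ^ (n + 1) * (a - b) := by ring
    rw [e]
    refine (norm_add_le _ _).trans ?_
    rw [norm_mul, norm_mul, norm_pow]
    have h1 : ‖a‖ * ‖a ^ (n + 1) - b ^ (n + 1)‖ ≤ R * ((n + 1) * R ^ n * ‖a - b‖) :=
      mul_le_mul ha ih (norm_nonneg _) hR
    have h2 : ‖b‖ ^ (n + 1) * ‖a - b‖ ≤ R ^ (n + 1) * ‖a - b‖ :=
      mul_le_mul_of_nonneg_right (pow_le_pow_left₀ (norm_nonneg _) hb _) (norm_nonneg _)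
    calc _ ≤ R * ((n + 1) * R ^ n * ‖a - b‖) + R ^ (n + 1) * ‖a - b‖ := add_le_add h1 h2
      _ = _ := by push_cast; ring

theorem M5_sums (j : ℕ) : ∀ k : ℕ, ∃ X : ℝ, 0 ≤ X ∧ ∀ x : ℂ, ‖x‖ < 1 → 1 ≤ ‖(1 - x)⁻¹‖ →
    ∃ S : ℂ, HasSum (fun n : ℕ => (n : ℂ) ^ j * (((n + k).choose k : ℕ) : ℂ) * x ^ n) S ∧
      ‖S - (((k + j).factorial : ℂ) / (k.factorial : ℂ)) * (1 - x)⁻¹ ^ (k + j + 1)‖ ≤
        X * ‖(1 - x)⁻¹‖ ^ (k + j) := by
  induction j with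
  | zero =>
    intro k
    refine ⟨0, le_rfl, fun x hx hy => ⟨(1 - x)⁻¹ ^ (k + 1), ?_, ?_⟩⟩
    · have h := hasSum_choose_mul_geometric_of_norm_lt_one k hx
      rw [one_div, ← inv_pow] at h
      simpa using h
    · have h1 : (k.factorial : ℂ) ≠ 0 := by exact_mod_cast k.factorial_ne_zero
      simp [h1]
  | succ j ih =>
    intro k
    obtain ⟨X1, hX1, h1⟩ := ih k
    obtain ⟨X2, hX2, h2⟩ := ih (k + 1)
    refine ⟨(k + 1) * X2 + (k + 1) * (X1 + (k + j).factorial), by positivity, fun x hx hy => ?_⟩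
    obtain ⟨S1, hS1, e1⟩ := h1 x hx hy
    obtain ⟨S2, hS2, e2⟩ := h2 x hx hy
    have hk : (k.factorial : ℂ) ≠ 0 := by exact_mod_cast k.factorial_ne_zero
    have hk1 : ((k : ℂ) + 1) ≠ 0 := by exact_mod_cast Nat.succ_ne_zero k
    refine ⟨((k : ℂ) + 1) * S2 - ((k : ℂ) + 1) * S1, ?_, ?_⟩
    · have h := (hS2.mul_left ((k : ℂ) + 1)).sub (hS1.mul_left ((k : ℂ) + 1))
      refine h.congr_fun' fun n => ?_
      have h3 : (((k + 1 : ℕ) : ℂ)) * (((n + (k + 1)).choose (k + 1) : ℕ) : ℂ) =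
          ((n : ℂ) + k + 1) * (((n + k).choose k : ℕ) : ℂ) := by
        have h4 := Nat.add_one_mul_choose_eq (n + k) k
        have h5 : ((n + k + 1 : ℕ) : ℂ) * (((n + k).choose k : ℕ) : ℂ) =
            (((n + k + 1).choose (k + 1) : ℕ) : ℂ) * ((k + 1 : ℕ) : ℂ) := by exact_mod_cast h4
        rw [show n + (k + 1) = n + k + 1 by omega, mul_comm, ← h5]
        push_cast; ring
      push_cast at h3
      have : (n : ℂ) ^ (j + 1) * (((n + k).choose k : ℕ) : ℂ) * x ^ n =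
          (n : ℂ) ^ j * x ^ n * (((k : ℂ) + 1) * (((n + (k + 1)).choose (k + 1) : ℕ) : ℂ)) -
          ((k : ℂ) + 1) * ((n : ℂ) ^ j * (((n + k).choose k : ℕ) : ℂ) * x ^ n) := by
        rw [h3]; ring
      rw [this]; ring
    · set y := (1 - x)⁻¹ with hy'
      have hfac : (((k + 1 + j).factorial : ℂ) / ((k + 1).factorial : ℂ)) * ((k : ℂ) + 1) =
          ((k + (j + 1)).factorial : ℂ) / (k.factorial : ℂ) := by
        rw [show k + 1 + j = k + (j + 1) by omega, Nat.factorial_succ k]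
        push_cast
        field_simp
      have e3 : ((k : ℂ) + 1) * S2 - ((k : ℂ) + 1) * S1 -
          (((k + (j + 1)).factorial : ℂ) / (k.factorial : ℂ)) * y ^ (k + (j + 1) + 1) =
          ((k : ℂ) + 1) * (S2 - (((k + 1 + j).factorial : ℂ) / ((k + 1).factorial : ℂ)) *
            y ^ (k + 1 + j + 1)) - ((k : ℂ) + 1) * S1 := by
        rw [← hfac, show k + (j + 1) + 1 = k + 1 + j + 1 by omega]; ring
      rw [e3]
      have n1 : ‖((k : ℂ) + 1)‖ = (k : ℝ) + 1 := by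
        have : ((k : ℂ) + 1) = (((k : ℝ) + 1 : ℝ) : ℂ) := by push_cast; rfl
        rw [this, Complex.norm_real, Real.norm_eq_abs, abs_of_nonneg (by positivity)]
      have hS1n : ‖S1‖ ≤ (X1 + (k + j).factorial) * ‖y‖ ^ (k + (j + 1)) := by
        have e4 : S1 = (S1 - (((k + j).factorial : ℂ) / (k.factorial : ℂ)) * y ^ (k + j + 1)) +
            (((k + j).factorial : ℂ) / (k.factorial : ℂ)) * y ^ (k + j + 1) := by ring
        have h5 : ‖(((k + j).factorial : ℂ) / (k.factorial : ℂ)) * y ^ (k + j + 1)‖ ≤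
            (k + j).factorial * ‖y‖ ^ (k + (j + 1)) := by
          rw [norm_mul, norm_div, Complex.norm_natCast, Complex.norm_natCast, norm_pow,
            show k + j + 1 = k + (j + 1) by omega]
          refine mul_le_mul_of_nonneg_right ?_ (by positivity)
          refine div_le_self (by positivity) ?_
          exact_mod_cast k.factorial_pos
        have h6 : X1 * ‖y‖ ^ (k + j) ≤ X1 * ‖y‖ ^ (k + (j + 1)) :=
          mul_le_mul_of_nonneg_left (pow_le_pow_right₀ hy (by omega)) hX1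
        calc ‖S1‖ ≤ ‖S1 - (((k + j).factorial : ℂ) / (k.factorial : ℂ)) * y ^ (k + j + 1)‖ +
              ‖(((k + j).factorial : ℂ) / (k.factorial : ℂ)) * y ^ (k + j + 1)‖ := by
              conv_lhs => rw [e4]
              exact norm_add_le _ _
          _ ≤ X1 * ‖y‖ ^ (k + (j + 1)) + (k + j).factorial * ‖y‖ ^ (k + (j + 1)) :=
              add_le_add (e1.trans h6) h5
          _ = _ := by ring
      refine (norm_sub_le _ _).trans ?_
      rw [norm_mul, norm_mul, n1]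
      have h7 : ((k : ℝ) + 1) * ‖S2 - (((k + 1 + j).factorial : ℂ) / ((k + 1).factorial : ℂ)) *
            y ^ (k + 1 + j + 1)‖ ≤ ((k : ℝ) + 1) * (X2 * ‖y‖ ^ (k + (j + 1))) := by
        refine mul_le_mul_of_nonneg_left ?_ (by positivity)
        rw [show k + (j + 1) = k + 1 + j by omega]
        exact e2
      have h8 := mul_le_mul_of_nonneg_left hS1n (show (0 : ℝ) ≤ (k : ℝ) + 1 by positivity)
      linarith

theorem M5_y {κ : ℂ} (h0 : 0 < κ.re) (h1 : ‖κ‖ ≤ 1 / 100) :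
    ‖(1 - Complex.exp (-(2 * κ)))⁻¹ - (2 * κ)⁻¹‖ ≤ 3 ∧ 50 ≤ ‖(2 * κ)⁻¹‖ ∧
    ‖(2 * κ)⁻¹‖ = 1 / (2 * ‖κ‖) ∧ 1 ≤ ‖(1 - Complex.exp (-(2 * κ)))⁻¹‖ ∧
    ‖(1 - Complex.exp (-(2 * κ)))⁻¹‖ ≤ 1 / ‖κ‖ := by
  have hκ : κ ≠ 0 := by
    rintro rfl
    simp at h0
  have hκn : 0 < ‖κ‖ := norm_pos_iff.2 hκ
  have n2 : ‖(2 : ℂ)‖ = 2 := by simp
  have h2 := Mdl.inv_exp_bd (z := 2 * κ) (mul_ne_zero two_ne_zero hκ) (by
    rw [norm_mul, n2]; linarith)
  have hx1 := Mdl.x_lt h0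
  set x := Complex.exp (-(2 * κ)) with hx
  have hx2 : 1 - x ≠ 0 := by
    intro h
    have : x = 1 := by linear_combination -h
    rw [this, norm_one] at hx1
    exact lt_irrefl _ hx1
  have e1 : (1 - x)⁻¹ - (2 * κ)⁻¹ = (x * (1 - x)⁻¹ - (2 * κ)⁻¹) + 1 := by
    have : (1 - x)⁻¹ = x * (1 - x)⁻¹ + 1 := by field_simp; ring
    rw [this]
    have h3 : x * (x * (1 - x)⁻¹ + 1) = x * (1 - x)⁻¹ := by field_simp; ring
    rw [h3]; ring
  have h3 : ‖(1 - x)⁻¹ - (2 * κ)⁻¹‖ ≤ 3 := by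
    rw [e1]
    refine (norm_add_le _ _).trans ?_
    rw [norm_one]; linarith
  have h4 : ‖(2 * κ)⁻¹‖ = 1 / (2 * ‖κ‖) := by rw [norm_inv, norm_mul, n2, one_div]
  have h5 : 50 ≤ 1 / (2 * ‖κ‖) := by
    rw [le_div_iff₀ (by positivity)]; linarith
  refine ⟨h3, by rw [h4]; exact h5, h4, ?_, ?_⟩
  · have h6 := norm_sub_norm_le ((2 * κ)⁻¹) ((1 - x)⁻¹)
    rw [norm_sub_rev] at h6
    rw [h4] at h6
    linarith
  · have h6 := norm_sub_norm_le ((1 - x)⁻¹) ((2 * κ)⁻¹)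
    rw [h4] at h6
    have h7 : 1 / ‖κ‖ = 2 * (1 / (2 * ‖κ‖)) := by field_simp
    rw [h7]; linarith

theorem M5_pw (j : ℕ) : ∃ X : ℝ, 0 ≤ X ∧ ∀ κ : ℂ, 0 < κ.re → ‖κ‖ ≤ 1 / 100 →
    ∃ S : ℂ, HasSum (fun n : ℕ => (n : ℂ) ^ j * Complex.exp (-(2 * κ)) ^ n) S ∧
      ‖S - (j.factorial : ℂ) * (2 * κ)⁻¹ ^ (j + 1)‖ ≤ X / ‖κ‖ ^ j := by
  obtain ⟨X, hX, h⟩ := M5_sums j 0
  refine ⟨X + j.factorial * ((j + 1) * 3), by positivity, fun κ h0 h1 => ?_⟩
  obtain ⟨a1, a2, a3, a4, a5⟩ := M5_y h0 h1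
  have hκ : κ ≠ 0 := by
    rintro rfl
    simp at h0
  have hκn : 0 < ‖κ‖ := norm_pos_iff.2 hκ
  obtain ⟨S, hS, e⟩ := h _ (Mdl.x_lt h0) a4
  refine ⟨S, ?_, ?_⟩
  · refine hS.congr_fun' fun n => ?_
    simp
  · set y := (1 - Complex.exp (-(2 * κ)))⁻¹ with hy
    simp only [Nat.zero_add, Nat.factorial_zero, Nat.cast_one, div_one] at e
    have e1 : S - (j.factorial : ℂ) * (2 * κ)⁻¹ ^ (j + 1) =
        (S - (j.factorial : ℂ) * y ^ (j + 1)) +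
          (j.factorial : ℂ) * (y ^ (j + 1) - (2 * κ)⁻¹ ^ (j + 1)) := by ring
    rw [e1]
    refine (norm_add_le _ _).trans ?_
    have h2 : ‖(2 * κ)⁻¹‖ ≤ 1 / ‖κ‖ := by
      rw [a3]
      exact one_div_le_one_div_of_le hκn (by linarith)
    have h3 := M5_pow_sub a5 h2 j
    have h4 : ‖(j.factorial : ℂ) * (y ^ (j + 1) - (2 * κ)⁻¹ ^ (j + 1))‖ ≤
        j.factorial * (((j : ℝ) + 1) * (1 / ‖κ‖) ^ j * 3) := by
      rw [norm_mul, Complex.norm_natCast]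
      refine mul_le_mul_of_nonneg_left (h3.trans ?_) (by positivity)
      exact mul_le_mul_of_nonneg_left a1 (by positivity)
    have h5 : X * ‖y‖ ^ j ≤ X * (1 / ‖κ‖) ^ j :=
      mul_le_mul_of_nonneg_left (pow_le_pow_left₀ (norm_nonneg _) a5 _) hX
    calc _ ≤ X * (1 / ‖κ‖) ^ j + j.factorial * (((j : ℝ) + 1) * (1 / ‖κ‖) ^ j * 3) :=
          add_le_add (e.trans h5) h4
      _ = _ := by rw [one_div, inv_pow]; field_simp

theorem M5_poly (P : Polynomial ℝ) : ∃ X : ℝ, 0 ≤ X ∧ ∀ κ : ℂ, 0 < κ.re → ‖κ‖ ≤ 1 / 100 →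
    ∃ S : ℂ, HasSum (fun n : ℕ => (n : ℂ) * (P.map (algebraMap ℝ ℂ)).eval (κ * (n : ℂ)) *
      Complex.exp (-(2 * κ)) ^ n) S ∧ ‖S - (lap P : ℂ) * κ⁻¹ ^ 2‖ ≤ X / ‖κ‖ := by
  induction P using Polynomial.induction_on' with
  | add P Q hP hQ =>
    obtain ⟨X, hX, h⟩ := hP
    obtain ⟨Y, hY, h'⟩ := hQ
    refine ⟨X + Y, by positivity, fun κ h0 h1 => ?_⟩
    obtain ⟨S, hS, e⟩ := h κ h0 h1
    obtain ⟨S', hS', e'⟩ := h' κ h0 h1
    refine ⟨S + S', ?_, ?_⟩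
    · refine (hS.add hS').congr_fun' fun n => ?_
      rw [Polynomial.map_add, Polynomial.eval_add]; ring
    · have hl : lap (P + Q) = lap P + lap Q := by
        unfold lap
        refine Polynomial.sum_add_index P Q _ (fun i => by simp) fun i a b => by ring
      rw [hl]
      have e2 : S + S' - ((lap P + lap Q : ℝ) : ℂ) * κ⁻¹ ^ 2 =
          (S - (lap P : ℂ) * κ⁻¹ ^ 2) + (S' - (lap Q : ℂ) * κ⁻¹ ^ 2) := by push_cast; ring
      rw [e2, add_div]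
      exact (norm_add_le _ _).trans (add_le_add e e')
  | monomial i a =>
    obtain ⟨X, hX, h⟩ := M5_pw (i + 1)
    refine ⟨|a| * X, by positivity, fun κ h0 h1 => ?_⟩
    have hκ : κ ≠ 0 := by
      rintro rfl
      simp at h0
    have hκn : 0 < ‖κ‖ := norm_pos_iff.2 hκ
    obtain ⟨S, hS, e⟩ := h κ h0 h1
    refine ⟨(a : ℂ) * κ ^ i * S, ?_, ?_⟩
    · refine (hS.mul_left ((a : ℂ) * κ ^ i)).congr_fun' fun n => ?_
      rw [Polynomial.map_monomial, Polynomial.eval_monomial]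
      simp only [Complex.coe_algebraMap]
      ring
    · have hl : lap (Polynomial.monomial i a) = a * ((i + 1).factorial : ℝ) / 2 ^ (i + 2) := by
        unfold lap
        exact Polynomial.sum_monomial_index a _ (by simp)
      rw [hl]
      have e2 : (a : ℂ) * κ ^ i * S -
          ((a * ((i + 1).factorial : ℝ) / 2 ^ (i + 2) : ℝ) : ℂ) * κ⁻¹ ^ 2 =
          (a : ℂ) * κ ^ i * (S - ((i + 1).factorial : ℂ) * (2 * κ)⁻¹ ^ (i + 1 + 1)) := by
        have h6 : κ ^ i * κ⁻¹ ^ (i + 1 + 1) = κ⁻¹ ^ 2 := by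
          rw [show i + 1 + 1 = i + 2 by omega, pow_add, ← mul_assoc, ← mul_pow,
            mul_inv_cancel₀ hκ, one_pow, one_mul]
        have h7 : (2 * κ)⁻¹ ^ (i + 1 + 1) = 1 / 2 ^ (i + 2) * κ⁻¹ ^ (i + 1 + 1) := by
          rw [mul_inv, mul_pow, inv_pow, one_div]
        rw [h7, ← h6]
        push_cast
        ring
      rw [e2, norm_mul, norm_mul, norm_pow, Complex.norm_real, Real.norm_eq_abs]
      calc |a| * ‖κ‖ ^ i * ‖S - ((i + 1).factorial : ℂ) * (2 * κ)⁻¹ ^ (i + 1 + 1)‖ ≤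
            |a| * ‖κ‖ ^ i * (X / ‖κ‖ ^ (i + 1)) :=
            mul_le_mul_of_nonneg_left e (by positivity)
        _ = |a| * X * (‖κ‖ ^ i / ‖κ‖ ^ (i + 1)) := by ring
        _ = |a| * X * (1 / ‖κ‖) := by
            congr 1
            rw [pow_succ]
            have : ‖κ‖ ^ i ≠ 0 := pow_ne_zero _ hκn.ne'
            field_simp
        _ = _ := by ring

theorem M5_bulk {M : Mdl} {Cl Cr : Cap} {g : ℕ → ℂ} {S : ℂ} (h0 : g 0 = 0) (h : HasSum g S) :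
    HasSum (fun d : ℤ => ((Mdl.ui M Cl d * Mdl.ui M Cr d : ℝ) : ℂ) * g d.natAbs)
      ((Mdl.PP M Cl Cr : ℂ) * S) := by
  have e0 : ((Mdl.PP M Cl Cr : ℂ) * S) = ((Mdl.up M Cl * Mdl.up M Cr : ℝ) : ℂ) * S +
      ((Mdl.um M Cl * Mdl.um M Cr : ℝ) : ℂ) * S := by
    unfold Mdl.PP; push_cast; ring
  rw [e0]
  refine HasSum.of_nat_of_neg_add_one ?_ ?_
  · refine (h.mul_left ((Mdl.up M Cl * Mdl.up M Cr : ℝ) : ℂ)).congr_fun' fun n => ?_
    rcases Nat.eq_zero_or_pos n with hn | hn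
    · subst hn
      simp [h0]
    · have h3 : (0 : ℤ) < (n : ℤ) := by omega
      unfold Mdl.ui
      rw [if_pos h3, if_pos h3, Int.natAbs_natCast]
  · have h1 : HasSum (fun n => g (n + 1)) S := by
      have := (hasSum_nat_add_iff' (f := g) 1).2 h
      simpa [h0] using this
    refine (h1.mul_left ((Mdl.um M Cl * Mdl.um M Cr : ℝ) : ℂ)).congr_fun' fun n => ?_
    have h3 : ¬ (0 : ℤ) < -((n : ℤ) + 1) := by omega
    have h4 : -((n : ℤ) + 1) < 0 := by omega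
    have h5 : (-((n : ℤ) + 1)).natAbs = n + 1 := by omega
    unfold Mdl.ui
    rw [if_neg h3, if_pos h4, if_neg h3, if_pos h4, h5]

/-- **Task M5**: `∑_{n≥1} n^{i+1} x^n` for x = e^{-2κ} is (i+1)!/(2κ)^{i+2} + O(t^{-i-1}) (see X2.lean for i ≤ 2; in general
by induction with hasSum_choose_mul_geometric_of_norm_lt_one), Re κ ≥ t/2, E_sq (Ap4). -/
theorem B_yv (M : Mdl) (Cl Cr : Cap) (P : Polynomial ℝ) : ∃ X : ℝ, 0 ≤ X ∧ ∀ q ∈ Mdl.Loc M,
    ‖B (yv M Cl 1 q) (xf (yv M Cr P q)) - ((Mdl.PP M Cl Cr * lap P : ℝ) : ℂ) * (M.kap q)⁻¹ ^ 2‖ ≤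
      X / ‖M.kap q‖ := by
  obtain ⟨X, hX, h⟩ := M5_poly P
  have hPP : 0 ≤ Mdl.PP M Cl Cr := Mdl.PP_nonneg
  refine ⟨Mdl.PP M Cl Cr * X, by positivity, fun q hq => ?_⟩
  have hre : 0 < (M.kap q).re := by
    have := Mdl.kap_re hq.1
    have := (Mdl.rt hq).1
    linarith
  obtain ⟨S, hS, e⟩ := h (M.kap q) hre hq.2
  have H1 := M5_bulk (M := M) (Cl := Cl) (Cr := Cr) (by simp) hS
  have H2 : HasSum (fun d : ℤ => ((Mdl.ui M Cl d * Mdl.ui M Cr d : ℝ) : ℂ) *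
      (((d.natAbs : ℕ) : ℂ) * (P.map (algebraMap ℝ ℂ)).eval (M.kap q * ((d.natAbs : ℕ) : ℂ)) *
      Complex.exp (-(2 * M.kap q)) ^ d.natAbs)) (B (yv M Cl 1 q) (xf (yv M Cr P q))) := by
    have h1 := (B_summable (yv M Cl 1 q) (xf (yv M Cr P q))).hasSum
    refine h1.congr_fun' fun d => ?_
    rw [xf_apply (yv_wt P hq), yv_apply 1 hq, yv_apply P hq, ← Mdl.E_sq, Polynomial.map_one,
      Polynomial.eval_one]
    push_cast
    ring
  have e1 : B (yv M Cl 1 q) (xf (yv M Cr P q)) -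
      ((Mdl.PP M Cl Cr * lap P : ℝ) : ℂ) * (M.kap q)⁻¹ ^ 2 =
      (Mdl.PP M Cl Cr : ℂ) * (S - (lap P : ℂ) * (M.kap q)⁻¹ ^ 2) := by
    rw [H2.unique H1]; push_cast; ring
  rw [e1, norm_mul, Complex.norm_real, Real.norm_eq_abs, abs_of_nonneg hPP, mul_div_assoc]
  exact mul_le_mul_of_nonneg_left e hPP

end
end
end KN.SQ
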