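import Pool.Agent.H132.SQ.GM2
import Pool.Agent.H132.SQ.GM5

/-!
# The moments near the singularity
-/

set_option autoImplicit false

namespace KN.SQ
open Finset Filter Topology
open scoped Classical ENNReal ComplexConjugate
noncomputable section
section
variable {M : Mdl}
/-- `1/√t` -/
def M6_r (M : Mdl) (q : ℂ) : ℝ := (√‖M.kap q‖)⁻¹

theorem M6_facts {q : ℂ} (hq : q ∈ Mdl.Loc M) :
    0 < ‖M.kap q‖ ∧ 1 ≤ M6_r M q ∧ ‖M.kap q‖⁻¹ = M6_r M q ^ 2 := by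
  have h1 : 0 < ‖M.kap q‖ := Mdl.kap_pos hq.1
  have h2 : ‖M.kap q‖ ≤ 1 / 100 := hq.2
  have h3 : 0 < √‖M.kap q‖ := Real.sqrt_pos.2 h1
  have h4 : √‖M.kap q‖ ≤ 1 := by
    rw [Real.sqrt_le_left (by norm_num)]
    linarith
  refine ⟨h1, ?_, ?_⟩
  · unfold M6_r
    exact (one_le_inv₀ h3).2 h4
  · unfold M6_r
    rw [inv_pow, Real.sq_sqrt h1.le]

theorem M6_pow {q : ℂ} (hq : q ∈ Mdl.Loc M) {m n : ℕ} (h : m ≤ n) :
    M6_r M q ^ m ≤ M6_r M q ^ n :=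
  pow_le_pow_right₀ (M6_facts hq).2.1 h

theorem M6_pos {q : ℂ} (hq : q ∈ Mdl.Loc M) (n : ℕ) : 0 < M6_r M q ^ n :=
  pow_pos (lt_of_lt_of_le one_pos (M6_facts hq).2.1) n

theorem M6_div {q : ℂ} (hq : q ∈ Mdl.Loc M) (x : ℝ) (n : ℕ) :
    x / ‖M.kap q‖ ^ n = x * M6_r M q ^ (2 * n) := by
  rw [div_eq_mul_inv, ← inv_pow, (M6_facts hq).2.2, ← pow_mul]

theorem M6_kinv {q : ℂ} (hq : q ∈ Mdl.Loc M) (n : ℕ) :
    ‖(M.kap q)⁻¹ ^ n‖ = M6_r M q ^ (2 * n) := by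
  rw [norm_pow, norm_inv, (M6_facts hq).2.2, ← pow_mul]

theorem M6_geom4 {q : ℂ} (hq : q ∈ Mdl.Loc M) (X : ℝ) :
    4 * X / √(‖M.kap q‖ / 4) = 8 * X * M6_r M q := by
  have h1 := (M6_facts hq).1
  have h2 : √(‖M.kap q‖ / 4) = √‖M.kap q‖ / 2 := by
    rw [Real.sqrt_div h1.le]
    congr 1
    rw [show (4 : ℝ) = 2 ^ 2 by norm_num, Real.sqrt_sq (by norm_num)]
  have h3 : 0 < √‖M.kap q‖ := Real.sqrt_pos.2 h1
  rw [h2]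
  unfold M6_r
  field_simp
  ring

theorem M6_geom16 {q : ℂ} (hq : q ∈ Mdl.Loc M) (X : ℝ) :
    4 * X / √(‖M.kap q‖ / 16) = 16 * X * M6_r M q := by
  have h1 := (M6_facts hq).1
  have h2 : √(‖M.kap q‖ / 16) = √‖M.kap q‖ / 4 := by
    rw [Real.sqrt_div h1.le]
    congr 1
    rw [show (16 : ℝ) = 4 ^ 2 by norm_num, Real.sqrt_sq (by norm_num)]
  have h3 : 0 < √‖M.kap q‖ := Real.sqrt_pos.2 h1
  rw [h2]
  unfold M6_r
  field_simp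
  ring

/-- the norm of `yv` -/
theorem M6_yv (M : Mdl) (C : Cap) (P : Polynomial ℝ) : ∃ X : ℝ, 0 ≤ X ∧ ∀ q ∈ Mdl.Loc M,
    ∀ δ : ℝ, δ ≤ 1 / 8 → Wb (δ * ‖M.kap q‖) (yv M C P q) (X * M6_r M q) := by
  obtain ⟨Y, hY0, hY⟩ := yv_bd M C P
  refine ⟨8 * Y, by positivity, fun q hq δ hδ => ?_⟩
  obtain ⟨t0, -, -⟩ := M6_facts hq
  have t1 : ‖M.kap q‖ ≤ 1 / 100 := hq.2
  rw [← M6_geom4 hq]
  refine Wb.geom (by linarith) (by linarith) ?_ hY0 (hY q hq)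
  nlinarith

/-- the vectors `V_i` -/
theorem M6_V (A : Ker M) (a : ℕ → ℝ) (C : CapS) (k : ℕ) : ∃ δ X : ℝ, 0 < δ ∧ δ ≤ 1 / 8 ∧ 0 ≤ X ∧
    ∀ (N : ℕ) (Xs : ℕ → Mul M), GoodK A a N Xs → ∀ q ∈ Mdl.Loc M, 1 / ‖M.kap q‖ ^ 2 ≤ N →
    ∀ i ≤ k, Wb (δ * ‖M.kap q‖) (VK Xs C q i) (X * M6_r M q ^ (6 * i + 1)) := by
  obtain ⟨δ0, X0, hδ0, hX0, h0⟩ := VK_loc A a C k
  choose Y hY0 hY using fun i => M6_yv M (C.r 0) (PK i)
  obtain ⟨cc, hcc⟩ : ∃ cc : ℕ → ℝ, cc = fun i : ℕ => |(i.factorial * (2 * A.cA / M.sg) ^ i : ℝ)| :=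
    ⟨_, rfl⟩
  have hcc0 : ∀ i, 0 ≤ cc i := fun i => by rw [hcc]; exact abs_nonneg _
  refine ⟨min δ0 (1 / 8), X0 + ∑ i ∈ range (k + 1), cc i * Y i, lt_min hδ0 (by norm_num),
    min_le_right _ _, add_nonneg hX0 (sum_nonneg fun i _ => mul_nonneg (hcc0 i) (hY0 i)), ?_⟩
  intro N Xs hG q hq hN i hi
  obtain ⟨t0, r1, -⟩ := M6_facts hq
  have h1 := (h0 N Xs hG q hq hN i hi).tau (τ' := min δ0 (1 / 8) * ‖M.kap q‖)
    (mul_le_mul_of_nonneg_right (min_le_left _ _) t0.le)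
  have h2 := ((hY i q hq (min δ0 (1 / 8)) (min_le_right _ _)).smul ((M.kap q)⁻¹ ^ (3 * i))).smul
    ((i.factorial * (2 * A.cA / M.sg) ^ i : ℝ) : ℂ)
  have h3 := h1.add h2
  rw [sub_add_cancel] at h3
  refine h3.mono ?_
  rw [M6_div hq, M6_kinv hq, Complex.norm_real, Real.norm_eq_abs]
  have e1 : |(i.factorial * (2 * A.cA / M.sg) ^ i : ℝ)| = cc i := by rw [hcc]
  rw [e1]
  have e2 : 2 * (3 * i) = 6 * i := by ring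
  rw [e2]
  have h4 : cc i * Y i ≤ ∑ i ∈ range (k + 1), cc i * Y i :=
    single_le_sum (f := fun i => cc i * Y i) (fun i _ => mul_nonneg (hcc0 i) (hY0 i))
      (mem_range.2 (by omega))
  have h5 : M6_r M q ^ (6 * i) ≤ M6_r M q ^ (6 * i + 1) := M6_pow hq (by omega)
  have h6 := M6_pos hq (6 * i + 1)
  calc X0 * M6_r M q ^ (6 * i) + cc i * (M6_r M q ^ (6 * i) * (Y i * M6_r M q))
      = X0 * M6_r M q ^ (6 * i) + (cc i * Y i) * M6_r M q ^ (6 * i + 1) := by ring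
    _ ≤ X0 * M6_r M q ^ (6 * i + 1) +
        (∑ i ∈ range (k + 1), cc i * Y i) * M6_r M q ^ (6 * i + 1) :=
        add_le_add (mul_le_mul_of_nonneg_left h5 hX0) (mul_le_mul_of_nonneg_right h4 h6.le)
    _ = _ := by ring

/-- the vectors `Om_j V_i` -/
theorem M6_OV (A : Ker M) (a : ℕ → ℝ) (C : CapS) (k : ℕ) : ∃ X : ℝ, 0 ≤ X ∧
    ∀ (N : ℕ) (Xs : ℕ → Mul M), GoodK A a N Xs → ∀ q ∈ Mdl.Loc M, 1 / ‖M.kap q‖ ^ 2 ≤ N →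
    ∀ i ≤ k, ∀ j ≤ k, 1 ≤ j → ‖(Xs j).Om q (VK Xs C q i)‖ ≤ X * M6_r M q ^ (6 * i + 2 * j + 1) := by
  obtain ⟨δ, X0, hδ, hδ8, hX0, h0⟩ := M6_V A a C k
  choose Z hZ0 hZ using fun j => Om_wb (M := M) j
  refine ⟨∑ j ∈ range (k + 1), Z j * |a j| / δ ^ j * X0, sum_nonneg fun j _ => ?_, ?_⟩
  · have := hZ0 j
    positivity
  intro N Xs hG q hq hN i hi j hj hj1
  obtain ⟨t0, r1, r2⟩ := M6_facts hq
  have t1 : ‖M.kap q‖ ≤ 1 / 100 := hq.2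
  have ha : 0 ≤ a j := (hG.1 j hj1).1
  have h1 := hZ j (Xs j) (a j) (hG.1 j hj1) q hq.1.1.le (δ * ‖M.kap q‖) 0 le_rfl (by positivity)
    (by nlinarith) _ _ (h0 N Xs hG q hq hN i hi)
  have h2 := h1.norm le_rfl
  refine h2.trans ?_
  have h3 : Z j * a j / (δ * ‖M.kap q‖ - 0) ^ j * (X0 * M6_r M q ^ (6 * i + 1)) =
      (Z j * |a j| / δ ^ j * X0) * M6_r M q ^ (6 * i + 2 * j + 1) := by
    rw [sub_zero, abs_of_nonneg ha, mul_pow, ← div_div, M6_div hq]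
    ring
  rw [h3]
  refine mul_le_mul_of_nonneg_right ?_ (M6_pos hq _).le
  refine single_le_sum (f := fun j => Z j * |a j| / δ ^ j * X0) (fun j _ => ?_)
    (mem_range.2 (by omega))
  have := hZ0 j
  positivity

/-- the main term -/
theorem M6_O1 (A : Ker M) (a : ℕ → ℝ) (C : CapS) (k : ℕ) : ∃ X : ℝ, 0 ≤ X ∧
    ∀ (N : ℕ) (Xs : ℕ → Mul M), GoodK A a N Xs → ∀ q ∈ Mdl.Loc M, 1 / ‖M.kap q‖ ^ 2 ≤ N →
    ‖(Xs 1).Om q (VK Xs C q k) - ((k.factorial * (2 * A.cA / M.sg) ^ k : ℝ) : ℂ) •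
      ((M.kap q)⁻¹ ^ (3 * k) • ((A.cA : ℂ) • xf (yv M (C.r 0) (PK k) q)))‖ ≤
      X * M6_r M q ^ (6 * k + 2) := by
  obtain ⟨δ, X0, hδ, hX0, h0⟩ := VK_loc A a C k
  obtain ⟨Z, hZ0, hZ⟩ := Om_wb (M := M) 1
  obtain ⟨W, hW0, hW⟩ := Om_yv A (C.r 0) (PK k) (a 1)
  obtain ⟨cc, hcc⟩ : ∃ cc : ℝ, cc = |(k.factorial * (2 * A.cA / M.sg) ^ k : ℝ)| := ⟨_, rfl⟩
  have hcc0 : 0 ≤ cc := by rw [hcc]; exact abs_nonneg _
  obtain ⟨δ1, hδ1⟩ : ∃ δ1, δ1 = min δ (1 / 8) := ⟨_, rfl⟩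
  have hδ1p : 0 < δ1 := by rw [hδ1]; exact lt_min hδ (by norm_num)
  have hδ1l : δ1 ≤ δ := by rw [hδ1]; exact min_le_left _ _
  have hδ18 : δ1 ≤ 1 / 8 := by rw [hδ1]; exact min_le_right _ _
  refine ⟨Z * |a 1| / δ1 * X0 + cc * (16 * W), by positivity, ?_⟩
  intro N Xs hG q hq hN
  obtain ⟨t0, r1, r2⟩ := M6_facts hq
  have t1 : ‖M.kap q‖ ≤ 1 / 100 := hq.2
  have hGr := hG.1 1 le_rfl
  have ha : 0 ≤ a 1 := hGr.1
  have h1 := (h0 N Xs hG q hq hN k le_rfl).tau (τ' := δ1 * ‖M.kap q‖)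
    (mul_le_mul_of_nonneg_right hδ1l t0.le)
  have h2 := (hZ (Xs 1) (a 1) hGr q hq.1.1.le (δ1 * ‖M.kap q‖) 0 le_rfl (by positivity)
    (by nlinarith) _ _ h1).norm le_rfl
  have h3 : Wb 0 ((Xs 1).Om q (yv M (C.r 0) (PK k) q) -
      (A.cA : ℂ) • xf (yv M (C.r 0) (PK k) q)) (4 * W / √(‖M.kap q‖ / 16)) := by
    refine Wb.geom (by linarith) (by linarith) (by linarith) hW0 (fun d => ?_)
    exact hW (Xs 1) N hGr hG.2.1 q hq hN d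
  have h4 := h3.norm le_rfl
  rw [M6_geom16 hq] at h4
  have e : (Xs 1).Om q (VK Xs C q k) - ((k.factorial * (2 * A.cA / M.sg) ^ k : ℝ) : ℂ) •
      ((M.kap q)⁻¹ ^ (3 * k) • ((A.cA : ℂ) • xf (yv M (C.r 0) (PK k) q))) =
      (Xs 1).Om q (VK Xs C q k - ((k.factorial * (2 * A.cA / M.sg) ^ k : ℝ) : ℂ) •
      ((M.kap q)⁻¹ ^ (3 * k) • yv M (C.r 0) (PK k) q)) +
      ((k.factorial * (2 * A.cA / M.sg) ^ k : ℝ) : ℂ) • ((M.kap q)⁻¹ ^ (3 * k) •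
      ((Xs 1).Om q (yv M (C.r 0) (PK k) q) - (A.cA : ℂ) • xf (yv M (C.r 0) (PK k) q))) := by
    rw [map_sub, map_smul, map_smul, smul_sub, smul_sub]
    abel
  rw [e]
  refine (norm_add_le _ _).trans ?_
  have h5 : Z * a 1 / (δ1 * ‖M.kap q‖ - 0) ^ 1 * (X0 / ‖M.kap q‖ ^ (3 * k)) =
      (Z * |a 1| / δ1 * X0) * M6_r M q ^ (6 * k + 2) := by
    rw [sub_zero, abs_of_nonneg ha, pow_one, ← div_div, M6_div hq, div_eq_mul_inv _ ‖M.kap q‖, r2]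
    ring
  have h6 : ‖((k.factorial * (2 * A.cA / M.sg) ^ k : ℝ) : ℂ) • ((M.kap q)⁻¹ ^ (3 * k) •
      ((Xs 1).Om q (yv M (C.r 0) (PK k) q) - (A.cA : ℂ) • xf (yv M (C.r 0) (PK k) q)))‖ ≤
      cc * (16 * W) * M6_r M q ^ (6 * k + 2) := by
    rw [norm_smul, norm_smul, M6_kinv hq, Complex.norm_real, Real.norm_eq_abs, ← hcc]
    have h7 : M6_r M q ^ (6 * k + 1) ≤ M6_r M q ^ (6 * k + 2) := M6_pow hq (by omega)
    calc cc * (M6_r M q ^ (2 * (3 * k)) * ‖(Xs 1).Om q (yv M (C.r 0) (PK k) q) -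
        (A.cA : ℂ) • xf (yv M (C.r 0) (PK k) q)‖)
        ≤ cc * (M6_r M q ^ (2 * (3 * k)) * (16 * W * M6_r M q)) :=
          mul_le_mul_of_nonneg_left (mul_le_mul_of_nonneg_left h4 (M6_pos hq _).le) hcc0
      _ = cc * (16 * W) * M6_r M q ^ (6 * k + 1) := by ring
      _ ≤ _ := mul_le_mul_of_nonneg_left h7 (by positivity)
  rw [add_mul]
  refine add_le_add (h2.trans_eq h5) h6

/-- the left solution -/
theorem M6_sol (M : Mdl) (C : Cap) : ∃ X : ℝ, 0 ≤ X ∧ ∀ q ∈ Mdl.Loc M,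
    ‖M.sol C q - yv M C 1 q‖ ≤ X ∧ ‖M.sol C q‖ ≤ X * M6_r M q := by
  obtain ⟨δ, X, hδ, hX, h⟩ := sol_yv M C
  obtain ⟨Y, hY, hy⟩ := M6_yv M C 1
  refine ⟨X + Y, by positivity, fun q hq => ?_⟩
  obtain ⟨t0, r1, r2⟩ := M6_facts hq
  have h1 := (h q hq).norm (by positivity)
  have h2 := (hy q hq 0 (by norm_num)).norm (by simp)
  refine ⟨h1.trans (by linarith), ?_⟩
  calc ‖M.sol C q‖ = ‖(M.sol C q - yv M C 1 q) + yv M C 1 q‖ := by rw [sub_add_cancel]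
    _ ≤ ‖M.sol C q - yv M C 1 q‖ + ‖yv M C 1 q‖ := norm_add_le _ _
    _ ≤ X + Y * M6_r M q := add_le_add h1 h2
    _ ≤ X * M6_r M q + Y * M6_r M q := by
        have := mul_le_mul_of_nonneg_left r1 hX
        linarith
    _ = _ := by ring

/-- `xf yv` -/
theorem M6_xf (M : Mdl) (C : Cap) (P : Polynomial ℝ) : ∃ X : ℝ, 0 ≤ X ∧ ∀ q ∈ Mdl.Loc M,
    ‖xf (yv M C P q)‖ ≤ X * M6_r M q ^ 3 := by
  obtain ⟨Y, hY, hy⟩ := M6_yv M C (Polynomial.X * P)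
  refine ⟨Y, hY, fun q hq => ?_⟩
  obtain ⟨t0, r1, r2⟩ := M6_facts hq
  have h2 := (hy q hq 0 (by norm_num)).norm (by simp)
  rw [← xf_yv P hq, norm_smul] at h2
  have h3 : ‖xf (yv M C P q)‖ = ‖M.kap q‖⁻¹ * (‖M.kap q‖ * ‖xf (yv M C P q)‖) := by
    field_simp
  rw [h3, r2]
  calc M6_r M q ^ 2 * (‖M.kap q‖ * ‖xf (yv M C P q)‖) ≤ M6_r M q ^ 2 * (Y * M6_r M q) :=
        mul_le_mul_of_nonneg_left h2 (M6_pos hq _).le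
    _ = _ := by ring

/-- the term `B (cv l0) V_k` -/
theorem M6_B0 (A : Ker M) (a : ℕ → ℝ) (C : CapS) (k : ℕ) : ∃ X : ℝ, 0 ≤ X ∧
    ∀ (N : ℕ) (Xs : ℕ → Mul M), GoodK A a N Xs → ∀ q ∈ Mdl.Loc M, 1 / ‖M.kap q‖ ^ 2 ≤ N →
    ‖B ((C.l 0).cv q) (VK Xs C q (k + 1)) - (CK A C (k + 1) : ℂ) * (M.kap q)⁻¹ ^ (3 * k + 2)‖ ≤
      X * M6_r M q ^ (6 * k + 3) := by
  obtain ⟨XO, hXO, hO⟩ := M6_OV A a C (k + 1)
  obtain ⟨X1, hX1, h1⟩ := M6_O1 A a C k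
  obtain ⟨Y, hY, hs⟩ := M6_sol M (C.l 0)
  obtain ⟨Xf, hXf, hf⟩ := M6_xf M (C.r 0) (PK k)
  obtain ⟨Xb, hXb, hb⟩ := B_yv M (C.l 0) (C.r 0) (PK k)
  obtain ⟨T, hT, hcv⟩ := cv_wb M (C.r (k + 1))
  obtain ⟨c, hc⟩ : ∃ c : ℝ, c = (k.factorial * (2 * A.cA / M.sg) ^ k : ℝ) := ⟨_, rfl⟩
  obtain ⟨S, hS⟩ : ∃ S : ℝ, S = ∑ j : Fin k, ((k + 1).choose (((j.succ : Fin (k + 1)) : ℕ) + 1) : ℝ) * XO :=
    ⟨_, rfl⟩
  have hS0 : 0 ≤ S := by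
    rw [hS]
    exact sum_nonneg fun j _ => mul_nonneg (Nat.cast_nonneg _) hXO
  refine ⟨Y * (S + T) + (k + 1) * (Y * X1) + (k + 1) * |c| * |A.cA| * (Y * Xf + Xb), by positivity, ?_⟩
  intro N Xs hG q hq hN
  obtain ⟨t0, r1, r2⟩ := M6_facts hq
  obtain ⟨hs1, hs2⟩ := hs q hq
  have hu := M.isUnit_of_U hq.1
  obtain ⟨R, hR⟩ : ∃ R : H, R = (∑ j : Fin k, ((k + 1).choose (((j.succ : Fin (k + 1)) : ℕ) + 1) : ℂ) •
      (Xs (((j.succ : Fin (k + 1)) : ℕ) + 1)).Om q (VK Xs C q (k + 1 - 1 - ((j.succ : Fin (k + 1)) : ℕ)))) +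
      (C.r (k + 1)).cv q := ⟨_, rfl⟩
  have hV : VK Xs C q (k + 1) = M.G q (((k + 1 : ℕ) : ℂ) • (Xs 1).Om q (VK Xs C q k) + R) := by
    rw [VK, Fin.sum_univ_succ, hR, add_assoc]
    congr 3
    simp
  have hRn : ‖R‖ ≤ (S + T) * M6_r M q ^ (6 * k + 2) := by
    rw [hR, add_mul]
    refine (norm_add_le _ _).trans (add_le_add ?_ ?_)
    · rw [hS, sum_mul]
      refine (norm_sum_le _ _).trans (sum_le_sum fun j _ => ?_)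
      rw [norm_smul, mul_assoc]
      have e1 : ‖(((k + 1).choose (((j.succ : Fin (k + 1)) : ℕ) + 1) : ℕ) : ℂ)‖ =
          ((k + 1).choose (((j.succ : Fin (k + 1)) : ℕ) + 1) : ℝ) := by
        rw [Complex.norm_natCast]
      rw [e1]
      refine mul_le_mul_of_nonneg_left ?_ (Nat.cast_nonneg _)
      have hj := j.2
      have e2 : ((j.succ : Fin (k + 1)) : ℕ) = (j : ℕ) + 1 := Fin.val_succ j
      refine (hO N Xs hG q hq hN _ (by omega) _ (by omega) (by omega)).trans ?_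
      exact mul_le_mul_of_nonneg_left (M6_pow hq (by omega)) hXO
    · have h3 := (hcv q hq.1 0 (by norm_num)).norm le_rfl
      refine h3.trans ?_
      exact le_mul_of_one_le_right hT (one_le_pow₀ r1)
  obtain ⟨D, hD⟩ : ∃ D : H, D = (Xs 1).Om q (VK Xs C q k) - (c : ℂ) •
      ((M.kap q)⁻¹ ^ (3 * k) • ((A.cA : ℂ) • xf (yv M (C.r 0) (PK k) q))) := ⟨_, rfl⟩
  have hDn : ‖D‖ ≤ X1 * M6_r M q ^ (6 * k + 2) := by
    rw [hD, hc]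
    exact h1 N Xs hG q hq hN
  obtain ⟨xy, hxy⟩ : ∃ xy : H, xy = xf (yv M (C.r 0) (PK k) q) := ⟨_, rfl⟩
  have hfq := hf q hq
  have hbq := hb q hq
  rw [← hxy] at hD hfq hbq
  obtain ⟨s, hs'⟩ : ∃ s : H, s = M.sol (C.l 0) q := ⟨_, rfl⟩
  rw [← hs'] at hs1 hs2
  obtain ⟨y1, hy1⟩ : ∃ y1 : H, y1 = yv M (C.l 0) 1 q := ⟨_, rfl⟩
  rw [← hy1] at hs1 hbq
  have eB : B ((C.l 0).cv q) (VK Xs C q (k + 1)) =
      ((k + 1 : ℕ) : ℂ) * B s D + ((k + 1 : ℕ) : ℂ) * (c : ℂ) * (M.kap q)⁻¹ ^ (3 * k) * (A.cA : ℂ) *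
        (B (s - y1) xy + B y1 xy) + B s R := by
    have hO1 : (Xs 1).Om q (VK Xs C q k) = D + (c : ℂ) • ((M.kap q)⁻¹ ^ (3 * k) • ((A.cA : ℂ) • xy)) := by
      rw [hD, sub_add_cancel]
    rw [hV, Mdl.G_sym hq.1.1.le hu]
    change B (M.sol (C.l 0) q) _ = _
    rw [← hs', B_add_right, B_smul_right, hO1, B_add_right, B_smul_right, B_smul_right, B_smul_right,
      B_sub_left, sub_add_cancel]
    ring
  have eC : (CK A C (k + 1) : ℂ) * (M.kap q)⁻¹ ^ (3 * k + 2) =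
      ((k + 1 : ℕ) : ℂ) * (c : ℂ) * (M.kap q)⁻¹ ^ (3 * k) * (A.cA : ℂ) *
        (((Mdl.PP M (C.l 0) (C.r 0) * lap (PK k) : ℝ) : ℂ) * (M.kap q)⁻¹ ^ 2) := by
    rw [hc]
    unfold CK
    rw [Nat.add_sub_cancel, Nat.factorial_succ]
    push_cast
    ring
  have e : B ((C.l 0).cv q) (VK Xs C q (k + 1)) - (CK A C (k + 1) : ℂ) * (M.kap q)⁻¹ ^ (3 * k + 2) =
      B s R + ((k + 1 : ℕ) : ℂ) * B s D + ((k + 1 : ℕ) : ℂ) * (c : ℂ) * (M.kap q)⁻¹ ^ (3 * k) * (A.cA : ℂ) *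
        (B (s - y1) xy + (B y1 xy -
          ((Mdl.PP M (C.l 0) (C.r 0) * lap (PK k) : ℝ) : ℂ) * (M.kap q)⁻¹ ^ 2)) := by
    rw [eB, eC]
    ring
  rw [e]
  have b1 : ‖B s R‖ ≤ (Y * (S + T)) * M6_r M q ^ (6 * k + 3) := by
    refine (B_norm _ _).trans ?_
    calc ‖s‖ * ‖R‖ ≤ (Y * M6_r M q) * ((S + T) * M6_r M q ^ (6 * k + 2)) :=
          mul_le_mul hs2 hRn (norm_nonneg _) (by positivity)
      _ = _ := by ring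
  have b2 : ‖((k + 1 : ℕ) : ℂ) * B s D‖ ≤ ((k + 1) * (Y * X1)) * M6_r M q ^ (6 * k + 3) := by
    rw [norm_mul, Complex.norm_natCast]
    push_cast
    calc ((k : ℝ) + 1) * ‖B s D‖ ≤ ((k : ℝ) + 1) * ((Y * M6_r M q) * (X1 * M6_r M q ^ (6 * k + 2))) := by
          refine mul_le_mul_of_nonneg_left ((B_norm _ _).trans ?_) (by positivity)
          exact mul_le_mul hs2 hDn (norm_nonneg _) (by positivity)
      _ = _ := by ring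
  have b3 : ‖((k + 1 : ℕ) : ℂ) * (c : ℂ) * (M.kap q)⁻¹ ^ (3 * k) * (A.cA : ℂ) *
        (B (s - y1) xy + (B y1 xy -
          ((Mdl.PP M (C.l 0) (C.r 0) * lap (PK k) : ℝ) : ℂ) * (M.kap q)⁻¹ ^ 2))‖ ≤
      ((k + 1) * |c| * |A.cA| * (Y * Xf + Xb)) * M6_r M q ^ (6 * k + 3) := by
    rw [norm_mul, norm_mul, norm_mul, norm_mul, Complex.norm_natCast, Complex.norm_real,
      Complex.norm_real, Real.norm_eq_abs, Real.norm_eq_abs, M6_kinv hq]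
    push_cast
    have b4 : ‖B (s - y1) xy‖ ≤ Y * Xf * M6_r M q ^ 3 := by
      refine (B_norm _ _).trans ?_
      calc ‖s - y1‖ * ‖xy‖ ≤ Y * (Xf * M6_r M q ^ 3) :=
            mul_le_mul hs1 hfq (norm_nonneg _) hY
        _ = _ := by ring
    have b5 : ‖B y1 xy - ((Mdl.PP M (C.l 0) (C.r 0) * lap (PK k) : ℝ) : ℂ) * (M.kap q)⁻¹ ^ 2‖ ≤
        Xb * M6_r M q ^ 3 := by
      refine hbq.trans ?_
      have h7 := M6_div hq Xb 1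
      rw [pow_one] at h7
      rw [h7]
      exact mul_le_mul_of_nonneg_left (M6_pow hq (by norm_num)) hXb
    push_cast at b5
    have b6 := (norm_add_le (B (s - y1) xy) (B y1 xy -
      ((Mdl.PP M (C.l 0) (C.r 0) : ℂ) * (lap (PK k) : ℂ)) * (M.kap q)⁻¹ ^ 2)).trans (add_le_add b4 b5)
    calc ((k : ℝ) + 1) * |c| * M6_r M q ^ (2 * (3 * k)) * |A.cA| * ‖B (s - y1) xy + (B y1 xy -
          ((Mdl.PP M (C.l 0) (C.r 0) : ℂ) * (lap (PK k) : ℂ)) * (M.kap q)⁻¹ ^ 2)‖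
        ≤ ((k : ℝ) + 1) * |c| * M6_r M q ^ (2 * (3 * k)) * |A.cA| *
          (Y * Xf * M6_r M q ^ 3 + Xb * M6_r M q ^ 3) := mul_le_mul_of_nonneg_left b6 (by positivity)
      _ = _ := by ring
  refine (norm_add₃_le).trans ((add_le_add (add_le_add b1 b2) b3).trans_eq ?_)
  ring

/-- **Task M6**: B(cv l0, V_k) = B(sol l0, k Om_1 V_{k-1} + ∑_{j≥2} .. + cv r_k) (G_sym), Om_1 V_{k-1} =
cA c_{k-1} κ^{-3(k-1)} xf yv P_{k-1} + O(t^{-3k+2}) (as in M2), sol l0 = yv 1 + O(1), ‖sol‖ ≤ C t^{-1/2}, B_yv;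
Om_j V_{k-j}: t^{-j-3(k-j)-1/2}; B(cv l_j, V_{k-j}) ≤ C t^{-3(k-j)-1/2} for j ≥ 1 (VK_loc, yv_bd). All errors ≤ C t^{-3k+3/2}. -/
theorem MK_loc (A : Ker M) (a : ℕ → ℝ) (C : CapS) {k : ℕ} (hk : 1 ≤ k) : ∃ X : ℝ, 0 ≤ X ∧
    ∀ (N : ℕ) (Xs : ℕ → Mul M), GoodK A a N Xs → ∀ q ∈ Mdl.Loc M, 1 / ‖M.kap q‖ ^ 2 ≤ N →
    ‖MK Xs C k q - (CK A C k : ℂ) * (M.kap q)⁻¹ ^ (3 * k - 1)‖ ≤
      X * √‖M.kap q‖ / ‖M.kap q‖ ^ (3 * k - 1) := by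
  obtain ⟨m, rfl⟩ : ∃ m, k = m + 1 := ⟨k - 1, by omega⟩
  obtain ⟨X0, hX0, h0⟩ := M6_B0 A a C m
  obtain ⟨δ, XV, hδ, hδ8, hXV, hV⟩ := M6_V A a C m
  choose T hT0 hT using fun j => cv_wb M (C.l j)
  refine ⟨(∑ j ∈ range (m + 1), ((m + 1).choose (j + 1) : ℝ) * (T (j + 1) * XV)) + X0,
    add_nonneg (sum_nonneg fun j _ => mul_nonneg (Nat.cast_nonneg _) (mul_nonneg (hT0 _) hXV)) hX0, ?_⟩
  intro N Xs hG q hq hN
  obtain ⟨t0, r1, r2⟩ := M6_facts hq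
  have e3 : 3 * (m + 1) - 1 = 3 * m + 2 := by omega
  rw [e3]
  have e4 : ∀ x : ℝ, x * √‖M.kap q‖ / ‖M.kap q‖ ^ (3 * m + 2) = x * M6_r M q ^ (6 * m + 3) := by
    intro x
    have h5 : √‖M.kap q‖ * M6_r M q = 1 := by
      unfold M6_r
      exact mul_inv_cancel₀ (Real.sqrt_pos.2 t0).ne'
    rw [M6_div hq]
    calc x * √‖M.kap q‖ * M6_r M q ^ (2 * (3 * m + 2)) =
        x * M6_r M q ^ (6 * m + 3) * (√‖M.kap q‖ * M6_r M q) := by ring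
      _ = _ := by rw [h5, mul_one]
  rw [e4, add_mul]
  have e5 : MK Xs C (m + 1) q = (∑ j ∈ range (m + 1), ((m + 1).choose (j + 1) : ℂ) *
      B ((C.l (j + 1)).cv q) (VK Xs C q (m + 1 - (j + 1)))) +
      B ((C.l 0).cv q) (VK Xs C q (m + 1)) := by
    unfold MK
    rw [sum_range_succ']
    simp
  rw [e5, add_sub_assoc]
  refine (norm_add_le _ _).trans (add_le_add ?_ (h0 N Xs hG q hq hN))
  rw [sum_mul]
  refine (norm_sum_le _ _).trans (sum_le_sum fun j hj => ?_)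
  rw [norm_mul, Complex.norm_natCast, mul_assoc]
  refine mul_le_mul_of_nonneg_left ((B_norm _ _).trans ?_) (Nat.cast_nonneg _)
  have h6 := (hT (j + 1) q hq.1 0 (by norm_num)).norm le_rfl
  have h7 := (hV N Xs hG q hq hN (m + 1 - (j + 1)) (by omega)).norm (by positivity)
  have h8 : M6_r M q ^ (6 * (m + 1 - (j + 1)) + 1) ≤ M6_r M q ^ (6 * m + 3) := M6_pow hq (by omega)
  calc ‖(C.l (j + 1)).cv q‖ * ‖VK Xs C q (m + 1 - (j + 1))‖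
      ≤ T (j + 1) * (XV * M6_r M q ^ (6 * (m + 1 - (j + 1)) + 1)) :=
        mul_le_mul h6 h7 (norm_nonneg _) (hT0 _)
    _ ≤ T (j + 1) * (XV * M6_r M q ^ (6 * m + 3)) :=
        mul_le_mul_of_nonneg_left (mul_le_mul_of_nonneg_left h8 hXV) (hT0 _)
    _ = _ := by ring

end
end
end KN.SQ
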