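import Pool.Agent.H132.SQ.GM3
import Pool.Agent.H132.SQ.GM6

/-!
# The estimate of the moments
-/

set_option autoImplicit false

namespace KN.SQ
open Finset Filter Topology
open scoped Classical ENNReal ComplexConjugate
noncomputable section
section
variable {M : Mdl}
theorem M7_arith {X ε t : ℝ} (hX : 0 ≤ X) (hε : 0 < ε) (ht : 0 < t) (ht1 : t ≤ 1 / 100) (m : ℕ) :
    X * √t / t ^ m ≤ ε / t ^ m + X / ((ε / (X + 1)) ^ 2) ^ m := by
  obtain ⟨δ, hδ⟩ : ∃ δ : ℝ, δ = ε / (X + 1) := ⟨_, rfl⟩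
  have hδ0 : 0 < δ := by rw [hδ]; positivity
  have hst : 0 < √t := Real.sqrt_pos.2 ht
  have hss : √t * √t = t := Real.mul_self_sqrt ht.le
  rw [← hδ]
  have h0 : 0 ≤ X / (δ ^ 2) ^ m := by positivity
  have h0' : 0 ≤ ε / t ^ m := by positivity
  rcases le_or_gt (√t) δ with h | h
  · have h1 : X * √t ≤ ε := by
      have h2 : X * √t ≤ (X + 1) * δ := mul_le_mul (by linarith) h hst.le (by linarith)
      have h3 : (X + 1) * δ = ε := by
        rw [hδ]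
        field_simp
      linarith
    have h5 : X * √t / t ^ m ≤ ε / t ^ m := div_le_div_of_nonneg_right h1 (by positivity)
    linarith
  · have h1 : δ ^ 2 ≤ t := by nlinarith
    have h2 : √t ≤ 1 := by
      by_contra hc
      push Not at hc
      nlinarith
    have h4 : X * √t ≤ X := by nlinarith
    have h3 : X * √t / t ^ m ≤ X / (δ ^ 2) ^ m :=
      div_le_div₀ hX h4 (by positivity) (pow_le_pow_left₀ (by positivity) h1 m)
    linarith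

theorem M7_far (A : Ker M) (a : ℕ → ℝ) (C : CapS) (k : ℕ) : ∃ X : ℝ, 0 ≤ X ∧
    ∀ (N : ℕ) (Xs : ℕ → Mul M), GoodK A a N Xs → ∀ q ∈ M.U, 1 / 100 ≤ ‖M.kap q‖ →
    ‖MK Xs C k q‖ ≤ X := by
  obtain ⟨δ, X, hδ, hX, h⟩ := VK_far A a C k
  choose Y hY0 hY using fun j => cv_wb M (C.l j)
  refine ⟨∑ j ∈ range (k + 1), (k.choose j : ℝ) * (Y j * X),
    Finset.sum_nonneg fun j _ => mul_nonneg (Nat.cast_nonneg _) (mul_nonneg (hY0 j) hX), ?_⟩
  intro N Xs hg q hq ht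
  unfold MK
  refine (norm_sum_le _ _).trans (Finset.sum_le_sum fun j _ => ?_)
  rw [norm_mul, Complex.norm_natCast]
  refine mul_le_mul_of_nonneg_left ?_ (Nat.cast_nonneg _)
  have h1 : ‖(C.l j).cv q‖ ≤ Y j := (hY j q hq 0 (by norm_num)).norm le_rfl
  have h2 : ‖VK Xs C q (k - j)‖ ≤ X :=
    (h N Xs hg q hq ht (k - j) (Nat.sub_le k j)).norm (by positivity)
  exact (B_norm _ _).trans (mul_le_mul h1 h2 (norm_nonneg _) (hY0 j))

/-- **Task M7** (from VK_far, cv_wb / cv_bd, and combination with MK_loc) -/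
theorem MK_est (A : Ker M) (a : ℕ → ℝ) (C : CapS) {k : ℕ} (hk : 1 ≤ k) {ε : ℝ} (hε : 0 < ε) :
    ∃ X : ℝ, 0 ≤ X ∧ ∀ (N : ℕ) (Xs : ℕ → Mul M), GoodK A a N Xs → ∀ q ∈ M.U,
    1 / ‖M.kap q‖ ^ 2 ≤ N →
    ‖MK Xs C k q - (CK A C k : ℂ) * (M.kap q)⁻¹ ^ (3 * k - 1)‖ ≤ ε / ‖M.kap q‖ ^ (3 * k - 1) + X := by
  obtain ⟨X, hX, h1⟩ := MK_loc A a C hk
  obtain ⟨Y, hY, h2⟩ := M7_far A a C k
  refine ⟨X / ((ε / (X + 1)) ^ 2) ^ (3 * k - 1) + (Y + |CK A C k| * 100 ^ (3 * k - 1)),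
    by positivity, ?_⟩
  intro N Xs hg q hq hN
  have ht : 0 < ‖M.kap q‖ := Mdl.kap_pos hq
  have h5 : 0 ≤ Y + |CK A C k| * 100 ^ (3 * k - 1) := by positivity
  have h6 : 0 ≤ X / ((ε / (X + 1)) ^ 2) ^ (3 * k - 1) := by positivity
  have h7 : 0 ≤ ε / ‖M.kap q‖ ^ (3 * k - 1) := by positivity
  rcases le_or_gt ‖M.kap q‖ (1 / 100) with h | h
  · have h3 := h1 N Xs hg q ⟨hq, h⟩ hN
    have h4 := M7_arith hX hε ht h (3 * k - 1)
    linarith
  · have h3 := h2 N Xs hg q hq h.le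
    have h4 : ‖(CK A C k : ℂ) * (M.kap q)⁻¹ ^ (3 * k - 1)‖ ≤ |CK A C k| * 100 ^ (3 * k - 1) := by
      rw [norm_mul, norm_pow, norm_inv, Complex.norm_real, Real.norm_eq_abs]
      refine mul_le_mul_of_nonneg_left (pow_le_pow_left₀ (by positivity) ?_ _) (abs_nonneg _)
      rw [inv_le_comm₀ ht (by norm_num)]
      linarith
    have h8 := norm_sub_le (MK Xs C k q) ((CK A C k : ℂ) * (M.kap q)⁻¹ ^ (3 * k - 1))
    linarith

end
end
end KN.SQ
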