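import Mathlib

/-!
# The method of moments
-/

set_option autoImplicit false

namespace KN.SQ
open Finset Filter Topology MeasureTheory
noncomputable section
theorem R1_tay (ζ : ℂ) (h1 : ‖ζ‖ = 1) (h0 : ζ.re = 0) (k : ℕ) : ∀ x : ℝ, 0 ≤ x →
    ‖Complex.exp (ζ * x) - ∑ j ∈ range k, (ζ * x) ^ j / (j.factorial : ℂ)‖ ≤ x ^ k / k.factorial := by
  induction k with
  | zero =>
    intro x hx
    simp [Complex.norm_exp, h0]
  | succ k ih =>
    intro x hx
    have hf' : ∀ y : ℝ, HasDerivAt (fun y : ℝ => Complex.exp (ζ * y) - ∑ j ∈ range (k + 1), (ζ * y) ^ j / (j.factorial : ℂ))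
        (ζ * (Complex.exp (ζ * y) - ∑ j ∈ range k, (ζ * y) ^ j / (j.factorial : ℂ))) y := by
      intro y
      have a1 : HasDerivAt (fun y : ℝ => ζ * (y : ℂ)) ζ y := by
        have := (Complex.ofRealCLM.hasDerivAt (x := y)).const_mul ζ
        simpa using this
      have a2 := a1.cexp
      have a3 : HasDerivAt (fun y : ℝ => ∑ j ∈ range (k + 1), (ζ * y) ^ j / (j.factorial : ℂ))
          (∑ j ∈ range (k + 1), ((j : ℂ) * (ζ * y) ^ (j - 1) * ζ) / (j.factorial : ℂ)) y := by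
        refine HasDerivAt.fun_sum fun j _ => ?_
        exact (a1.fun_pow j).div_const _
      have a4 := a2.fun_sub a3
      have a5 : Complex.exp (ζ * y) * ζ - ∑ j ∈ range (k + 1), ((j : ℂ) * (ζ * y) ^ (j - 1) * ζ) / (j.factorial : ℂ) =
          ζ * (Complex.exp (ζ * y) - ∑ j ∈ range k, (ζ * y) ^ j / (j.factorial : ℂ)) := by
        rw [Finset.sum_range_succ', mul_sub, mul_comm (Complex.exp _) ζ, Finset.mul_sum]
        congr 1
        simp only [Nat.cast_zero, zero_mul, zero_div, add_zero]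
        refine Finset.sum_congr rfl fun j _ => ?_
        rw [Nat.factorial_succ]
        have : ((j + 1 : ℕ) : ℂ) ≠ 0 := by exact_mod_cast Nat.succ_ne_zero j
        have h3 : (j.factorial : ℂ) ≠ 0 := by exact_mod_cast Nat.factorial_ne_zero j
        rw [Nat.cast_mul, Nat.add_sub_cancel]
        field_simp
      rw [a5] at a4
      exact a4
    have hB : ∀ y : ℝ, HasDerivAt (fun y : ℝ => y ^ (k + 1) / ((k + 1).factorial : ℝ)) (y ^ k / (k.factorial : ℝ)) y := by
      intro y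
      have b1 := (hasDerivAt_pow (k + 1) y).div_const ((k + 1).factorial : ℝ)
      have b2 : ((k + 1 : ℕ) : ℝ) * y ^ (k + 1 - 1) / ((k + 1).factorial : ℝ) = y ^ k / (k.factorial : ℝ) := by
        rw [Nat.factorial_succ, Nat.cast_mul, Nat.add_sub_cancel]
        have : ((k + 1 : ℕ) : ℝ) ≠ 0 := by exact_mod_cast Nat.succ_ne_zero k
        have h3 : (k.factorial : ℝ) ≠ 0 := by exact_mod_cast Nat.factorial_ne_zero k
        field_simp
      rw [b2] at b1
      exact b1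
    refine image_norm_le_of_norm_deriv_right_le_deriv_boundary (a := 0) (b := x)
      (f := fun y : ℝ => Complex.exp (ζ * y) - ∑ j ∈ range (k + 1), (ζ * y) ^ j / (j.factorial : ℂ))
      (B := fun y : ℝ => y ^ (k + 1) / ((k + 1).factorial : ℝ))
      (fun y _ => (hf' y).continuousAt.continuousWithinAt) (fun y _ => (hf' y).hasDerivWithinAt) ?_ hB ?_ ⟨hx, le_rfl⟩
    · simp [Finset.sum_range_succ']
    · intro y hy
      rw [norm_mul, h1, one_mul]
      exact ih y hy.1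

theorem R1_tay2 (y : ℝ) (k : ℕ) :
    ‖Complex.exp (y * Complex.I) - ∑ j ∈ range k, (y * Complex.I) ^ j / (j.factorial : ℂ)‖ ≤ |y| ^ k / k.factorial := by
  rcases le_total 0 y with h | h
  · have := R1_tay Complex.I (by simp) (by simp) k y h
    rw [abs_of_nonneg h, mul_comm (y : ℂ)]
    exact this
  · have := R1_tay (-Complex.I) (by simp) (by simp) k (-y) (by linarith)
    rw [abs_of_nonpos h]
    have e : -Complex.I * ((-y : ℝ) : ℂ) = y * Complex.I := by push_cast; ring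
    rw [e] at this
    exact this

theorem R1_ae {ν : Measure ℝ} (hpos : ν (Set.Iio 0) = 0) : ∀ᵐ x ∂ν, (0:ℝ) ≤ x := by
  rw [ae_iff]
  have : {a : ℝ | ¬ 0 ≤ a} = Set.Iio 0 := by ext a; simp
  rw [this]
  exact hpos

theorem R1_cf {ν : Measure ℝ} [IsProbabilityMeasure ν] (hpos : ν (Set.Iio 0) = 0)
    (hint : ∀ k : ℕ, Integrable (fun x : ℝ => x ^ k) ν) (t : ℝ) (k : ℕ) :
    ‖charFun ν t - ∑ j ∈ range k, (t * Complex.I) ^ j / (j.factorial : ℂ) * ((∫ x, x ^ j ∂ν : ℝ) : ℂ)‖ ≤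
      |t| ^ k * (∫ x, x ^ k ∂ν) / k.factorial := by
  have hi1 : Integrable (fun x : ℝ => Complex.exp (t * x * Complex.I)) ν := by
    refine (integrable_const (1:ℝ)).mono' (by fun_prop) ?_
    refine Eventually.of_forall fun x => ?_
    rw [Complex.norm_exp]
    simp
  have hi2 : ∀ j : ℕ, Integrable (fun x : ℝ => (t * Complex.I) ^ j / (j.factorial : ℂ) * ((x ^ j : ℝ) : ℂ)) ν :=
    fun j => ((hint j).ofReal).const_mul _
  have e1 : charFun ν t - ∑ j ∈ range k, (t * Complex.I) ^ j / (j.factorial : ℂ) * ((∫ x, x ^ j ∂ν : ℝ) : ℂ) =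
      ∫ x : ℝ, (Complex.exp (t * x * Complex.I) - ∑ j ∈ range k, (t * Complex.I) ^ j / (j.factorial : ℂ) * ((x ^ j : ℝ) : ℂ)) ∂ν := by
    rw [integral_sub hi1 (integrable_finsetSum _ fun j _ => hi2 j), integral_finsetSum _ fun j _ => hi2 j, charFun_apply_real]
    congr 1
    refine Finset.sum_congr rfl fun j _ => ?_
    rw [integral_const_mul, integral_complex_ofReal]
  rw [e1]
  have e2 : |t| ^ k * (∫ x, x ^ k ∂ν) / k.factorial = ∫ x : ℝ, |t| ^ k / k.factorial * x ^ k ∂ν := by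
    rw [integral_const_mul]; ring
  rw [e2]
  refine norm_integral_le_of_norm_le ((hint k).const_mul _) ?_
  filter_upwards [R1_ae hpos] with x hx
  have h1 := R1_tay2 (t * x) k
  have e3 : ∑ j ∈ range k, (t * Complex.I) ^ j / (j.factorial : ℂ) * ((x ^ j : ℝ) : ℂ) =
      ∑ j ∈ range k, (((t * x : ℝ) : ℂ) * Complex.I) ^ j / (j.factorial : ℂ) := by
    refine Finset.sum_congr rfl fun j _ => ?_
    push_cast
    rw [mul_pow, mul_pow, mul_pow]
    ring
  rw [e3]
  have e4 : (t : ℂ) * x * Complex.I = ((t * x : ℝ) : ℂ) * Complex.I := by push_cast; ring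
  rw [e4]
  refine h1.trans (le_of_eq ?_)
  rw [abs_mul, mul_pow, abs_of_nonneg hx]
  ring

theorem R1_uniq {ν ν' : Measure ℝ} [IsProbabilityMeasure ν] [IsProbabilityMeasure ν'] (m : ℕ → ℝ)
    (hpos : ν (Set.Iio 0) = 0) (hpos' : ν' (Set.Iio 0) = 0)
    (h : ∀ k, Integrable (fun x : ℝ => x ^ k) ν ∧ ∫ x, x ^ k ∂ν = m k)
    (h' : ∀ k, Integrable (fun x : ℝ => x ^ k) ν' ∧ ∫ x, x ^ k ∂ν' = m k)
    (hg : ∀ t : ℝ, Tendsto (fun k : ℕ => t ^ k * m k / k.factorial) atTop (𝓝 0)) : ν = ν' := by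
  apply Measure.ext_of_charFun
  funext t
  have h1 : ∀ k : ℕ, ‖charFun ν t - charFun ν' t‖ ≤ 2 * (|t| ^ k * m k / k.factorial) := by
    intro k
    have a1 := R1_cf hpos (fun k => (h k).1) t k
    have a2 := R1_cf hpos' (fun k => (h' k).1) t k
    simp only [(h _).2] at a1
    simp only [(h' _).2] at a2
    set S := ∑ j ∈ range k, (t * Complex.I) ^ j / (j.factorial : ℂ) * ((m j : ℝ) : ℂ)
    calc ‖charFun ν t - charFun ν' t‖ = ‖(charFun ν t - S) - (charFun ν' t - S)‖ := by congr 1; ring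
      _ ≤ ‖charFun ν t - S‖ + ‖charFun ν' t - S‖ := norm_sub_le _ _
      _ ≤ _ := by linarith
  have h2 : Tendsto (fun k : ℕ => 2 * (|t| ^ k * m k / k.factorial)) atTop (𝓝 (2 * 0)) := (hg |t|).const_mul 2
  rw [mul_zero] at h2
  have h3 := ge_of_tendsto' h2 h1
  exact sub_eq_zero.1 (norm_le_zero_iff.1 h3)

/-- the truncated power -/
def R1_f (k R : ℕ) : BoundedContinuousFunction ℝ ℝ :=
  BoundedContinuousFunction.ofNormedAddCommGroup (fun x : ℝ => (min (max x 0) R) ^ k) (by fun_prop) ((R : ℝ) ^ k) (by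
    intro x
    rw [norm_pow]
    refine pow_le_pow_left₀ (norm_nonneg _) ?_ k
    rw [Real.norm_of_nonneg (le_min (le_max_right _ _) (Nat.cast_nonneg _))]
    exact min_le_right _ _)

theorem R1_f_apply (k R : ℕ) (x : ℝ) : R1_f k R x = (min (max x 0) R) ^ k := rfl

theorem R1_f_nonneg (k R : ℕ) (x : ℝ) : 0 ≤ R1_f k R x := by
  rw [R1_f_apply]
  exact pow_nonneg (le_min (le_max_right _ _) (Nat.cast_nonneg _)) _

theorem R1_f_le (k R : ℕ) {x : ℝ} (hx : 0 ≤ x) : R1_f k R x ≤ x ^ k := by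
  rw [R1_f_apply, max_eq_left hx]
  exact pow_le_pow_left₀ (le_min hx (Nat.cast_nonneg _)) (min_le_left _ _) k

theorem R1_f_ge (k R : ℕ) (hR : 0 < R) {x : ℝ} (hx : 0 ≤ x) : x ^ k - R1_f k R x ≤ x ^ (k + 1) / R := by
  have hR' : (0:ℝ) < R := by exact_mod_cast hR
  rcases le_total x R with h | h
  · rw [R1_f_apply, max_eq_left hx, min_eq_left h, sub_self]
    positivity
  · have h1 := R1_f_nonneg k R x
    rw [le_div_iff₀ hR']
    have h2 : x ^ k * R ≤ x ^ k * x := mul_le_mul_of_nonneg_left h (pow_nonneg hx k)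
    have h3 := mul_nonneg h1 hR'.le
    rw [pow_succ]
    linarith

theorem R1_tr {ν : Measure ℝ} [IsProbabilityMeasure ν] (hpos : ν (Set.Iio 0) = 0)
    (hint : ∀ k : ℕ, Integrable (fun x : ℝ => x ^ k) ν) (k R : ℕ) (hR : 0 < R) :
    ∫ x, R1_f k R x ∂ν ≤ ∫ x, x ^ k ∂ν ∧ ∫ x, x ^ k ∂ν - (∫ x, x ^ (k + 1) ∂ν) / R ≤ ∫ x, R1_f k R x ∂ν := by
  have hi := (R1_f k R).integrable ν
  constructor
  · refine integral_mono_ae hi (hint k) ?_
    filter_upwards [R1_ae hpos] with x hx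
    exact R1_f_le k R hx
  · rw [← integral_div, ← integral_sub (hint k) ((hint (k + 1)).div_const _)]
    refine integral_mono_ae ((hint k).sub ((hint (k + 1)).div_const _)) hi ?_
    filter_upwards [R1_ae hpos] with x hx
    have := R1_f_ge k R hR hx
    change x ^ k - x ^ (k + 1) / (R : ℝ) ≤ R1_f k R x
    linarith

/-- the moments of a limit -/
theorem R1_lim (μ : ℕ → ProbabilityMeasure ℝ) (m : ℕ → ℝ)
    (hint : ∀ n k, Integrable (fun x : ℝ => x ^ k) (μ n : Measure ℝ))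
    (hpos : ∀ n, (μ n : Measure ℝ) (Set.Iio 0) = 0)
    (hm : ∀ k, Tendsto (fun n => ∫ x, x ^ k ∂(μ n : Measure ℝ)) atTop (𝓝 (m k)))
    (U : Filter ℕ) [U.NeBot] (hU : U ≤ atTop) (ν : ProbabilityMeasure ℝ) (hν : Tendsto μ U (𝓝 ν)) :
    (ν : Measure ℝ) (Set.Iio 0) = 0 ∧
      (∀ k, Integrable (fun x : ℝ => x ^ k) (ν : Measure ℝ) ∧ ∫ x, x ^ k ∂(ν : Measure ℝ) = m k) := by
  have h0 : (ν : Measure ℝ) (Set.Iio 0) = 0 := by
    have h1 := ProbabilityMeasure.le_liminf_measure_open_of_tendsto hν (isOpen_Iio (a := (0:ℝ)))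
    simp only [hpos, liminf_const] at h1
    exact le_antisymm h1 bot_le
  have hfR : ∀ k R : ℕ, 0 < R → ∫ x, R1_f k R x ∂(ν : Measure ℝ) ≤ m k ∧
      m k - m (k + 1) / R ≤ ∫ x, R1_f k R x ∂(ν : Measure ℝ) := by
    intro k R hR
    have h1 := (ProbabilityMeasure.tendsto_iff_forall_integral_tendsto.1 hν) (R1_f k R)
    have h2 := (hm k).mono_left hU
    have h3 := (hm (k + 1)).mono_left hU
    constructor
    · exact le_of_tendsto_of_tendsto' h1 h2 fun n => (R1_tr (hpos n) (hint n) k R hR).1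
    · exact le_of_tendsto_of_tendsto' (h2.sub (h3.div_const _)) h1 fun n => (R1_tr (hpos n) (hint n) k R hR).2
  have hI : ∀ k, Integrable (fun x : ℝ => x ^ k) (ν : Measure ℝ) := by
    intro k
    refine integrable_of_tendsto (G := fun R : ℕ => R1_f k R) ?_ (fun R => (R1_f k R).continuous.aestronglyMeasurable) ?_
    · filter_upwards [R1_ae h0] with x hx
      refine tendsto_const_nhds.congr' ?_
      filter_upwards [eventually_ge_atTop (Nat.ceil x)] with R hR
      rw [R1_f_apply, max_eq_left hx, min_eq_left ((Nat.le_ceil x).trans (by exact_mod_cast hR))]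
    · refine ne_top_of_le_ne_top (b := ENNReal.ofReal (m k)) ENNReal.ofReal_ne_top ?_
      refine liminf_le_of_frequently_le' (Eventually.frequently ?_)
      filter_upwards [eventually_gt_atTop 0] with R hR
      have h1 : ∫⁻ x, ‖R1_f k R x‖ₑ ∂(ν : Measure ℝ) = ENNReal.ofReal (∫ x, R1_f k R x ∂(ν : Measure ℝ)) := by
        rw [ofReal_integral_eq_lintegral_ofReal ((R1_f k R).integrable _) (Eventually.of_forall fun x => R1_f_nonneg k R x)]
        refine lintegral_congr fun x => ?_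
        rw [Real.enorm_of_nonneg (R1_f_nonneg k R x)]
      rw [h1]
      exact ENNReal.ofReal_le_ofReal (hfR k R hR).1
  refine ⟨h0, fun k => ⟨hI k, ?_⟩⟩
  have h1 : ∀ C : ℝ, Tendsto (fun R : ℕ => C / (R : ℝ)) atTop (𝓝 0) := fun C =>
    tendsto_const_div_atTop_nhds_zero_nat C
  apply le_antisymm
  · have h2 : Tendsto (fun R : ℕ => ∫ x, x ^ k ∂(ν : Measure ℝ) - (∫ x, x ^ (k + 1) ∂(ν : Measure ℝ)) / R) atTop
        (𝓝 (∫ x, x ^ k ∂(ν : Measure ℝ) - 0)) := tendsto_const_nhds.sub (h1 _)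
    rw [sub_zero] at h2
    refine le_of_tendsto h2 ?_
    filter_upwards [eventually_gt_atTop 0] with R hR
    exact (R1_tr h0 hI k R hR).2.trans (hfR k R hR).1
  · have h2 : Tendsto (fun R : ℕ => m k - m (k + 1) / R) atTop (𝓝 (m k - 0)) := tendsto_const_nhds.sub (h1 _)
    rw [sub_zero] at h2
    refine le_of_tendsto h2 ?_
    filter_upwards [eventually_gt_atTop 0] with R hR
    exact (hfR k R hR).2.trans (R1_tr h0 hI k R hR).1

/-- tightness -/
theorem R1_tight (μ : ℕ → ProbabilityMeasure ℝ) (m : ℕ → ℝ)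
    (hint : ∀ n k, Integrable (fun x : ℝ => x ^ k) (μ n : Measure ℝ))
    (hpos : ∀ n, (μ n : Measure ℝ) (Set.Iio 0) = 0)
    (hm : ∀ k, Tendsto (fun n => ∫ x, x ^ k ∂(μ n : Measure ℝ)) atTop (𝓝 (m k))) :
    IsTightMeasureSet {((ρ : ProbabilityMeasure ℝ) : Measure ℝ) | ρ ∈ Set.range μ} := by
  obtain ⟨C, hC⟩ : ∃ C : ℝ, ∀ n, ∫ x, x ^ 1 ∂(μ n : Measure ℝ) ≤ C := by
    obtain ⟨C, hC⟩ := (hm 1).bddAbove_range
    exact ⟨C, fun n => hC ⟨n, rfl⟩⟩
  apply isTightMeasureSet_of_tendsto_measure_norm_gt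
  have h1 : ∀ r : ℝ, 0 < r → (⨆ ρ ∈ {((ρ : ProbabilityMeasure ℝ) : Measure ℝ) | ρ ∈ Set.range μ}, ρ {x | r < ‖x‖}) ≤
      ENNReal.ofReal (C / r) := by
    intro r hr
    refine iSup₂_le ?_
    rintro ρ ⟨_, ⟨n, rfl⟩, rfl⟩
    have h2 : r * (μ n : Measure ℝ).real {x | r ≤ |x|} ≤ ∫ x, |x| ∂(μ n : Measure ℝ) := by
      refine mul_meas_ge_le_integral_of_nonneg (Eventually.of_forall fun x => abs_nonneg x) ?_ r
      have := hint n 1
      simp only [pow_one] at this
      exact this.abs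
    have h3 : ∫ x, |x| ∂(μ n : Measure ℝ) = ∫ x, x ^ 1 ∂(μ n : Measure ℝ) := by
      refine integral_congr_ae ?_
      filter_upwards [R1_ae (hpos n)] with x hx
      rw [abs_of_nonneg hx, pow_one]
    have h4 : (μ n : Measure ℝ).real {x | r ≤ |x|} ≤ C / r := by
      rw [le_div_iff₀ hr]
      have := hC n
      linarith
    calc (μ n : Measure ℝ) {x | r < ‖x‖} ≤ (μ n : Measure ℝ) {x | r ≤ |x|} := by
          refine measure_mono fun x hx => ?_
          simp only [Set.mem_ofPred_eq, Real.norm_eq_abs] at hx ⊢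
          exact hx.le
      _ = ENNReal.ofReal ((μ n : Measure ℝ).real {x | r ≤ |x|}) := by
          rw [Measure.real, ENNReal.ofReal_toReal (measure_ne_top _ _)]
      _ ≤ _ := ENNReal.ofReal_le_ofReal h4
  have h2 : Tendsto (fun r : ℝ => ENNReal.ofReal (C / r)) atTop (𝓝 0) := by
    have h3 : Tendsto (fun r : ℝ => C / r) atTop (𝓝 0) := tendsto_const_nhds.div_atTop tendsto_id
    have h4 := (ENNReal.continuous_ofReal.tendsto 0).comp h3
    simpa [Function.comp_def] using h4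
  refine tendsto_of_tendsto_of_tendsto_of_le_of_le' tendsto_const_nhds h2 (Eventually.of_forall fun _ => bot_le) ?_
  filter_upwards [eventually_gt_atTop 0] with r hr
  exact h1 r hr

/-- **Task R1**. Sketch: φ_n(t) = charFun; |e^{ix} - ∑_{j<k} (ix)^j/j!| ≤ |x|^k/k!, so limsup |φ_n(t) - ∑_{j<k} (it)^j m_j/j!| ≤ |t|^k m_k/k!
(moments are nonnegative), hence φ_n(t) → φ(t) (Cauchy). Tight: Markov with the first moment (or
isTightMeasureSet_of_tendsto_charFun), Prokhorov (Mathlib/MeasureTheory/Measure/Prokhorov.lean: isCompact_closure_of_isTightMeasureSet)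
gives a cluster point ν, charFun ν = φ, and ProbabilityMeasure.tendsto_of_tendsto_charFun (LevyConvergence.lean) gives μ_n → ν. Moments
of ν: for bounded continuous truncations min(x,R)^k, ∫ min(x,R)^k dμ_n → ∫ min(x,R)^k dν and
|∫ x^k - min(x,R)^k dμ_n| ≤ ∫ x^{k+1} dμ_n / R; monotone convergence R → ∞. -/
theorem method_of_moments (μ : ℕ → ProbabilityMeasure ℝ) (m : ℕ → ℝ)
    (hint : ∀ n k, Integrable (fun x : ℝ => x ^ k) (μ n : Measure ℝ))
    (hpos : ∀ n, (μ n : Measure ℝ) (Set.Iio 0) = 0)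
    (hm : ∀ k, Tendsto (fun n => ∫ x, x ^ k ∂(μ n : Measure ℝ)) atTop (𝓝 (m k)))
    (hg : ∀ t : ℝ, Tendsto (fun k : ℕ => t ^ k * m k / k.factorial) atTop (𝓝 0)) :
    ∃ ν : ProbabilityMeasure ℝ, Tendsto μ atTop (𝓝 ν) ∧
      (ν : Measure ℝ) (Set.Iio 0) = 0 ∧
      (∀ k, Integrable (fun x : ℝ => x ^ k) (ν : Measure ℝ) ∧ ∫ x, x ^ k ∂(ν : Measure ℝ) = m k) := by
  have hK : IsCompact (closure (Set.range μ)) :=
    isCompact_closure_of_isTightMeasureSet (R1_tight μ m hint hpos hm)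
  have key : ∀ U : Ultrafilter ℕ, (U : Filter ℕ) ≤ atTop → ∃ ν : ProbabilityMeasure ℝ, Tendsto μ U (𝓝 ν) ∧
      (ν : Measure ℝ) (Set.Iio 0) = 0 ∧
      (∀ k, Integrable (fun x : ℝ => x ^ k) (ν : Measure ℝ) ∧ ∫ x, x ^ k ∂(ν : Measure ℝ) = m k) := by
    intro U hU
    obtain ⟨ν, -, hν⟩ := hK.ultrafilter_le_nhds (U.map μ) (by
      rw [le_principal_iff]
      exact mem_of_superset (mem_map.2 (univ_mem' fun n => Set.mem_range_self n)) subset_closure)
    have hν' : Tendsto μ U (𝓝 ν) := hν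
    exact ⟨ν, hν', R1_lim μ m hint hpos hm U hU ν hν'⟩
  obtain ⟨ν, _, h0, h1⟩ := key (Filter.hyperfilter ℕ) (by
    rw [← Nat.cofinite_eq_atTop]
    exact Filter.hyperfilter_le_cofinite)
  refine ⟨ν, ?_, h0, h1⟩
  rw [Filter.tendsto_iff_ultrafilter]
  intro U hU
  obtain ⟨ν', hν', h0', h1'⟩ := key U hU
  have e0 : (ν' : Measure ℝ) = (ν : Measure ℝ) := R1_uniq m h0' h0 h1' h1 hg
  have e : ν' = ν := Subtype.ext e0
  rw [← e]
  exact hν'

end
end KN.SQ
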