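import Mathlib

/-!
# Laws determined by their moments
-/

set_option autoImplicit false

namespace KN.SQ
open Finset Filter Topology MeasureTheory
noncomputable section
theorem R1b_taylor_nonneg (n : ℕ)
    (ih : ∀ θ : ℝ, ‖Complex.exp ((θ : ℂ) * Complex.I) -
      ∑ j ∈ range n, ((θ : ℂ) * Complex.I) ^ j / (j.factorial : ℂ)‖ ≤ |θ| ^ n / (n.factorial : ℝ))
    (θ : ℝ) (hθ : 0 ≤ θ) : ‖Complex.exp ((θ : ℂ) * Complex.I) -
      ∑ j ∈ range (n + 1), ((θ : ℂ) * Complex.I) ^ j / (j.factorial : ℂ)‖ ≤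
        θ ^ (n + 1) / ((n + 1).factorial : ℝ) := by
  have hd : ∀ s : ℝ, HasDerivAt (fun s : ℝ => Complex.exp ((s : ℂ) * Complex.I) -
      ∑ j ∈ range (n + 1), ((s : ℂ) * Complex.I) ^ j / (j.factorial : ℂ))
      (Complex.I * (Complex.exp ((s : ℂ) * Complex.I) -
        ∑ j ∈ range n, ((s : ℂ) * Complex.I) ^ j / (j.factorial : ℂ))) s := by
    intro s
    have h1 : HasDerivAt (fun s : ℝ => (s : ℂ) * Complex.I) Complex.I s := by
      simpa using (hasDerivAt_id s).ofReal_comp.mul_const Complex.I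
    have h2 : HasDerivAt (fun s : ℝ => Complex.exp ((s : ℂ) * Complex.I))
        (Complex.exp ((s : ℂ) * Complex.I) * Complex.I) s := h1.cexp
    have h3 : HasDerivAt (fun s : ℝ => ∑ j ∈ range (n + 1),
        ((s : ℂ) * Complex.I) ^ j / (j.factorial : ℂ))
        (∑ j ∈ range n, ((s : ℂ) * Complex.I) ^ j / (j.factorial : ℂ) * Complex.I) s := by
      have h4 : (fun s : ℝ => ∑ j ∈ range (n + 1), ((s : ℂ) * Complex.I) ^ j / (j.factorial : ℂ)) =
          fun s : ℝ => (∑ j ∈ range n, ((s : ℂ) * Complex.I) ^ (j + 1) / ((j + 1).factorial : ℂ)) + 1 := by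
        funext s
        rw [Finset.sum_range_succ']
        simp
      rw [h4]
      refine HasDerivAt.add_const (1 : ℂ) (HasDerivAt.fun_sum fun j _ => ?_)
      have h5 := (h1.pow (j + 1)).div_const ((j + 1).factorial : ℂ)
      refine h5.congr_deriv ?_
      have h6 : ((j.factorial : ℕ) : ℂ) ≠ 0 := Nat.cast_ne_zero.2 (Nat.factorial_ne_zero j)
      have h7 : ((j : ℂ) + 1) ≠ 0 := Nat.cast_add_one_ne_zero j
      rw [Nat.factorial_succ]
      push_cast
      field_simp
    refine (h2.sub h3).congr_deriv ?_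
    rw [← Finset.sum_mul]
    ring
  have hB : ∀ s : ℝ, HasDerivAt (fun s : ℝ => s ^ (n + 1) / ((n + 1).factorial : ℝ))
      (s ^ n / (n.factorial : ℝ)) s := by
    intro s
    refine ((hasDerivAt_pow (n + 1) s).div_const _).congr_deriv ?_
    rw [Nat.factorial_succ, Nat.add_sub_cancel]
    push_cast
    have h6 : (n.factorial : ℝ) ≠ 0 := Nat.cast_ne_zero.2 (Nat.factorial_ne_zero n)
    field_simp
  have key := image_norm_le_of_norm_deriv_right_le_deriv_boundary
    (a := 0) (b := θ)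
    (f := fun s : ℝ => Complex.exp ((s : ℂ) * Complex.I) -
      ∑ j ∈ range (n + 1), ((s : ℂ) * Complex.I) ^ j / (j.factorial : ℂ))
    (f' := fun s : ℝ => Complex.I * (Complex.exp ((s : ℂ) * Complex.I) -
        ∑ j ∈ range n, ((s : ℂ) * Complex.I) ^ j / (j.factorial : ℂ)))
    (B := fun s : ℝ => s ^ (n + 1) / ((n + 1).factorial : ℝ))
    (B' := fun s : ℝ => s ^ n / (n.factorial : ℝ))
    (fun s _ => (hd s).continuousAt.continuousWithinAt)
    (fun s _ => (hd s).hasDerivWithinAt)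
    (by
      rw [Finset.sum_range_succ']
      simp)
    hB
    (fun s hs => by
      rw [norm_mul, Complex.norm_I, one_mul]
      have := ih s
      rwa [abs_of_nonneg hs.1] at this)
  exact key (Set.right_mem_Icc.2 hθ)

theorem R1b_conj (n : ℕ) (θ : ℝ) : ‖Complex.exp (((-θ : ℝ) : ℂ) * Complex.I) -
      ∑ j ∈ range n, (((-θ : ℝ) : ℂ) * Complex.I) ^ j / (j.factorial : ℂ)‖ =
      ‖Complex.exp ((θ : ℂ) * Complex.I) -
      ∑ j ∈ range n, ((θ : ℂ) * Complex.I) ^ j / (j.factorial : ℂ)‖ := by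
  rw [← Complex.norm_conj (Complex.exp ((θ : ℂ) * Complex.I) -
      ∑ j ∈ range n, ((θ : ℂ) * Complex.I) ^ j / (j.factorial : ℂ))]
  congr 1
  have e : (starRingEnd ℂ) ((θ : ℂ) * Complex.I) = ((-θ : ℝ) : ℂ) * Complex.I := by
    rw [map_mul, Complex.conj_ofReal, Complex.conj_I]
    push_cast
    ring
  rw [map_sub, ← Complex.exp_conj, map_sum, e]
  congr 1
  refine Finset.sum_congr rfl fun j _ => ?_
  rw [map_div₀, map_pow, e, map_natCast]

theorem R1b_taylor (n : ℕ) : ∀ θ : ℝ, ‖Complex.exp ((θ : ℂ) * Complex.I) -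
      ∑ j ∈ range n, ((θ : ℂ) * Complex.I) ^ j / (j.factorial : ℂ)‖ ≤ |θ| ^ n / (n.factorial : ℝ) := by
  induction n with
  | zero =>
    intro θ
    simp [Complex.norm_exp_ofReal_mul_I]
  | succ n ih =>
    intro θ
    rcases le_total 0 θ with h | h
    · rw [abs_of_nonneg h]
      exact R1b_taylor_nonneg n ih θ h
    · rw [abs_of_nonpos h, ← R1b_conj]
      exact R1b_taylor_nonneg n ih (-θ) (by linarith)

theorem R1b_key (ν : ProbabilityMeasure ℝ) (m : ℕ → ℝ)
    (h : ∀ k, Integrable (fun x : ℝ => x ^ k) (ν : Measure ℝ) ∧ ∫ x, x ^ k ∂(ν : Measure ℝ) = m k)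
    (t : ℝ) (n : ℕ) :
    ‖charFun (ν : Measure ℝ) t -
      ∑ j ∈ range (2 * n), ((t : ℂ) * Complex.I) ^ j / (j.factorial : ℂ) * (m j : ℂ)‖ ≤
      t ^ (2 * n) * m (2 * n) / ((2 * n).factorial : ℝ) := by
  have e : ∀ (j : ℕ) (x : ℝ), (((t * x : ℝ) : ℂ) * Complex.I) ^ j / (j.factorial : ℂ) =
      ((t : ℂ) * Complex.I) ^ j / (j.factorial : ℂ) * ((x ^ j : ℝ) : ℂ) := by
    intro j x
    push_cast
    ring
  have hPi : ∀ j : ℕ, Integrable (fun x : ℝ => (((t * x : ℝ) : ℂ) * Complex.I) ^ j / (j.factorial : ℂ))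
      (ν : Measure ℝ) := by
    intro j
    simp_rw [e j]
    exact (h j).1.ofReal.const_mul _
  have hexp : Integrable (fun x : ℝ => Complex.exp (((t * x : ℝ) : ℂ) * Complex.I)) (ν : Measure ℝ) := by
    refine (integrable_const (1 : ℝ)).mono' ?_ (ae_of_all _ fun x => ?_)
    · exact (by fun_prop : Continuous fun x : ℝ => Complex.exp (((t * x : ℝ) : ℂ) * Complex.I)).aestronglyMeasurable
    · rw [Complex.norm_exp_ofReal_mul_I]
  have h1 : charFun (ν : Measure ℝ) t = ∫ x : ℝ, Complex.exp (((t * x : ℝ) : ℂ) * Complex.I) ∂(ν : Measure ℝ) := by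
    rw [charFun_apply_real]
    refine integral_congr_ae (ae_of_all _ fun x => ?_)
    simp only
    push_cast
    rfl
  have h2 : ∑ j ∈ range (2 * n), ((t : ℂ) * Complex.I) ^ j / (j.factorial : ℂ) * (m j : ℂ) =
      ∫ x : ℝ, ∑ j ∈ range (2 * n), (((t * x : ℝ) : ℂ) * Complex.I) ^ j / (j.factorial : ℂ)
        ∂(ν : Measure ℝ) := by
    rw [integral_finsetSum _ fun j _ => hPi j]
    refine Finset.sum_congr rfl fun j _ => ?_
    simp_rw [e j]
    rw [integral_const_mul, integral_complex_ofReal, (h j).2]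
  rw [h1, h2, ← integral_sub hexp (integrable_finsetSum _ fun j _ => hPi j)]
  have h3 : ∫ x : ℝ, t ^ (2 * n) / ((2 * n).factorial : ℝ) * x ^ (2 * n) ∂(ν : Measure ℝ) =
      t ^ (2 * n) * m (2 * n) / ((2 * n).factorial : ℝ) := by
    rw [integral_const_mul, (h (2 * n)).2]
    ring
  rw [← h3]
  refine norm_integral_le_of_norm_le ((h (2 * n)).1.const_mul _) (ae_of_all _ fun x => ?_)
  refine (R1b_taylor (2 * n) (t * x)).trans (le_of_eq ?_)
  rw [Even.pow_abs (even_two_mul n), mul_pow]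
  ring

/-- **Task R1b**: uniqueness (on ℝ, no positivity: use even moments for the remainder, charFun of both equal
∑ (it)^k m_k/k!; Measure.ext_of_charFun) -/
theorem moments_unique (ν ν' : ProbabilityMeasure ℝ) (m : ℕ → ℝ)
    (h : ∀ k, Integrable (fun x : ℝ => x ^ k) (ν : Measure ℝ) ∧ ∫ x, x ^ k ∂(ν : Measure ℝ) = m k)
    (h' : ∀ k, Integrable (fun x : ℝ => x ^ k) (ν' : Measure ℝ) ∧ ∫ x, x ^ k ∂(ν' : Measure ℝ) = m k)
    (hg : ∀ t : ℝ, Tendsto (fun k : ℕ => t ^ k * m k / k.factorial) atTop (𝓝 0)) : ν = ν' := by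
  have hcf : charFun (ν : Measure ℝ) = charFun (ν' : Measure ℝ) := by
    funext t
    have h1 : ∀ n : ℕ, ‖charFun (ν : Measure ℝ) t - charFun (ν' : Measure ℝ) t‖ ≤
        2 * (t ^ (2 * n) * m (2 * n) / ((2 * n).factorial : ℝ)) := by
      intro n
      have h2 := R1b_key ν m h t n
      have h3 := R1b_key ν' m h' t n
      have h4 : charFun (ν : Measure ℝ) t - charFun (ν' : Measure ℝ) t =
          (charFun (ν : Measure ℝ) t -
            ∑ j ∈ range (2 * n), ((t : ℂ) * Complex.I) ^ j / (j.factorial : ℂ) * (m j : ℂ)) -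
          (charFun (ν' : Measure ℝ) t -
            ∑ j ∈ range (2 * n), ((t : ℂ) * Complex.I) ^ j / (j.factorial : ℂ) * (m j : ℂ)) := by ring
      rw [h4]
      refine (norm_sub_le _ _).trans ?_
      linarith
    have h5 : Tendsto (fun n : ℕ => 2 * (t ^ (2 * n) * m (2 * n) / ((2 * n).factorial : ℝ))) atTop (𝓝 0) := by
      have h6 : Tendsto (fun n : ℕ => 2 * n) atTop atTop :=
        tendsto_atTop_mono (fun n => (by omega : n ≤ 2 * n)) tendsto_id
      have h7 := ((hg t).comp h6).const_mul 2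
      rw [mul_zero] at h7
      exact h7
    have h8 := ge_of_tendsto' h5 h1
    exact sub_eq_zero.1 (norm_le_zero_iff.1 h8)
  have h9 : (ν : Measure ℝ) = (ν' : Measure ℝ) := Measure.ext_of_charFun hcf
  exact Subtype.ext h9

end
end KN.SQ
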