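import Pool.Agent.H132.SQ.G0

/-!
# The growth of the moments
-/

set_option autoImplicit false

namespace KN.SQ
open Finset Filter Topology MeasureTheory
noncomputable section
/-- **Task R2**: induction; `∑_{j=1}^{k-1} (j-1)! (k-1-j)! ≤ 3 (k-2)!` for k ≥ 2 and (3k-4)/4 + 3/8 ≤ k-1 -/
theorem Kt_bd (k : ℕ) : 0 < Kt (k + 1) ∧ Kt (k + 1) ≤ (k.factorial : ℝ) / 8 := by
  induction k using Nat.strong_induction_on with
  | _ k ih =>
    cases k with
    | zero =>
      have e : Kt (0 + 1) = 1 / 8 := by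
        rw [Kt, Kt]
        norm_num
      rw [e]
      norm_num
    | succ n =>
      have h1 := ih n (by omega)
      have e : Kt (n + 1 + 1) = (3 * (((n + 1 : ℕ) : ℝ) + 1) - 4) / 4 * Kt (n + 1) +
          ∑ j : Fin (n + 1), Kt (j + 1) * Kt (n + 1 - j) := by rw [Kt]
      have hn : (0 : ℝ) ≤ n := Nat.cast_nonneg n
      have h2 : ∀ j : Fin (n + 1), 0 < Kt (j + 1) * Kt (n + 1 - j) ∧
          Kt (j + 1) * Kt (n + 1 - j) ≤ (n.factorial : ℝ) / 64 := by
        intro j
        have hj : (j : ℕ) ≤ n := by omega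
        have e2 : n + 1 - (j : ℕ) = (n - j) + 1 := by omega
        have a := ih j (by omega)
        have b := ih (n - j) (by omega)
        rw [e2]
        refine ⟨mul_pos a.1 b.1, ?_⟩
        have c : Kt (j + 1) * Kt (n - j + 1) ≤ ((j : ℕ).factorial : ℝ) / 8 * (((n - j : ℕ).factorial : ℝ) / 8) :=
          mul_le_mul a.2 b.2 b.1.le (by positivity)
        have d : (((j : ℕ).factorial : ℝ)) * ((n - j : ℕ).factorial : ℝ) ≤ (n.factorial : ℝ) := by
          have := Nat.le_of_dvd (Nat.factorial_pos n) (Nat.factorial_mul_factorial_dvd_factorial hj)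
          exact_mod_cast this
        linarith
      have h3 : 0 ≤ ∑ j : Fin (n + 1), Kt (j + 1) * Kt (n + 1 - j) :=
        Finset.sum_nonneg fun j _ => (h2 j).1.le
      have h4 : ∑ j : Fin (n + 1), Kt (j + 1) * Kt (n + 1 - j) ≤ ((n : ℝ) + 1) * ((n.factorial : ℝ) / 64) := by
        have := Finset.sum_le_card_nsmul (Finset.univ : Finset (Fin (n + 1)))
          (fun j => Kt (j + 1) * Kt (n + 1 - j)) ((n.factorial : ℝ) / 64) (fun j _ => (h2 j).2)
        simpa using this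
      have h5 : ((n + 1).factorial : ℝ) = ((n : ℝ) + 1) * (n.factorial : ℝ) := by
        rw [Nat.factorial_succ]
        push_cast
        ring
      have hf : (0 : ℝ) < (n.factorial : ℝ) := by exact_mod_cast Nat.factorial_pos n
      rw [e, h5]
      push_cast
      constructor
      · have : 0 < (3 * ((n : ℝ) + 1 + 1) - 4) / 4 * Kt (n + 1) := by
          apply mul_pos _ h1.1
          linarith
        linarith
      · have h6 : (3 * ((n : ℝ) + 1 + 1) - 4) / 4 * Kt (n + 1) ≤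
            (3 * ((n : ℝ) + 1 + 1) - 4) / 4 * ((n.factorial : ℝ) / 8) := by
          apply mul_le_mul_of_nonneg_left h1.2
          linarith
        nlinarith [mul_nonneg hn hf.le]

/-- the normalised moments of the area of the Brownian excursion -/
def airy : ℕ → ℝ
  | 0 => 1
  | k + 1 => 4 * 2 ^ (k + 1) * (k + 1).factorial * Kt (k + 1) /
      (√Real.pi ^ k * Real.Gamma ((3 * ((k : ℝ) + 1) - 1) / 2))

lemma R2_gamma (k : ℕ) (hk : 1 ≤ k) :
    ((k + k / 2 : ℕ).factorial : ℝ) ≤ Real.Gamma ((3 * ((k : ℝ) + 1) - 1) / 2) := by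
  rw [← Real.Gamma_nat_eq_factorial]
  have h1 : (((k / 2 : ℕ)) : ℝ) ≤ (k : ℝ) / 2 := by
    have := @Nat.cast_div_le ℝ _ _ _ k 2
    simpa using this
  have hk' : (1 : ℝ) ≤ k := by exact_mod_cast hk
  have h0 : (0 : ℝ) ≤ ((k / 2 : ℕ) : ℝ) := Nat.cast_nonneg _
  apply Real.Gamma_strictMonoOn_Ici.monotoneOn
  · rw [Set.mem_Ici]
    push_cast
    linarith
  · rw [Set.mem_Ici]
    linarith
  · push_cast
    linarith

lemma R2_bound (t : ℝ) (k : ℕ) (hk : 1 ≤ k) :
    |t ^ (k + 1) * airy (k + 1) / (k + 1).factorial| ≤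
      (max 1 |2 * t|) ^ 2 * (((max 1 |2 * t|) ^ 2) ^ (k / 2) / (k / 2).factorial) := by
  have hC : 1 ≤ max 1 |2 * t| := le_max_left _ _
  have hC2 : |2 * t| ≤ max 1 |2 * t| := le_max_right _ _
  generalize max 1 |2 * t| = C at *
  have hG := R2_gamma k hk
  have hK := Kt_bd k
  have hf : (0 : ℝ) < ((k + 1).factorial : ℝ) := by exact_mod_cast Nat.factorial_pos _
  have hfk : (0 : ℝ) < (k.factorial : ℝ) := by exact_mod_cast Nat.factorial_pos _
  have hf2 : (0 : ℝ) < ((k / 2).factorial : ℝ) := by exact_mod_cast Nat.factorial_pos _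
  have hq : (0 : ℝ) < ((k + k / 2 : ℕ).factorial : ℝ) := by exact_mod_cast Nat.factorial_pos _
  have hGpos : 0 < Real.Gamma ((3 * ((k : ℝ) + 1) - 1) / 2) := hq.trans_le hG
  have hpi : 1 ≤ √Real.pi ^ k := by
    apply one_le_pow₀
    rw [show (1 : ℝ) = √1 by simp]
    apply Real.sqrt_le_sqrt
    linarith [Real.pi_gt_three]
  have e : t ^ (k + 1) * airy (k + 1) / (k + 1).factorial =
      4 * (2 * t) ^ (k + 1) * (Kt (k + 1) / (√Real.pi ^ k * Real.Gamma ((3 * ((k : ℝ) + 1) - 1) / 2))) := by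
    rw [airy, mul_pow]
    field_simp
  have h1 : Kt (k + 1) / (√Real.pi ^ k * Real.Gamma ((3 * ((k : ℝ) + 1) - 1) / 2)) ≤
      1 / (8 * ((k / 2).factorial : ℝ)) := by
    have h2 : (k.factorial : ℝ) * ((k / 2).factorial : ℝ) ≤ ((k + k / 2 : ℕ).factorial : ℝ) := by
      have := Nat.le_of_dvd (Nat.factorial_pos (k + k / 2))
        (Nat.factorial_mul_factorial_dvd_factorial_add k (k / 2))
      exact_mod_cast this
    have h3 : (k.factorial : ℝ) * ((k / 2).factorial : ℝ) ≤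
        √Real.pi ^ k * Real.Gamma ((3 * ((k : ℝ) + 1) - 1) / 2) := by
      calc (k.factorial : ℝ) * ((k / 2).factorial : ℝ) ≤ Real.Gamma ((3 * ((k : ℝ) + 1) - 1) / 2) := h2.trans hG
        _ = 1 * Real.Gamma ((3 * ((k : ℝ) + 1) - 1) / 2) := (one_mul _).symm
        _ ≤ _ := mul_le_mul_of_nonneg_right hpi hGpos.le
    rw [div_le_div_iff₀ (by positivity) (by positivity)]
    calc Kt (k + 1) * (8 * ((k / 2).factorial : ℝ)) ≤ (k.factorial : ℝ) / 8 * (8 * ((k / 2).factorial : ℝ)) :=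
          mul_le_mul_of_nonneg_right hK.2 (by positivity)
      _ = (k.factorial : ℝ) * ((k / 2).factorial : ℝ) := by ring
      _ ≤ _ := by rw [one_mul]; exact h3
  have h0 : 0 ≤ Kt (k + 1) / (√Real.pi ^ k * Real.Gamma ((3 * ((k : ℝ) + 1) - 1) / 2)) :=
    div_nonneg hK.1.le (by positivity)
  have h4 : |2 * t| ^ (k + 1) ≤ C ^ (2 * (k / 2) + 2) :=
    calc |2 * t| ^ (k + 1) ≤ C ^ (k + 1) := pow_le_pow_left₀ (abs_nonneg _) hC2 _
      _ ≤ C ^ (2 * (k / 2) + 2) := pow_le_pow_right₀ hC (by omega)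
  rw [e, abs_mul, abs_mul, abs_of_nonneg h0, abs_pow, abs_of_pos (by norm_num : (0 : ℝ) < 4)]
  calc 4 * |2 * t| ^ (k + 1) * (Kt (k + 1) / (√Real.pi ^ k * Real.Gamma ((3 * ((k : ℝ) + 1) - 1) / 2)))
      ≤ 4 * C ^ (2 * (k / 2) + 2) * (1 / (8 * ((k / 2).factorial : ℝ))) := by
        apply mul_le_mul _ h1 h0 (by positivity)
        linarith
    _ = (1 / 2) * (C ^ 2 * ((C ^ 2) ^ (k / 2) / (k / 2).factorial)) := by
        rw [pow_add, pow_mul]
        field_simp
        ring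
    _ ≤ C ^ 2 * ((C ^ 2) ^ (k / 2) / (k / 2).factorial) := by
        have : 0 ≤ C ^ 2 * ((C ^ 2) ^ (k / 2) / ((k / 2).factorial : ℝ)) := by positivity
        linarith

/-- **Task R2** (continued): Γ((3k-1)/2) ≥ k!·(something superexponential): e.g. Γ((3k-1)/2)² ≥ ... or
Γ(3k/2 - 1/2) ≥ Γ(k+1)·(k/2)^{..}; any argument -/
theorem airy_growth (t : ℝ) : Tendsto (fun k : ℕ => t ^ k * airy k / k.factorial) atTop (𝓝 0) := by
  rw [← tendsto_add_atTop_iff_nat 1]
  have hdiv : Tendsto (fun k : ℕ => k / 2) atTop atTop := by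
    refine tendsto_atTop.2 fun b => ?_
    filter_upwards [eventually_ge_atTop (2 * b)] with k hk
    omega
  have h1 : Tendsto (fun k : ℕ => (max 1 |2 * t|) ^ 2 *
      (((max 1 |2 * t|) ^ 2) ^ (k / 2) / (k / 2).factorial)) atTop (𝓝 ((max 1 |2 * t|) ^ 2 * 0)) :=
    ((FloorSemiring.tendsto_pow_div_factorial_atTop ((max 1 |2 * t|) ^ 2)).comp hdiv).const_mul _
  rw [mul_zero] at h1
  refine squeeze_zero_norm' ?_ h1
  filter_upwards [eventually_ge_atTop 1] with k hk
  rw [Real.norm_eq_abs]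
  exact R2_bound t k hk

end
end KN.SQ
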