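import Pool.Agent.H132.SQ.GR1

/-!
# The method of moments for finite families
-/

set_option autoImplicit false

namespace KN.SQ
open Finset Filter Topology MeasureTheory
noncomputable section
theorem R3_measure (ι : Type) [Fintype ι] (w x : ι → ℝ) (hw : ∀ i, 0 ≤ w i) (hx : ∀ i, 0 ≤ x i) :
    ∃ P : ProbabilityMeasure ℝ, (∀ f : ℝ → ℝ, Integrable f (P : Measure ℝ)) ∧
      (P : Measure ℝ) (Set.Iio 0) = 0 ∧
      (0 < ∑ i, w i → ∀ f : ℝ → ℝ, ∫ y, f y ∂(P : Measure ℝ) = (∑ i, f (x i) * w i) / ∑ i, w i) := by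
  classical
  by_cases hZ : 0 < ∑ i, w i
  · have hint : ∀ (f : ℝ → ℝ) (i : ι),
        Integrable f (ENNReal.ofReal (w i / ∑ i, w i) • Measure.dirac (x i)) := by
      intro f i
      exact (integrable_dirac (by simp)).smul_measure ENNReal.ofReal_ne_top
    have hprob : IsProbabilityMeasure
        (∑ i, ENNReal.ofReal (w i / ∑ i, w i) • Measure.dirac (x i) : Measure ℝ) := by
      constructor
      rw [Measure.finsetSum_apply]
      simp only [Measure.smul_apply, measure_univ, smul_eq_mul, mul_one]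
      rw [← ENNReal.ofReal_sum_of_nonneg fun i _ => div_nonneg (hw i) hZ.le, ← Finset.sum_div,
        div_self hZ.ne', ENNReal.ofReal_one]
    refine ⟨⟨_, hprob⟩, fun f => ?_, ?_, fun _ f => ?_⟩
    · exact integrable_finsetSum_measure.2 fun i _ => hint f i
    · change (∑ i, ENNReal.ofReal (w i / ∑ i, w i) • Measure.dirac (x i) : Measure ℝ) (Set.Iio 0) = 0
      rw [Measure.finsetSum_apply]
      refine Finset.sum_eq_zero fun i _ => ?_
      rw [Measure.smul_apply, Measure.dirac_apply' _ measurableSet_Iio, Set.indicator_of_notMem, smul_zero]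
      simpa using hx i
    · change ∫ y, f y ∂(∑ i, ENNReal.ofReal (w i / ∑ i, w i) • Measure.dirac (x i) : Measure ℝ) = _
      rw [integral_finsetSum_measure fun i _ => hint f i, Finset.sum_div]
      refine Finset.sum_congr rfl fun i _ => ?_
      rw [integral_smul_measure, integral_dirac, ENNReal.toReal_ofReal (div_nonneg (hw i) hZ.le), smul_eq_mul]
      ring
  · refine ⟨⟨Measure.dirac 0, inferInstance⟩, fun f => ?_, ?_, fun h => absurd h hZ⟩
    · exact integrable_dirac (by simp)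
    · change Measure.dirac (0 : ℝ) (Set.Iio 0) = 0
      rw [Measure.dirac_apply' _ measurableSet_Iio]
      simp

/-- **Task R3**: μ_n = ∑ (w/Z) dirac (x n i) (dirac 0 if Z = 0), ProbabilityMeasure.tendsto_iff_forall_integral_tendsto
with BoundedContinuousFunction.ofNormedAddCommGroup or mkOfBound. -/
theorem family_law (ι : ℕ → Type) [∀ n, Fintype (ι n)] (w x : ∀ n, ι n → ℝ)
    (hw : ∀ n i, 0 ≤ w n i) (hx : ∀ n i, 0 ≤ x n i)
    (hZ : ∀ᶠ n in atTop, 0 < ∑ i, w n i) (m : ℕ → ℝ)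
    (hm : ∀ k, Tendsto (fun n => (∑ i, x n i ^ k * w n i) / ∑ i, w n i) atTop (𝓝 (m k)))
    (hg : ∀ t : ℝ, Tendsto (fun k : ℕ => t ^ k * m k / k.factorial) atTop (𝓝 0)) :
    ∃ ν : ProbabilityMeasure ℝ, (ν : Measure ℝ) (Set.Iio 0) = 0 ∧
      (∀ k, Integrable (fun x : ℝ => x ^ k) (ν : Measure ℝ) ∧ ∫ x, x ^ k ∂(ν : Measure ℝ) = m k) ∧
      ∀ g : ℝ → ℝ, Continuous g → (∃ C : ℝ, ∀ x, |g x| ≤ C) →
        Tendsto (fun n => (∑ i, g (x n i) * w n i) / ∑ i, w n i) atTop
          (𝓝 (∫ x, g x ∂(ν : Measure ℝ))) := by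
  choose P hP1 hP2 hP3 using fun n => R3_measure (ι n) (w n) (x n) (hw n) (hx n)
  obtain ⟨ν, hν, hν0, hνm⟩ := method_of_moments P m (fun n k => hP1 n _) hP2
    (fun k => (hm k).congr' (by
      filter_upwards [hZ] with n hn
      exact (hP3 n hn fun y => y ^ k).symm)) hg
  refine ⟨ν, hν0, hνm, fun g hgc ⟨C, hC⟩ => ?_⟩
  have h1 := ProbabilityMeasure.tendsto_iff_forall_integral_tendsto.1 hν
    (BoundedContinuousFunction.ofNormedAddCommGroup g hgc C hC)
  refine h1.congr' ?_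
  filter_upwards [hZ] with n hn
  exact hP3 n hn g

end
end KN.SQ
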