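import Pool.Agent.H132.TB.Cnt
import Pool.Agent.H132.SQ.Co2

/-!
# The blocks of planar polygons as a model
-/

set_option autoImplicit false

namespace KN.SQ

open KN KN.ST Finset Filter Topology
open scoped Classical ENNReal

noncomputable section

/-- planar words -/
def Pl (w : List Dir) : Prop := ∀ a ∈ w, a ≠ .zp ∧ a ≠ .zm

theorem Pl.z {w : List Dir} (h : Pl w) : (pos w).2.2 = 0 := by
  induction w with
  | nil => rfl
  | cons a w ih =>
    have h1 := ih (fun b hb => h b (List.mem_cons_of_mem _ hb))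
    have h2 := h a List.mem_cons_self
    have h3 : (vec a).2.2 = 0 := by cases a <;> simp [vec] at h2 ⊢
    simp only [pos, Prod.snd_add, h1, h3, add_zero]

theorem pl_nil : Pl [] := fun a h => by simp at h

theorem pl_append {u v : List Dir} : Pl (u ++ v) ↔ Pl u ∧ Pl v := by
  unfold Pl
  simp only [List.mem_append]
  exact ⟨fun h => ⟨fun a ha => h a (Or.inl ha), fun a ha => h a (Or.inr ha)⟩,
    fun h a ha => ha.elim (h.1 a) (h.2 a)⟩

theorem pl_cons {a : Dir} {v : List Dir} : Pl (a :: v) ↔ (a ≠ .zp ∧ a ≠ .zm) ∧ Pl v := by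
  unfold Pl
  simp only [List.forall_mem_cons]

theorem pl_rm {w : List Dir} (h : Pl w) : Pl (rm w) := by
  intro a ha
  unfold rm back at ha
  simp only [List.map_reverse, List.mem_reverse, List.mem_map] at ha
  obtain ⟨b, ⟨c, hc, rfl⟩, rfl⟩ := ha
  have := h c hc
  cases c <;> simp [neg, mx] at this ⊢

theorem pl_rotate {w : List Dir} {k : ℕ} : Pl (w.rotate k) ↔ Pl w := by
  unfold Pl
  simp only [List.mem_rotate]

/-- planar blocks -/
def PB (b : Blk) : Prop := Pl b.1 ∧ Pl b.2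

theorem PB.sb {b : Blk} (h : PB b) : PB (sb b) := ⟨pl_rm h.1, pl_rm h.2⟩

/-- the nontrivial planar irreducible blocks -/
def QB (b : Blk) : Prop := Fr b ∧ Irr b ∧ PB b ∧ b ≠ S0

theorem fr_sb {b : Blk} (hb : Fr b) : Fr (sb b) := by
  have h1 := pc_of_far (D := (0, ((bl b + 1 : ℕ) : ℤ), 0)) hb rfl (by
    unfold nl; simp only [Int.natAbs_natCast]; omega)
  exact h1.sb.fr

theorem QB.sb {b : Blk} (h : QB b) : QB (sb b) := by
  refine ⟨fr_sb h.1, irr_sb h.1 h.2.1, h.2.2.1.sb, ?_⟩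
  intro h0
  apply h.2.2.2
  have h1 := congrArg KN.ST.sb h0
  rw [sb_sb] at h1
  rw [h1]
  rfl

/-- the point -/
def pt (d : ℤ) : Z3 := (0, d, 0)

theorem pt_ne {d : ℤ} : pt d ≠ 0 ↔ d ≠ 0 := by
  unfold pt
  simp

theorem dv_pt {b : Blk} (h : Fr b) (hp : PB b) : dv b = pt (dv b).2.1 := by
  have h1 := dv_x h
  have h2 : (dv b).2.2 = 0 := by
    unfold dv
    simp only [Prod.snd_add, hp.1.z, hp.2.z, add_zero]
  exact Prod.ext h1 (Prod.ext rfl h2)

theorem nxt_pt {b : Blk} (h : Fr b) (hp : PB b) (d : ℤ) :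
    nxt (pt d) b = pt (d - (dv b).2.1) := by
  rw [nxt_dv, dv_pt h hp]
  unfold pt
  ext <;> simp

theorem nl_pt (d : ℤ) : nl (pt d) = d.natAbs := by unfold nl pt; simp

theorem dv_sb {b : Blk} (hb : Fr b) (hp : PB b) : (dv (sb b)).2.1 = - (dv b).2.1 := by
  have h1 := nxt_sb (D := pt 0) hb rfl
  rw [nxt_pt hb hp, nxt_pt (fr_sb hb) hp.sb] at h1
  have h2 := congrArg (fun p : Z3 => p.2.1) h1
  simp only [pt] at h2
  omega

theorem dv_le {b : Blk} (h : Fr b) (hI : Irr b) : |(dv b).2.1| ≤ (bl b : ℤ) := by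
  have h1 := irr4' h hI
  unfold nl at h1
  rw [Int.abs_eq_natAbs]
  exact_mod_cast (by omega : (dv b).2.1.natAbs ≤ bl b)

theorem bl_pos {b : Blk} (h : b ≠ S0) : 1 ≤ bl b := by
  by_contra hn
  apply h
  unfold bl at hn
  have h1 : b.1 = [] := List.length_eq_zero_iff.1 (by omega)
  have h2 : b.2 = [] := List.length_eq_zero_iff.1 (by omega)
  exact Prod.ext h1 h2

theorem pc_one2 {a : Dir} {D D' : Z3} (hD : D ≠ 0) (hD' : D' ≠ 0)
    (h0 : D.1 = 0) (h1 : D'.1 = 0) (h : vec a + D' = D) : Pc D D' ([], [a]) := by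
  have hv : vec a ≠ 0 := vec_ne a
  have e : pv (([], [a]) : Blk) D' = [D, D', 0] := by
    unfold pv sh
    simp [path, pos, h]
  refine ⟨?_, ?_, ?_, h1, h0⟩
  · rw [e]
    have h2 : D ≠ D' := by
      intro h3
      rw [h3] at h
      exact hv (by simpa using h)
    simp [hD, hD', h2]
  · rw [e]
    intro p hp
    simp only [List.mem_cons, List.not_mem_nil, or_false] at hp
    simp only [pos, Prod.fst_zero]
    rcases hp with rfl | rfl | rfl
    · omega
    · omega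
    · simp
  · simp only [pos, zero_add]
    exact h

theorem pc_one1 {a : Dir} (ha : (vec a).1 = 0) {D D' : Z3} (hD : D ≠ 0) (hD' : D' ≠ 0)
    (h0 : D.1 = 0) (h1 : D'.1 = 0) (h : vec a + D' = D) : Pc D D' ([a], []) := by
  have hv : vec a ≠ 0 := vec_ne a
  have e : pv (([a], []) : Blk) D' = [D, vec a, 0] := by
    unfold pv sh
    simp [path, pos, h]
  refine ⟨?_, ?_, ?_, h1, h0⟩
  · rw [e]
    have h2 : D ≠ vec a := by
      intro h3
      rw [h3] at h
      exact hD' (by simpa using h)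
    simp [hD, hv, h2]
  · rw [e]
    intro p hp
    simp only [List.mem_cons, List.not_mem_nil, or_false] at hp
    simp only [pos, zero_add, ha]
    rcases hp with rfl | rfl | rfl
    · omega
    · rw [ha]; simp
    · simp
  · simp only [pos, zero_add]
    exact h

theorem one_cases {b : Blk} (hb : Fr b) (h : bl b = 1) :
    (∃ a, (vec a).1 = 0 ∧ b = ([], [a])) ∨ ∃ a, (vec a).1 = 0 ∧ b = ([a], []) := by
  obtain ⟨u, v⟩ := b
  have h1' : u.length + v.length = 1 := h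
  have e := hb.e
  simp only at e
  match u, v, h1', e with
  | [], [a], _, e =>
    left
    refine ⟨a, ?_, rfl⟩
    simpa [pos] using e
  | [a], [], _, e =>
    right
    refine ⟨a, ?_, rfl⟩
    simpa [pos] using e.symm
  | _ :: _ :: _, _, h1', _ => simp at h1'; omega
  | [], _ :: _ :: _, h1', _ => simp at h1'
  | [_], _ :: _, h1', _ => simp at h1'
  | [], [], h1', _ => simp at h1'

theorem pc_of_one {b : Blk} (h : QB b) (hL : bl b = 1) {d : ℤ} (hd : d ≠ 0)
    (hd' : d - (dv b).2.1 ≠ 0) : Pc (pt d) (nxt (pt d) b) b := by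
  obtain ⟨h1, h2, h3, h4⟩ := h
  rw [nxt_pt h1 h3]
  rcases one_cases h1 hL with ⟨a, ha', rfl⟩ | ⟨a, ha', rfl⟩
  · have e : vec a = pt (dv (([], [a]) : Blk)).2.1 := by
      have := dv_pt h1 h3
      rw [← this]
      simp [dv, pos]
    refine pc_one2 (pt_ne.2 hd) (pt_ne.2 hd') rfl rfl ?_
    rw [e]
    unfold pt
    ext <;> simp
  · have e : vec a = pt (dv (([a], []) : Blk)).2.1 := by
      have := dv_pt h1 h3
      rw [← this]
      simp [dv, pos]
    refine pc_one1 ha' (pt_ne.2 hd) (pt_ne.2 hd') rfl rfl ?_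
    rw [e]
    unfold pt
    ext <;> simp

/-! ### weights -/

theorem blk12 : Summable (fun b : Blk => (1 / 12 : ℝ) ^ bl b) ∧
    ∑' b : Blk, (1 / 12 : ℝ) ^ bl b ≤ 4 := by
  have h1 := tsum_blk12
  have e : ∀ b : Blk, ENNReal.toReal ((12 : ℝ≥0∞)⁻¹ ^ bl b) = (1 / 12 : ℝ) ^ bl b := by
    intro b
    rw [ENNReal.toReal_pow, ENNReal.toReal_inv]
    norm_num
  have hne : ∑' b : Blk, (12 : ℝ≥0∞)⁻¹ ^ bl b ≠ ⊤ := ne_top_of_le_ne_top (by simp) h1
  have h2 := ENNReal.summable_toReal hne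
  simp only [e] at h2
  refine ⟨h2, ?_⟩
  have h3 : ∑' b : Blk, (1 / 12 : ℝ) ^ bl b = ENNReal.toReal (∑' b : Blk, (12 : ℝ≥0∞)⁻¹ ^ bl b) := by
    rw [ENNReal.tsum_toReal_eq (fun b => ENNReal.ne_top_of_tsum_ne_top hne b)]
    exact tsum_congr fun b => (e b).symm
  rw [h3]
  have := ENNReal.toReal_mono (by simp) h1
  simpa using this

/-- the admissible parameters -/
def Wok (s : ℝ) : Prop := 0 < s ∧ s ≤ 1 / 10 ^ 12

theorem wt1 {s : ℝ} (hs : Wok s) {b : Blk} (h : QB b) :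
    s ^ (4 * bl b - 8 * wd b) * 16 ^ bl b ≤ 1 / 10 ^ 8 * (1 / 12) ^ bl b := by
  obtain ⟨h0, h1⟩ := hs
  have hb := bl_pos h.2.2.2
  have h4 := irr4' h.1 h.2.1
  have hs1 : s ≤ 1 := h1.trans (by norm_num)
  have e1 : s ^ (4 * bl b - 8 * wd b) ≤ s ^ (bl b) := pow_le_pow_of_le_one h0.le hs1 (by omega)
  calc s ^ (4 * bl b - 8 * wd b) * 16 ^ bl b ≤ s ^ bl b * 16 ^ bl b :=
        mul_le_mul_of_nonneg_right e1 (by positivity)
    _ = (192 * s) ^ bl b * (1 / 12) ^ bl b := by rw [← mul_pow, ← mul_pow]; congr 1; ring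
    _ ≤ (1 / 10 ^ 8) * (1 / 12) ^ bl b := by
        refine mul_le_mul_of_nonneg_right ?_ (by positivity)
        calc (192 * s) ^ bl b ≤ (192 * s) ^ 1 :=
              pow_le_pow_of_le_one (by positivity) (by norm_num at h1 ⊢; linarith) hb
          _ ≤ _ := by rw [pow_one]; norm_num at h1 ⊢; linarith

theorem wt2 {s : ℝ} (hs : Wok s) {b : Blk} (h : QB b) (hb : 2 ≤ bl b) :
    s ^ (4 * bl b - 8 * wd b) * 16 ^ bl b ≤ s ^ 4 / 10 ^ 8 * (1 / 12) ^ bl b := by
  obtain ⟨h0, h1⟩ := hs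
  have h4 := irr4' h.1 h.2.1
  have hs1 : s ≤ 1 := h1.trans (by norm_num)
  have e1 : s ^ (4 * bl b - 8 * wd b) ≤ s ^ (4 + bl b) :=
    pow_le_pow_of_le_one h0.le hs1 (by omega)
  calc s ^ (4 * bl b - 8 * wd b) * 16 ^ bl b ≤ s ^ (4 + bl b) * 16 ^ bl b :=
        mul_le_mul_of_nonneg_right e1 (by positivity)
    _ = s ^ 4 * ((192 * s) ^ bl b * (1 / 12) ^ bl b) := by
        rw [pow_add, mul_assoc, ← mul_pow, ← mul_pow]; congr 2; ring
    _ ≤ s ^ 4 * ((1 / 10 ^ 8) * (1 / 12) ^ bl b) := by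
        refine mul_le_mul_of_nonneg_left (mul_le_mul_of_nonneg_right ?_ (by positivity))
          (by positivity)
        calc (192 * s) ^ bl b ≤ (192 * s) ^ 1 :=
              pow_le_pow_of_le_one (by positivity) (by norm_num at h1 ⊢; linarith) (by omega)
          _ ≤ _ := by rw [pow_one]; norm_num at h1 ⊢; linarith
    _ = _ := by ring

theorem sub12 : Summable (fun b : {b : Blk // QB b} => (1 / 12 : ℝ) ^ bl b.1) ∧
    ∑' b : {b : Blk // QB b}, (1 / 12 : ℝ) ^ bl b.1 ≤ 4 := by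
  refine ⟨blk12.1.subtype _, ?_⟩
  refine le_trans ?_ blk12.2
  exact Summable.tsum_subtype_le (fun b : Blk => (1 / 12 : ℝ) ^ bl b) {b | QB b}
    (fun b => by positivity) blk12.1

/-- the blocks of planar polygons -/
def MM (s : ℝ) (hs : Wok s) : Mdl where
  ι := {b : Blk // QB b}
  c b := s ^ (4 * bl b.1 - 8 * wd b.1)
  L b := bl b.1
  v b := (dv b.1).2.1
  P b d := Pc (pt d) (nxt (pt d) b.1) b.1
  σ b := ⟨sb b.1, b.2.sb⟩
  bp := ⟨([], [.yp]), by
    refine ⟨⟨?_, ?_, ?_, ?_, ?_⟩, ?_, ⟨pl_nil, ?_⟩, ?_⟩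
    · simp [path]
    · simp [path, pos, vec]
    · simp [path, pos]
    · simp [path, pos, vec]
    · simp [pos, vec]
    · intro c h0 h1
      simp [pos] at h1
      omega
    · intro a ha
      simp at ha
      subst ha
      simp
    · simp [S0]⟩
  a := s ^ 4
  c0 b := pow_nonneg hs.1.le _
  σσ b := Subtype.ext (sb_sb b.1)
  cσ b := by simp only [bl_sb, wd_sb]
  Lσ b := bl_sb b.1
  vσ b := dv_sb b.2.1 b.2.2.2.1
  Pσ b d h := by
    have h1 := h.sb
    have h2 : nxt (pt d) b.1 = pt (d - (dv b.1).2.1) := nxt_pt b.2.1 b.2.2.2.1 d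
    have h3 : nxt (pt (d - (dv b.1).2.1)) (sb b.1) = pt d := by
      rw [← h2]
      exact nxt_sb b.2.1 rfl
    rw [h2] at h1
    rw [h3]
    exact h1
  P0 b h := h.ne.1 rfl
  far b d h := by
    refine pc_of_far b.2.1 rfl ?_
    rw [nl_pt]
    rw [Int.abs_eq_natAbs] at h
    exact_mod_cast h
  vL b := dv_le b.2.1 b.2.2.1
  L1 b := bl_pos b.2.2.2.2
  a0 := pow_pos hs.1 _
  cbp := by simp [bl, wd, pos]
  Lbp := by simp [bl]
  vbp := by simp [dv, pos, vec]
  one b d hL hd hd' := pc_of_one b.2 hL hd hd'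
  sm := by
    refine Summable.of_nonneg_of_le (fun b => mul_nonneg (pow_nonneg hs.1.le _) (by positivity))
      (fun b => wt1 hs b.2) (sub12.1.mul_left _)
  s1 := by
    have h1 : Summable fun b : {b : Blk // QB b} => s ^ (4 * bl b.1 - 8 * wd b.1) * 16 ^ bl b.1 :=
      Summable.of_nonneg_of_le (fun b => mul_nonneg (pow_nonneg hs.1.le _) (by positivity))
        (fun b => wt1 hs b.2) (sub12.1.mul_left _)
    refine (h1.tsum_le_tsum (fun b => wt1 hs b.2) (sub12.1.mul_left _)).trans ?_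
    rw [tsum_mul_left]
    have := mul_le_mul_of_nonneg_left sub12.2 (show (0 : ℝ) ≤ 1 / 10 ^ 8 by norm_num)
    refine this.trans ?_
    norm_num
  s2 := by
    have h0 : ∀ b : {b : Blk // QB b},
        (if 2 ≤ bl b.1 then s ^ (4 * bl b.1 - 8 * wd b.1) * 16 ^ bl b.1 else 0) ≤
        s ^ 4 / 10 ^ 8 * (1 / 12) ^ bl b.1 := by
      intro b
      have := hs.1
      split_ifs with h
      · exact wt2 hs b.2 h
      · positivity
    have h1 : Summable fun b : {b : Blk // QB b} =>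
        (if 2 ≤ bl b.1 then s ^ (4 * bl b.1 - 8 * wd b.1) * 16 ^ bl b.1 else 0) := by
      refine Summable.of_nonneg_of_le (fun b => ?_) h0 (sub12.1.mul_left _)
      have := hs.1
      split_ifs <;> positivity
    refine (h1.tsum_le_tsum h0 (sub12.1.mul_left _)).trans ?_
    rw [tsum_mul_left]
    have h4 : 0 < s ^ 4 := pow_pos hs.1 4
    have := mul_le_mul_of_nonneg_left sub12.2 (show (0 : ℝ) ≤ s ^ 4 / 10 ^ 8 by positivity)
    refine this.trans ?_
    have e : s ^ 4 / 10 ^ 8 * 4 = s ^ 4 / 10 ^ 6 * (4 / 100) := by ring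
    rw [e]
    have h5 : 0 < s ^ 4 / 10 ^ 6 := by positivity
    linarith

end

end KN.SQ
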