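import Pool.Agent.H132.SQ.Cs3

/-!
# The rate of decay
-/

set_option autoImplicit false

namespace KN.SQ

open Finset Filter Topology
open scoped Classical ENNReal ComplexConjugate

noncomputable section

namespace Mdl

variable (M : Mdl)

theorem sq_le16 (L : ℕ) : (L : ℝ) ^ 2 ≤ 16 ^ L := by
  have h3 : L < 2 ^ L := Nat.lt_two_pow_self
  have h4 : (L : ℝ) ≤ 2 ^ L := by exact_mod_cast h3.le
  have h5 : (L : ℝ) ^ 2 ≤ (2 ^ L) ^ 2 := pow_le_pow_left₀ (Nat.cast_nonneg _) h4 2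
  refine h5.trans ?_
  rw [← pow_mul, mul_comm, pow_mul]
  exact pow_le_pow_left₀ (by norm_num) (by norm_num) _

theorem v_abs_le (b : M.ι) : |(M.v b : ℝ)| ≤ M.L b := by
  have := M.vL b
  exact_mod_cast this

theorem v_sq_le (b : M.ι) : (M.v b : ℝ) ^ 2 ≤ 16 ^ M.L b := by
  refine le_trans ?_ (sq_le16 _)
  rw [← sq_abs]
  exact pow_le_pow_left₀ (abs_nonneg _) (M.v_abs_le b) 2

/-- the variance -/
def sg : ℝ := ∑' b, M.W b * (M.v b : ℝ) ^ 2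

theorem sg_term_le (b : M.ι) : M.W b * (M.v b : ℝ) ^ 2 ≤ M.c b * 16 ^ M.L b :=
  mul_le_mul (M.W_le b) (M.v_sq_le b) (sq_nonneg _) (M.c0 b)

theorem sg_summable : Summable fun b => M.W b * (M.v b : ℝ) ^ 2 :=
  (M.smp _ M.sg_term_le fun b => mul_nonneg (M.W_nonneg b) (sq_nonneg _)).1

theorem sg_le : M.sg ≤ 1 / 10 ^ 6 :=
  (M.smp _ M.sg_term_le fun b => mul_nonneg (M.W_nonneg b) (sq_nonneg _)).2

theorem sg_pos : 0 < M.sg := by
  refine M.sg_summable.tsum_pos (fun b => mul_nonneg (M.W_nonneg b) (sq_nonneg _)) M.bp ?_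
  rw [M.vbp]
  unfold W
  rw [M.cbp]
  have := M.a0
  have := M.qc_pos
  positivity

/-- the derivative of the generating function at the critical value -/
def mp : ℝ := 2 * M.qc + ∑' b, M.c b * (((M.L b + 2 : ℕ) : ℝ) * M.qc ^ (M.L b + 1))

theorem mp_term_le (b : M.ι) :
    M.c b * (((M.L b + 2 : ℕ) : ℝ) * M.qc ^ (M.L b + 1)) ≤ M.c b * 16 ^ M.L b := by
  refine mul_le_mul_of_nonneg_left ?_ (M.c0 b)
  refine le_trans ?_ (pow16 (M.L1 b))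
  refine mul_le_mul_of_nonneg_left ?_ (Nat.cast_nonneg _)
  refine (pow_le_one₀ M.qc_pos.le M.qc_lt.le).trans (one_le_pow₀ (by norm_num))

theorem mp_term_nonneg (b : M.ι) :
    0 ≤ M.c b * (((M.L b + 2 : ℕ) : ℝ) * M.qc ^ (M.L b + 1)) :=
  mul_nonneg (M.c0 b) (mul_nonneg (Nat.cast_nonneg _) (pow_nonneg M.qc_pos.le _))

theorem mp_summable : Summable fun b => M.c b * (((M.L b + 2 : ℕ) : ℝ) * M.qc ^ (M.L b + 1)) :=
  (M.smp _ M.mp_term_le M.mp_term_nonneg).1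

theorem mp_ge : 2 * M.qc ≤ M.mp := by
  unfold mp
  have : 0 ≤ ∑' b, M.c b * (((M.L b + 2 : ℕ) : ℝ) * M.qc ^ (M.L b + 1)) :=
    tsum_nonneg M.mp_term_nonneg
  linarith

theorem mp_le : M.mp ≤ 3 := by
  unfold mp
  have := (M.smp _ M.mp_term_le M.mp_term_nonneg).2
  have := M.qc_lt
  norm_num at *
  linarith

theorem mp_pos : 0 < M.mp := by
  have := M.mp_ge
  have := M.qc_pos
  linarith

/-- the ratio -/
def gam : ℝ := M.mp / (M.qc * M.sg)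

theorem gam_pos : 0 < M.gam := div_pos M.mp_pos (mul_pos M.qc_pos M.sg_pos)

theorem gam_ge : 2 * 10 ^ 6 ≤ M.gam := by
  unfold gam
  rw [le_div_iff₀ (mul_pos M.qc_pos M.sg_pos)]
  have h1 := M.mp_ge
  have h2 := M.sg_le
  have h3 := M.qc_pos
  have h4 : M.qc * M.sg ≤ M.qc * (1 / 10 ^ 6) := mul_le_mul_of_nonneg_left h2 h3.le
  norm_num at *
  linarith

/-- the rate of decay of the solution -/
def kap (q : ℂ) : ℂ := ((√M.gam * M.qc : ℝ) : ℂ) * (1 - (q / M.qc) ^ 2) ^ (2 : ℂ)⁻¹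

theorem kap_sq (q : ℂ) : M.kap q ^ 2 = M.gam * ((M.qc : ℂ) ^ 2 - q ^ 2) := by
  unfold kap
  have hq : (M.qc : ℂ) ≠ 0 := by exact_mod_cast M.qc_pos.ne'
  have h1 : ((1 - (q / M.qc) ^ 2 : ℂ) ^ (2 : ℂ)⁻¹) ^ 2 = 1 - (q / M.qc) ^ 2 := by
    have := Complex.cpow_nat_inv_pow (1 - (q / M.qc) ^ 2 : ℂ) (two_ne_zero)
    exact_mod_cast this
  rw [mul_pow, h1]
  have h2 : (((√M.gam * M.qc : ℝ) : ℂ)) ^ 2 = (M.gam : ℂ) * (M.qc : ℂ) ^ 2 := by
    rw [← Complex.ofReal_pow, mul_pow, Real.sq_sqrt M.gam_pos.le]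
    push_cast; ring
  rw [h2]
  field_simp

theorem cpow_re_nonneg (z : ℂ) : 0 ≤ (z ^ (2 : ℂ)⁻¹).re := by
  by_cases hz : z = 0
  · subst hz
    rw [Complex.zero_cpow (by norm_num)]
    simp
  · rw [Complex.cpow_def_of_ne_zero hz, Complex.exp_re]
    refine mul_nonneg (Real.exp_pos _).le (Real.cos_nonneg_of_mem_Icc ?_)
    have e : (Complex.log z * (2 : ℂ)⁻¹).im = z.arg / 2 := by
      have : (2 : ℂ)⁻¹ = ((2⁻¹ : ℝ) : ℂ) := by push_cast; rfl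
      rw [this, Complex.im_mul_ofReal, Complex.log_im]
      ring
    rw [e]
    have h1 := Complex.neg_pi_lt_arg z
    have h2 := Complex.arg_le_pi z
    constructor <;> linarith

theorem kap_re_nonneg (q : ℂ) : 0 ≤ (M.kap q).re := by
  unfold kap
  rw [Complex.re_ofReal_mul]
  exact mul_nonneg (mul_nonneg (Real.sqrt_nonneg _) M.qc_pos.le) (cpow_re_nonneg _)

variable {M}

theorem kap_norm_sq (q : ℂ) : ‖M.kap q‖ ^ 2 = M.gam * ‖(M.qc : ℂ) ^ 2 - q ^ 2‖ := by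
  rw [← norm_pow, kap_sq, norm_mul, Complex.norm_real, Real.norm_eq_abs, abs_of_pos M.gam_pos]

theorem kap_pos {q : ℂ} (hq : q ∈ M.U) : 0 < ‖M.kap q‖ := by
  rw [norm_pos_iff]
  intro h
  have h1 := kap_norm_sq (M := M) q
  rw [h] at h1
  have h2 := M.qc_ne hq
  have h3 : 0 < ‖(M.qc : ℂ) ^ 2 - q ^ 2‖ := by
    rw [sq_sub_sq, norm_mul]
    exact mul_pos (by linarith [hq.2.1]) h2
  have := mul_pos M.gam_pos h3
  simp at h1
  rcases h1 with h1 | h1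
  · exact M.gam_pos.ne' h1
  · rw [h1] at h3; simp at h3

theorem kap_re {q : ℂ} (hq : q ∈ M.U) : 1 / 2 * ‖M.kap q‖ ≤ (M.kap q).re := by
  have h1 := hq.2.2
  have h2 : -(1 / 2) * ‖M.kap q ^ 2‖ ≤ (M.kap q ^ 2).re := by
    rw [kap_sq, norm_mul, Complex.norm_real, Real.norm_eq_abs, abs_of_pos M.gam_pos,
      Complex.re_ofReal_mul]
    have := mul_le_mul_of_nonneg_left h1.le M.gam_pos.le
    linarith
  have h3 : (M.kap q ^ 2).re = (M.kap q).re ^ 2 - (M.kap q).im ^ 2 := by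
    rw [sq, Complex.mul_re]; ring
  have h4 : ‖M.kap q ^ 2‖ = (M.kap q).re ^ 2 + (M.kap q).im ^ 2 := by
    rw [norm_pow, Complex.sq_norm, Complex.normSq_apply]; ring
  have h5 : ‖M.kap q‖ ^ 2 = (M.kap q).re ^ 2 + (M.kap q).im ^ 2 := by
    rw [Complex.sq_norm, Complex.normSq_apply]; ring
  rw [h3, h4] at h2
  refine le_of_sq_le_sq ?_ (M.kap_re_nonneg q)
  nlinarith

/-- the points near the singularity -/
def Loc (M : Mdl) : Set ℂ := {q | q ∈ M.U ∧ ‖M.kap q‖ ≤ 1 / 100}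

theorem sub_le_kap {q : ℂ} (hq : q ∈ M.U) : ‖q - M.qc‖ ≤ ‖M.kap q‖ ^ 2 := by
  rw [kap_norm_sq, sq_sub_sq, norm_mul, norm_sub_rev]
  have h1 := hq.2.1
  have h2 := M.gam_ge
  have h3 := norm_nonneg ((M.qc : ℂ) - q)
  have h4 : 1 ≤ M.gam * ‖(M.qc : ℂ) + q‖ := by nlinarith
  nlinarith

theorem kap_le_sub {q : ℂ} (hq : q ∈ M.U) : ‖M.kap q‖ ^ 2 ≤ 3 * M.gam * ‖q - M.qc‖ := by
  rw [kap_norm_sq, sq_sub_sq, norm_mul, norm_sub_rev]
  have h1 : ‖(M.qc : ℂ) + q‖ ≤ 3 := by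
    refine (norm_add_le _ _).trans ?_
    have := hq.1
    rw [Complex.norm_real, Real.norm_eq_abs, abs_of_pos M.qc_pos]
    linarith [M.qc_lt]
  have h2 := M.gam_pos
  have h3 := norm_nonneg (q - (M.qc : ℂ))
  calc M.gam * (‖(M.qc : ℂ) + q‖ * ‖q - (M.qc : ℂ)‖) ≤ M.gam * (3 * ‖q - (M.qc : ℂ)‖) :=
        mul_le_mul_of_nonneg_left (mul_le_mul_of_nonneg_right h1 h3) h2.le
    _ = _ := by ring

end Mdl

/-- the exponential -/
def E (κ : ℂ) (d : ℤ) : ℂ := Complex.exp (-κ * (d.natAbs : ℂ))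

theorem exp_sub_one (z : ℂ) : ‖Complex.exp z - 1‖ ≤ ‖z‖ * Real.exp ‖z‖ := by
  have := Complex.norm_exp_sub_sum_le_norm_mul_exp z 1
  simpa using this

theorem E_zero (κ : ℂ) : E κ 0 = 1 := by unfold E; simp

theorem E_norm (κ : ℂ) (d : ℤ) : ‖E κ d‖ = Real.exp (-κ.re * d.natAbs) := by
  unfold E
  rw [Complex.norm_exp]
  congr 1
  simp

theorem E_norm_le {κ : ℂ} (h : 1 / 2 * ‖κ‖ ≤ κ.re) (d : ℤ) :
    ‖E κ d‖ ≤ Real.exp (-(‖κ‖ / 2)) ^ d.natAbs := by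
  rw [E_norm, ← Real.exp_nat_mul]
  refine Real.exp_le_exp.2 ?_
  have : (0 : ℝ) ≤ d.natAbs := Nat.cast_nonneg _
  nlinarith

theorem E_norm_le_one {κ : ℂ} (h : 0 ≤ κ.re) (d : ℤ) : ‖E κ d‖ ≤ 1 := by
  rw [E_norm]
  refine Real.exp_le_one_iff.2 ?_
  have : (0 : ℝ) ≤ d.natAbs := Nat.cast_nonneg _
  nlinarith

theorem E_sub {κ : ℂ} {d d' : ℤ} {n : ℕ} (hn : |((d'.natAbs : ℝ) - d.natAbs)| ≤ n) :
    ‖E κ d' - E κ d‖ ≤ ‖E κ d‖ * (‖κ‖ * n * Real.exp (‖κ‖ * n)) := by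
  have e1 : E κ d' - E κ d = E κ d * (Complex.exp (-κ * ((d'.natAbs : ℂ) - d.natAbs)) - 1) := by
    unfold E
    rw [mul_sub, ← Complex.exp_add, mul_one]
    congr 2
    ring
  rw [e1, norm_mul]
  refine mul_le_mul_of_nonneg_left ?_ (norm_nonneg _)
  refine (exp_sub_one _).trans ?_
  have e2 : ‖-κ * ((d'.natAbs : ℂ) - d.natAbs)‖ ≤ ‖κ‖ * n := by
    rw [norm_mul, norm_neg]
    refine mul_le_mul_of_nonneg_left ?_ (norm_nonneg _)
    have : ((d'.natAbs : ℂ) - d.natAbs) = (((d'.natAbs : ℝ) - d.natAbs : ℝ) : ℂ) := by push_cast; rfl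
    rw [this, Complex.norm_real]
    exact hn
  exact mul_le_mul e2 (Real.exp_le_exp.2 e2) (Real.exp_pos _).le (by positivity)

theorem natAbs_diff (d v : ℤ) : |(((d - v).natAbs : ℝ) - d.natAbs)| ≤ v.natAbs := by
  have h : |(((d - v).natAbs : ℤ) - d.natAbs)| ≤ (v.natAbs : ℤ) := by
    rw [abs_le]; omega
  have h2 := (Int.cast_le (R := ℝ)).2 h
  rwa [Int.cast_abs, Int.cast_sub, Int.cast_natCast, Int.cast_natCast, Int.cast_natCast] at h2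

theorem exp_small {t : ℝ} (h1 : t ≤ 1 / 100) (n : ℕ) : Real.exp (t * n) ≤ 2 ^ n := by
  rw [mul_comm, Real.exp_nat_mul]
  refine pow_le_pow_left₀ (Real.exp_pos _).le ?_ n
  calc Real.exp t ≤ Real.exp (1 / 100) := Real.exp_le_exp.2 h1
    _ ≤ 2 := by
      have := Real.exp_bound' (x := 1 / 100) (by norm_num) (by norm_num) (n := 2) (by norm_num)
      norm_num [Finset.sum_range_succ] at this
      linarith

end

end KN.SQ
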