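import Pool.Agent.H132.SQ.Ins

/-!
# The caps, and the chains as powers of the operator
-/

set_option autoImplicit false

namespace KN.SQ

open KN KN.ST Finset Filter Topology
open scoped Classical ENNReal ComplexOrder

noncomputable section

theorem words12 : Summable (fun w : List Dir => (1 / 12 : ℝ) ^ w.length) := by
  have h1 := tsum_words12
  have e : ∀ w : List Dir, ENNReal.toReal ((12 : ℝ≥0∞)⁻¹ ^ w.length) = (1 / 12 : ℝ) ^ w.length := by
    intro b
    rw [ENNReal.toReal_pow, ENNReal.toReal_inv]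
    norm_num
  have hne : ∑' w : List Dir, (12 : ℝ≥0∞)⁻¹ ^ w.length ≠ ⊤ := ne_top_of_le_ne_top (by simp) h1
  have h2 := ENNReal.summable_toReal hne
  simpa only [e] using h2

/-- left caps -/
def LC (l : List Dir) : Prop := Pl l ∧ ∃ D, LA D l ∧ IL l

/-- right caps -/
def RC (r : List Dir) : Prop := Pl r ∧ ∃ D, RA D r ∧ IR r

theorem LC.four {l : List Dir} (h : LC l) : 4 * xt l ≤ l.length := by
  obtain ⟨-, D, h1, h2⟩ := h
  exact h1.four h2

theorem RC.four {l : List Dir} (h : RC l) : 4 * xt l ≤ l.length := by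
  obtain ⟨-, D, h1, h2⟩ := h
  exact h1.four h2

theorem RC.pt {r : List Dir} (h : RC r) : pos r = pt (pos r).2.1 := by
  obtain ⟨h1, D, h2, -⟩ := h
  refine Prod.ext ?_ (Prod.ext rfl h1.z)
  show (pos r).1 = 0
  rw [h2.en]; exact h2.h0

theorem LC.pt {l : List Dir} (h : LC l) : pos l = -pt (-(pos l).2.1) := by
  obtain ⟨h1, D, h2, -⟩ := h
  have h3 : (pos l).1 = 0 := by rw [h2.en]; simp [h2.h0]
  unfold KN.SQ.pt
  refine Prod.ext ?_ (Prod.ext ?_ ?_)
  · simpa using h3
  · simp
  · simpa using h1.z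

theorem capw {s : ℝ} (hs : Wok s) {w : List Dir} (h : 4 * xt w ≤ w.length) :
    s ^ (4 * w.length - 8 * xt w) * 16 ^ (w.length + 1) ≤ 16 * (1 / 12) ^ w.length := by
  obtain ⟨h0, h1⟩ := hs
  have hs1 : s ≤ 1 := h1.trans (by norm_num)
  have e1 : s ^ (4 * w.length - 8 * xt w) ≤ s ^ (w.length) :=
    pow_le_pow_of_le_one h0.le hs1 (by omega)
  calc s ^ (4 * w.length - 8 * xt w) * 16 ^ (w.length + 1) ≤ s ^ w.length * 16 ^ (w.length + 1) :=
        mul_le_mul_of_nonneg_right e1 (by positivity)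
    _ = 16 * ((192 * s) ^ w.length * (1 / 12) ^ w.length) := by
        rw [pow_succ, ← mul_pow]
        have : (192 * s * (1 / 12)) ^ w.length = s ^ w.length * 16 ^ w.length := by
          rw [← mul_pow]; congr 1; ring
        rw [this]; ring
    _ ≤ 16 * (1 * (1 / 12) ^ w.length) := by
        refine mul_le_mul_of_nonneg_left (mul_le_mul_of_nonneg_right ?_ (by positivity))
          (by norm_num)
        exact pow_le_one₀ (by positivity) (by norm_num at h1 ⊢; linarith)
    _ = _ := by ring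

/-- the left caps as a family -/
def CL (s : ℝ) (hs : Wok s) : Cap where
  ρ := {l : List Dir // LC l}
  a l := s ^ (4 * l.1.length - 8 * xt l.1)
  m l := l.1.length + 1
  x l := -(pos l.1).2.1
  a0 l := pow_nonneg hs.1.le _
  xm l := by
    have h := nl_xc l.1
    unfold nl at h
    rw [abs_neg, Int.abs_eq_natAbs]
    exact_mod_cast (by omega : (pos l.1).2.1.natAbs ≤ l.1.length + 1)
  x0 l h := by
    have h1 := l.2.pt
    obtain ⟨-, D, h2, -⟩ := l.2
    rw [h] at h1
    apply h2.ne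
    have h3 := h2.en
    rw [h1] at h3
    have : D = pt 0 := (neg_injective h3).symm
    rw [this]; rfl
  sm := by
    refine Summable.of_nonneg_of_le (fun l => mul_nonneg (pow_nonneg hs.1.le _) (by positivity))
      (fun l => capw hs l.2.four) ((words12.subtype _).mul_left 16)

/-- the right caps as a family -/
def CR (s : ℝ) (hs : Wok s) : Cap where
  ρ := {l : List Dir // RC l}
  a l := s ^ (4 * l.1.length - 8 * xt l.1)
  m l := l.1.length + 1
  x l := (pos l.1).2.1
  a0 l := pow_nonneg hs.1.le _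
  xm l := by
    have h := nl_xc l.1
    unfold nl at h
    rw [Int.abs_eq_natAbs]
    exact_mod_cast (by omega : (pos l.1).2.1.natAbs ≤ l.1.length + 1)
  x0 l h := by
    have h1 := l.2.pt
    obtain ⟨-, D, h2, -⟩ := l.2
    rw [h] at h1
    apply h2.ne
    rw [← h2.en, h1]; rfl
  sm := by
    refine Summable.of_nonneg_of_le (fun l => mul_nonneg (pow_nonneg hs.1.le _) (by positivity))
      (fun l => capw hs l.2.four) ((words12.subtype _).mul_left 16)

/-! ### the chains -/

/-- chains with a right cap -/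
def ok (D : Z3) (bs : List Blk) (r : List Dir) : Prop :=
  (∃ E, VC D bs E ∧ RA E r) ∧ (∀ b ∈ bs, Irr b ∧ PB b) ∧ Pl r ∧ IR r

/-- admissible first blocks -/
def fb (d : ℤ) (b : Blk) : Prop := Pc (pt d) (nxt (pt d) b) b ∧ Irr b ∧ PB b

theorem ok_nil {d : ℤ} {r : List Dir} : ok (pt d) [] r ↔ Pl r ∧ RA (pt d) r ∧ IR r := by
  unfold ok
  simp only [VC, List.not_mem_nil, false_imp_iff, implies_true, true_and]
  constructor
  · rintro ⟨⟨E, rfl, h⟩, h1, h2⟩
    exact ⟨h1, h, h2⟩
  · rintro ⟨h1, h, h2⟩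
    exact ⟨⟨_, rfl, h⟩, h1, h2⟩

theorem ok_cons {d : ℤ} {b : Blk} {bs : List Blk} {r : List Dir} :
    ok (pt d) (b :: bs) r ↔ fb d b ∧ ok (pt (d - (dv b).2.1)) bs r := by
  unfold ok fb
  simp only [VC, List.forall_mem_cons]
  constructor
  · rintro ⟨⟨E, ⟨h1, h2⟩, h3⟩, ⟨h4, h5⟩, h6, h7⟩
    refine ⟨⟨h1, h4⟩, ⟨E, ?_, h3⟩, h5, h6, h7⟩
    rwa [← nxt_pt h1.fr h4.2]
  · rintro ⟨⟨h1, h4⟩, ⟨E, h2, h3⟩, h5, h6, h7⟩
    refine ⟨⟨E, ⟨h1, ?_⟩, h3⟩, ⟨h4, h5⟩, h6, h7⟩
    rwa [nxt_pt h1.fr h4.2]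

/-- the weighted sum over the chains with `m` blocks -/
def Rm (S T : ℝ≥0∞) : ℕ → ℤ → ℝ≥0∞
  | 0, d => ∑' r : List Dir, if Pl r ∧ RA (pt d) r ∧ IR r then ωa S r * T ^ (r.length + 1) else 0
  | m + 1, d => ∑' b : Blk, if fb d b then
      ωb S b * T ^ (bl b + 2) * Rm S T m (d - (dv b).2.1) else 0

theorem tsum_cons'' (f : List Blk → ℝ≥0∞) (h : f [] = 0) :
    ∑' l : List Blk, f l = ∑' b : Blk, ∑' l : List Blk, f (b :: l) := by
  have h1 : ∑' x : Blk × List Blk, f (x.1 :: x.2) = ∑' l : List Blk, f l := by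
    refine Function.Injective.tsum_eq (g := fun x : Blk × List Blk => x.1 :: x.2) ?_ ?_
    · rintro ⟨b, l⟩ ⟨b', l'⟩ h
      simpa using h
    · intro l hl
      cases l with
      | nil => exact absurd h hl
      | cons b l => exact ⟨(b, l), rfl⟩
  rw [← h1]
  exact ENNReal.tsum_prod'

/-- the weight of a chain with a right cap -/
def wc (S T : ℝ≥0∞) (bs : List Blk) (r : List Dir) : ℝ≥0∞ :=
  (wl S bs * T ^ ln bs) * (ωa S r * T ^ (r.length + 1))

theorem chain_Rm (S T : ℝ≥0∞) (m : ℕ) : ∀ d : ℤ,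
    ∑' bs : List Blk, ∑' r : List Dir, (if ok (pt d) bs r ∧ bs.length = m then wc S T bs r else 0) =
      Rm S T m d := by
  induction m with
  | zero =>
    intro d
    rw [tsum_eq_single []]
    · simp only [ok_nil, List.length_nil, and_true, Rm]
      refine tsum_congr fun r => ?_
      simp [wc, wl, ln]
    · intro bs hbs
      rw [ENNReal.tsum_eq_zero]
      intro r
      rw [if_neg]
      rintro ⟨-, h⟩
      exact hbs (List.length_eq_zero_iff.1 h)
  | succ m ih =>
    intro d
    rw [tsum_cons'' _ (by simp)]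
    simp only [Rm]
    refine tsum_congr fun b => ?_
    by_cases h : fb d b
    · rw [if_pos h, ← ih, ← ENNReal.tsum_mul_left]
      refine tsum_congr fun l => ?_
      rw [← ENNReal.tsum_mul_left]
      refine tsum_congr fun r => ?_
      by_cases hc : ok (pt (d - (dv b).2.1)) l r ∧ l.length = m
      · rw [if_pos hc, if_pos ⟨ok_cons.2 ⟨h, hc.1⟩, by rw [List.length_cons, hc.2]⟩]
        unfold wc
        rw [wl_cons, ln_cons, pow_add]
        ring
      · rw [if_neg hc, mul_zero, if_neg]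
        rintro ⟨h1, h2⟩
        exact hc ⟨(ok_cons.1 h1).2, by simpa using h2⟩
    · rw [if_neg h, ENNReal.tsum_eq_zero]
      intro l
      rw [ENNReal.tsum_eq_zero]
      intro r
      rw [if_neg]
      rintro ⟨h1, -⟩
      exact h (ok_cons.1 h1).1

theorem Rm_zero (S T : ℝ≥0∞) (m : ℕ) : Rm S T m 0 = 0 := by
  cases m with
  | zero =>
    simp only [Rm]
    rw [ENNReal.tsum_eq_zero]
    intro r
    rw [if_neg]
    rintro ⟨-, h, -⟩
    exact h.ne rfl
  | succ m =>
    simp only [Rm]
    rw [ENNReal.tsum_eq_zero]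
    intro b
    rw [if_neg]
    intro h
    exact h.1.ne.1 rfl

/-- the first block is straight or not -/
theorem fb_split {d : ℤ} (hd : d ≠ 0) (F : Blk → ℝ≥0∞) :
    ∑' b : Blk, (if fb d b then F b else 0) = F S0 +
      ∑' b : {b : Blk // QB b}, (if Pc (pt d) (nxt (pt d) b.1) b.1 then F b.1 else 0) := by
  have h1 : ∀ b : Blk, (if fb d b then F b else 0) = (if b = S0 then F S0 else 0) +
      ({b | QB b} : Set Blk).indicator
        (fun b => if Pc (pt d) (nxt (pt d) b) b then F b else 0) b := by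
    intro b
    by_cases hb : b = S0
    · subst hb
      have : fb d S0 := by
        refine ⟨?_, irr_S0, pl_nil, pl_nil⟩
        rw [nxt_S0]
        exact pc_S rfl (pt_ne.2 hd)
      rw [if_pos this, if_pos rfl, Set.indicator_of_notMem (fun h => h.2.2.2 rfl), add_zero]
    · rw [if_neg hb, zero_add]
      by_cases hf : fb d b
      · have : b ∈ ({b | QB b} : Set Blk) := ⟨hf.1.fr, hf.2.1, hf.2.2, hb⟩
        rw [if_pos hf, Set.indicator_of_mem this, if_pos hf.1]
      · rw [if_neg hf]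
        by_cases hq : b ∈ ({b | QB b} : Set Blk)
        · rw [Set.indicator_of_mem hq, if_neg]
          intro h
          exact hf ⟨h, hq.2.1, hq.2.2.1⟩
        · rw [Set.indicator_of_notMem hq]
  rw [tsum_congr h1, ENNReal.tsum_add, tsum_ite_eq]
  congr 1
  exact (tsum_subtype ({b | QB b} : Set Blk)
    (fun b => if Pc (pt d) (nxt (pt d) b) b then F b else 0)).symm

section real

variable {s : ℝ} (hs : Wok s) {t : ℝ}

/-- the powers of the operator -/
def fm (s : ℝ) (hs : Wok s) (t : ℝ) (m : ℕ) : H := ((MM s hs).K (t : ℂ) ^ m) ((CR s hs).cv (t : ℂ))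

theorem fm_succ (m : ℕ) : fm s hs t (m + 1) = (MM s hs).K (t : ℂ) (fm s hs t m) := by
  unfold fm
  rw [pow_succ']
  rfl

theorem ofReal_ωb {s : ℝ} (hs : 0 < s) (b : Blk) :
    ENNReal.ofReal (s ^ (4 * bl b - 8 * wd b)) = ωb (ENNReal.ofReal s) b := by
  unfold ωb
  rw [ENNReal.ofReal_pow hs.le]

theorem ofReal_ωa {s : ℝ} (hs : 0 < s) (w : List Dir) :
    ENNReal.ofReal (s ^ (4 * w.length - 8 * xt w)) = ωa (ENNReal.ofReal s) w := by
  unfold ωa
  rw [ENNReal.ofReal_pow hs.le]

/-- the values of a cap vector -/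
theorem cap_val (C : Cap) (ht : 0 ≤ t) (ht2 : t ≤ 2) (d : ℤ) : ∃ y : ℝ, 0 ≤ y ∧
    C.cv (t : ℂ) d = (y : ℂ) ∧
    ENNReal.ofReal y = ∑' r, if C.x r = d then ENNReal.ofReal (C.a r * t ^ C.m r) else 0 := by
  have hn : ‖(t : ℂ)‖ ≤ 2 := by
    rw [Complex.norm_real, Real.norm_eq_abs, abs_of_nonneg ht]; exact ht2
  have h1 := C.apply_aux (C.b_norm hn) d
  have h2 : ∀ r, (if C.x r = d then (C.a r : ℂ) * (t : ℂ) ^ C.m r else 0) =
      (((if C.x r = d then C.a r * t ^ C.m r else 0 : ℝ)) : ℂ) := by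
    intro r
    split_ifs <;> push_cast <;> rfl
  have h0 : ∀ r, 0 ≤ (if C.x r = d then C.a r * t ^ C.m r else 0 : ℝ) := by
    intro r
    split_ifs
    · exact mul_nonneg (C.a0 r) (pow_nonneg ht _)
    · exact le_rfl
  have h3 : Summable fun r => (if C.x r = d then C.a r * t ^ C.m r else 0 : ℝ) := by
    have := h1.summable
    simp only [h2] at this
    exact Complex.summable_ofReal.1 this
  refine ⟨∑' r, (if C.x r = d then C.a r * t ^ C.m r else 0 : ℝ), tsum_nonneg h0, ?_, ?_⟩
  · unfold Cap.cv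
    rw [← h1.tsum_eq]
    simp only [h2]
    exact (Complex.ofReal_tsum _).symm
  · rw [ENNReal.ofReal_tsum_of_nonneg h0 h3]
    refine tsum_congr fun r => ?_
    split_ifs <;> simp

theorem fm_val (ht : 0 ≤ t) (ht2 : t ≤ 2) (m : ℕ) : ∀ d : ℤ, ∃ y : ℝ, 0 ≤ y ∧
    fm s hs t m d = (y : ℂ) ∧ ENNReal.ofReal y = Rm (ENNReal.ofReal s) (ENNReal.ofReal t) m d := by
  have hn : ‖(t : ℂ)‖ ≤ 2 := by
    rw [Complex.norm_real, Real.norm_eq_abs, abs_of_nonneg ht]; exact ht2
  induction m with
  | zero =>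
    intro d
    obtain ⟨y, h1, h2, h3⟩ := cap_val (CR s hs) ht ht2 d
    refine ⟨y, h1, h2, ?_⟩
    rw [h3]
    simp only [Rm]
    have e : ∀ r : {r : List Dir // RC r}, (if (CR s hs).x r = d then
        ENNReal.ofReal ((CR s hs).a r * t ^ (CR s hs).m r) else 0) =
        (fun r : List Dir => if Pl r ∧ RA (pt d) r ∧ IR r then
          ωa (ENNReal.ofReal s) r * ENNReal.ofReal t ^ (r.length + 1) else 0) r.1 := by
      rintro ⟨r, hr⟩
      have hx : (CR s hs).x (⟨r, hr⟩ : {r : List Dir // RC r}) = (pos r).2.1 := rfl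
      have ha : (CR s hs).a (⟨r, hr⟩ : {r : List Dir // RC r}) =
        s ^ (4 * r.length - 8 * xt r) := rfl
      have hm : (CR s hs).m (⟨r, hr⟩ : {r : List Dir // RC r}) = r.length + 1 := rfl
      rw [hx, ha, hm]
      simp only
      by_cases hd : (pos r).2.1 = d
      · have hp : pos r = pt d := by rw [← hd]; exact hr.pt
        obtain ⟨k1, D, k2, k3⟩ := hr
        have hD : D = pt d := by rw [← k2.en, hp]
        rw [if_pos hd, if_pos ⟨k1, hD ▸ k2, k3⟩, ENNReal.ofReal_mul (pow_nonneg hs.1.le _),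
          ofReal_ωa hs.1, ENNReal.ofReal_pow ht]
      · rw [if_neg hd, if_neg]
        rintro ⟨k1, k2, k3⟩
        apply hd
        rw [k2.en]; rfl
    refine (tsum_congr e).trans ?_
    refine (tsum_subtype {r : List Dir | RC r} (fun r : List Dir => if Pl r ∧ RA (pt d) r ∧ IR r then
          ωa (ENNReal.ofReal s) r * ENNReal.ofReal t ^ (r.length + 1) else 0)).trans ?_
    refine tsum_congr fun r => ?_
    by_cases hr : r ∈ {r : List Dir | RC r}
    · rw [Set.indicator_of_mem hr]
    · rw [Set.indicator_of_notMem hr, if_neg]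
      rintro ⟨k1, k2, k3⟩
      exact hr ⟨k1, _, k2, k3⟩
  | succ m ih =>
    intro d
    choose y hy0 hy1 hy2 using ih
    by_cases hd : d = 0
    · subst hd
      refine ⟨0, le_rfl, ?_, ?_⟩
      · rw [fm_succ, Mdl.K_apply, Mdl.N_zero hn]
        have h1 : fm s hs t m 0 = 0 := by
          rw [hy1]
          have h2 := hy2 0
          rw [Rm_zero, ENNReal.ofReal_eq_zero] at h2
          rw [le_antisymm h2 (hy0 0)]
          simp
        rw [h1]; simp
      · rw [Rm_zero]; simp
    · -- the value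
      have hN := (MM s hs).N_hasSum hn (fm s hs t m) d
      have e1 : ∀ b : (MM s hs).ι, (MM s hs).w (t : ℂ) b *
          (if (MM s hs).P b d then fm s hs t m (d - (MM s hs).v b) else 0) =
          (((MM s hs).c b * t ^ ((MM s hs).L b + 2) *
            (if (MM s hs).P b d then y (d - (MM s hs).v b) else 0) : ℝ) : ℂ) := by
        intro b
        unfold Mdl.w
        split_ifs
        · rw [hy1]; push_cast; ring
        · simp
      simp only [e1] at hN
      have hsum : Summable fun b : (MM s hs).ι => (MM s hs).c b * t ^ ((MM s hs).L b + 2) *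
            (if (MM s hs).P b d then y (d - (MM s hs).v b) else 0) :=
        Complex.summable_ofReal.1 hN.summable
      have h0 : ∀ b : (MM s hs).ι, 0 ≤ (MM s hs).c b * t ^ ((MM s hs).L b + 2) *
            (if (MM s hs).P b d then y (d - (MM s hs).v b) else 0) := by
        intro b
        refine mul_nonneg (mul_nonneg ((MM s hs).c0 b) (pow_nonneg ht _)) ?_
        split_ifs
        · exact hy0 _
        · exact le_rfl
      refine ⟨t ^ 2 * y d + ∑' b : (MM s hs).ι, (MM s hs).c b * t ^ ((MM s hs).L b + 2) *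
            (if (MM s hs).P b d then y (d - (MM s hs).v b) else 0),
        add_nonneg (mul_nonneg (sq_nonneg _) (hy0 d)) (tsum_nonneg h0), ?_, ?_⟩
      · rw [fm_succ, Mdl.K_apply, hy1, ← hN.tsum_eq, ← Complex.ofReal_tsum]
        push_cast
        rfl
      · rw [ENNReal.ofReal_add (mul_nonneg (sq_nonneg _) (hy0 d)) (tsum_nonneg h0),
          ENNReal.ofReal_tsum_of_nonneg h0 hsum]
        simp only [Rm]
        rw [fb_split hd]
        congr 1
        · have e2 : d - (dv S0).2.1 = d := by simp [dv, S0, pos]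
          have e3 : ωb (ENNReal.ofReal s) S0 = 1 := by simp [ωb, S0, bl, wd, pos]
          have e4 : bl S0 = 0 := by simp [S0, bl]
          rw [e2, e3, e4, one_mul, zero_add, ENNReal.ofReal_mul (sq_nonneg _),
            ENNReal.ofReal_pow ht, hy2]
        · refine tsum_congr fun b => ?_
          have hc : (MM s hs).c b = s ^ (4 * bl b.1 - 8 * wd b.1) := rfl
          have hL : (MM s hs).L b = bl b.1 := rfl
          have hv : (MM s hs).v b = (dv b.1).2.1 := rfl
          have hP : (MM s hs).P b d ↔ Pc (pt d) (nxt (pt d) b.1) b.1 := Iff.rfl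
          rw [hc, hL, hv]
          by_cases hp : Pc (pt d) (nxt (pt d) b.1) b.1
          · rw [if_pos hp, if_pos (hP.2 hp), ENNReal.ofReal_mul (mul_nonneg
              (pow_nonneg hs.1.le _) (pow_nonneg ht _)), ENNReal.ofReal_mul
              (pow_nonneg hs.1.le _), ofReal_ωb hs.1, ENNReal.ofReal_pow ht, hy2]
          · rw [if_neg hp, if_neg (fun h => hp (hP.1 h)), mul_zero, ENNReal.ofReal_zero]

end real

end

end KN.SQ
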