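import Pool.Agent.H132.SQ.Op

/-!
# The transfer operator of a pair of strands
-/

set_option autoImplicit false

namespace KN.SQ

open Finset Filter Topology
open scoped Classical ENNReal ComplexConjugate

noncomputable section

/-- the data: the blocks, their weights, lengths and displacements, the places where they can be
used, the reversed block -/
structure Mdl where
  ι : Type
  c : ι → ℝ
  L : ι → ℕ
  v : ι → ℤ
  P : ι → ℤ → Prop
  σ : ι → ι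
  bp : ι
  a : ℝ
  c0 : ∀ b, 0 ≤ c b
  σσ : ∀ b, σ (σ b) = b
  cσ : ∀ b, c (σ b) = c b
  Lσ : ∀ b, L (σ b) = L b
  vσ : ∀ b, v (σ b) = - v b
  Pσ : ∀ b d, P b d → P (σ b) (d - v b)
  P0 : ∀ b, ¬ P b 0
  far : ∀ b d, (L b : ℤ) < |d| → P b d
  vL : ∀ b, |v b| ≤ (L b : ℤ)
  L1 : ∀ b, 1 ≤ L b
  a0 : 0 < a
  cbp : c bp = a
  Lbp : L bp = 1
  vbp : v bp = 1
  one : ∀ b d, L b = 1 → d ≠ 0 → d - v b ≠ 0 → P b d
  sm : Summable fun b => c b * 16 ^ L b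
  s1 : ∑' b, c b * 16 ^ L b ≤ 1 / 10 ^ 6
  s2 : ∑' b, (if 2 ≤ L b then c b * 16 ^ L b else 0) ≤ a / 10 ^ 6

variable (M : Mdl)

namespace Mdl

theorem Pσ' {b : M.ι} {d : ℤ} : M.P b d ↔ M.P (M.σ b) (d - M.v b) := by
  refine ⟨M.Pσ b d, fun h => ?_⟩
  have := M.Pσ _ _ h
  rw [M.σσ, M.vσ, sub_neg_eq_add, sub_add_cancel] at this
  exact this

theorem P0' {b : M.ι} {d : ℤ} (h : M.P b d) : d ≠ 0 ∧ d - M.v b ≠ 0 := by
  refine ⟨fun h0 => M.P0 b (h0 ▸ h), fun h0 => M.P0 (M.σ b) ?_⟩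
  rw [← h0]
  exact M.Pσ b d h

theorem smp (f : M.ι → ℝ) (h : ∀ b, f b ≤ M.c b * 16 ^ M.L b) (h0 : ∀ b, 0 ≤ f b) :
    Summable f ∧ ∑' b, f b ≤ 1 / 10 ^ 6 := by
  have h1 : Summable f := Summable.of_nonneg_of_le h0 h M.sm
  exact ⟨h1, (h1.tsum_le_tsum h M.sm).trans M.s1⟩

theorem pow16 {L : ℕ} (hL : 1 ≤ L) : ((L + 2 : ℕ) : ℝ) * 2 ^ (L + 1) ≤ 16 ^ L := by
  have h : (L + 2) * 2 ^ (L + 1) ≤ 16 ^ L := by
    induction L, hL using Nat.le_induction with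
    | base => norm_num
    | succ n hn ih =>
      calc (n + 1 + 2) * 2 ^ (n + 1 + 1) ≤ (16 * (n + 2)) * 2 ^ (n + 1) := by
            rw [pow_succ 2 (n + 1)]
            have : (n + 3) * 2 ≤ 16 * (n + 2) := by omega
            calc (n + 1 + 2) * (2 ^ (n + 1) * 2) = ((n + 3) * 2) * 2 ^ (n + 1) := by ring
              _ ≤ _ := Nat.mul_le_mul_right _ this
        _ = 16 * ((n + 2) * 2 ^ (n + 1)) := by ring
        _ ≤ 16 * 16 ^ n := Nat.mul_le_mul_left _ ih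
        _ = _ := by ring
  exact_mod_cast h

theorem pow16' {L : ℕ} (hL : 1 ≤ L) : (2 : ℝ) ^ (L + 2) ≤ 16 ^ L := by
  have := pow16 hL
  refine le_trans ?_ this
  rw [pow_succ 2 (L + 1)]
  have h2 : (2 : ℝ) ≤ ((L + 2 : ℕ) : ℝ) := by push_cast; linarith [(Nat.cast_nonneg L : (0:ℝ) ≤ L)]
  nlinarith [pow_pos (two_pos : (0:ℝ) < 2) (L + 1)]

/-- the coefficient of a block -/
def w (q : ℂ) (b : M.ι) : ℂ := (M.c b : ℂ) * q ^ (M.L b + 2)

theorem w_norm {q : ℂ} (hq : ‖q‖ ≤ 2) (b : M.ι) : ‖M.w q b‖ ≤ M.c b * 16 ^ M.L b := by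
  unfold w
  rw [norm_mul, norm_pow, Complex.norm_real, Real.norm_eq_abs, abs_of_nonneg (M.c0 b)]
  refine mul_le_mul_of_nonneg_left ?_ (M.c0 b)
  exact (pow_le_pow_left₀ (norm_nonneg _) hq _).trans (pow16' (M.L1 b))

theorem term_summable {q : ℂ} (hq : ‖q‖ ≤ 2) :
    Summable fun b => M.w q b • S (M.P b) (M.v b) := by
  refine Summable.of_norm_bounded M.sm fun b => ?_
  rw [norm_smul]
  calc ‖M.w q b‖ * ‖S (M.P b) (M.v b)‖ ≤ ‖M.w q b‖ * 1 :=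
        mul_le_mul_of_nonneg_left (S_norm _ _) (norm_nonneg _)
    _ ≤ _ := by rw [mul_one]; exact M.w_norm hq b

/-- the part of the blocks that are not straight -/
def N (q : ℂ) : H →L[ℂ] H := ∑' b, M.w q b • S (M.P b) (M.v b)

/-- the transfer operator -/
def K (q : ℂ) : H →L[ℂ] H := q ^ 2 • (1 : H →L[ℂ] H) + M.N q

theorem N_hasSum {q : ℂ} (hq : ‖q‖ ≤ 2) (f : H) (d : ℤ) :
    HasSum (fun b => M.w q b * (if M.P b d then f (d - M.v b) else 0)) (M.N q f d) := by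
  have h1 := M.term_summable hq
  have h2 := (ContinuousLinearMap.hasSum (ContinuousLinearMap.apply ℂ H f) h1.hasSum)
  have h3 := (ContinuousLinearMap.hasSum (ev d) h2)
  exact h3

theorem N_apply {q : ℂ} (hq : ‖q‖ ≤ 2) (f : H) (d : ℤ) :
    M.N q f d = ∑' b, M.w q b * (if M.P b d then f (d - M.v b) else 0) :=
  (M.N_hasSum hq f d).tsum_eq.symm

end Mdl

end

end KN.SQ
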