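import Pool.Agent.H132.SQ.Md

/-!
# The transfer operator: derivative, symmetry, the critical value
-/

set_option autoImplicit false

namespace KN.SQ

open Finset Filter Topology
open scoped Classical ENNReal ComplexConjugate

noncomputable section

namespace Mdl

variable (M : Mdl)

/-- the derivative of the coefficient of a block -/
def w' (q : ℂ) (b : M.ι) : ℂ := (M.c b : ℂ) * (((M.L b + 2 : ℕ) : ℂ) * q ^ (M.L b + 1))

theorem w'_norm {q : ℂ} (hq : ‖q‖ ≤ 2) (b : M.ι) : ‖M.w' q b‖ ≤ M.c b * 16 ^ M.L b := by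
  unfold w'
  rw [norm_mul, norm_mul, norm_pow, Complex.norm_real, Real.norm_eq_abs, abs_of_nonneg (M.c0 b),
    Complex.norm_natCast]
  refine mul_le_mul_of_nonneg_left ?_ (M.c0 b)
  refine le_trans ?_ (pow16 (M.L1 b))
  exact mul_le_mul_of_nonneg_left (pow_le_pow_left₀ (norm_nonneg _) hq _) (Nat.cast_nonneg _)

theorem w_deriv (q : ℂ) (b : M.ι) : HasDerivAt (fun q => M.w q b) (M.w' q b) q := by
  unfold w w'
  have := (hasDerivAt_pow (M.L b + 2) q).const_mul (M.c b : ℂ)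
  simpa using this

theorem term'_summable {q : ℂ} (hq : ‖q‖ ≤ 2) :
    Summable fun b => M.w' q b • S (M.P b) (M.v b) := by
  refine Summable.of_norm_bounded M.sm fun b => ?_
  rw [norm_smul]
  calc ‖M.w' q b‖ * ‖S (M.P b) (M.v b)‖ ≤ ‖M.w' q b‖ * 1 :=
        mul_le_mul_of_nonneg_left (S_norm _ _) (norm_nonneg _)
    _ ≤ _ := by rw [mul_one]; exact M.w'_norm hq b

/-- the derivative of the operator -/
def N' (q : ℂ) : H →L[ℂ] H := ∑' b, M.w' q b • S (M.P b) (M.v b)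

/-- the derivative of the operator -/
def K' (q : ℂ) : H →L[ℂ] H := (2 * q) • (1 : H →L[ℂ] H) + M.N' q

theorem N'_hasSum {q : ℂ} (hq : ‖q‖ ≤ 2) (f : H) (d : ℤ) :
    HasSum (fun b => M.w' q b * (if M.P b d then f (d - M.v b) else 0)) (M.N' q f d) := by
  have h1 := M.term'_summable hq
  have h2 := (ContinuousLinearMap.hasSum (ContinuousLinearMap.apply ℂ H f) h1.hasSum)
  have h3 := (ContinuousLinearMap.hasSum (ev d) h2)
  exact h3

theorem N'_apply {q : ℂ} (hq : ‖q‖ ≤ 2) (f : H) (d : ℤ) :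
    M.N' q f d = ∑' b, M.w' q b * (if M.P b d then f (d - M.v b) else 0) :=
  (M.N'_hasSum hq f d).tsum_eq.symm

theorem K_apply (q : ℂ) (f : H) (d : ℤ) : M.K q f d = q ^ 2 * f d + M.N q f d := rfl

theorem K'_apply (q : ℂ) (f : H) (d : ℤ) : M.K' q f d = 2 * q * f d + M.N' q f d := rfl

theorem N_deriv {q : ℂ} (hq : ‖q‖ < 2) : HasDerivAt M.N (M.N' q) q := by
  have hopen : IsOpen (Metric.ball (0 : ℂ) 2) := Metric.isOpen_ball
  have hpre : IsPreconnected (Metric.ball (0 : ℂ) 2) := (convex_ball _ _).isPreconnected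
  refine hasDerivAt_tsum_of_isPreconnected (t := Metric.ball (0 : ℂ) 2)
    (u := fun b => M.c b * 16 ^ M.L b)
    (g := fun b q => M.w q b • S (M.P b) (M.v b))
    (g' := fun b q => M.w' q b • S (M.P b) (M.v b)) M.sm hopen hpre ?_ ?_ (y₀ := 0)
    (by simp) (M.term_summable (by simp)) (by simpa using hq)
  · intro b y hy
    exact (M.w_deriv y b).smul_const (S (M.P b) (M.v b))
  · intro b y hy
    rw [norm_smul]
    calc ‖M.w' y b‖ * ‖S (M.P b) (M.v b)‖ ≤ ‖M.w' y b‖ * 1 :=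
          mul_le_mul_of_nonneg_left (S_norm _ _) (norm_nonneg _)
      _ ≤ _ := by
          rw [mul_one]
          exact M.w'_norm (by simpa using (mem_ball_zero_iff.1 hy).le) b

theorem K_deriv {q : ℂ} (hq : ‖q‖ < 2) : HasDerivAt M.K (M.K' q) q := by
  unfold K K'
  have h1 : HasDerivAt (fun q : ℂ => q ^ 2 • (1 : H →L[ℂ] H)) ((2 * q) • (1 : H →L[ℂ] H)) q := by
    have := (hasDerivAt_pow 2 q).smul_const (1 : H →L[ℂ] H)
    simpa using this
  exact h1.add (M.N_deriv hq)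

theorem N_norm {q : ℂ} (hq : ‖q‖ ≤ 2) : ‖M.N q‖ ≤ 1 / 10 ^ 6 := by
  have h := M.smp (fun b => ‖M.w q b • S (M.P b) (M.v b)‖) (fun b => ?_) (fun b => norm_nonneg _)
  · exact (norm_tsum_le_tsum_norm h.1).trans h.2
  · rw [norm_smul]
    calc ‖M.w q b‖ * ‖S (M.P b) (M.v b)‖ ≤ ‖M.w q b‖ * 1 :=
          mul_le_mul_of_nonneg_left (S_norm _ _) (norm_nonneg _)
      _ ≤ _ := by rw [mul_one]; exact M.w_norm hq b

theorem N'_norm {q : ℂ} (hq : ‖q‖ ≤ 2) : ‖M.N' q‖ ≤ 1 / 10 ^ 6 := by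
  have h := M.smp (fun b => ‖M.w' q b • S (M.P b) (M.v b)‖) (fun b => ?_) (fun b => norm_nonneg _)
  · exact (norm_tsum_le_tsum_norm h.1).trans h.2
  · rw [norm_smul]
    calc ‖M.w' q b‖ * ‖S (M.P b) (M.v b)‖ ≤ ‖M.w' q b‖ * 1 :=
          mul_le_mul_of_nonneg_left (S_norm _ _) (norm_nonneg _)
      _ ≤ _ := by rw [mul_one]; exact M.w'_norm hq b

theorem one_norm_le : ‖(1 : H →L[ℂ] H)‖ ≤ 1 := ContinuousLinearMap.norm_id_le

theorem K'_norm {q : ℂ} (hq : ‖q‖ ≤ 2) : ‖M.K' q‖ ≤ 5 := by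
  unfold K'
  have h1 := M.N'_norm hq
  have h2 : ‖(2 * q) • (1 : H →L[ℂ] H)‖ ≤ 4 := by
    rw [norm_smul, norm_mul]
    have : ‖(2 : ℂ)‖ = 2 := by simp
    rw [this]
    have := one_norm_le
    nlinarith [norm_nonneg q, norm_nonneg (1 : H →L[ℂ] H)]
  calc _ ≤ _ := norm_add_le _ _
    _ ≤ _ := by linarith

/-- the reversal as a permutation -/
def σe : M.ι ≃ M.ι := ⟨M.σ, M.σ, M.σσ, M.σσ⟩

theorem w_σ (q : ℂ) (b : M.ι) : M.w q (M.σ b) = M.w q b := by
  unfold w; rw [M.cσ, M.Lσ]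

theorem w'_σ (q : ℂ) (b : M.ι) : M.w' q (M.σ b) = M.w' q b := by
  unfold w'; rw [M.cσ, M.Lσ]

theorem _root_.HasSum.congr_fun' {ι : Type} {f g : ι → ℂ} {a : ℂ} (h : HasSum f a)
    (hfg : ∀ b, g b = f b) : HasSum g a := by
  have : g = f := funext hfg
  rw [this]; exact h

theorem sym_aux {x : M.ι → ℂ} (hx : ∀ b, x (M.σ b) = x b)
    (hs : Summable fun b => x b • S (M.P b) (M.v b)) (f g : H) :
    B f ((∑' b, x b • S (M.P b) (M.v b)) g) = B ((∑' b, x b • S (M.P b) (M.v b)) f) g := by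
  have h1 := (ContinuousLinearMap.hasSum (ContinuousLinearMap.apply ℂ H g) hs.hasSum)
  have h2 := (ContinuousLinearMap.hasSum (Bc f) h1)
  have h3 := (ContinuousLinearMap.hasSum (ContinuousLinearMap.apply ℂ H f) hs.hasSum)
  have h4 := (ContinuousLinearMap.hasSum (Bc g) h3)
  have h5 : HasSum (fun b => x b * B f (S (M.P b) (M.v b) g))
      (B f ((∑' b, x b • S (M.P b) (M.v b)) g)) := by
    refine (h2 : HasSum _ (B f ((∑' b, x b • S (M.P b) (M.v b)) g))).congr_fun' fun b => ?_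
    exact (B_smul_right _ _ _).symm
  have h6 : HasSum (fun b => x b * B (S (M.P b) (M.v b) f) g)
      (B ((∑' b, x b • S (M.P b) (M.v b)) f) g) := by
    rw [B_symm]
    refine (h4 : HasSum _ (B g ((∑' b, x b • S (M.P b) (M.v b)) f))).congr_fun' fun b => ?_
    rw [B_symm]
    exact (B_smul_right _ _ _).symm
  have h7 : HasSum (fun b => x b * B f (S (M.P b) (M.v b) g))
      (B ((∑' b, x b • S (M.P b) (M.v b)) f) g) := by
    have := (M.σe.hasSum_iff).2 h6
    convert this using 1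
    funext b
    simp only [Function.comp, σe, Equiv.coe_fn_mk]
    rw [hx, M.vσ, B_S (fun d => M.Pσ') f g]
  exact h5.unique h7

theorem N_sym {q : ℂ} (hq : ‖q‖ ≤ 2) (f g : H) : B f (M.N q g) = B (M.N q f) g :=
  M.sym_aux (M.w_σ q) (M.term_summable hq) f g

theorem N'_sym {q : ℂ} (hq : ‖q‖ ≤ 2) (f g : H) : B f (M.N' q g) = B (M.N' q f) g :=
  M.sym_aux (M.w'_σ q) (M.term'_summable hq) f g

theorem K_sym {q : ℂ} (hq : ‖q‖ ≤ 2) (f g : H) : B f (M.K q g) = B (M.K q f) g := by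
  have e1 : M.K q g = q ^ 2 • g + M.N q g := rfl
  have e2 : M.K q f = q ^ 2 • f + M.N q f := rfl
  rw [e1, e2, B_add_right, B_add_left, B_smul_right, B_smul_left, M.N_sym hq]

theorem N_star {x : ℝ} (hx : |x| ≤ 2) (f : H) : star (M.N (x : ℂ) f) = M.N (x : ℂ) (star f) := by
  have hq : ‖(x : ℂ)‖ ≤ 2 := by rwa [Complex.norm_real, Real.norm_eq_abs]
  ext d
  rw [lp.star_apply, M.N_apply hq, M.N_apply hq]
  rw [tsum_star]
  refine tsum_congr fun b => ?_
  unfold w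
  rw [star_mul']
  congr 1
  · simp
  · split_ifs <;> simp

theorem K_star {x : ℝ} (hx : |x| ≤ 2) (f : H) : star (M.K (x : ℂ) f) = M.K (x : ℂ) (star f) := by
  have e1 : M.K (x : ℂ) f = (x : ℂ) ^ 2 • f + M.N (x : ℂ) f := rfl
  have e2 : M.K (x : ℂ) (star f) = (x : ℂ) ^ 2 • (star f) + M.N (x : ℂ) (star f) := rfl
  rw [e1, e2, star_add, M.N_star hx, star_smul]
  simp

theorem K_real {x : ℝ} (hx : |x| ≤ 2) (f : H) :
    conj (inner ℂ f (M.K (x : ℂ) f)) = inner ℂ f (M.K (x : ℂ) f) := by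
  have hq : ‖(x : ℂ)‖ ≤ 2 := by rwa [Complex.norm_real, Real.norm_eq_abs]
  have h1 : inner ℂ f (M.K (x : ℂ) f) = B (star f) (M.K (x : ℂ) f) := by
    rw [B_inner, star_star]
  rw [inner_conj_symm]
  rw [h1, M.K_sym hq, ← M.K_star hx, B_inner, star_star]

/-- the generating function of the blocks -/
def m (x : ℝ) : ℝ := x ^ 2 + ∑' b, M.c b * x ^ (M.L b + 2)

theorem m_term_le {x : ℝ} (hx : |x| ≤ 2) (b : M.ι) :
    |M.c b * x ^ (M.L b + 2)| ≤ M.c b * 16 ^ M.L b := by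
  rw [abs_mul, abs_of_nonneg (M.c0 b), abs_pow]
  refine mul_le_mul_of_nonneg_left ?_ (M.c0 b)
  exact (pow_le_pow_left₀ (abs_nonneg _) hx _).trans (pow16' (M.L1 b))

theorem m_summable {x : ℝ} (hx : |x| ≤ 2) : Summable fun b => M.c b * x ^ (M.L b + 2) :=
  Summable.of_norm_bounded M.sm fun b => M.m_term_le hx b

theorem m_cont : ContinuousOn M.m (Set.Icc 0 1) := by
  unfold m
  refine (continuousOn_pow 2).add ?_
  refine continuousOn_tsum (u := fun b => M.c b * 16 ^ M.L b) (fun b => ?_) M.sm ?_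
  · exact (continuous_const.mul (continuous_pow _)).continuousOn
  · intro b x hx
    refine M.m_term_le ?_ b
    rw [abs_of_nonneg hx.1]
    linarith [hx.2]

theorem exists_qc : ∃ x : ℝ, 999 / 1000 ≤ x ∧ x < 1 ∧ M.m x = 1 := by
  have h1 : M.m (999 / 1000) ≤ 1 := by
    unfold m
    have h := M.smp (fun b => M.c b * (999 / 1000 : ℝ) ^ (M.L b + 2)) (fun b => ?_)
      (fun b => mul_nonneg (M.c0 b) (by positivity))
    · have := h.2
      norm_num at this ⊢
      linarith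
    · refine (le_abs_self _).trans (M.m_term_le ?_ b)
      rw [abs_of_nonneg (by norm_num)]
      norm_num
  have h2 : 1 < M.m 1 := by
    unfold m
    have hs := M.m_summable (x := 1) (by norm_num)
    have : 0 < ∑' b, M.c b * (1 : ℝ) ^ (M.L b + 2) := by
      refine hs.tsum_pos (fun b => mul_nonneg (M.c0 b) (by positivity)) M.bp ?_
      rw [M.cbp]
      simpa using M.a0
    linarith
  have h3 := intermediate_value_Icc (show (999 / 1000 : ℝ) ≤ 1 by norm_num)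
    (M.m_cont.mono (Set.Icc_subset_Icc_left (by norm_num)))
  obtain ⟨x, hx, hx1⟩ := h3 ⟨h1, h2.le⟩
  refine ⟨x, hx.1, lt_of_le_of_ne hx.2 ?_, hx1⟩
  rintro rfl
  linarith

/-- the critical value -/
def qc : ℝ := Classical.choose M.exists_qc

theorem qc_ge : 999 / 1000 ≤ M.qc := (Classical.choose_spec M.exists_qc).1
theorem qc_lt : M.qc < 1 := (Classical.choose_spec M.exists_qc).2.1
theorem m_qc : M.m M.qc = 1 := (Classical.choose_spec M.exists_qc).2.2
theorem qc_pos : 0 < M.qc := lt_of_lt_of_le (by norm_num) M.qc_ge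
theorem qc_abs : |M.qc| ≤ 2 := by
  rw [abs_of_pos M.qc_pos]; linarith [M.qc_lt]
theorem qc_norm : ‖(M.qc : ℂ)‖ ≤ 2 := by
  rw [Complex.norm_real]; exact M.qc_abs

end Mdl

end

end KN.SQ
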