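import Mathlib

/-!
# Shift operators with cut-off on `ℓ²(ℤ)`
-/

set_option autoImplicit false

namespace KN.SQ

open Finset Filter Topology
open scoped Classical ENNReal ComplexConjugate

noncomputable section

/-- the space of the square summable functions on `ℤ` -/
abbrev H : Type := lp (fun _ : ℤ => ℂ) 2

theorem two_pos' : (0 : ℝ) < (2 : ℝ≥0∞).toReal := by norm_num

theorem mem2 {f : ℤ → ℂ} : Memℓp f 2 ↔ Summable fun d => ‖f d‖ ^ 2 := by
  rw [memℓp_gen_iff two_pos']
  norm_num

theorem H.sum (f : H) : Summable fun d => ‖f d‖ ^ 2 := mem2.1 (lp.memℓp f)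

theorem H.norm_sq (f : H) : ‖f‖ ^ 2 = ∑' d, ‖f d‖ ^ 2 := by
  have := lp.norm_rpow_eq_tsum two_pos' f
  norm_num at this
  exact this

theorem H.norm_apply (f : H) (d : ℤ) : ‖f d‖ ≤ ‖f‖ := lp.norm_apply_le_norm (by norm_num) f d

theorem cut_summable {f : ℤ → ℂ} (hf : Summable fun d => ‖f d‖ ^ 2) (P : ℤ → Prop) (v : ℤ) :
    Summable fun d => ‖(if P d then f (d - v) else 0 : ℂ)‖ ^ 2 := by
  have h1 : Summable fun d => ‖f (d - v)‖ ^ 2 :=
    (Equiv.subRight v).summable_iff.2 hf
  refine Summable.of_nonneg_of_le (fun d => by positivity) (fun d => ?_) h1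
  split_ifs
  · exact le_rfl
  · simp

theorem cut_tsum {f : ℤ → ℂ} (hf : Summable fun d => ‖f d‖ ^ 2) (P : ℤ → Prop) (v : ℤ) :
    ∑' d, ‖(if P d then f (d - v) else 0 : ℂ)‖ ^ 2 ≤ ∑' d, ‖f d‖ ^ 2 := by
  have h1 : Summable fun d => ‖f (d - v)‖ ^ 2 :=
    (Equiv.subRight v).summable_iff.2 hf
  have h2 : ∑' d, ‖f (d - v)‖ ^ 2 = ∑' d, ‖f d‖ ^ 2 :=
    (Equiv.subRight v).tsum_eq (fun d => ‖f d‖ ^ 2)
  rw [← h2]
  refine (cut_summable hf P v).tsum_le_tsum (fun d => ?_) h1
  split_ifs
  · exact le_rfl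
  · simp

/-- the linear map -/
def Sl (P : ℤ → Prop) (v : ℤ) : H →ₗ[ℂ] H where
  toFun f := ⟨fun d => if P d then f (d - v) else 0, mem2.2 (cut_summable f.sum P v)⟩
  map_add' f g := by
    ext d
    simp only [lp.coeFn_add, Pi.add_apply]
    split_ifs <;> simp
  map_smul' c f := by
    ext d
    simp only [lp.coeFn_smul, Pi.smul_apply, RingHom.id_apply]
    split_ifs <;> simp

theorem Sl_apply (P : ℤ → Prop) (v : ℤ) (f : H) (d : ℤ) :
    Sl P v f d = if P d then f (d - v) else 0 := rfl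

theorem Sl_norm (P : ℤ → Prop) (v : ℤ) (f : H) : ‖Sl P v f‖ ≤ 1 * ‖f‖ := by
  rw [one_mul]
  refine le_of_sq_le_sq ?_ (norm_nonneg _)
  rw [H.norm_sq, H.norm_sq]
  exact cut_tsum f.sum P v

/-- the shift with cut-off -/
def S (P : ℤ → Prop) (v : ℤ) : H →L[ℂ] H := (Sl P v).mkContinuous 1 (Sl_norm P v)

theorem S_apply (P : ℤ → Prop) (v : ℤ) (f : H) (d : ℤ) :
    S P v f d = if P d then f (d - v) else 0 := rfl

theorem S_norm (P : ℤ → Prop) (v : ℤ) : ‖S P v‖ ≤ 1 :=
  (Sl P v).mkContinuous_norm_le zero_le_one _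

/-- evaluation -/
def ev (d : ℤ) : H →L[ℂ] ℂ :=
  LinearMap.mkContinuous
    { toFun := fun f => f d
      map_add' := fun f g => by simp
      map_smul' := fun c f => by simp } 1 (fun f => by
        rw [one_mul]; exact f.norm_apply d)

theorem ev_apply (d : ℤ) (f : H) : ev d f = f d := rfl

/-- the bilinear pairing -/
def B (f g : H) : ℂ := ∑' d, f d * g d

theorem B_summable (f g : H) : Summable fun d => f d * g d := by
  have := lp.summable_inner (𝕜 := ℂ) (star f) g
  refine this.congr fun d => ?_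
  simp [lp.star_apply, mul_comm]

theorem B_summable_norm (f g : H) : Summable fun d => ‖f d‖ * ‖g d‖ := by
  refine Summable.of_nonneg_of_le (fun d => by positivity) (fun d => ?_) (f.sum.add g.sum)
  nlinarith [sq_nonneg (‖f d‖ - ‖g d‖), sq_nonneg (‖f d‖), sq_nonneg (‖g d‖)]

theorem B_inner (f g : H) : B f g = inner ℂ (star f) g := by
  rw [lp.inner_eq_tsum]
  unfold B
  refine tsum_congr fun d => ?_
  simp [lp.star_apply, mul_comm]

theorem B_norm (f g : H) : ‖B f g‖ ≤ ‖f‖ * ‖g‖ := by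
  rw [B_inner]
  refine (norm_inner_le_norm _ _).trans ?_
  rw [norm_star]

theorem B_symm (f g : H) : B f g = B g f := by
  unfold B
  exact tsum_congr fun d => mul_comm _ _

theorem B_add_left (f f' g : H) : B (f + f') g = B f g + B f' g := by
  simp only [B_inner, star_add, inner_add_left]

theorem B_add_right (f g g' : H) : B f (g + g') = B f g + B f g' := by
  simp only [B_inner, inner_add_right]

theorem B_sub_right (f g g' : H) : B f (g - g') = B f g - B f g' := by
  simp only [B_inner, inner_sub_right]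

theorem B_sub_left (f f' g : H) : B (f - f') g = B f g - B f' g := by
  simp only [B_inner, star_sub, inner_sub_left]

theorem B_smul_right (c : ℂ) (f g : H) : B f (c • g) = c * B f g := by
  simp only [B_inner, inner_smul_right]

theorem B_smul_left (c : ℂ) (f g : H) : B (c • f) g = c * B f g := by
  rw [B_symm, B_smul_right, B_symm]

/-- the pairing as a continuous bilinear map -/
def Bc : H →L[ℂ] H →L[ℂ] ℂ :=
  LinearMap.mkContinuous₂ (LinearMap.mk₂ ℂ B B_add_left B_smul_left B_add_right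
    (fun c f g => B_smul_right c f g)) 1 (fun f g => by
      rw [one_mul]; exact B_norm f g)

theorem Bc_apply (f g : H) : Bc f g = B f g := rfl

theorem B_S {P Q : ℤ → Prop} {v : ℤ} (h : ∀ d, P d ↔ Q (d - v)) (f g : H) :
    B f (S P v g) = B (S Q (-v) f) g := by
  unfold B
  rw [← (Equiv.subRight v).tsum_eq (fun d => S Q (-v) f d * g d)]
  refine tsum_congr fun d => ?_
  simp only [Equiv.subRight_apply, S_apply, sub_neg_eq_add, sub_add_cancel]
  by_cases hp : P d
  · rw [if_pos hp, if_pos ((h d).1 hp)]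
  · rw [if_neg hp, if_neg (fun hq => hp ((h d).2 hq))]
    ring

end

end KN.SQ
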