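import Pool.Agent.H132.SQ.En

/-!
# The resolvent and the generating function
-/

set_option autoImplicit false

namespace KN.SQ

open Finset Filter Topology
open scoped Classical ENNReal ComplexConjugate

noncomputable section

/-- a family of caps -/
structure Cap where
  ρ : Type
  a : ρ → ℝ
  m : ρ → ℕ
  x : ρ → ℤ
  a0 : ∀ r, 0 ≤ a r
  xm : ∀ r, |x r| ≤ (m r : ℤ)
  x0 : ∀ r, x r ≠ 0
  sm : Summable fun r => a r * 16 ^ m r

/-- the unit vector -/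
def e (x : ℤ) : H := lp.single 2 x (1 : ℂ)

theorem e_norm (x : ℤ) : ‖e x‖ = 1 := by
  unfold e
  rw [lp.norm_single (by norm_num)]
  simp

theorem e_apply (x d : ℤ) : e x d = if x = d then 1 else 0 := by
  unfold e
  rw [lp.single_apply]
  by_cases h : x = d
  · subst h; simp
  · rw [if_neg h]
    exact Pi.single_eq_of_ne' h _

namespace Cap

variable (C : Cap)

/-- the total weight -/
def T : ℝ := ∑' r, C.a r * 16 ^ C.m r

theorem T_nonneg : 0 ≤ C.T := tsum_nonneg fun r => mul_nonneg (C.a0 r) (by positivity)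

/-- the vector of the caps -/
def cv (q : ℂ) : H := ∑' r, ((C.a r : ℂ) * q ^ C.m r) • e (C.x r)

/-- its derivative -/
def cv' (q : ℂ) : H := ∑' r, ((C.a r : ℂ) * ((C.m r : ℂ) * q ^ (C.m r - 1))) • e (C.x r)

theorem p2 (n : ℕ) : (2 : ℝ) ^ n ≤ 16 ^ n * (1 / 4) ^ n := by
  rw [← mul_pow]
  exact pow_le_pow_left₀ (by norm_num) (by norm_num) _

theorem p3 (n : ℕ) : (n : ℝ) * 2 ^ (n - 1) ≤ 16 ^ n * (1 / 4) ^ n := by
  rw [← mul_pow]
  norm_num
  have h : n * 2 ^ (n - 1) ≤ 4 ^ n := by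
    induction n with
    | zero => simp
    | succ n ih =>
      rcases Nat.eq_zero_or_pos n with rfl | hn
      · simp
      · have e : n + 1 - 1 = (n - 1) + 1 := by omega
        rw [e, pow_succ, pow_succ]
        have : (n + 1) * (2 ^ (n - 1) * 2) ≤ (n * 2 ^ (n - 1)) * 4 := by
          have : n + 1 ≤ 2 * n := by omega
          calc (n + 1) * (2 ^ (n - 1) * 2) ≤ (2 * n) * (2 ^ (n - 1) * 2) :=
                Nat.mul_le_mul_right _ this
            _ = _ := by ring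
        exact this.trans (Nat.mul_le_mul_right _ ih)
  exact_mod_cast h

theorem q4 {r : C.ρ} {d : ℤ} (h : C.x r = d) : ((1 / 4 : ℝ)) ^ C.m r ≤ (1 / 4) ^ d.natAbs := by
  refine pow_le_pow_of_le_one (by norm_num) (by norm_num) ?_
  have := C.xm r
  rw [h, Int.abs_eq_natAbs] at this
  exact_mod_cast this

theorem b_norm {q : ℂ} (hq : ‖q‖ ≤ 2) (r : C.ρ) :
    ‖(C.a r : ℂ) * q ^ C.m r‖ ≤ C.a r * 16 ^ C.m r * (1 / 4) ^ C.m r := by
  rw [norm_mul, norm_pow, Complex.norm_real, Real.norm_eq_abs, abs_of_nonneg (C.a0 r), mul_assoc]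
  refine mul_le_mul_of_nonneg_left ?_ (C.a0 r)
  exact (pow_le_pow_left₀ (norm_nonneg _) hq _).trans (p2 _)

theorem b'_norm {q : ℂ} (hq : ‖q‖ ≤ 2) (r : C.ρ) :
    ‖(C.a r : ℂ) * ((C.m r : ℂ) * q ^ (C.m r - 1))‖ ≤ C.a r * 16 ^ C.m r * (1 / 4) ^ C.m r := by
  rw [norm_mul, norm_mul, norm_pow, Complex.norm_real, Real.norm_eq_abs,
    abs_of_nonneg (C.a0 r), Complex.norm_natCast, mul_assoc]
  refine mul_le_mul_of_nonneg_left ?_ (C.a0 r)
  refine le_trans ?_ (p3 _)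
  exact mul_le_mul_of_nonneg_left (pow_le_pow_left₀ (norm_nonneg _) hq _) (Nat.cast_nonneg _)

theorem qle (r : C.ρ) : C.a r * 16 ^ C.m r * (1 / 4) ^ C.m r ≤ C.a r * 16 ^ C.m r := by
  have := C.a0 r
  exact mul_le_of_le_one_right (by positivity) (pow_le_one₀ (by norm_num) (by norm_num))

theorem summ_aux {x : C.ρ → ℂ} (hx : ∀ r, ‖x r‖ ≤ C.a r * 16 ^ C.m r * (1 / 4) ^ C.m r) :
    Summable fun r => x r • e (C.x r) := by
  refine Summable.of_norm_bounded C.sm fun r => ?_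
  rw [norm_smul, e_norm, mul_one]
  exact (hx r).trans (C.qle r)

theorem apply_aux {x : C.ρ → ℂ} (hx : ∀ r, ‖x r‖ ≤ C.a r * 16 ^ C.m r * (1 / 4) ^ C.m r)
    (d : ℤ) : HasSum (fun r => if C.x r = d then x r else 0) ((∑' r, x r • e (C.x r) : H) d) := by
  have h1 := ContinuousLinearMap.hasSum (ev d) (C.summ_aux hx).hasSum
  have e1 : (fun r => if C.x r = d then x r else 0) = fun r => ev d (x r • e (C.x r)) := by
    funext r
    rw [ev_apply, lp.coeFn_smul, Pi.smul_apply, e_apply]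
    split_ifs <;> simp
  rw [e1]
  exact h1

theorem bd_aux {x : C.ρ → ℂ} (hx : ∀ r, ‖x r‖ ≤ C.a r * 16 ^ C.m r * (1 / 4) ^ C.m r)
    (d : ℤ) : ‖(∑' r, x r • e (C.x r) : H) d‖ ≤ C.T * (1 / 4) ^ d.natAbs := by
  rw [← (C.apply_aux hx d).tsum_eq]
  refine tsum_of_norm_bounded (C.sm.hasSum.mul_right ((1 / 4) ^ d.natAbs)) fun r => ?_
  split_ifs with h
  · refine (hx r).trans ?_
    refine mul_le_mul_of_nonneg_left (C.q4 h) ?_
    have := C.a0 r
    positivity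
  · rw [norm_zero]
    have := C.a0 r
    positivity

theorem cv_bd {q : ℂ} (hq : ‖q‖ ≤ 2) (d : ℤ) : ‖C.cv q d‖ ≤ C.T * (1 / 4) ^ d.natAbs :=
  C.bd_aux (C.b_norm hq) d

theorem cv'_bd {q : ℂ} (hq : ‖q‖ ≤ 2) (d : ℤ) : ‖C.cv' q d‖ ≤ C.T * (1 / 4) ^ d.natAbs :=
  C.bd_aux (C.b'_norm hq) d

theorem cv_zero {q : ℂ} (hq : ‖q‖ ≤ 2) : C.cv q 0 = 0 := by
  unfold cv
  rw [← (C.apply_aux (C.b_norm hq) 0).tsum_eq]
  convert tsum_zero with r
  rw [if_neg (C.x0 r)]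

theorem cv_norm_aux {x : C.ρ → ℂ}
    (hx : ∀ r, ‖x r‖ ≤ C.a r * 16 ^ C.m r * (1 / 4) ^ C.m r) :
    ‖(∑' r, x r • e (C.x r) : H)‖ ≤ C.T := by
  refine tsum_of_norm_bounded C.sm.hasSum fun r => ?_
  rw [norm_smul, e_norm, mul_one]
  exact (hx r).trans (C.qle r)

theorem cv_norm {q : ℂ} (hq : ‖q‖ ≤ 2) : ‖C.cv q‖ ≤ C.T := C.cv_norm_aux (C.b_norm hq)

theorem cv'_norm {q : ℂ} (hq : ‖q‖ ≤ 2) : ‖C.cv' q‖ ≤ C.T := C.cv_norm_aux (C.b'_norm hq)

theorem cv_deriv {q : ℂ} (hq : ‖q‖ < 2) : HasDerivAt C.cv (C.cv' q) q := by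
  have hopen : IsOpen (Metric.ball (0 : ℂ) 2) := Metric.isOpen_ball
  have hpre : IsPreconnected (Metric.ball (0 : ℂ) 2) := (convex_ball _ _).isPreconnected
  refine hasDerivAt_tsum_of_isPreconnected (t := Metric.ball (0 : ℂ) 2)
    (u := fun r => C.a r * 16 ^ C.m r)
    (g := fun r q => ((C.a r : ℂ) * q ^ C.m r) • e (C.x r))
    (g' := fun r q => ((C.a r : ℂ) * ((C.m r : ℂ) * q ^ (C.m r - 1))) • e (C.x r))
    C.sm hopen hpre ?_ ?_ (y₀ := 0)
    (by simp) (C.summ_aux (C.b_norm (by simp))) (by simpa using hq)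
  · intro r y hy
    exact ((hasDerivAt_pow (C.m r) y).const_mul (C.a r : ℂ)).smul_const (e (C.x r))
  · intro r y hy
    rw [norm_smul, e_norm, mul_one]
    exact (C.b'_norm (by simpa using (mem_ball_zero_iff.1 hy).le) r).trans (C.qle r)

end Cap

namespace Mdl

variable (M : Mdl)

/-- the resolvent -/
def G (q : ℂ) : H →L[ℂ] H := Ring.inverse (1 - M.K q)

variable {M}

theorem G_left {q : ℂ} (h : IsUnit (1 - M.K q)) (f : H) : M.G q (f - M.K q f) = f := by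
  have := Ring.inverse_mul_cancel _ h
  have h2 := congrArg (fun T : H →L[ℂ] H => T f) this
  exact h2

theorem G_right {q : ℂ} (h : IsUnit (1 - M.K q)) (f : H) : M.G q f - M.K q (M.G q f) = f := by
  have := Ring.mul_inverse_cancel _ h
  have h2 := congrArg (fun T : H →L[ℂ] H => T f) this
  exact h2

theorem G_sym {q : ℂ} (hq : ‖q‖ ≤ 2) (h : IsUnit (1 - M.K q)) (f g : H) :
    B f (M.G q g) = B (M.G q f) g := by
  have h1 := G_right h f
  have h2 := G_right h g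
  calc B f (M.G q g) = B (M.G q f - M.K q (M.G q f)) (M.G q g) := by rw [h1]
    _ = B (M.G q f) (M.G q g) - B (M.K q (M.G q f)) (M.G q g) := by rw [B_sub_left]
    _ = B (M.G q f) (M.G q g) - B (M.G q f) (M.K q (M.G q g)) := by rw [M.K_sym hq]
    _ = B (M.G q f) (M.G q g - M.K q (M.G q g)) := by rw [B_sub_right]
    _ = _ := by rw [h2]

theorem G_deriv {q : ℂ} (hq : ‖q‖ < 2) (h : IsUnit (1 - M.K q)) :
    HasDerivAt M.G (M.G q * M.K' q * M.G q) q := by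
  obtain ⟨u, hu⟩ := h
  have h1 := hasFDerivAt_ringInverse (𝕜 := ℂ) u
  rw [hu] at h1
  have h2 : HasDerivAt (fun q => 1 - M.K q) (-(M.K' q)) q := (M.K_deriv hq).const_sub 1
  have h3 := h1.comp_hasDerivAt q h2
  have e1 : M.G q = ((u⁻¹ : (H →L[ℂ] H)ˣ) : H →L[ℂ] H) := by
    unfold G; rw [← hu, Ring.inverse_unit]
  have e2 : (-(ContinuousLinearMap.mulLeftRight ℂ (H →L[ℂ] H)
      ((u⁻¹ : (H →L[ℂ] H)ˣ) : H →L[ℂ] H) ((u⁻¹ : (H →L[ℂ] H)ˣ) : H →L[ℂ] H))) (-(M.K' q)) =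
      M.G q * M.K' q * M.G q := by
    rw [e1]
    simp [ContinuousLinearMap.mulLeftRight_apply]
  rw [← e2]
  exact h3

/-- the generating function of the closed chains with two caps -/
def F (M : Mdl) (Cl Cr : Cap) (q : ℂ) : ℂ := B (Cl.cv q) (M.G q (Cr.cv q))

/-- the solution -/
def sol (M : Mdl) (C : Cap) (q : ℂ) : H := M.G q (C.cv q)

/-- the derivative of the generating function -/
def F' (M : Mdl) (Cl Cr : Cap) (q : ℂ) : ℂ :=
  B (Cl.cv' q) (M.sol Cr q) + B (M.sol Cl q) (Cr.cv' q) + B (M.sol Cl q) (M.K' q (M.sol Cr q))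

theorem F_deriv {Cl Cr : Cap} {q : ℂ} (hq : ‖q‖ < 2) (h : IsUnit (1 - M.K q)) :
    HasDerivAt (M.F Cl Cr) (M.F' Cl Cr q) q := by
  have h1 := Cl.cv_deriv hq
  have h2 := Cr.cv_deriv hq
  have h3 := G_deriv hq h
  have h4 : HasDerivAt (fun q => M.G q (Cr.cv q)) ((M.G q * M.K' q * M.G q) (Cr.cv q) +
      M.G q (Cr.cv' q)) q := h3.clm_apply h2
  have h1' : HasDerivAt (fun q => Bc (Cl.cv q)) (Bc (Cl.cv' q)) q :=
    Bc.hasFDerivAt.comp_hasDerivAt q h1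
  have h5 : HasDerivAt (M.F Cl Cr) (B (Cl.cv' q) (M.G q (Cr.cv q)) +
      B (Cl.cv q) ((M.G q * M.K' q * M.G q) (Cr.cv q) + M.G q (Cr.cv' q))) q :=
    h1'.clm_apply h4
  have e1 : M.F' Cl Cr q = B (Cl.cv q) ((M.G q * M.K' q * M.G q) (Cr.cv q) +
      M.G q (Cr.cv' q)) + B (Cl.cv' q) (M.G q (Cr.cv q)) := by
    have e2 : (M.G q * M.K' q * M.G q) (Cr.cv q) = M.G q (M.K' q (M.G q (Cr.cv q))) := rfl
    rw [e2, B_add_right, G_sym hq.le h, G_sym hq.le h]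
    unfold F' sol
    ring
  rw [e1, add_comm]
  exact h5

/-- a ball around a point of the half disc is in the region -/
theorem ball_sub {q : ℂ} (h1 : ‖q‖ ≤ M.qc) (h2 : 0 ≤ q.re) {p : ℂ}
    (hp : ‖p - q‖ < ‖(M.qc : ℂ) - q‖ / 20) : p ∈ M.U := by
  set δ := ‖(M.qc : ℂ) - q‖ with hδ
  have hc1 := M.qc_ge
  have hc2 := M.qc_lt
  have hcn : ‖(M.qc : ℂ)‖ = M.qc := by
    rw [Complex.norm_real, Real.norm_eq_abs, abs_of_pos M.qc_pos]
  have hδ2 : δ ≤ 2 := by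
    refine (norm_sub_le _ _).trans ?_
    rw [hcn]; linarith
  have hδ0 : 0 < δ := by
    have := (norm_nonneg (p - q)).trans_lt hp
    linarith
  have ha : M.qc ≤ ‖(M.qc : ℂ) + q‖ := by
    refine le_trans ?_ (Complex.re_le_norm _)
    simp; linarith
  have hz : M.qc * δ ≤ ‖(M.qc : ℂ) ^ 2 - q ^ 2‖ := by
    rw [sq_sub_sq, norm_mul]
    exact mul_le_mul_of_nonneg_right ha (norm_nonneg _)
  have hr : 0 ≤ ((M.qc : ℂ) ^ 2 - q ^ 2).re := by
    have : (q ^ 2).re ≤ M.qc ^ 2 := by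
      refine (Complex.re_le_norm _).trans ?_
      rw [norm_pow]
      exact pow_le_pow_left₀ (norm_nonneg _) h1 2
    have e : ((M.qc : ℂ) ^ 2).re = M.qc ^ 2 := by
      rw [← Complex.ofReal_pow, Complex.ofReal_re]
    rw [Complex.sub_re, e]; linarith
  have hd : ‖q ^ 2 - p ^ 2‖ ≤ 21 / 200 * δ := by
    rw [sq_sub_sq, norm_mul, norm_sub_rev q p]
    have : ‖q + p‖ ≤ 21 / 10 := by
      have e : q + p = 2 * q + (p - q) := by ring
      rw [e]
      refine (norm_add_le _ _).trans ?_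
      rw [norm_mul]
      norm_num
      linarith
    nlinarith [norm_nonneg (p - q), norm_nonneg (q + p)]
  have e2 : (M.qc : ℂ) ^ 2 - p ^ 2 = ((M.qc : ℂ) ^ 2 - q ^ 2) + (q ^ 2 - p ^ 2) := by ring
  have hz' : M.qc * δ - 21 / 200 * δ ≤ ‖(M.qc : ℂ) ^ 2 - p ^ 2‖ := by
    rw [e2]
    have := norm_sub_le (((M.qc : ℂ) ^ 2 - q ^ 2) + (q ^ 2 - p ^ 2)) (q ^ 2 - p ^ 2)
    rw [add_sub_cancel_right] at this
    linarith
  have hre : -(21 / 200 * δ) ≤ ((M.qc : ℂ) ^ 2 - p ^ 2).re := by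
    rw [e2, Complex.add_re]
    have := (abs_le.1 ((Complex.abs_re_le_norm (q ^ 2 - p ^ 2)).trans hd)).1
    linarith
  refine ⟨?_, ?_, ?_⟩
  · have : ‖p‖ ≤ ‖q‖ + ‖p - q‖ := by
      have := norm_add_le q (p - q)
      rwa [add_sub_cancel] at this
    linarith
  · have : ‖(M.qc : ℂ) + q‖ ≤ ‖(M.qc : ℂ) + p‖ + ‖p - q‖ := by
      have := norm_sub_le ((M.qc : ℂ) + p) (p - q)
      have e : (M.qc : ℂ) + p - (p - q) = (M.qc : ℂ) + q := by ring
      rwa [e] at this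
    linarith
  · nlinarith

/-- near the origin the resolvent exists -/
theorem K_norm {q : ℂ} (hq : ‖q‖ ≤ 2) : ‖M.K q‖ ≤ M.m ‖q‖ := by
  unfold K m
  refine (norm_add_le _ _).trans (add_le_add ?_ ?_)
  · rw [norm_smul, norm_pow]
    have := one_norm_le
    nlinarith [sq_nonneg ‖q‖]
  · refine tsum_of_norm_bounded (M.m_summable (x := ‖q‖) (by
      rwa [abs_of_nonneg (norm_nonneg _)])).hasSum fun b => ?_
    rw [norm_smul]
    unfold w
    rw [norm_mul, norm_pow, Complex.norm_real, Real.norm_eq_abs, abs_of_nonneg (M.c0 b)]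
    have h1 := S_norm (M.P b) (M.v b)
    have h2 : 0 ≤ M.c b * ‖q‖ ^ (M.L b + 2) := mul_nonneg (M.c0 b) (by positivity)
    exact mul_le_of_le_one_right h2 h1

theorem m_lt {x : ℝ} (h0 : 0 ≤ x) (h1 : x < M.qc) : M.m x < 1 := by
  rw [← M.m_qc]
  unfold m
  have h2 := M.qc_lt
  refine add_lt_add_of_lt_of_le (pow_lt_pow_left₀ h1 h0 (by norm_num)) ?_
  refine (M.m_summable (x := x) (by rw [abs_of_nonneg h0]; linarith)).tsum_le_tsum (fun b => ?_)
    (M.m_summable M.qc_abs)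
  exact mul_le_mul_of_nonneg_left (pow_le_pow_left₀ h0 h1.le _) (M.c0 b)

theorem K_lt_one {q : ℂ} (hq : ‖q‖ < M.qc) : ‖M.K q‖ < 1 := by
  have h2 := M.qc_lt
  exact (K_norm (by linarith)).trans_lt (m_lt (norm_nonneg _) hq)

theorem isUnit_of_lt {q : ℂ} (hq : ‖q‖ < M.qc) : IsUnit (1 - M.K q) :=
  isUnit_one_sub_of_norm_lt_one (K_lt_one hq)

theorem G_series {q : ℂ} (hq : ‖q‖ < M.qc) : HasSum (fun n : ℕ => M.K q ^ n) (M.G q) := by
  have h := (summable_geometric_of_norm_lt_one (K_lt_one hq)).hasSum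
  have h2 : ∑' n : ℕ, M.K q ^ n = M.G q := by
    unfold G
    exact (NormedRing.inverse_one_sub _ (K_lt_one hq)) ▸ rfl
  rwa [h2] at h

end Mdl

end

end KN.SQ
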