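import Pool.Agent.H132.SQ.Lk

/-!
# The generating function of the polygons
-/

set_option autoImplicit false

namespace KN.SQ

open KN KN.ST Finset Filter Topology
open scoped Classical ENNReal ComplexOrder

noncomputable section

/-- the left caps at `d` -/
def Lm (S T : ℝ≥0∞) (d : ℤ) : ℝ≥0∞ :=
  ∑' l : List Dir, if Pl l ∧ LA (pt d) l ∧ IL l then ωa S l * T ^ (l.length + 1) else 0

/-- the weight of a decomposed polygon -/
def wx (S : ℝ≥0∞) (x : X3) : ℝ≥0∞ := ωa S x.1 * wl S x.2.1 * ωa S x.2.2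

theorem pl_Rw {bs : List Blk} {r : List Dir} : Pl (Rw bs r) ↔ (∀ b ∈ bs, PB b) ∧ Pl r := by
  induction bs with
  | nil => simp [Rw]
  | cons b bs ih =>
    simp only [Rw, Rw1, pl_append, pl_cons, List.forall_mem_cons, ih, PB]
    constructor
    · rintro ⟨h1, -, ⟨h2, h3⟩, -, h4⟩
      exact ⟨⟨⟨h4, h1⟩, h2⟩, h3⟩
    · rintro ⟨⟨⟨h4, h1⟩, h2⟩, h3⟩
      exact ⟨h1, by simp, ⟨h2, h3⟩, by simp, h4⟩

theorem pl_pw3 {x : X3} : Pl (pw3 x) ↔ Pl x.1 ∧ (∀ b ∈ x.2.1, PB b) ∧ Pl x.2.2 := by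
  unfold pw3 ST.Poly
  simp only [pl_append, pl_cons, pl_Rw]
  constructor
  · rintro ⟨-, h1, -, h2⟩
    exact ⟨h1, h2⟩
  · rintro ⟨h1, h2⟩
    exact ⟨by simp, h1, by simp, h2⟩

/-- decomposed planar polygons in terms of the first difference -/
theorem vd_iff {x : X3} : ((∃ D E, Vd x.1 x.2.1 x.2.2 D E) ∧ Pl (pw3 x)) ↔
    ((Pl x.1 ∧ LA (pt (-(pos x.1).2.1)) x.1 ∧ IL x.1) ∧
      ok (pt (-(pos x.1).2.1)) x.2.1 x.2.2) := by
  rw [pl_pw3]
  constructor
  · rintro ⟨⟨D, E, h⟩, h1, h2, h3⟩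
    have hl : LC x.1 := ⟨h1, D, h.la, h.il⟩
    have hD : D = pt (-(pos x.1).2.1) := by
      have h4 := hl.pt
      have h5 := h.la.en
      rw [h4] at h5
      exact (neg_injective h5).symm
    rw [← hD]
    exact ⟨⟨h1, h.la, h.il⟩, ⟨E, h.vc, h.ra⟩, fun b hb => ⟨h.ir b hb, h2 b hb⟩, h3, h.rr⟩
  · rintro ⟨⟨h1, h2, h3⟩, ⟨E, h4, h5⟩, h6, h7, h8⟩
    exact ⟨⟨_, E, h2, h3, h4, fun b hb => (h6 b hb).1, h5, h8⟩, h1, fun b hb => (h6 b hb).2, h7⟩

theorem la_unique {d : ℤ} {l : List Dir} (h : LA (pt d) l) : d = -(pos l).2.1 := by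
  rw [h.en]
  simp [pt]

/-- the sum over the decomposed polygons -/
theorem total (S T : ℝ≥0∞) : ∑' m : ℕ, ∑' d : ℤ, Lm S T d * Rm S T m d =
    ∑' x : X3, (if (∃ D E, Vd x.1 x.2.1 x.2.2 D E) ∧ Pl (pw3 x) then
      wx S x * T ^ (pw3 x).length else 0) := by
  -- the sum over the number of blocks
  have h1 : ∀ d : ℤ, ∑' m : ℕ, Rm S T m d =
      ∑' bs : List Blk, ∑' r : List Dir, (if ok (pt d) bs r then wc S T bs r else 0) := by
    intro d
    simp only [← chain_Rm]
    rw [ENNReal.tsum_comm]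
    refine tsum_congr fun bs => ?_
    rw [ENNReal.tsum_comm]
    refine tsum_congr fun r => ?_
    by_cases h : ok (pt d) bs r
    · simp only [h, true_and, if_true]
      rw [tsum_eq_single bs.length]
      · simp
      · intro m hm
        rw [if_neg (fun h => hm h.symm)]
    · simp [h]
  rw [ENNReal.tsum_comm]
  simp only [ENNReal.tsum_mul_left, h1]
  have h2 : ∀ d : ℤ, Lm S T d *
      ∑' bs : List Blk, ∑' r : List Dir, (if ok (pt d) bs r then wc S T bs r else 0) =
      ∑' x : X3, (if (Pl x.1 ∧ LA (pt d) x.1 ∧ IL x.1) ∧ ok (pt d) x.2.1 x.2.2 then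
        wx S x * T ^ (pw3 x).length else 0) := by
    intro d
    unfold Lm
    rw [ENNReal.tsum_prod', ← ENNReal.tsum_mul_right]
    refine tsum_congr fun l => ?_
    rw [ENNReal.tsum_prod', ← ENNReal.tsum_mul_left]
    refine tsum_congr fun bs => ?_
    rw [← ENNReal.tsum_mul_left]
    refine tsum_congr fun r => ?_
    by_cases ha : Pl l ∧ LA (pt d) l ∧ IL l
    · by_cases hb : ok (pt d) bs r
      · rw [if_pos ha, if_pos hb]
        refine Eq.trans ?_ (if_pos ⟨ha, hb⟩).symm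
        rw [len_pw3]
        unfold wc wx
        have e : l.length + r.length + 2 + ln bs = (l.length + 1) + (ln bs + (r.length + 1)) := by
          ring
        simp only
        rw [e, pow_add T (l.length + 1), pow_add T (ln bs)]
        ring
      · rw [if_neg hb, mul_zero]
        exact (if_neg (fun h => hb h.2)).symm
    · rw [if_neg ha, zero_mul]
      exact (if_neg (fun h => ha h.1)).symm
  simp only [h2]
  rw [ENNReal.tsum_comm]
  refine tsum_congr fun x => ?_
  rw [tsum_eq_single (-(pos x.1).2.1)]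
  · by_cases h : (∃ D E, Vd x.1 x.2.1 x.2.2 D E) ∧ Pl (pw3 x)
    · rw [if_pos h, if_pos (vd_iff.1 h)]
    · rw [if_neg h, if_neg (fun h' => h (vd_iff.2 h'))]
  · intro d hd
    rw [if_neg]
    rintro ⟨⟨-, h, -⟩, -⟩
    exact hd (la_unique h)

/-- the coefficients -/
def An (S : ℝ≥0∞) (n : ℕ) : ℝ≥0∞ :=
  ∑' x : X3, if (∃ D E, Vd x.1 x.2.1 x.2.2 D E) ∧ (pw3 x).length = n ∧ Pl (pw3 x) then
    wx S x else 0

theorem An_sum (S T : ℝ≥0∞) : ∑' n : ℕ, An S n * T ^ n =
    ∑' x : X3, (if (∃ D E, Vd x.1 x.2.1 x.2.2 D E) ∧ Pl (pw3 x) then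
      wx S x * T ^ (pw3 x).length else 0) := by
  unfold An
  simp only [← ENNReal.tsum_mul_right]
  rw [ENNReal.tsum_comm]
  refine tsum_congr fun x => ?_
  by_cases h : (∃ D E, Vd x.1 x.2.1 x.2.2 D E) ∧ Pl (pw3 x)
  · rw [if_pos h, tsum_eq_single (pw3 x).length]
    · rw [if_pos ⟨h.1, rfl, h.2⟩]
    · intro n hn
      rw [if_neg (fun h => hn h.2.1.symm), zero_mul]
  · rw [if_neg h, ENNReal.tsum_eq_zero]
    intro n
    rw [if_neg (fun h' => h ⟨h'.1, h'.2.2⟩), zero_mul]

section real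

variable {s : ℝ} (hs : Wok s) {t : ℝ}

/-- the generating function on the real line -/
theorem F_val (ht : 0 ≤ t) (ht1 : t < (MM s hs).qc) : ∃ y : ℝ, 0 ≤ y ∧
    (MM s hs).F (CL s hs) (CR s hs) (t : ℂ) = (y : ℂ) ∧
    ENNReal.ofReal y = ∑' n : ℕ, An (ENNReal.ofReal s) n * ENNReal.ofReal t ^ n := by
  have hqc := (MM s hs).qc_lt
  have ht2 : t ≤ 2 := by linarith
  have hn : ‖(t : ℂ)‖ ≤ 2 := by
    rw [Complex.norm_real, Real.norm_eq_abs, abs_of_nonneg ht]; exact ht2
  have hlt : ‖(t : ℂ)‖ < (MM s hs).qc := by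
    rw [Complex.norm_real, Real.norm_eq_abs, abs_of_nonneg ht]; exact ht1
  choose y hy0 hy1 hy2 using fun m => fm_val hs ht ht2 m
  choose z hz0 hz1 hz2 using fun d => cap_val (CL s hs) ht ht2 d
  -- the pairing
  have hB : ∀ m, HasSum (fun d => ((z d * y m d : ℝ) : ℂ))
      (B ((CL s hs).cv (t : ℂ)) (fm s hs t m)) := by
    intro m
    have h1 := (B_summable ((CL s hs).cv (t : ℂ)) (fm s hs t m)).hasSum
    refine h1.congr_fun'' fun d => ?_
    rw [hz1, hy1]; push_cast; ring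
  have hBs : ∀ m, Summable fun d => z d * y m d := fun m =>
    Complex.summable_ofReal.1 (hB m).summable
  have hBv : ∀ m, B ((CL s hs).cv (t : ℂ)) (fm s hs t m) = ((∑' d, z d * y m d : ℝ) : ℂ) := by
    intro m
    rw [← (hB m).tsum_eq]
    exact (Complex.ofReal_tsum _).symm
  have hnn : ∀ m d, 0 ≤ z d * y m d := fun m d => mul_nonneg (hz0 d) (hy0 m d)
  -- the series
  have h2 : HasSum (fun m : ℕ => B ((CL s hs).cv (t : ℂ)) (fm s hs t m))
      ((MM s hs).F (CL s hs) (CR s hs) (t : ℂ)) := by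
    have h3 := (MM s hs).G_series hlt
    have h4 := (ContinuousLinearMap.hasSum
      (ContinuousLinearMap.apply ℂ H ((CR s hs).cv (t : ℂ))) h3)
    exact (ContinuousLinearMap.hasSum (Bc ((CL s hs).cv (t : ℂ))) h4)
  simp only [hBv] at h2
  have hs2 : Summable fun m => ∑' d, z d * y m d := Complex.summable_ofReal.1 h2.summable
  have hnn2 : ∀ m, 0 ≤ ∑' d, z d * y m d := fun m => tsum_nonneg (hnn m)
  refine ⟨∑' m, ∑' d, z d * y m d, tsum_nonneg hnn2, ?_, ?_⟩
  · rw [← h2.tsum_eq]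
    exact (Complex.ofReal_tsum _).symm
  · rw [ENNReal.ofReal_tsum_of_nonneg hnn2 hs2, An_sum, ← total]
    refine tsum_congr fun m => ?_
    rw [ENNReal.ofReal_tsum_of_nonneg (hnn m) (hBs m)]
    refine tsum_congr fun d => ?_
    rw [ENNReal.ofReal_mul (hz0 d), hy2, hz2]
    congr 1
    unfold Lm
    have e : ∀ r : {r : List Dir // LC r}, (if (CL s hs).x r = d then
        ENNReal.ofReal ((CL s hs).a r * t ^ (CL s hs).m r) else 0) =
        (fun r : List Dir => if Pl r ∧ LA (pt d) r ∧ IL r then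
          ωa (ENNReal.ofReal s) r * ENNReal.ofReal t ^ (r.length + 1) else 0) r.1 := by
      rintro ⟨r, hr⟩
      have hx : (CL s hs).x (⟨r, hr⟩ : {r : List Dir // LC r}) = -(pos r).2.1 := rfl
      have ha : (CL s hs).a (⟨r, hr⟩ : {r : List Dir // LC r}) =
        s ^ (4 * r.length - 8 * xt r) := rfl
      have hm : (CL s hs).m (⟨r, hr⟩ : {r : List Dir // LC r}) = r.length + 1 := rfl
      rw [hx, ha, hm]
      simp only
      by_cases hd : -(pos r).2.1 = d
      · have hp : pos r = -pt d := by rw [← hd]; exact hr.pt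
        obtain ⟨k1, D, k2, k3⟩ := hr
        have hD : D = pt d := by
          have := k2.en
          rw [hp] at this
          exact (neg_injective this).symm
        rw [if_pos hd, if_pos ⟨k1, hD ▸ k2, k3⟩, ENNReal.ofReal_mul (pow_nonneg hs.1.le _),
          ofReal_ωa hs.1, ENNReal.ofReal_pow ht]
      · rw [if_neg hd, if_neg]
        rintro ⟨k1, k2, k3⟩
        exact hd (la_unique k2).symm
    refine (tsum_congr e).trans ?_
    refine (tsum_subtype {r : List Dir | LC r} (fun r : List Dir => if Pl r ∧ LA (pt d) r ∧ IL r then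
          ωa (ENNReal.ofReal s) r * ENNReal.ofReal t ^ (r.length + 1) else 0)).trans ?_
    refine tsum_congr fun r => ?_
    by_cases hr : r ∈ {r : List Dir | LC r}
    · rw [Set.indicator_of_mem hr]
    · rw [Set.indicator_of_notMem hr, if_neg]
      rintro ⟨k1, k2, k3⟩
      exact hr ⟨k1, _, k2, k3⟩

include hs in
theorem An_fin (n : ℕ) : An (ENNReal.ofReal s) n ≠ ⊤ := by
  have hqc := (MM s hs).qc_ge
  obtain ⟨y, -, -, h⟩ := F_val hs (t := 1 / 2) (by norm_num) (by linarith)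
  intro htop
  have h1 : ∑' n : ℕ, An (ENNReal.ofReal s) n * ENNReal.ofReal (1 / 2) ^ n = ⊤ := by
    refine ENNReal.tsum_eq_top_of_eq_top ⟨n, ?_⟩
    rw [htop, ENNReal.top_mul]
    exact pow_ne_zero _ (by simp)
  rw [h1] at h
  exact ENNReal.ofReal_ne_top h

/-- the coefficients as real numbers -/
def an (s : ℝ) (n : ℕ) : ℝ := (An (ENNReal.ofReal s) n).toReal

theorem an_hasSum_real (ht : 0 ≤ t) (ht1 : t < (MM s hs).qc) :
    HasSum (fun n => (an s n : ℂ) * (t : ℂ) ^ n) ((MM s hs).F (CL s hs) (CR s hs) (t : ℂ)) := by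
  obtain ⟨y, h0, h1, h2⟩ := F_val hs ht ht1
  have h3 : ∀ n, An (ENNReal.ofReal s) n * ENNReal.ofReal t ^ n =
      ENNReal.ofReal (an s n * t ^ n) := by
    intro n
    unfold an
    rw [ENNReal.ofReal_mul ENNReal.toReal_nonneg, ENNReal.ofReal_toReal (An_fin hs n),
      ENNReal.ofReal_pow ht]
  simp only [h3] at h2
  have hnn : ∀ n, 0 ≤ an s n * t ^ n := fun n => mul_nonneg ENNReal.toReal_nonneg (pow_nonneg ht _)
  have hne : ∑' n : ℕ, ENNReal.ofReal (an s n * t ^ n) ≠ ⊤ := by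
    rw [← h2]; exact ENNReal.ofReal_ne_top
  have h4 : Summable fun n => an s n * t ^ n := by
    have := ENNReal.summable_toReal hne
    refine this.congr fun n => ?_
    rw [ENNReal.toReal_ofReal (hnn n)]
  have h5 : y = ∑' n, an s n * t ^ n := by
    rw [← ENNReal.ofReal_tsum_of_nonneg hnn h4] at h2
    exact (ENNReal.ofReal_eq_ofReal_iff h0 (tsum_nonneg hnn)).1 h2
  rw [h1, h5]
  have h6 := Complex.hasSum_ofReal.2 h4.hasSum
  refine h6.congr_fun'' fun n => ?_
  push_cast; rfl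

/-- the generating function -/
theorem an_hasSum {q : ℂ} (hq : ‖q‖ < (MM s hs).qc) :
    HasSum (fun n => (an s n : ℂ) * q ^ n) ((MM s hs).F (CL s hs) (CR s hs) q) := by
  have hqc0 := (MM s hs).qc_pos
  have hqc := (MM s hs).qc_lt
  set f : ℂ → ℂ := fun q => ∑' n, (an s n : ℂ) * q ^ n with hf
  have hsum : ∀ q : ℂ, ‖q‖ < (MM s hs).qc → HasSum (fun n => (an s n : ℂ) * q ^ n) (f q) := by
    intro q hq
    have h1 := (an_hasSum_real hs (norm_nonneg q) hq).summable
    have h2 : Summable fun n => an s n * ‖q‖ ^ n := by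
      have : (fun n => (an s n : ℂ) * ((‖q‖ : ℝ) : ℂ) ^ n) =
          fun n => ((an s n * ‖q‖ ^ n : ℝ) : ℂ) := by
        funext n; push_cast; rfl
      rw [this] at h1
      exact Complex.summable_ofReal.1 h1
    refine (Summable.of_norm_bounded h2 fun n => ?_).hasSum
    rw [norm_mul, norm_pow, Complex.norm_real, Real.norm_eq_abs,
      abs_of_nonneg (show 0 ≤ an s n from ENNReal.toReal_nonneg)]
  have h1 : DifferentiableOn ℂ f (Metric.ball 0 (MM s hs).qc) := (ser_iter hqc0 hsum).1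
  have h2 : DifferentiableOn ℂ ((MM s hs).F (CL s hs) (CR s hs)) (Metric.ball 0 (MM s hs).qc) := by
    intro p hp
    have hp' : ‖p‖ < (MM s hs).qc := by simpa using hp
    exact (Mdl.F_deriv (by linarith) (Mdl.isUnit_of_lt hp')).differentiableAt.differentiableWithinAt
  have h3 := h1.analyticOnNhd Metric.isOpen_ball
  have h4 := h2.analyticOnNhd Metric.isOpen_ball
  have h5 : Set.EqOn f ((MM s hs).F (CL s hs) (CR s hs)) (Metric.ball 0 (MM s hs).qc) := by
    refine h3.eqOn_of_preconnected_of_frequently_eq h4 (convex_ball _ _).isPreconnected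
      (z₀ := 0) (by simpa using hqc0) ?_
    have h6 : Tendsto (fun k : ℕ => ((1 / ((k : ℝ) + 2) : ℝ) : ℂ)) atTop (𝓝[≠] 0) := by
      rw [tendsto_nhdsWithin_iff]
      refine ⟨?_, Eventually.of_forall fun k => ?_⟩
      · have h7 : Tendsto (fun k : ℕ => (1 / ((k : ℝ) + 2) : ℝ)) atTop (𝓝 0) := by
          have := (tendsto_atTop_add_const_right atTop (2 : ℝ)
            tendsto_natCast_atTop_atTop).inv_tendsto_atTop
          refine this.congr fun k => ?_
          simp
        have := (Complex.continuous_ofReal.tendsto 0).comp h7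
        rw [Complex.ofReal_zero] at this
        exact this
      · simp only [Set.mem_compl_iff, Set.mem_singleton_iff, Complex.ofReal_eq_zero]
        positivity
    refine h6.frequently (Eventually.frequently ?_)
    filter_upwards with k
    have hk : (0 : ℝ) ≤ 1 / ((k : ℝ) + 2) := by positivity
    have hk1 : 1 / ((k : ℝ) + 2) < (MM s hs).qc := by
      have h8 : 1 / ((k : ℝ) + 2) ≤ 1 / 2 := by
        apply one_div_le_one_div_of_le (by norm_num)
        have : (0 : ℝ) ≤ k := Nat.cast_nonneg k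
        linarith
      have := (MM s hs).qc_ge
      linarith
    exact (hsum _ (by
      rw [Complex.norm_real, Real.norm_eq_abs, abs_of_nonneg hk]; exact hk1)).unique
      (an_hasSum_real hs hk hk1)
  have h6 := h5 (show q ∈ Metric.ball 0 (MM s hs).qc by simpa using hq)
  rw [← h6]
  exact hsum q hq

end real

end

end KN.SQ
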