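import Pool.Agent.H132.SQ.Co2

/-!
# Weighted bounds of the solution
-/

set_option autoImplicit false

namespace KN.SQ

open Finset Filter Topology
open scoped Classical ENNReal ComplexConjugate

noncomputable section

/-- the truncated distance to the origin -/
def omt (N : ℕ) (d : ℤ) : ℝ := (min d.natAbs N : ℕ)

theorem omt_nonneg (N : ℕ) (d : ℤ) : 0 ≤ omt N d := Nat.cast_nonneg _

theorem omt_le (N : ℕ) (d : ℤ) : omt N d ≤ N := by
  unfold omt; exact_mod_cast min_le_right _ _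

theorem omt_le' (N : ℕ) (d : ℤ) : omt N d ≤ d.natAbs := by
  unfold omt; exact_mod_cast min_le_left _ _

theorem omt_eq {N : ℕ} {d : ℤ} (h : d.natAbs ≤ N) : omt N d = d.natAbs := by
  unfold omt; rw [min_eq_left h]

theorem omt_diff (N : ℕ) (d v : ℤ) : |omt N d - omt N (d - v)| ≤ v.natAbs := by
  unfold omt
  rw [abs_le]
  constructor
  · have h : min (d - v).natAbs N ≤ min d.natAbs N + v.natAbs := by omega
    have h2 : ((min (d - v).natAbs N : ℕ) : ℝ) ≤ ((min d.natAbs N + v.natAbs : ℕ) : ℝ) := by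
      exact_mod_cast h
    push_cast at h2 ⊢
    linarith
  · have h : min d.natAbs N ≤ min (d - v).natAbs N + v.natAbs := by omega
    have h2 : ((min d.natAbs N : ℕ) : ℝ) ≤ ((min (d - v).natAbs N + v.natAbs : ℕ) : ℝ) := by
      exact_mod_cast h
    push_cast at h2 ⊢
    linarith

theorem norm_le_of_pt {f g : H} {X : ℝ} (hX : 0 ≤ X) (h : ∀ d, ‖f d‖ ≤ X * ‖g d‖) :
    ‖f‖ ≤ X * ‖g‖ := by
  refine le_of_sq_le_sq ?_ (by positivity)
  rw [mul_pow, H.norm_sq, H.norm_sq, ← tsum_mul_left]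
  refine f.sum.tsum_le_tsum (fun d => ?_) (g.sum.mul_left _)
  rw [← mul_pow]
  exact pow_le_pow_left₀ (norm_nonneg _) (h d) 2

/-- multiplication by the truncated distance -/
def Tr (N : ℕ) : H →L[ℂ] H :=
  LinearMap.mkContinuous
    { toFun := fun f => ⟨fun d => (omt N d : ℂ) * f d, mem2.2 (by
        refine Summable.of_nonneg_of_le (fun d => by positivity) (fun d => ?_)
          (f.sum.mul_left ((N : ℝ) ^ 2))
        rw [norm_mul, mul_pow, Complex.norm_real, Real.norm_eq_abs, abs_of_nonneg (omt_nonneg _ _)]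
        exact mul_le_mul_of_nonneg_right (pow_le_pow_left₀ (omt_nonneg _ _) (omt_le _ _) 2)
          (by positivity))⟩
      map_add' := fun f g => by
        ext d
        simp only [lp.coeFn_add, Pi.add_apply]
        ring
      map_smul' := fun c f => by
        ext d
        simp only [lp.coeFn_smul, Pi.smul_apply, RingHom.id_apply, smul_eq_mul]
        ring } N (fun f => by
      refine norm_le_of_pt (Nat.cast_nonneg _) fun d => ?_
      show ‖(omt N d : ℂ) * f d‖ ≤ _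
      rw [norm_mul, Complex.norm_real, Real.norm_eq_abs, abs_of_nonneg (omt_nonneg _ _)]
      exact mul_le_mul_of_nonneg_right (omt_le _ _) (norm_nonneg _))

theorem Tr_apply (N : ℕ) (f : H) (d : ℤ) : Tr N f d = (omt N d : ℂ) * f d := rfl

/-- the commutator with a shift -/
theorem Tr_S (N : ℕ) (P : ℤ → Prop) (v : ℤ) (f : H) :
    ‖Tr N (S P v f) - S P v (Tr N f)‖ ≤ v.natAbs * ‖f‖ := by
  have h : Tr N (S P v f) - S P v (Tr N f) = ((Tr N (S P v f) - S P v (Tr N f)) : H) := rfl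
  have h1 : ∀ d, ‖(Tr N (S P v f) - S P v (Tr N f)) d‖ ≤ v.natAbs * ‖S P v f d‖ := by
    intro d
    have e : (Tr N (S P v f) - S P v (Tr N f)) d = Tr N (S P v f) d - S P v (Tr N f) d := rfl
    rw [e, Tr_apply, S_apply, S_apply]
    split_ifs with hP
    · rw [Tr_apply, ← sub_mul, norm_mul, ← Complex.ofReal_sub, Complex.norm_real, Real.norm_eq_abs]
      exact mul_le_mul_of_nonneg_right (omt_diff _ _ _) (norm_nonneg _)
    · simp
  refine (norm_le_of_pt (Nat.cast_nonneg _) h1).trans ?_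
  refine mul_le_mul_of_nonneg_left ?_ (Nat.cast_nonneg _)
  have := (S P v).le_opNorm f
  have h2 := mul_le_mul_of_nonneg_right (S_norm P v) (norm_nonneg f)
  linarith

theorem Tr_Tr_S (N : ℕ) (P : ℤ → Prop) (v : ℤ) (f : H) :
    ‖Tr N (Tr N (S P v f) - S P v (Tr N f))‖ ≤
      v.natAbs * ‖Tr N f‖ + (v.natAbs : ℝ) ^ 2 * ‖f‖ := by
  have e0 : Tr N (Tr N (S P v f) - S P v (Tr N f)) =
      (Tr N (Tr N (S P v f) - S P v (Tr N f)) - (Tr N (S P v (Tr N f)) - S P v (Tr N (Tr N f)))) +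
      (Tr N (S P v (Tr N f)) - S P v (Tr N (Tr N f))) := by abel
  rw [e0]
  refine (norm_add_le _ _).trans ?_
  rw [add_comm]
  refine add_le_add (Tr_S N P v (Tr N f)) ?_
  have h1 : ∀ d, ‖(Tr N (Tr N (S P v f) - S P v (Tr N f)) -
      (Tr N (S P v (Tr N f)) - S P v (Tr N (Tr N f)))) d‖ ≤ (v.natAbs : ℝ) ^ 2 * ‖S P v f d‖ := by
    intro d
    have e : (Tr N (Tr N (S P v f) - S P v (Tr N f)) -
      (Tr N (S P v (Tr N f)) - S P v (Tr N (Tr N f)))) d =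
      (omt N d : ℂ) * (Tr N (S P v f) d - S P v (Tr N f) d) -
        (Tr N (S P v (Tr N f)) d - S P v (Tr N (Tr N f)) d) := rfl
    rw [e, Tr_apply, Tr_apply, S_apply, S_apply, S_apply]
    split_ifs with hP
    · rw [Tr_apply, Tr_apply, Tr_apply]
      have e2 : (omt N d : ℂ) * ((omt N d : ℂ) * f (d - v) - (omt N (d - v) : ℂ) * f (d - v)) -
          ((omt N d : ℂ) * ((omt N (d - v) : ℂ) * f (d - v)) -
            (omt N (d - v) : ℂ) * ((omt N (d - v) : ℂ) * f (d - v))) =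
          ((omt N d - omt N (d - v) : ℝ) : ℂ) ^ 2 * f (d - v) := by push_cast; ring
      rw [e2, norm_mul, norm_pow, Complex.norm_real, Real.norm_eq_abs]
      exact mul_le_mul_of_nonneg_right (pow_le_pow_left₀ (abs_nonneg _) (omt_diff _ _ _) 2)
        (norm_nonneg _)
    · simp
  refine (norm_le_of_pt (by positivity) h1).trans ?_
  refine mul_le_mul_of_nonneg_left ?_ (by positivity)
  have := (S P v).le_opNorm f
  have h2 := mul_le_mul_of_nonneg_right (S_norm P v) (norm_nonneg f)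
  linarith

namespace Mdl

variable {M : Mdl} {C : Cap}

theorem w_sq_le {q : ℂ} (hq : ‖q‖ ≤ 2) (b : M.ι) :
    ‖M.w q b‖ * (M.v b).natAbs ≤ M.c b * 16 ^ M.L b * 4 ∧
    ‖M.w q b‖ * ((M.v b).natAbs : ℝ) ^ 2 ≤ M.c b * 16 ^ M.L b * 4 := by
  have h1 := w_norm' (M := M) hq b
  have hc := M.c0 b
  have hv := vn_le (M := M) b
  have h2 : ((M.v b).natAbs : ℝ) ≤ M.L b := by exact_mod_cast hv
  have h3 : ((M.v b).natAbs : ℝ) ^ 2 ≤ 4 ^ M.L b := by
    calc ((M.v b).natAbs : ℝ) ^ 2 ≤ (M.L b : ℝ) ^ 2 :=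
          pow_le_pow_left₀ (Nat.cast_nonneg _) h2 2
      _ ≤ _ := by exact_mod_cast nat_sq4 (M.L b)
  have h4 : ((M.v b).natAbs : ℝ) ≤ 4 ^ M.L b := by
    refine h2.trans ?_
    have : M.L b < 4 ^ M.L b := Nat.lt_pow_self (by norm_num)
    exact_mod_cast this.le
  have h5 : (2 : ℝ) ^ M.L b * 4 ^ M.L b ≤ 16 ^ M.L b := by
    rw [← mul_pow]; exact pow_le_pow_left₀ (by norm_num) (by norm_num) _
  constructor
  · calc _ ≤ (4 * 2 ^ M.L b * M.c b) * 4 ^ M.L b :=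
          mul_le_mul h1 h4 (Nat.cast_nonneg _) (by positivity)
      _ = M.c b * (2 ^ M.L b * 4 ^ M.L b) * 4 := by ring
      _ ≤ _ := by gcongr
  · calc _ ≤ (4 * 2 ^ M.L b * M.c b) * 4 ^ M.L b :=
          mul_le_mul h1 h3 (by positivity) (by positivity)
      _ = M.c b * (2 ^ M.L b * 4 ^ M.L b) * 4 := by ring
      _ ≤ _ := by gcongr

theorem com_hasSum {q : ℂ} (hq : ‖q‖ ≤ 2) (N : ℕ) (f : H) :
    HasSum (fun b => M.w q b • (Tr N (S (M.P b) (M.v b) f) - S (M.P b) (M.v b) (Tr N f)))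
      (Tr N (M.K q f) - M.K q (Tr N f)) := by
  have h1 := M.term_summable hq
  have h2 := (ContinuousLinearMap.hasSum (ContinuousLinearMap.apply ℂ H f) h1.hasSum)
  have h3 := (ContinuousLinearMap.hasSum (Tr N) h2)
  have h4 := (ContinuousLinearMap.hasSum (ContinuousLinearMap.apply ℂ H (Tr N f)) h1.hasSum)
  have h5 := h3.sub h4
  have e1 : Tr N (M.K q f) - M.K q (Tr N f) = Tr N (M.N q f) - M.N q (Tr N f) := by
    have e2 : M.K q f = q ^ 2 • f + M.N q f := rfl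
    have e3 : M.K q (Tr N f) = q ^ 2 • (Tr N f) + M.N q (Tr N f) := rfl
    rw [e2, e3, map_add, map_smul]
    abel
  rw [e1]
  refine HasSum.congr_fun_H h5 fun b => ?_
  show _ = Tr N (M.w q b • S (M.P b) (M.v b) f) - M.w q b • S (M.P b) (M.v b) (Tr N f)
  rw [map_smul, smul_sub]
where
  HasSum.congr_fun_H {ι : Type} {f g : ι → H} {a : H} (h : HasSum f a)
      (hfg : ∀ b, g b = f b) : HasSum g a := by
    have : g = f := funext hfg
    rw [this]; exact h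

theorem com_bd {q : ℂ} (hq : ‖q‖ ≤ 2) (N : ℕ) (f : H) :
    ‖Tr N (M.K q f) - M.K q (Tr N f)‖ ≤ ‖f‖ := by
  have h1 := com_hasSum (M := M) hq N f
  rw [← h1.tsum_eq]
  have h2 := tsum_of_norm_bounded (f := fun b => M.w q b • (Tr N (S (M.P b) (M.v b) f) -
    S (M.P b) (M.v b) (Tr N f))) (M.sm.hasSum.mul_right (4 * ‖f‖)) (fun b => by
      rw [norm_smul]
      have h3 := Tr_S N (M.P b) (M.v b) f
      have h4 := (w_sq_le (M := M) hq b).1
      calc ‖M.w q b‖ * ‖Tr N (S (M.P b) (M.v b) f) - S (M.P b) (M.v b) (Tr N f)‖ ≤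
            ‖M.w q b‖ * ((M.v b).natAbs * ‖f‖) := mul_le_mul_of_nonneg_left h3 (norm_nonneg _)
        _ = (‖M.w q b‖ * (M.v b).natAbs) * ‖f‖ := by ring
        _ ≤ (M.c b * 16 ^ M.L b * 4) * ‖f‖ := mul_le_mul_of_nonneg_right h4 (norm_nonneg _)
        _ = _ := by ring)
  refine h2.trans ?_
  have h3 := M.s1
  have h4 := norm_nonneg f
  nlinarith

theorem com_bd2 {q : ℂ} (hq : ‖q‖ ≤ 2) (N : ℕ) (f : H) :
    ‖Tr N (Tr N (M.K q f) - M.K q (Tr N f))‖ ≤ ‖Tr N f‖ + ‖f‖ := by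
  have h1 := ContinuousLinearMap.hasSum (Tr N) (com_hasSum (M := M) hq N f)
  rw [← h1.tsum_eq]
  have h2 := tsum_of_norm_bounded (f := fun b => Tr N (M.w q b • (Tr N (S (M.P b) (M.v b) f) -
    S (M.P b) (M.v b) (Tr N f)))) (M.sm.hasSum.mul_right (4 * (‖Tr N f‖ + ‖f‖))) (fun b => by
      rw [map_smul, norm_smul]
      have h3 := Tr_Tr_S N (M.P b) (M.v b) f
      have h4 := w_sq_le (M := M) hq b
      calc ‖M.w q b‖ * ‖Tr N (Tr N (S (M.P b) (M.v b) f) - S (M.P b) (M.v b) (Tr N f))‖ ≤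
            ‖M.w q b‖ * ((M.v b).natAbs * ‖Tr N f‖ + ((M.v b).natAbs : ℝ) ^ 2 * ‖f‖) :=
            mul_le_mul_of_nonneg_left h3 (norm_nonneg _)
        _ = (‖M.w q b‖ * (M.v b).natAbs) * ‖Tr N f‖ +
            (‖M.w q b‖ * ((M.v b).natAbs : ℝ) ^ 2) * ‖f‖ := by ring
        _ ≤ (M.c b * 16 ^ M.L b * 4) * ‖Tr N f‖ + (M.c b * 16 ^ M.L b * 4) * ‖f‖ :=
            add_le_add (mul_le_mul_of_nonneg_right h4.1 (norm_nonneg _))
              (mul_le_mul_of_nonneg_right h4.2 (norm_nonneg _))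
        _ = _ := by ring)
  refine h2.trans ?_
  have h3 := M.s1
  have h4 := norm_nonneg f
  have h5 := norm_nonneg (Tr N f)
  nlinarith

theorem res_bd {q : ℂ} (hq : q ∈ M.U) (f : H) :
    ‖f‖ ≤ 8 * ‖f - M.K q f‖ / ‖(M.qc : ℂ) - q‖ := by
  have h1 := M.num_range hq f
  have h2 := norm_inner_le_norm (𝕜 := ℂ) f (f - M.K q f)
  have h3 := M.A_nonneg f
  have h4 := M.qc_ne hq
  rw [le_div_iff₀ h4]
  rcases (norm_nonneg f).eq_or_lt with h5 | h5
  · rw [← h5, zero_mul]; positivity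
  · have h6 : ‖f‖ * (‖f‖ * ‖(M.qc : ℂ) - q‖) ≤ ‖f‖ * (8 * ‖f - M.K q f‖) := by nlinarith
    exact le_of_mul_le_mul_left h6 h5

/-- the first weighted bound -/
theorem wt1_bd {q : ℂ} (hq : q ∈ M.U) (N : ℕ) (f : H) :
    ‖Tr N f‖ ≤ 8 * (‖Tr N (f - M.K q f)‖ + ‖f‖) / ‖(M.qc : ℂ) - q‖ := by
  have h1 := res_bd hq (Tr N f)
  have h4 := M.qc_ne hq
  refine h1.trans ?_
  refine div_le_div_of_nonneg_right (mul_le_mul_of_nonneg_left ?_ (by norm_num)) h4.le
  have e : Tr N f - M.K q (Tr N f) = Tr N (f - M.K q f) + (Tr N (M.K q f) - M.K q (Tr N f)) := by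
    rw [map_sub]; abel
  rw [e]
  exact (norm_add_le _ _).trans (add_le_add le_rfl (com_bd hq.1.le N f))

/-- the second weighted bound -/
theorem wt2_bd {q : ℂ} (hq : q ∈ M.U) (N : ℕ) (f : H) :
    ‖Tr N (Tr N f)‖ ≤ 8 * (‖Tr N (Tr N (f - M.K q f))‖ + 2 * ‖Tr N f‖ + ‖f‖) /
      ‖(M.qc : ℂ) - q‖ := by
  have h1 := res_bd hq (Tr N (Tr N f))
  have h4 := M.qc_ne hq
  refine h1.trans ?_
  refine div_le_div_of_nonneg_right (mul_le_mul_of_nonneg_left ?_ (by norm_num)) h4.le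
  have e : Tr N (Tr N f) - M.K q (Tr N (Tr N f)) = Tr N (Tr N (f - M.K q f)) +
      Tr N (Tr N (M.K q f) - M.K q (Tr N f)) +
      (Tr N (M.K q (Tr N f)) - M.K q (Tr N (Tr N f))) := by
    simp only [map_sub]; abel
  rw [e]
  have h5 := com_bd hq.1.le N (M := M) (Tr N f)
  have h6 := com_bd2 hq.1.le N (M := M) f
  have h7 := norm_add_le (Tr N (Tr N (f - M.K q f)) +
      Tr N (Tr N (M.K q f) - M.K q (Tr N f))) (Tr N (M.K q (Tr N f)) - M.K q (Tr N (Tr N f)))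
  have h8 := norm_add_le (Tr N (Tr N (f - M.K q f))) (Tr N (Tr N (M.K q f) - M.K q (Tr N f)))
  linarith

end Mdl

/-! ### the full weight -/

/-- multiplication by the distance -/
def xf (f : H) : H := toH fun d => (d.natAbs : ℂ) * f d

theorem tr_finset {N : ℕ} (f : H) {s : Finset ℤ} (hs : ∀ d ∈ s, d.natAbs ≤ N) :
    ∑ d ∈ s, ‖(d.natAbs : ℂ) * f d‖ ^ 2 ≤ ‖Tr N f‖ ^ 2 := by
  rw [H.norm_sq]
  have h1 : ∑ d ∈ s, ‖(d.natAbs : ℂ) * f d‖ ^ 2 = ∑ d ∈ s, ‖Tr N f d‖ ^ 2 := by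
    refine sum_congr rfl fun d hd => ?_
    rw [Tr_apply, omt_eq (hs d hd)]
    simp
  rw [h1]
  exact (Tr N f).sum.sum_le_tsum _ fun d _ => by positivity

theorem finset_bd (s : Finset ℤ) : ∃ N : ℕ, ∀ d ∈ s, d.natAbs ≤ N :=
  ⟨s.sup Int.natAbs, fun _ hd => Finset.le_sup (f := Int.natAbs) hd⟩

/-- a bound of the truncations gives the full weight -/
theorem xf_of {f : H} {X : ℝ} (h : ∀ N, ‖Tr N f‖ ≤ X) :
    (Summable fun d : ℤ => ‖(d.natAbs : ℂ) * f d‖ ^ 2) ∧ ‖xf f‖ ≤ X := by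
  have hX : 0 ≤ X := (norm_nonneg _).trans (h 0)
  have h1 : ∀ s : Finset ℤ, ∑ d ∈ s, ‖(d.natAbs : ℂ) * f d‖ ^ 2 ≤ X ^ 2 := by
    intro s
    obtain ⟨N, hN⟩ := finset_bd s
    exact (tr_finset f hN).trans (pow_le_pow_left₀ (norm_nonneg _) (h N) 2)
  have h2 : Summable fun d : ℤ => ‖(d.natAbs : ℂ) * f d‖ ^ 2 :=
    summable_of_sum_le (fun d => by positivity) h1
  refine ⟨h2, ?_⟩
  refine le_of_sq_le_sq ?_ hX
  rw [H.norm_sq]
  unfold xf
  have h3 : ∑' d : ℤ, ‖toH (fun d => (d.natAbs : ℂ) * f d) d‖ ^ 2 =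
      ∑' d : ℤ, ‖(d.natAbs : ℂ) * f d‖ ^ 2 := tsum_congr fun d => by rw [toH_apply h2]
  rw [h3]
  exact h2.tsum_le_of_sum_le h1

/-- having a weight -/
def Wt (f : H) : Prop := Summable fun d : ℤ => ‖(d.natAbs : ℂ) * f d‖ ^ 2

theorem xf_apply {f : H} (h : Wt f) (d : ℤ) : xf f d = (d.natAbs : ℂ) * f d := toH_apply h d

theorem Tr_le_xf {f : H} (h : Wt f) (N : ℕ) : ‖Tr N f‖ ≤ ‖xf f‖ := by
  have := norm_le_of_pt (f := Tr N f) (g := xf f) zero_le_one (fun d => by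
    rw [xf_apply h, Tr_apply, norm_mul, norm_mul, one_mul, Complex.norm_real, Real.norm_eq_abs,
      abs_of_nonneg (omt_nonneg _ _), Complex.norm_natCast]
    exact mul_le_mul_of_nonneg_right (omt_le' _ _) (norm_nonneg _))
  linarith

theorem Wt.add {f g : H} (hf : Wt f) (hg : Wt g) : Wt (f + g) ∧ xf (f + g) = xf f + xf g := by
  have h1 : Wt (f + g) := by
    refine (xf_of (X := ‖xf f‖ + ‖xf g‖) fun N => ?_).1
    rw [map_add]
    exact (norm_add_le _ _).trans (add_le_add (Tr_le_xf hf N) (Tr_le_xf hg N))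
  refine ⟨h1, ?_⟩
  ext d
  rw [xf_apply h1, lp.coeFn_add, Pi.add_apply, lp.coeFn_add, Pi.add_apply, xf_apply hf,
    xf_apply hg]
  ring

theorem wt_of_bd {f : H} {X r : ℝ} (h0 : 0 ≤ r) (h1 : r < 1)
    (h : ∀ d : ℤ, ‖(d.natAbs : ℂ) * f d‖ ≤ X * r ^ d.natAbs) : Wt f :=
  summable_of_bd h0 h1 h

/-- the difference of the weight and its truncation -/
theorem xf_sub {f : H} {X : ℝ} (h1 : Wt f) (h : ∀ N, ‖Tr N (Tr N f)‖ ≤ X) {N : ℕ} (hN : 1 ≤ N) :
    ‖xf f - Tr N f‖ ≤ X / N := by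
  have hX : 0 ≤ X := (norm_nonneg _).trans (h 0)
  have hN0 : (0 : ℝ) < N := by exact_mod_cast hN
  refine le_of_sq_le_sq ?_ (by positivity)
  rw [H.norm_sq]
  refine (xf f - Tr N f).sum.tsum_le_of_sum_le fun s => ?_
  obtain ⟨K, hK⟩ := finset_bd s
  have h2 : ∀ d ∈ s, ‖(xf f - Tr N f) d‖ ^ 2 ≤ (1 / (N : ℝ)) ^ 2 * ‖Tr K (Tr K f) d‖ ^ 2 := by
    intro d hd
    rw [← mul_pow]
    refine pow_le_pow_left₀ (norm_nonneg _) ?_ 2
    have e : (xf f - Tr N f) d = xf f d - Tr N f d := rfl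
    rw [e, xf_apply h1, Tr_apply, Tr_apply, Tr_apply, omt_eq (hK d hd), norm_mul, norm_mul,
      Complex.norm_real, Real.norm_natCast, ← sub_mul, norm_mul]
    have e2 : ((d.natAbs : ℂ) - (omt N d : ℂ)) = ((d.natAbs - omt N d : ℝ) : ℂ) := by push_cast; rfl
    rw [e2, Complex.norm_real, Real.norm_eq_abs, abs_of_nonneg (by linarith [omt_le' N d])]
    rw [← mul_assoc, ← mul_assoc]
    refine mul_le_mul_of_nonneg_right ?_ (norm_nonneg _)
    rcases Nat.lt_or_ge N d.natAbs with h3 | h3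
    · have h4 : (N : ℝ) ≤ d.natAbs := by exact_mod_cast h3.le
      have h5 := omt_nonneg N d
      rw [mul_assoc, div_mul_eq_mul_div, one_mul, le_div_iff₀ hN0]
      nlinarith
    · rw [omt_eq h3, sub_self]
      positivity
  refine (sum_le_sum h2).trans ?_
  rw [← mul_sum]
  have h3 : ∑ d ∈ s, ‖Tr K (Tr K f) d‖ ^ 2 ≤ X ^ 2 := by
    refine le_trans ((Tr K (Tr K f)).sum.sum_le_tsum _ fun d _ => by positivity) ?_
    rw [← H.norm_sq]
    exact pow_le_pow_left₀ (norm_nonneg _) (h K) 2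
  calc (1 / (N : ℝ)) ^ 2 * ∑ d ∈ s, ‖Tr K (Tr K f) d‖ ^ 2 ≤ (1 / (N : ℝ)) ^ 2 * X ^ 2 :=
        mul_le_mul_of_nonneg_left h3 (by positivity)
    _ = (X / N) ^ 2 := by ring

end

end KN.SQ
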