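import Pool.Agent.H132.SQ.W1

/-!
# Weighted bounds of the solution, analyticity
-/

set_option autoImplicit false

namespace KN.SQ

open Finset Filter Topology
open scoped Classical ENNReal ComplexConjugate

noncomputable section

theorem sq_le_two_pow (n : ℕ) : n ^ 2 ≤ 2 * 2 ^ n := by
  rcases Nat.lt_or_ge n 3 with h | h
  · interval_cases n <;> norm_num
  · induction n, h using Nat.le_induction with
    | base => norm_num
    | succ n hn ih =>
      have h1 : (n + 1) ^ 2 ≤ 2 * n ^ 2 := by nlinarith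
      calc (n + 1) ^ 2 ≤ 2 * n ^ 2 := h1
        _ ≤ 2 * (2 * 2 ^ n) := Nat.mul_le_mul_left _ ih
        _ = _ := by rw [pow_succ]; ring

theorem geom3 : ∑' d : ℤ, (1 / 2 : ℝ) ^ d.natAbs = 3 := by
  rw [(geom_int_hasSum (r := 1 / 2) (by norm_num) (by norm_num)).tsum_eq]
  norm_num

theorem norm_of_half {f : H} {X : ℝ} (hX : 0 ≤ X) (h : ∀ d : ℤ, ‖f d‖ ≤ X * (1 / 2) ^ d.natAbs) :
    ‖f‖ ≤ 2 * X := by
  have h1 := norm_sq_le (f := f) (r := 1 / 2) (by norm_num) (by norm_num) h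
  rw [geom3] at h1
  refine le_of_sq_le_sq ?_ (by positivity)
  nlinarith [sq_nonneg X]

namespace Mdl

variable {M : Mdl} {C : Cap}

theorem cv_tr {q : ℂ} (hq : ‖q‖ ≤ 2) (N : ℕ) : ‖Tr N (C.cv q)‖ ≤ 2 * C.T := by
  refine norm_of_half C.T_nonneg fun d => ?_
  rw [Tr_apply, norm_mul, Complex.norm_real, Real.norm_eq_abs, abs_of_nonneg (omt_nonneg _ _)]
  have h1 := C.cv_bd hq d
  have h2 := omt_le' N d
  have h3 := half_pow d.natAbs
  have hT := C.T_nonneg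
  calc omt N d * ‖C.cv q d‖ ≤ d.natAbs * (C.T * (1 / 4) ^ d.natAbs) :=
        mul_le_mul h2 h1 (norm_nonneg _) (Nat.cast_nonneg _)
    _ = C.T * (d.natAbs * (1 / 4) ^ d.natAbs) := by ring
    _ ≤ _ := mul_le_mul_of_nonneg_left h3 hT

theorem cv_tr2 {q : ℂ} (hq : ‖q‖ ≤ 2) (N : ℕ) : ‖Tr N (Tr N (C.cv q))‖ ≤ 4 * C.T := by
  have hT := C.T_nonneg
  have := norm_of_half (f := Tr N (Tr N (C.cv q))) (X := 2 * C.T) (by positivity) fun d => ?_
  · linarith
  rw [Tr_apply, Tr_apply, norm_mul, norm_mul, Complex.norm_real, Real.norm_eq_abs,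
    abs_of_nonneg (omt_nonneg _ _)]
  have h1 := C.cv_bd hq d
  have h2 := omt_le' N d
  have h0 := omt_nonneg N d
  have h3 : ((d.natAbs : ℕ) : ℝ) ^ 2 ≤ 2 * 2 ^ d.natAbs := by exact_mod_cast sq_le_two_pow d.natAbs
  calc omt N d * (omt N d * ‖C.cv q d‖) ≤ d.natAbs * (d.natAbs * (C.T * (1 / 4) ^ d.natAbs)) :=
        mul_le_mul h2 (mul_le_mul h2 h1 (norm_nonneg _) (Nat.cast_nonneg _))
          (mul_nonneg h0 (norm_nonneg _)) (Nat.cast_nonneg _)
    _ = C.T * (1 / 4) ^ d.natAbs * ((d.natAbs : ℝ) ^ 2) := by ring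
    _ ≤ C.T * (1 / 4) ^ d.natAbs * (2 * 2 ^ d.natAbs) :=
        mul_le_mul_of_nonneg_left h3 (by positivity)
    _ = 2 * C.T * ((1 / 4) ^ d.natAbs * 2 ^ d.natAbs) := by ring
    _ = _ := by rw [← mul_pow]; norm_num

/-- the bounds of the truncations of the solution -/
def B1 (C : Cap) (x : ℝ) : ℝ := 8 * (2 * C.T + 8 * C.T / x) / x
def B2 (C : Cap) (x : ℝ) : ℝ := 8 * (4 * C.T + 2 * B1 C x + 8 * C.T / x) / x

theorem B1_anti {x y : ℝ} (hx : 0 < x) (hxy : x ≤ y) : B1 C y ≤ B1 C x := by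
  unfold B1
  have hT := C.T_nonneg
  have hy : 0 < y := hx.trans_le hxy
  refine div_le_div₀ (by positivity) ?_ hx hxy
  have := div_le_div_of_nonneg_left (show 0 ≤ 8 * C.T by positivity) hx hxy
  linarith

theorem B1_nonneg {x : ℝ} (hx : 0 < x) : 0 ≤ B1 C x := by
  unfold B1
  have hT := C.T_nonneg
  positivity

theorem B2_anti {x y : ℝ} (hx : 0 < x) (hxy : x ≤ y) : B2 C y ≤ B2 C x := by
  unfold B2
  have hT := C.T_nonneg
  have hy : 0 < y := hx.trans_le hxy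
  have h1 := B1_anti (C := C) hx hxy
  have h2 := B1_nonneg (C := C) hx
  refine div_le_div₀ (by positivity) ?_ hx hxy
  have := div_le_div_of_nonneg_left (show 0 ≤ 8 * C.T by positivity) hx hxy
  linarith

theorem B2_nonneg {x : ℝ} (hx : 0 < x) : 0 ≤ B2 C x := by
  unfold B2
  have hT := C.T_nonneg
  have h2 := B1_nonneg (C := C) hx
  positivity

theorem sol_tr {q : ℂ} (hq : q ∈ M.U) (N : ℕ) : ‖Tr N (M.sol C q)‖ ≤ B1 C ‖(M.qc : ℂ) - q‖ := by
  have h1 := wt1_bd hq N (M.sol C q)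
  rw [sol_eq (M.isUnit_of_U hq)] at h1
  refine h1.trans ?_
  unfold B1
  refine div_le_div_of_nonneg_right (mul_le_mul_of_nonneg_left ?_ (by norm_num)) (norm_nonneg _)
  exact add_le_add (cv_tr hq.1.le N) (sol_norm hq)

theorem sol_tr2 {q : ℂ} (hq : q ∈ M.U) (N : ℕ) :
    ‖Tr N (Tr N (M.sol C q))‖ ≤ B2 C ‖(M.qc : ℂ) - q‖ := by
  have h1 := wt2_bd hq N (M.sol C q)
  rw [sol_eq (M.isUnit_of_U hq)] at h1
  refine h1.trans ?_
  unfold B2
  refine div_le_div_of_nonneg_right (mul_le_mul_of_nonneg_left ?_ (by norm_num)) (norm_nonneg _)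
  exact add_le_add (add_le_add (cv_tr2 hq.1.le N) (mul_le_mul_of_nonneg_left (sol_tr hq N)
    (by norm_num))) (sol_norm hq)

theorem sol_wt {q : ℂ} (hq : q ∈ M.U) : Wt (M.sol C q) := (xf_of (sol_tr hq)).1

theorem sol_xf {q : ℂ} (hq : q ∈ M.U) : ‖xf (M.sol C q)‖ ≤ B1 C ‖(M.qc : ℂ) - q‖ :=
  (xf_of (sol_tr hq)).2

theorem sol_deriv {q : ℂ} (hq : q ∈ M.U) : DifferentiableAt ℂ (M.sol C) q :=
  ((G_deriv hq.1 (M.isUnit_of_U hq)).clm_apply (C.cv_deriv hq.1)).differentiableAt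

/-- the weighted solution is analytic -/
theorem xf_diff : DifferentiableOn ℂ (fun q => xf (M.sol C q)) M.U := by
  have h1 : TendstoLocallyUniformlyOn (fun (N : ℕ) q => Tr N (M.sol C q))
      (fun q => xf (M.sol C q)) atTop M.U := by
    rw [Metric.tendstoLocallyUniformlyOn_iff]
    intro ε hε q hq
    have hδ := M.qc_ne hq
    set δ := ‖(M.qc : ℂ) - q‖ with hδd
    have hc : Continuous fun p : ℂ => ‖(M.qc : ℂ) - p‖ := by fun_prop
    have hnb : {p : ℂ | δ / 2 < ‖(M.qc : ℂ) - p‖} ∈ 𝓝 q :=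
      (isOpen_lt continuous_const hc).mem_nhds (by
        show δ / 2 < ‖(M.qc : ℂ) - q‖
        rw [← hδd]; linarith)
    refine ⟨{p : ℂ | δ / 2 < ‖(M.qc : ℂ) - p‖} ∩ M.U, inter_mem (mem_nhdsWithin_of_mem_nhds hnb)
      self_mem_nhdsWithin, ?_⟩
    obtain ⟨K, hK⟩ := exists_nat_gt (B2 C (δ / 2) / ε)
    filter_upwards [eventually_ge_atTop (K + 1)] with N hN p hp
    rw [dist_eq_norm]
    have h2 := xf_sub (sol_wt (M := M) (C := C) hp.2) (X := B2 C (δ / 2)) (fun N =>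
      (sol_tr2 hp.2 N).trans (B2_anti (by linarith) hp.1.le)) (N := N) (by omega)
    refine h2.trans_lt ?_
    have hN0 : (0 : ℝ) < N := by exact_mod_cast (by omega : 0 < N)
    have hKN : (K : ℝ) < N := by exact_mod_cast (by omega : K < N)
    rw [div_lt_iff₀ hN0]
    rw [div_lt_iff₀ hε] at hK
    nlinarith
  refine h1.differentiableOn (Eventually.of_forall fun N q hq => ?_) M.U_open
  exact ((Tr N).differentiableAt.comp q (sol_deriv hq)).differentiableWithinAt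

end Mdl

end

end KN.SQ
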