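import Pool.Agent.H132.SQ.W2

/-!
# The difference of the solution and the approximate solution is small
-/

set_option autoImplicit false

namespace KN.SQ

open Finset Filter Topology
open scoped Classical ENNReal ComplexConjugate

noncomputable section

theorem lin_pow (n : ℕ) : (n : ℝ) ≤ 2 * (3 / 2) ^ n := by
  have h := one_add_mul_le_pow (a := (1 / 2 : ℝ)) (by norm_num) n
  have e : (1 + 1 / 2 : ℝ) = 3 / 2 := by norm_num
  rw [e] at h
  linarith

theorem geom34 : ∑' d : ℤ, (3 / 4 : ℝ) ^ d.natAbs = 7 := by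
  rw [(geom_int_hasSum (r := 3 / 4) (by norm_num) (by norm_num)).tsum_eq]
  norm_num

/-- a cap with one vector -/
def Ce (d : ℤ) (hd : d ≠ 0) : Cap where
  ρ := Unit
  a _ := 1
  m _ := d.natAbs
  x _ := d
  a0 _ := zero_le_one
  xm _ := by rw [Int.abs_eq_natAbs]
  x0 _ := hd
  sm := by
    exact (hasSum_fintype _).summable

theorem Ce_cv (d : ℤ) (hd : d ≠ 0) (q : ℂ) : (Ce d hd).cv q = q ^ d.natAbs • e d := by
  unfold Cap.cv
  show ∑' _ : Unit, (((1 : ℝ) : ℂ) * q ^ d.natAbs) • e d = _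
  rw [tsum_fintype]
  simp

theorem B_e (d : ℤ) (f : H) : B (e d) f = f d := by
  unfold B
  rw [tsum_eq_single d]
  · rw [e_apply, if_pos rfl, one_mul]
  · intro d' hd'
    rw [e_apply, if_neg (fun h => hd' h.symm), zero_mul]

namespace Mdl

variable {M : Mdl} {C : Cap}

theorem er2_norm' {q : ℂ} (hq : q ∈ Loc M) :
    ‖er2 M C q‖ ≤ 30 * CU M C * (‖M.kap q‖ ^ 2 * √‖M.kap q‖) := by
  have h1 := norm_sq_le (f := er2 M C q) (rt hq).2.1 (rt hq).2.2
    (fun d => by rw [er2_apply hq]; exact er2_bd0 hq d)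
  have h2 := geom_exp (rt hq).1 hq.2
  set t := ‖M.kap q‖ with ht
  have ht0 : 0 < t := (rt hq).1
  have hC := CU_nonneg (M := M) (C := C)
  refine le_of_sq_le_sq ?_ (by positivity)
  have hs : √t ^ 2 = t := Real.sq_sqrt ht0.le
  calc ‖er2 M C q‖ ^ 2 ≤ (CU M C * (10 * t ^ 3)) ^ 2 * (8 / t) :=
        h1.trans (mul_le_mul_of_nonneg_left h2 (sq_nonneg _))
    _ = 800 * (CU M C ^ 2 * t ^ 4 * t) := by field_simp; ring
    _ ≤ 900 * (CU M C ^ 2 * t ^ 4 * t) := by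
        have : 0 ≤ CU M C ^ 2 * t ^ 4 * t := by positivity
        linarith
    _ = (30 * CU M C * (t ^ 2 * √t)) ^ 2 := by
        rw [mul_pow, mul_pow, mul_pow, hs]; ring

/-- the weighted error -/
theorem er_tr {q : ℂ} (hq : q ∈ Loc M) (N : ℕ) :
    ‖Tr N (er M C q)‖ ≤ (6 * CE M C + 160 * CU M C) * ‖M.kap q‖ := by
  have e0 : er M C q = (er M C q - er2 M C q) + er2 M C q := by abel
  rw [e0, map_add]
  have hCE := CE_nonneg (M := M) (C := C)
  have hCU := CU_nonneg (M := M) (C := C)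
  set t := ‖M.kap q‖ with ht
  have ht0 : 0 < t := (rt hq).1
  have ht1 : t ≤ 1 / 100 := hq.2
  have h1 : ‖Tr N (er M C q - er2 M C q)‖ ≤ 6 * CE M C * t := by
    have h2 := norm_sq_le (f := Tr N (er M C q - er2 M C q)) (X := 2 * (CE M C * t))
      (r := 3 / 4) (by norm_num) (by norm_num) (fun d => by
        rw [Tr_apply, norm_mul, Complex.norm_real, Real.norm_eq_abs, abs_of_nonneg (omt_nonneg _ _)]
        have h3 := er1_bd (C := C) hq d
        have h4 := omt_le' N d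
        have h5 := lin_pow d.natAbs
        calc omt N d * ‖(er M C q - er2 M C q) d‖ ≤
              (2 * (3 / 2) ^ d.natAbs) * (CE M C * t * (1 / 2) ^ d.natAbs) :=
              mul_le_mul (h4.trans h5) h3 (norm_nonneg _) (by positivity)
          _ = 2 * (CE M C * t) * ((3 / 2) ^ d.natAbs * (1 / 2) ^ d.natAbs) := by ring
          _ = _ := by rw [← mul_pow]; norm_num)
    rw [geom34] at h2
    refine le_of_sq_le_sq ?_ (by positivity)
    have : 0 ≤ (CE M C * t) ^ 2 := sq_nonneg _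
    nlinarith
  have h2 : ‖Tr N (er2 M C q)‖ ≤ 160 * CU M C * t := by
    have hr0 : 0 ≤ Real.exp (-(t / 2 / 2)) := (Real.exp_pos _).le
    have hr1 : Real.exp (-(t / 2 / 2)) < 1 := Real.exp_lt_one_iff.2 (by linarith)
    have h3 := norm_sq_le (f := Tr N (er2 M C q)) (X := 40 * CU M C * t ^ 2)
      hr0 hr1 (fun d => by
        rw [Tr_apply, er2_apply hq, norm_mul, Complex.norm_real, Real.norm_eq_abs,
          abs_of_nonneg (omt_nonneg _ _)]
        have h3 := er2_bd0 (C := C) hq d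
        have h4 := omt_le' N d
        have h5 : (d.natAbs : ℝ) * Real.exp (-(t / 2)) ^ d.natAbs ≤
            4 / t * Real.exp (-(t / 2 / 2)) ^ d.natAbs := by
          have e1 : Real.exp (-(t / 2)) ^ d.natAbs = Real.exp (-(t / 2 / 2)) ^ d.natAbs *
              Real.exp (-(t / 4 * d.natAbs)) := by
            rw [← Real.exp_nat_mul, ← Real.exp_nat_mul, ← Real.exp_add]
            congr 1; ring
          have h6 : t / 4 * d.natAbs * Real.exp (-(t / 4 * d.natAbs)) ≤ 1 := by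
            have h7 := Real.add_one_le_exp (t / 4 * d.natAbs)
            rw [Real.exp_neg, ← div_eq_mul_inv, div_le_one (Real.exp_pos _)]
            linarith
          rw [e1]
          have h8 : (d.natAbs : ℝ) * Real.exp (-(t / 4 * d.natAbs)) ≤ 4 / t := by
            rw [le_div_iff₀ ht0]; nlinarith
          have h9 : 0 ≤ Real.exp (-(t / 2 / 2)) ^ d.natAbs := by positivity
          nlinarith
        calc omt N d * ‖(ui M C d : ℂ) * E (M.kap q) d * Ph M q (M.kap q)‖ ≤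
              d.natAbs * ((CU M C * (10 * t ^ 3)) * Real.exp (-(t / 2)) ^ d.natAbs) :=
              mul_le_mul h4 h3 (norm_nonneg _) (Nat.cast_nonneg _)
          _ = (CU M C * (10 * t ^ 3)) * (d.natAbs * Real.exp (-(t / 2)) ^ d.natAbs) := by ring
          _ ≤ (CU M C * (10 * t ^ 3)) * (4 / t * Real.exp (-(t / 2 / 2)) ^ d.natAbs) :=
              mul_le_mul_of_nonneg_left h5 (by positivity)
          _ = _ := by field_simp; ring)
    have h4 := geom_exp (t := t / 2) (by linarith) (by linarith)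
    refine le_of_sq_le_sq ?_ (by positivity)
    calc ‖Tr N (er2 M C q)‖ ^ 2 ≤ (40 * CU M C * t ^ 2) ^ 2 * (8 / (t / 2)) :=
          h3.trans (mul_le_mul_of_nonneg_left h4 (sq_nonneg _))
      _ = 25600 * CU M C ^ 2 * t ^ 2 * t := by field_simp; ring
      _ ≤ 25600 * CU M C ^ 2 * t ^ 2 * 1 :=
          mul_le_mul_of_nonneg_left (by linarith) (by positivity)
      _ = _ := by ring
  refine (norm_add_le _ _).trans ?_
  linarith

theorem dist_ge {q : ℂ} (hq : q ∈ M.U) : 1 / ‖(M.qc : ℂ) - q‖ ≤ 3 * M.gam / ‖M.kap q‖ ^ 2 := by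
  have h1 := M.qc_ne hq
  have h2 := kap_pos hq
  have h3 := kap_le_sub hq
  rw [norm_sub_rev] at h3
  rw [div_le_div_iff₀ h1 (by positivity)]
  linarith

/-- the weighted difference -/
theorem gq_tr {q : ℂ} (hq : q ∈ Loc M) (N : ℕ) :
    ‖Tr N (gq M C q)‖ ≤ 24 * M.gam * ((6 * CE M C + 160 * CU M C) * ‖M.kap q‖ + ‖gq M C q‖) /
      ‖M.kap q‖ ^ 2 := by
  have h1 := wt1_bd hq.1 N (gq M C q)
  rw [gq_eq hq] at h1
  have h2 := er_tr (C := C) hq N
  have h3 := dist_ge hq.1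
  have h4 := M.qc_ne hq.1
  refine h1.trans ?_
  have hCE := CE_nonneg (M := M) (C := C)
  have hCU := CU_nonneg (M := M) (C := C)
  calc 8 * (‖Tr N (er M C q)‖ + ‖gq M C q‖) / ‖(M.qc : ℂ) - q‖ =
        8 * (‖Tr N (er M C q)‖ + ‖gq M C q‖) * (1 / ‖(M.qc : ℂ) - q‖) := by ring
    _ ≤ 8 * ((6 * CE M C + 160 * CU M C) * ‖M.kap q‖ + ‖gq M C q‖) *
        (3 * M.gam / ‖M.kap q‖ ^ 2) := by
        refine mul_le_mul ?_ h3 (by positivity) (by positivity)
        linarith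
    _ = _ := by ring

/-- the approximate solution has a weight -/
theorem vq_tr {q : ℂ} (hq : q ∈ Loc M) (N : ℕ) :
    ‖Tr N (vq M C q)‖ ≤ 16 * CU M C / (‖M.kap q‖ * √‖M.kap q‖) := by
  have hCU := CU_nonneg (M := M) (C := C)
  set t := ‖M.kap q‖ with ht
  have ht0 : 0 < t := (rt hq).1
  have ht1 : t ≤ 1 / 100 := hq.2
  have hr0 : 0 ≤ Real.exp (-(t / 2 / 2)) := (Real.exp_pos _).le
  have hr1 : Real.exp (-(t / 2 / 2)) < 1 := Real.exp_lt_one_iff.2 (by linarith)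
  have h3 := norm_sq_le (f := Tr N (vq M C q)) (X := 4 * CU M C / t)
    hr0 hr1 (fun d => by
      rw [Tr_apply, norm_mul, Complex.norm_real, Real.norm_eq_abs, abs_of_nonneg (omt_nonneg _ _)]
      have h3 := vq_bd (C := C) hq d
      have h4 := omt_le' N d
      have h5 : (d.natAbs : ℝ) * Real.exp (-(t / 2)) ^ d.natAbs ≤
          4 / t * Real.exp (-(t / 2 / 2)) ^ d.natAbs := by
        have e1 : Real.exp (-(t / 2)) ^ d.natAbs = Real.exp (-(t / 2 / 2)) ^ d.natAbs *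
            Real.exp (-(t / 4 * d.natAbs)) := by
          rw [← Real.exp_nat_mul, ← Real.exp_nat_mul, ← Real.exp_add]
          congr 1; ring
        have h6 : t / 4 * d.natAbs * Real.exp (-(t / 4 * d.natAbs)) ≤ 1 := by
          have h7 := Real.add_one_le_exp (t / 4 * d.natAbs)
          rw [Real.exp_neg, ← div_eq_mul_inv, div_le_one (Real.exp_pos _)]
          linarith
        rw [e1]
        have h8 : (d.natAbs : ℝ) * Real.exp (-(t / 4 * d.natAbs)) ≤ 4 / t := by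
          rw [le_div_iff₀ ht0]; nlinarith
        have h9 : 0 ≤ Real.exp (-(t / 2 / 2)) ^ d.natAbs := by positivity
        nlinarith
      calc omt N d * ‖vq M C q d‖ ≤ d.natAbs * (CU M C * Real.exp (-(t / 2)) ^ d.natAbs) :=
            mul_le_mul h4 h3 (norm_nonneg _) (Nat.cast_nonneg _)
        _ = CU M C * (d.natAbs * Real.exp (-(t / 2)) ^ d.natAbs) := by ring
        _ ≤ CU M C * (4 / t * Real.exp (-(t / 2 / 2)) ^ d.natAbs) :=
            mul_le_mul_of_nonneg_left h5 (by positivity)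
        _ = _ := by ring)
  have h4 := geom_exp (t := t / 2) (by linarith) (by linarith)
  refine le_of_sq_le_sq ?_ (by positivity)
  have hs : √t ^ 2 = t := Real.sq_sqrt ht0.le
  calc ‖Tr N (vq M C q)‖ ^ 2 ≤ (4 * CU M C / t) ^ 2 * (8 / (t / 2)) :=
        h3.trans (mul_le_mul_of_nonneg_left h4 (sq_nonneg _))
    _ = 256 * CU M C ^ 2 / (t ^ 2 * t) := by field_simp; ring
    _ = _ := by rw [div_pow, mul_pow, mul_pow, hs]; ring

/-! ### the difference tends to zero -/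

theorem loc_half {q : ℂ} (hq : q ∈ Loc M) : 1 / 2 ≤ ‖q‖ := by
  have h1 := sub_le_kap hq.1
  have h2 := hq.2
  have h3 : ‖M.kap q‖ ^ 2 ≤ 1 / 100 := by nlinarith [norm_nonneg (M.kap q)]
  have h4 : ‖(M.qc : ℂ)‖ = M.qc := by
    rw [Complex.norm_real, Real.norm_eq_abs, abs_of_pos M.qc_pos]
  have h5 := norm_sub_norm_le (M.qc : ℂ) ((M.qc : ℂ) - q)
  rw [sub_sub_cancel, h4, norm_sub_rev] at h5
  have := M.qc_ge
  linarith

/-- the values of the resolvent -/
theorem G_pt (M : Mdl) (d : ℤ) : ∃ Y : ℝ, 0 ≤ Y ∧ ∀ q ∈ Loc M, ∀ φ : H, φ 0 = 0 →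
    ‖M.G q φ d‖ ≤ Y / √‖M.kap q‖ * ‖φ‖ := by
  by_cases hd : d = 0
  · refine ⟨0, le_rfl, fun q hq φ hφ => ?_⟩
    have h1 := G_right (M.isUnit_of_U hq.1) φ
    have h2 := congrArg (fun f : H => f 0) h1
    have h3 : (1 - q ^ 2) * M.G q φ 0 = 0 := by
      have e1 : (M.G q φ - M.K q (M.G q φ)) 0 = M.G q φ 0 - (q ^ 2 * M.G q φ 0 +
        M.N q (M.G q φ) 0) := rfl
      simp only at h2
      rw [e1, N_zero hq.1.1.le, hφ] at h2
      linear_combination h2
    rcases mul_eq_zero.1 h3 with h4 | h4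
    · exact absurd h4 (q_ne hq.1)
    · rw [hd, h4]; simp
  · obtain ⟨Z, hZ0, hZ⟩ := gq_bd M (Ce d hd)
    have hCU := CU_nonneg (M := M) (C := Ce d hd)
    refine ⟨2 ^ d.natAbs * (3 * CU M (Ce d hd) + Z), by positivity, fun q hq φ hφ => ?_⟩
    set t := ‖M.kap q‖ with ht
    have ht0 : 0 < t := (rt hq).1
    have ht1 : t ≤ 1 / 100 := hq.2
    have hs0 : 0 < √t := Real.sqrt_pos.2 ht0
    have hs1 : √t ≤ 1 := Real.sqrt_le_one.2 (by linarith)
    have hu := M.isUnit_of_U hq.1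
    have e1 : q ^ d.natAbs * M.G q φ d = B (M.sol (Ce d hd) q) φ := by
      have h1 : B (M.sol (Ce d hd) q) φ = B ((Ce d hd).cv q) (M.G q φ) :=
        (G_sym hq.1.1.le hu _ _).symm
      rw [h1, Ce_cv, B_smul_left, B_e]
    have h2 : ‖M.sol (Ce d hd) q‖ ≤ (3 * CU M (Ce d hd) + Z) / √t := by
      have e : M.sol (Ce d hd) q = vq M (Ce d hd) q + gq M (Ce d hd) q := by unfold gq; abel
      rw [e]
      refine (norm_add_le _ _).trans ?_
      have h3 := vq_norm' (C := Ce d hd) hq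
      have h4 := (hZ q hq).2
      have h5 : Z ≤ Z / √t := by
        rw [le_div_iff₀ hs0]; nlinarith
      rw [add_div]
      have e2 : 3 * CU M (Ce d hd) * (1 / √t) = 3 * CU M (Ce d hd) / √t := by ring
      linarith
    have h3 : ‖q‖ ^ d.natAbs * ‖M.G q φ d‖ ≤ (3 * CU M (Ce d hd) + Z) / √t * ‖φ‖ := by
      rw [← norm_pow, ← norm_mul, e1]
      exact (B_norm _ _).trans (mul_le_mul_of_nonneg_right h2 (norm_nonneg _))
    have h4 : (1 / 2 : ℝ) ^ d.natAbs ≤ ‖q‖ ^ d.natAbs :=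
      pow_le_pow_left₀ (by norm_num) (loc_half hq) _
    have h5 : (2 : ℝ) ^ d.natAbs * (1 / 2) ^ d.natAbs = 1 := by rw [← mul_pow]; norm_num
    have hn := norm_nonneg (M.G q φ d)
    calc ‖M.G q φ d‖ = 2 ^ d.natAbs * ((1 / 2) ^ d.natAbs * ‖M.G q φ d‖) := by
          rw [← mul_assoc, h5, one_mul]
      _ ≤ 2 ^ d.natAbs * (‖q‖ ^ d.natAbs * ‖M.G q φ d‖) := by gcongr
      _ ≤ 2 ^ d.natAbs * ((3 * CU M (Ce d hd) + Z) / √t * ‖φ‖) := by gcongr
      _ = _ := by ring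

/-- the energy of the resolvent -/
theorem G_en (M : Mdl) : ∃ Y : ℝ, 0 ≤ Y ∧ ∀ q ∈ Loc M, ∀ φ : H, φ 0 = 0 →
    ‖M.G q φ‖ ≤ Y / ‖M.kap q‖ ^ 2 * ‖φ‖ ∧
    ∀ d : ℤ, ‖M.G q φ d‖ ≤ ((d.natAbs : ℝ) + 1) * (Y / ‖M.kap q‖ * ‖φ‖) := by
  have ha := M.a0
  have hqc := M.qc_pos
  have hg := M.gam_pos
  set Y1 := 24 * M.gam with hY1
  set Y2 := √(16 / (M.a * M.qc ^ 3) * Y1) with hY2
  have hY1' : 0 ≤ Y1 := by positivity
  have hY2' : 0 ≤ Y2 := Real.sqrt_nonneg _
  refine ⟨Y1 + Y2, by positivity, fun q hq φ hφ => ?_⟩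
  set t := ‖M.kap q‖ with ht
  have ht0 : 0 < t := (rt hq).1
  have hu := M.isUnit_of_U hq.1
  set ψ := M.G q φ with hψ
  have hψe : ψ - M.K q ψ = φ := G_right hu φ
  have h1 : ‖ψ‖ ≤ Y1 / t ^ 2 * ‖φ‖ := by
    have h2 := res_bd hq.1 ψ
    rw [hψe] at h2
    refine h2.trans ?_
    have h3 := dist_ge hq.1
    calc 8 * ‖φ‖ / ‖(M.qc : ℂ) - q‖ = 8 * ‖φ‖ * (1 / ‖(M.qc : ℂ) - q‖) := by ring
      _ ≤ 8 * ‖φ‖ * (3 * M.gam / t ^ 2) := mul_le_mul_of_nonneg_left h3 (by positivity)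
      _ = _ := by rw [hY1]; ring
  have hψ0 : ψ 0 = 0 := by
    obtain ⟨Y, hY0, hY⟩ := G_pt M 0
    have h3 : (1 - q ^ 2) * ψ 0 = 0 := by
      have e1 : (ψ - M.K q ψ) 0 = ψ 0 - (q ^ 2 * ψ 0 + M.N q ψ 0) := rfl
      have h2 := congrArg (fun f : H => f 0) hψe
      simp only at h2
      rw [e1, N_zero hq.1.1.le, hφ] at h2
      linear_combination h2
    rcases mul_eq_zero.1 h3 with h4 | h4
    · exact absurd h4 (q_ne hq.1)
    · exact h4
  have h2 : √(D ψ) ≤ Y2 / t * ‖φ‖ := by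
    have h3 := M.num_range hq.1 ψ
    rw [hψe] at h3
    have h4 := norm_inner_le_norm (𝕜 := ℂ) ψ φ
    have h5 := M.A_ge ψ
    have h6 : 0 ≤ ‖(M.qc : ℂ) - q‖ * ‖ψ‖ ^ 2 := by positivity
    have h7 : D ψ ≤ 16 / (M.a * M.qc ^ 3) * (‖ψ‖ * ‖φ‖) := by
      rw [div_mul_eq_mul_div, le_div_iff₀ (by positivity)]
      nlinarith
    refine Real.sqrt_le_iff.2 ⟨by positivity, ?_⟩
    rw [mul_pow, div_pow, hY2, Real.sq_sqrt (by positivity)]
    calc D ψ ≤ 16 / (M.a * M.qc ^ 3) * (‖ψ‖ * ‖φ‖) := h7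
      _ ≤ 16 / (M.a * M.qc ^ 3) * ((Y1 / t ^ 2 * ‖φ‖) * ‖φ‖) := by gcongr
      _ = _ := by ring
  refine ⟨h1.trans ?_, fun d => ?_⟩
  · refine mul_le_mul_of_nonneg_right ?_ (norm_nonneg _)
    refine div_le_div_of_nonneg_right ?_ (by positivity)
    linarith
  · refine (norm_le_sqrt hψ0 d).trans (mul_le_mul_of_nonneg_left (h2.trans ?_) (by positivity))
    refine mul_le_mul_of_nonneg_right ?_ (norm_nonneg _)
    refine div_le_div_of_nonneg_right ?_ ht0.le
    linarith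

/-- the difference tends to zero -/
theorem gq_small (M : Mdl) (C : Cap) {ε : ℝ} (hε : 0 < ε) : ∃ τ : ℝ, 0 < τ ∧ ∀ q ∈ Loc M,
    ‖M.kap q‖ ≤ τ → ‖gq M C q‖ ≤ ε := by
  obtain ⟨Y0, hY00, hY0⟩ := G_en M
  choose Y hYn hY using fun d => G_pt M d
  have hCE := CE_nonneg (M := M) (C := C)
  have hCU := CU_nonneg (M := M) (C := C)
  have hsum := int_geom1 (r := 1 / 2) (by norm_num) (by norm_num)
  -- the tail
  have htail := (tendsto_tsum_compl_atTop_zero (fun d : ℤ => ((d.natAbs : ℝ) + 1) *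
    (1 / 2 : ℝ) ^ d.natAbs))
  have hden : 0 < 3 * (CE M C * Y0 + 1) := by positivity
  obtain ⟨s, hs⟩ := ((tendsto_order.1 htail).2 (ε / (3 * (CE M C * Y0 + 1)))
    (by positivity)).exists
  set R := ∑ d ∈ s, Y d with hR
  have hR0 : 0 ≤ R := sum_nonneg fun d _ => hYn d
  set X := 30 * CU M C * Y0 + CE M C * R + 1 with hX
  have hX0 : 0 < X := by positivity
  refine ⟨(ε / (3 * X)) ^ 2, by positivity, fun q hq hqτ => ?_⟩
  set t := ‖M.kap q‖ with ht
  have ht0 : 0 < t := (rt hq).1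
  have hs0 : 0 < √t := Real.sqrt_pos.2 ht0
  have hst : √t ≤ ε / (3 * X) := by
    rw [Real.sqrt_le_left (by positivity)]; exact hqτ
  have hs2 : √t * √t = t := Real.mul_self_sqrt ht0.le
  have hu := M.isUnit_of_U hq.1
  set g := gq M C q with hg
  set φ : H := star g with hφ
  have hφn : ‖φ‖ = ‖g‖ := norm_star g
  have hφ0 : φ 0 = 0 := by
    rw [hφ, lp.star_apply, gq_zero hq, star_zero]
  set ψ := M.G q φ with hψ
  have e1 : B φ g = B ψ (er M C q) := by
    have h1 : g = M.G q (er M C q) := by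
      rw [← gq_eq hq, ← hg]
      exact (G_left hu g).symm
    conv_lhs => rw [h1]
    rw [G_sym hq.1.1.le hu]
  have e2 : ‖g‖ ^ 2 = ‖B φ g‖ := by
    rw [B_inner, hφ, star_star, inner_self_eq_norm_sq_to_K]
    rw [norm_pow]
    have : ‖((‖g‖ : ℝ) : ℂ)‖ = ‖g‖ := by
      rw [Complex.norm_real, Real.norm_eq_abs, abs_of_nonneg (norm_nonneg _)]
    exact (congrArg (· ^ 2) this).symm
  obtain ⟨hψ1, hψ2⟩ := hY0 q hq φ hφ0
  have e3 : er M C q = (er M C q - er2 M C q) + er2 M C q := by abel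
  have b2 : ‖B ψ (er2 M C q)‖ ≤ 30 * CU M C * Y0 * √t * ‖g‖ := by
    refine (B_norm _ _).trans ?_
    have h3 := er2_norm' (C := C) hq
    calc ‖ψ‖ * ‖er2 M C q‖ ≤ (Y0 / t ^ 2 * ‖φ‖) * (30 * CU M C * (t ^ 2 * √t)) :=
          mul_le_mul hψ1 h3 (norm_nonneg _) (by positivity)
      _ = _ := by rw [hφn]; field_simp
  have b1 : ‖B ψ (er M C q - er2 M C q)‖ ≤ (CE M C * R * √t + ε / 3) * ‖g‖ := by
    have h3 := B_summable_norm ψ (er M C q - er2 M C q)
    have h4 : ‖B ψ (er M C q - er2 M C q)‖ ≤ ∑' d, ‖ψ d‖ * ‖(er M C q - er2 M C q) d‖ := by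
      unfold B
      refine tsum_of_norm_bounded h3.hasSum fun d => ?_
      rw [norm_mul]
    refine h4.trans ?_
    rw [← h3.sum_add_tsum_compl (s := s)]
    have h5 : ∑ d ∈ s, ‖ψ d‖ * ‖(er M C q - er2 M C q) d‖ ≤ CE M C * R * √t * ‖g‖ := by
      have h6 : ∀ d ∈ s, ‖ψ d‖ * ‖(er M C q - er2 M C q) d‖ ≤
          Y d * (CE M C * √t * ‖g‖) := by
        intro d _
        have h7 := hY d q hq φ hφ0
        have h8 := er1_bd (C := C) hq d
        have h9 : (1 / 2 : ℝ) ^ d.natAbs ≤ 1 := pow_le_one₀ (by norm_num) (by norm_num)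
        have h10 : ‖(er M C q - er2 M C q) d‖ ≤ CE M C * t :=
          h8.trans (mul_le_of_le_one_right (by positivity) h9)
        calc ‖ψ d‖ * ‖(er M C q - er2 M C q) d‖ ≤ (Y d / √t * ‖φ‖) * (CE M C * t) :=
              mul_le_mul h7 h10 (norm_nonneg _) (by have := hYn d; positivity)
          _ = Y d / √t * ‖φ‖ * (CE M C * (√t * √t)) := by rw [hs2]
          _ = _ := by rw [hφn]; field_simp
      refine (sum_le_sum h6).trans (le_of_eq ?_)
      rw [← sum_mul, ← hR]; ring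
    have h6 : ∑' d : {d // d ∉ s}, ‖ψ d.1‖ * ‖(er M C q - er2 M C q) d.1‖ ≤ ε / 3 * ‖g‖ := by
      have h7 : ∀ d : {d // d ∉ s}, ‖ψ d.1‖ * ‖(er M C q - er2 M C q) d.1‖ ≤
          (CE M C * Y0 * ‖g‖) * (((d.1.natAbs : ℝ) + 1) * (1 / 2 : ℝ) ^ d.1.natAbs) := by
        rintro ⟨d, hd⟩
        have h8 := hψ2 d
        have h9 := er1_bd (C := C) hq d
        calc ‖ψ d‖ * ‖(er M C q - er2 M C q) d‖ ≤
              (((d.natAbs : ℝ) + 1) * (Y0 / t * ‖φ‖)) * (CE M C * t * (1 / 2) ^ d.natAbs) :=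
              mul_le_mul h8 h9 (norm_nonneg _) (by positivity)
          _ = _ := by rw [hφn]; field_simp
      have h8 : Summable fun d : {d // d ∉ s} => ((d.1.natAbs : ℝ) + 1) * (1 / 2 : ℝ) ^ d.1.natAbs :=
        hsum.subtype _
      refine ((h3.subtype _).tsum_le_tsum h7 (h8.mul_left _)).trans ?_
      rw [tsum_mul_left]
      have h9 : CE M C * Y0 * (ε / (3 * (CE M C * Y0 + 1))) ≤ ε / 3 := by
        rw [mul_div_assoc', div_le_div_iff₀ hden (by norm_num)]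
        have : 0 ≤ CE M C * Y0 := by positivity
        nlinarith
      have hg0 := norm_nonneg g
      calc CE M C * Y0 * ‖g‖ * _ ≤ CE M C * Y0 * ‖g‖ * (ε / (3 * (CE M C * Y0 + 1))) :=
            mul_le_mul_of_nonneg_left hs.le (by positivity)
        _ = (CE M C * Y0 * (ε / (3 * (CE M C * Y0 + 1)))) * ‖g‖ := by ring
        _ ≤ _ := mul_le_mul_of_nonneg_right h9 hg0
    have h7 : ∑' d : ((s : Set ℤ)ᶜ : Set ℤ), ‖ψ d.1‖ * ‖(er M C q - er2 M C q) d.1‖ ≤
        ε / 3 * ‖g‖ := h6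
    linarith
  have h3 : ‖g‖ ^ 2 ≤ ε * ‖g‖ := by
    rw [e2, e1, e3, B_add_right]
    refine (norm_add_le _ _).trans ?_
    have h4 : X * √t ≤ ε / 3 := by
      have := mul_le_mul_of_nonneg_left hst hX0.le
      refine this.trans (le_of_eq ?_)
      field_simp
    have h5 : 30 * CU M C * Y0 * √t + CE M C * R * √t ≤ ε / 3 := by
      refine le_trans ?_ h4
      rw [hX]
      have : 0 ≤ √t := hs0.le
      nlinarith
    have h6 := norm_nonneg g
    nlinarith
  rcases (norm_nonneg g).eq_or_lt with h4 | h4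
  · rw [← h4]; exact hε.le
  · rw [sq] at h3
    exact le_of_mul_le_mul_right h3 h4

end Mdl

end

end KN.SQ
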