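import Pool.Agent.H132.SQ.W3

/-!
# The area functional
-/

set_option autoImplicit false

namespace KN.SQ

open Finset Filter Topology
open scoped Classical ENNReal ComplexConjugate

noncomputable section

/-- a shift with a bounded factor -/
def Sg (m : ℤ → ℝ) (v : ℤ) (R : ℝ) (hR : 0 ≤ R) (hm : ∀ d, |m d| ≤ R) : H →L[ℂ] H :=
  LinearMap.mkContinuous
    { toFun := fun f => ⟨fun d => (m d : ℂ) * f (d - v), mem2.2 (by
        refine Summable.of_nonneg_of_le (fun d => by positivity) (fun d => ?_)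
          ((shift_summable f.sum v).mul_left (R ^ 2))
        rw [norm_mul, mul_pow, Complex.norm_real, Real.norm_eq_abs]
        exact mul_le_mul_of_nonneg_right (pow_le_pow_left₀ (abs_nonneg _) (hm d) 2)
          (by positivity))⟩
      map_add' := fun f g => by
        ext d
        simp only [lp.coeFn_add, Pi.add_apply]
        ring
      map_smul' := fun c f => by
        ext d
        simp only [lp.coeFn_smul, Pi.smul_apply, RingHom.id_apply, smul_eq_mul]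
        ring } R (fun f => by
      refine le_of_sq_le_sq ?_ (by positivity)
      rw [mul_pow, H.norm_sq, H.norm_sq, ← shift_tsum (fun d => ‖f d‖ ^ 2) v, ← tsum_mul_left]
      refine Summable.tsum_le_tsum (fun d => ?_) (H.sum _) ((shift_summable f.sum v).mul_left _)
      show ‖(m d : ℂ) * f (d - v)‖ ^ 2 ≤ _
      rw [norm_mul, mul_pow, Complex.norm_real, Real.norm_eq_abs]
      exact mul_le_mul_of_nonneg_right (pow_le_pow_left₀ (abs_nonneg _) (hm d) 2)
        (by positivity))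

theorem Sg_apply {m : ℤ → ℝ} {v : ℤ} {R : ℝ} {hR : 0 ≤ R} {hm : ∀ d, |m d| ≤ R} (f : H) (d : ℤ) :
    Sg m v R hR hm f d = (m d : ℂ) * f (d - v) := rfl

theorem Sg_norm {m : ℤ → ℝ} {v : ℤ} {R : ℝ} {hR : 0 ≤ R} {hm : ∀ d, |m d| ≤ R} :
    ‖Sg m v R hR hm‖ ≤ R := LinearMap.mkContinuous_norm_le _ hR _

/-- the areas of the blocks -/
structure Ker (M : Mdl) where
  ar : M.ι → ℤ → ℝ
  nu : M.ι → ℝ
  Ca : ℝ
  Ca0 : 0 ≤ Ca
  nu0 : ∀ b, 0 ≤ nu b
  nuL : ∀ b, nu b ≤ 2 ^ M.L b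
  ard : ∀ b d, M.P b d → |ar b d - nu b * d.natAbs| ≤ Ca * 4 ^ M.L b

namespace Ker

variable {M : Mdl} (A : Ker M)

theorem mb_bd (b : M.ι) (d : ℤ) :
    |if M.P b d then A.ar b d - A.nu b * (d - M.v b).natAbs else 0| ≤
      (A.Ca + 1) * 4 ^ M.L b := by
  have hC := A.Ca0
  split_ifs with h
  · have h1 := A.ard b d h
    have h2 := vn_le' b
    have h3 : |((d.natAbs : ℝ) - (d - M.v b).natAbs)| ≤ M.L b := by
      have h4 : d.natAbs ≤ (d - M.v b).natAbs + M.L b := by omega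
      have h5 : (d - M.v b).natAbs ≤ d.natAbs + M.L b := by omega
      have h4' : (d.natAbs : ℝ) ≤ (d - M.v b).natAbs + M.L b := by exact_mod_cast h4
      have h5' : ((d - M.v b).natAbs : ℝ) ≤ d.natAbs + M.L b := by exact_mod_cast h5
      rw [abs_le]; constructor <;> linarith
    have h4 : |A.nu b * ((d.natAbs : ℝ) - (d - M.v b).natAbs)| ≤ 4 ^ M.L b := by
      rw [abs_mul, abs_of_nonneg (A.nu0 b)]
      have h5 : (M.L b : ℝ) ≤ 2 ^ M.L b := by exact_mod_cast (Nat.lt_two_pow_self).le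
      calc A.nu b * |((d.natAbs : ℝ) - (d - M.v b).natAbs)| ≤ 2 ^ M.L b * 2 ^ M.L b :=
            mul_le_mul (A.nuL b) (h3.trans h5) (abs_nonneg _) (by positivity)
        _ = _ := by rw [← mul_pow]; norm_num
    have e : A.ar b d - A.nu b * (d - M.v b).natAbs = (A.ar b d - A.nu b * d.natAbs) +
        A.nu b * ((d.natAbs : ℝ) - (d - M.v b).natAbs) := by ring
    rw [e]
    refine (abs_add_le _ _).trans ?_
    linarith
  · rw [abs_zero]; positivity
where
  vn_le' (b : M.ι) : (M.v b).natAbs ≤ M.L b := by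
    have := M.vL b
    rw [Int.abs_eq_natAbs] at this; exact_mod_cast this

/-- the operator of the block -/
def Sb (b : M.ι) : H →L[ℂ] H :=
  Sg (fun d => if M.P b d then A.ar b d - A.nu b * (d - M.v b).natAbs else 0) (M.v b)
    ((A.Ca + 1) * 4 ^ M.L b) (by have := A.Ca0; positivity) (A.mb_bd b)

theorem T0_term {q : ℂ} (hq : ‖q‖ ≤ 2) (b : M.ι) :
    ‖M.w q b • A.Sb b‖ ≤ M.c b * 16 ^ M.L b * (4 * (A.Ca + 1)) := by
  rw [norm_smul]
  have h1 := Mdl.w_norm' (M := M) hq b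
  have h2 : ‖A.Sb b‖ ≤ (A.Ca + 1) * 4 ^ M.L b := Sg_norm
  have hc := M.c0 b
  have hC := A.Ca0
  have h5 : (2 : ℝ) ^ M.L b * 4 ^ M.L b ≤ 16 ^ M.L b := by
    rw [← mul_pow]; exact pow_le_pow_left₀ (by norm_num) (by norm_num) _
  calc ‖M.w q b‖ * ‖A.Sb b‖ ≤ (4 * 2 ^ M.L b * M.c b) * ((A.Ca + 1) * 4 ^ M.L b) :=
        mul_le_mul h1 h2 (norm_nonneg _) (by positivity)
    _ = M.c b * (2 ^ M.L b * 4 ^ M.L b) * (4 * (A.Ca + 1)) := by ring
    _ ≤ _ := by gcongr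

theorem T1_coef {q : ℂ} (hq : ‖q‖ ≤ 2) (b : M.ι) :
    ‖M.w q b * (A.nu b : ℂ)‖ ≤ M.c b * 16 ^ M.L b * 4 := by
  rw [norm_mul, Complex.norm_real, Real.norm_eq_abs, abs_of_nonneg (A.nu0 b)]
  have h1 := Mdl.w_norm' (M := M) hq b
  have hc := M.c0 b
  have h5 : (2 : ℝ) ^ M.L b * 2 ^ M.L b ≤ 16 ^ M.L b := by
    rw [← mul_pow]; exact pow_le_pow_left₀ (by norm_num) (by norm_num) _
  calc ‖M.w q b‖ * A.nu b ≤ (4 * 2 ^ M.L b * M.c b) * 2 ^ M.L b :=
        mul_le_mul h1 (A.nuL b) (A.nu0 b) (by positivity)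
    _ = M.c b * (2 ^ M.L b * 2 ^ M.L b) * 4 := by ring
    _ ≤ _ := by gcongr

theorem T1_term {q : ℂ} (hq : ‖q‖ ≤ 2) (b : M.ι) :
    ‖(M.w q b * (A.nu b : ℂ)) • S (M.P b) (M.v b)‖ ≤ M.c b * 16 ^ M.L b * 4 := by
  rw [norm_smul]
  have h1 := A.T1_coef hq b
  have h2 := S_norm (M.P b) (M.v b)
  have h3 := norm_nonneg (M.w q b * (A.nu b : ℂ))
  calc _ ≤ ‖M.w q b * (A.nu b : ℂ)‖ * 1 := mul_le_mul_of_nonneg_left h2 h3
    _ ≤ _ := by rw [mul_one]; exact h1

/-- the bounded part -/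
def T0 (q : ℂ) : H →L[ℂ] H := ∑' b, M.w q b • A.Sb b

/-- the part applied to the weighted solution -/
def T1 (q : ℂ) : H →L[ℂ] H :=
  q ^ 2 • (1 : H →L[ℂ] H) + ∑' b, (M.w q b * (A.nu b : ℂ)) • S (M.P b) (M.v b)

theorem T0_hasSum {q : ℂ} (hq : ‖q‖ ≤ 2) : HasSum (fun b => M.w q b • A.Sb b) (A.T0 q) :=
  (Summable.of_norm_bounded (M.sm.mul_right _) (A.T0_term hq)).hasSum

theorem T1_hasSum {q : ℂ} (hq : ‖q‖ ≤ 2) :
    HasSum (fun b => (M.w q b * (A.nu b : ℂ)) • S (M.P b) (M.v b))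
      (A.T1 q - q ^ 2 • (1 : H →L[ℂ] H)) := by
  unfold T1
  rw [add_sub_cancel_left]
  exact (Summable.of_norm_bounded (M.sm.mul_right _) (A.T1_term hq)).hasSum

theorem T0_norm {q : ℂ} (hq : ‖q‖ ≤ 2) : ‖A.T0 q‖ ≤ A.Ca + 1 := by
  have h1 := tsum_of_norm_bounded (M.sm.hasSum.mul_right (4 * (A.Ca + 1))) (A.T0_term hq)
  refine h1.trans ?_
  have h2 := M.s1
  have h3 := A.Ca0
  have h4 : (∑' b, M.c b * 16 ^ M.L b) * (4 * (A.Ca + 1)) ≤ 1 / 10 ^ 6 * (4 * (A.Ca + 1)) :=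
    mul_le_mul_of_nonneg_right h2 (by positivity)
  norm_num at h4
  linarith

theorem T1_norm {q : ℂ} (hq : ‖q‖ ≤ 2) : ‖A.T1 q‖ ≤ 5 := by
  unfold T1
  have h1 := tsum_of_norm_bounded (M.sm.hasSum.mul_right 4) (A.T1_term hq)
  have h2 := M.s1
  have h4 : (∑' b, M.c b * 16 ^ M.L b) * 4 ≤ 1 / 10 ^ 6 * 4 :=
    mul_le_mul_of_nonneg_right h2 (by norm_num)
  have h5 : ‖q ^ 2 • (1 : H →L[ℂ] H)‖ ≤ 4 := by
    rw [norm_smul, norm_pow]
    have := Mdl.one_norm_le
    have h6 : ‖q‖ ^ 2 ≤ 4 := by nlinarith [norm_nonneg q]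
    nlinarith [norm_nonneg (1 : H →L[ℂ] H)]
  refine (norm_add_le _ _).trans ?_
  norm_num at h4
  linarith

theorem w_diff (b : M.ι) : Differentiable ℂ (fun q => M.w q b) := fun q =>
  (M.w_deriv q b).differentiableAt

theorem T0_diff : DifferentiableOn ℂ A.T0 (Metric.ball 0 2) := by
  unfold T0
  refine Complex.differentiableOn_tsum_of_summable_norm (M.sm.mul_right (4 * (A.Ca + 1)))
    (fun b => ?_) Metric.isOpen_ball (fun b q hq => ?_)
  · exact ((w_diff b).smul_const _).differentiableOn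
  · exact A.T0_term (mem_ball_zero_iff.1 hq).le b

theorem T1_diff : DifferentiableOn ℂ A.T1 (Metric.ball 0 2) := by
  unfold T1
  refine DifferentiableOn.add ?_ ?_
  · exact ((differentiable_id.pow 2).smul_const _).differentiableOn
  · refine Complex.differentiableOn_tsum_of_summable_norm (M.sm.mul_right 4)
      (fun b => ?_) Metric.isOpen_ball (fun b q hq => ?_)
    · exact (((w_diff b).mul_const _).smul_const _).differentiableOn
    · exact A.T1_term (mem_ball_zero_iff.1 hq).le b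

/-- the area functional -/
def AF (Cl Cr : Cap) (q : ℂ) : ℂ :=
  B (M.sol Cl q) (A.T0 q (M.sol Cr q) + A.T1 q (xf (M.sol Cr q)))

theorem AF_diff (Cl Cr : Cap) : DifferentiableOn ℂ (A.AF Cl Cr) M.U := by
  have hsub : M.U ⊆ Metric.ball 0 2 := fun q hq => mem_ball_zero_iff.2 hq.1
  have h1 : DifferentiableOn ℂ (fun q => M.sol Cl q) M.U := fun q hq =>
    (Mdl.sol_deriv hq).differentiableWithinAt
  have h2 : DifferentiableOn ℂ (fun q => M.sol Cr q) M.U := fun q hq =>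
    (Mdl.sol_deriv hq).differentiableWithinAt
  have h3 : DifferentiableOn ℂ (fun q => A.T0 q (M.sol Cr q)) M.U :=
    (A.T0_diff.mono hsub).clm_apply h2
  have h4 : DifferentiableOn ℂ (fun q => A.T1 q (xf (M.sol Cr q))) M.U :=
    (A.T1_diff.mono hsub).clm_apply Mdl.xf_diff
  have h5 : DifferentiableOn ℂ (fun q => Bc (M.sol Cl q)) M.U :=
    Bc.differentiable.comp_differentiableOn h1
  exact h5.clm_apply (h3.add h4)

/-- the values of the kernel -/
theorem ker_val {q : ℂ} (hq : ‖q‖ ≤ 2) {f : H} (hf : Wt f) (d : ℤ) :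
    HasSum (fun b => M.w q b * (if M.P b d then (A.ar b d : ℂ) * f (d - M.v b) else 0))
      ((A.T0 q f + A.T1 q (xf f)) d - q ^ 2 * (d.natAbs * f d)) := by
  have h1 := ContinuousLinearMap.hasSum (ev d)
    (ContinuousLinearMap.hasSum (ContinuousLinearMap.apply ℂ H f) (A.T0_hasSum hq))
  have h2 := ContinuousLinearMap.hasSum (ev d)
    (ContinuousLinearMap.hasSum (ContinuousLinearMap.apply ℂ H (xf f)) (A.T1_hasSum hq))
  have h3 := h1.add h2
  have e1 : (A.T0 q f + A.T1 q (xf f)) d - q ^ 2 * (d.natAbs * f d) =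
      ev d (ContinuousLinearMap.apply ℂ H f (A.T0 q)) +
      ev d (ContinuousLinearMap.apply ℂ H (xf f) (A.T1 q - q ^ 2 • (1 : H →L[ℂ] H))) := by
    show _ = A.T0 q f d + (A.T1 q (xf f) d - q ^ 2 * xf f d)
    rw [xf_apply hf]
    show A.T0 q f d + A.T1 q (xf f) d - _ = _
    ring
  rw [e1]
  refine h3.congr_fun' fun b => ?_
  show _ = M.w q b * (A.Sb b f d) + (M.w q b * (A.nu b : ℂ)) * (S (M.P b) (M.v b) (xf f) d)
  rw [S_apply]
  unfold Sb
  rw [Sg_apply]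
  split_ifs with hP
  · rw [xf_apply hf]; push_cast; ring
  · simp

end Ker

end

end KN.SQ
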