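import Pool.Agent.H132.SQ.W4

/-!
# The area functional near the critical value
-/

set_option autoImplicit false

namespace KN.SQ

open Finset Filter Topology
open scoped Classical ENNReal ComplexConjugate

noncomputable section

/-- the second geometric sum -/
theorem inv_exp_bd2 {z : ℂ} (h0 : z ≠ 0) (h1 : ‖z‖ ≤ 1 / 50) :
    ‖Complex.exp (-z) * (1 - Complex.exp (-z))⁻¹ * (1 - Complex.exp (-z))⁻¹ - z⁻¹ ^ 2‖ ≤
      6 / ‖z‖ := by
  have h2 := Mdl.inv_exp_bd h0 h1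
  set a := Complex.exp (-z) * (1 - Complex.exp (-z))⁻¹ with ha
  set y := (1 - Complex.exp (-z))⁻¹ with hy
  have hz : 0 < ‖z‖ := norm_pos_iff.2 h0
  have hne : 1 - Complex.exp (-z) ≠ 0 := by
    intro h
    have h3 : y = 0 := by rw [hy, h, inv_zero]
    have h4 : a = 0 := by rw [ha, h3, mul_zero]
    rw [h4, zero_sub, norm_neg, norm_inv] at h2
    have h5 : 50 ≤ ‖z‖⁻¹ := by
      rw [le_inv_comm₀ (by norm_num) hz]; linarith
    linarith
  have e1 : y = 1 + a := by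
    rw [ha, hy]
    field_simp
    ring
  have e2 : a * y - z⁻¹ ^ 2 = (a - z⁻¹) * (a - z⁻¹) + (a - z⁻¹) * (1 + 2 * z⁻¹) + z⁻¹ := by
    rw [e1]; ring
  rw [e2]
  have hzi : ‖z⁻¹‖ = 1 / ‖z‖ := by rw [norm_inv, one_div]
  have h3 : 50 ≤ 1 / ‖z‖ := by
    rw [le_div_iff₀ hz]; linarith
  have b1 : ‖(a - z⁻¹) * (a - z⁻¹)‖ ≤ 4 := by
    rw [norm_mul]; nlinarith [norm_nonneg (a - z⁻¹)]
  have b2 : ‖(a - z⁻¹) * (1 + 2 * z⁻¹)‖ ≤ 2 * (1 + 2 * (1 / ‖z‖)) := by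
    rw [norm_mul]
    have h4 : ‖1 + 2 * z⁻¹‖ ≤ 1 + 2 * (1 / ‖z‖) := by
      refine (norm_add_le _ _).trans ?_
      rw [norm_mul, hzi]
      norm_num
    exact mul_le_mul h2 h4 (norm_nonneg _) (by norm_num)
  refine (norm_add_le _ _).trans ?_
  have h4 := norm_add_le ((a - z⁻¹) * (a - z⁻¹)) ((a - z⁻¹) * (1 + 2 * z⁻¹))
  rw [hzi]
  have e3 : 6 / ‖z‖ = 6 * (1 / ‖z‖) := by ring
  rw [e3]
  linarith

/-- the sum of `n x^n` -/
theorem geom1_hasSum {x : ℂ} (hx : ‖x‖ < 1) :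
    HasSum (fun n : ℕ => ((n + 1 : ℕ) : ℂ) * (x * x ^ n)) (x * (1 - x)⁻¹ * (1 - x)⁻¹) := by
  have h1 := hasSum_coe_mul_geometric_of_norm_lt_one hx
  have h2 : (fun n : ℕ => ((n + 1 : ℕ) : ℂ) * (x * x ^ n)) =
      fun n : ℕ => ((n + 1 : ℕ) : ℂ) * x ^ (n + 1) := by
    funext n; rw [pow_succ]; ring
  rw [h2]
  have h3 := (hasSum_nat_add_iff' (f := fun n : ℕ => (n : ℂ) * x ^ n) 1).2 h1
  simp only [range_one, sum_singleton, Nat.cast_zero, zero_mul, sub_zero] at h3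
  have e : x * (1 - x)⁻¹ * (1 - x)⁻¹ = x / (1 - x) ^ 2 := by
    rw [div_eq_mul_inv, sq, mul_inv]; ring
  rw [e]
  exact h3

namespace Mdl

variable {M : Mdl} {C Cl Cr : Cap}

theorem bulk1_hasSum {x : ℂ} (hx : ‖x‖ < 1) :
    HasSum (fun d : ℤ => ((ui M Cl d * ui M Cr d : ℝ) : ℂ) * (d.natAbs * x ^ d.natAbs))
      ((PP M Cl Cr : ℂ) * (x * (1 - x)⁻¹ * (1 - x)⁻¹)) := by
  have h2 := geom1_hasSum hx
  set y := x * (1 - x)⁻¹ * (1 - x)⁻¹ with hy
  have e0 : ((PP M Cl Cr : ℂ) * y) =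
      ((up M Cl * up M Cr : ℝ) : ℂ) * y + ((um M Cl * um M Cr : ℝ) : ℂ) * y := by
    unfold PP; push_cast; ring
  rw [e0]
  refine HasSum.of_nat_of_neg_add_one ?_ ?_
  · rw [← hasSum_nat_add_iff' 1]
    have e1 : (fun n : ℕ => ((ui M Cl ((n + 1 : ℕ) : ℤ) * ui M Cr ((n + 1 : ℕ) : ℤ) : ℝ) : ℂ) *
        ((((n + 1 : ℕ) : ℤ)).natAbs * x ^ (((n + 1 : ℕ) : ℤ)).natAbs)) =
        fun n => ((up M Cl * up M Cr : ℝ) : ℂ) * (((n + 1 : ℕ) : ℂ) * (x * x ^ n)) := by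
      funext n
      have h3 : (0 : ℤ) < ((n + 1 : ℕ) : ℤ) := by omega
      unfold ui
      rw [if_pos h3, if_pos h3, Int.natAbs_natCast, pow_succ]
      ring
    rw [e1]
    have e2 : ((up M Cl * up M Cr : ℝ) : ℂ) * y -
        ∑ i ∈ range 1, ((ui M Cl ((i : ℕ) : ℤ) * ui M Cr ((i : ℕ) : ℤ) : ℝ) : ℂ) *
        ((((i : ℕ) : ℤ)).natAbs * x ^ (((i : ℕ) : ℤ)).natAbs) =
        ((up M Cl * up M Cr : ℝ) : ℂ) * y := by
      simp [ui]
    rw [e2]
    exact h2.mul_left _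
  · have e1 : (fun n : ℕ => ((ui M Cl (-((n : ℤ) + 1)) * ui M Cr (-((n : ℤ) + 1)) : ℝ) : ℂ) *
        ((-((n : ℤ) + 1)).natAbs * x ^ (-((n : ℤ) + 1)).natAbs)) =
        fun n => ((um M Cl * um M Cr : ℝ) : ℂ) * (((n + 1 : ℕ) : ℂ) * (x * x ^ n)) := by
      funext n
      have h3 : ¬ (0 : ℤ) < -((n : ℤ) + 1) := by omega
      have h4 : -((n : ℤ) + 1) < 0 := by omega
      have h5 : (-((n : ℤ) + 1)).natAbs = n + 1 := by omega
      unfold ui
      rw [if_neg h3, if_pos h4, if_neg h3, if_pos h4, h5, pow_succ]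
      ring
    rw [e1]
    exact h2.mul_left _

theorem vq_wt {q : ℂ} (hq : q ∈ Loc M) : Wt (vq M C q) := (xf_of (vq_tr hq)).1

theorem vq_xf {q : ℂ} (hq : q ∈ Loc M) :
    ‖xf (vq M C q)‖ ≤ 16 * CU M C / (‖M.kap q‖ * √‖M.kap q‖) := (xf_of (vq_tr hq)).2

theorem gq_wt {q : ℂ} (hq : q ∈ Loc M) : Wt (gq M C q) := (xf_of (gq_tr hq)).1

theorem gq_xf {q : ℂ} (hq : q ∈ Loc M) :
    ‖xf (gq M C q)‖ ≤ 24 * M.gam * ((6 * CE M C + 160 * CU M C) * ‖M.kap q‖ + ‖gq M C q‖) /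
      ‖M.kap q‖ ^ 2 := (xf_of (gq_tr hq)).2

/-- the main sum with the distance -/
theorem B_main1 {q : ℂ} (hq : q ∈ Loc M) :
    ‖B (vq M Cl q) (xf (vq M Cr q)) - PP M Cl Cr * (2 * M.kap q)⁻¹ ^ 2‖ ≤
      2 * CU M Cl * CU M Cr * g2 + 3 * PP M Cl Cr / ‖M.kap q‖ := by
  have hC1 := CU_nonneg (M := M) (C := Cl)
  have hC2 := CU_nonneg (M := M) (C := Cr)
  have hre : 0 < (M.kap q).re := by
    have := kap_re hq.1
    have := (rt hq).1
    linarith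
  set x := Complex.exp (-(2 * M.kap q)) with hx
  have hx1 : ‖x‖ < 1 := x_lt hre
  have H1 := bulk1_hasSum (M := M) (Cl := Cl) (Cr := Cr) hx1
  have H2 : HasSum (fun d : ℤ => ((u M Cl d * u M Cr d : ℝ) : ℂ) * (d.natAbs * x ^ d.natAbs))
      (B (vq M Cl q) (xf (vq M Cr q))) := by
    have h1 := (B_summable (vq M Cl q) (xf (vq M Cr q))).hasSum
    refine h1.congr_fun' fun d => ?_
    rw [xf_apply (vq_wt hq), vq_apply hq, vq_apply hq, hx, ← E_sq]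
    push_cast; ring
  have H3 := H2.sub H1
  have hb : ∀ d : ℤ, ‖((u M Cl d * u M Cr d : ℝ) : ℂ) * (d.natAbs * x ^ d.natAbs) -
      ((ui M Cl d * ui M Cr d : ℝ) : ℂ) * (d.natAbs * x ^ d.natAbs)‖ ≤
      2 * CU M Cl * CU M Cr * (((d.natAbs : ℝ) + 1) * (1 / 2) ^ d.natAbs) := by
    intro d
    rw [← sub_mul, norm_mul, norm_mul, norm_pow, ← Complex.ofReal_sub, Complex.norm_real,
      Real.norm_eq_abs, Complex.norm_natCast]
    have h1 : ‖x‖ ^ d.natAbs ≤ 1 := pow_le_one₀ (norm_nonneg _) hx1.le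
    have hh : (0 : ℝ) ≤ (1 / 2) ^ d.natAbs := by positivity
    have h2 : |u M Cl d - ui M Cl d| ≤ CU M Cl * (1 / 2) ^ d.natAbs :=
      (ui_spec d).trans (mul_le_mul_of_nonneg_right CG_le hh)
    have h3 : |u M Cr d - ui M Cr d| ≤ CU M Cr * (1 / 2) ^ d.natAbs :=
      (ui_spec d).trans (mul_le_mul_of_nonneg_right CG_le hh)
    have h4 : |u M Cl d * u M Cr d - ui M Cl d * ui M Cr d| ≤
        2 * CU M Cl * CU M Cr * (1 / 2) ^ d.natAbs := by
      have e : u M Cl d * u M Cr d - ui M Cl d * ui M Cr d =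
          (u M Cl d - ui M Cl d) * u M Cr d + ui M Cl d * (u M Cr d - ui M Cr d) := by ring
      rw [e]
      refine (abs_add_le _ _).trans ?_
      rw [abs_mul, abs_mul, abs_of_nonneg (u_nonneg _), abs_of_nonneg (ui_nonneg _)]
      have h5 : |u M Cl d - ui M Cl d| * u M Cr d ≤ (CU M Cl * (1 / 2) ^ d.natAbs) * CU M Cr :=
        mul_le_mul h2 (u_le_CU d) (u_nonneg _) (by positivity)
      have h6 : ui M Cl d * |u M Cr d - ui M Cr d| ≤ CU M Cl * (CU M Cr * (1 / 2) ^ d.natAbs) :=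
        mul_le_mul (ui_le d) h3 (abs_nonneg _) hC1
      linarith
    have h5 : (d.natAbs : ℝ) * ‖x‖ ^ d.natAbs ≤ (d.natAbs : ℝ) + 1 := by
      have h6 : (0 : ℝ) ≤ d.natAbs := Nat.cast_nonneg _
      nlinarith
    calc _ ≤ (2 * CU M Cl * CU M Cr * (1 / 2) ^ d.natAbs) * ((d.natAbs : ℝ) + 1) :=
          mul_le_mul h4 h5 (by positivity) (by positivity)
      _ = _ := by ring
  have hs := ((int_geom1 (r := 1 / 2) (by norm_num) (by norm_num)).mul_left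
    (2 * CU M Cl * CU M Cr)).hasSum
  have h4 := tsum_of_norm_bounded hs hb
  rw [H3.tsum_eq, tsum_mul_left] at h4
  have hPP := PP_nonneg (M := M) (Cl := Cl) (Cr := Cr)
  have hk0 : M.kap q ≠ 0 := norm_pos_iff.1 (rt hq).1
  have h5 := inv_exp_bd2 (z := 2 * M.kap q) (mul_ne_zero two_ne_zero hk0) (by
    rw [norm_mul]
    have : ‖(2 : ℂ)‖ = 2 := by simp
    rw [this]
    linarith [hq.2])
  rw [← hx] at h5
  have e1 : B (vq M Cl q) (xf (vq M Cr q)) - PP M Cl Cr * (2 * M.kap q)⁻¹ ^ 2 =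
      (B (vq M Cl q) (xf (vq M Cr q)) - (PP M Cl Cr : ℂ) * (x * (1 - x)⁻¹ * (1 - x)⁻¹)) +
      PP M Cl Cr * (x * (1 - x)⁻¹ * (1 - x)⁻¹ - (2 * M.kap q)⁻¹ ^ 2) := by ring
  rw [e1]
  refine (norm_add_le _ _).trans ?_
  rw [norm_mul, Complex.norm_real, Real.norm_eq_abs, abs_of_nonneg hPP]
  have h6 := mul_le_mul_of_nonneg_left h5 hPP
  have e2 : ‖2 * M.kap q‖ = 2 * ‖M.kap q‖ := by rw [norm_mul]; simp
  rw [e2] at h6
  have e3 : PP M Cl Cr * (6 / (2 * ‖M.kap q‖)) = 3 * PP M Cl Cr / ‖M.kap q‖ := by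
    have := (rt hq).1
    field_simp
    ring
  rw [e3] at h6
  unfold g2
  linarith

/-- a shift changes the approximate solution by a bounded amount -/
theorem S_vq {q : ℂ} (hq : q ∈ Loc M) (b : M.ι) :
    ‖S (M.P b) (M.v b) (vq M C q) - vq M C q‖ ≤ 8 * CU M C * 4 ^ M.L b := by
  have hCU := CU_nonneg (M := M) (C := C)
  set t := ‖M.kap q‖ with ht
  have ht0 : 0 < t := (rt hq).1
  have ht1 : t ≤ 1 / 100 := hq.2
  have hL := M.L1 b
  -- pointwise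
  obtain ⟨y, hy⟩ : ∃ y : H, y = toH fun d => (((1 / 2 : ℝ) ^ d.natAbs : ℝ) : ℂ) := ⟨_, rfl⟩
  have hys : Summable fun d : ℤ => ‖((((1 / 2 : ℝ) ^ d.natAbs : ℝ) : ℂ))‖ ^ 2 :=
    summable_of_bd (X := 1) (r := 1 / 2) (by norm_num) (by norm_num) (fun d => by
      rw [Complex.norm_real, Real.norm_eq_abs, abs_of_nonneg (by positivity), one_mul])
  have hya : ∀ d, ‖y d‖ = (1 / 2 : ℝ) ^ d.natAbs := fun d => by
    rw [hy, toH_apply hys, Complex.norm_real, Real.norm_eq_abs, abs_of_nonneg (by positivity)]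
  have hyn : ‖y‖ ≤ 2 := by
    have := norm_of_half (f := y) (X := 1) zero_le_one (fun d => by rw [hya, one_mul])
    linarith
  obtain ⟨z, hz⟩ : ∃ z : H, z = toH fun d => ((Real.exp (-(t / 2)) ^ d.natAbs : ℝ) : ℂ) := ⟨_, rfl⟩
  have hzs : Summable fun d : ℤ => ‖((Real.exp (-(t / 2)) ^ d.natAbs : ℝ) : ℂ)‖ ^ 2 :=
    summable_of_bd (X := 1) (rt hq).2.1 (rt hq).2.2 (fun d => by
      rw [Complex.norm_real, Real.norm_eq_abs, abs_of_nonneg (pow_nonneg (rt hq).2.1 _), one_mul])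
  have hza : ∀ d, ‖z d‖ = Real.exp (-(t / 2)) ^ d.natAbs := fun d => by
    rw [hz, toH_apply hzs, Complex.norm_real, Real.norm_eq_abs,
      abs_of_nonneg (pow_nonneg (rt hq).2.1 _)]
  have hzn : ‖z‖ ^ 2 ≤ 8 / t := by
    have h1 := norm_sq_le (f := z) (X := 1) (rt hq).2.1 (rt hq).2.2 (fun d => by
      rw [hza, one_mul])
    rw [one_pow, one_mul] at h1
    exact h1.trans (geom_exp ht0 ht1)
  have htz : t * ‖z‖ ≤ 1 := by
    refine le_of_sq_le_sq ?_ zero_le_one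
    rw [mul_pow, one_pow]
    calc t ^ 2 * ‖z‖ ^ 2 ≤ t ^ 2 * (8 / t) := mul_le_mul_of_nonneg_left hzn (sq_nonneg _)
      _ = 8 * t := by field_simp
      _ ≤ 1 := by linarith
  set c1 := CU M C * (2 ^ M.L b + 1) with hc1
  set c2 := CU M C * (M.L b * 2 ^ M.L b) * t with hc2
  have hpt : ∀ d, ‖(S (M.P b) (M.v b) (vq M C q) - vq M C q) d‖ ≤ c1 * ‖y d‖ + c2 * ‖z d‖ := by
    intro d
    rw [hya, hza]
    have e0 : (S (M.P b) (M.v b) (vq M C q) - vq M C q) d =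
        (if M.P b d then vq M C q (d - M.v b) else 0) - vq M C q d := rfl
    rw [e0]
    set pu : ℝ := (if M.P b d then u M C (d - M.v b) else 0) with hpu
    have e1 : (if M.P b d then vq M C q (d - M.v b) else 0) =
        (pu : ℂ) * E (M.kap q) (d - M.v b) := by
      rw [hpu]
      split_ifs
      · rw [vq_apply hq]
      · simp
    rw [e1, vq_apply hq]
    have e2 : (pu : ℂ) * E (M.kap q) (d - M.v b) - (u M C d : ℂ) * E (M.kap q) d =
        ((pu - ui M C d : ℝ) : ℂ) * E (M.kap q) (d - M.v b) +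
        (ui M C d : ℂ) * (E (M.kap q) (d - M.v b) - E (M.kap q) d) -
        ((u M C d - ui M C d : ℝ) : ℂ) * E (M.kap q) d := by push_cast; ring
    rw [e2]
    have hE1 : ‖E (M.kap q) (d - M.v b)‖ ≤ 1 := E_norm_le_one (M.kap_re_nonneg q) _
    have hE2 : ‖E (M.kap q) d‖ ≤ 1 := E_norm_le_one (M.kap_re_nonneg q) _
    have hE4 := E_norm_le (kap_re hq.1) d
    have hE3 : ‖E (M.kap q) (d - M.v b) - E (M.kap q) d‖ ≤
        Real.exp (-(t / 2)) ^ d.natAbs * (t * M.L b * 2 ^ M.L b) := by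
      have h1 : |(((d - M.v b).natAbs : ℝ) - d.natAbs)| ≤ (M.L b : ℕ) :=
        (natAbs_diff d (M.v b)).trans (by exact_mod_cast vn_le b)
      refine (E_sub (κ := M.kap q) h1).trans ?_
      have hκ := exp_small hq.2 (M.L b)
      rw [← ht] at hκ hE4 ⊢
      exact mul_le_mul hE4 (mul_le_mul_of_nonneg_left hκ (by positivity)) (by positivity)
        (by positivity)
    have h1 := pu_ui (M := M) (C := C) b d
    rw [← hpu] at h1
    have hh : (0 : ℝ) ≤ (1 / 2) ^ d.natAbs := by positivity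
    have h2 : |u M C d - ui M C d| ≤ CU M C * (1 / 2) ^ d.natAbs :=
      (ui_spec d).trans (mul_le_mul_of_nonneg_right CG_le hh)
    refine (norm_sub_le _ _).trans ?_
    have h3 := norm_add_le (((pu - ui M C d : ℝ) : ℂ) * E (M.kap q) (d - M.v b))
      ((ui M C d : ℂ) * (E (M.kap q) (d - M.v b) - E (M.kap q) d))
    have b1 : ‖((pu - ui M C d : ℝ) : ℂ) * E (M.kap q) (d - M.v b)‖ ≤
        CU M C * (2 ^ M.L b * (1 / 2) ^ d.natAbs) := by
      rw [norm_mul, Complex.norm_real, Real.norm_eq_abs]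
      calc _ ≤ (CU M C * (2 ^ M.L b * (1 / 2) ^ d.natAbs)) * 1 :=
            mul_le_mul h1 hE1 (norm_nonneg _) (by positivity)
        _ = _ := mul_one _
    have b2 : ‖(ui M C d : ℂ) * (E (M.kap q) (d - M.v b) - E (M.kap q) d)‖ ≤
        CU M C * (Real.exp (-(t / 2)) ^ d.natAbs * (t * M.L b * 2 ^ M.L b)) := by
      rw [norm_mul, Complex.norm_real, Real.norm_eq_abs, abs_of_nonneg (ui_nonneg _)]
      exact mul_le_mul (ui_le d) hE3 (norm_nonneg _) hCU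
    have b3 : ‖((u M C d - ui M C d : ℝ) : ℂ) * E (M.kap q) d‖ ≤ CU M C * (1 / 2) ^ d.natAbs := by
      rw [norm_mul, Complex.norm_real, Real.norm_eq_abs]
      calc _ ≤ (CU M C * (1 / 2) ^ d.natAbs) * 1 :=
            mul_le_mul h2 hE2 (norm_nonneg _) (by positivity)
        _ = _ := mul_one _
    have e3 : c1 * (1 / 2) ^ d.natAbs + c2 * Real.exp (-(t / 2)) ^ d.natAbs =
        CU M C * (2 ^ M.L b * (1 / 2) ^ d.natAbs) +
        CU M C * (Real.exp (-(t / 2)) ^ d.natAbs * (t * M.L b * 2 ^ M.L b)) +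
        CU M C * (1 / 2) ^ d.natAbs := by rw [hc1, hc2]; ring
    rw [e3]
    linarith
  have hc10 : 0 ≤ c1 := by positivity
  have hc20 : 0 ≤ c2 := by positivity
  -- the norm
  have hnorm : ‖S (M.P b) (M.v b) (vq M C q) - vq M C q‖ ≤ 2 * (c1 * ‖y‖ + c2 * ‖z‖) := by
    refine le_of_sq_le_sq ?_ (by positivity)
    have h1 : ‖S (M.P b) (M.v b) (vq M C q) - vq M C q‖ ^ 2 ≤
        2 * c1 ^ 2 * ‖y‖ ^ 2 + 2 * c2 ^ 2 * ‖z‖ ^ 2 := by
      rw [H.norm_sq, y.norm_sq, z.norm_sq, ← tsum_mul_left, ← tsum_mul_left,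
        ← (y.sum.mul_left _).tsum_add (z.sum.mul_left _)]
      refine (H.sum _).tsum_le_tsum (fun d => ?_) ((y.sum.mul_left _).add (z.sum.mul_left _))
      have h2 := pow_le_pow_left₀ (norm_nonneg _) (hpt d) 2
      refine h2.trans ?_
      nlinarith [sq_nonneg (c1 * ‖y d‖ - c2 * ‖z d‖)]
    refine h1.trans ?_
    have h2 : 0 ≤ c1 * ‖y‖ * (c2 * ‖z‖) := by positivity
    nlinarith [sq_nonneg (c1 * ‖y‖), sq_nonneg (c2 * ‖z‖)]
  refine hnorm.trans ?_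
  have p24 : (2 : ℝ) ^ M.L b + 1 ≤ 4 ^ M.L b := by
    have h1 : (2 : ℝ) ≤ 2 ^ M.L b := by
      calc (2 : ℝ) = 2 ^ 1 := by norm_num
        _ ≤ _ := pow_le_pow_right₀ (by norm_num) hL
    have h2 : (4 : ℝ) ^ M.L b = 2 ^ M.L b * 2 ^ M.L b := by rw [← mul_pow]; norm_num
    rw [h2]; nlinarith
  have pL : (M.L b : ℝ) * 2 ^ M.L b ≤ 4 ^ M.L b := by
    have h1 : (M.L b : ℝ) ≤ 2 ^ M.L b := by exact_mod_cast (Nat.lt_two_pow_self).le
    have h2 : (4 : ℝ) ^ M.L b = 2 ^ M.L b * 2 ^ M.L b := by rw [← mul_pow]; norm_num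
    rw [h2]; exact mul_le_mul_of_nonneg_right h1 (by positivity)
  have b1 : c1 * ‖y‖ ≤ CU M C * 4 ^ M.L b * 2 :=
    mul_le_mul (mul_le_mul_of_nonneg_left p24 hCU) hyn (norm_nonneg _) (by positivity)
  have b2 : c2 * ‖z‖ ≤ CU M C * 4 ^ M.L b := by
    rw [hc2]
    calc CU M C * (M.L b * 2 ^ M.L b) * t * ‖z‖ = CU M C * (M.L b * 2 ^ M.L b) * (t * ‖z‖) := by
          ring
      _ ≤ CU M C * 4 ^ M.L b * 1 :=
          mul_le_mul (mul_le_mul_of_nonneg_left pL hCU) htz (by positivity) (by positivity)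
      _ = _ := mul_one _
  have : 0 ≤ CU M C * 4 ^ M.L b := by positivity
  linarith

end Mdl

end

end KN.SQ
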