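import Pool.Agent.H132.SQ.W5

/-!
# The main term of the area functional
-/

set_option autoImplicit false

namespace KN.SQ

open Finset Filter Topology
open scoped Classical ENNReal ComplexConjugate

noncomputable section

theorem B_xf {f g : H} (hf : Wt f) (hg : Wt g) : B f (xf g) = B (xf f) g := by
  unfold B
  refine tsum_congr fun d => ?_
  rw [xf_apply hf, xf_apply hg]; ring

theorem S_lin_norm (P : ℤ → Prop) (v : ℤ) (g : H) : ‖S P v g - g‖ ≤ 2 * ‖g‖ := by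
  refine (norm_sub_le _ _).trans ?_
  have := (S P v).le_opNorm g
  have h2 := mul_le_mul_of_nonneg_right (S_norm P v) (norm_nonneg g)
  linarith

namespace Ker

variable {M : Mdl} (A : Ker M)

/-- the mean number of columns of a block -/
def cA : ℝ := M.qc ^ 2 + ∑' b, M.W b * A.nu b

theorem Wnu_le (b : M.ι) : M.W b * A.nu b ≤ M.c b * 16 ^ M.L b := by
  have h1 := M.W_le b
  have h2 := A.nuL b
  have hc := M.c0 b
  calc M.W b * A.nu b ≤ M.c b * 2 ^ M.L b := mul_le_mul h1 h2 (A.nu0 b) hc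
    _ ≤ _ := mul_le_mul_of_nonneg_left (pow_le_pow_left₀ (by norm_num) (by norm_num) _) hc

theorem Wnu_nonneg (b : M.ι) : 0 ≤ M.W b * A.nu b := mul_nonneg (M.W_nonneg b) (A.nu0 b)

theorem Wnu_summable : Summable fun b => M.W b * A.nu b :=
  Summable.of_nonneg_of_le A.Wnu_nonneg A.Wnu_le M.sm

theorem cA_bd : 0 < A.cA ∧ A.cA ≤ 2 := by
  unfold cA
  have h1 : ∑' b, M.W b * A.nu b ≤ 1 / 10 ^ 6 :=
    (A.Wnu_summable.tsum_le_tsum A.Wnu_le M.sm).trans M.s1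
  have h2 : 0 ≤ ∑' b, M.W b * A.nu b := tsum_nonneg A.Wnu_nonneg
  have h3 := M.qc_pos
  have h4 := M.qc_lt
  norm_num at h1
  constructor
  · positivity
  · nlinarith

/-- the coefficient of the main term -/
def cq (q : ℂ) : ℂ := q ^ 2 + ∑' b, M.w q b * (A.nu b : ℂ)

theorem cq_sub {q : ℂ} (hq : ‖q‖ ≤ 2) : ‖A.cq q - A.cA‖ ≤ 20 * ‖q - M.qc‖ := by
  have h1 : Summable fun b => M.w q b * (A.nu b : ℂ) :=
    Summable.of_norm_bounded (M.sm.mul_right _) (A.T1_coef hq)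
  have h2 := (Complex.hasSum_ofReal.2 A.Wnu_summable.hasSum)
  have h3 := h1.hasSum.sub h2
  have e1 : A.cq q - A.cA = (q + M.qc) * (q - M.qc) + (∑' b, M.w q b * (A.nu b : ℂ) -
      ((∑' b, M.W b * A.nu b : ℝ) : ℂ)) := by
    unfold cq cA; push_cast; ring
  rw [e1, ← h3.tsum_eq]
  refine (norm_add_le _ _).trans ?_
  have h4 : ‖(q + M.qc) * (q - M.qc)‖ ≤ 4 * ‖q - M.qc‖ := by
    rw [norm_mul]
    refine mul_le_mul_of_nonneg_right ?_ (norm_nonneg _)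
    refine (norm_add_le _ _).trans ?_
    have := Mdl.qc_norm1 (M := M)
    linarith
  have h5 : ‖∑' b, (M.w q b * (A.nu b : ℂ) - ((M.W b * A.nu b : ℝ) : ℂ))‖ ≤
      16 * ‖q - M.qc‖ := by
    have h6 := tsum_of_norm_bounded (f := fun b => (M.w q b * (A.nu b : ℂ) -
      ((M.W b * A.nu b : ℝ) : ℂ))) (M.sm.hasSum.mul_right (16 * ‖q - M.qc‖)) (fun b => by
        have e2 : M.w q b * (A.nu b : ℂ) - ((M.W b * A.nu b : ℝ) : ℂ) =
            (M.w q b - M.W b) * (A.nu b : ℂ) := by push_cast; ring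
        rw [e2, norm_mul, Complex.norm_real, Real.norm_eq_abs, abs_of_nonneg (A.nu0 b)]
        have h7 := Mdl.w_sub_W (M := M) hq b
        have hc := M.c0 b
        have p : (4 : ℝ) ^ M.L b * 2 ^ M.L b ≤ 16 ^ M.L b := by
          rw [← mul_pow]; exact pow_le_pow_left₀ (by norm_num) (by norm_num) _
        calc ‖M.w q b - M.W b‖ * A.nu b ≤ (16 * 4 ^ M.L b * M.c b * ‖q - M.qc‖) * 2 ^ M.L b :=
              mul_le_mul h7 (A.nuL b) (A.nu0 b) (by positivity)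
          _ = M.c b * (4 ^ M.L b * 2 ^ M.L b) * (16 * ‖q - M.qc‖) := by ring
          _ ≤ _ := by gcongr)
    refine h6.trans ?_
    have h7 := M.s1
    have h8 : (∑' b, M.c b * 16 ^ M.L b) * (16 * ‖q - M.qc‖) ≤ 1 / 10 ^ 6 * (16 * ‖q - M.qc‖) :=
      mul_le_mul_of_nonneg_right h7 (by positivity)
    have h9 := norm_nonneg (q - M.qc)
    norm_num at h8
    linarith
  linarith

/-- the shifts can be neglected -/
theorem T1_main {q : ℂ} (hq : ‖q‖ ≤ 2) (f y : H) {X : ℝ}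
    (hX : ∀ b, ‖S (M.P b) (M.v b) f - f‖ ≤ X * 4 ^ M.L b) :
    ‖B f (A.T1 q y) - A.cq q * B f y‖ ≤ X * ‖y‖ := by
  have h1 := ContinuousLinearMap.hasSum (Bc f)
    (ContinuousLinearMap.hasSum (ContinuousLinearMap.apply ℂ H y) (A.T1_hasSum hq))
  have hs : Summable fun b => M.w q b * (A.nu b : ℂ) :=
    Summable.of_norm_bounded (M.sm.mul_right _) (A.T1_coef hq)
  have h2 := hs.hasSum.mul_right (B f y)
  have h3 := h1.sub h2
  have e1 : B f (A.T1 q y) - A.cq q * B f y =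
      (Bc f) (ContinuousLinearMap.apply ℂ H y (A.T1 q - q ^ 2 • (1 : H →L[ℂ] H))) -
      (∑' b, M.w q b * (A.nu b : ℂ)) * B f y := by
    have e2 : (Bc f) (ContinuousLinearMap.apply ℂ H y (A.T1 q - q ^ 2 • (1 : H →L[ℂ] H))) =
        B f (A.T1 q y - q ^ 2 • y) := rfl
    rw [e2, B_sub_right, B_smul_right]
    unfold cq
    ring
  rw [e1, ← h3.tsum_eq]
  have h4 := tsum_of_norm_bounded (f := fun b => (Bc f) (ContinuousLinearMap.apply ℂ H y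
      ((M.w q b * (A.nu b : ℂ)) • S (M.P b) (M.v b))) - M.w q b * (A.nu b : ℂ) * B f y)
      (M.sm.hasSum.mul_right (4 * (X * ‖y‖))) (fun b => by
    have e2 : (Bc f) (ContinuousLinearMap.apply ℂ H y
      ((M.w q b * (A.nu b : ℂ)) • S (M.P b) (M.v b))) =
      (M.w q b * (A.nu b : ℂ)) * B f (S (M.P b) (M.v b) y) := by
      exact B_smul_right _ _ _
    have e3 : B f (S (M.P b) (M.v b) y) = B (S (M.P (M.σ b)) (M.v (M.σ b)) f) y := by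
      rw [M.vσ]
      exact B_S (fun d => M.Pσ') f y
    rw [e2, e3, ← mul_sub, ← B_sub_left, norm_mul, norm_mul, Complex.norm_real, Real.norm_eq_abs,
      abs_of_nonneg (A.nu0 b)]
    have h5 := Mdl.w_norm' (M := M) hq b
    have h6 := B_norm (S (M.P (M.σ b)) (M.v (M.σ b)) f - f) y
    have h7 := hX (M.σ b)
    rw [M.Lσ] at h7
    have hc := M.c0 b
    have p : (2 : ℝ) ^ M.L b * 2 ^ M.L b * 4 ^ M.L b = 16 ^ M.L b := by
      rw [← mul_pow, ← mul_pow]; norm_num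
    have hX0 : 0 ≤ X * 4 ^ M.L b := (norm_nonneg _).trans h7
    calc ‖M.w q b‖ * A.nu b * ‖B (S (M.P (M.σ b)) (M.v (M.σ b)) f - f) y‖ ≤
          ((4 * 2 ^ M.L b * M.c b) * 2 ^ M.L b) * ((X * 4 ^ M.L b) * ‖y‖) := by
          refine mul_le_mul (mul_le_mul h5 (A.nuL b) (A.nu0 b) (by positivity)) ?_
            (norm_nonneg _) (by positivity)
          exact h6.trans (mul_le_mul_of_nonneg_right h7 (norm_nonneg _))
      _ = M.c b * (2 ^ M.L b * 2 ^ M.L b * 4 ^ M.L b) * (4 * (X * ‖y‖)) := by ring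
      _ = _ := by rw [p])
  refine h4.trans ?_
  have h7 := M.s1
  have hX0 : 0 ≤ X := by
    have h8 := (norm_nonneg _).trans (hX M.bp)
    have : (0 : ℝ) < 4 ^ M.L M.bp := by positivity
    exact nonneg_of_mul_nonneg_left h8 this
  have h8 : (∑' b, M.c b * 16 ^ M.L b) * (4 * (X * ‖y‖)) ≤ 1 / 10 ^ 6 * (4 * (X * ‖y‖)) :=
    mul_le_mul_of_nonneg_right h7 (by positivity)
  have h9 : 0 ≤ X * ‖y‖ := by positivity
  norm_num at h8
  linarith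

theorem AF_loc (Cl Cr : Cap) {ε : ℝ} (hε : 0 < ε) : ∃ τ : ℝ, 0 < τ ∧ ∀ q ∈ Mdl.Loc M,
    ‖M.kap q‖ ≤ τ →
    ‖A.AF Cl Cr q - A.cA * Mdl.PP M Cl Cr * (2 * M.kap q)⁻¹ ^ 2‖ ≤ ε / ‖M.kap q‖ ^ 2 := by
  obtain ⟨Z1, hZ1, h1⟩ := Mdl.gq_bd M Cl
  obtain ⟨Z2, hZ2, h2⟩ := Mdl.gq_bd M Cr
  have hC1 := Mdl.CU_nonneg (M := M) (C := Cl)
  have hC2 := Mdl.CU_nonneg (M := M) (C := Cr)
  have hE1 := Mdl.CE_nonneg (M := M) (C := Cl)
  have hE2 := Mdl.CE_nonneg (M := M) (C := Cr)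
  have hg := M.gam_pos
  have hP := Mdl.PP_nonneg (M := M) (Cl := Cl) (Cr := Cr)
  have hCa := A.Ca0
  have hg2 := g2_nonneg
  obtain ⟨hcA0, hcA2⟩ := A.cA_bd
  set Yl := 3 * Mdl.CU M Cl + Z1 with hYl
  set Yr := 3 * Mdl.CU M Cr + Z2 with hYr
  set K1 := 16 * Mdl.CU M Cr + 24 * M.gam * (6 * Mdl.CE M Cr + 160 * Mdl.CU M Cr + 1) with hK1
  have hYl0 : 0 ≤ Yl := by positivity
  have hYr0 : 0 ≤ Yr := by positivity
  have hK10 : 0 ≤ K1 := by positivity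
  set K := (A.Ca + 1) * (Yl * Yr) + (8 * Mdl.CU M Cl + 2 * Z1) * K1 + 20 * Yl * K1 +
    2 * (2 * Mdl.CU M Cl * Mdl.CU M Cr * g2 + 3 * Mdl.PP M Cl Cr + 16 * Mdl.CU M Cl + Z1 * K1) +
    1 with hK
  have hK0 : 0 < K := by positivity
  set δ := min 1 (ε / K) with hδ
  have hδ0 : 0 < δ := lt_min one_pos (by positivity)
  have hδ1 : δ ≤ 1 := min_le_left _ _
  have hδK : K * δ ≤ ε := by
    have : δ ≤ ε / K := min_le_right _ _
    rw [le_div_iff₀ hK0] at this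
    linarith
  obtain ⟨τ2, hτ2, h4⟩ := Mdl.gq_small M Cr hδ0
  refine ⟨min τ2 (δ ^ 2), lt_min hτ2 (by positivity), fun q hq hqτ => ?_⟩
  obtain ⟨hD1, hn1⟩ := h1 q hq
  obtain ⟨hD2, hn2⟩ := h2 q hq
  have hgr := h4 q hq (hqτ.trans (min_le_left _ _))
  have hq2 : ‖q‖ ≤ 2 := hq.1.1.le
  set t := ‖M.kap q‖ with ht
  have ht0 : 0 < t := (Mdl.rt hq).1
  have ht1 : t ≤ 1 := hq.2.trans (by norm_num)
  have hs0 : 0 < √t := Real.sqrt_pos.2 ht0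
  have hsδ : √t ≤ δ := by
    rw [Real.sqrt_le_left hδ0.le]
    exact hqτ.trans (min_le_right _ _)
  have hs1 : √t ≤ 1 := hsδ.trans hδ1
  have hs2 : √t * √t = t := Real.mul_self_sqrt ht0.le
  have htδ : t ≤ δ := by rw [← hs2]; nlinarith
  -- norms
  have nl : ‖M.sol Cl q‖ ≤ Yl / √t := by
    have e : M.sol Cl q = Mdl.vq M Cl q + Mdl.gq M Cl q := by unfold Mdl.gq; abel
    rw [e]
    refine (norm_add_le _ _).trans ?_
    have h3 := Mdl.vq_norm' (C := Cl) hq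
    have h5 : Z1 ≤ Z1 / √t := by rw [le_div_iff₀ hs0]; nlinarith
    rw [hYl, add_div]
    have e2 : 3 * Mdl.CU M Cl * (1 / √t) = 3 * Mdl.CU M Cl / √t := by ring
    rw [← ht, e2] at h3
    linarith
  have nr : ‖M.sol Cr q‖ ≤ Yr / √t := by
    have e : M.sol Cr q = Mdl.vq M Cr q + Mdl.gq M Cr q := by unfold Mdl.gq; abel
    rw [e]
    refine (norm_add_le _ _).trans ?_
    have h3 := Mdl.vq_norm' (C := Cr) hq
    have h5 : Z2 ≤ Z2 / √t := by rw [le_div_iff₀ hs0]; nlinarith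
    rw [hYr, add_div]
    have e2 : 3 * Mdl.CU M Cr * (1 / √t) = 3 * Mdl.CU M Cr / √t := by ring
    rw [← ht, e2] at h3
    linarith
  have wl := Mdl.vq_wt (C := Cl) hq
  have wr := Mdl.vq_wt (C := Cr) hq
  have wgr := Mdl.gq_wt (C := Cr) hq
  have er : M.sol Cr q = Mdl.vq M Cr q + Mdl.gq M Cr q := by unfold Mdl.gq; abel
  have exr : xf (M.sol Cr q) = xf (Mdl.vq M Cr q) + xf (Mdl.gq M Cr q) := by
    rw [er]; exact (wr.add wgr).2
  have xr : ‖xf (M.sol Cr q)‖ ≤ K1 * δ / t ^ 2 := by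
    rw [exr]
    refine (norm_add_le _ _).trans ?_
    have b1 := Mdl.vq_xf (C := Cr) hq
    have b2 := Mdl.gq_xf (C := Cr) hq
    rw [← ht] at b1 b2
    have e1 : 16 * Mdl.CU M Cr / (t * √t) = 16 * Mdl.CU M Cr * √t / t ^ 2 := by
      rw [div_eq_div_iff (by positivity) (by positivity)]
      calc 16 * Mdl.CU M Cr * t ^ 2 = 16 * Mdl.CU M Cr * (t * t) := by ring
        _ = 16 * Mdl.CU M Cr * (t * (√t * √t)) := by rw [hs2]
        _ = _ := by ring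
    have b3 : 16 * Mdl.CU M Cr * √t / t ^ 2 ≤ 16 * Mdl.CU M Cr * δ / t ^ 2 := by gcongr
    have b4 : 24 * M.gam * ((6 * Mdl.CE M Cr + 160 * Mdl.CU M Cr) * t + ‖Mdl.gq M Cr q‖) / t ^ 2 ≤
        24 * M.gam * ((6 * Mdl.CE M Cr + 160 * Mdl.CU M Cr) * δ + δ) / t ^ 2 := by gcongr
    rw [e1] at b1
    have e2 : K1 * δ / t ^ 2 = 16 * Mdl.CU M Cr * δ / t ^ 2 +
        24 * M.gam * ((6 * Mdl.CE M Cr + 160 * Mdl.CU M Cr) * δ + δ) / t ^ 2 := by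
      rw [hK1]; ring
    rw [e2]
    linarith
  -- the terms
  have c1 : ‖B (M.sol Cl q) (A.T0 q (M.sol Cr q))‖ ≤ ((A.Ca + 1) * (Yl * Yr)) * δ / t ^ 2 := by
    refine (B_norm _ _).trans ?_
    have h5 : ‖A.T0 q (M.sol Cr q)‖ ≤ (A.Ca + 1) * (Yr / √t) :=
      ((A.T0 q).le_opNorm _).trans (mul_le_mul (A.T0_norm hq2) nr (norm_nonneg _) (by positivity))
    calc ‖M.sol Cl q‖ * ‖A.T0 q (M.sol Cr q)‖ ≤ (Yl / √t) * ((A.Ca + 1) * (Yr / √t)) :=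
          mul_le_mul nl h5 (norm_nonneg _) (by positivity)
      _ = ((A.Ca + 1) * (Yl * Yr)) / (√t * √t) := by field_simp
      _ = ((A.Ca + 1) * (Yl * Yr)) * t / t ^ 2 := by rw [hs2]; field_simp
      _ ≤ _ := by gcongr
  have c2 : ‖B (M.sol Cl q) (A.T1 q (xf (M.sol Cr q))) -
      A.cq q * B (M.sol Cl q) (xf (M.sol Cr q))‖ ≤
      ((8 * Mdl.CU M Cl + 2 * Z1) * K1) * δ / t ^ 2 := by
    refine (A.T1_main hq2 (M.sol Cl q) (xf (M.sol Cr q)) (X := 8 * Mdl.CU M Cl + 2 * Z1)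
      (fun b => ?_)).trans ?_
    · have e : M.sol Cl q = Mdl.vq M Cl q + Mdl.gq M Cl q := by unfold Mdl.gq; abel
      have e2 : S (M.P b) (M.v b) (M.sol Cl q) - M.sol Cl q =
          (S (M.P b) (M.v b) (Mdl.vq M Cl q) - Mdl.vq M Cl q) +
          (S (M.P b) (M.v b) (Mdl.gq M Cl q) - Mdl.gq M Cl q) := by
        rw [e, map_add]; abel
      rw [e2]
      refine (norm_add_le _ _).trans ?_
      have b1 := Mdl.S_vq (C := Cl) hq b
      have b2 := S_lin_norm (M.P b) (M.v b) (Mdl.gq M Cl q)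
      have b3 : (1 : ℝ) ≤ 4 ^ M.L b := one_le_pow₀ (by norm_num)
      have b4 : 2 * Z1 ≤ 2 * Z1 * 4 ^ M.L b := le_mul_of_one_le_right (by positivity) b3
      rw [add_mul]
      linarith
    · calc (8 * Mdl.CU M Cl + 2 * Z1) * ‖xf (M.sol Cr q)‖ ≤
            (8 * Mdl.CU M Cl + 2 * Z1) * (K1 * δ / t ^ 2) := by gcongr
        _ = _ := by ring
  have c3 : ‖(A.cq q - A.cA) * B (M.sol Cl q) (xf (M.sol Cr q))‖ ≤ (20 * Yl * K1) * δ / t ^ 2 := by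
    rw [norm_mul]
    have b1 := A.cq_sub hq2
    have b2 : ‖q - M.qc‖ ≤ t ^ 2 := Mdl.sub_le_kap hq.1
    have b3 : ‖B (M.sol Cl q) (xf (M.sol Cr q))‖ ≤ (Yl / √t) * (K1 * δ / t ^ 2) :=
      (B_norm _ _).trans (mul_le_mul nl xr (norm_nonneg _) (by positivity))
    have b4 : t ^ 2 ≤ √t := by
      calc t ^ 2 = t * (√t * √t) := by rw [hs2]; ring
        _ ≤ 1 * (1 * √t) := by
            refine mul_le_mul ht1 ?_ (by positivity) zero_le_one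
            exact mul_le_mul_of_nonneg_right hs1 hs0.le
        _ = _ := by ring
    calc ‖A.cq q - A.cA‖ * ‖B (M.sol Cl q) (xf (M.sol Cr q))‖ ≤
          (20 * √t) * ((Yl / √t) * (K1 * δ / t ^ 2)) := by
          refine mul_le_mul ?_ b3 (norm_nonneg _) (by positivity)
          linarith
      _ = _ := by field_simp
  have c4 : ‖B (M.sol Cl q) (xf (M.sol Cr q)) - Mdl.PP M Cl Cr * (2 * M.kap q)⁻¹ ^ 2‖ ≤
      (2 * Mdl.CU M Cl * Mdl.CU M Cr * g2 + 3 * Mdl.PP M Cl Cr + 16 * Mdl.CU M Cl + Z1 * K1) *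
        δ / t ^ 2 := by
    have e : M.sol Cl q = Mdl.vq M Cl q + Mdl.gq M Cl q := by unfold Mdl.gq; abel
    have e2 : B (M.sol Cl q) (xf (M.sol Cr q)) - Mdl.PP M Cl Cr * (2 * M.kap q)⁻¹ ^ 2 =
        (B (Mdl.vq M Cl q) (xf (Mdl.vq M Cr q)) - Mdl.PP M Cl Cr * (2 * M.kap q)⁻¹ ^ 2) +
        B (xf (Mdl.vq M Cl q)) (Mdl.gq M Cr q) + B (Mdl.gq M Cl q) (xf (M.sol Cr q)) := by
      conv_lhs => rw [e]
      rw [B_add_left]
      conv_lhs => rw [exr, B_add_right, B_xf wl wgr]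
      rw [exr]
      ring
    rw [e2]
    have b1 := Mdl.B_main1 (Cl := Cl) (Cr := Cr) hq
    rw [← ht] at b1
    have b1' : 2 * Mdl.CU M Cl * Mdl.CU M Cr * g2 + 3 * Mdl.PP M Cl Cr / t ≤
        (2 * Mdl.CU M Cl * Mdl.CU M Cr * g2 + 3 * Mdl.PP M Cl Cr) * δ / t ^ 2 := by
      have i1 : (1 : ℝ) ≤ δ / t ^ 2 := by
        rw [le_div_iff₀ (by positivity)]; nlinarith
      have i2 : 1 / t ≤ δ / t ^ 2 := by
        rw [div_le_div_iff₀ ht0 (by positivity)]; nlinarith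
      have i3 : 0 ≤ 2 * Mdl.CU M Cl * Mdl.CU M Cr * g2 := by positivity
      calc 2 * Mdl.CU M Cl * Mdl.CU M Cr * g2 + 3 * Mdl.PP M Cl Cr / t =
            2 * Mdl.CU M Cl * Mdl.CU M Cr * g2 * 1 + 3 * Mdl.PP M Cl Cr * (1 / t) := by ring
        _ ≤ 2 * Mdl.CU M Cl * Mdl.CU M Cr * g2 * (δ / t ^ 2) +
            3 * Mdl.PP M Cl Cr * (δ / t ^ 2) := by gcongr
        _ = _ := by ring
    have b2 : ‖B (xf (Mdl.vq M Cl q)) (Mdl.gq M Cr q)‖ ≤ 16 * Mdl.CU M Cl * δ / t ^ 2 := by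
      refine (B_norm _ _).trans ?_
      have i1 := Mdl.vq_xf (C := Cl) hq
      rw [← ht] at i1
      have i2 : 16 * Mdl.CU M Cl / (t * √t) ≤ 16 * Mdl.CU M Cl / t ^ 2 := by
        refine div_le_div_of_nonneg_left (by positivity) (by positivity) ?_
        calc t ^ 2 = t * (√t * √t) := by rw [hs2]; ring
          _ ≤ t * (1 * √t) := by
            refine mul_le_mul_of_nonneg_left ?_ ht0.le
            exact mul_le_mul_of_nonneg_right hs1 hs0.le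
          _ = _ := by ring
      calc ‖xf (Mdl.vq M Cl q)‖ * ‖Mdl.gq M Cr q‖ ≤ (16 * Mdl.CU M Cl / t ^ 2) * δ :=
            mul_le_mul (i1.trans i2) hgr (norm_nonneg _) (by positivity)
        _ = _ := by ring
    have b3 : ‖B (Mdl.gq M Cl q) (xf (M.sol Cr q))‖ ≤ Z1 * K1 * δ / t ^ 2 := by
      refine (B_norm _ _).trans ?_
      calc ‖Mdl.gq M Cl q‖ * ‖xf (M.sol Cr q)‖ ≤ Z1 * (K1 * δ / t ^ 2) :=
            mul_le_mul hn1 xr (norm_nonneg _) hZ1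
        _ = _ := by ring
    refine (norm_add_le _ _).trans ?_
    have b4 := norm_add_le (B (Mdl.vq M Cl q) (xf (Mdl.vq M Cr q)) -
      Mdl.PP M Cl Cr * (2 * M.kap q)⁻¹ ^ 2) (B (xf (Mdl.vq M Cl q)) (Mdl.gq M Cr q))
    have e3 : (2 * Mdl.CU M Cl * Mdl.CU M Cr * g2 + 3 * Mdl.PP M Cl Cr + 16 * Mdl.CU M Cl +
        Z1 * K1) * δ / t ^ 2 =
        (2 * Mdl.CU M Cl * Mdl.CU M Cr * g2 + 3 * Mdl.PP M Cl Cr) * δ / t ^ 2 +
        16 * Mdl.CU M Cl * δ / t ^ 2 + Z1 * K1 * δ / t ^ 2 := by ring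
    rw [e3]
    linarith
  have c5 : ‖(A.cA : ℂ) * (B (M.sol Cl q) (xf (M.sol Cr q)) -
      Mdl.PP M Cl Cr * (2 * M.kap q)⁻¹ ^ 2)‖ ≤
      2 * ((2 * Mdl.CU M Cl * Mdl.CU M Cr * g2 + 3 * Mdl.PP M Cl Cr + 16 * Mdl.CU M Cl +
        Z1 * K1) * δ / t ^ 2) := by
    rw [norm_mul, Complex.norm_real, Real.norm_eq_abs, abs_of_pos hcA0]
    exact mul_le_mul hcA2 c4 (norm_nonneg _) (by norm_num)
  have e0 : A.AF Cl Cr q - A.cA * Mdl.PP M Cl Cr * (2 * M.kap q)⁻¹ ^ 2 =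
      B (M.sol Cl q) (A.T0 q (M.sol Cr q)) +
      (B (M.sol Cl q) (A.T1 q (xf (M.sol Cr q))) -
        A.cq q * B (M.sol Cl q) (xf (M.sol Cr q))) +
      (A.cq q - A.cA) * B (M.sol Cl q) (xf (M.sol Cr q)) +
      A.cA * (B (M.sol Cl q) (xf (M.sol Cr q)) - Mdl.PP M Cl Cr * (2 * M.kap q)⁻¹ ^ 2) := by
    unfold AF
    rw [B_add_right]
    ring
  rw [e0]
  have n1 := norm_add_le (B (M.sol Cl q) (A.T0 q (M.sol Cr q)) +
      (B (M.sol Cl q) (A.T1 q (xf (M.sol Cr q))) -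
        A.cq q * B (M.sol Cl q) (xf (M.sol Cr q))) +
      (A.cq q - A.cA) * B (M.sol Cl q) (xf (M.sol Cr q)))
      (A.cA * (B (M.sol Cl q) (xf (M.sol Cr q)) - Mdl.PP M Cl Cr * (2 * M.kap q)⁻¹ ^ 2))
  have n2 := norm_add_le (B (M.sol Cl q) (A.T0 q (M.sol Cr q)) +
      (B (M.sol Cl q) (A.T1 q (xf (M.sol Cr q))) -
        A.cq q * B (M.sol Cl q) (xf (M.sol Cr q))))
      ((A.cq q - A.cA) * B (M.sol Cl q) (xf (M.sol Cr q)))
  have n3 := norm_add_le (B (M.sol Cl q) (A.T0 q (M.sol Cr q)))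
      (B (M.sol Cl q) (A.T1 q (xf (M.sol Cr q))) -
        A.cq q * B (M.sol Cl q) (xf (M.sol Cr q)))
  have e1 : ((A.Ca + 1) * (Yl * Yr)) * δ / t ^ 2 +
      ((8 * Mdl.CU M Cl + 2 * Z1) * K1) * δ / t ^ 2 + (20 * Yl * K1) * δ / t ^ 2 +
      2 * ((2 * Mdl.CU M Cl * Mdl.CU M Cr * g2 + 3 * Mdl.PP M Cl Cr + 16 * Mdl.CU M Cl +
        Z1 * K1) * δ / t ^ 2) = (K - 1) * δ / t ^ 2 := by rw [hK]; ring
  have e2 : (K - 1) * δ / t ^ 2 ≤ ε / t ^ 2 := by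
    refine div_le_div_of_nonneg_right ?_ (by positivity)
    nlinarith
  linarith

/-- the amplitude of the area -/
def C2 (Cl Cr : Cap) : ℝ := A.cA * Mdl.PP M Cl Cr / (4 * (M.gam * M.qc ^ 2))

theorem C2_eq {Cl Cr : Cap} {q : ℂ} (hq : q ∈ M.U) :
    (A.cA : ℂ) * Mdl.PP M Cl Cr * (2 * M.kap q)⁻¹ ^ 2 =
      A.C2 Cl Cr * (1 - (q / M.qc) ^ 2)⁻¹ := by
  have h1 := M.kap_sq q
  have hk := Mdl.kap_pos hq
  have hk0 : M.kap q ≠ 0 := norm_pos_iff.1 hk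
  have hqc : (M.qc : ℂ) ≠ 0 := by exact_mod_cast M.qc_pos.ne'
  have hg : (M.gam : ℂ) ≠ 0 := by exact_mod_cast M.gam_pos.ne'
  have h2 : (M.qc : ℂ) ^ 2 - q ^ 2 ≠ 0 := by
    intro h
    rw [h, mul_zero] at h1
    exact hk0 (pow_eq_zero_iff (two_ne_zero) |>.1 h1)
  have e1 : (1 - (q / M.qc) ^ 2 : ℂ) = ((M.qc : ℂ) ^ 2 - q ^ 2) / (M.qc : ℂ) ^ 2 := by
    field_simp
  have e2 : (2 * M.kap q)⁻¹ ^ 2 = (4 * (M.gam * ((M.qc : ℂ) ^ 2 - q ^ 2)))⁻¹ := by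
    rw [← h1, inv_pow, mul_pow]; norm_num
  rw [e1, e2]
  unfold C2
  push_cast
  field_simp

/-- the remainder -/
theorem AF_rem (Cl Cr : Cap) {ε : ℝ} (hε : 0 < ε) : ∃ X : ℝ, 0 ≤ X ∧ ∀ q ∈ M.U,
    ‖A.AF Cl Cr q - A.C2 Cl Cr * (1 - (q / M.qc) ^ 2)⁻¹‖ ≤ ε / ‖q - M.qc‖ + X := by
  obtain ⟨τ0, hτ0, h1⟩ := A.AF_loc Cl Cr hε
  set τ := min τ0 (1 / 100) with hτ
  have hτp : 0 < τ := lt_min hτ0 (by norm_num)
  have hg := M.gam_pos
  obtain ⟨hcA0, hcA2⟩ := A.cA_bd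
  have hP := Mdl.PP_nonneg (M := M) (Cl := Cl) (Cr := Cr)
  have hT1 := Cl.T_nonneg
  have hT2 := Cr.T_nonneg
  have hCa := A.Ca0
  set ρ := τ ^ 2 / (3 * M.gam) with hρ
  have hρ0 : 0 < ρ := by positivity
  have hB1 := Mdl.B1_nonneg (C := Cr) hρ0
  refine ⟨(8 * Cl.T / ρ) * ((A.Ca + 1) * (8 * Cr.T / ρ) + 5 * Mdl.B1 Cr ρ) +
    A.cA * Mdl.PP M Cl Cr / (4 * τ ^ 2), by positivity, fun q hq => ?_⟩
  rw [← A.C2_eq hq]
  have hd := M.qc_ne hq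
  have hd' : 0 < ‖q - M.qc‖ := by rw [norm_sub_rev]; exact hd
  by_cases hcase : ‖M.kap q‖ ≤ τ
  · have hL : q ∈ Mdl.Loc M := ⟨hq, hcase.trans (min_le_right _ _)⟩
    refine (h1 q hL (hcase.trans (min_le_left _ _))).trans ?_
    have h2 : ‖q - M.qc‖ ≤ ‖M.kap q‖ ^ 2 := Mdl.sub_le_kap hq
    have h3 : ε / ‖M.kap q‖ ^ 2 ≤ ε / ‖q - M.qc‖ :=
      div_le_div_of_nonneg_left hε.le hd' h2
    have h4 : 0 ≤ (8 * Cl.T / ρ) * ((A.Ca + 1) * (8 * Cr.T / ρ) + 5 * Mdl.B1 Cr ρ) +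
      A.cA * Mdl.PP M Cl Cr / (4 * τ ^ 2) := by positivity
    linarith
  · push Not at hcase
    have h2 : ρ ≤ ‖(M.qc : ℂ) - q‖ := by
      have h3 := Mdl.kap_le_sub hq
      rw [norm_sub_rev] at h3
      rw [hρ, div_le_iff₀ (by positivity)]
      have h4 : τ ^ 2 ≤ ‖M.kap q‖ ^ 2 := pow_le_pow_left₀ hτp.le hcase.le 2
      linarith
    have nl : ‖M.sol Cl q‖ ≤ 8 * Cl.T / ρ :=
      (Mdl.sol_norm hq).trans (div_le_div_of_nonneg_left (by positivity) hρ0 h2)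
    have nr : ‖M.sol Cr q‖ ≤ 8 * Cr.T / ρ :=
      (Mdl.sol_norm hq).trans (div_le_div_of_nonneg_left (by positivity) hρ0 h2)
    have xr : ‖xf (M.sol Cr q)‖ ≤ Mdl.B1 Cr ρ :=
      (Mdl.sol_xf hq).trans (Mdl.B1_anti hρ0 h2)
    have hq2 : ‖q‖ ≤ 2 := hq.1.le
    have h3 : ‖A.AF Cl Cr q‖ ≤ (8 * Cl.T / ρ) * ((A.Ca + 1) * (8 * Cr.T / ρ) + 5 * Mdl.B1 Cr ρ) := by
      unfold AF
      refine (B_norm _ _).trans ?_
      refine mul_le_mul nl ?_ (norm_nonneg _) (by positivity)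
      refine (norm_add_le _ _).trans ?_
      refine add_le_add ?_ ?_
      · exact ((A.T0 q).le_opNorm _).trans
          (mul_le_mul (A.T0_norm hq2) nr (norm_nonneg _) (by positivity))
      · exact ((A.T1 q).le_opNorm _).trans
          (mul_le_mul (A.T1_norm hq2) xr (norm_nonneg _) (by norm_num))
    have h4 : ‖(A.cA : ℂ) * Mdl.PP M Cl Cr * (2 * M.kap q)⁻¹ ^ 2‖ ≤
        A.cA * Mdl.PP M Cl Cr / (4 * τ ^ 2) := by
      rw [norm_mul, norm_mul, Complex.norm_real, Complex.norm_real, Real.norm_eq_abs,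
        Real.norm_eq_abs, abs_of_pos hcA0, abs_of_nonneg hP, norm_pow, norm_inv, norm_mul]
      have e1 : ‖(2 : ℂ)‖ = 2 := by simp
      rw [e1, inv_pow, mul_pow, ← div_eq_mul_inv]
      norm_num
      refine div_le_div_of_nonneg_left (by positivity) (by positivity) ?_
      have := pow_le_pow_left₀ hτp.le hcase.le 2
      linarith
    refine (norm_sub_le _ _).trans ?_
    have h5 : 0 ≤ ε / ‖q - M.qc‖ := by positivity
    linarith

end Ker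

end

end KN.SQ
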