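import Pool.Agent.H132.SQ.W7

/-!
# Block operators with multipliers
-/

set_option autoImplicit false

namespace KN.SQ

open Finset Filter Topology Metric
open scoped Classical ENNReal ComplexConjugate

noncomputable section

/-- a family of multipliers of the blocks, `z` belongs to the straight block -/
structure Mul (M : Mdl) where
  m : M.ι → ℤ → ℝ
  z : ℤ → ℝ
  R : ℝ
  R0 : 0 ≤ R
  bd : ∀ b d, |m b d| ≤ R * 4 ^ M.L b
  bz : ∀ d, |z d| ≤ R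

namespace Mul

variable {M : Mdl} (X : Mul M)

/-- the operator of a block -/
def ob (b : M.ι) : H →L[ℂ] H :=
  Sg (X.m b) (M.v b) (X.R * 4 ^ M.L b) (mul_nonneg X.R0 (by positivity)) (X.bd b)

/-- the operator of the straight block -/
def oz : H →L[ℂ] H := Sg X.z 0 X.R X.R0 X.bz

/-- the operator -/
def Om (q : ℂ) : H →L[ℂ] H := q ^ 2 • X.oz + ∑' b, M.w q b • X.ob b

theorem ob_term {q : ℂ} (hq : ‖q‖ ≤ 2) (b : M.ι) :
    ‖M.w q b • X.ob b‖ ≤ M.c b * 16 ^ M.L b * (4 * X.R) := by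
  rw [norm_smul]
  have h1 := Mdl.w_norm' (M := M) hq b
  have h2 : ‖X.ob b‖ ≤ X.R * 4 ^ M.L b := Sg_norm
  have hc := M.c0 b
  have hR := X.R0
  have h5 : (2 : ℝ) ^ M.L b * 4 ^ M.L b ≤ 16 ^ M.L b := by
    rw [← mul_pow]; exact pow_le_pow_left₀ (by norm_num) (by norm_num) _
  calc ‖M.w q b‖ * ‖X.ob b‖ ≤ (4 * 2 ^ M.L b * M.c b) * (X.R * 4 ^ M.L b) :=
        mul_le_mul h1 h2 (norm_nonneg _) (by positivity)
    _ = M.c b * (2 ^ M.L b * 4 ^ M.L b) * (4 * X.R) := by ring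
    _ ≤ _ := by gcongr

theorem Om_diff : DifferentiableOn ℂ X.Om (Metric.ball 0 2) := by
  unfold Om
  refine DifferentiableOn.add ?_ ?_
  · exact ((differentiable_id.pow 2).smul_const _).differentiableOn
  · refine Complex.differentiableOn_tsum_of_summable_norm (M.sm.mul_right (4 * X.R))
      (fun b => ?_) Metric.isOpen_ball (fun b q hq => ?_)
    · exact ((Ker.w_diff b).smul_const _).differentiableOn
    · exact X.ob_term (mem_ball_zero_iff.1 hq).le b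

/-- the values -/
theorem Om_val {q : ℂ} (hq : ‖q‖ ≤ 2) (f : H) (d : ℤ) :
    HasSum (fun b => M.w q b * ((X.m b d : ℂ) * f (d - M.v b)))
      (X.Om q f d - q ^ 2 * ((X.z d : ℂ) * f d)) := by
  have h0 := (Summable.of_norm_bounded (M.sm.mul_right _) (X.ob_term hq)).hasSum
  have h1 := ContinuousLinearMap.hasSum (ev d)
    (ContinuousLinearMap.hasSum (ContinuousLinearMap.apply ℂ H f) h0)
  have e1 : X.Om q f d - q ^ 2 * ((X.z d : ℂ) * f d) =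
      ev d (ContinuousLinearMap.apply ℂ H f (∑' b, M.w q b • X.ob b)) := by
    have e2 : X.Om q f d = q ^ 2 * ((X.z d : ℂ) * f (d - 0)) +
      ev d (ContinuousLinearMap.apply ℂ H f (∑' b, M.w q b • X.ob b)) := rfl
    rw [e2, sub_zero]; ring
  rw [e1]
  exact h1

/-- the pairing -/
theorem Om_pair {q : ℂ} (hq : ‖q‖ ≤ 2) (f g : H) :
    HasSum (fun b => M.w q b * B f (X.ob b g)) (B f (X.Om q g) - q ^ 2 * B f (X.oz g)) := by
  have h0 := (Summable.of_norm_bounded (M.sm.mul_right _) (X.ob_term hq)).hasSum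
  have h1 := ContinuousLinearMap.hasSum (Bc f)
    (ContinuousLinearMap.hasSum (ContinuousLinearMap.apply ℂ H g) h0)
  have e1 : B f (X.Om q g) - q ^ 2 * B f (X.oz g) =
      (Bc f) (ContinuousLinearMap.apply ℂ H g (∑' b, M.w q b • X.ob b)) := by
    have e2 : B f (X.Om q g) = B f (q ^ 2 • X.oz g +
      (ContinuousLinearMap.apply ℂ H g (∑' b, M.w q b • X.ob b))) := rfl
    rw [e2, B_add_right, B_smul_right, add_sub_cancel_left]
    rfl
  rw [e1]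
  refine h1.congr_fun' fun b => ?_
  exact (B_smul_right _ _ _).symm

/-- the transposed multipliers -/
def T : Mul M where
  m b d := X.m (M.σ b) (d - M.v b)
  z := X.z
  R := X.R
  R0 := X.R0
  bd b d := by have := X.bd (M.σ b) (d - M.v b); rwa [M.Lσ] at this
  bz := X.bz

theorem B_ob (b : M.ι) (f g : H) : B f (X.ob b g) = B (X.T.ob (M.σ b) f) g := by
  unfold B
  rw [← (Equiv.subRight (M.v b)).tsum_eq (fun d => X.T.ob (M.σ b) f d * g d)]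
  refine tsum_congr fun d => ?_
  show f d * ((X.m b d : ℂ) * g (d - M.v b)) =
    ((X.m (M.σ (M.σ b)) (d - M.v b - M.v (M.σ b)) : ℂ) * f (d - M.v b - M.v (M.σ b))) *
      g (d - M.v b)
  rw [M.σσ, M.vσ]
  have e : d - M.v b - -M.v b = d := by ring
  rw [e]
  ring

theorem B_oz (f g : H) : B f (X.oz g) = B (X.T.oz f) g := by
  unfold B
  refine tsum_congr fun d => ?_
  show f d * ((X.z d : ℂ) * g (d - 0)) = ((X.z d : ℂ) * f (d - 0)) * g d
  rw [sub_zero]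
  ring

/-- transposition -/
theorem B_Om {q : ℂ} (hq : ‖q‖ ≤ 2) (f g : H) : B f (X.Om q g) = B (X.T.Om q f) g := by
  have h1 := X.Om_pair hq f g
  have h2 := X.T.Om_pair hq g f
  have h3 : HasSum (fun b => M.w q (M.σ b) * B g (X.T.ob (M.σ b) f))
      (B g (X.T.Om q f) - q ^ 2 * B g (X.T.oz f)) := by
    exact (Function.Involutive.toPerm M.σ M.σσ).hasSum_iff.2 h2
  have h4 : HasSum (fun b => M.w q (M.σ b) * B g (X.T.ob (M.σ b) f))
      (B f (X.Om q g) - q ^ 2 * B f (X.oz g)) := by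
    refine h1.congr_fun' fun b => ?_
    rw [M.w_σ, X.B_ob, B_symm g]
  have h5 := h4.unique h3
  rw [B_oz, B_symm g, B_symm g (X.T.oz f)] at h5
  exact sub_left_injective h5

/-- linear growth -/
def Lin (a : ℝ) : Prop := 0 ≤ a ∧ (∀ b d, |X.m b d| ≤ a * 4 ^ M.L b * (((d - M.v b).natAbs : ℝ) + 1)) ∧
  ∀ d, |X.z d| ≤ a * ((d.natAbs : ℝ) + 1)

theorem sum_bd {f : H} (hf : Wt f) {g : H} {Y : ℝ} (hY : 0 ≤ Y) {v : ℤ}
    (h : ∀ d, ‖g d‖ ≤ Y * ((((d - v).natAbs : ℝ) + 1) * ‖f (d - v)‖)) :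
    ‖g‖ ≤ Y * (2 * (‖xf f‖ + ‖f‖)) := by
  refine le_of_sq_le_sq ?_ (by positivity)
  rw [H.norm_sq]
  have hs : Summable fun d => 2 * (‖xf f d‖ ^ 2 + ‖f d‖ ^ 2) := ((xf f).sum.add f.sum).mul_left 2
  have h1 : ∀ d, ‖g d‖ ^ 2 ≤ Y ^ 2 * (2 * (‖xf f (d - v)‖ ^ 2 + ‖f (d - v)‖ ^ 2)) := by
    intro d
    have h2 := pow_le_pow_left₀ (norm_nonneg _) (h d) 2
    refine h2.trans ?_
    rw [mul_pow]
    refine mul_le_mul_of_nonneg_left ?_ (sq_nonneg _)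
    rw [xf_apply hf, norm_mul, Complex.norm_natCast]
    nlinarith [sq_nonneg (((d - v).natAbs : ℝ) * ‖f (d - v)‖ - ‖f (d - v)‖)]
  refine ((g.sum).tsum_le_tsum h1 ((shift_summable hs v).mul_left _)).trans ?_
  rw [tsum_mul_left, shift_tsum (fun d => 2 * (‖xf f d‖ ^ 2 + ‖f d‖ ^ 2)) v, tsum_mul_left,
    (xf f).sum.tsum_add f.sum, ← H.norm_sq, ← H.norm_sq, mul_pow]
  refine mul_le_mul_of_nonneg_left ?_ (sq_nonneg _)
  nlinarith [norm_nonneg f, norm_nonneg (xf f), mul_nonneg (norm_nonneg f) (norm_nonneg (xf f))]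

theorem Om_lin {a : ℝ} (ha : X.Lin a) {q : ℂ} (hq : ‖q‖ ≤ 2) {f : H} (hf : Wt f) :
    ‖X.Om q f‖ ≤ 10 * a * (‖xf f‖ + ‖f‖) := by
  obtain ⟨h0, h1, h2⟩ := ha
  have hz : ‖X.oz f‖ ≤ a * (2 * (‖xf f‖ + ‖f‖)) := by
    refine sum_bd hf h0 (v := 0) fun d => ?_
    show ‖(X.z d : ℂ) * f (d - 0)‖ ≤ _
    rw [norm_mul, Complex.norm_real, Real.norm_eq_abs, sub_zero, ← mul_assoc]
    exact mul_le_mul_of_nonneg_right (h2 d) (norm_nonneg _)
  have hb : ∀ b, ‖X.ob b f‖ ≤ (a * 4 ^ M.L b) * (2 * (‖xf f‖ + ‖f‖)) := by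
    intro b
    refine sum_bd hf (by positivity) (v := M.v b) fun d => ?_
    show ‖(X.m b d : ℂ) * f (d - M.v b)‖ ≤ _
    rw [norm_mul, Complex.norm_real, Real.norm_eq_abs, ← mul_assoc]
    exact mul_le_mul_of_nonneg_right (h1 b d) (norm_nonneg _)
  have h0' := (Summable.of_norm_bounded (M.sm.mul_right _) (X.ob_term hq)).hasSum
  have h4 := ContinuousLinearMap.hasSum (ContinuousLinearMap.apply ℂ H f) h0'
  have h5 := tsum_of_norm_bounded (f := fun b => ContinuousLinearMap.apply ℂ H f (M.w q b • X.ob b))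
    (M.sm.hasSum.mul_right (4 * (a * (2 * (‖xf f‖ + ‖f‖))))) (fun b => by
      show ‖M.w q b • X.ob b f‖ ≤ _
      rw [norm_smul]
      have h6 := Mdl.w_norm' (M := M) hq b
      have hc := M.c0 b
      have h7 : (2 : ℝ) ^ M.L b * 4 ^ M.L b ≤ 16 ^ M.L b := by
        rw [← mul_pow]; exact pow_le_pow_left₀ (by norm_num) (by norm_num) _
      calc ‖M.w q b‖ * ‖X.ob b f‖ ≤ (4 * 2 ^ M.L b * M.c b) *
            ((a * 4 ^ M.L b) * (2 * (‖xf f‖ + ‖f‖))) :=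
            mul_le_mul h6 (hb b) (norm_nonneg _) (by positivity)
        _ = M.c b * (2 ^ M.L b * 4 ^ M.L b) * (4 * (a * (2 * (‖xf f‖ + ‖f‖)))) := by ring
        _ ≤ _ := by gcongr)
  have h6 := M.s1
  have h7 : (∑' b, M.c b * 16 ^ M.L b) * (4 * (a * (2 * (‖xf f‖ + ‖f‖)))) ≤
      1 / 10 ^ 6 * (4 * (a * (2 * (‖xf f‖ + ‖f‖)))) :=
    mul_le_mul_of_nonneg_right h6 (by positivity)
  have e1 : X.Om q f = q ^ 2 • X.oz f +
      ContinuousLinearMap.apply ℂ H f (∑' b, M.w q b • X.ob b) := rfl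
  rw [e1, ← h4.tsum_eq]
  refine (norm_add_le _ _).trans ?_
  rw [norm_smul, norm_pow]
  have h8 : ‖q‖ ^ 2 ≤ 4 := by nlinarith [norm_nonneg q]
  have h9 : ‖q‖ ^ 2 * ‖X.oz f‖ ≤ 4 * (a * (2 * (‖xf f‖ + ‖f‖))) :=
    mul_le_mul h8 hz (norm_nonneg _) (by norm_num)
  have h10 : 0 ≤ a * (‖xf f‖ + ‖f‖) := by positivity
  norm_num at h7
  nlinarith

/-- quadratic growth -/
def Quad (a : ℝ) : Prop := 0 ≤ a ∧ (∀ b d, |X.m b d| ≤ a * 8 ^ M.L b *
    (((d.natAbs : ℝ) + 1) * (((d - M.v b).natAbs : ℝ) + 1))) ∧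
  ∀ d, |X.z d| ≤ a * (((d.natAbs : ℝ) + 1) * ((d.natAbs : ℝ) + 1))

theorem pair_bd {f g h : H} (hf : Wt f) (hg : Wt g) {Y : ℝ} (hY : 0 ≤ Y) {v : ℤ}
    (hh : ∀ d, ‖h d‖ ≤ Y * (((d.natAbs : ℝ) + 1) * ((((d - v).natAbs : ℝ) + 1) * ‖g (d - v)‖))) :
    ‖B f h‖ ≤ Y * ((2 * (‖xf f‖ + ‖f‖)) * (2 * (‖xf g‖ + ‖g‖))) := by
  -- two vectors
  have hs1 : Summable fun d : ℤ => ‖((((d.natAbs : ℝ) + 1 : ℝ) : ℂ) * f d)‖ ^ 2 := by
    refine Summable.of_nonneg_of_le (fun d => by positivity) (fun d => ?_)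
      (((xf f).sum.add f.sum).mul_left 2)
    rw [norm_mul, Complex.norm_real, Real.norm_eq_abs, abs_of_nonneg (by positivity), xf_apply hf,
      norm_mul, Complex.norm_natCast]
    nlinarith [sq_nonneg ((d.natAbs : ℝ) * ‖f d‖ - ‖f d‖)]
  have hs2 : Summable fun d : ℤ => ‖((((d.natAbs : ℝ) + 1 : ℝ) : ℂ) * g d)‖ ^ 2 := by
    refine Summable.of_nonneg_of_le (fun d => by positivity) (fun d => ?_)
      (((xf g).sum.add g.sum).mul_left 2)
    rw [norm_mul, Complex.norm_real, Real.norm_eq_abs, abs_of_nonneg (by positivity), xf_apply hg,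
      norm_mul, Complex.norm_natCast]
    nlinarith [sq_nonneg ((d.natAbs : ℝ) * ‖g d‖ - ‖g d‖)]
  obtain ⟨F, hF⟩ : ∃ F : H, ∀ d, F d = (((d.natAbs : ℝ) + 1 : ℝ) : ℂ) * f d :=
    ⟨toH _, fun d => toH_apply hs1 d⟩
  obtain ⟨G', hG⟩ : ∃ G' : H, ∀ d, G' d = (((d.natAbs : ℝ) + 1 : ℝ) : ℂ) * g d :=
    ⟨toH _, fun d => toH_apply hs2 d⟩
  have nF : ‖F‖ ≤ 1 * (2 * (‖xf f‖ + ‖f‖)) := sum_bd hf zero_le_one (v := 0) fun d => by
    rw [hF, norm_mul, Complex.norm_real, Real.norm_eq_abs, abs_of_nonneg (by positivity), sub_zero,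
      one_mul]
  have nG : ‖G'‖ ≤ 1 * (2 * (‖xf g‖ + ‖g‖)) := sum_bd hg zero_le_one (v := 0) fun d => by
    rw [hG, norm_mul, Complex.norm_real, Real.norm_eq_abs, abs_of_nonneg (by positivity), sub_zero,
      one_mul]
  rw [one_mul] at nF nG
  have hG2 : Summable fun d => ‖G' (d - v)‖ ^ 2 := shift_summable G'.sum v
  obtain ⟨G2, hG2a⟩ : ∃ G2 : H, ∀ d, G2 d = G' (d - v) := ⟨toH _, fun d => toH_apply hG2 d⟩
  have nG2 : ‖G2‖ ≤ ‖G'‖ := by
    refine le_of_sq_le_sq ?_ (norm_nonneg _)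
    rw [H.norm_sq, H.norm_sq]
    simp only [hG2a]
    rw [shift_tsum (fun d => ‖G' d‖ ^ 2) v]
  have key : ‖B f h‖ ≤ Y * (‖F‖ * ‖G2‖) := by
    have h1 : ∀ d, ‖f d * h d‖ ≤ Y * (‖F d‖ * ‖G2 d‖) := by
      intro d
      rw [hG2a, hF, hG, norm_mul, norm_mul, norm_mul, Complex.norm_real, Complex.norm_real,
        Real.norm_eq_abs, Real.norm_eq_abs, abs_of_nonneg (by positivity),
        abs_of_nonneg (by positivity)]
      calc ‖f d‖ * ‖h d‖ ≤ ‖f d‖ * (Y * (((d.natAbs : ℝ) + 1) *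
            ((((d - v).natAbs : ℝ) + 1) * ‖g (d - v)‖))) :=
            mul_le_mul_of_nonneg_left (hh d) (norm_nonneg _)
        _ = _ := by ring
    have hsum := (B_summable_norm F G2).mul_left Y
    have h2 := tsum_of_norm_bounded hsum.hasSum h1
    have h3 : ∑' d, Y * (‖F d‖ * ‖G2 d‖) ≤ Y * (‖F‖ * ‖G2‖) := by
      rw [tsum_mul_left]
      refine mul_le_mul_of_nonneg_left ?_ hY
      -- Cauchy-Schwarz
      have h4 := Real.inner_le_Lp_mul_Lq_tsum_of_nonneg (p := 2) (q := 2)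
        ⟨by norm_num, by norm_num, by norm_num⟩ (fun d => norm_nonneg (F d))
        (fun d => norm_nonneg (G2 d)) (by simpa using F.sum) (by simpa using G2.sum)
      refine h4.trans (le_of_eq ?_)
      have e1 : (∑' d, ‖F d‖ ^ (2 : ℝ)) ^ (1 / (2 : ℝ)) = ‖F‖ := by
        rw [← Real.sqrt_eq_rpow]
        have : (∑' d, ‖F d‖ ^ (2 : ℝ)) = ‖F‖ ^ 2 := by rw [H.norm_sq]; simp
        rw [this, Real.sqrt_sq (norm_nonneg _)]
      have e2 : (∑' d, ‖G2 d‖ ^ (2 : ℝ)) ^ (1 / (2 : ℝ)) = ‖G2‖ := by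
        rw [← Real.sqrt_eq_rpow]
        have : (∑' d, ‖G2 d‖ ^ (2 : ℝ)) = ‖G2‖ ^ 2 := by rw [H.norm_sq]; simp
        rw [this, Real.sqrt_sq (norm_nonneg _)]
      rw [e1, e2]
    exact h2.trans h3
  refine key.trans (mul_le_mul_of_nonneg_left ?_ hY)
  exact mul_le_mul nF (nG2.trans nG) (norm_nonneg _) (by positivity)

theorem Om_quad {a : ℝ} (ha : X.Quad a) {q : ℂ} (hq : ‖q‖ ≤ 2) {f g : H} (hf : Wt f) (hg : Wt g) :
    ‖B f (X.Om q g)‖ ≤ 20 * a * ((‖xf f‖ + ‖f‖) * (‖xf g‖ + ‖g‖)) := by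
  obtain ⟨h0, h1, h2⟩ := ha
  set Y := (2 * (‖xf f‖ + ‖f‖)) * (2 * (‖xf g‖ + ‖g‖)) with hY
  have hY0 : 0 ≤ Y := by positivity
  have hz : ‖B f (X.oz g)‖ ≤ a * Y := by
    refine pair_bd hf hg h0 (v := 0) fun d => ?_
    show ‖(X.z d : ℂ) * g (d - 0)‖ ≤ _
    rw [norm_mul, Complex.norm_real, Real.norm_eq_abs, sub_zero]
    calc |X.z d| * ‖g d‖ ≤ (a * (((d.natAbs : ℝ) + 1) * ((d.natAbs : ℝ) + 1))) * ‖g d‖ :=
          mul_le_mul_of_nonneg_right (h2 d) (norm_nonneg _)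
      _ = _ := by ring
  have hb : ∀ b, ‖B f (X.ob b g)‖ ≤ (a * 8 ^ M.L b) * Y := by
    intro b
    refine pair_bd hf hg (by positivity) (v := M.v b) fun d => ?_
    show ‖(X.m b d : ℂ) * g (d - M.v b)‖ ≤ _
    rw [norm_mul, Complex.norm_real, Real.norm_eq_abs]
    calc |X.m b d| * ‖g (d - M.v b)‖ ≤ (a * 8 ^ M.L b *
          (((d.natAbs : ℝ) + 1) * (((d - M.v b).natAbs : ℝ) + 1))) * ‖g (d - M.v b)‖ :=
          mul_le_mul_of_nonneg_right (h1 b d) (norm_nonneg _)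
      _ = _ := by ring
  have h3 := X.Om_pair hq f g
  have h5 := tsum_of_norm_bounded (f := fun b => M.w q b * B f (X.ob b g))
    (M.sm.hasSum.mul_right (4 * (a * Y))) (fun b => by
      rw [norm_mul]
      have h6 := Mdl.w_norm' (M := M) hq b
      have hc := M.c0 b
      have h7 : (2 : ℝ) ^ M.L b * 8 ^ M.L b = 16 ^ M.L b := by
        rw [← mul_pow]; norm_num
      calc ‖M.w q b‖ * ‖B f (X.ob b g)‖ ≤ (4 * 2 ^ M.L b * M.c b) * ((a * 8 ^ M.L b) * Y) :=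
            mul_le_mul h6 (hb b) (norm_nonneg _) (by positivity)
        _ = M.c b * (2 ^ M.L b * 8 ^ M.L b) * (4 * (a * Y)) := by ring
        _ = _ := by rw [h7])
  rw [h3.tsum_eq] at h5
  have h6 := M.s1
  have h7 : (∑' b, M.c b * 16 ^ M.L b) * (4 * (a * Y)) ≤ 1 / 10 ^ 6 * (4 * (a * Y)) :=
    mul_le_mul_of_nonneg_right h6 (by positivity)
  have h8 : ‖q‖ ^ 2 ≤ 4 := by nlinarith [norm_nonneg q]
  have h9 : ‖q ^ 2 * B f (X.oz g)‖ ≤ 4 * (a * Y) := by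
    rw [norm_mul, norm_pow]
    exact mul_le_mul h8 hz (norm_nonneg _) (by norm_num)
  have h10 : ‖B f (X.Om q g)‖ ≤ 4 * (a * Y) + 1 / 10 ^ 6 * (4 * (a * Y)) := by
    have e : B f (X.Om q g) = q ^ 2 * B f (X.oz g) +
        (B f (X.Om q g) - q ^ 2 * B f (X.oz g)) := by ring
    rw [e]
    refine (norm_add_le _ _).trans (add_le_add h9 (h5.trans h7))
  refine h10.trans ?_
  have h11 : 0 ≤ a * Y := by positivity
  have e : 20 * a * ((‖xf f‖ + ‖f‖) * (‖xf g‖ + ‖g‖)) = 5 * (a * Y) := by rw [hY]; ring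
  rw [e]
  norm_num
  linarith

end Mul

end

end KN.SQ
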