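import Mathlib
set_option autoImplicit false
open Filter Topology

lemma sumpow_c2 (n : ℕ) : (((n + 2).choose 2 : ℕ) : ℂ) = ((n : ℂ) + 2) * ((n : ℂ) + 1) / 2 := by
  have h := Nat.descFactorial_eq_factorial_mul_choose (n + 2) 2
  have h2 : (n + 2).descFactorial 2 = (n + 1) * (n + 2) := by
    rw [Nat.descFactorial_succ, Nat.descFactorial_succ, Nat.descFactorial_zero,
      show n + 2 - 1 = n + 1 by omega, show n + 2 - 0 = n + 2 by omega, mul_one]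
  rw [h2] at h
  have h3 : (((n : ℂ) + 1) * ((n : ℂ) + 2)) = 2 * (((n + 2).choose 2 : ℕ) : ℂ) := by
    exact_mod_cast h
  linear_combination (-1 / 2) * h3

lemma sumpow_c3 (n : ℕ) : (((n + 3).choose 3 : ℕ) : ℂ) =
    ((n : ℂ) + 3) * ((n : ℂ) + 2) * ((n : ℂ) + 1) / 6 := by
  have h := Nat.descFactorial_eq_factorial_mul_choose (n + 3) 3
  have h2 : (n + 3).descFactorial 3 = (n + 1) * ((n + 2) * (n + 3)) := by
    rw [Nat.descFactorial_succ, Nat.descFactorial_succ, Nat.descFactorial_succ,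
      Nat.descFactorial_zero, show n + 3 - 2 = n + 1 by omega, show n + 3 - 1 = n + 2 by omega,
      show n + 3 - 0 = n + 3 by omega, mul_one]
  rw [h2] at h
  have h3 : (((n : ℂ) + 1) * (((n : ℂ) + 2) * ((n : ℂ) + 3))) = 6 * (((n + 3).choose 3 : ℕ) : ℂ) := by
    exact_mod_cast h
  linear_combination (-1 / 6) * h3

/-- Task A. Proof: with x = exp(-2κ), ‖x‖ < 1, y = (1-x)⁻¹:
  n² = 2*C(n+2,2) - 3*C(n+1,1) + 1,   n³ = 6*C(n+3,3) - 12*C(n+2,2) + 7*C(n+1,1) - 1   (over ℂ, n : ℕ),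
  hasSum_choose_mul_geometric_of_norm_lt_one : Σ C(n+k,k) x^n = 1/(1-x)^(k+1),
  so S2 = 2y³ - 3y² + y, S3 = 6y⁴ - 12y³ + 7y² - y.
  Moreover ‖y - (2κ)⁻¹‖ ≤ 3 (z = 2κ, ‖z‖ ≤ 1/50: from ‖exp z - 1 - z‖ ≤ ‖z‖², cf. Complex.norm_exp_sub_one_sub_id_le),
  and ‖(2κ)⁻¹‖ = 1/(2‖κ‖) ≥ 50; expand. -/
theorem sumpow {κ : ℂ} (h0 : 0 < κ.re) (h1 : ‖κ‖ ≤ 1 / 100) :
    ∃ S2 S3 : ℂ, HasSum (fun n : ℕ => (n : ℂ) ^ 2 * Complex.exp (-(2 * κ)) ^ n) S2 ∧
      HasSum (fun n : ℕ => (n : ℂ) ^ 3 * Complex.exp (-(2 * κ)) ^ n) S3 ∧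
      ‖S2 - 2 * (2 * κ)⁻¹ ^ 3‖ ≤ 100 / ‖κ‖ ^ 2 ∧ ‖S3 - 6 * (2 * κ)⁻¹ ^ 4‖ ≤ 1000 / ‖κ‖ ^ 3 := by
  have hκ : κ ≠ 0 := by
    rintro rfl
    simp at h0
  have hκn : 0 < ‖κ‖ := norm_pos_iff.2 hκ
  obtain ⟨x, hx⟩ : ∃ x, x = Complex.exp (-(2 * κ)) := ⟨_, rfl⟩
  rw [← hx]
  have hx1 : ‖x‖ < 1 := by
    rw [hx, Complex.norm_exp]
    rw [Real.exp_lt_one_iff]
    simp
    exact h0
  have hx2 : 1 - x ≠ 0 := by
    intro h
    have : x = 1 := by linear_combination -h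
    rw [this, norm_one] at hx1
    exact lt_irrefl _ hx1
  obtain ⟨y, hy⟩ : ∃ y, y = (1 - x)⁻¹ := ⟨_, rfl⟩
  have hs0 := hasSum_choose_mul_geometric_of_norm_lt_one 0 hx1
  have hs1 := hasSum_choose_mul_geometric_of_norm_lt_one 1 hx1
  have hs2 := hasSum_choose_mul_geometric_of_norm_lt_one 2 hx1
  have hs3 := hasSum_choose_mul_geometric_of_norm_lt_one 3 hx1
  have e0 : 1 / (1 - x) ^ (0 + 1) = y := by rw [hy]; simp
  have e1 : 1 / (1 - x) ^ (1 + 1) = y ^ 2 := by rw [hy]; simp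
  have e2 : 1 / (1 - x) ^ (2 + 1) = y ^ 3 := by rw [hy]; simp
  have e3 : 1 / (1 - x) ^ (3 + 1) = y ^ 4 := by rw [hy]; simp
  rw [e0] at hs0
  rw [e1] at hs1
  rw [e2] at hs2
  rw [e3] at hs3
  refine ⟨2 * y ^ 3 - 3 * y ^ 2 + y, 6 * y ^ 4 - 12 * y ^ 3 + 7 * y ^ 2 - y, ?_, ?_, ?_⟩
  · have h := ((hs2.mul_left 2).sub (hs1.mul_left 3)).add hs0
    have ef : (fun n : ℕ => (n : ℂ) ^ 2 * x ^ n) = fun n : ℕ =>
        2 * ((((n + 2).choose 2 : ℕ) : ℂ) * x ^ n) - 3 * ((((n + 1).choose 1 : ℕ) : ℂ) * x ^ n) +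
          (((n + 0).choose 0 : ℕ) : ℂ) * x ^ n := by
      funext n
      rw [sumpow_c2, Nat.choose_one_right, Nat.choose_zero_right]
      push_cast
      ring
    rw [ef]
    exact h
  · have h := (((hs3.mul_left 6).sub (hs2.mul_left 12)).add (hs1.mul_left 7)).sub hs0
    have ef : (fun n : ℕ => (n : ℂ) ^ 3 * x ^ n) = fun n : ℕ =>
        6 * ((((n + 3).choose 3 : ℕ) : ℂ) * x ^ n) - 12 * ((((n + 2).choose 2 : ℕ) : ℂ) * x ^ n) +
          7 * ((((n + 1).choose 1 : ℕ) : ℂ) * x ^ n) - (((n + 0).choose 0 : ℕ) : ℂ) * x ^ n := by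
      funext n
      rw [sumpow_c2, sumpow_c3, Nat.choose_one_right, Nat.choose_zero_right]
      push_cast
      ring
    rw [ef]
    exact h
  · -- the bounds
    obtain ⟨u, hu⟩ : ∃ u, u = (2 * κ)⁻¹ := ⟨_, rfl⟩
    obtain ⟨U, hU⟩ : ∃ U, U = ‖u‖ := ⟨_, rfl⟩
    rw [← hu]
    have hUκ : U * ‖κ‖ = 1 / 2 := by
      rw [hU, hu, norm_inv, norm_mul]
      have : ‖(2 : ℂ)‖ = 2 := by norm_num
      rw [this]
      field_simp
    have hU50 : 50 ≤ U := by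
      by_contra hc
      push Not at hc
      nlinarith
    have he : ‖y - u‖ ≤ 3 := by
      obtain ⟨z, hz⟩ : ∃ z, z = -(2 * κ) := ⟨_, rfl⟩
      have hzn : ‖z‖ ≤ 1 / 50 := by
        rw [hz, norm_neg, norm_mul]
        have : ‖(2 : ℂ)‖ = 2 := by norm_num
        rw [this]
        linarith
      have hz0 : 0 < ‖z‖ := by
        rw [hz, norm_neg, norm_mul]
        have : ‖(2 : ℂ)‖ = 2 := by norm_num
        rw [this]
        linarith
      have hzne : z ≠ 0 := norm_pos_iff.1 hz0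
      have hq := Complex.norm_exp_sub_one_sub_id_le (x := z) (by linarith)
      rw [← hz] at hx
      rw [← hx] at hq
      have huz : u = -z⁻¹ := by
        rw [hu, hz, inv_neg, neg_neg]
      have e : y - u = -(x - 1 - z) * (y * z⁻¹) := by
        rw [hy, huz]
        field_simp
        ring
      have hxz : ‖z‖ / 2 ≤ ‖1 - x‖ := by
        have h2 : ‖z‖ ≤ ‖x - 1 - z‖ + ‖1 - x‖ := by
          have : -z = (x - 1 - z) + (1 - x) := by ring
          calc ‖z‖ = ‖-z‖ := (norm_neg z).symm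
            _ ≤ _ := by
              rw [this]
              exact norm_add_le _ _
        nlinarith
      have hyn : ‖y‖ ≤ 2 / ‖z‖ := by
        rw [hy, norm_inv, inv_le_comm₀ (norm_pos_iff.2 hx2) (by positivity)]
        calc (2 / ‖z‖)⁻¹ = ‖z‖ / 2 := by rw [inv_div]
          _ ≤ _ := hxz
      rw [e, norm_mul, norm_neg, norm_mul, norm_inv]
      calc ‖x - 1 - z‖ * (‖y‖ * ‖z‖⁻¹) ≤ ‖z‖ ^ 2 * (2 / ‖z‖ * ‖z‖⁻¹) := by
            apply mul_le_mul hq _ (by positivity) (by positivity)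
            exact mul_le_mul_of_nonneg_right hyn (by positivity)
        _ = 2 := by field_simp
        _ ≤ 3 := by norm_num
    have hyU : ‖y‖ ≤ 2 * U := by
      have : y = (y - u) + u := by ring
      calc ‖y‖ = ‖(y - u) + u‖ := by rw [← this]
        _ ≤ ‖y - u‖ + ‖u‖ := norm_add_le _ _
        _ ≤ 3 + U := by rw [hU]; linarith
        _ ≤ 2 * U := by linarith
    have hU0 : 0 < U := by linarith
    have g1 : ‖y ^ 2‖ ≤ 4 * U ^ 2 := by
      rw [norm_pow]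
      calc ‖y‖ ^ 2 ≤ (2 * U) ^ 2 := pow_le_pow_left₀ (norm_nonneg _) hyU 2
        _ = _ := by ring
    have g2 : ‖y ^ 3‖ ≤ 8 * U ^ 3 := by
      rw [norm_pow]
      calc ‖y‖ ^ 3 ≤ (2 * U) ^ 3 := pow_le_pow_left₀ (norm_nonneg _) hyU 3
        _ = _ := by ring
    have g3 : ‖y * u‖ ≤ 2 * U ^ 2 := by
      rw [norm_mul, ← hU]
      nlinarith
    have g4 : ‖u ^ 2‖ = U ^ 2 := by rw [norm_pow, hU]
    have g5 : ‖u ^ 3‖ = U ^ 3 := by rw [norm_pow, hU]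
    have g6 : ‖y ^ 2 * u‖ ≤ 4 * U ^ 3 := by
      rw [norm_mul, ← hU]
      calc ‖y ^ 2‖ * U ≤ 4 * U ^ 2 * U := mul_le_mul_of_nonneg_right g1 hU0.le
        _ = _ := by ring
    have g7 : ‖y * u ^ 2‖ ≤ 2 * U ^ 3 := by
      rw [norm_mul, g4]
      calc ‖y‖ * U ^ 2 ≤ 2 * U * U ^ 2 := mul_le_mul_of_nonneg_right hyU (by positivity)
        _ = _ := by ring
    have hκU : 1 / ‖κ‖ = 2 * U := by
      rw [div_eq_iff hκn.ne']
      linarith
    constructor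
    · have e : 2 * y ^ 3 - 3 * y ^ 2 + y - 2 * u ^ 3 =
          2 * ((y - u) * (y ^ 2 + y * u + u ^ 2)) + (-(3 * y ^ 2) + y) := by ring
      have k1 : ‖y ^ 2 + y * u + u ^ 2‖ ≤ 7 * U ^ 2 := by
        refine norm_add₃_le.trans ?_
        rw [g4]
        linarith
      have k2 : ‖(y - u) * (y ^ 2 + y * u + u ^ 2)‖ ≤ 3 * (7 * U ^ 2) := by
        rw [norm_mul]
        exact mul_le_mul he k1 (norm_nonneg _) (by norm_num)
      have k3 : ‖2 * ((y - u) * (y ^ 2 + y * u + u ^ 2))‖ ≤ 42 * U ^ 2 := by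
        rw [norm_mul]
        have : ‖(2 : ℂ)‖ = 2 := by norm_num
        rw [this]
        linarith
      have k4 : ‖-(3 * y ^ 2)‖ ≤ 12 * U ^ 2 := by
        rw [norm_neg, norm_mul]
        have : ‖(3 : ℂ)‖ = 3 := by norm_num
        rw [this]
        linarith
      rw [e]
      refine ((norm_add_le _ _).trans (add_le_add k3 ((norm_add_le _ _).trans
        (add_le_add k4 hyU)))).trans ?_
      have k5 : 100 / ‖κ‖ ^ 2 = 400 * U ^ 2 := by
        calc 100 / ‖κ‖ ^ 2 = 100 * (1 / ‖κ‖) ^ 2 := by ring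
          _ = _ := by rw [hκU]; ring
      rw [k5]
      nlinarith
    · have e : 6 * y ^ 4 - 12 * y ^ 3 + 7 * y ^ 2 - y - 6 * u ^ 4 =
          6 * ((y - u) * (y ^ 3 + y ^ 2 * u + y * u ^ 2 + u ^ 3)) + (-(12 * y ^ 3) + (7 * y ^ 2 + -y)) := by
        ring
      have k1 : ‖y ^ 3 + y ^ 2 * u + y * u ^ 2 + u ^ 3‖ ≤ 15 * U ^ 3 := by
        refine norm_add₄_le.trans ?_
        rw [g5]
        linarith
      have k2 : ‖(y - u) * (y ^ 3 + y ^ 2 * u + y * u ^ 2 + u ^ 3)‖ ≤ 3 * (15 * U ^ 3) := by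
        rw [norm_mul]
        exact mul_le_mul he k1 (norm_nonneg _) (by norm_num)
      have k3 : ‖6 * ((y - u) * (y ^ 3 + y ^ 2 * u + y * u ^ 2 + u ^ 3))‖ ≤ 270 * U ^ 3 := by
        rw [norm_mul]
        have : ‖(6 : ℂ)‖ = 6 := by norm_num
        rw [this]
        linarith
      have k4 : ‖-(12 * y ^ 3)‖ ≤ 96 * U ^ 3 := by
        rw [norm_neg, norm_mul]
        have : ‖(12 : ℂ)‖ = 12 := by norm_num
        rw [this]
        linarith
      have k6 : ‖7 * y ^ 2‖ ≤ 28 * U ^ 2 := by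
        rw [norm_mul]
        have : ‖(7 : ℂ)‖ = 7 := by norm_num
        rw [this]
        linarith
      have k7 : ‖-y‖ ≤ 2 * U := by
        rw [norm_neg]
        exact hyU
      rw [e]
      refine ((norm_add_le _ _).trans (add_le_add k3 ((norm_add_le _ _).trans
        (add_le_add k4 ((norm_add_le _ _).trans (add_le_add k6 k7)))))).trans ?_
      have k5 : 1000 / ‖κ‖ ^ 3 = 8000 * U ^ 3 := by
        calc 1000 / ‖κ‖ ^ 3 = 1000 * (1 / ‖κ‖) ^ 3 := by ring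
          _ = _ := by rw [hκU]; ring
      rw [k5]
      have m1 : U ^ 2 ≤ U ^ 3 := by
        have : U ^ 3 = U ^ 2 * U := by ring
        rw [this]
        exact le_mul_of_one_le_right (by positivity) (by linarith)
      have m2 : U ≤ U ^ 3 := by nlinarith
      have m3 : 0 < U ^ 3 := by positivity
      linarith
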